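import Pool.Agent.Lib.MP_6e7c44_mp.Step

-- part Pool.Agent.Lib.MP_6e7c44_mp.Escape
section

/-!
An escape criterion: a tight binary and a third body that recedes fast enough separate for ever.
-/

set_option autoImplicit false

namespace Pool.Agent.Lib.MP_6e7c44_mp

open Set Filter Topology

def dot (a b : ℂ) : ℝ := a.re * b.re + a.im * b.im
def cr (a b : ℂ) : ℝ := a.re * b.im - a.im * b.re

lemma sq_norm' (a : ℂ) : ‖a‖ ^ 2 = a.re ^ 2 + a.im ^ 2 := by
  rw [Complex.sq_norm, Complex.normSq_apply]; ring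

lemma dot_cr (a b : ℂ) : dot a b ^ 2 + cr a b ^ 2 = ‖a‖ ^ 2 * ‖b‖ ^ 2 := by
  rw [sq_norm', sq_norm']; unfold dot cr; ring

lemma abs_dot_le (a b : ℂ) : |dot a b| ≤ ‖a‖ * ‖b‖ := by
  apply abs_le_of_sq_le_sq _ (by positivity)
  rw [mul_pow, ← dot_cr]; nlinarith [sq_nonneg (cr a b)]

lemma abs_cr_le (a b : ℂ) : |cr a b| ≤ ‖a‖ * ‖b‖ := by
  apply abs_le_of_sq_le_sq _ (by positivity)
  rw [mul_pow, ← dot_cr]; nlinarith [sq_nonneg (dot a b)]

lemma dot_self (a : ℂ) : dot a a = ‖a‖ ^ 2 := by rw [sq_norm']; unfold dot; ring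

lemma hd_re {f : ℝ → ℂ} {f' : ℂ} {t : ℝ} (h : HasDerivAt f f' t) :
    HasDerivAt (fun s => (f s).re) f'.re t := Complex.reCLM.hasFDerivAt.comp_hasDerivAt t h

lemma hd_im {f : ℝ → ℂ} {f' : ℂ} {t : ℝ} (h : HasDerivAt f f' t) :
    HasDerivAt (fun s => (f s).im) f'.im t := Complex.imCLM.hasFDerivAt.comp_hasDerivAt t h

lemma hd_dot {f g : ℝ → ℂ} {f' g' : ℂ} {t : ℝ} (hf : HasDerivAt f f' t) (hg : HasDerivAt g g' t) :
    HasDerivAt (fun s => dot (f s) (g s)) (dot f' (g t) + dot (f t) g') t :=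
  hd_congr (((hd_re hf).mul (hd_re hg)).add ((hd_im hf).mul (hd_im hg))) (fun _ => rfl)
    (by unfold dot; ring)

lemma hd_cr {f g : ℝ → ℂ} {f' g' : ℂ} {t : ℝ} (hf : HasDerivAt f f' t) (hg : HasDerivAt g g' t) :
    HasDerivAt (fun s => cr (f s) (g s)) (cr f' (g t) + cr (f t) g') t :=
  hd_congr (((hd_re hf).mul (hd_im hg)).sub ((hd_im hf).mul (hd_re hg))) (fun _ => rfl)
    (by unfold cr; ring)

lemma hd_norm {f : ℝ → ℂ} {f' : ℂ} {t : ℝ} (hf : HasDerivAt f f' t) (h : 0 < ‖f t‖) :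
    HasDerivAt (fun s => ‖f s‖) (dot (f t) f' / ‖f t‖) t := by
  have h1 := (hd_dot hf hf).sqrt (by rw [dot_self]; positivity)
  refine hd_congr h1 (fun s => by rw [dot_self, Real.sqrt_sq (norm_nonneg _)]) ?_
  rw [dot_self, Real.sqrt_sq h.le]
  unfold dot; field_simp; ring

lemma mono_of_deriv {F F' : ℝ → ℝ} {a b : ℝ} (hab : a ≤ b)
    (h1 : ∀ t ∈ Icc a b, HasDerivAt F (F' t) t) (h2 : ∀ t ∈ Icc a b, 0 ≤ F' t) : F a ≤ F b := by
  have := monotoneOn_of_hasDerivWithinAt_nonneg (convex_Icc a b) (f := F) (f' := F')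
    (fun t ht => (h1 t ht).continuousAt.continuousWithinAt)
    (fun t ht => (h1 t (interior_subset ht)).hasDerivWithinAt)
    (fun t ht => h2 t (interior_subset ht))
  exact this ⟨le_rfl, hab⟩ ⟨hab, le_rfl⟩ hab

/-- The comparison function for the accumulated tidal effect. -/
noncomputable def phi (k σ : ℝ) : ℝ := 1 / (2 * k * σ) + k / (8 * σ ^ 2)

lemma hd_phi {σ : ℝ → ℝ} {u k t : ℝ} (hk : 0 < k) (h : HasDerivAt σ u t) (h0 : 0 < σ t) :
    HasDerivAt (fun s => phi k (σ s)) (-(u / σ t ^ 3 * (σ t / (2 * k) + k / 4))) t := by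
  have a1 := ((h.const_mul (2 * k)).inv (by positivity)).add
    ((((h.pow 2).const_mul 8).inv (by simp only [Pi.pow_apply]; positivity)).const_mul k)
  refine hd_congr a1 (fun s => by simp [phi, div_eq_mul_inv]) ?_
  simp only [Pi.pow_apply]
  field_simp
  ring

lemma amgm {u σ k : ℝ} (hk : 0 < k) (hσ : 0 < σ) (hu : 0 ≤ u) (h : 1 / σ ≤ u ^ 2 / 2) :
    1 / σ ^ 3 ≤ u / σ ^ 3 * (σ / (2 * k) + k / 4) := by
  have a1 : σ / 2 ≤ (σ / (2 * k) + k / 4) ^ 2 := by
    have e : (σ / (2 * k) + k / 4) ^ 2 - σ / 2 = (σ / (2 * k) - k / 4) ^ 2 := by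
      field_simp; ring
    nlinarith [sq_nonneg (σ / (2 * k) - k / 4)]
  have a2 : 2 ≤ u ^ 2 * σ := by
    rw [div_le_div_iff₀ hσ (by norm_num)] at h; linarith
  have a3 : 1 ≤ u * (σ / (2 * k) + k / 4) := by
    apply abs_le_of_sq_le_sq' _ (by positivity) |>.2
    rw [mul_pow]
    nlinarith [mul_le_mul_of_nonneg_left a1 (sq_nonneg u)]
  rw [div_mul_eq_mul_div]
  gcongr

theorem escape_abs {x p y w τ g : ℝ → ℂ} {T ν c1 α β s0 k q v0 L0 : ℝ}
    (hx : ∀ t, HasDerivAt x (p t) t) (hp : ∀ t, HasDerivAt p (-(ν • fc (x t)) + τ t) t)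
    (hy : ∀ t, HasDerivAt y (w t) t) (hw : ∀ t, HasDerivAt w (g t) t)
    (hτ : ∀ t, ‖x t‖ ≤ α → s0 ≤ ‖y t‖ →
      ‖τ t‖ ≤ c1 * ‖x t‖ / (‖y t‖ - β) ^ 3 ∧ ‖g t‖ ≤ 1 / (‖y t‖ - β) ^ 2)
    (hν : 0 < ν) (hc1 : 0 ≤ c1) (hβ : 0 ≤ β) (hs0 : β < s0) (hk : 0 < k) (hq : 0 ≤ q)
    (hq2 : 2 * ν * α ≤ q ^ 2) (hv0 : 0 < v0) (hα : 0 < α)
    (i1 : 1 / 100 ≤ ‖x T‖) (i2 : s0 < ‖y T‖) (i3 : 0 ≤ dot (y T) (w T))
    (i4 : v0 ^ 2 / 2 ≤ (dot (y T) (w T) / ‖y T‖) ^ 2 / 2 - 1 / (‖y T‖ - β))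
    (i5 : ‖p T‖ ^ 2 / 2 - ν / ‖x T‖ + c1 * q * phi k (‖y T‖ - β) < -(ν / α))
    (i6 : L0 ≤ cr (x T) (p T) - c1 * α ^ 2 * phi k (‖y T‖ - β)) (hL0 : 0 ≤ L0)
    (hL : 2 * ν / 100 < L0 ^ 2) :
    ∀ t, T ≤ t → 1 / 100 ≤ ‖x t‖ ∧ ‖x t‖ ≤ α ∧ ‖y T‖ + v0 * (t - T) ≤ ‖y t‖ := by
  let S : Set ℝ := {t | 1 / 100 ≤ ‖x t‖ ∧ ‖x t‖ ≤ α ∧ s0 ≤ ‖y t‖ ∧ 0 ≤ dot (y t) (w t) ∧
    ‖p t‖ ^ 2 * ‖x t‖ ≤ 2 * ν}
  have phi0 : ∀ σ, 0 < σ → 0 ≤ phi k σ := fun σ h => by unfold phi; positivity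
  have neg_e : ∀ {r P : ℝ}, 0 < r → P ^ 2 / 2 - ν / r < -(ν / α) → r < α ∧ P ^ 2 * r < 2 * ν := by
    intro r P hr h
    have a1 : ν / α < ν / r := by nlinarith [sq_nonneg P]
    have a2 : 0 < ν / α := by positivity
    refine ⟨?_, ?_⟩
    · rw [div_lt_div_iff₀ hα hr] at a1
      exact lt_of_mul_lt_mul_left a1 hν.le
    · have : P ^ 2 / 2 < ν / r := by linarith
      rw [div_lt_div_iff₀ (by norm_num) hr] at this
      linarith
  have core : ∀ t1, T ≤ t1 → Icc T t1 ⊆ S →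
      (1 / 100 < ‖x t1‖ ∧ ‖x t1‖ < α ∧ s0 < ‖y t1‖ ∧ 0 < dot (y t1) (w t1) ∧
        ‖p t1‖ ^ 2 * ‖x t1‖ < 2 * ν) ∧ ‖y T‖ + v0 * (t1 - T) ≤ ‖y t1‖ := by
    intro t1 ht1 hS
    have hys : ∀ t ∈ Icc T t1, 0 < ‖y t‖ := fun t ht => by linarith [(hS ht).2.2.1]
    have hσ : ∀ t ∈ Icc T t1, 0 < ‖y t‖ - β := fun t ht => by linarith [(hS ht).2.2.1]
    have hxr : ∀ t ∈ Icc T t1, 0 < ‖x t‖ := fun t ht => by linarith [(hS ht).1]
    let u : ℝ → ℝ := fun t => dot (y t) (w t) / ‖y t‖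
    have hu0 : ∀ t ∈ Icc T t1, 0 ≤ u t := fun t ht => div_nonneg (hS ht).2.2.2.1 (norm_nonneg _)
    have hs : ∀ t ∈ Icc T t1, HasDerivAt (fun s => ‖y s‖) (u t) t :=
      fun t ht => hd_norm (hy t) (hys t ht)
    have hsσ : ∀ t ∈ Icc T t1, HasDerivAt (fun s => ‖y s‖ - β) (u t) t :=
      fun t ht => (hs t ht).sub_const β
    let u' : ℝ → ℝ := fun t =>
      ((dot (w t) (w t) + dot (y t) (g t)) * ‖y t‖ - dot (y t) (w t) * u t) / ‖y t‖ ^ 2
    have hu : ∀ t ∈ Icc T t1, HasDerivAt u (u' t) t :=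
      fun t ht => (hd_dot (hy t) (hw t)).div (hs t ht) (hys t ht).ne'
    have hu' : ∀ t ∈ Icc T t1, -(1 / (‖y t‖ - β) ^ 2) ≤ u' t := by
      intro t ht
      have a0 := hys t ht
      have a1 := (hτ t (hS ht).2.1 (hS ht).2.2.1).2
      have a2 := (abs_le.mp (abs_dot_le (y t) (g t))).1
      have a3 := dot_cr (y t) (w t)
      have e : u' t = cr (y t) (w t) ^ 2 / ‖y t‖ ^ 3 + dot (y t) (g t) / ‖y t‖ := by
        simp only [u', u]
        rw [dot_self]
        have : cr (y t) (w t) ^ 2 = ‖y t‖ ^ 2 * ‖w t‖ ^ 2 - dot (y t) (w t) ^ 2 := by linarith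
        rw [this]; field_simp; ring
      have a4 : -‖g t‖ ≤ dot (y t) (g t) / ‖y t‖ := by
        rw [le_div_iff₀ a0]; linarith
      have a5 : 0 ≤ cr (y t) (w t) ^ 2 / ‖y t‖ ^ 3 := by positivity
      linarith
    have hG : ∀ t ∈ Icc T t1, v0 ^ 2 / 2 ≤ u t ^ 2 / 2 - 1 / (‖y t‖ - β) := by
      intro t ht
      refine le_trans i4 ?_
      apply mono_of_deriv (F := fun s => u s ^ 2 / 2 - 1 / (‖y s‖ - β))
        (F' := fun s => u s * (u' s + 1 / (‖y s‖ - β) ^ 2)) ht.1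
      · intro s hs'
        have hs2 : s ∈ Icc T t1 := ⟨hs'.1, le_trans hs'.2 ht.2⟩
        have a1 := (((hu s hs2).pow 2).div_const 2).sub ((hsσ s hs2).inv (hσ s hs2).ne')
        refine hd_congr a1 (fun _ => by simp) ?_
        simp; ring
      · intro s hs'
        have hs2 : s ∈ Icc T t1 := ⟨hs'.1, le_trans hs'.2 ht.2⟩
        exact mul_nonneg (hu0 s hs2) (by linarith [hu' s hs2])
    have huv : ∀ t ∈ Icc T t1, v0 ≤ u t := by
      intro t ht
      apply abs_le_of_sq_le_sq' _ (hu0 t ht) |>.2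
      have a1 := hG t ht
      have a2 : 0 < 1 / (‖y t‖ - β) := by have := hσ t ht; positivity
      linarith
    have hAM : ∀ t ∈ Icc T t1, 1 / (‖y t‖ - β) ^ 3
        ≤ u t / (‖y t‖ - β) ^ 3 * ((‖y t‖ - β) / (2 * k) + k / 4) := by
      intro t ht
      apply amgm hk (hσ t ht) (hu0 t ht)
      nlinarith [hG t ht, sq_nonneg v0]
    have hgrow : ‖y T‖ + v0 * (t1 - T) ≤ ‖y t1‖ := by
      have := mono_of_deriv (F := fun s => ‖y s‖ - v0 * s) (F' := fun s => u s - v0) ht1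
        (fun s hs' => hd_congr ((hs s hs').sub ((hasDerivAt_id s).const_mul v0))
          (fun _ => rfl) (by simp))
        (fun s hs' => by linarith [huv s hs'])
      linarith
    have hτ' : ∀ t ∈ Icc T t1, ‖τ t‖ ≤ c1 * ‖x t‖ * (1 / (‖y t‖ - β) ^ 3) := fun t ht => by
      have := (hτ t (hS ht).2.1 (hS ht).2.2.1).1
      rwa [div_eq_mul_one_div] at this
    have hE : ‖p t1‖ ^ 2 / 2 - ν / ‖x t1‖ + c1 * q * phi k (‖y t1‖ - β)
        ≤ ‖p T‖ ^ 2 / 2 - ν / ‖x T‖ + c1 * q * phi k (‖y T‖ - β) := by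
      have := mono_of_deriv
        (F := fun s => -(dot (p s) (p s) / 2 - ν / ‖x s‖ + c1 * q * phi k (‖y s‖ - β)))
        (F' := fun s => -(dot (p s) (τ s)) + c1 * q *
          (u s / (‖y s‖ - β) ^ 3 * ((‖y s‖ - β) / (2 * k) + k / 4))) ht1
        (by
          intro s hs'
          have a0 := hxr s hs'
          have a1 := ((((hd_dot (hp s) (hp s)).div_const 2).sub
            (((hd_norm (hx s) a0).inv a0.ne').const_mul ν)).add
            ((hd_phi hk (hsσ s hs') (hσ s hs')).const_mul (c1 * q))).neg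
          refine hd_congr a1 (fun _ => by simp [div_eq_mul_inv]) ?_
          rw [fc_eq (hS hs').1]
          simp only [ff, dot, Complex.add_re, Complex.add_im, Complex.neg_re, Complex.neg_im,
            Complex.smul_re, Complex.smul_im, smul_eq_mul]
          field_simp
          ring)
        (by
          intro s hs'
          have a0 := hxr s hs'
          have a1 := hτ' s hs'
          have a2 := (abs_le.mp (abs_dot_le (p s) (τ s))).2
          have a3 : ‖p s‖ * ‖x s‖ ≤ q := by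
            apply abs_le_of_sq_le_sq' _ hq |>.2
            have b1 := (hS hs').2.2.2.2
            have b2 := (hS hs').2.1
            nlinarith
          have a4 : 0 ≤ 1 / (‖y s‖ - β) ^ 3 := by have := hσ s hs'; positivity
          have a5 := hAM s hs'
          have a6 : ‖p s‖ * ‖τ s‖ ≤ c1 * q * (1 / (‖y s‖ - β) ^ 3) := by
            calc ‖p s‖ * ‖τ s‖ ≤ ‖p s‖ * (c1 * ‖x s‖ * (1 / (‖y s‖ - β) ^ 3)) := by gcongr
              _ = c1 * (‖p s‖ * ‖x s‖) * (1 / (‖y s‖ - β) ^ 3) := by ring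
              _ ≤ c1 * q * (1 / (‖y s‖ - β) ^ 3) := by gcongr
          have a7 := mul_le_mul_of_nonneg_left a5 (mul_nonneg hc1 hq)
          linarith)
      simp only [dot_self] at this
      linarith
    have hLL : cr (x T) (p T) - c1 * α ^ 2 * phi k (‖y T‖ - β)
        ≤ cr (x t1) (p t1) - c1 * α ^ 2 * phi k (‖y t1‖ - β) := by
      exact mono_of_deriv
        (F := fun s => cr (x s) (p s) - c1 * α ^ 2 * phi k (‖y s‖ - β))
        (F' := fun s => cr (x s) (τ s) + c1 * α ^ 2 *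
          (u s / (‖y s‖ - β) ^ 3 * ((‖y s‖ - β) / (2 * k) + k / 4))) ht1
        (by
          intro s hs'
          have a1 := (hd_cr (hx s) (hp s)).sub
            ((hd_phi hk (hsσ s hs') (hσ s hs')).const_mul (c1 * α ^ 2))
          refine hd_congr a1 (fun _ => rfl) ?_
          simp only [fc, cr, Complex.add_re, Complex.add_im, Complex.neg_re, Complex.neg_im,
            Complex.smul_re, Complex.smul_im, smul_eq_mul]
          ring)
        (by
          intro s hs'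
          have a1 := hτ' s hs'
          have a2 := (abs_le.mp (abs_cr_le (x s) (τ s))).1
          have b2 := (hS hs').2.1
          have a4 : 0 ≤ 1 / (‖y s‖ - β) ^ 3 := by have := hσ s hs'; positivity
          have a5 := hAM s hs'
          have a6 : ‖x s‖ * ‖τ s‖ ≤ c1 * α ^ 2 * (1 / (‖y s‖ - β) ^ 3) := by
            calc ‖x s‖ * ‖τ s‖ ≤ ‖x s‖ * (c1 * ‖x s‖ * (1 / (‖y s‖ - β) ^ 3)) := by gcongr
              _ = c1 * ‖x s‖ ^ 2 * (1 / (‖y s‖ - β) ^ 3) := by ring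
              _ ≤ c1 * α ^ 2 * (1 / (‖y s‖ - β) ^ 3) := by gcongr
          have a7 := mul_le_mul_of_nonneg_left a5 (mul_nonneg hc1 (sq_nonneg α))
          linarith)
    have ht1' : t1 ∈ Icc T t1 := ⟨ht1, le_rfl⟩
    have b0 := phi0 _ (hσ t1 ht1')
    have b1 : 0 ≤ c1 * q * phi k (‖y t1‖ - β) := by positivity
    have b2 : 0 ≤ c1 * α ^ 2 * phi k (‖y t1‖ - β) := by positivity
    obtain ⟨b3, b4⟩ := neg_e (P := ‖p t1‖) (hxr t1 ht1') (by linarith)
    have b5 : L0 ≤ cr (x t1) (p t1) := by linarith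
    have b6 : L0 ^ 2 ≤ ‖x t1‖ ^ 2 * ‖p t1‖ ^ 2 := by
      have := pow_le_pow_left₀ hL0 b5 2
      nlinarith [dot_cr (x t1) (p t1), sq_nonneg (dot (x t1) (p t1))]
    have b7 : 1 / 100 < ‖x t1‖ := by
      have := hxr t1 ht1'
      nlinarith
    have b8 : 0 < dot (y t1) (w t1) := by
      have a1 := huv t1 ht1'
      have a2 := hys t1 ht1'
      have a3 : 0 < dot (y t1) (w t1) / ‖y t1‖ := lt_of_lt_of_le hv0 a1
      exact (div_pos_iff_of_pos_right a2).mp a3
    refine ⟨⟨b7, b3, ?_, b8, b4⟩, hgrow⟩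
    nlinarith
  have cx : Continuous x := continuous_iff_continuousAt.mpr fun t => (hx t).continuousAt
  have cp : Continuous p := continuous_iff_continuousAt.mpr fun t => (hp t).continuousAt
  have cy : Continuous y := continuous_iff_continuousAt.mpr fun t => (hy t).continuousAt
  have cw : Continuous w := continuous_iff_continuousAt.mpr fun t => (hw t).continuousAt
  have cd : Continuous fun t => dot (y t) (w t) := by unfold dot; fun_prop
  have cpx : Continuous fun t => ‖p t‖ ^ 2 * ‖x t‖ := by fun_prop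
  have hclosed : IsClosed S :=
    (isClosed_le continuous_const cx.norm).inter ((isClosed_le cx.norm continuous_const).inter
      ((isClosed_le continuous_const cy.norm).inter ((isClosed_le continuous_const cd).inter
        (isClosed_le cpx continuous_const))))
  have hT : T ∈ S := by
    have b0 := phi0 (‖y T‖ - β) (by linarith)
    have b1 : 0 ≤ c1 * q * phi k (‖y T‖ - β) := by positivity
    obtain ⟨b3, b4⟩ := neg_e (r := ‖x T‖) (P := ‖p T‖) (by linarith) (by linarith)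
    exact ⟨i1, b3.le, i2.le, i3, b4.le⟩
  intro t ht
  have hall : Icc T t ⊆ S := by
    apply (hclosed.inter isClosed_Icc).Icc_subset_of_forall_mem_nhdsGT_of_Icc_subset hT
    intro s hs hsub
    obtain ⟨⟨a1, a2, a3, a4, a5⟩, -⟩ := core s hs.1 hsub
    apply mem_nhdsWithin_of_mem_nhds
    filter_upwards [cx.norm.continuousAt.eventually (lt_mem_nhds a1),
      cx.norm.continuousAt.eventually (gt_mem_nhds a2),
      cy.norm.continuousAt.eventually (lt_mem_nhds a3),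
      cd.continuousAt.eventually (lt_mem_nhds a4),
      cpx.continuousAt.eventually (gt_mem_nhds a5)] with r b1 b2 b3 b4 b5
    exact ⟨b1.le, b2.le, b3.le, b4.le, b5.le⟩
  obtain ⟨⟨a1, a2, -⟩, a3⟩ := core t ht hall
  exact ⟨a1.le, a2.le, a3⟩

end Pool.Agent.Lib.MP_6e7c44_mp
end

-- part Pool.Agent.Lib.MP_6e7c44_mp.Escape2
section

/-!
The escape criterion applied at the final state of the validated integration.
-/

set_option autoImplicit false

namespace Pool.Agent.Lib.MP_6e7c44_mp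

open Set

/-- Replacing a reference state by a coarser one. -/
def relaxOK (s s' : St) : Bool :=
  decide (s.a + 2 * (|s.x0 - s'.x0| + |s.y0 - s'.y0| + |s.x1 - s'.x1| + |s.y1 - s'.y1|) ≤ s'.a)
    && decide (s.b + 2 * (|s.u0 - s'.u0| + |s.w0 - s'.w0| + |s.u1 - s'.u1| + |s.w1 - s'.w1|) ≤ s'.b)

lemma Near.relax {d v : ℝ → Fin 3 → ℂ} {t : ℝ} {s s' : St} (h : Near d v t s)
    (hr : relaxOK s s' = true) : Near d v t s' := by
  simp only [relaxOK, Bool.and_eq_true, decide_eq_true_eq] at hr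
  have h1 := (Rat.cast_le (K := ℝ)).mpr hr.1
  have h2 := (Rat.cast_le (K := ℝ)).mpr hr.2
  push_cast at h1 h2
  have a1 := n3_sub_le (d t) s.D s'.D
  have a2 := n3_sub_le (v t) s.V s'.V
  have a3 := n3_tri ((s.x0 : ℝ) - s'.x0) (s.y0 - s'.y0) (s.x1 - s'.x1) (s.y1 - s'.y1)
  have a4 := n3_tri ((s.u0 : ℝ) - s'.u0) (s.w0 - s'.w0) (s.u1 - s'.u1) (s.w1 - s'.w1)
  rw [← tri_sub] at a3 a4
  unfold St.D at a1
  unfold St.V at a2
  have b1 := h.1
  have b2 := h.2
  unfold St.D at b1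
  unfold St.V at b2
  exact ⟨by unfold St.D; linarith, by unfold St.V; linarith⟩

/-- The coarse final state. -/
def sF : St := ⟨244467 / 100000, -76905 / 100000, -247151 / 100000, 33517 / 100000,
  141364 / 100000, 34849 / 100000, -72193 / 100000, -21140 / 100000, 1 / 10000, 1 / 10000⟩

lemma dot_pert (a b A B : ℂ) : dot A B - (‖a - A‖ * ‖b‖ + ‖A‖ * ‖b - B‖) ≤ dot a b := by
  have h1 := (abs_le.mp (abs_dot_le (a - A) b)).1
  have h2 := (abs_le.mp (abs_dot_le A (b - B))).1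
  have e : dot a b = dot A B + dot (a - A) b + dot A (b - B) := by simp [dot]; ring
  linarith

lemma cr_pert (a b A B : ℂ) : cr A B - (‖a - A‖ * ‖b‖ + ‖A‖ * ‖b - B‖) ≤ cr a b := by
  have h1 := (abs_le.mp (abs_cr_le (a - A) b)).1
  have h2 := (abs_le.mp (abs_cr_le A (b - B))).1
  have e : cr a b = cr A B + cr (a - A) b + cr A (b - B) := by simp [cr]; ring
  linarith

lemma norm_between {a A : ℂ} {ε lo hi : ℝ} (h : ‖a - A‖ ≤ ε) (_hlo : 0 ≤ lo) (hhi : 0 ≤ hi)
    (h1 : lo ^ 2 ≤ A.re ^ 2 + A.im ^ 2) (h2 : A.re ^ 2 + A.im ^ 2 ≤ hi ^ 2) :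
    lo - ε ≤ ‖a‖ ∧ ‖a‖ ≤ hi + ε ∧ ‖A‖ ≤ hi := by
  rw [← sq_norm'] at h1 h2
  have a1 : lo ≤ ‖A‖ := (abs_le_of_sq_le_sq' h1 (norm_nonneg _)).2
  have a2 : ‖A‖ ≤ hi := (abs_le_of_sq_le_sq' h2 hhi).2
  have a3 := abs_le.mp (abs_norm_sub_norm_le a A)
  exact ⟨by linarith [a3.1], by linarith [a3.2], a2⟩

theorem escape_final {μ : Fin 3 → ℝ} {d v : ℝ → Fin 3 → ℂ} (hs : Sol μ d v)
    (hμ : ∀ k, |μ k - 1 / 3| ≤ 1 / 1000000) (hsum : μ 0 + μ 1 + μ 2 = 1)
    (hz : ∀ t, d t 0 + d t 1 + d t 2 = 0) {T : ℝ} (hn : Near d v T sF) :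
    ∀ t, T ≤ t → (∀ k, 1 / 100 ≤ ‖d t k‖) ∧ 2 + 1 / 5 * (t - T) ≤ ‖d t 0‖ := by
  have m0 := abs_le.mp (hμ 0)
  have m1 := abs_le.mp (hμ 1)
  have m2 := abs_le.mp (hμ 2)
  have hν : 0 < μ 0 + μ 1 := by linarith
  obtain ⟨θ, hθ⟩ : ∃ θ, θ = μ 0 / (μ 0 + μ 1) := ⟨_, rfl⟩
  have hθ1 : θ * (μ 0 + μ 1) = μ 0 := by rw [hθ]; field_simp
  have hθ2 : |θ - 1 / 2| ≤ 1 / 100000 := by
    rw [abs_le]; constructor <;> nlinarith
  have hθ3 := abs_le.mp hθ2
  have hd : ∀ k t, HasDerivAt (fun s => d s k) (v t k) t := fun k t => hasDerivAt_pi.mp (hs.hd t) k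
  have hv : ∀ k t, HasDerivAt (fun s => v s k) (GG μ (d t) k) t :=
    fun k t => hasDerivAt_pi.mp (hs.hv t) k
  let y : ℝ → ℂ := fun t => d t 0 + θ • d t 2
  let w : ℝ → ℂ := fun t => v t 0 + θ • v t 2
  have e0 : ∀ t, d t 0 = y t - θ • d t 2 := fun t => by simp [y]
  have e1 : ∀ t, d t 1 = -(y t + (1 - θ) • d t 2) := fun t => by
    have := hz t
    simp only [y, sub_smul, one_smul]
    linear_combination this
  have low : ∀ t, ‖d t 2‖ ≤ 29 / 50 →
      ‖y t‖ - 2929 / 10000 ≤ ‖d t 0‖ ∧ ‖y t‖ - 2929 / 10000 ≤ ‖d t 1‖ := by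
    intro t h
    have n0 := norm_nonneg (d t 2)
    constructor
    · have a1 := norm_sub_norm_le (y t) (θ • d t 2)
      rw [← e0, norm_smul, Real.norm_of_nonneg (by linarith)] at a1
      nlinarith
    · have a1 := norm_sub_norm_le (y t) (-((1 - θ) • d t 2))
      rw [sub_neg_eq_add, ← norm_neg (y t + _), ← e1, norm_neg, norm_smul,
        Real.norm_of_nonneg (by linarith)] at a1
      nlinarith
  -- the numerical data at time `T`
  have ha : n3 (d T - sF.D) ≤ 1 / 10000 := by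
    have := hn.1; simp only [sF] at this; push_cast at this; exact this
  have hb : n3 (v T - sF.V) ≤ 1 / 10000 := by
    have := hn.2; simp only [sF] at this; push_cast at this; exact this
  have a0 : ‖d T 0 - sF.D 0‖ ≤ 1 / 10000 := le_trans (le_n3 (d T - sF.D) 0) ha
  have a2 : ‖d T 2 - sF.D 2‖ ≤ 1 / 10000 := le_trans (le_n3 (d T - sF.D) 2) ha
  have b0 : ‖v T 0 - sF.V 0‖ ≤ 1 / 10000 := le_trans (le_n3 (v T - sF.V) 0) hb
  have b2 : ‖v T 2 - sF.V 2‖ ≤ 1 / 10000 := le_trans (le_n3 (v T - sF.V) 2) hb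
  have D0 : sF.D 0 = ⟨244467 / 100000, -76905 / 100000⟩ := by
    apply Complex.ext <;> simp [St.D, sF, tri]
  have D2 : sF.D 2 = ⟨2684 / 100000, 43388 / 100000⟩ := by
    apply Complex.ext <;> simp [St.D, sF, tri] <;> norm_num
  have V0 : sF.V 0 = ⟨141364 / 100000, 34849 / 100000⟩ := by
    apply Complex.ext <;> simp [St.V, sF, tri]
  have V2 : sF.V 2 = ⟨-69171 / 100000, -13709 / 100000⟩ := by
    apply Complex.ext <;> simp [St.V, sF, tri] <;> norm_num
  rw [D0] at a0; rw [D2] at a2; rw [V0] at b0; rw [V2] at b2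
  obtain ⟨x1, x2, x3⟩ := norm_between a2 (lo := 4347 / 10000) (hi := 4348 / 10000)
    (by norm_num) (by norm_num) (by norm_num) (by norm_num)
  obtain ⟨-, p2, p3⟩ := norm_between b2 (lo := 0) (hi := 7052 / 10000)
    (by norm_num) (by norm_num) (by norm_num) (by norm_num)
  have comb : ∀ {a b A B C : ℂ}, ‖a - A‖ ≤ 1 / 10000 → ‖b - B‖ ≤ 1 / 10000 → ‖b‖ ≤ 1 →
      C = A + (1 / 2 : ℝ) • B → ‖a + θ • b - C‖ ≤ 3 / 10000 := by
    intro a b A B C h1 h2 h3 h4
    have e : a + θ • b - C = (a - A) + ((1 / 2 : ℝ) • (b - B) + (θ - 1 / 2) • b) := by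
      rw [h4, smul_sub, sub_smul]; abel
    rw [e]
    have c1 := norm_add_le (a - A) ((1 / 2 : ℝ) • (b - B) + (θ - 1 / 2) • b)
    have c2 := norm_add_le ((1 / 2 : ℝ) • (b - B)) ((θ - 1 / 2) • b)
    rw [norm_smul, norm_smul, Real.norm_eq_abs, Real.norm_eq_abs,
      abs_of_pos (by norm_num : (0 : ℝ) < 1 / 2)] at c2
    have c3 : |θ - 1 / 2| * ‖b‖ ≤ 1 / 100000 * 1 := by gcongr
    linarith
  have y0 : ‖y T - ⟨245809 / 100000, -55211 / 100000⟩‖ ≤ 3 / 10000 :=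
    comb a0 a2 (by linarith) (by apply Complex.ext <;> simp <;> norm_num)
  have w0 : ‖w T - ⟨1067785 / 1000000, 279945 / 1000000⟩‖ ≤ 3 / 10000 :=
    comb b0 b2 (by linarith) (by apply Complex.ext <;> simp <;> norm_num)
  obtain ⟨y1, y2, y3⟩ := norm_between y0 (lo := 25193 / 10000) (hi := 25194 / 10000)
    (by norm_num) (by norm_num) (by norm_num) (by norm_num)
  obtain ⟨-, w2, w3⟩ := norm_between w0 (lo := 0) (hi := 11039 / 10000)
    (by norm_num) (by norm_num) (by norm_num) (by norm_num)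
  have hdot : 2469 / 1000 ≤ dot (y T) (w T) := by
    have c1 := dot_pert (y T) (w T) ⟨245809 / 100000, -55211 / 100000⟩
      ⟨1067785 / 1000000, 279945 / 1000000⟩
    have c2 : dot ⟨245809 / 100000, -55211 / 100000⟩ ⟨1067785 / 1000000, 279945 / 1000000⟩
        ≥ 247015 / 100000 := by norm_num [dot]
    have c3 := mul_le_mul y0 w2 (norm_nonneg _) (by norm_num)
    have c4 := mul_le_mul y3 w0 (norm_nonneg _) (by norm_num)
    linarith
  have hcr : 296 / 1000 ≤ cr (d T 2) (v T 2) := by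
    have c1 := cr_pert (d T 2) (v T 2) ⟨2684 / 100000, 43388 / 100000⟩
      ⟨-69171 / 100000, -13709 / 100000⟩
    have c2 : cr ⟨2684 / 100000, 43388 / 100000⟩ ⟨-69171 / 100000, -13709 / 100000⟩
        ≥ 2964 / 10000 := by norm_num [cr]
    have c3 := mul_le_mul a2 p2 (norm_nonneg _) (by norm_num)
    have c4 := mul_le_mul x3 b2 (norm_nonneg _) (by norm_num)
    linarith
  have hphi : phi 3 (‖y T‖ - 2929 / 10000) ≤ 1506 / 10000 := by
    have c0 : (2226 / 1000 : ℝ) ≤ ‖y T‖ - 2929 / 10000 := by linarith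
    unfold phi
    calc 1 / (2 * 3 * (‖y T‖ - 2929 / 10000)) + 3 / (8 * (‖y T‖ - 2929 / 10000) ^ 2)
        ≤ 1 / (2 * 3 * (2226 / 1000)) + 3 / (8 * (2226 / 1000) ^ 2) := by gcongr
      _ ≤ 1506 / 10000 := by norm_num
  have key := escape_abs (x := fun t => d t 2) (p := fun t => v t 2) (y := y) (w := w)
    (τ := fun t => μ 2 • (fc (d t 0) + fc (d t 1)))
    (g := fun t => -((1 - θ) • fc (d t 0)) + θ • fc (d t 1)) (T := T) (ν := μ 0 + μ 1)
    (c1 := 667 / 1000) (α := 29 / 50) (β := 2929 / 10000) (s0 := 5 / 2) (k := 3) (q := 22 / 25)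
    (v0 := 1 / 5) (L0 := 13 / 50) (hd 2)
    (fun t => hd_congr (hv 2 t) (fun _ => rfl) (by
      have : μ 0 + μ 1 = 1 - μ 2 := by linarith
      simp only [GG, Fin.sum_univ_three, this, smul_add, sub_smul, one_smul]; abel))
    (fun t => (hd 0 t).add ((hd 2 t).const_smul θ))
    (fun t => hd_congr ((hv 0 t).add ((hv 2 t).const_smul θ)) (fun _ => rfl) (by
      have h0 : μ 0 = θ - θ * μ 2 := by
        have : μ 0 + μ 1 = 1 - μ 2 := by linarith
        rw [this] at hθ1; linarith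
      simp only [GG, Fin.sum_univ_three, h0]
      module))
    (by
      intro t h1 h2
      obtain ⟨l0, l1⟩ := low t h1
      have s0 : 0 < ‖y t‖ - 2929 / 10000 := by linarith
      rw [fc_eq (x := d t 0) (by linarith), fc_eq (x := d t 1) (by linarith)]
      constructor
      · have c1 : ff (d t 0) + ff (d t 1) = ff (d t 0) - ff (-d t 1) := by
          simp [ff]
        have c2 := ff_lip s0 l0 (y := -d t 1) (by rwa [norm_neg])
        have c3 : d t 0 - -d t 1 = -d t 2 := by linear_combination hz t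
        rw [c3, norm_neg] at c2
        rw [norm_smul, Real.norm_of_nonneg (by linarith), c1]
        calc μ 2 * ‖ff (d t 0) - ff (-d t 1)‖
            ≤ (667 / 2000) * (2 / (‖y t‖ - 2929 / 10000) ^ 3 * ‖d t 2‖) := by
              gcongr; linarith
          _ = _ := by ring
      · have c0 : ‖ff (d t 0)‖ ≤ 1 / (‖y t‖ - 2929 / 10000) ^ 2 := by
          rw [norm_ff (by linarith), one_div]; gcongr
        have c1 : ‖ff (d t 1)‖ ≤ 1 / (‖y t‖ - 2929 / 10000) ^ 2 := by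
          rw [norm_ff (by linarith), one_div]; gcongr
        refine le_trans (norm_add_le _ _) ?_
        rw [norm_neg, norm_smul, norm_smul, Real.norm_of_nonneg (by linarith),
          Real.norm_of_nonneg (by linarith)]
        have c2 := mul_le_mul_of_nonneg_left c0 (by linarith : 0 ≤ 1 - θ)
        have c3 := mul_le_mul_of_nonneg_left c1 (by linarith : 0 ≤ θ)
        linarith)
    hν (by norm_num) (by norm_num) (by norm_num) (by norm_num) (by norm_num) (by linarith)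
    (by norm_num) (by norm_num) (by linarith) (by linarith) (by linarith)
    (by
      have c1 : 9798 / 10000 ≤ dot (y T) (w T) / ‖y T‖ := by
        rw [le_div_iff₀ (by linarith)]; linarith
      have c2 := pow_le_pow_left₀ (by norm_num) c1 2
      have c3 : 1 / (‖y T‖ - 2929 / 10000) ≤ 1 / (2226 / 1000) := by gcongr; linarith
      linarith)
    (by
      have c1 : ‖v T 2‖ ^ 2 ≤ (7053 / 10000) ^ 2 := by gcongr; linarith
      have c2 : (μ 0 + μ 1) / (4349 / 10000) ≤ (μ 0 + μ 1) / ‖d T 2‖ := by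
        gcongr; linarith
      linarith)
    (by linarith) (by norm_num) (by linarith)
  intro t ht
  obtain ⟨k1, k2, k3⟩ := key t ht
  obtain ⟨l0, l1⟩ := low t k2
  have : 0 ≤ t - T := by linarith
  refine ⟨fun k => ?_, by linarith⟩
  fin_cases k
  · show 1 / 100 ≤ ‖d t 0‖; linarith
  · show 1 / 100 ≤ ‖d t 1‖; linarith
  · exact k1

end Pool.Agent.Lib.MP_6e7c44_mp
end

-- part Pool.Agent.Lib.MP_6e7c44_mp.Taylor
section

/-!
Second order expansion of the attraction near the unit circle.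
-/

set_option autoImplicit false

namespace Pool.Agent.Lib.MP_6e7c44_mp

open Set

/-- The linear part of the expansion. -/
noncomputable def LL (x : ℂ) : ℂ := -x / 2 - 3 / 2 * (starRingEnd ℂ) x

/-- The quadratic part of the expansion. -/
noncomputable def QQ (x : ℂ) : ℂ :=
  3 / 8 * x ^ 2 + 3 / 4 * (x * (starRingEnd ℂ) x) + 15 / 8 * ((starRingEnd ℂ) x) ^ 2

lemma ff_unit {e : ℂ} (he : ‖e‖ = 1) (x : ℂ) : ff (e * x) = e * ff x := by
  unfold ff
  rw [norm_mul, he, one_mul, mul_smul_comm]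

lemma inv_cube {r ε : ℝ} (h : |r - 1| ≤ ε) (hε : ε ≤ 1 / 100) :
    |(r ^ 3)⁻¹ - (1 - 3 / 2 * (r ^ 2 - 1) + 15 / 8 * (r ^ 2 - 1) ^ 2)| ≤ 19 * ε ^ 3 := by
  have h1 := abs_le.mp h
  have hr : 99 / 100 ≤ r := by linarith
  have hr2 : r ≤ 101 / 100 := by linarith
  have hr0 : 0 < r := by linarith
  have e : (r ^ 3)⁻¹ - (1 - 3 / 2 * (r ^ 2 - 1) + 15 / 8 * (r ^ 2 - 1) ^ 2)
      = -((r - 1) ^ 3 * ((15 * r ^ 4 + 45 * r ^ 3 + 48 * r ^ 2 + 24 * r + 8) / (8 * r ^ 3))) := by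
    field_simp; ring
  have a1 : (15 * r ^ 4 + 45 * r ^ 3 + 48 * r ^ 2 + 24 * r + 8) / (8 * r ^ 3) ≤ 19 := by
    rw [div_le_iff₀ (by positivity)]
    have b4 : r ^ 4 ≤ (101 / 100) ^ 4 := by gcongr
    have b2 : r ^ 2 ≤ (101 / 100) ^ 2 := by gcongr
    have b3 : (99 / 100) ^ 3 ≤ r ^ 3 := by gcongr
    nlinarith
  rw [e, abs_neg, abs_mul, abs_pow, abs_of_nonneg (by positivity :
    0 ≤ (15 * r ^ 4 + 45 * r ^ 3 + 48 * r ^ 2 + 24 * r + 8) / (8 * r ^ 3)), mul_comm]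
  gcongr

lemma ff_taylor {x : ℂ} {ε : ℝ} (h : ‖x‖ ≤ ε) (hε : ε ≤ 1 / 100) :
    ‖ff (1 + x) - (1 + LL x + QQ x)‖ ≤ 37 * ε ^ 3 := by
  have hx := norm_nonneg x
  have hε0 : 0 ≤ ε := le_trans hx h
  have h1 : |‖1 + x‖ - 1| ≤ ε := by
    have := abs_norm_sub_norm_le (1 + x) 1
    rw [norm_one, add_sub_cancel_left] at this
    linarith
  have h2 := inv_cube h1 hε
  set c := (starRingEnd ℂ) x with hc
  have hcn : ‖c‖ ≤ ε := by rw [hc, Complex.norm_conj]; exact h
  have hu : ((‖1 + x‖ ^ 2 - 1 : ℝ) : ℂ) = x + c + x * c := by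
    have := Complex.mul_conj (1 + x)
    rw [Complex.normSq_eq_norm_sq, map_add, map_one, ← hc] at this
    push_cast at this ⊢
    linear_combination -this
  set R : ℝ := (‖1 + x‖ ^ 3)⁻¹ - (1 - 3 / 2 * (‖1 + x‖ ^ 2 - 1) + 15 / 8 * (‖1 + x‖ ^ 2 - 1) ^ 2)
    with hR
  have e : ff (1 + x) - (1 + LL x + QQ x) = (R : ℂ) * (1 + x) + (-(3 / 2) * (x * (x * c))
      + 15 / 8 * (x * (x + c + x * c) ^ 2 + x * c * (2 * (x + c) + x * c))) := by
    have e1 : ff (1 + x) = ((R : ℂ) + (1 - 3 / 2 * (x + c + x * c)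
        + 15 / 8 * (x + c + x * c) ^ 2)) * (1 + x) := by
      rw [← hu, hR]
      unfold ff
      rw [Complex.real_smul]
      push_cast; ring
    rw [e1]; unfold LL QQ; rw [← hc]; ring
  have n1 : ‖1 + x‖ ≤ 101 / 100 := by linarith [(abs_le.mp h1).2]
  have n2 : ‖x * c‖ ≤ ε * ε := by rw [norm_mul]; gcongr
  have n3 : ‖x + c + x * c‖ ≤ 201 / 100 * ε := by
    have := norm_add_le (x + c) (x * c)
    have := norm_add_le x c
    nlinarith
  have n4 : ‖2 * (x + c) + x * c‖ ≤ 401 / 100 * ε := by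
    have a1 := norm_add_le (2 * (x + c)) (x * c)
    have a2 := norm_add_le x c
    rw [norm_mul, Complex.norm_ofNat] at a1
    nlinarith
  have t1 : ‖(R : ℂ) * (1 + x)‖ ≤ 19 * ε ^ 3 * (101 / 100) := by
    rw [norm_mul, Complex.norm_real, Real.norm_eq_abs]; gcongr
  have t2 : ‖-(3 / 2 : ℂ) * (x * (x * c))‖ ≤ 3 / 2 * (ε * (ε * ε)) := by
    rw [norm_mul, norm_mul x, norm_neg]
    have : ‖(3 / 2 : ℂ)‖ = 3 / 2 := by simp
    rw [this]; gcongr
  have t3 : ‖x * (x + c + x * c) ^ 2‖ ≤ ε * (201 / 100 * ε) ^ 2 := by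
    rw [norm_mul, norm_pow]; gcongr
  have t4 : ‖x * c * (2 * (x + c) + x * c)‖ ≤ ε * ε * (401 / 100 * ε) := by
    rw [norm_mul]; gcongr
  have t5 : ‖(15 / 8 : ℂ) * (x * (x + c + x * c) ^ 2 + x * c * (2 * (x + c) + x * c))‖
      ≤ 15 / 8 * (ε * (201 / 100 * ε) ^ 2 + ε * ε * (401 / 100 * ε)) := by
    rw [norm_mul]
    have : ‖(15 / 8 : ℂ)‖ = 15 / 8 := by simp
    rw [this]
    have := norm_add_le (x * (x + c + x * c) ^ 2) (x * c * (2 * (x + c) + x * c))
    gcongr; linarith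
  rw [e]
  have s1 := norm_add_le ((R : ℂ) * (1 + x)) (-(3 / 2) * (x * (x * c))
      + 15 / 8 * (x * (x + c + x * c) ^ 2 + x * c * (2 * (x + c) + x * c)))
  have s2 := norm_add_le (-(3 / 2) * (x * (x * c)))
      (15 / 8 * (x * (x + c + x * c) ^ 2 + x * c * (2 * (x + c) + x * c)))
  have : 0 ≤ ε ^ 3 := by positivity
  nlinarith

lemma QQ_sub (x y : ℂ) : ‖QQ x - QQ y‖ ≤ 3 * ((‖x‖ + ‖y‖) * ‖x - y‖) := by
  have e : QQ x - QQ y = 3 / 8 * ((x + y) * (x - y))
      + 3 / 4 * (x * (starRingEnd ℂ) (x - y) + (x - y) * (starRingEnd ℂ) y)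
      + 15 / 8 * ((starRingEnd ℂ) (x + y) * (starRingEnd ℂ) (x - y)) := by
    unfold QQ; simp only [map_add, map_sub]; ring
  have a0 := norm_add_le x y
  have a1 : ‖(3 / 8 : ℂ) * ((x + y) * (x - y))‖ ≤ 3 / 8 * ((‖x‖ + ‖y‖) * ‖x - y‖) := by
    rw [norm_mul, norm_mul]
    have : ‖(3 / 8 : ℂ)‖ = 3 / 8 := by simp
    rw [this]; gcongr
  have a2 : ‖(3 / 4 : ℂ) * (x * (starRingEnd ℂ) (x - y) + (x - y) * (starRingEnd ℂ) y)‖
      ≤ 3 / 4 * ((‖x‖ + ‖y‖) * ‖x - y‖) := by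
    rw [norm_mul]
    have : ‖(3 / 4 : ℂ)‖ = 3 / 4 := by simp
    rw [this]
    have b := norm_add_le (x * (starRingEnd ℂ) (x - y)) ((x - y) * (starRingEnd ℂ) y)
    rw [norm_mul, norm_mul, Complex.norm_conj, Complex.norm_conj] at b
    gcongr; linarith
  have a3 : ‖(15 / 8 : ℂ) * ((starRingEnd ℂ) (x + y) * (starRingEnd ℂ) (x - y))‖
      ≤ 15 / 8 * ((‖x‖ + ‖y‖) * ‖x - y‖) := by
    rw [norm_mul, norm_mul, Complex.norm_conj, Complex.norm_conj]
    have : ‖(15 / 8 : ℂ)‖ = 15 / 8 := by simp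
    rw [this]; gcongr
  rw [e]
  linarith [norm_add₃_le (a := (3 / 8 : ℂ) * ((x + y) * (x - y)))
    (b := (3 / 4 : ℂ) * (x * (starRingEnd ℂ) (x - y) + (x - y) * (starRingEnd ℂ) y))
    (c := (15 / 8 : ℂ) * ((starRingEnd ℂ) (x + y) * (starRingEnd ℂ) (x - y)))]

/-- The expansion along a curve `y + q` with `y` of first and `q` of second order. -/
lemma ff_split {y q : ℂ} {s : ℝ} (hy : ‖y‖ ≤ s) (hq : ‖q‖ ≤ s ^ 2) (hs : s ≤ 1 / 200) :
    ‖ff (1 + (y + q)) - (1 + LL y + LL q + QQ y)‖ ≤ 45 * s ^ 3 ∧ ‖y + q‖ ≤ 1 / 100 := by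
  have hs0 : 0 ≤ s := le_trans (norm_nonneg _) hy
  have h1 : ‖y + q‖ ≤ 101 / 100 * s := by
    have := norm_add_le y q
    nlinarith
  have h2 := ff_taylor h1 (by linarith)
  have h3 := QQ_sub (y + q) y
  rw [add_sub_cancel_left] at h3
  have h4 : (‖y + q‖ + ‖y‖) * ‖q‖ ≤ (101 / 100 * s + s) * s ^ 2 := by gcongr
  have e : ff (1 + (y + q)) - (1 + LL y + LL q + QQ y)
      = (ff (1 + (y + q)) - (1 + LL (y + q) + QQ (y + q))) + (QQ (y + q) - QQ y) := by
    unfold LL; simp only [map_add]; ring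
  refine ⟨?_, by linarith⟩
  rw [e]
  have := norm_add_le (ff (1 + (y + q)) - (1 + LL (y + q) + QQ (y + q))) (QQ (y + q) - QQ y)
  have : 0 ≤ s ^ 3 := by positivity
  nlinarith

end Pool.Agent.Lib.MP_6e7c44_mp
end

-- part Pool.Agent.Lib.MP_6e7c44_mp.Local
section

/-!
The second order approximation of an orbit on the unstable manifold of the equal-mass Lagrange
relative equilibrium, and the passage from a small neighbourhood of the relative equilibrium to
the initial state of the validated integration.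
-/

set_option autoImplicit false

namespace Pool.Agent.Lib.MP_6e7c44_mp

open Set Complex

/-- A primitive cube root of unity. -/
noncomputable def ze : ℂ := ⟨-1 / 2, √3 / 2⟩
noncomputable def lam : ℝ := √2 / 2
noncomputable def eta : ℂ := ⟨-1 / 4, √2 / 4⟩
noncomputable def gam : ℂ := ⟨225 / 2052, 45 * √2 / 513⟩
noncomputable def sig : ℝ := 10297992 / 10 ^ 45

lemma s2_sq : √2 * √2 = 2 := Real.mul_self_sqrt (by norm_num)
lemma s3_sq : √3 * √3 = 3 := Real.mul_self_sqrt (by norm_num)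

lemma ze_rel : ze ^ 2 + ze + 1 = 0 := by
  have := s3_sq
  apply Complex.ext <;> simp [ze, pow_two] <;> nlinarith

lemma conj_ze : (starRingEnd ℂ) ze = ze ^ 2 := by
  have := s3_sq
  apply Complex.ext <;> simp [ze, pow_two] <;> nlinarith

lemma norm_ze : ‖ze‖ = 1 := by
  have h : ‖ze‖ ^ 2 = 1 := by
    rw [Complex.sq_norm, Complex.normSq_apply]
    have := s3_sq
    simp [ze]; nlinarith
  nlinarith [norm_nonneg ze]

lemma lam_sq : (lam : ℂ) ^ 2 = 1 / 2 := by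
  have := s2_sq
  have h : lam ^ 2 = 1 / 2 := by unfold lam; nlinarith
  rw [← Complex.ofReal_pow, h]; push_cast; rfl

lemma eta_rel : eta * (2 * lam + I) ^ 2 - eta / 2 - 3 / 2 * (starRingEnd ℂ) eta + 3 / 4 = 0 := by
  have := s2_sq
  have h3 : √2 * √2 * √2 = 2 * √2 := by rw [this]
  apply Complex.ext <;> simp [eta, lam, pow_two] <;> nlinarith

lemma gam_rel : gam * (2 * lam + 3 * I) ^ 2 - gam / 2 + 15 / 8 = 0 := by
  have := s2_sq
  have h3 : √2 * √2 * √2 = 2 * √2 := by rw [this]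
  apply Complex.ext <;> simp [gam, lam, pow_two] <;> nlinarith

lemma s2_bounds : 1414 / 1000 ≤ √2 ∧ √2 ≤ 1415 / 1000 := by
  constructor
  · apply Real.le_sqrt_of_sq_le; norm_num
  · rw [Real.sqrt_le_iff]; norm_num

lemma norm_eta : ‖eta‖ ≤ 1 / 2 := by
  apply abs_le_of_sq_le_sq' _ (by norm_num) |>.2
  rw [Complex.sq_norm, Complex.normSq_apply]
  have := s2_sq
  simp [eta]; nlinarith

lemma norm_gam : ‖gam‖ ≤ 1 / 2 := by
  apply abs_le_of_sq_le_sq' _ (by norm_num) |>.2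
  rw [Complex.sq_norm, Complex.normSq_apply]
  have := s2_sq
  simp [gam]; nlinarith

noncomputable def e1 (t : ℝ) : ℂ := Complex.exp ((t : ℂ) * I)
noncomputable def ss (t : ℝ) : ℝ := sig * Real.exp (lam * t)

lemma norm_e1 (t : ℝ) : ‖e1 t‖ = 1 := Complex.norm_exp_ofReal_mul_I t

lemma e1_conj (t : ℝ) : e1 t * (starRingEnd ℂ) (e1 t) = 1 := by
  rw [Complex.mul_conj, Complex.normSq_eq_norm_sq, norm_e1]; simp

lemma hd_e1 (t : ℝ) : HasDerivAt e1 (e1 t * I) t := by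
  have h := (((hasDerivAt_id t).ofReal_comp).mul_const I).cexp
  exact hd_congr h (fun _ => rfl) (by simp [e1])

lemma hd_ss (t : ℝ) : HasDerivAt ss (lam * ss t) t := by
  have h := (((hasDerivAt_id t).const_mul lam).exp).const_mul sig
  exact hd_congr h (fun _ => rfl) (by simp [ss]; ring)

lemma hd_ssc (t : ℝ) : HasDerivAt (fun s => (ss s : ℂ)) ((lam : ℂ) * ss t) t :=
  hd_congr (hd_ss t).ofReal_comp (fun _ => rfl) (by push_cast; rfl)

lemma sig_pos : 0 < sig := by unfold sig; positivity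
lemma ss_pos (t : ℝ) : 0 < ss t := mul_pos sig_pos (Real.exp_pos _)
lemma lam_pos : 0 < lam := by unfold lam; positivity

lemma ss_le {t : ℝ} (ht : t ≤ 0) : ss t ≤ 1 / 200 := by
  have h1 : Real.exp (lam * t) ≤ 1 :=
    Real.exp_le_one_iff.mpr (mul_nonpos_of_nonneg_of_nonpos lam_pos.le ht)
  have h2 : sig ≤ 1 / 200 := by unfold sig; norm_num
  unfold ss
  nlinarith [sig_pos]

noncomputable def zf (a b : ℂ) (t : ℝ) : ℂ := e1 t * (a + eta * b * (ss t : ℂ) ^ 2)
noncomputable def wf (a b : ℂ) (t : ℝ) : ℂ := a * (ss t : ℂ) + gam * b * (ss t : ℂ) ^ 2 * e1 t ^ 3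

lemma hd_zf (a b : ℂ) (t : ℝ) : HasDerivAt (zf a b) (zf (a * I) (b * (2 * lam + I)) t) t := by
  have h := (hd_e1 t).mul ((((hd_ssc t).pow 2).const_mul (eta * b)).const_add a)
  refine hd_congr h (fun _ => rfl) ?_
  simp [zf]; ring

lemma hd_wf (a b : ℂ) (t : ℝ) :
    HasDerivAt (wf a b) (wf (a * lam) (b * (2 * lam + 3 * I)) t) t := by
  have h := ((hd_ssc t).const_mul a).add
    ((((hd_ssc t).pow 2).const_mul (gam * b)).mul ((hd_e1 t).pow 3))
  refine hd_congr h (fun _ => rfl) ?_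
  simp [wf]; ring

/-- The triple built from the two discrete Fourier components. -/
noncomputable def cmb (z w : ℂ) : Fin 3 → ℂ := ![z + w, ze * z + ze ^ 2 * w, ze ^ 2 * z + ze * w]

lemma hd_cmb {z w : ℝ → ℂ} {z' w' : ℂ} {t : ℝ} (hz : HasDerivAt z z' t) (hw : HasDerivAt w w' t) :
    HasDerivAt (fun s => cmb (z s) (w s)) (cmb z' w') t := by
  rw [hasDerivAt_pi]
  intro k
  fin_cases k
  · exact hz.add hw
  · exact (hz.const_mul ze).add (hw.const_mul (ze ^ 2))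
  · exact (hz.const_mul (ze ^ 2)).add (hw.const_mul ze)

noncomputable def DL (t : ℝ) : Fin 3 → ℂ := cmb (zf 1 1 t) (wf 1 1 t)
noncomputable def VL (t : ℝ) : Fin 3 → ℂ :=
  cmb (zf (1 * I) (1 * (2 * lam + I)) t) (wf (1 * lam) (1 * (2 * lam + 3 * I)) t)
noncomputable def AL (t : ℝ) : Fin 3 → ℂ :=
  cmb (zf (1 * I * I) (1 * (2 * lam + I) * (2 * lam + I)) t)
    (wf (1 * lam * lam) (1 * (2 * lam + 3 * I) * (2 * lam + 3 * I)) t)

lemma hd_DL (t : ℝ) : HasDerivAt DL (VL t) t := hd_cmb (hd_zf _ _ t) (hd_wf _ _ t)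
lemma hd_VL (t : ℝ) : HasDerivAt VL (AL t) t := hd_cmb (hd_zf _ _ t) (hd_wf _ _ t)

lemma local_defect {t : ℝ} (ht : t ≤ 0) :
    (∀ k, 97 / 100 + 1 / 100 ≤ ‖DL t k‖) ∧ n3 (AL t - F0 (DL t)) ≤ 135 * ss t ^ 3 := by
  have hs := ss_le ht
  have hs0 := ss_pos t
  have hz := ze_rel
  have hz3 : ze ^ 3 = 1 := by linear_combination (ze - 1) * hz
  have he := e1_conj t
  have hne := norm_e1 t
  set E := e1 t with hE
  set C := (starRingEnd ℂ) E with hC
  have hCn : ‖C‖ = 1 := by rw [hC, Complex.norm_conj, hne]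
  set S : ℂ := (ss t : ℂ) with hS
  have hSn : ‖S‖ = ss t := by rw [hS, Complex.norm_real, Real.norm_of_nonneg hs0.le]
  have hSc : (starRingEnd ℂ) S = S := by rw [hS, Complex.conj_ofReal]
  have hCc : (starRingEnd ℂ) C = E := by rw [hC, Complex.conj_conj]
  let r : Fin 3 → ℂ := ![1, ze, ze ^ 2]
  have hr : ∀ k, ‖r k‖ = 1 := by
    intro k; fin_cases k <;> simp [r, norm_ze]
  let y : Fin 3 → ℂ := fun k => r k * (S * C)
  let q : Fin 3 → ℂ := fun k => eta * S ^ 2 + r k * (gam * S ^ 2 * E ^ 2)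
  have hy : ∀ k, ‖y k‖ ≤ ss t := fun k => by simp [y, hr, hSn, hCn]
  have hq : ∀ k, ‖q k‖ ≤ ss t ^ 2 := by
    intro k
    refine le_trans (norm_add_le _ _) ?_
    simp only [norm_mul, norm_pow, hr, hSn, hne]
    have := norm_eta
    have := norm_gam
    nlinarith [sq_nonneg (ss t)]
  have hD : ∀ k, DL t k = (r k * E) * (1 + (y k + q k)) := by
    intro k
    fin_cases k
    · simp only [DL, cmb, zf, wf, r, y, q, ← hE, ← hS]
      simp
      linear_combination (-S) * he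
    · simp only [DL, cmb, zf, wf, r, y, q, ← hE, ← hS]
      simp
      linear_combination (-S * ze ^ 2) * he
    · simp only [DL, cmb, zf, wf, r, y, q, ← hE, ← hS]
      simp
      linear_combination (-S * ze ^ 4) * he - (ze * S + ze * gam * S ^ 2 * E ^ 3) * hz3
  have hu : ∀ k, ‖r k * E‖ = 1 := fun k => by rw [norm_mul, hr, hne, one_mul]
  have hsp := fun k => ff_split (hy k) (hq k) hs
  constructor
  · intro k
    rw [hD, norm_mul, hu, one_mul]
    have h1 := norm_sub_norm_le (1 : ℂ) (-(y k + q k))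
    rw [sub_neg_eq_add, norm_neg, norm_one] at h1
    linarith [(hsp k).2]
  · let ρ : Fin 3 → ℂ := fun k =>
      (r k * E) * (ff (1 + (y k + q k)) - (1 + LL (y k) + LL (q k) + QQ (y k)))
    have hρ : ∀ k, ‖ρ k‖ ≤ 45 * ss t ^ 3 := fun k => by
      simp only [ρ]; rw [norm_mul, hu, one_mul]; exact (hsp k).1
    have e : AL t - F0 (DL t) = -(fun k => -ρ k + (1 / 3 : ℝ) • ∑ j, ρ j) := by
      have hf : ∀ k, ff (DL t k) = (r k * E) * ff (1 + (y k + q k)) := fun k => by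
        rw [hD, ff_unit (hu k)]
      obtain ⟨φ, hφ⟩ : ∃ φ : Fin 3 → ℂ, ∀ k, ff (1 + (y k + q k)) = φ k := ⟨_, fun _ => rfl⟩
      have h1 := eta_rel
      have h2 := gam_rel
      have h3 := lam_sq
      have h4 := Complex.I_mul_I
      funext k
      simp only [F0, Pi.sub_apply, Pi.neg_apply, Fin.sum_univ_three, hf, ρ, hφ, Complex.real_smul]
      simp only [LL, QQ, y, q, map_mul, map_add, map_pow, hSc, hCc, ← hC]
      generalize (starRingEnd ℂ) eta = eta' at h1 ⊢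
      generalize (starRingEnd ℂ) gam = gam'
      have hr0 : r 0 = 1 := rfl
      have hr1 : r 1 = ze := rfl
      have hr2 : r 2 = ze ^ 2 := rfl
      fin_cases k
      · simp only [AL, cmb, zf, wf, ← hE, ← hS, Fin.zero_eta, hr0, hr1, hr2, map_one, map_pow,
          conj_ze, Matrix.cons_val_zero]
        push_cast
        grind
      · simp only [AL, cmb, zf, wf, ← hE, ← hS, Fin.mk_one, hr0, hr1, hr2, map_one, map_pow,
          conj_ze, Matrix.cons_val_one, Matrix.cons_val_zero]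
        push_cast
        grind
      · simp only [AL, cmb, zf, wf, ← hE, ← hS, Fin.reduceFinMk, hr0, hr1, hr2, map_one, map_pow,
          conj_ze, Matrix.cons_val]
        push_cast
        grind
    rw [e, n3_neg]
    refine le_trans (n3_proj ρ) (le_trans (n3_le_sum ρ) ?_)
    linarith [hρ 0, hρ 1, hρ 2]

end Pool.Agent.Lib.MP_6e7c44_mp
end

-- part Pool.Agent.Lib.MP_6e7c44_mp.Barrier
section

/-!
Barrier lemmas, linear equations on a compact interval, an invariant cone, and nearly circular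
Kepler orbits.
-/

set_option autoImplicit false

namespace Pool.Agent.Lib.MP_6e7c44_mp

open Set Filter Topology Complex

theorem barrier {ι : Type} [Finite ι] {φ φ' : ι → ℝ → ℝ} {a b : ℝ}
    (hφ : ∀ i, ∀ t ∈ Icc a b, HasDerivAt (φ i) (φ' i t) t) (h0 : ∀ i, φ i a ≤ 0)
    (hb : ∀ t ∈ Icc a b, (∀ j, φ j t ≤ 0) → ∀ i, φ i t = 0 → φ' i t < 0) :
    ∀ t ∈ Icc a b, ∀ i, φ i t ≤ 0 := by
  have hc : IsClosed ({t | ∀ i, φ i t ≤ 0} ∩ Icc a b) := by
    have e : {t | ∀ i, φ i t ≤ 0} ∩ Icc a b = (⋂ i, Icc a b ∩ φ i ⁻¹' Iic 0) ∩ Icc a b := by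
      ext t
      simp only [mem_inter_iff, mem_iInter, mem_preimage, mem_Iic, mem_ofPred_eq]
      exact ⟨fun h => ⟨fun i => ⟨h.2, h.1 i⟩, h.2⟩, fun h => ⟨fun i => (h.1 i).2, h.2⟩⟩
    rw [e]
    refine (isClosed_iInter fun i => ?_).inter isClosed_Icc
    exact ContinuousOn.preimage_isClosed_of_isClosed
      (fun t ht => (hφ i t ht).continuousAt.continuousWithinAt) isClosed_Icc isClosed_Iic
  refine hc.Icc_subset_of_forall_mem_nhdsWithin h0 fun x hx => ?_
  have hx' : x ∈ Icc a b := Ico_subset_Icc_self hx.2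
  show ∀ᶠ t in 𝓝[>] x, ∀ i, φ i t ≤ 0
  rw [eventually_all]
  intro i
  rcases lt_or_eq_of_le (hx.1 i) with h | h
  · exact mem_nhdsWithin_of_mem_nhds
      (((hφ i x hx').continuousAt.eventually (gt_mem_nhds h)).mono fun t ht => ht.le)
  · have h1 := hb x hx' hx.1 i h
    have h2 := (hφ i x hx').tendsto_slope.mono_left (nhdsGT_le_nhdsNE x)
    filter_upwards [h2.eventually (gt_mem_nhds h1), self_mem_nhdsWithin] with t ht ht'
    rw [slope_def_field, h, sub_zero] at ht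
    have h3 : 0 < t - x := sub_pos.mpr ht'
    by_contra h4
    exact absurd ht (not_lt.mpr (div_nonneg (le_of_not_ge h4) h3.le))

theorem fenceN {ι : Type} [Finite ι] {f f' : ι → ℝ → ℂ} {B B' : ι → ℝ → ℝ} {a b : ℝ}
    (hf : ∀ i, ∀ t ∈ Icc a b, HasDerivAt (f i) (f' i t) t)
    (hB : ∀ i, ∀ t ∈ Icc a b, HasDerivAt (B i) (B' i t) t) (hp : ∀ i, ∀ t ∈ Icc a b, 0 < B i t)
    (h0 : ∀ i, ‖f i a‖ ≤ B i a)
    (hb : ∀ t ∈ Icc a b, (∀ j, ‖f j t‖ ≤ B j t) → ∀ i, ‖f' i t‖ < B' i t) :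
    ∀ t ∈ Icc a b, ∀ i, ‖f i t‖ ≤ B i t := by
  have key : ∀ t ∈ Icc a b, ∀ i, dot (f i t) (f i t) - B i t * B i t ≤ 0 → ‖f i t‖ ≤ B i t := by
    intro t ht i h
    rw [dot_self] at h
    exact abs_le_of_sq_le_sq' (by linarith) (hp i t ht).le |>.2
  intro t ht i
  refine key t ht i (barrier (φ := fun i t => dot (f i t) (f i t) - B i t * B i t)
    (fun i t ht => (hd_dot (hf i t ht) (hf i t ht)).sub ((hB i t ht).mul (hB i t ht)))
    (fun i => ?_) (fun t ht h i hi => ?_) t ht i)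
  · rw [dot_self]
    have := pow_le_pow_left₀ (norm_nonneg _) (h0 i) 2
    linarith
  · have h1 := hb t ht (fun j => key t ht j (h j)) i
    have h2 := key t ht i (h i)
    have h3 := (abs_le.mp (abs_dot_le (f' i t) (f i t))).2
    have h4 := (abs_le.mp (abs_dot_le (f i t) (f' i t))).2
    have h5 := hp i t ht
    have h6 : ‖f' i t‖ * ‖f i t‖ ≤ ‖f' i t‖ * B i t := by gcongr
    have h7 : ‖f' i t‖ * B i t < B' i t * B i t := by gcongr
    nlinarith

theorem exists_linear {E : Type} [NormedAddCommGroup E] [NormedSpace ℝ E] [CompleteSpace E]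
    (M : ℝ → E → E) {K : ℝ} (hK : 0 ≤ K) (hl : ∀ t x y, ‖M t x - M t y‖ ≤ K * ‖x - y‖)
    (h0 : ∀ t, M t 0 = 0) (hc : ∀ x, Continuous fun t => M t x) (x0 : E) {T : ℝ} (hT : 0 ≤ T) :
    ∃ x : ℝ → E, x 0 = x0 ∧ ∀ t ∈ Icc 0 T, HasDerivAt x (M t (x t)) t := by
  have hM : ∀ t x, ‖M t x‖ ≤ K * ‖x‖ := fun t x => by simpa [h0] using hl t x 0
  set R := ‖x0‖ * Real.exp (K * T) with hR
  have hR0 : 0 ≤ R := by positivity
  let χ : E → ℝ := fun x => max 0 (min 1 (R + 1 - ‖x‖))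
  have χ0 : ∀ x, 0 ≤ χ x := fun x => le_max_left _ _
  have χ1 : ∀ x, χ x ≤ 1 := fun x => max_le zero_le_one (min_le_left _ _)
  have χl : ∀ x y, |χ x - χ y| ≤ ‖x - y‖ := fun x y => by
    refine le_trans (abs_max_sub_max_le_max _ _ _ _) (max_le (by simp) ?_)
    refine le_trans (abs_min_sub_min_le_max _ _ _ _) (max_le (by simp) ?_)
    rw [show R + 1 - ‖x‖ - (R + 1 - ‖y‖) = -(‖x‖ - ‖y‖) by ring, abs_neg]
    exact abs_norm_sub_norm_le x y
  have hb : ∀ t x, ‖χ x • M t x‖ ≤ K * (R + 1) := fun t x => by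
    rw [norm_smul, Real.norm_of_nonneg (χ0 x)]
    rcases le_total ‖x‖ (R + 1) with h | h
    · calc χ x * ‖M t x‖ ≤ 1 * (K * ‖x‖) := mul_le_mul (χ1 x) (hM t x) (norm_nonneg _) zero_le_one
        _ ≤ K * (R + 1) := by rw [one_mul]; gcongr
    · have : χ x = 0 := max_eq_left (le_trans (min_le_right _ _) (by linarith))
      rw [this, zero_mul]; positivity
  set a := K * (R + 1) * (T + 1) with ha
  have ha0 : 0 ≤ a := by positivity
  have h00 : (0 : ℝ) ∈ Icc (-1) (T + 1) := ⟨by linarith, by linarith⟩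
  have hpl : IsPicardLindelof (fun t x => χ x • M t x) (⟨0, h00⟩ : Icc (-1) (T + 1)) x0
      ⟨a, ha0⟩ 0 ⟨K * (R + 1), by positivity⟩ ⟨K * (‖x0‖ + a) + K, by positivity⟩ := by
    refine ⟨fun t _ => LipschitzOnWith.of_dist_le_mul fun x hx y _ => ?_,
      fun x _ => ((hc x).const_smul (χ x)).continuousOn, fun t _ x _ => hb t x, ?_⟩
    · rw [dist_eq_norm, dist_eq_norm]
      have e : χ x • M t x - χ y • M t y = (χ x - χ y) • M t x + χ y • (M t x - M t y) := by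
        rw [sub_smul, smul_sub]; abel
      have hx' : ‖x‖ ≤ ‖x0‖ + a := by
        have h1 : ‖x - x0‖ ≤ a := by rwa [Metric.mem_closedBall, dist_eq_norm] at hx
        have := norm_add_le (x - x0) x0
        rw [sub_add_cancel] at this
        linarith
      have c1 : ‖(χ x - χ y) • M t x‖ ≤ ‖x - y‖ * (K * (‖x0‖ + a)) := by
        rw [norm_smul, Real.norm_eq_abs]
        exact mul_le_mul (χl x y) (le_trans (hM t x) (by gcongr)) (norm_nonneg _) (norm_nonneg _)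
      have c2 : ‖χ y • (M t x - M t y)‖ ≤ 1 * (K * ‖x - y‖) := by
        rw [norm_smul, Real.norm_of_nonneg (χ0 y)]
        exact mul_le_mul (χ1 y) (hl t x y) (norm_nonneg _) zero_le_one
      rw [e]
      have c3 := norm_add_le ((χ x - χ y) • M t x) (χ y • (M t x - M t y))
      show _ ≤ (K * (‖x0‖ + a) + K) * ‖x - y‖
      linarith
    · show K * (R + 1) * max (T + 1 - 0) (0 - -1) ≤ a - 0
      rw [max_eq_left (by linarith)]
      simp [ha]
  obtain ⟨x, hx0, hx⟩ := hpl.exists_eq_forall_mem_Icc_hasDerivWithinAt₀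
  have hd : ∀ t ∈ Icc 0 T, HasDerivAt x (χ (x t) • M t (x t)) t := fun t ht =>
    (hx t ⟨by linarith [ht.1], by linarith [ht.2]⟩).hasDerivAt
      (Icc_mem_nhds (by linarith [ht.1]) (by linarith [ht.2]))
  have hx0' : x 0 = x0 := hx0
  have hg := norm_le_gronwallBound_of_norm_deriv_right_le (f := x)
    (f' := fun t => χ (x t) • M t (x t)) (δ := ‖x0‖) (K := K) (ε := 0) (a := 0) (b := T)
    (fun t ht => (hd t ht).continuousAt.continuousWithinAt)
    (fun t ht => (hd t (Ico_subset_Icc_self ht)).hasDerivWithinAt) (by rw [hx0'])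
    (fun t _ => by
      rw [norm_smul, Real.norm_of_nonneg (χ0 _), add_zero]
      calc χ (x t) * ‖M t (x t)‖ ≤ 1 * (K * ‖x t‖) :=
            mul_le_mul (χ1 _) (hM t _) (norm_nonneg _) zero_le_one
        _ = _ := one_mul _)
  refine ⟨x, hx0', fun t ht => ?_⟩
  have h1 : ‖x t‖ ≤ R := by
    have := hg t ht
    rw [gronwallBound_ε0, sub_zero] at this
    refine le_trans this ?_
    rw [hR]
    gcongr
    exact ht.2
  have h2 : χ (x t) = 1 := by
    simp only [χ]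
    rw [min_eq_left (by linarith), max_eq_right zero_le_one]
  have := hd t ht
  rwa [h2, one_smul] at this

/-- The invariant cone of the perturbed equation `w'' = w / 2`. -/
theorem cone {w p E : ℝ → ℂ} {l c T : ℝ} (hl : l ^ 2 = 1 / 2) (hl0 : 7 / 10 ≤ l) (hc : 0 < c)
    (hc1 : c ≤ 1 / 10) (hw : ∀ t ∈ Icc 0 T, HasDerivAt w (p t) t)
    (hp : ∀ t ∈ Icc 0 T, HasDerivAt p (w t / 2 + E t) t) (hE : ∀ t ∈ Icc 0 T, ‖E t‖ ≤ c * ‖w t‖)
    (h0 : w 0 ≠ 0) (h1 : p 0 = l * w 0) :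
    ∀ t ∈ Icc 0 T, ‖p t - l * w t‖ ≤ c * ‖w t‖ ∧ ‖w 0‖ ≤ ‖w t‖ := by
  have hw0 : 0 < ‖w 0‖ := norm_pos_iff.mpr h0
  have hlc : (l : ℂ) ^ 2 = 1 / 2 := by rw [← Complex.ofReal_pow, hl]; push_cast; rfl
  have key : ∀ t, dot (p t - l * w t) (p t - l * w t) - c ^ 2 * dot (w t) (w t) ≤ 0 →
      dot (w 0) (w 0) - dot (w t) (w t) ≤ 0 →
      ‖p t - l * w t‖ ≤ c * ‖w t‖ ∧ ‖w 0‖ ≤ ‖w t‖ := by
    intro t a1 a2
    simp only [dot_self] at a1 a2
    exact ⟨abs_le_of_sq_le_sq' (by rw [mul_pow]; linarith) (by positivity) |>.2,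
      abs_le_of_sq_le_sq' (by linarith) (by positivity) |>.2⟩
  have hb := barrier (ι := Fin 2) (a := 0) (b := T)
    (φ := ![fun t => dot (p t - l * w t) (p t - l * w t) - c ^ 2 * dot (w t) (w t),
      fun t => dot (w 0) (w 0) - dot (w t) (w t)])
    (φ' := ![fun t => 2 * dot (p t - l * w t) (-l * (p t - l * w t) + E t)
      - c ^ 2 * (2 * dot (w t) (p t)), fun t => -(2 * dot (w t) (p t))])
    (by
      intro i t ht
      have a1 : HasDerivAt (fun s => p s - l * w s) (-l * (p t - l * w t) + E t) t :=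
        hd_congr ((hp t ht).sub ((hw t ht).const_mul (l : ℂ))) (fun _ => rfl)
          (by linear_combination (w t) * hlc)
      have a2 : HasDerivAt (fun s => dot (w s) (w s)) (2 * dot (w t) (p t)) t :=
        hd_congr (hd_dot (hw t ht) (hw t ht)) (fun _ => rfl) (by simp only [dot]; ring)
      fin_cases i
      · exact hd_congr ((hd_dot a1 a1).sub (a2.const_mul (c ^ 2))) (fun _ => rfl)
          (by simp only [dot, Fin.zero_eta, Matrix.cons_val_zero]; ring)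
      · exact hd_congr (a2.const_sub (dot (w 0) (w 0))) (fun _ => rfl) rfl)
    (by
      intro i
      fin_cases i
      · simp only [Fin.zero_eta, Matrix.cons_val_zero, h1, sub_self, dot_self, norm_zero]
        nlinarith [sq_nonneg (c * ‖w 0‖)]
      · simp)
    (by
      intro t ht h i hi
      obtain ⟨k1, k2⟩ := key t (h 0) (h 1)
      have hn : 0 < ‖w t‖ := by linarith
      have e1 : dot (w t) (p t) = l * ‖w t‖ ^ 2 + dot (w t) (p t - l * w t) := by
        rw [← dot_self]; simp [dot]; ring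
      have e2 := (abs_le.mp (abs_dot_le (w t) (p t - l * w t))).1
      have e3 : ‖w t‖ * ‖p t - l * w t‖ ≤ ‖w t‖ * (c * ‖w t‖) := by gcongr
      have e4 : (l - c) * ‖w t‖ ^ 2 ≤ dot (w t) (p t) := by nlinarith
      have hn2 : 0 < ‖w t‖ ^ 2 := by positivity
      fin_cases i
      · simp only [Fin.zero_eta, Matrix.cons_val_zero, dot_self] at hi ⊢
        have e5 : dot (p t - l * w t) (-l * (p t - l * w t) + E t)
            = -l * ‖p t - l * w t‖ ^ 2 + dot (p t - l * w t) (E t) := by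
          rw [← dot_self]; simp [dot]; ring
        have e6 := (abs_le.mp (abs_dot_le (p t - l * w t) (E t))).2
        have e7 : ‖p t - l * w t‖ * ‖E t‖ ≤ (c * ‖w t‖) * (c * ‖w t‖) := by
          gcongr; exact hE t ht
        have e8 : ‖p t - l * w t‖ ^ 2 = c ^ 2 * ‖w t‖ ^ 2 := by linarith
        have e9 : c ^ 2 * ((l - c) * ‖w t‖ ^ 2) ≤ c ^ 2 * dot (w t) (p t) := by gcongr
        have e10 : 0 < c ^ 2 * ‖w t‖ ^ 2 * (2 * l - c - 1) := by
          apply mul_pos (by positivity); linarith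
        rw [e5, e8]
        nlinarith
      · simp only [Fin.mk_one, Matrix.cons_val_one, Matrix.cons_val_zero]
        have : 0 < (l - c) * ‖w t‖ ^ 2 := mul_pos (by linarith) hn2
        linarith)
  intro t ht
  exact key t (hb t ht 0) (hb t ht 1)

/-- A Kepler orbit whose distance stays close to one is nearly circular. -/
theorem kepler {z p : ℝ → ℂ} {ε : ℝ} (hε : ε ≤ 1 / 1000) (hz : ∀ t, HasDerivAt z (p t) t)
    (hp : ∀ t, HasDerivAt p (-ff (z t)) t) (hr : ∀ t, |‖z t‖ - 1| ≤ ε) :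
    (∀ t, ‖p t - I * z t‖ ≤ 40 * ε) ∨ (∀ t, ‖p t + I * z t‖ ≤ 40 * ε) := by
  have hε0 : 0 ≤ ε := le_trans (abs_nonneg _) (hr 0)
  have r1 : ∀ t, 1 - ε ≤ ‖z t‖ := fun t => by linarith [(abs_le.mp (hr t)).1]
  have r2 : ∀ t, ‖z t‖ ≤ 1 + ε := fun t => by linarith [(abs_le.mp (hr t)).2]
  have r0 : ∀ t, 0 < ‖z t‖ := fun t => by linarith [r1 t]
  have hzf : ∀ t x, dot x (-ff (z t)) = -(dot x (z t) / ‖z t‖ ^ 3) := fun t x => by
    simp only [dot, ff, neg_re, neg_im, smul_re, smul_im, smul_eq_mul]; ring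
  -- energy
  have hE : ∀ t, HasDerivAt (fun s => dot (p s) (p s) - 2 * (‖z s‖)⁻¹) 0 t := fun t => by
    have a1 := (hd_dot (hp t) (hp t)).sub (((hd_norm (hz t) (r0 t)).inv (r0 t).ne').const_mul 2)
    refine hd_congr a1 (fun _ => rfl) ?_
    have e : dot (-ff (z t)) (p t) = dot (p t) (-ff (z t)) := by simp only [dot]; ring
    have e2 : dot (z t) (p t) = dot (p t) (z t) := by simp only [dot]; ring
    rw [e, hzf, e2]
    have := (r0 t).ne'
    field_simp
    ring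
  obtain ⟨H, hH⟩ : ∃ H, ∀ t, dot (p t) (p t) - 2 * (‖z t‖)⁻¹ = H :=
    ⟨_, fun t => is_const_of_deriv_eq_zero (fun s => (hE s).differentiableAt)
      (fun s => (hE s).deriv) t 0⟩
  -- angular momentum
  have hL : ∀ t, HasDerivAt (fun s => cr (z s) (p s)) 0 t := fun t =>
    hd_congr (hd_cr (hz t) (hp t)) (fun _ => rfl) (by
      simp only [cr, ff, neg_re, neg_im, smul_re, smul_im, smul_eq_mul]; ring)
  obtain ⟨h, hh⟩ : ∃ h, ∀ t, cr (z t) (p t) = h :=
    ⟨_, fun t => is_const_of_deriv_eq_zero (fun s => (hL s).differentiableAt)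
      (fun s => (hL s).deriv) t 0⟩
  have i1 : ∀ t, |(‖z t‖)⁻¹ - 1| ≤ 2 * ε := fun t => by
    have a0 := r0 t
    have e : (‖z t‖)⁻¹ - 1 = (1 - ‖z t‖) / ‖z t‖ := by field_simp
    rw [e, abs_div, abs_of_pos a0, div_le_iff₀ a0, abs_sub_comm]
    nlinarith [hr t, r1 t]
  have hψ : ∀ t, HasDerivAt (fun s => dot (z s) (p s)) (H + (‖z t‖)⁻¹) t := fun t => by
    refine hd_congr (hd_dot (hz t) (hp t)) (fun _ => rfl) ?_
    rw [hzf, dot_self (z t), ← hH t]
    have := (r0 t).ne'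
    field_simp
    ring
  have hφ : ∀ t, HasDerivAt (fun s => dot (z s) (z s)) (2 * dot (z t) (p t)) t := fun t =>
    hd_congr (hd_dot (hz t) (hz t)) (fun _ => rfl) (by simp only [dot]; ring)
  have hφb : ∀ t, |dot (z t) (z t) - 1| ≤ 3 * ε := fun t => by
    rw [dot_self, abs_le]
    constructor <;> nlinarith [r1 t, r2 t]
  -- Taylor bounds: for all signs
  have tay : ∀ (σ τ : ℝ) (t : ℝ), (σ = 1 ∨ σ = -1) → (τ = 1 ∨ τ = -1) →
      σ * dot (z t) (z t) + 2 * σ * τ * dot (z t) (p t) + (σ * (H + 1) - 2 * ε)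
        ≤ σ * dot (z (t + τ)) (z (t + τ)) := by
    intro σ τ t hσ hτ
    have hτ2 : τ * τ = 1 := by rcases hτ with h | h <;> rw [h] <;> norm_num
    have hlin : ∀ u : ℝ, HasDerivAt (fun u : ℝ => t + τ * u) τ u := fun u => by
      simpa using ((hasDerivAt_id u).const_mul τ).const_add t
    have m1 : ∀ u, 0 ≤ u → σ * τ * dot (z t) (p t) + (σ * (H + 1) - 2 * ε) * u
        ≤ σ * τ * dot (z (t + τ * u)) (p (t + τ * u)) := by
      intro u hu
      have := mono_of_deriv (F := fun u => σ * τ * dot (z (t + τ * u)) (p (t + τ * u))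
          - (σ * (H + 1) - 2 * ε) * u)
        (F' := fun u => σ * τ * ((H + (‖z (t + τ * u)‖)⁻¹) * τ) - (σ * (H + 1) - 2 * ε)) hu
        (fun u _ => by
          have a1 := (((hψ (t + τ * u)).comp u (hlin u)).const_mul (σ * τ)).sub
            ((hasDerivAt_id u).const_mul (σ * (H + 1) - 2 * ε))
          exact hd_congr a1 (fun _ => rfl) (by ring))
        (fun u _ => by
          have a1 := abs_le.mp (i1 (t + τ * u))
          have e : σ * τ * ((H + (‖z (t + τ * u)‖)⁻¹) * τ)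
              = σ * (H + (‖z (t + τ * u)‖)⁻¹) := by
            linear_combination (σ * (H + (‖z (t + τ * u)‖)⁻¹)) * hτ2
          rw [e]
          rcases hσ with h | h <;> rw [h] <;> linarith [a1.1, a1.2])
      simp only [mul_zero, add_zero, sub_zero] at this
      linarith
    have := mono_of_deriv (F := fun u => σ * dot (z (t + τ * u)) (z (t + τ * u))
        - 2 * σ * τ * dot (z t) (p t) * u - (σ * (H + 1) - 2 * ε) * u ^ 2)
      (F' := fun u => σ * (2 * dot (z (t + τ * u)) (p (t + τ * u)) * τ)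
        - 2 * σ * τ * dot (z t) (p t) - (σ * (H + 1) - 2 * ε) * (2 * u)) zero_le_one
      (fun u _ => by
        have a1 := ((((hφ (t + τ * u)).comp u (hlin u)).const_mul σ).sub
          ((hasDerivAt_id u).const_mul (2 * σ * τ * dot (z t) (p t)))).sub
          (((hasDerivAt_id u).pow 2).const_mul (σ * (H + 1) - 2 * ε))
        exact hd_congr a1 (fun _ => rfl) (by simp))
      (fun u hu => by nlinarith [m1 u hu.1])
    simp only [mul_zero, add_zero, sub_zero, mul_one, one_pow] at this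
    norm_num at this
    linarith
  have hH1 : |H + 1| ≤ 8 * ε := by
    have a1 := tay 1 1 0 (Or.inl rfl) (Or.inl rfl)
    have a2 := tay 1 (-1) 0 (Or.inl rfl) (Or.inr rfl)
    have a3 := tay (-1) 1 0 (Or.inr rfl) (Or.inl rfl)
    have a4 := tay (-1) (-1) 0 (Or.inr rfl) (Or.inr rfl)
    have b0 := abs_le.mp (hφb 0)
    have b1 := abs_le.mp (hφb (0 + 1))
    have b2 := abs_le.mp (hφb (0 + -1))
    rw [abs_le]; constructor <;> linarith [b0.1, b0.2, b1.1, b1.2, b2.1, b2.2]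
  have hH2 := abs_le.mp hH1
  have hψb : ∀ t, |dot (z t) (p t)| ≤ 8 * ε := fun t => by
    have a1 := tay 1 1 t (Or.inl rfl) (Or.inl rfl)
    have a2 := tay 1 (-1) t (Or.inl rfl) (Or.inr rfl)
    have b0 := abs_le.mp (hφb t)
    have b1 := abs_le.mp (hφb (t + 1))
    have b2 := abs_le.mp (hφb (t + -1))
    rw [abs_le]; constructor <;> linarith [b0.1, b0.2, b1.1, b1.2, b2.1, b2.2]
  have hh2 : |h ^ 2 - 1| ≤ 16 * ε := by
    have a1 := dot_cr (z 0) (p 0)
    have a2 : ‖p 0‖ ^ 2 = H + 2 * (‖z 0‖)⁻¹ := by rw [← dot_self, ← hH 0]; ring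
    have a3 := abs_le.mp (i1 0)
    have a4 := abs_le.mp (hφb 0)
    have a5 : dot (z 0) (p 0) ^ 2 ≤ (8 * ε) ^ 2 := by
      rw [← sq_abs]; exact pow_le_pow_left₀ (abs_nonneg _) (hψb 0) 2
    rw [hh, a2] at a1
    rw [dot_self] at a4
    have a6 : 1 - 12 * ε ≤ H + 2 * (‖z 0‖)⁻¹ := by linarith
    have a7 : H + 2 * (‖z 0‖)⁻¹ ≤ 1 + 12 * ε := by linarith
    have a8 : (1 - 3 * ε) * (1 - 12 * ε) ≤ ‖z 0‖ ^ 2 * (H + 2 * (‖z 0‖)⁻¹) :=
      mul_le_mul (by linarith) a6 (by linarith) (by positivity)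
    have a9 : ‖z 0‖ ^ 2 * (H + 2 * (‖z 0‖)⁻¹) ≤ (1 + 3 * ε) * (1 + 12 * ε) :=
      mul_le_mul (by linarith) a7 (by linarith) (by linarith)
    rw [abs_le]
    constructor <;> nlinarith [sq_nonneg (dot (z 0) (p 0))]
  have fin : ∀ σ : ℝ, |h - σ| ≤ 16 * ε → |σ| = 1 → ∀ t, ‖p t - σ * I * z t‖ ≤ 40 * ε := by
    intro σ h1 h2 t
    have e : (starRingEnd ℂ) (z t) * (p t - σ * I * z t)
        = ⟨dot (z t) (p t), h - σ * dot (z t) (z t)⟩ := by
      rw [← hh t]
      apply Complex.ext <;> simp [dot, cr] <;> ring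
    have a1 : ‖z t‖ * ‖p t - σ * I * z t‖ ≤ |dot (z t) (p t)| + |h - σ * dot (z t) (z t)| := by
      rw [← Complex.norm_conj (z t), ← norm_mul, e]
      exact Complex.norm_le_abs_re_add_abs_im _
    have a2 : |h - σ * dot (z t) (z t)| ≤ 16 * ε + 3 * ε := by
      have e2 : h - σ * dot (z t) (z t) = (h - σ) - σ * (dot (z t) (z t) - 1) := by ring
      have a3 := abs_sub (h - σ) (σ * (dot (z t) (z t) - 1))
      rw [abs_mul, h2, one_mul] at a3
      rw [e2]
      linarith [hφb t]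
    have a4 := hψb t
    have a5 : (1 - ε) * ‖p t - σ * I * z t‖ ≤ ‖z t‖ * ‖p t - σ * I * z t‖ := by
      gcongr; exact r1 t
    nlinarith [norm_nonneg (p t - σ * I * z t)]
  have hh3 := abs_le.mp hh2
  rcases le_total 0 h with h0 | h0
  · left
    intro t
    have := fin 1 (by rw [abs_le]; constructor <;> nlinarith) (by simp) t
    simpa using this
  · right
    intro t
    have := fin (-1) (by rw [abs_le]; constructor <;> nlinarith) (by simp) t
    simpa using this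

end Pool.Agent.Lib.MP_6e7c44_mp
end
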