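import Pool.Agent.Lib.MP_6e7c44_mp.Barrier
import Pool.Agent.Lib.MP_6e7c44_mp.Data0
import Pool.Agent.Lib.MP_6e7c44_mp.Data1
import Pool.Agent.Lib.MP_6e7c44_mp.Data2
import Pool.Agent.Lib.MP_6e7c44_mp.Data3
import Pool.Agent.Lib.MP_6e7c44_mp.Data4
import Pool.Agent.Lib.MP_6e7c44_mp.Data5

/-! The chain of validated integration steps from the initial state to the final state. -/

set_option autoImplicit false
set_option maxRecDepth 100000

namespace Pool.Agent.Lib.MP_6e7c44_mp

/-- A rational approximation of the square root of two. -/
def r2 : ℚ := 141421356237309504880168872420969807856967187537694807317667973799073247846210703885038753432764157273501384623091229702492483 / 10 ^ 125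
/-- A rational approximation of the square root of three. -/
def r3 : ℚ := 86602540378443864676372317075293618347140262690519031402790348972596650845440001854057309337862428783781307070770335151498497 / (5 * 10 ^ 124)
def sq : ℚ := 10297992 / 10 ^ 45
def zr : ℚ := 1 - sq ^ 2 / 4
def zi : ℚ := r2 * sq ^ 2 / 4
def zpr : ℚ := -r2 * sq ^ 2 / 2
def zpi : ℚ := 1 + sq ^ 2 / 4
def wr : ℚ := sq + 225 / 2052 * sq ^ 2
def wi : ℚ := 45 * r2 / 513 * sq ^ 2
def wpr : ℚ := r2 / 2 * sq + (225 / 2052 * r2 - 135 * r2 / 513) * sq ^ 2
def wpi : ℚ := (675 / 2052 + 90 / 513) * sq ^ 2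

/-- The initial state of the validated integration. -/
def s0 : St :=
  ⟨zr + wr, zi + wi, -(zr + wr) / 2 - r3 / 2 * (zi - wi), -(zi + wi) / 2 + r3 / 2 * (zr - wr),
    zpr + wpr, zpi + wpi, -(zpr + wpr) / 2 - r3 / 2 * (zpi - wpi),
    -(zpi + wpi) / 2 + r3 / 2 * (zpr - wpr), 1000 * sq ^ 3, 1000 * sq ^ 3⟩

theorem scal0 : checkScal s0 c0 = true := by decide +kernel
theorem scal8 : checkScal c7.out c8 = true := by decide +kernel
theorem scal18 : checkScal c17.out c18 = true := by decide +kernel
theorem scal30 : checkScal c29.out c30 = true := by decide +kernel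
theorem scal48 : checkScal c47.out c48 = true := by decide +kernel
theorem scal68 : checkScal c67.out c68 = true := by decide +kernel
theorem relaxF : relaxOK c92.out sF = true := by decide +kernel

theorem reach0 : Reach s0 c0.out := step_sound _ _ poly0 scal0
theorem reach1 : Reach s0 c1.out := reach0.trans (step_sound _ _ poly1 scal1)
theorem reach2 : Reach s0 c2.out := reach1.trans (step_sound _ _ poly2 scal2)
theorem reach3 : Reach s0 c3.out := reach2.trans (step_sound _ _ poly3 scal3)
theorem reach4 : Reach s0 c4.out := reach3.trans (step_sound _ _ poly4 scal4)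
theorem reach5 : Reach s0 c5.out := reach4.trans (step_sound _ _ poly5 scal5)
theorem reach6 : Reach s0 c6.out := reach5.trans (step_sound _ _ poly6 scal6)
theorem reach7 : Reach s0 c7.out := reach6.trans (step_sound _ _ poly7 scal7)
theorem reach8 : Reach s0 c8.out := reach7.trans (step_sound _ _ poly8 scal8)
theorem reach9 : Reach s0 c9.out := reach8.trans (step_sound _ _ poly9 scal9)
theorem reach10 : Reach s0 c10.out := reach9.trans (step_sound _ _ poly10 scal10)
theorem reach11 : Reach s0 c11.out := reach10.trans (step_sound _ _ poly11 scal11)
theorem reach12 : Reach s0 c12.out := reach11.trans (step_sound _ _ poly12 scal12)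
theorem reach13 : Reach s0 c13.out := reach12.trans (step_sound _ _ poly13 scal13)
theorem reach14 : Reach s0 c14.out := reach13.trans (step_sound _ _ poly14 scal14)
theorem reach15 : Reach s0 c15.out := reach14.trans (step_sound _ _ poly15 scal15)
theorem reach16 : Reach s0 c16.out := reach15.trans (step_sound _ _ poly16 scal16)
theorem reach17 : Reach s0 c17.out := reach16.trans (step_sound _ _ poly17 scal17)
theorem reach18 : Reach s0 c18.out := reach17.trans (step_sound _ _ poly18 scal18)
theorem reach19 : Reach s0 c19.out := reach18.trans (step_sound _ _ poly19 scal19)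
theorem reach20 : Reach s0 c20.out := reach19.trans (step_sound _ _ poly20 scal20)
theorem reach21 : Reach s0 c21.out := reach20.trans (step_sound _ _ poly21 scal21)
theorem reach22 : Reach s0 c22.out := reach21.trans (step_sound _ _ poly22 scal22)
theorem reach23 : Reach s0 c23.out := reach22.trans (step_sound _ _ poly23 scal23)
theorem reach24 : Reach s0 c24.out := reach23.trans (step_sound _ _ poly24 scal24)
theorem reach25 : Reach s0 c25.out := reach24.trans (step_sound _ _ poly25 scal25)
theorem reach26 : Reach s0 c26.out := reach25.trans (step_sound _ _ poly26 scal26)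
theorem reach27 : Reach s0 c27.out := reach26.trans (step_sound _ _ poly27 scal27)
theorem reach28 : Reach s0 c28.out := reach27.trans (step_sound _ _ poly28 scal28)
theorem reach29 : Reach s0 c29.out := reach28.trans (step_sound _ _ poly29 scal29)
theorem reach30 : Reach s0 c30.out := reach29.trans (step_sound _ _ poly30 scal30)
theorem reach31 : Reach s0 c31.out := reach30.trans (step_sound _ _ poly31 scal31)
theorem reach32 : Reach s0 c32.out := reach31.trans (step_sound _ _ poly32 scal32)
theorem reach33 : Reach s0 c33.out := reach32.trans (step_sound _ _ poly33 scal33)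
theorem reach34 : Reach s0 c34.out := reach33.trans (step_sound _ _ poly34 scal34)
theorem reach35 : Reach s0 c35.out := reach34.trans (step_sound _ _ poly35 scal35)
theorem reach36 : Reach s0 c36.out := reach35.trans (step_sound _ _ poly36 scal36)
theorem reach37 : Reach s0 c37.out := reach36.trans (step_sound _ _ poly37 scal37)
theorem reach38 : Reach s0 c38.out := reach37.trans (step_sound _ _ poly38 scal38)
theorem reach39 : Reach s0 c39.out := reach38.trans (step_sound _ _ poly39 scal39)
theorem reach40 : Reach s0 c40.out := reach39.trans (step_sound _ _ poly40 scal40)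
theorem reach41 : Reach s0 c41.out := reach40.trans (step_sound _ _ poly41 scal41)
theorem reach42 : Reach s0 c42.out := reach41.trans (step_sound _ _ poly42 scal42)
theorem reach43 : Reach s0 c43.out := reach42.trans (step_sound _ _ poly43 scal43)
theorem reach44 : Reach s0 c44.out := reach43.trans (step_sound _ _ poly44 scal44)
theorem reach45 : Reach s0 c45.out := reach44.trans (step_sound _ _ poly45 scal45)
theorem reach46 : Reach s0 c46.out := reach45.trans (step_sound _ _ poly46 scal46)
theorem reach47 : Reach s0 c47.out := reach46.trans (step_sound _ _ poly47 scal47)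
theorem reach48 : Reach s0 c48.out := reach47.trans (step_sound _ _ poly48 scal48)
theorem reach49 : Reach s0 c49.out := reach48.trans (step_sound _ _ poly49 scal49)
theorem reach50 : Reach s0 c50.out := reach49.trans (step_sound _ _ poly50 scal50)
theorem reach51 : Reach s0 c51.out := reach50.trans (step_sound _ _ poly51 scal51)
theorem reach52 : Reach s0 c52.out := reach51.trans (step_sound _ _ poly52 scal52)
theorem reach53 : Reach s0 c53.out := reach52.trans (step_sound _ _ poly53 scal53)
theorem reach54 : Reach s0 c54.out := reach53.trans (step_sound _ _ poly54 scal54)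
theorem reach55 : Reach s0 c55.out := reach54.trans (step_sound _ _ poly55 scal55)
theorem reach56 : Reach s0 c56.out := reach55.trans (step_sound _ _ poly56 scal56)
theorem reach57 : Reach s0 c57.out := reach56.trans (step_sound _ _ poly57 scal57)
theorem reach58 : Reach s0 c58.out := reach57.trans (step_sound _ _ poly58 scal58)
theorem reach59 : Reach s0 c59.out := reach58.trans (step_sound _ _ poly59 scal59)
theorem reach60 : Reach s0 c60.out := reach59.trans (step_sound _ _ poly60 scal60)
theorem reach61 : Reach s0 c61.out := reach60.trans (step_sound _ _ poly61 scal61)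
theorem reach62 : Reach s0 c62.out := reach61.trans (step_sound _ _ poly62 scal62)
theorem reach63 : Reach s0 c63.out := reach62.trans (step_sound _ _ poly63 scal63)
theorem reach64 : Reach s0 c64.out := reach63.trans (step_sound _ _ poly64 scal64)
theorem reach65 : Reach s0 c65.out := reach64.trans (step_sound _ _ poly65 scal65)
theorem reach66 : Reach s0 c66.out := reach65.trans (step_sound _ _ poly66 scal66)
theorem reach67 : Reach s0 c67.out := reach66.trans (step_sound _ _ poly67 scal67)
theorem reach68 : Reach s0 c68.out := reach67.trans (step_sound _ _ poly68 scal68)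
theorem reach69 : Reach s0 c69.out := reach68.trans (step_sound _ _ poly69 scal69)
theorem reach70 : Reach s0 c70.out := reach69.trans (step_sound _ _ poly70 scal70)
theorem reach71 : Reach s0 c71.out := reach70.trans (step_sound _ _ poly71 scal71)
theorem reach72 : Reach s0 c72.out := reach71.trans (step_sound _ _ poly72 scal72)
theorem reach73 : Reach s0 c73.out := reach72.trans (step_sound _ _ poly73 scal73)
theorem reach74 : Reach s0 c74.out := reach73.trans (step_sound _ _ poly74 scal74)
theorem reach75 : Reach s0 c75.out := reach74.trans (step_sound _ _ poly75 scal75)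
theorem reach76 : Reach s0 c76.out := reach75.trans (step_sound _ _ poly76 scal76)
theorem reach77 : Reach s0 c77.out := reach76.trans (step_sound _ _ poly77 scal77)
theorem reach78 : Reach s0 c78.out := reach77.trans (step_sound _ _ poly78 scal78)
theorem reach79 : Reach s0 c79.out := reach78.trans (step_sound _ _ poly79 scal79)
theorem reach80 : Reach s0 c80.out := reach79.trans (step_sound _ _ poly80 scal80)
theorem reach81 : Reach s0 c81.out := reach80.trans (step_sound _ _ poly81 scal81)
theorem reach82 : Reach s0 c82.out := reach81.trans (step_sound _ _ poly82 scal82)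
theorem reach83 : Reach s0 c83.out := reach82.trans (step_sound _ _ poly83 scal83)
theorem reach84 : Reach s0 c84.out := reach83.trans (step_sound _ _ poly84 scal84)
theorem reach85 : Reach s0 c85.out := reach84.trans (step_sound _ _ poly85 scal85)
theorem reach86 : Reach s0 c86.out := reach85.trans (step_sound _ _ poly86 scal86)
theorem reach87 : Reach s0 c87.out := reach86.trans (step_sound _ _ poly87 scal87)
theorem reach88 : Reach s0 c88.out := reach87.trans (step_sound _ _ poly88 scal88)
theorem reach89 : Reach s0 c89.out := reach88.trans (step_sound _ _ poly89 scal89)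
theorem reach90 : Reach s0 c90.out := reach89.trans (step_sound _ _ poly90 scal90)
theorem reach91 : Reach s0 c91.out := reach90.trans (step_sound _ _ poly91 scal91)
theorem reach92 : Reach s0 c92.out := reach91.trans (step_sound _ _ poly92 scal92)

theorem reachF : Reach s0 sF := by
  intro μ d v hs hμ t0 h0
  obtain ⟨t1, a1, a2, a3⟩ := reach92 μ d v hs hμ t0 h0
  exact ⟨t1, a1, a2.relax relaxF, a3⟩

end Pool.Agent.Lib.MP_6e7c44_mp
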