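import Pool.Agent.Lib.MP_6e7c44_mp.Step

/-!
The phase space of the planar three-body problem, escaping initial conditions and symmetries.
-/

set_option autoImplicit false

namespace Pool.Agent.Lib.MP_6e7c44_mp

open Set Complex Filter

/-- Initial conditions of a collision-free forward solution with a distance tending to infinity. -/
def Esc (m : Fin 3 → ℝ) : Set ((Fin 3 → ℂ) × (Fin 3 → ℂ)) :=
  {p | ∃ Q V : ℝ → Fin 3 → ℂ, Q 0 = p.1 ∧ V 0 = p.2 ∧
    (∀ t, 0 ≤ t → ∀ a, HasDerivAt (fun s => Q s a) (V t a) t ∧ HasDerivAt (fun s => V s a)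
      (∑ b ∈ Finset.univ.erase a, (m b / ‖Q t b - Q t a‖ ^ 3) • (Q t b - Q t a)) t) ∧
    (∀ t, 0 ≤ t → ∀ a b, a ≠ b → Q t a ≠ Q t b) ∧
    ∃ a b, Tendsto (fun t => ‖Q t a - Q t b‖) atTop atTop}

lemma esc_map (g : ℂ →L[ℝ] ℂ) {ρ ω : ℝ} (hρ : 0 < ρ) (hω : 0 < ω) (hg : ∀ x, ‖g x‖ = ρ * ‖x‖)
    (π : Equiv.Perm (Fin 3)) (c0 c1 : ℂ) {m m' : Fin 3 → ℝ}
    (hm : ∀ b, m' b = ω ^ 2 * ρ ^ 3 * m (π b)) {p : (Fin 3 → ℂ) × (Fin 3 → ℂ)} (hp : p ∈ Esc m) :
    (fun a => g (p.1 (π a)) + c0, fun a => ω • g (p.2 (π a)) + c1) ∈ Esc m' := by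
  obtain ⟨Q, V, h0, h1, hd, hc, a0, b0, ht⟩ := hp
  have hsub : ∀ (t : ℝ) (a b : Fin 3), (g (Q (ω * t) (π b)) + c0 + t • c1)
      - (g (Q (ω * t) (π a)) + c0 + t • c1) = g (Q (ω * t) (π b) - Q (ω * t) (π a)) := by
    intro t a b; rw [map_sub]; abel
  refine ⟨fun t a => g (Q (ω * t) (π a)) + c0 + t • c1, fun t a => ω • g (V (ω * t) (π a)) + c1,
    by simp [h0], by simp [h1], fun t ht a => ?_, fun t ht a b hab h => ?_,
    π.symm a0, π.symm b0, ?_⟩
  · obtain ⟨k1, k2⟩ := hd (ω * t) (by positivity) (π a)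
    have hl : HasDerivAt (fun s : ℝ => ω * s) ω t := by
      simpa using (hasDerivAt_id t).const_mul ω
    constructor
    · have := ((g.hasFDerivAt.comp_hasDerivAt t (k1.scomp t hl)).add_const c0).add
        ((hasDerivAt_id t).smul_const c1)
      exact hd_congr this (fun _ => rfl) (by rw [map_smul, one_smul])
    · have := ((g.hasFDerivAt.comp_hasDerivAt t (k2.scomp t hl)).const_smul ω).add_const c1
      refine hd_congr this (fun _ => rfl) ?_
      simp only [hsub, map_smul, map_sum, Finset.smul_sum, smul_smul]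
      apply Finset.sum_equiv π
      · intro b; simp
      · intro b _
        rw [hg, hm]
        congr 1
        by_cases h : ‖Q (ω * t) (π b) - Q (ω * t) (π a)‖ = 0
        · simp [h]
        · field_simp
  · have h1 := hsub t a b
    have h2 : g (Q (ω * t) (π b)) + c0 + t • c1 = g (Q (ω * t) (π a)) + c0 + t • c1 := h.symm
    rw [h2, sub_self] at h1
    have h3 := hg (Q (ω * t) (π b) - Q (ω * t) (π a))
    rw [← h1, norm_zero] at h3
    have h4 : ‖Q (ω * t) (π b) - Q (ω * t) (π a)‖ = 0 := by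
      rcases mul_eq_zero.mp h3.symm with h5 | h5
      · linarith
      · exact h5
    exact hc (ω * t) (by positivity) (π a) (π b) (fun h5 => hab (π.injective h5))
      (sub_eq_zero.mp (norm_eq_zero.mp h4)).symm
  · simp only [hsub, hg]
    simp only [Equiv.apply_symm_apply]
    exact (ht.comp (Tendsto.const_mul_atTop hω tendsto_id)).const_mul_atTop hρ

lemma good_map (g : ℂ →L[ℝ] ℂ) {ρ ω : ℝ} (hρ : 0 < ρ) (hω : 0 < ω) (hg : ∀ x, ‖g x‖ = ρ * ‖x‖)
    (π : Equiv.Perm (Fin 3)) (c0 c1 : ℂ) {m m' : Fin 3 → ℝ}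
    (hm : ∀ b, m' b = ω ^ 2 * ρ ^ 3 * m (π b)) {p : (Fin 3 → ℂ) × (Fin 3 → ℂ)}
    (hp : p ∈ closure (interior (Esc m))) :
    (fun a => g (p.1 (π a)) + c0, fun a => ω • g (p.2 (π a)) + c1)
      ∈ closure (interior (Esc m')) := by
  have hinj : Function.Injective (g : ℂ →ₗ[ℝ] ℂ) := by
    rw [injective_iff_map_eq_zero]
    intro x hx
    have h1 := hg x
    have h2 : g x = 0 := hx
    rw [h2, norm_zero] at h1
    rcases mul_eq_zero.mp h1.symm with h | h
    · linarith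
    · exact norm_eq_zero.mp h
  let e : ℂ ≃L[ℝ] ℂ := (LinearEquiv.ofInjectiveEndo _ hinj).toContinuousLinearEquiv
  have he : ∀ x, e x = g x := fun _ => rfl
  let φ : (Fin 3 → ℂ) × (Fin 3 → ℂ) → (Fin 3 → ℂ) × (Fin 3 → ℂ) :=
    fun p => (fun a => g (p.1 (π a)) + c0, fun a => ω • g (p.2 (π a)) + c1)
  let ψ : (Fin 3 → ℂ) × (Fin 3 → ℂ) → (Fin 3 → ℂ) × (Fin 3 → ℂ) :=
    fun p => (fun a => e.symm (p.1 (π.symm a) - c0), fun a => e.symm (ω⁻¹ • (p.2 (π.symm a) - c1)))
  have hφ : Continuous φ := by fun_prop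
  have hψ : Continuous ψ := by fun_prop
  have ho : IsOpenMap φ := by
    apply IsOpenMap.of_inverse hψ
    · intro p
      ext a
      · simp [φ, ψ, ← he]
      · simp only [φ, ψ, ← he, Equiv.symm_apply_apply, ContinuousLinearEquiv.apply_symm_apply,
          smul_smul, mul_inv_cancel₀ hω.ne', one_smul, sub_add_cancel]
    · intro p
      ext a
      · simp [φ, ψ, ← he]
      · simp only [φ, ψ, ← he, Equiv.apply_symm_apply, ContinuousLinearEquiv.symm_apply_apply,
          smul_smul, inv_mul_cancel₀ hω.ne', one_smul, add_sub_cancel_right]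
  have h1 : φ '' interior (Esc m) ⊆ interior (Esc m') := by
    apply interior_maximal _ (ho _ isOpen_interior)
    rintro _ ⟨p, hp, rfl⟩
    exact esc_map g hρ hω hg π c0 c1 hm (interior_subset hp)
  exact closure_mono h1 (image_closure_subset_closure_image hφ ⟨p, hp, rfl⟩)

/-- Relative positions. -/
def rel (q : Fin 3 → ℂ) : Fin 3 → ℂ := ![q 2 - q 1, q 0 - q 2, q 1 - q 0]

/-- Positions relative to the centre of mass, from the relative positions. -/
noncomputable def unrel (μ : Fin 3 → ℝ) (d : Fin 3 → ℂ) : Fin 3 → ℂ :=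
  ![μ 2 • d 1 - μ 1 • d 2, μ 0 • d 2 - μ 2 • d 0, μ 1 • d 0 - μ 0 • d 1]

lemma rel_sum (q : Fin 3 → ℂ) : rel q 0 + rel q 1 + rel q 2 = 0 := by
  simp [rel]

lemma rel_unrel {μ : Fin 3 → ℝ} (hs : μ 0 + μ 1 + μ 2 = 1) {d : Fin 3 → ℂ}
    (h : d 0 + d 1 + d 2 = 0) : rel (unrel μ d) = d := by
  have h1 : (μ 0 : ℂ) + μ 1 + μ 2 = 1 := by exact_mod_cast congrArg (fun x : ℝ => (x : ℂ)) hs
  funext k
  fin_cases k <;> simp [rel, unrel]
  · linear_combination (d 0) * h1 - (μ 0 : ℂ) * h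
  · linear_combination (d 1) * h1 - (μ 1 : ℂ) * h
  · linear_combination (d 2) * h1 - (μ 2 : ℂ) * h

lemma ff_neg (x : ℂ) : ff (-x) = -ff x := by simp [ff]

/-- Lifting an escaping solution in relative coordinates to phase space. -/
lemma esc_lift {μ : Fin 3 → ℝ} (hs : μ 0 + μ 1 + μ 2 = 1) {p : (Fin 3 → ℂ) × (Fin 3 → ℂ)}
    {d v : ℝ → Fin 3 → ℂ} (h0 : d 0 = rel p.1) (h1 : v 0 = rel p.2)
    (hd : ∀ t, HasDerivAt d (v t) t)
    (hv : ∀ t, 0 ≤ t → HasDerivAt v (fun k => -ff (d t k) + μ k • ∑ j, ff (d t j)) t)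
    (hz : ∀ t, d t 0 + d t 1 + d t 2 = 0) (hn : ∀ t, 0 ≤ t → ∀ k, d t k ≠ 0)
    (ht : Tendsto (fun t => ‖d t 0‖) atTop atTop) : p ∈ Esc μ := by
  have hs' : (μ 0 : ℂ) + μ 1 + μ 2 = 1 := by exact_mod_cast congrArg (fun x : ℝ => (x : ℂ)) hs
  set c0 : ℂ := μ 0 • p.1 0 + μ 1 • p.1 1 + μ 2 • p.1 2 with hc0
  set c1 : ℂ := μ 0 • p.2 0 + μ 1 • p.2 1 + μ 2 • p.2 2 with hc1
  have hun : ∀ {x x' : ℝ → Fin 3 → ℂ} {t : ℝ}, HasDerivAt x (x' t) t →
      ∀ a, HasDerivAt (fun s => unrel μ (x s) a) (unrel μ (x' t) a) t := by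
    intro x x' t h a
    have hk := hasDerivAt_pi.mp h
    fin_cases a
    · exact ((hk 1).const_smul (μ 2)).sub ((hk 2).const_smul (μ 1))
    · exact ((hk 2).const_smul (μ 0)).sub ((hk 0).const_smul (μ 2))
    · exact ((hk 0).const_smul (μ 1)).sub ((hk 1).const_smul (μ 0))
  have hr : ∀ t, unrel μ (d t) 2 - unrel μ (d t) 1 = d t 0 ∧ unrel μ (d t) 0 - unrel μ (d t) 2 = d t 1
      ∧ unrel μ (d t) 1 - unrel μ (d t) 0 = d t 2 := fun t =>
    ⟨congrFun (rel_unrel hs (hz t)) 0, congrFun (rel_unrel hs (hz t)) 1,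
      congrFun (rel_unrel hs (hz t)) 2⟩
  have hsub : ∀ (t : ℝ) (a b : Fin 3), (unrel μ (d t) b + c0 + t • c1) - (unrel μ (d t) a + c0 + t • c1)
      = unrel μ (d t) b - unrel μ (d t) a := fun t a b => by abel
  have hf : ∀ (c : ℝ) (x : ℂ), (c / ‖x‖ ^ 3) • x = c • ff x := fun c x => by
    rw [ff, smul_smul, div_eq_mul_inv]
  refine ⟨fun t a => unrel μ (d t) a + c0 + t • c1, fun t a => unrel μ (v t) a + c1, ?_, ?_,
    fun t ht a => ⟨?_, ?_⟩, fun t ht a b hab h => ?_, 2, 1, ?_⟩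
  · funext a
    fin_cases a <;> simp [h0, hc0, unrel, rel]
    · linear_combination (p.1 0) * hs'
    · linear_combination (p.1 1) * hs'
    · linear_combination (p.1 2) * hs'
  · funext a
    fin_cases a <;> simp [h1, hc1, unrel, rel]
    · linear_combination (p.2 0) * hs'
    · linear_combination (p.2 1) * hs'
    · linear_combination (p.2 2) * hs'
  · have := ((hun (hd t) a).add_const c0).add ((hasDerivAt_id t).smul_const c1)
    exact hd_congr this (fun _ => rfl) (by simp)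
  · have := (hun (x' := fun t k => -ff (d t k) + μ k • ∑ j, ff (d t j)) (hv t ht) a).add_const c1
    refine hd_congr this (fun _ => rfl) ?_
    simp only [hsub, hf]
    obtain ⟨r0, r1, r2⟩ := hr t
    have r0' : unrel μ (d t) 1 - unrel μ (d t) 2 = -d t 0 := by rw [← r0]; ring
    have r1' : unrel μ (d t) 2 - unrel μ (d t) 0 = -d t 1 := by rw [← r1]; ring
    have r2' : unrel μ (d t) 0 - unrel μ (d t) 1 = -d t 2 := by rw [← r2]; ring
    fin_cases a
    · have e : (Finset.univ.erase (0 : Fin 3)) = {1, 2} := by decide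
      simp only [Fin.zero_eta, e]
      rw [Finset.sum_pair (by decide), r2, r1', ff_neg]
      simp only [unrel, Matrix.cons_val]
      module
    · have e : (Finset.univ.erase (1 : Fin 3)) = {0, 2} := by decide
      simp only [Fin.mk_one, e]
      rw [Finset.sum_pair (by decide), r2', r0, ff_neg]
      simp only [unrel, Matrix.cons_val]
      module
    · have e : (Finset.univ.erase (2 : Fin 3)) = {0, 1} := by decide
      simp only [Fin.reduceFinMk, e]
      rw [Finset.sum_pair (by decide), r1, r0', ff_neg]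
      simp only [unrel, Matrix.cons_val]
      module
  · have h2 : unrel μ (d t) a - unrel μ (d t) b = 0 := by
      rw [← hsub]; exact sub_eq_zero.mpr h
    obtain ⟨r0, r1, r2⟩ := hr t
    have n0 := hn t ht 0
    have n1 := hn t ht 1
    have n2 := hn t ht 2
    fin_cases a <;> fin_cases b <;> simp at hab h2
    · exact n2 (by rw [← r2]; linear_combination -h2)
    · exact n1 (by rw [← r1]; linear_combination h2)
    · exact n2 (by rw [← r2]; linear_combination h2)
    · exact n0 (by rw [← r0]; linear_combination -h2)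
    · exact n1 (by rw [← r1]; linear_combination -h2)
    · exact n0 (by rw [← r0]; linear_combination h2)
  · simp only [hsub, (hr _).1]
    exact ht

end Pool.Agent.Lib.MP_6e7c44_mp
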