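import Pool.Agent.Lib.MP_6e7c44_mp.Local2
import Pool.Agent.Lib.MP_6e7c44_mp.Phase

/-!
The equal-mass Lagrange relative equilibrium is a limit of open sets of escaping orbits.
-/

set_option autoImplicit false

namespace Pool.Agent.Lib.MP_6e7c44_mp

open Set Complex Filter Topology

lemma cont_n3 : Continuous n3 := T3.continuous.norm

lemma interior_point {T : ℝ} (hT : T ≤ 0) :
    (unrel (fun _ => 1 / 3) (DL T), unrel (fun _ => 1 / 3) (VL T))
      ∈ interior (Esc (fun _ => 1 / 3)) := by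
  have hp := pow_pos (ss_pos T) 3
  have hrel : Continuous rel := by unfold rel; fun_prop
  have ho : IsOpen {p : (Fin 3 → ℂ) × (Fin 3 → ℂ) |
      n3 (rel p.1 - DL T) < 200 * ss T ^ 3 ∧ n3 (rel p.2 - VL T) < 200 * ss T ^ 3} :=
    (isOpen_lt (cont_n3.comp (by fun_prop)) continuous_const).inter
      (isOpen_lt (cont_n3.comp (by fun_prop)) continuous_const)
  refine interior_maximal ?_ ho ?_
  · intro p hp
    obtain ⟨d, v, h0, h1, h2, h3, h4, h5, h6⟩ :=
      escape_rel hT (rel_sum p.1) (rel_sum p.2) hp.1.le hp.2.le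
    exact esc_lift (by norm_num) h0 h1 h2 h3 h4 h5 h6
  · have e1 : rel (unrel (fun _ => 1 / 3) (DL T)) = DL T := rel_unrel (by norm_num) (cmb_sum _ _)
    have e2 : rel (unrel (fun _ => 1 / 3) (VL T)) = VL T := rel_unrel (by norm_num) (cmb_sum _ _)
    have e3 : n3 0 = 0 := by simp [n3]
    simp only [mem_ofPred_eq, e1, e2, sub_self, e3]
    constructor <;> linarith

lemma base_good : (unrel (fun _ => 1 / 3) (cmb 1 0), unrel (fun _ => 1 / 3) (cmb I 0))
    ∈ closure (interior (Esc (fun _ => 1 / 3))) := by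
  let Φ : ℝ → (Fin 3 → ℂ) × (Fin 3 → ℂ) := fun s =>
    (unrel (fun _ => 1 / 3) (cmb (1 + eta * (s : ℂ) ^ 2) (s + gam * (s : ℂ) ^ 2)),
      unrel (fun _ => 1 / 3) (cmb (I + eta * (2 * lam + I) * (s : ℂ) ^ 2)
        (lam * s + gam * (2 * lam + 3 * I) * (s : ℂ) ^ 2)))
  have hΦ : Continuous Φ := by
    simp only [Φ, unrel, cmb]
    fun_prop
  have h0 : Φ 0 = (unrel (fun _ => 1 / 3) (cmb 1 0), unrel (fun _ => 1 / 3) (cmb I 0)) := by
    simp [Φ]
  have ht : Tendsto (fun n : ℕ => ss (-(n * (2 * Real.pi)))) atTop (𝓝 0) := by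
    have h1 : Tendsto (fun n : ℕ => lam * (-(n * (2 * Real.pi)))) atTop atBot := by
      apply Tendsto.const_mul_atBot lam_pos
      apply tendsto_neg_atTop_atBot.comp
      exact tendsto_natCast_atTop_atTop.atTop_mul_const (by positivity)
    simpa [ss] using (Real.tendsto_exp_atBot.comp h1).const_mul sig
  rw [← h0]
  refine mem_closure_of_tendsto ((hΦ.tendsto 0).comp ht) (Eventually.of_forall fun n => ?_)
  have he : e1 (-(n * (2 * Real.pi))) = 1 := by
    have := Complex.exp_int_mul_two_pi_mul_I (-n)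
    rw [← this, e1]
    congr 1
    push_cast
    ring
  have := interior_point (T := -(n * (2 * Real.pi))) (neg_nonpos.mpr (by positivity))
  simpa [Φ, DL, VL, zf, wf, he] using this

lemma equilateral {x y : ℂ} {r : ℝ} (hr : 0 < r) (hx : ‖x‖ = r) (hy : ‖y‖ = r)
    (hxy : ‖x + y‖ = r) : y = ze * x ∨ y = ze ^ 2 * x := by
  have h1 := Complex.mul_conj' x
  have h2 := Complex.mul_conj' y
  have h3 := Complex.mul_conj' (x + y)
  rw [hx] at h1; rw [hy] at h2; rw [hxy, map_add] at h3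
  have hr' : (r : ℂ) ^ 2 ≠ 0 := pow_ne_zero _ (by exact_mod_cast hr.ne')
  have h4 : (r : ℂ) ^ 2 * ((y - ze * x) * (y - ze ^ 2 * x)) = 0 := by
    have hz := ze_rel
    have hz3 : ze ^ 3 = 1 := by linear_combination (ze - 1) * hz
    linear_combination (x * y) * h3 - (x * y + y ^ 2) * h1 - (x * y + x ^ 2) * h2
      - (r : ℂ) ^ 2 * x * y * hz + (r : ℂ) ^ 2 * x ^ 2 * hz3
  rcases mul_eq_zero.mp ((mul_eq_zero.mp h4).resolve_left hr') with h | h
  · left; linear_combination h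
  · right; linear_combination h

lemma circular {x x' : ℝ → ℂ} {r ω : ℝ} (hr : 0 < r) (hx : ∀ t, HasDerivAt x (x' t) t)
    (hx' : HasDerivAt x' (-(ω : ℂ) ^ 2 * x 0) 0) (hn : ∀ t, ‖x t‖ = r) :
    x' 0 = ω * I * x 0 ∨ x' 0 = -(ω * I * x 0) := by
  have h1 : ∀ t, x t * (starRingEnd ℂ) (x t) = (r : ℂ) ^ 2 := fun t => by
    rw [Complex.mul_conj', hn]
  have h2 : ∀ t, x' t * (starRingEnd ℂ) (x t) + x t * (starRingEnd ℂ) (x' t) = 0 := fun t => by
    have a1 := (hx t).mul (hx t).star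
    have a2 : HasDerivAt (fun _ : ℝ => (r : ℂ) ^ 2) _ t := hd_congr a1 (fun s => (h1 s).symm) rfl
    exact a2.unique (hasDerivAt_const t _)
  have a1 := (hx'.mul (hx 0).star).add ((hx 0).mul hx'.star)
  have a2 : HasDerivAt (fun _ : ℝ => (0 : ℂ)) _ 0 := hd_congr a1 (fun s => (h2 s).symm) rfl
  have h3 := a2.unique (hasDerivAt_const 0 _)
  simp only [star_def, map_mul, map_neg, map_pow, conj_ofReal] at h3
  have hr' : (r : ℂ) ^ 2 ≠ 0 := pow_ne_zero _ (by exact_mod_cast hr.ne')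
  have h4 : (r : ℂ) ^ 2 * ((x' 0 - ω * I * x 0) * (x' 0 + ω * I * x 0)) = 0 := by
    have hI := Complex.I_mul_I
    have k1 := h1 0
    have k2 := h2 0
    linear_combination (-(x' 0) ^ 2 - ω ^ 2 * (x 0) ^ 2) * k1 + (x' 0 * x 0) * k2
      - (x 0) ^ 2 / 2 * h3 - (r : ℂ) ^ 2 * ω ^ 2 * (x 0) ^ 2 * hI
  rcases mul_eq_zero.mp ((mul_eq_zero.mp h4).resolve_left hr') with h | h
  · left; linear_combination h
  · right; linear_combination h

theorem lagrange_good {m r : ℝ} (hm : 0 < m) (hr : 0 < r) {q v : ℝ → Fin 3 → ℂ}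
    (hq : ∀ t a, HasDerivAt (fun s => q s a) (v t a) t)
    (hv : ∀ t a, HasDerivAt (fun s => v s a)
      (∑ b ∈ Finset.univ.erase a, (m / ‖q t b - q t a‖ ^ 3) • (q t b - q t a)) t)
    (hd : ∀ t a b, a ≠ b → ‖q t a - q t b‖ = r) :
    (q 0, v 0) ∈ closure (interior (Esc (fun _ => m))) := by
  obtain ⟨ω, hω, hω2⟩ : ∃ ω : ℝ, 0 < ω ∧ ω ^ 2 = 3 * (m / r ^ 3) :=
    ⟨√(3 * (m / r ^ 3)), by positivity, Real.sq_sqrt (by positivity)⟩
  have hmω : m = ω ^ 2 * r ^ 3 * (1 / 3) := by rw [hω2]; field_simp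
  have hωc : (ω : ℂ) ^ 2 = 3 * ((m / r ^ 3 : ℝ) : ℂ) := by exact_mod_cast hω2
  have hacc : ∀ a, HasDerivAt (fun s => v s a)
      (((m / r ^ 3 : ℝ) : ℂ) * (q 0 0 + q 0 1 + q 0 2 - 3 * q 0 a)) 0 := by
    intro a
    refine hd_congr (hv 0 a) (fun _ => rfl) ?_
    rw [Finset.sum_congr rfl (g := fun b => (m / r ^ 3) • (q 0 b - q 0 a))
      (fun b hb => by rw [hd 0 b a (Finset.ne_of_mem_erase hb)]),
      Finset.sum_erase _ (by simp), Fin.sum_univ_three]
    simp only [Complex.real_smul]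
    ring
  have hc : ∀ a b, a ≠ b → v 0 a - v 0 b = ω * I * (q 0 a - q 0 b) ∨
      v 0 a - v 0 b = -(ω * I * (q 0 a - q 0 b)) := fun a b hab =>
    circular (x := fun t => q t a - q t b) (x' := fun t => v t a - v t b) hr
      (fun t => (hq t a).sub (hq t b))
      (hd_congr ((hacc a).sub (hacc b)) (fun _ => rfl) (by rw [hωc]; ring))
      (fun t => hd t a b hab)
  have hne : ∀ a b, a ≠ b → ω * I * (q 0 a - q 0 b) ≠ 0 := fun a b hab => by
    refine mul_ne_zero (mul_ne_zero (by exact_mod_cast hω.ne') I_ne_zero) fun h => ?_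
    have := hd 0 a b hab
    rw [h, norm_zero] at this
    linarith
  have hvel : (v 0 2 - v 0 1 = ω * I * (q 0 2 - q 0 1) ∧ v 0 0 - v 0 2 = ω * I * (q 0 0 - q 0 2)) ∨
      (v 0 2 - v 0 1 = -(ω * I * (q 0 2 - q 0 1)) ∧
        v 0 0 - v 0 2 = -(ω * I * (q 0 0 - q 0 2))) := by
    have n0 := hne 2 1 (by decide)
    have n1 := hne 0 2 (by decide)
    rcases hc 2 1 (by decide) with h0 | h0 <;> rcases hc 0 2 (by decide) with h1 | h1
    · exact Or.inl ⟨h0, h1⟩
    · exfalso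
      rcases hc 1 0 (by decide) with h2 | h2
      · exact n1 (by linear_combination (h0 + h1 + h2) / 2)
      · exact n0 (by linear_combination -(h0 + h1 + h2) / 2)
    · exfalso
      rcases hc 1 0 (by decide) with h2 | h2
      · exact n0 (by linear_combination (h0 + h1 + h2) / 2)
      · exact n1 (by linear_combination -(h0 + h1 + h2) / 2)
    · exact Or.inr ⟨h0, h1⟩
  have hpos := equilateral (x := q 0 2 - q 0 1) (y := q 0 0 - q 0 2) hr (hd 0 2 1 (by decide))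
    (hd 0 0 2 (by decide)) (by rw [← hd 0 0 1 (by decide)]; congr 1; ring)
  have hA : ‖q 0 2 - q 0 1‖ = r := hd 0 2 1 (by decide)
  have hz := ze_rel
  have hz3 : ze ^ 3 = 1 := by linear_combination (ze - 1) * hz
  have hcz := conj_ze
  have g1 : ∀ A : ℂ, ‖A‖ = r → ∀ x, ‖ContinuousLinearMap.mul ℝ ℂ A x‖ = r * ‖x‖ := by
    intro A h x; simp [h]
  have g2 : ∀ A : ℂ, ‖A‖ = r → ∀ x, ‖((ContinuousLinearMap.mul ℝ ℂ A).comp
      (Complex.conjCLE : ℂ →L[ℝ] ℂ)) x‖ = r * ‖x‖ := by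
    intro A h x; simp [h]
  have hA' : ‖-(q 0 2 - q 0 1)‖ = r := by rw [norm_neg, hA]
  have s0 : Equiv.swap (1 : Fin 3) 2 0 = 0 := by decide
  rcases hpos with hp | hp <;> rcases hvel with ⟨h0, h1⟩ | ⟨h0, h1⟩
  · have := good_map _ hr hω (g1 _ hA) 1 ((q 0 0 + q 0 1 + q 0 2) / 3)
      ((v 0 0 + v 0 1 + v 0 2) / 3) (m' := fun _ => m) (fun _ => hmω) base_good
    convert this using 2 <;> funext a <;> fin_cases a <;> simp [unrel, cmb] <;> grind
  · have := good_map _ hr hω (g2 _ hA') (Equiv.swap 1 2) ((q 0 0 + q 0 1 + q 0 2) / 3)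
      ((v 0 0 + v 0 1 + v 0 2) / 3) (m' := fun _ => m) (fun _ => hmω) base_good
    convert this using 2 <;> funext a <;> fin_cases a <;> simp [unrel, cmb, s0, hcz, map_ofNat] <;> grind
  · have := good_map _ hr hω (g1 _ hA') (Equiv.swap 1 2) ((q 0 0 + q 0 1 + q 0 2) / 3)
      ((v 0 0 + v 0 1 + v 0 2) / 3) (m' := fun _ => m) (fun _ => hmω) base_good
    convert this using 2 <;> funext a <;> fin_cases a <;> simp [unrel, cmb, s0] <;> grind
  · have := good_map _ hr hω (g2 _ hA) 1 ((q 0 0 + q 0 1 + q 0 2) / 3)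
      ((v 0 0 + v 0 1 + v 0 2) / 3) (m' := fun _ => m) (fun _ => hmω) base_good
    convert this using 2 <;> funext a <;> fin_cases a <;> simp [unrel, cmb, hcz, map_ofNat] <;> grind

end Pool.Agent.Lib.MP_6e7c44_mp
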