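import Pool.Agent.Lib.MP_6e7c44_mp.Local2
import Pool.Agent.Lib.MP_6e7c44_mp.Barrier
import Pool.Agent.Lib.MP_6e7c44_mp.Phase
import Pool.Agent.Lib.MP_6e7c44_mp.Final

-- part Pool.Agent.Lib.MP_6e7c44_mp.Force
section

/-!
The expansion of the force near an equilateral configuration, for nearly equal masses.
-/

set_option autoImplicit false

namespace Pool.Agent.Lib.MP_6e7c44_mp

open Set Complex

noncomputable def zc (d : Fin 3 → ℂ) : ℂ := (d 0 + ze ^ 2 * d 1 + ze * d 2) / 3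
noncomputable def wc (d : Fin 3 → ℂ) : ℂ := (d 0 + ze * d 1 + ze ^ 2 * d 2) / 3

/-- The equations for the relative positions. -/
noncomputable def FF (μ : Fin 3 → ℝ) (d : Fin 3 → ℂ) : Fin 3 → ℂ :=
  fun k => -ff (d k) + μ k • ∑ j, ff (d j)

/-- The linearised equation for the shape component along the equilateral solution. -/
noncomputable def lin (μ : Fin 3 → ℝ) (z w : ℂ) : ℂ :=
  (((‖z‖ ^ 3)⁻¹ : ℝ) : ℂ) * (w / 2 - 9 / 2 * wc (fun k => μ k) * z * (starRingEnd ℂ) (w / z))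

lemma ze_cube : ze ^ 3 = 1 := by linear_combination (ze - 1) * ze_rel

lemma cmb_zc_wc {d : Fin 3 → ℂ} (h : d 0 + d 1 + d 2 = 0) : cmb (zc d) (wc d) = d := by
  have h1 := ze_rel
  funext k
  fin_cases k <;> simp [cmb, zc, wc] <;> grind

lemma zc_cmb (z w : ℂ) : zc (cmb z w) = z := by
  have h1 := ze_rel
  simp only [cmb, zc, Matrix.cons_val]; grind

lemma wc_cmb (z w : ℂ) : wc (cmb z w) = w := by
  have h1 := ze_rel
  simp only [cmb, wc, Matrix.cons_val]; grind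

lemma norm_avg {x y z a b : ℂ} {K : ℝ} (ha : ‖a‖ = 1) (hb : ‖b‖ = 1) (hx : ‖x‖ ≤ K) (hy : ‖y‖ ≤ K)
    (hz : ‖z‖ ≤ K) : ‖(x + a * y + b * z) / 3‖ ≤ K := by
  have := norm_add₃_le (a := x) (b := a * y) (c := b * z)
  rw [norm_mul, norm_mul, ha, hb] at this
  rw [norm_div, Complex.norm_ofNat]
  linarith

lemma norm_ze2 : ‖ze ^ 2‖ = 1 := by rw [norm_pow, norm_ze, one_pow]

lemma norm_zc {d : Fin 3 → ℂ} {K : ℝ} (h : ∀ k, ‖d k‖ ≤ K) : ‖zc d‖ ≤ K :=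
  norm_avg norm_ze2 norm_ze (h 0) (h 1) (h 2)

lemma norm_wc {d : Fin 3 → ℂ} {K : ℝ} (h : ∀ k, ‖d k‖ ≤ K) : ‖wc d‖ ≤ K :=
  norm_avg norm_ze norm_ze2 (h 0) (h 1) (h 2)

lemma norm_mass {μ : Fin 3 → ℝ} {δ : ℝ} (h : ∀ k, |μ k - 1 / 3| ≤ δ) :
    ‖zc (fun k => μ k)‖ ≤ δ ∧ ‖wc (fun k => μ k)‖ ≤ δ := by
  have h1 := ze_rel
  have h2 : ∀ k, ‖((μ k - 1 / 3 : ℝ) : ℂ)‖ ≤ δ := fun k => by
    rw [Complex.norm_real, Real.norm_eq_abs]; exact h k
  constructor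
  · have e : zc (fun k => μ k) = zc (fun k => ((μ k - 1 / 3 : ℝ) : ℂ)) := by
      simp only [zc]; push_cast; linear_combination (1 / 9) * h1
    rw [e]; exact norm_zc h2
  · have e : wc (fun k => μ k) = wc (fun k => ((μ k - 1 / 3 : ℝ) : ℂ)) := by
      simp only [wc]; push_cast; linear_combination (1 / 9) * h1
    rw [e]; exact norm_wc h2

lemma inv_pow_close {r δ : ℝ} (h : |r - 1| ≤ δ) (hδ : δ ≤ 1 / 1000000) {n : ℕ} (hn : n ≤ 7) :
    |(r ^ n)⁻¹ - 1| ≤ (n + 1 / 100) * δ := by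
  have h1 := abs_le.mp h
  have hδ0 : 0 ≤ δ := le_trans (abs_nonneg _) h
  have hr : 0 < r := by linarith
  have h2 : |r⁻¹ - 1| ≤ 10001 / 10000 * δ := by
    have e : r⁻¹ - 1 = (1 - r) / r := by field_simp
    rw [e, abs_div, abs_of_pos hr, div_le_iff₀ hr, abs_sub_comm]
    nlinarith
  have h3 := abs_pow_sub_pow_le r⁻¹ 1 n
  have h4 : max |r⁻¹| |1| ≤ 100001 / 100000 := by
    apply max_le _ (by norm_num)
    rw [abs_of_pos (inv_pos.mpr hr)]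
    linarith [(abs_le.mp h2).2]
  have h5 : max |r⁻¹| |1| ^ (n - 1) ≤ 10001 / 10000 :=
    calc max |r⁻¹| |1| ^ (n - 1) ≤ (100001 / 100000) ^ (n - 1) := by gcongr
      _ ≤ (100001 / 100000) ^ 6 := pow_le_pow_right₀ (by norm_num) (by omega)
      _ ≤ _ := by norm_num
  rw [one_pow, inv_pow] at h3
  have h6 : (n : ℝ) ≤ 7 := by exact_mod_cast hn
  have h7 : |r⁻¹ - 1| * n * max |r⁻¹| |1| ^ (n - 1)
      ≤ 10001 / 10000 * δ * n * (10001 / 10000) := by gcongr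
  nlinarith [mul_nonneg hδ0 (sub_nonneg.mpr h6)]

lemma ff_mul {u : ℂ} (x : ℂ) : ff (u * x) = (((‖u‖ ^ 3)⁻¹ : ℝ) : ℂ) * u * ff x := by
  unfold ff
  rw [norm_mul, Complex.real_smul, Complex.real_smul]
  push_cast
  ring

lemma norm_LL (x : ℂ) : ‖LL x‖ ≤ 2 * ‖x‖ := by
  unfold LL
  have := norm_sub_le (-x / 2) (3 / 2 * (starRingEnd ℂ) x)
  rw [norm_div, norm_mul, norm_neg, Complex.norm_conj, Complex.norm_ofNat] at this
  have e : ‖(3 / 2 : ℂ)‖ = 3 / 2 := by simp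
  rw [e] at this
  linarith

lemma ff_split' {y q : ℂ} {s Q : ℝ} (hy : ‖y‖ ≤ 1001 / 1000 * s) (hq : ‖q‖ ≤ Q)
    (hQ : Q ≤ s / 1000) (hs : s ≤ 1 / 1000000) :
    ‖ff (1 + (y + q)) - (1 + LL y + LL q + QQ y)‖ ≤ 373 / 10 * s ^ 3 + 61 / 10 * (s * Q) ∧
      ‖y + q‖ ≤ 1 / 100 := by
  have hs0 : 0 ≤ s := by linarith [norm_nonneg y]
  have hQ0 : 0 ≤ Q := le_trans (norm_nonneg _) hq
  have h1 : ‖y + q‖ ≤ 1002 / 1000 * s := by linarith [norm_add_le y q]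
  have h2 := ff_taylor h1 (by linarith)
  have h3 := QQ_sub (y + q) y
  rw [add_sub_cancel_left] at h3
  have h4 : (‖y + q‖ + ‖y‖) * ‖q‖ ≤ (1002 / 1000 * s + 1001 / 1000 * s) * Q := by gcongr
  have e : ff (1 + (y + q)) - (1 + LL y + LL q + QQ y)
      = (ff (1 + (y + q)) - (1 + LL (y + q) + QQ (y + q))) + (QQ (y + q) - QQ y) := by
    unfold LL; simp only [map_add]; ring
  refine ⟨?_, by linarith⟩
  rw [e]
  have := norm_add_le (ff (1 + (y + q)) - (1 + LL (y + q) + QQ (y + q))) (QQ (y + q) - QQ y)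
  have : 0 ≤ s ^ 3 := by positivity
  have : 0 ≤ s * Q := by positivity
  nlinarith

lemma force {μ : Fin 3 → ℝ} {z w A V : ℂ} {δ s Q1 Q2 : ℝ} (hμ : ∀ k, |μ k - 1 / 3| ≤ δ)
    (hδ : δ ≤ 1 / 1000000) (hz : |‖z‖ - 1| ≤ δ) (hw : ‖w‖ = s) (hs : s ≤ 1 / 1000000)
    (hA : ‖A‖ ≤ Q1) (hV : ‖V‖ ≤ Q2) (hQ1 : Q1 ≤ s / 2000) (hQ2 : Q2 ≤ s ^ 2) :
    (∀ k, 1 / 100 ≤ ‖cmb (z * (1 + A)) (w + V) k‖) ∧
    ‖(zc (FF μ (cmb (z * (1 + A)) (w + V))) + ff z) / z + LL A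
        + 3 / 4 * (w * (starRingEnd ℂ) w)‖ ≤ 6 * (δ * s) + 38 * s ^ 3 + 7 * (s * (Q1 + Q2)) ∧
    ‖wc (FF μ (cmb (z * (1 + A)) (w + V))) - lin μ z w - V / 2
        + 15 / 8 * (z ^ 3 * (starRingEnd ℂ) w ^ 2)‖
      ≤ 24 * (δ * s ^ 2) + 38 * s ^ 3 + 7 * (s * (Q1 + Q2)) := by
  have hs0 : 0 ≤ s := hw ▸ norm_nonneg w
  have hδ0 : 0 ≤ δ := le_trans (abs_nonneg _) hz
  have hQ10 : 0 ≤ Q1 := le_trans (norm_nonneg _) hA
  have hQ20 : 0 ≤ Q2 := le_trans (norm_nonneg _) hV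
  have hz1 := abs_le.mp hz
  have hr : 0 < ‖z‖ := by linarith
  have hz0 : z ≠ 0 := norm_pos_iff.mp hr
  have i1 := abs_le.mp (inv_pow_close hz hδ (n := 1) (by norm_num))
  have i3 := inv_pow_close hz hδ (n := 3) (by norm_num)
  have i5 := inv_pow_close hz hδ (n := 5) (by norm_num)
  have i7 := inv_pow_close hz hδ (n := 7) (by norm_num)
  push_cast at i1 i3 i5 i7
  rw [pow_one] at i1
  obtain ⟨m1, m2⟩ := norm_mass hμ
  obtain ⟨b1, hb1⟩ : ∃ b1, b1 = w / z := ⟨_, rfl⟩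
  obtain ⟨b2, hb2⟩ : ∃ b2, b2 = V / z := ⟨_, rfl⟩
  have nb1 : ‖b1‖ ≤ 1001 / 1000 * s := by
    rw [hb1, norm_div, hw, div_eq_mul_inv]
    linarith [mul_le_mul_of_nonneg_left (show ‖z‖⁻¹ ≤ 1001 / 1000 by linarith) hs0]
  have nb2 : ‖b2‖ ≤ 1001 / 1000 * Q2 := by
    rw [hb2, norm_div, div_eq_mul_inv]
    calc ‖V‖ * ‖z‖⁻¹ ≤ Q2 * (1001 / 1000) := by gcongr; linarith
      _ = _ := by ring
  have hw' : w = z * b1 := by rw [hb1]; field_simp
  have hV' : V = z * b2 := by rw [hb2]; field_simp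
  have hz2 := ze_rel
  have hz3 := ze_cube
  let r : Fin 3 → ℂ := ![1, ze, ze ^ 2]
  have hr1 : ∀ k, ‖r k‖ = 1 := by
    intro k; fin_cases k <;> simp [r, norm_ze]
  have hD : ∀ k, cmb (z * (1 + A)) (w + V) k = (r k * z) * (1 + (r k * b1 + (A + r k * b2))) := by
    intro k
    rw [hw', hV']
    fin_cases k <;> simp [cmb, r] <;> grind
  have hs2 : s ^ 2 ≤ s / 1000000 := by linarith [mul_le_mul_of_nonneg_left hs hs0]
  have hsp := fun k => ff_split' (y := r k * b1) (q := A + r k * b2) (s := s)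
    (Q := 1001 / 1000 * (Q1 + Q2)) (by rw [norm_mul, hr1, one_mul]; exact nb1)
    (by have := norm_add_le A (r k * b2)
        rw [norm_mul, hr1, one_mul] at this
        linarith) (by linarith) hs
  have hu : ∀ k, ‖r k * z‖ = ‖z‖ := fun k => by rw [norm_mul, hr1, one_mul]
  obtain ⟨R, hR⟩ : ∃ R : Fin 3 → ℂ, ∀ k, R k = ff (1 + (r k * b1 + (A + r k * b2)))
      - (1 + LL (r k * b1) + LL (A + r k * b2) + QQ (r k * b1)) := ⟨_, fun _ => rfl⟩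
  obtain ⟨ρ, hρ⟩ : ∃ ρ, ρ = 373 / 10 * s ^ 3 + 61 / 10 * (s * (1001 / 1000 * (Q1 + Q2))) :=
    ⟨_, rfl⟩
  have nR : ∀ k, ‖R k‖ ≤ ρ := fun k => by rw [hR, hρ]; exact (hsp k).1
  obtain ⟨ν, hν⟩ : ∃ ν : ℝ, ν = (‖z‖ ^ 3)⁻¹ := ⟨_, rfl⟩
  have hf : ∀ k, ff (cmb (z * (1 + A)) (w + V) k) = (ν : ℂ) * (r k * z) *
      (R k + (1 + LL (r k * b1) + LL (A + r k * b2) + QQ (r k * b1))) := fun k => by
    rw [hD, ff_mul, hu, hR, ← hν]; ring
  have hfz : ff z = (ν : ℂ) * z := by rw [ff, Complex.real_smul, hν]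
  have hzz : z * (starRingEnd ℂ) z = ((‖z‖ ^ 2 : ℝ) : ℂ) := by
    rw [Complex.mul_conj']; push_cast; rfl
  obtain ⟨κ5, hκ5⟩ : ∃ κ : ℝ, κ = (‖z‖ ^ 5)⁻¹ := ⟨_, rfl⟩
  obtain ⟨κ7, hκ7⟩ : ∃ κ : ℝ, κ = (‖z‖ ^ 7)⁻¹ := ⟨_, rfl⟩
  have k5 : (ν : ℂ) = κ5 * (z * (starRingEnd ℂ) z) := by
    rw [hzz, hν, hκ5]; norm_cast; field_simp
  have k7 : (ν : ℂ) = κ7 * (z * (starRingEnd ℂ) z) ^ 2 := by
    rw [hzz, hν, hκ7]; norm_cast; field_simp
  rw [← hν] at i3; rw [← hκ5] at i5; rw [← hκ7] at i7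
  have hν1 : ‖(ν : ℂ)‖ ≤ 1001 / 1000 := by
    rw [Complex.norm_real, Real.norm_eq_abs, abs_le]
    constructor <;> linarith [(abs_le.mp i3).1, (abs_le.mp i3).2]
  have c3 : ‖(ν : ℂ) - 1‖ ≤ 4 * δ := by
    rw [← Complex.ofReal_one, ← Complex.ofReal_sub, Complex.norm_real, Real.norm_eq_abs]; linarith
  have c5 : ‖(κ5 : ℂ) - 1‖ ≤ 6 * δ := by
    rw [← Complex.ofReal_one, ← Complex.ofReal_sub, Complex.norm_real, Real.norm_eq_abs]; linarith
  have c7 : ‖(κ7 : ℂ) - 1‖ ≤ 8 * δ := by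
    rw [← Complex.ofReal_one, ← Complex.ofReal_sub, Complex.norm_real, Real.norm_eq_abs]; linarith
  have hr0 : r 0 = 1 := rfl
  have hr1' : r 1 = ze := rfl
  have hr2 : r 2 = ze ^ 2 := rfl
  have nz : ‖z‖ ≤ 1001 / 1000 := by linarith
  have nN : ‖w * (starRingEnd ℂ) w‖ ≤ s ^ 2 := by
    rw [norm_mul, Complex.norm_conj, hw, pow_two]
  have nM : ‖z ^ 3 * (starRingEnd ℂ) w ^ 2‖ ≤ (1001 / 1000) ^ 3 * s ^ 2 := by
    rw [norm_mul, norm_pow, norm_pow, Complex.norm_conj, hw]; gcongr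
  have nq : ‖(9 / 8 : ℂ) * b1 ^ 2 + 3 * wc R‖ ≤ 9 / 8 * (1001 / 1000 * s) ^ 2 + 3 * ρ := by
    refine norm_add_le_of_le (norm_mul_le_of_le (by simp) ?_)
      (norm_mul_le_of_le (by simp) (norm_wc nR))
    rw [norm_pow]; gcongr
  have hs20 : 0 ≤ s ^ 2 := by positivity
  have hs3 : s ^ 3 ≤ s ^ 2 / 1000000 := by linarith [mul_le_mul_of_nonneg_left hs hs20]
  have hsQ : s * (Q1 + Q2) ≤ s ^ 2 / 1000 := by
    linarith [mul_le_mul_of_nonneg_left (show Q1 + Q2 ≤ s / 1000 by linarith) hs0]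
  have hsQ0 : 0 ≤ s * (Q1 + Q2) := by positivity
  have hs30 : 0 ≤ s ^ 3 := by positivity
  have hρ2 : ρ ≤ s ^ 2 / 100 := by rw [hρ]; linarith
  have hρ0 : 0 ≤ ρ := le_trans (norm_nonneg _) (nR 0)
  have hδs : 0 ≤ δ * s := by positivity
  have hδs2 : 0 ≤ δ * s ^ 2 := by positivity
  have hδs3 : δ * s ^ 2 ≤ δ * s / 1000000 := by linarith [mul_le_mul_of_nonneg_left hs2 hδ0]
  have hδρ : δ * ρ ≤ δ * s ^ 2 / 100 := by linarith [mul_le_mul_of_nonneg_left hρ2 hδ0]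
  have hδQ1 : δ * Q1 ≤ δ * s / 2000 := by linarith [mul_le_mul_of_nonneg_left hQ1 hδ0]
  have hδQ2 : δ * Q2 ≤ δ * s ^ 2 := mul_le_mul_of_nonneg_left hQ2 hδ0
  refine ⟨fun k => ?_, ?_, ?_⟩
  · rw [hD, norm_mul, hu]
    have h1 := norm_sub_norm_le (1 : ℂ) (-(r k * b1 + (A + r k * b2)))
    rw [sub_neg_eq_add, norm_neg, norm_one] at h1
    have h2 := (hsp k).2
    calc (1 / 100 : ℝ) ≤ (1 / 2) * (1 / 2) := by norm_num
      _ ≤ _ := mul_le_mul (by linarith) (by linarith) (by norm_num) hr.le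
  · have e : (zc (FF μ (cmb (z * (1 + A)) (w + V))) + ff z) / z + LL A
        + 3 / 4 * (w * (starRingEnd ℂ) w)
        = -(((ν : ℂ) - 1) * LL A + 3 / 4 * (((κ5 : ℂ) - 1) * (w * (starRingEnd ℂ) w))
          + ν * ((R 0 + 1 * R 1 + 1 * R 2) / 3)) + zc (fun k => μ k) * (ν *
          (-(9 / 2) * ((starRingEnd ℂ) b1 + (starRingEnd ℂ) b2) + (9 / 8 * b1 ^ 2 + 3 * wc R))) := by
      have e1 : zc (FF μ (cmb (z * (1 + A)) (w + V))) + ff z = z * (-(ν * LL A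
          + 3 / 4 * (ν * (b1 * (starRingEnd ℂ) b1)) + ν * ((R 0 + 1 * R 1 + 1 * R 2) / 3))
          + zc (fun k => μ k) * (ν * (-(9 / 2) * ((starRingEnd ℂ) b1 + (starRingEnd ℂ) b2)
          + (9 / 8 * b1 ^ 2 + 3 * wc R)))) := by
        simp only [zc, wc, FF, Fin.sum_univ_three, hf, hfz, Complex.real_smul, hr0, hr1', hr2, LL, QQ,
          map_mul, map_add, map_pow, map_one, conj_ze]
        grind
      rw [e1, mul_div_cancel_left₀ _ hz0, hw', map_mul]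
      linear_combination (-(3 / 4) * (b1 * (starRingEnd ℂ) b1)) * k5
    rw [e]
    have t1 : ‖((ν : ℂ) - 1) * LL A‖ ≤ 4 * δ * (2 * Q1) :=
      norm_mul_le_of_le c3 (le_trans (norm_LL A) (by linarith))
    have t2 : ‖(3 / 4 : ℂ) * (((κ5 : ℂ) - 1) * (w * (starRingEnd ℂ) w))‖
        ≤ 3 / 4 * (6 * δ * s ^ 2) := norm_mul_le_of_le (by simp) (norm_mul_le_of_le c5 nN)
    have t3 : ‖(ν : ℂ) * ((R 0 + 1 * R 1 + 1 * R 2) / 3)‖ ≤ 1001 / 1000 * ρ :=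
      norm_mul_le_of_le hν1 (norm_avg norm_one norm_one (nR 0) (nR 1) (nR 2))
    have t4 : ‖-(9 / 2 : ℂ) * ((starRingEnd ℂ) b1 + (starRingEnd ℂ) b2)‖
        ≤ 9 / 2 * (1001 / 1000 * s + 1001 / 1000 * Q2) :=
      norm_mul_le_of_le (by simp) (norm_add_le_of_le (by rwa [Complex.norm_conj])
        (by rwa [Complex.norm_conj]))
    have t5 := norm_mul_le_of_le m1 (norm_mul_le_of_le hν1 (norm_add_le_of_le t4 nq))
    have t6 := norm_add_le_of_le (norm_add_le_of_le t1 t2) t3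
    rw [← norm_neg] at t6
    refine le_trans (norm_add_le_of_le t6 t5) ?_
    linarith
  · have e : wc (FF μ (cmb (z * (1 + A)) (w + V))) - lin μ z w - V / 2
        + 15 / 8 * (z ^ 3 * (starRingEnd ℂ) w ^ 2)
        = ((ν : ℂ) - 1) * (V / 2) - 15 / 8 * (((κ7 : ℂ) - 1) * (z ^ 3 * (starRingEnd ℂ) w ^ 2))
          - ν * (z * zc R) + wc (fun k => μ k) * (ν * (z *
          (-(9 / 2) * (starRingEnd ℂ) b2 + (9 / 8 * b1 ^ 2 + 3 * wc R)))) := by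
      have e1 : wc (FF μ (cmb (z * (1 + A)) (w + V))) = z * (-(ν * (-(b1 + b2) / 2
          + 15 / 8 * (starRingEnd ℂ) b1 ^ 2 + zc R))
          + wc (fun k => μ k) * (ν * (-(9 / 2) * ((starRingEnd ℂ) b1 + (starRingEnd ℂ) b2)
          + (9 / 8 * b1 ^ 2 + 3 * wc R)))) := by
        simp only [zc, wc, FF, Fin.sum_univ_three, hf, Complex.real_smul, hr0, hr1', hr2, LL, QQ,
          map_mul, map_add, map_pow, map_one, conj_ze]
        grind
      rw [e1, lin, ← hν, ← hb1, hw', hV', map_mul]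
      linear_combination (-(15 / 8) * (z * (starRingEnd ℂ) b1 ^ 2)) * k7
    rw [e]
    have t1 : ‖((ν : ℂ) - 1) * (V / 2)‖ ≤ 4 * δ * (Q2 / 2) :=
      norm_mul_le_of_le c3 (by rw [norm_div, Complex.norm_ofNat]; linarith)
    have t2 : ‖(15 / 8 : ℂ) * (((κ7 : ℂ) - 1) * (z ^ 3 * (starRingEnd ℂ) w ^ 2))‖
        ≤ 15 / 8 * (8 * δ * ((1001 / 1000) ^ 3 * s ^ 2)) :=
      norm_mul_le_of_le (by simp) (norm_mul_le_of_le c7 nM)
    have t3 : ‖(ν : ℂ) * (z * zc R)‖ ≤ 1001 / 1000 * (1001 / 1000 * ρ) :=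
      norm_mul_le_of_le hν1 (norm_mul_le_of_le nz (norm_zc nR))
    have t4 : ‖-(9 / 2 : ℂ) * (starRingEnd ℂ) b2‖ ≤ 9 / 2 * (1001 / 1000 * Q2) :=
      norm_mul_le_of_le (by simp) (by rwa [Complex.norm_conj])
    have t5 := norm_mul_le_of_le m2 (norm_mul_le_of_le hν1 (norm_mul_le_of_le nz
      (norm_add_le_of_le t4 nq)))
    refine le_trans (norm_add_le_of_le (norm_sub_le_of_le (norm_sub_le_of_le t1 t2) t3) t5) ?_
    linarith

end Pool.Agent.Lib.MP_6e7c44_mp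
end

-- part Pool.Agent.Lib.MP_6e7c44_mp.Pert
section

/-!
The two-level fence along a nearly circular equilateral solution for nearly equal masses.
-/

set_option autoImplicit false

namespace Pool.Agent.Lib.MP_6e7c44_mp

open Set Complex

noncomputable def Om (a c : ℂ) : ℂ :=
  -(starRingEnd ℂ) a + 3 / 2 * I * c - 1 / 2 * I * (starRingEnd ℂ) c
noncomputable def Pm (a c : ℂ) : ℂ :=
  5 / 12 * a + 7 / 12 * (starRingEnd ℂ) a - 2 / 3 * I * c + 1 / 3 * I * (starRingEnd ℂ) c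

lemma hd_Om {a c : ℝ → ℂ} {a' c' : ℂ} {t : ℝ} (ha : HasDerivAt a a' t) (hc : HasDerivAt c c' t) :
    HasDerivAt (fun s => Om (a s) (c s)) (Om a' c') t :=
  (ha.star.neg.add (hc.const_mul _)).sub (hc.star.const_mul _)

lemma hd_Pm {a c : ℝ → ℂ} {a' c' : ℂ} {t : ℝ} (ha : HasDerivAt a a' t) (hc : HasDerivAt c c' t) :
    HasDerivAt (fun s => Pm (a s) (c s)) (Pm a' c') t :=
  (((ha.const_mul _).add (ha.star.const_mul _)).sub (hc.const_mul _)).add (hc.star.const_mul _)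

lemma norm_Om (a c : ℂ) : ‖Om a c‖ ≤ ‖a‖ + 2 * ‖c‖ := by
  have h := norm_sub_le_of_le (norm_add_le (-(starRingEnd ℂ) a) (3 / 2 * I * c))
    (le_refl ‖1 / 2 * I * (starRingEnd ℂ) c‖)
  simp at h
  simp [Om]; linarith

lemma norm_Pm (a c : ℂ) : ‖Pm a c‖ ≤ ‖a‖ + ‖c‖ := by
  have h := norm_add_le_of_le (norm_sub_le_of_le (norm_add_le (5 / 12 * a)
    (7 / 12 * (starRingEnd ℂ) a)) (le_refl ‖2 / 3 * I * c‖)) (le_refl ‖1 / 3 * I * (starRingEnd ℂ) c‖)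
  simp at h
  simp [Pm]; linarith

lemma Om_flow (a c a' c' : ℂ) :
    Om a' c' + I * Om a c = Om (a' - (c - I * a)) (c' - (-LL a - I * c)) := by
  apply Complex.ext <;> simp [Om, LL, map_ofNat] <;> ring

lemma Pm_flow (a c a' c' : ℂ) :
    ‖Pm a' c'‖ ≤ ‖Pm a c‖ / 2 + ‖Pm (a' - (c - I * a)) (c' - (-LL a - I * c))‖ := by
  have e : Pm a' c' = -(I / 4) * (Pm a c + (starRingEnd ℂ) (Pm a c))
      + Pm (a' - (c - I * a)) (c' - (-LL a - I * c)) := by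
    apply Complex.ext <;> simp [Pm, LL, map_ofNat] <;> ring
  rw [e]
  refine le_trans (norm_add_le _ _) ?_
  have h := norm_add_le (Pm a c) ((starRingEnd ℂ) (Pm a c))
  rw [Complex.norm_conj] at h
  rw [norm_mul]
  have : ‖-(I / 4)‖ = 1 / 4 := by simp
  rw [this]
  linarith

lemma inv_Om_Pm {a c : ℂ} {B : ℝ} (h1 : ‖Om a c‖ ≤ B) (h2 : ‖Pm a c‖ ≤ B) :
    ‖a‖ ≤ 8 * B ∧ ‖c‖ ≤ 7 * B := by
  constructor
  · have e : a = 3 / 2 * Om a c - 1 / 2 * (starRingEnd ℂ) (Om a c)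
        + (4 * Pm a c - 2 * (starRingEnd ℂ) (Pm a c)) := by
      apply Complex.ext <;> simp [Om, Pm, map_ofNat] <;> ring
    have h := norm_add_le_of_le (norm_sub_le (3 / 2 * Om a c) (1 / 2 * (starRingEnd ℂ) (Om a c)))
      (norm_sub_le (4 * Pm a c) (2 * (starRingEnd ℂ) (Pm a c)))
    rw [← e] at h
    simp at h
    linarith
  · have e : c = -I * (starRingEnd ℂ) (Om a c)
        + (5 / 2 * I * Pm a c - 7 / 2 * I * (starRingEnd ℂ) (Pm a c)) := by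
      apply Complex.ext <;> simp [Om, Pm, map_ofNat] <;> ring
    have h := norm_add_le_of_le (le_refl ‖-I * (starRingEnd ℂ) (Om a c)‖)
      (norm_sub_le (5 / 2 * I * Pm a c) (7 / 2 * I * (starRingEnd ℂ) (Pm a c)))
    rw [← e] at h
    simp at h
    linarith

lemma norm_gam' : ‖gam‖ ≤ 1 / 5 := by
  apply abs_le_of_sq_le_sq' _ (by norm_num) |>.2
  rw [Complex.sq_norm, Complex.normSq_apply]
  have := s2_sq
  simp [gam]; nlinarith

lemma lam_bounds : 707 / 1000 ≤ lam ∧ lam ≤ 708 / 1000 := by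
  unfold lam; constructor <;> linarith [s2_bounds.1, s2_bounds.2]

lemma norm_l1 : ‖(2 * lam + I : ℂ)‖ ≤ 2 := by
  apply abs_le_of_sq_le_sq' _ (by norm_num) |>.2
  rw [Complex.sq_norm, Complex.normSq_apply]
  have := s2_sq
  simp [lam]; nlinarith

lemma norm_l3 : ‖(2 * lam + 3 * I : ℂ)‖ ≤ 4 := by
  apply abs_le_of_sq_le_sq' _ (by norm_num) |>.2
  rw [Complex.sq_norm, Complex.normSq_apply]
  have := s2_sq
  simp [lam]; nlinarith

/-- The pointwise error bounds. -/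
lemma errs {μ : Fin 3 → ℝ} {z p w1 p1 a c w g N M N' M' : ℂ} {δ s : ℝ}
    (hμ : ∀ k, |μ k - 1 / 3| ≤ δ) (hδ : δ ≤ 1 / 1000000000) (hz : |‖z‖ - 1| ≤ δ)
    (hp : ‖p - I * z‖ ≤ δ) (hw : ‖w1‖ = s) (hs : s ≤ 1 / 1000000) (hp1 : ‖p1 - lam * w1‖ ≤ δ * s)
    (hN : N = w1 * (starRingEnd ℂ) w1) (hM : M = z ^ 3 * (starRingEnd ℂ) w1 ^ 2)
    (hN' : N' = p1 * (starRingEnd ℂ) w1 + w1 * (starRingEnd ℂ) p1)
    (hM' : M' = 3 * z ^ 2 * p * (starRingEnd ℂ) w1 ^ 2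
      + z ^ 3 * (2 * (starRingEnd ℂ) w1 * (starRingEnd ℂ) p1))
    (ha : ‖a‖ ≤ 360 * (1000 * δ * s + s ^ 3)) (hc : ‖c‖ ≤ 315 * (1000 * δ * s + s ^ 3))
    (hw' : ‖w‖ ≤ 68 * (100000 * δ * s ^ 2 + s ^ 3)) :
    (∀ k, 1 / 100 ≤ ‖cmb (z * (1 + (a + eta * N))) (w1 + (w + gam * M)) k‖) ∧
    ‖(c + eta * (2 * lam + I) * N) - (a + eta * N) * (p / z) - eta * N' - (c - I * a)‖
      ≤ 10 * (δ * s) + s ^ 3 / 100 ∧
    ‖(zc (FF μ (cmb (z * (1 + (a + eta * N))) (w1 + (w + gam * M)))) + ff z) / z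
      - (c + eta * (2 * lam + I) * N) * (p / z) - eta * (2 * lam + I) * N' - (-LL a - I * c)‖
      ≤ 100 * (δ * s) + 44 * s ^ 3 ∧
    ‖(g + gam * (2 * lam + 3 * I) * M) - gam * M' - g‖ ≤ 1000 * (δ * s ^ 2) ∧
    ‖wc (FF μ (cmb (z * (1 + (a + eta * N))) (w1 + (w + gam * M)))) - lin μ z w1
      - gam * (2 * lam + 3 * I) * M' - w / 2‖ ≤ 2600000 * (δ * s ^ 2) + 44 * s ^ 3 := by
  have hs0 : 0 ≤ s := hw ▸ norm_nonneg w1
  have hδ0 : 0 ≤ δ := le_trans (abs_nonneg _) hz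
  have hz1 := abs_le.mp hz
  have hr : 0 < ‖z‖ := by linarith
  have hz0 : z ≠ 0 := norm_pos_iff.mp hr
  have nz : ‖z‖ ≤ 1001 / 1000 := by linarith
  have nP : ‖I - p / z‖ ≤ 2 * δ := by
    have e : I - p / z = -(p - I * z) / z := by field_simp; ring
    rw [e, norm_div, norm_neg, div_le_iff₀ hr]
    nlinarith
  have ncw : ‖(starRingEnd ℂ) w1‖ = s := by rw [Complex.norm_conj, hw]
  have nN : ‖N‖ ≤ s ^ 2 := by rw [hN, norm_mul, ncw, hw, pow_two]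
  have nM : ‖M‖ ≤ (1001 / 1000) ^ 3 * s ^ 2 := by
    rw [hM, norm_mul, norm_pow, norm_pow, ncw]; gcongr
  have ncp : ‖(starRingEnd ℂ) (p1 - lam * w1)‖ ≤ δ * s := by rwa [Complex.norm_conj]
  have nN' : ‖N' - 2 * lam * N‖ ≤ δ * s * s + s * (δ * s) := by
    have e : N' - 2 * lam * N = (p1 - lam * w1) * (starRingEnd ℂ) w1
        + w1 * (starRingEnd ℂ) (p1 - lam * w1) := by
      rw [hN, hN', map_sub, map_mul, conj_ofReal]; ring
    rw [e]
    exact norm_add_le_of_le (norm_mul_le_of_le hp1 ncw.le) (norm_mul_le_of_le hw.le ncp)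
  have nM' : ‖M' - (2 * lam + 3 * I) * M‖ ≤ 3 * ((1001 / 1000) ^ 2 * (δ * s ^ 2))
      + 2 * ((1001 / 1000) ^ 3 * (s * (δ * s))) := by
    have e : M' - (2 * lam + 3 * I) * M = 3 * (z ^ 2 * ((p - I * z) * (starRingEnd ℂ) w1 ^ 2))
        + 2 * (z ^ 3 * ((starRingEnd ℂ) w1 * (starRingEnd ℂ) (p1 - lam * w1))) := by
      rw [hM, hM', map_sub, map_mul, conj_ofReal]; ring
    rw [e]
    refine norm_add_le_of_le (norm_mul_le_of_le (by simp) (norm_mul_le_of_le ?_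
      (norm_mul_le_of_le hp ?_))) (norm_mul_le_of_le (by simp) (norm_mul_le_of_le ?_
      (norm_mul_le_of_le ncw.le ncp)))
    · rw [norm_pow]; gcongr
    · rw [norm_pow, ncw]
    · rw [norm_pow]; gcongr
  have nA := norm_add_le_of_le ha (norm_mul_le_of_le norm_eta nN)
  have nV := norm_add_le_of_le hw' (norm_mul_le_of_le norm_gam' nM)
  have ne1 := norm_mul_le_of_le norm_eta norm_l1
  have ng3 := norm_mul_le_of_le norm_gam' norm_l3
  have nC := norm_add_le_of_le hc (norm_mul_le_of_le ne1 nN)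
  have hs20 : 0 ≤ s ^ 2 := by positivity
  have hs30 : 0 ≤ s ^ 3 := by positivity
  have hδs : 0 ≤ δ * s := by positivity
  have hδs2 : 0 ≤ δ * s ^ 2 := by positivity
  have b1 : s ^ 2 ≤ s / 1000000 := by linarith [mul_le_mul_of_nonneg_left hs hs0]
  have b2 : s ^ 3 ≤ s ^ 2 / 1000000 := by linarith [mul_le_mul_of_nonneg_left hs hs20]
  have b3 : s ^ 4 ≤ s ^ 3 / 1000000 := by linarith [mul_le_mul_of_nonneg_left hs hs30]
  have b4 : δ * s ≤ s / 1000000000 := by linarith [mul_le_mul_of_nonneg_left hδ hs0]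
  have b5 : δ * s ^ 2 ≤ s ^ 2 / 1000000000 := by linarith [mul_le_mul_of_nonneg_left hδ hs20]
  have b6 : δ * s ^ 3 ≤ s ^ 3 / 1000000000 := by linarith [mul_le_mul_of_nonneg_left hδ hs30]
  have b7 : δ * s ^ 2 ≤ δ * s / 1000000 := by linarith [mul_le_mul_of_nonneg_left hs hδs]
  have b8 : δ ^ 2 * s ≤ δ * s / 1000000000 := by linarith [mul_le_mul_of_nonneg_left hδ hδs]
  obtain ⟨f1, f2, f3⟩ := force hμ (by linarith) hz hw hs nA nV (by linarith) (by linarith)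
  rw [← hN] at f2
  rw [← hM] at f3
  have hNc : (starRingEnd ℂ) N = N := by rw [hN, map_mul, Complex.conj_conj, mul_comm]
  refine ⟨f1, ?_, ?_, ?_, ?_⟩
  · have e : (c + eta * (2 * lam + I) * N) - (a + eta * N) * (p / z) - eta * N' - (c - I * a)
        = (I - p / z) * (a + eta * N) - eta * (N' - 2 * lam * N) := by ring
    rw [e]
    refine le_trans (norm_sub_le_of_le (norm_mul_le_of_le nP nA)
      (norm_mul_le_of_le norm_eta nN')) ?_
    linarith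
  · have e : (zc (FF μ (cmb (z * (1 + (a + eta * N))) (w1 + (w + gam * M)))) + ff z) / z
        - (c + eta * (2 * lam + I) * N) * (p / z) - eta * (2 * lam + I) * N' - (-LL a - I * c)
        = ((zc (FF μ (cmb (z * (1 + (a + eta * N))) (w1 + (w + gam * M)))) + ff z) / z
          + LL (a + eta * N) + 3 / 4 * N) + (I - p / z) * (c + eta * (2 * lam + I) * N)
          - eta * (2 * lam + I) * (N' - 2 * lam * N) := by
      simp only [LL, map_add, map_mul, hNc]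
      linear_combination (-N) * eta_rel
    rw [e]
    refine le_trans (norm_sub_le_of_le (norm_add_le_of_le f2 (norm_mul_le_of_le nP nC))
      (norm_mul_le_of_le ne1 nN')) ?_
    linarith
  · have e : (g + gam * (2 * lam + 3 * I) * M) - gam * M' - g
        = -(gam * (M' - (2 * lam + 3 * I) * M)) := by ring
    rw [e, norm_neg]
    refine le_trans (norm_mul_le_of_le norm_gam' nM') ?_
    linarith
  · have e : wc (FF μ (cmb (z * (1 + (a + eta * N))) (w1 + (w + gam * M)))) - lin μ z w1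
        - gam * (2 * lam + 3 * I) * M' - w / 2
        = (wc (FF μ (cmb (z * (1 + (a + eta * N))) (w1 + (w + gam * M)))) - lin μ z w1
          - (w + gam * M) / 2 + 15 / 8 * M)
          - gam * (2 * lam + 3 * I) * (M' - (2 * lam + 3 * I) * M) := by
      linear_combination (-M) * gam_rel
    rw [e]
    refine le_trans (norm_sub_le_of_le f3 (norm_mul_le_of_le ng3 nM')) ?_
    linarith

lemma hd_zc {d : ℝ → Fin 3 → ℂ} {d' : Fin 3 → ℂ} {t : ℝ} (h : HasDerivAt d d' t) :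
    HasDerivAt (fun s => zc (d s)) (zc d') t := by
  have hk := hasDerivAt_pi.mp h
  exact (((hk 0).add ((hk 1).const_mul _)).add ((hk 2).const_mul _)).div_const 3

lemma hd_wc {d : ℝ → Fin 3 → ℂ} {d' : Fin 3 → ℂ} {t : ℝ} (h : HasDerivAt d d' t) :
    HasDerivAt (fun s => wc (d s)) (wc d') t := by
  have hk := hasDerivAt_pi.mp h
  exact (((hk 0).add ((hk 1).const_mul _)).add ((hk 2).const_mul _)).div_const 3

noncomputable def ea (z w1 : ℂ) (d : Fin 3 → ℂ) : ℂ :=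
  (zc d - z) / z - eta * (w1 * (starRingEnd ℂ) w1)
noncomputable def ec (z p w1 : ℂ) (v : Fin 3 → ℂ) : ℂ :=
  (zc v - p) / z - eta * (2 * lam + I) * (w1 * (starRingEnd ℂ) w1)
noncomputable def ew (z w1 : ℂ) (d : Fin 3 → ℂ) : ℂ :=
  wc d - w1 - gam * (z ^ 3 * (starRingEnd ℂ) w1 ^ 2)
noncomputable def eg (z w1 p1 : ℂ) (v : Fin 3 → ℂ) : ℂ :=
  wc v - p1 - gam * (2 * lam + 3 * I) * (z ^ 3 * (starRingEnd ℂ) w1 ^ 2)

theorem pert_fence {μ : Fin 3 → ℝ} {δ T : ℝ} {z p w1 p1 : ℝ → ℂ} {d v : ℝ → Fin 3 → ℂ}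
    (hμ : ∀ k, |μ k - 1 / 3| ≤ δ) (hδ : δ ≤ 1 / 1000000000)
    (hz : ∀ t, HasDerivAt z (p t) t) (hp : ∀ t, HasDerivAt p (-ff (z t)) t)
    (hr : ∀ t, |‖z t‖ - 1| ≤ δ) (hi : ∀ t, ‖p t - I * z t‖ ≤ δ)
    (hw : ∀ t ∈ Icc 0 T, HasDerivAt w1 (p1 t) t)
    (hp1 : ∀ t ∈ Icc 0 T, HasDerivAt p1 (lin μ (z t) (w1 t)) t)
    (hc : ∀ t ∈ Icc 0 T, ‖p1 t - lam * w1 t‖ ≤ δ * ‖w1 t‖)
    (hs0 : ∀ t ∈ Icc 0 T, 0 < ‖w1 t‖) (hs1 : ∀ t ∈ Icc 0 T, ‖w1 t‖ ≤ 1 / 1000000)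
    (hs : Sol μ d v) (hsum : ∀ t, d t 0 + d t 1 + d t 2 = 0)
    (i1 : ‖ea (z 0) (w1 0) (d 0)‖ ≤ ‖w1 0‖ ^ 3) (i2 : ‖ec (z 0) (p 0) (w1 0) (v 0)‖ ≤ ‖w1 0‖ ^ 3)
    (i3 : ‖ew (z 0) (w1 0) (d 0)‖ ≤ ‖w1 0‖ ^ 3) (i4 : ‖eg (z 0) (w1 0) (p1 0) (v 0)‖ ≤ ‖w1 0‖ ^ 3) :
    ∀ t ∈ Icc 0 T, (∀ k, 1 / 100 ≤ ‖d t k‖) ∧
      ‖ea (z t) (w1 t) (d t)‖ ≤ 360 * (1000 * δ * ‖w1 t‖ + ‖w1 t‖ ^ 3) ∧
      ‖ec (z t) (p t) (w1 t) (v t)‖ ≤ 315 * (1000 * δ * ‖w1 t‖ + ‖w1 t‖ ^ 3) ∧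
      ‖ew (z t) (w1 t) (d t)‖ ≤ 68 * (100000 * δ * ‖w1 t‖ ^ 2 + ‖w1 t‖ ^ 3) ∧
      ‖eg (z t) (w1 t) (p1 t) (v t)‖ ≤ 45 * (100000 * δ * ‖w1 t‖ ^ 2 + ‖w1 t‖ ^ 3) := by
  have hδ0 : 0 ≤ δ := le_trans (abs_nonneg _) (hr 0)
  have hz0 : ∀ t, z t ≠ 0 := fun t => norm_pos_iff.mp (by linarith [(abs_le.mp (hr t)).1])
  obtain ⟨l1, l2⟩ := lam_bounds
  have nl : ∀ x : ℂ, ‖(lam : ℂ) * x‖ = lam * ‖x‖ := fun x => by
    rw [norm_mul, Complex.norm_real, Real.norm_of_nonneg lam_pos.le]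
  obtain ⟨a, ha⟩ : ∃ a : ℝ → ℂ, a = fun t => ea (z t) (w1 t) (d t) := ⟨_, rfl⟩
  obtain ⟨c, hc'⟩ : ∃ c : ℝ → ℂ, c = fun t => ec (z t) (p t) (w1 t) (v t) := ⟨_, rfl⟩
  obtain ⟨w, hw'⟩ : ∃ w : ℝ → ℂ, w = fun t => ew (z t) (w1 t) (d t) := ⟨_, rfl⟩
  obtain ⟨g, hg⟩ : ∃ g : ℝ → ℂ, g = fun t => eg (z t) (w1 t) (p1 t) (v t) := ⟨_, rfl⟩
  obtain ⟨N, hN⟩ : ∃ N : ℝ → ℂ, N = fun t => w1 t * (starRingEnd ℂ) (w1 t) := ⟨_, rfl⟩
  obtain ⟨M, hM⟩ : ∃ M : ℝ → ℂ, M = fun t => z t ^ 3 * (starRingEnd ℂ) (w1 t) ^ 2 := ⟨_, rfl⟩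
  obtain ⟨N', hN'⟩ : ∃ N' : ℝ → ℂ, N' = fun t => p1 t * (starRingEnd ℂ) (w1 t)
    + w1 t * (starRingEnd ℂ) (p1 t) := ⟨_, rfl⟩
  obtain ⟨M', hM'⟩ : ∃ M' : ℝ → ℂ, M' = fun t => 3 * z t ^ 2 * p t * (starRingEnd ℂ) (w1 t) ^ 2
      + z t ^ 3 * (2 * (starRingEnd ℂ) (w1 t) * (starRingEnd ℂ) (p1 t)) := ⟨_, rfl⟩
  have dN : ∀ t ∈ Icc 0 T, HasDerivAt N (N' t) t := fun t ht => by
    rw [hN, hN']; exact (hw t ht).mul (hw t ht).star
  have dM : ∀ t ∈ Icc 0 T, HasDerivAt M (M' t) t := fun t ht => by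
    rw [hM, hM']
    exact hd_congr (((hz t).pow 3).mul ((hw t ht).star.pow 2)) (fun _ => rfl) (by simp)
  have eA : ∀ t, (zc (d t) - z t) / z t = a t + eta * N t := fun t => by
    rw [ha, hN]; simp [ea]
  have eC : ∀ t, (zc (v t) - p t) / z t = c t + eta * (2 * lam + I) * N t := fun t => by
    rw [hc', hN]; simp [ec]
  have eD : ∀ t, d t = cmb (z t * (1 + (a t + eta * N t))) (w1 t + (w t + gam * M t)) := fun t => by
    have h1 : z t * (1 + (a t + eta * N t)) = zc (d t) := by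
      rw [← eA]; have := hz0 t; field_simp; ring
    have h2 : w1 t + (w t + gam * M t) = wc (d t) := by rw [hw', hM]; simp [ew]
    rw [h1, h2, cmb_zc_wc (hsum t)]
  let a' : ℝ → ℂ := fun t => (c t + eta * (2 * lam + I) * N t) - (a t + eta * N t) * (p t / z t)
    - eta * N' t
  let c' : ℝ → ℂ := fun t => (zc (GG μ (d t)) + ff (z t)) / z t
    - (c t + eta * (2 * lam + I) * N t) * (p t / z t) - eta * (2 * lam + I) * N' t
  let w' : ℝ → ℂ := fun t => (g t + gam * (2 * lam + 3 * I) * M t) - gam * M' t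
  let g' : ℝ → ℂ := fun t => wc (GG μ (d t)) - lin μ (z t) (w1 t) - gam * (2 * lam + 3 * I) * M' t
  have da : ∀ t ∈ Icc 0 T, HasDerivAt a (a' t) t := fun t ht => by
    have h := (((hd_zc (hs.hd t)).sub (hz t)).div (hz t) (hz0 t)).sub ((dN t ht).const_mul eta)
    refine hd_congr h (fun s => by rw [ha, hN]; rfl) ?_
    simp only [a', ← eA, ← eC, Pi.sub_apply]
    have := hz0 t
    field_simp
  have dc : ∀ t ∈ Icc 0 T, HasDerivAt c (c' t) t := fun t ht => by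
    have h := (((hd_zc (hs.hv t)).sub (hp t)).div (hz t) (hz0 t)).sub
      ((dN t ht).const_mul (eta * (2 * lam + I)))
    refine hd_congr h (fun s => by rw [hc', hN]; rfl) ?_
    simp only [c', ← eC, Pi.sub_apply]
    have := hz0 t
    field_simp
    ring
  have dw : ∀ t ∈ Icc 0 T, HasDerivAt w (w' t) t := fun t ht => by
    have h := ((hd_wc (hs.hd t)).sub (hw t ht)).sub ((dM t ht).const_mul gam)
    refine hd_congr h (fun s => by rw [hw', hM]; rfl) ?_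
    simp only [w', hg, hM, eg]
    ring
  have dg : ∀ t ∈ Icc 0 T, HasDerivAt g (g' t) t := fun t ht => by
    have h := ((hd_wc (hs.hv t)).sub (hp1 t ht)).sub
      ((dM t ht).const_mul (gam * (2 * lam + 3 * I)))
    exact hd_congr h (fun s => by rw [hg, hM]; rfl) rfl
  let s' : ℝ → ℝ := fun t => dot (w1 t) (p1 t) / ‖w1 t‖
  have ds : ∀ t ∈ Icc 0 T, HasDerivAt (fun t => ‖w1 t‖) (s' t) t := fun t ht =>
    hd_norm (hw t ht) (hs0 t ht)
  have hs' : ∀ t ∈ Icc 0 T, 7 / 10 * ‖w1 t‖ ≤ s' t := fun t ht => by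
    have e1 : dot (w1 t) (p1 t) = lam * ‖w1 t‖ ^ 2 + dot (w1 t) (p1 t - lam * w1 t) := by
      rw [← dot_self]; simp [dot]; ring
    have e2 := (abs_le.mp (abs_dot_le (w1 t) (p1 t - lam * w1 t))).1
    have e3 := mul_le_mul_of_nonneg_left (hc t ht) (norm_nonneg (w1 t))
    have e4 := mul_le_mul_of_nonneg_left hδ (sq_nonneg ‖w1 t‖)
    have e5 := mul_le_mul_of_nonneg_left l1 (sq_nonneg ‖w1 t‖)
    have e6 := sq_nonneg ‖w1 t‖
    simp only [s']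
    rw [le_div_iff₀ (hs0 t ht)]
    linarith
  have conv : ∀ t, ‖e1 t * Om (a t) (c t)‖ ≤ 45 * (1000 * δ * ‖w1 t‖ + ‖w1 t‖ ^ 3) →
      ‖Pm (a t) (c t)‖ ≤ 45 * (1000 * δ * ‖w1 t‖ + ‖w1 t‖ ^ 3) →
      ‖lam * w t‖ ≤ 45 * (100000 * δ * ‖w1 t‖ ^ 2 + ‖w1 t‖ ^ 3) →
      ‖a t‖ ≤ 360 * (1000 * δ * ‖w1 t‖ + ‖w1 t‖ ^ 3) ∧
      ‖c t‖ ≤ 315 * (1000 * δ * ‖w1 t‖ + ‖w1 t‖ ^ 3) ∧
      ‖w t‖ ≤ 68 * (100000 * δ * ‖w1 t‖ ^ 2 + ‖w1 t‖ ^ 3) ∧
      ‖w t‖ / 2 ≤ 32 * (100000 * δ * ‖w1 t‖ ^ 2 + ‖w1 t‖ ^ 3) := by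
    intro t h0 h1 h2
    rw [norm_mul, norm_e1, one_mul] at h0
    rw [nl] at h2
    obtain ⟨k1, k2⟩ := inv_Om_Pm h0 h1
    have k3 := mul_le_mul_of_nonneg_right l1 (norm_nonneg (w t))
    have k4 : 0 ≤ 100000 * δ * ‖w1 t‖ ^ 2 + ‖w1 t‖ ^ 3 := by positivity
    exact ⟨by linarith, by linarith, by linarith, by linarith⟩
  have key := fenceN (ι := Fin 4) (a := 0) (b := T)
    (f := ![fun t => e1 t * Om (a t) (c t), fun t => Pm (a t) (c t), fun t => lam * w t, g])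
    (f' := ![fun t => e1 t * (Om (a' t) (c' t) + I * Om (a t) (c t)), fun t => Pm (a' t) (c' t),
      fun t => lam * w' t, g'])
    (B := ![fun t => 45 * (1000 * δ * ‖w1 t‖ + ‖w1 t‖ ^ 3),
      fun t => 45 * (1000 * δ * ‖w1 t‖ + ‖w1 t‖ ^ 3),
      fun t => 45 * (100000 * δ * ‖w1 t‖ ^ 2 + ‖w1 t‖ ^ 3),
      fun t => 45 * (100000 * δ * ‖w1 t‖ ^ 2 + ‖w1 t‖ ^ 3)])
    (B' := ![fun t => 45 * (1000 * δ * s' t + 3 * ‖w1 t‖ ^ 2 * s' t),
      fun t => 45 * (1000 * δ * s' t + 3 * ‖w1 t‖ ^ 2 * s' t),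
      fun t => 45 * (100000 * δ * (2 * ‖w1 t‖ * s' t) + 3 * ‖w1 t‖ ^ 2 * s' t),
      fun t => 45 * (100000 * δ * (2 * ‖w1 t‖ * s' t) + 3 * ‖w1 t‖ ^ 2 * s' t)])
    (by
      intro i t ht
      fin_cases i
      · exact hd_congr ((hd_e1 t).mul (hd_Om (da t ht) (dc t ht))) (fun _ => rfl)
          (by simp only [Fin.zero_eta, Matrix.cons_val_zero]; ring)
      · exact hd_Pm (da t ht) (dc t ht)
      · exact (dw t ht).const_mul _
      · exact dg t ht)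
    (by
      intro i t ht
      have h1 : HasDerivAt (fun t => 45 * (1000 * δ * ‖w1 t‖ + ‖w1 t‖ ^ 3))
          (45 * (1000 * δ * s' t + 3 * ‖w1 t‖ ^ 2 * s' t)) t :=
        hd_congr ((((ds t ht).const_mul (1000 * δ)).add ((ds t ht).pow 3)).const_mul 45)
          (fun _ => rfl) (by simp)
      have h2 : HasDerivAt (fun t => 45 * (100000 * δ * ‖w1 t‖ ^ 2 + ‖w1 t‖ ^ 3))
          (45 * (100000 * δ * (2 * ‖w1 t‖ * s' t) + 3 * ‖w1 t‖ ^ 2 * s' t)) t :=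
        hd_congr (((((ds t ht).pow 2).const_mul (100000 * δ)).add ((ds t ht).pow 3)).const_mul 45)
          (fun _ => rfl) (by simp)
      fin_cases i
      exacts [h1, h1, h2, h2])
    (by
      intro i t ht
      have := hs0 t ht
      fin_cases i <;> simp <;> positivity)
    (by
      intro i
      have j1 : ‖a 0‖ ≤ ‖w1 0‖ ^ 3 := by rw [ha]; exact i1
      have j2 : ‖c 0‖ ≤ ‖w1 0‖ ^ 3 := by rw [hc']; exact i2
      have j3 : ‖w 0‖ ≤ ‖w1 0‖ ^ 3 := by rw [hw']; exact i3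
      have j4 : ‖g 0‖ ≤ ‖w1 0‖ ^ 3 := by rw [hg]; exact i4
      have j5 : 0 ≤ δ * ‖w1 0‖ := by positivity
      have j6 : 0 ≤ δ * ‖w1 0‖ ^ 2 := by positivity
      have j7 : 0 ≤ ‖w1 0‖ ^ 3 := by positivity
      fin_cases i
      · show ‖e1 0 * Om (a 0) (c 0)‖ ≤ 45 * (1000 * δ * ‖w1 0‖ + ‖w1 0‖ ^ 3)
        rw [norm_mul, norm_e1, one_mul]
        linarith [norm_Om (a 0) (c 0)]
      · show ‖Pm (a 0) (c 0)‖ ≤ 45 * (1000 * δ * ‖w1 0‖ + ‖w1 0‖ ^ 3)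
        linarith [norm_Pm (a 0) (c 0)]
      · show ‖lam * w 0‖ ≤ 45 * (100000 * δ * ‖w1 0‖ ^ 2 + ‖w1 0‖ ^ 3)
        rw [nl]
        linarith [mul_le_mul_of_nonneg_right l2 (norm_nonneg (w 0))]
      · show ‖g 0‖ ≤ 45 * (100000 * δ * ‖w1 0‖ ^ 2 + ‖w1 0‖ ^ 3)
        linarith)
    (by
      intro t ht h i
      have h1 : ‖Pm (a t) (c t)‖ ≤ 45 * (1000 * δ * ‖w1 t‖ + ‖w1 t‖ ^ 3) := h 1
      have h3 : ‖g t‖ ≤ 45 * (100000 * δ * ‖w1 t‖ ^ 2 + ‖w1 t‖ ^ 3) := h 3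
      obtain ⟨k1, k2, k3, k4⟩ := conv t (h 0) h1 (h 2)
      obtain ⟨q0, q1, q2, q3, q4⟩ := errs (g := g t) hμ hδ (hr t) (hi t) rfl (hs1 t ht) (hc t ht)
        (congrFun hN t) (congrFun hM t) (congrFun hN' t) (congrFun hM' t) k1 k2 k3
      rw [← eD] at q0 q2 q4
      have hG : GG μ (d t) = FF μ (d t) := by
        funext k; simp only [GG, FF, fc_eq (q0 _)]
      rw [← hG] at q2 q4
      have s0 := hs0 t ht
      have s1 := hs' t ht
      have s2 := mul_le_mul_of_nonneg_left s1 hδ0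
      have s3 := mul_le_mul_of_nonneg_left s1 (sq_nonneg ‖w1 t‖)
      have s4 := mul_le_mul_of_nonneg_left s1 (mul_nonneg hδ0 s0.le)
      have s5 : 0 ≤ δ * ‖w1 t‖ := by positivity
      have s6 : 0 ≤ δ * ‖w1 t‖ ^ 2 := by positivity
      have s7 : 0 < ‖w1 t‖ ^ 3 := by positivity
      fin_cases i
      · show ‖e1 t * (Om (a' t) (c' t) + I * Om (a t) (c t))‖
          < 45 * (1000 * δ * s' t + 3 * ‖w1 t‖ ^ 2 * s' t)
        rw [norm_mul, norm_e1, one_mul, Om_flow]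
        refine lt_of_le_of_lt (norm_Om _ _) ?_
        simp only [a', c']
        linarith
      · show ‖Pm (a' t) (c' t)‖ < 45 * (1000 * δ * s' t + 3 * ‖w1 t‖ ^ 2 * s' t)
        have u1 := Pm_flow (a t) (c t) (a' t) (c' t)
        have u2 := norm_Pm (a' t - (c t - I * a t)) (c' t - (-LL (a t) - I * c t))
        simp only [a', c'] at u1 u2 ⊢
        linarith
      · show ‖lam * w' t‖ < 45 * (100000 * δ * (2 * ‖w1 t‖ * s' t) + 3 * ‖w1 t‖ ^ 2 * s' t)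
        rw [nl]
        have u1 := norm_add_le (w' t - g t) (g t)
        rw [sub_add_cancel] at u1
        have u2 := mul_le_mul_of_nonneg_right l2 (norm_nonneg (w' t))
        have u3 : ‖w' t - g t‖ ≤ 1000 * (δ * ‖w1 t‖ ^ 2) := q3
        linarith
      · show ‖g' t‖ < 45 * (100000 * δ * (2 * ‖w1 t‖ * s' t) + 3 * ‖w1 t‖ ^ 2 * s' t)
        have u1 := norm_add_le (g' t - w t / 2) (w t / 2)
        rw [sub_add_cancel, norm_div, Complex.norm_ofNat] at u1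
        have u3 : ‖g' t - w t / 2‖ ≤ 2600000 * (δ * ‖w1 t‖ ^ 2) + 44 * ‖w1 t‖ ^ 3 := q4
        linarith)
  intro t ht
  obtain ⟨k1, k2, k3, -⟩ := conv t (key t ht 0) (key t ht 1) (key t ht 2)
  have k4 : ‖g t‖ ≤ 45 * (100000 * δ * ‖w1 t‖ ^ 2 + ‖w1 t‖ ^ 3) := key t ht 3
  obtain ⟨q0, -⟩ := errs (g := g t) hμ hδ (hr t) (hi t) rfl (hs1 t ht) (hc t ht)
    (congrFun hN t) (congrFun hM t) (congrFun hN' t) (congrFun hM' t) k1 k2 k3
  rw [← eD] at q0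
  rw [ha] at k1; rw [hc'] at k2; rw [hw'] at k3; rw [hg] at k4
  exact ⟨q0, k1, k2, k3, k4⟩

end Pool.Agent.Lib.MP_6e7c44_mp
end

-- part Pool.Agent.Lib.MP_6e7c44_mp.Homog
section

/-!
A nearly circular equilateral solution with nearly equal masses is a limit of open sets of
escaping orbits: the normalised case.
-/

set_option autoImplicit false

namespace Pool.Agent.Lib.MP_6e7c44_mp

open Set Complex Filter Topology

lemma lin_comb (μ : Fin 3 → ℝ) (z x y : ℂ) (α β : ℝ) :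
    lin μ z (α • x + β • y) = α • lin μ z x + β • lin μ z y := by
  simp only [lin, Complex.real_smul, add_div, mul_div_assoc, map_add, map_mul, conj_ofReal]
  ring

lemma lin_err {μ : Fin 3 → ℝ} {ε : ℝ} {z : ℂ} (hμ : ∀ k, |μ k - 1 / 3| ≤ ε)
    (hε : ε ≤ 1 / 1000000) (hz : |‖z‖ - 1| ≤ ε) (w : ℂ) : ‖lin μ z w - w / 2‖ ≤ 7 * ε * ‖w‖ := by
  have hε0 : 0 ≤ ε := le_trans (abs_nonneg _) hz
  have hr : 0 < ‖z‖ := by linarith [(abs_le.mp hz).1]
  have i3 := inv_pow_close hz hε (n := 3) (by norm_num)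
  push_cast at i3
  have e : lin μ z w - w / 2 = (((‖z‖ ^ 3)⁻¹ - 1 : ℝ) : ℂ) * (w / 2)
      - 9 / 2 * (wc (fun k => μ k) * ((((‖z‖ ^ 3)⁻¹ : ℝ) : ℂ) * (z * (starRingEnd ℂ) (w / z)))) := by
    simp only [lin]; push_cast; ring
  have t1 : ‖(((‖z‖ ^ 3)⁻¹ - 1 : ℝ) : ℂ) * (w / 2)‖ ≤ 4 * ε * (‖w‖ / 2) :=
    norm_mul_le_of_le (by rw [Complex.norm_real, Real.norm_eq_abs]; linarith)
      (by rw [norm_div, Complex.norm_ofNat])
  have t2 : ‖(((‖z‖ ^ 3)⁻¹ : ℝ) : ℂ)‖ ≤ 1001 / 1000 := by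
    rw [Complex.norm_real, Real.norm_eq_abs, abs_le]
    constructor <;> linarith [(abs_le.mp i3).1, (abs_le.mp i3).2]
  have t3 : ‖z * (starRingEnd ℂ) (w / z)‖ ≤ ‖w‖ := by
    rw [norm_mul, Complex.norm_conj, norm_div, mul_div_cancel₀ _ hr.ne']
  have t4 := norm_mul_le_of_le (show ‖(9 / 2 : ℂ)‖ ≤ 9 / 2 by simp)
    (norm_mul_le_of_le (norm_mass hμ).2 (norm_mul_le_of_le t2 t3))
  rw [e]
  refine le_trans (norm_sub_le_of_le t1 t4) ?_
  have : 0 ≤ ε * ‖w‖ := by positivity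
  linarith

lemma lin_sol {μ : Fin 3 → ℝ} {ε T : ℝ} {z : ℝ → ℂ} (hε0 : 0 < ε) (hμ : ∀ k, |μ k - 1 / 3| ≤ ε)
    (hε : ε ≤ 1 / 1000000) (hzc : Continuous z) (hz : ∀ t, |‖z t‖ - 1| ≤ ε) (hT : 0 ≤ T) {y : ℂ}
    (hy : y ≠ 0) :
    ∃ w p : ℝ → ℂ, (∀ t ∈ Icc 0 T, HasDerivAt w (p t) t) ∧
      (∀ t ∈ Icc 0 T, HasDerivAt p (lin μ (z t) (w t)) t) ∧
      (∀ t ∈ Icc 0 T, ‖p t - lam * w t‖ ≤ 7 * ε * ‖w t‖) ∧ (∀ t ∈ Icc 0 T, 0 < ‖w t‖) ∧
      (∀ t ∈ Icc 0 T, ‖w t‖ ≤ ‖y‖) ∧ ‖w 0‖ * (T / 2) ≤ ‖y‖ ∧ w T = y ∧ p 0 = lam * w 0 := by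
  have hz0 : ∀ t, z t ≠ 0 := fun t => norm_pos_iff.mp (by linarith [(abs_le.mp (hz t)).1])
  have ex : ∀ x0 : ℂ × ℂ, ∃ x : ℝ → ℂ × ℂ, x 0 = x0 ∧
      ∀ t ∈ Icc 0 T, HasDerivAt x ((x t).2, lin μ (z t) (x t).1) t := fun x0 =>
    exists_linear (fun t x => (x.2, lin μ (z t) x.1)) (K := 1) zero_le_one
      (fun t x y => by
        rw [one_mul, Prod.norm_def]
        refine max_le (norm_snd_le (x - y)) ?_
        have e : lin μ (z t) x.1 - lin μ (z t) y.1 = lin μ (z t) (x.1 - y.1) := by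
          have := lin_comb μ (z t) x.1 y.1 1 (-1)
          simp only [one_smul, neg_smul, ← sub_eq_add_neg] at this
          exact this.symm
        show ‖lin μ (z t) x.1 - lin μ (z t) y.1‖ ≤ _
        rw [e]
        have h1 := lin_err hμ hε (hz t) (x.1 - y.1)
        have h2 := norm_add_le (lin μ (z t) (x.1 - y.1) - (x.1 - y.1) / 2) ((x.1 - y.1) / 2)
        rw [sub_add_cancel, norm_div, Complex.norm_ofNat] at h2
        have h3 : ‖x.1 - y.1‖ ≤ ‖x - y‖ := norm_fst_le (x - y)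
        have h4 := mul_le_mul_of_nonneg_right hε (norm_nonneg (x.1 - y.1))
        linarith [norm_nonneg (x.1 - y.1)])
      (fun t => by simp [lin])
      (fun x => by
        refine continuous_const.prodMk ?_
        unfold lin
        refine (Complex.continuous_ofReal.comp ((hzc.norm.pow 3).inv₀ fun t =>
          pow_ne_zero _ (norm_ne_zero_iff.mpr (hz0 t)))).mul (continuous_const.sub
          ((continuous_const.mul hzc).mul ?_))
        exact Complex.continuous_conj.comp (continuous_const.div hzc hz0)) x0 hT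
  obtain ⟨x1, a1, b1⟩ := ex (1, lam)
  obtain ⟨x2, a2, b2⟩ := ex (I, lam * I)
  have hl2 : lam ^ 2 = 1 / 2 := by have := s2_sq; unfold lam; nlinarith
  have sol : ∀ ξ : ℂ, ∃ w p : ℝ → ℂ, (∀ t ∈ Icc 0 T, HasDerivAt w (p t) t) ∧
      (∀ t ∈ Icc 0 T, HasDerivAt p (lin μ (z t) (w t)) t) ∧ w 0 = ξ ∧ p 0 = lam * w 0 ∧
      w T = ξ.re • (x1 T).1 + ξ.im • (x2 T).1 := fun ξ =>
    ⟨fun t => ξ.re • (x1 t).1 + ξ.im • (x2 t).1, fun t => ξ.re • (x1 t).2 + ξ.im • (x2 t).2,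
      fun t ht => ((hd_fst (b1 t ht)).const_smul ξ.re).add ((hd_fst (b2 t ht)).const_smul ξ.im),
      fun t ht => by
        rw [lin_comb]
        exact ((hd_snd (b1 t ht)).const_smul ξ.re).add ((hd_snd (b2 t ht)).const_smul ξ.im),
      by simp [a1, a2], by
        simp only [a1, a2, Complex.real_smul]; ring, rfl⟩
  have cn : ∀ {w p : ℝ → ℂ}, (∀ t ∈ Icc 0 T, HasDerivAt w (p t) t) →
      (∀ t ∈ Icc 0 T, HasDerivAt p (lin μ (z t) (w t)) t) → w 0 ≠ 0 → p 0 = lam * w 0 →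
      ∀ t ∈ Icc 0 T, ‖p t - lam * w t‖ ≤ 7 * ε * ‖w t‖ ∧ ‖w 0‖ ≤ ‖w t‖ := by
    intro w p h1 h2 h3 h4
    exact cone (E := fun t => lin μ (z t) (w t) - w t / 2) hl2 (by linarith [lam_bounds.1])
      (by positivity) (by linarith) h1 (fun t ht => hd_congr (h2 t ht) (fun _ => rfl) (by ring))
      (fun t _ => lin_err hμ hε (hz t) _) h3 h4
  let L : ℂ →ₗ[ℝ] ℂ := Complex.reLm.smulRight (x1 T).1 + Complex.imLm.smulRight (x2 T).1
  have hL : ∀ ξ, L ξ = ξ.re • (x1 T).1 + ξ.im • (x2 T).1 := fun _ => rfl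
  have hinj : Function.Injective L := by
    rw [injective_iff_map_eq_zero]
    intro ξ hξ
    by_contra h
    obtain ⟨w, p, h1, h2, h3, h4, h5⟩ := sol ξ
    have := (cn h1 h2 (by rwa [h3]) h4 T ⟨hT, le_rfl⟩).2
    rw [h5, ← hL, hξ, norm_zero, h3] at this
    exact h (norm_le_zero_iff.mp this)
  obtain ⟨ξ, hξ⟩ := LinearMap.injective_iff_surjective.mp hinj y
  obtain ⟨w, p, h1, h2, h3, h4, h5⟩ := sol ξ
  rw [← hL, hξ] at h5
  have hξ0 : ξ ≠ 0 := fun h => hy (by rw [← hξ, h, map_zero])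
  have hc := cn h1 h2 (by rwa [h3]) h4
  have hw0 : 0 < ‖w 0‖ := by rw [h3]; exact norm_pos_iff.mpr hξ0
  have hpos : ∀ t ∈ Icc 0 T, 0 < ‖w t‖ := fun t ht => lt_of_lt_of_le hw0 (hc t ht).2
  have hs' : ∀ t ∈ Icc 0 T, 1 / 2 * ‖w t‖ ≤ dot (w t) (p t) / ‖w t‖ := fun t ht => by
    have e1 : dot (w t) (p t) = lam * ‖w t‖ ^ 2 + dot (w t) (p t - lam * w t) := by
      rw [← dot_self]; simp [dot]; ring
    have e2 := (abs_le.mp (abs_dot_le (w t) (p t - lam * w t))).1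
    have e3 := mul_le_mul_of_nonneg_left (hc t ht).1 (norm_nonneg (w t))
    have e4 := mul_le_mul_of_nonneg_left hε (sq_nonneg ‖w t‖)
    have e5 := mul_le_mul_of_nonneg_left lam_bounds.1 (sq_nonneg ‖w t‖)
    have e6 := sq_nonneg ‖w t‖
    rw [le_div_iff₀ (hpos t ht)]
    linarith
  refine ⟨w, p, h1, h2, fun t ht => (hc t ht).1, hpos, fun t ht => ?_, ?_, h5, h4⟩
  · rw [← h5]
    have sub : Icc t T ⊆ Icc 0 T := Icc_subset_Icc ht.1 le_rfl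
    exact mono_of_deriv (F := fun t => ‖w t‖) ht.2
      (fun s hs => hd_norm (h1 s (sub hs)) (hpos s (sub hs)))
      (fun s hs => le_trans (by positivity) (hs' s (sub hs)))
  · have := mono_of_deriv (F := fun t => ‖w t‖ - ‖w 0‖ * (t / 2)) hT
      (fun s hs => (hd_norm (h1 s hs) (hpos s hs)).sub
        (((hasDerivAt_id s).div_const 2).const_mul ‖w 0‖))
      (fun s hs => by linarith [hs' s hs, (hc s hs).2])
    rw [← h5]
    simp only [zero_div, mul_zero, sub_zero] at this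
    linarith

lemma Sol.rot {μ : Fin 3 → ℝ} {d v : ℝ → Fin 3 → ℂ} (hs : Sol μ d v) {u : ℂ} (hu : ‖u‖ = 1) :
    Sol μ (fun t => u • d t) (fun t => u • v t) := by
  refine ⟨fun t => (hs.hd t).const_smul u, fun t => hd_congr ((hs.hv t).const_smul u)
    (fun _ => rfl) ?_⟩
  have h : ∀ x, fc (u * x) = u * fc x := fun x => by
    unfold fc; rw [norm_mul, hu, one_mul, mul_smul_comm]
  funext k
  simp only [GG, Pi.smul_apply, smul_eq_mul, h, Fin.sum_univ_three, Complex.real_smul]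
  ring

lemma n3_cmb (x y : ℂ) : n3 (cmb x y) ≤ 2 * (‖x‖ + ‖y‖) := by
  apply abs_le_of_sq_le_sq' _ (by positivity) |>.2
  have h : n3 (cmb x y) ^ 2 = 3 * (‖x‖ ^ 2 + ‖y‖ ^ 2) := by
    rw [n3_sq, cmb_eq]
    simp only [tri, Matrix.cons_val, norm_cplx_sq]
    simp only [sq_norm']
    have := s3_sq
    linear_combination ((x.im - y.im) ^ 2 + (x.re - y.re) ^ 2) / 2 * this
  rw [h]
  nlinarith [mul_nonneg (norm_nonneg x) (norm_nonneg y), sq_nonneg ‖x‖, sq_nonneg ‖y‖]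

lemma smul_cmb_sub (u x y x' y' : ℂ) : u • cmb x y - cmb x' y' = cmb (u * x - x') (u * y - y') := by
  funext k
  fin_cases k <;> simp [cmb] <;> ring

lemma sig_small : sig ≤ 1 / 1000000 := by unfold sig; norm_num

lemma end_close {z p w1 p1 u : ℂ} {d v : Fin 3 → ℂ} {δ : ℝ} (hδ : δ ≤ sig ^ 3 / 1000)
    (hz : |‖z‖ - 1| ≤ δ) (hp : ‖p - I * z‖ ≤ δ) (hu : ‖u‖ = 1) (huz : u * z = ‖z‖)
    (huw : u * w1 = sig) (hp1 : ‖p1 - lam * w1‖ ≤ δ * sig) (hd : d 0 + d 1 + d 2 = 0)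
    (hv : v 0 + v 1 + v 2 = 0)
    (h1 : ‖ea z w1 d‖ ≤ 360 * (1000 * δ * sig + sig ^ 3))
    (h2 : ‖ec z p w1 v‖ ≤ 315 * (1000 * δ * sig + sig ^ 3))
    (h3 : ‖ew z w1 d‖ ≤ 68 * (100000 * δ * sig ^ 2 + sig ^ 3))
    (h4 : ‖eg z w1 p1 v‖ ≤ 45 * (100000 * δ * sig ^ 2 + sig ^ 3)) :
    n3 (u • d - s0.D) ≤ s0.a ∧ n3 (u • v - s0.V) ≤ s0.b := by
  have hδ0 : 0 ≤ δ := le_trans (abs_nonneg _) hz
  have hs0 := sig_pos
  have hs := sig_small
  have hs3 : 0 ≤ sig ^ 3 := by positivity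
  have hs2 : sig ^ 2 ≤ 1 / 1000000 := by nlinarith
  have hs3' : sig ^ 3 ≤ 1 / 1000000 := by nlinarith
  have b1 : δ * sig ≤ δ / 1000000 := by linarith [mul_le_mul_of_nonneg_left hs hδ0]
  have b2 : δ * sig ^ 2 ≤ δ / 1000000 := by linarith [mul_le_mul_of_nonneg_left hs2 hδ0]
  have hz1 := abs_le.mp hz
  have hr : 0 < ‖z‖ := by linarith
  have hz0 : z ≠ 0 := norm_pos_iff.mp hr
  obtain ⟨r, hr'⟩ : ∃ r : ℝ, r = ‖z‖ := ⟨_, rfl⟩
  rw [← hr'] at huz hz hz1 hr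
  have huu : u * (starRingEnd ℂ) u = 1 := by rw [Complex.mul_conj', hu]; simp
  have hcw : (starRingEnd ℂ) u * (starRingEnd ℂ) w1 = sig := by rw [← map_mul, huw, conj_ofReal]
  have eN : w1 * (starRingEnd ℂ) w1 = (sig : ℂ) ^ 2 := by
    linear_combination (-(w1 * (starRingEnd ℂ) w1)) * huu + ((starRingEnd ℂ) u * (starRingEnd ℂ) w1)
      * huw + (sig : ℂ) * hcw
  have eM : u * (z ^ 3 * (starRingEnd ℂ) w1 ^ 2) = (r : ℂ) ^ 3 * (sig : ℂ) ^ 2 := by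
    rw [← huz, ← hcw]
    linear_combination (-(u * z ^ 3 * (starRingEnd ℂ) w1 ^ 2) * (1 + u * (starRingEnd ℂ) u)) * huu
  have nr : ‖(r : ℂ)‖ ≤ 1001 / 1000 := by
    rw [Complex.norm_real, Real.norm_of_nonneg hr.le]; linarith
  have nr1 : ‖(r : ℂ) - 1‖ ≤ δ := by
    rw [← Complex.ofReal_one, ← Complex.ofReal_sub, Complex.norm_real]; exact hz
  have nr3 : ‖(r : ℂ) ^ 3 - 1‖ ≤ δ * 4 := by
    have e : (r : ℂ) ^ 3 - 1 = (r - 1) * (r * r + r + 1) := by ring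
    rw [e]
    refine norm_mul_le_of_le nr1 (le_trans (norm_add_le_of_le (norm_add_le_of_le
      (norm_mul_le_of_le nr nr) nr) norm_one.le) (by norm_num))
  have ns : ‖(sig : ℂ) ^ 2‖ ≤ 1 / 2 := by
    rw [norm_pow, Complex.norm_real, Real.norm_of_nonneg hs0.le]; linarith
  have he : e1 0 = 1 := by simp [e1]
  have hss : ss 0 = sig := by simp [ss]
  have ea' : (s0.a : ℝ) = 1000 * sig ^ 3 := by simp only [s0]; push_cast; rw [sq_cast]
  have eb' : (s0.b : ℝ) = 1000 * sig ^ 3 := by simp only [s0]; push_cast; rw [sq_cast]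
  have ne1 := norm_mul_le_of_le norm_eta norm_l1
  have ng3 := norm_mul_le_of_le norm_gam' norm_l3
  constructor
  · have e1 : u * zc d - zf 1 1 0 = ((r : ℂ) - 1) * (1 + eta * (sig : ℂ) ^ 2) + r * ea z w1 d := by
      simp only [zf, he, hss, ea, eN, ← huz]; field_simp; ring
    have e2 : u * wc d - wf 1 1 0 = gam * (((r : ℂ) ^ 3 - 1) * (sig : ℂ) ^ 2) + u * ew z w1 d := by
      simp only [wf, he, hss, ew]; linear_combination huw + gam * eM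
    have n1 := norm_add_le_of_le (norm_mul_le_of_le nr1 (norm_add_le_of_le norm_one.le
      (norm_mul_le_of_le norm_eta ns))) (norm_mul_le_of_le nr h1)
    have n2 := norm_add_le_of_le (norm_mul_le_of_le norm_gam' (norm_mul_le_of_le nr3 ns))
      (norm_mul_le_of_le hu.le h3)
    have c1 := n3_cmb (u * zc d - zf 1 1 0) (u * wc d - wf 1 1 0)
    rw [← smul_cmb_sub, cmb_zc_wc hd, e1, e2] at c1
    have c2 := n3_sub_le (u • d) (DL 0) s0.D
    have c3 := start_close.1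
    rw [ea']
    unfold DL at c2 c3
    linarith
  · have e1 : u * zc v - zf (1 * I) (1 * (2 * lam + I)) 0 = u * (p - I * z)
        + ((r : ℂ) - 1) * (I + eta * (2 * lam + I) * (sig : ℂ) ^ 2) + r * ec z p w1 v := by
      simp only [zf, he, hss, ec, eN, ← huz]; field_simp; ring
    have e2 : u * wc v - wf (1 * lam) (1 * (2 * lam + 3 * I)) 0 = u * (p1 - lam * w1)
        + gam * (2 * lam + 3 * I) * (((r : ℂ) ^ 3 - 1) * (sig : ℂ) ^ 2) + u * eg z w1 p1 v := by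
      simp only [wf, he, hss, eg]
      linear_combination (lam : ℂ) * huw + gam * (2 * lam + 3 * I) * eM
    have n1 := norm_add_le_of_le (norm_add_le_of_le (norm_mul_le_of_le hu.le hp)
      (norm_mul_le_of_le nr1 (norm_add_le_of_le Complex.norm_I.le
      (norm_mul_le_of_le ne1 ns)))) (norm_mul_le_of_le nr h2)
    have n2 := norm_add_le_of_le (norm_add_le_of_le (norm_mul_le_of_le hu.le hp1)
      (norm_mul_le_of_le ng3 (norm_mul_le_of_le nr3 ns))) (norm_mul_le_of_le hu.le h4)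
    have c1 := n3_cmb (u * zc v - zf (1 * I) (1 * (2 * lam + I)) 0)
      (u * wc v - wf (1 * lam) (1 * (2 * lam + 3 * I)) 0)
    rw [← smul_cmb_sub, cmb_zc_wc hv, e1, e2] at c1
    have c2 := n3_sub_le (u • v) (VL 0) s0.V
    have c3 := start_close.2
    rw [eb']
    unfold VL at c2 c3
    linarith

theorem homog_good {μ : Fin 3 → ℝ} {ε : ℝ} {z p : ℝ → ℂ} (hε0 : 0 < ε) (hε1 : ε ≤ del0)
    (hε2 : ε ≤ sig ^ 3 / 40000) (hsum : μ 0 + μ 1 + μ 2 = 1) (hμ : ∀ k, |μ k - 1 / 3| ≤ ε)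
    (hz : ∀ t, HasDerivAt z (p t) t) (hp : ∀ t, HasDerivAt p (-ff (z t)) t)
    (hr : ∀ t, |‖z t‖ - 1| ≤ ε) (hi : ∀ t, ‖p t - I * z t‖ ≤ 40 * ε) :
    (unrel μ (cmb (z 0) 0), unrel μ (cmb (p 0) 0)) ∈ closure (interior (Esc μ)) := by
  have hs0 := sig_pos
  have hs := sig_small
  have hs3 : sig ^ 3 ≤ (1 / 1000000) ^ 3 := by gcongr
  have hε3 : 40 * ε ≤ 1 / 1000000000 := by linarith
  have hzc : Continuous z := continuous_iff_continuousAt.mpr fun t => (hz t).continuousAt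
  have hz0 : ∀ t, 0 < ‖z t‖ := fun t => by linarith [(abs_le.mp (hr t)).1]
  let Φ : ℂ → (Fin 3 → ℂ) × (Fin 3 → ℂ) := fun ξ =>
    (unrel μ (cmb (z 0 * (1 + eta * (ξ * (starRingEnd ℂ) ξ)))
        (ξ + gam * (z 0 ^ 3 * (starRingEnd ℂ) ξ ^ 2))),
      unrel μ (cmb (p 0 + z 0 * (eta * (2 * lam + I) * (ξ * (starRingEnd ℂ) ξ)))
        (lam * ξ + gam * (2 * lam + 3 * I) * (z 0 ^ 3 * (starRingEnd ℂ) ξ ^ 2))))
  have hΦ : Continuous Φ := by
    simp only [Φ, unrel, cmb]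
    fun_prop
  have h0 : Φ 0 = (unrel μ (cmb (z 0) 0), unrel μ (cmb (p 0) 0)) := by simp [Φ]
  have main : ∀ T : ℝ, 0 ≤ T → ∃ ξ : ℂ, ‖ξ‖ * (T / 2) ≤ sig ∧ Φ ξ ∈ interior (Esc μ) := by
    intro T hT
    obtain ⟨u, hu⟩ : ∃ u : ℂ, u = (starRingEnd ℂ) (z T) / ‖z T‖ := ⟨_, rfl⟩
    have hrT : ((‖z T‖ : ℝ) : ℂ) ≠ 0 := by exact_mod_cast (hz0 T).ne'
    have hu1 : ‖u‖ = 1 := by
      rw [hu, norm_div, Complex.norm_conj, Complex.norm_real, norm_norm, div_self (hz0 T).ne']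
    have huz : u * z T = ‖z T‖ := by
      rw [hu, div_mul_eq_mul_div, mul_comm, Complex.mul_conj']; field_simp
    have hu0 : u ≠ 0 := norm_pos_iff.mp (by rw [hu1]; norm_num)
    have hy : ‖(sig : ℂ) / u‖ = sig := by
      rw [norm_div, hu1, div_one, Complex.norm_real, Real.norm_of_nonneg hs0.le]
    obtain ⟨w, p1, k1, k2, k3, k4, k5, k6, k7, k8⟩ := lin_sol hε0 hμ (by linarith) hzc hr hT
      (y := sig / u) (norm_pos_iff.mp (by rw [hy]; exact hs0))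
    rw [hy] at k5 k6
    refine ⟨w 0, k6, ?_⟩
    have hp3 : 0 < ‖w 0‖ ^ 3 := pow_pos (k4 0 ⟨le_rfl, hT⟩) 3
    have hrel : Continuous rel := by unfold rel; fun_prop
    have ho : IsOpen {q : (Fin 3 → ℂ) × (Fin 3 → ℂ) |
        (‖ea (z 0) (w 0) (rel q.1)‖ < ‖w 0‖ ^ 3 ∧ ‖ec (z 0) (p 0) (w 0) (rel q.2)‖ < ‖w 0‖ ^ 3) ∧
        (‖ew (z 0) (w 0) (rel q.1)‖ < ‖w 0‖ ^ 3 ∧
          ‖eg (z 0) (w 0) (p1 0) (rel q.2)‖ < ‖w 0‖ ^ 3)} := by
      refine ((isOpen_lt ?_ continuous_const).and (isOpen_lt ?_ continuous_const)).and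
        ((isOpen_lt ?_ continuous_const).and (isOpen_lt ?_ continuous_const))
      · unfold ea zc; fun_prop
      · unfold ec zc; fun_prop
      · unfold ew wc; fun_prop
      · unfold eg wc; fun_prop
    refine interior_maximal ?_ ho ?_
    · rintro q ⟨⟨q1, q2⟩, q3, q4⟩
      obtain ⟨d, v, hsol, e0, e1⟩ := exists_sol μ
        (fun k => by have := abs_le.mp (hμ k); rw [abs_le]; constructor <;> linarith)
        (rel q.1) (rel q.2)
      have hzs := hsol.zero_sum hsum (T := 0) (by rw [e0]; exact rel_sum _)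
        (by rw [e1]; exact rel_sum _)
      have hvs : ∀ t, v t 0 + v t 1 + v t 2 = 0 := fun t => by
        have hk := hasDerivAt_pi.mp (hsol.hd t)
        have a1 : HasDerivAt (fun _ : ℝ => (0 : ℂ)) _ t :=
          hd_congr (((hk 0).add (hk 1)).add (hk 2)) (fun s => (hzs s).symm) rfl
        exact a1.unique (hasDerivAt_const t _)
      have hc : ∀ t ∈ Icc 0 T, ‖p1 t - lam * w t‖ ≤ 40 * ε * ‖w t‖ := fun t ht =>
        le_trans (k3 t ht) (by gcongr; norm_num)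
      have fen := pert_fence (δ := 40 * ε) (fun k => by linarith [hμ k]) hε3 hz hp
        (fun t => by linarith [hr t]) hi k1 k2 hc k4 (fun t ht => le_trans (k5 t ht) hs) hsol hzs
        (by rw [e0]; exact q1.le) (by rw [e1]; exact q2.le) (by rw [e0]; exact q3.le)
        (by rw [e1]; exact q4.le)
      obtain ⟨-, f1, f2, f3, f4⟩ := fen T ⟨hT, le_rfl⟩
      have hcT := hc T ⟨hT, le_rfl⟩
      have hwT : ‖w T‖ = sig := by rw [k7, hy]
      rw [hwT] at f1 f2 f3 f4 hcT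
      have hn := end_close (δ := 40 * ε) (by linarith) (by linarith [hr T]) (hi T) hu1 huz
        (by rw [k7]; field_simp) hcT (hzs T) (hvs T) f1 f2 f3 f4
      obtain ⟨b1, b2⟩ := escape_s0 ((hsol.shift T).rot hu1) (fun k => le_trans (hμ k) hε1) hsum
        (fun t => by
          simp only [Pi.smul_apply, smul_eq_mul]
          linear_combination u * hzs (t + T))
        (by simpa only [Near, zero_add] using hn)
      simp only [Pi.smul_apply, smul_eq_mul, norm_mul, hu1, one_mul] at b1 b2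
      have far : ∀ t, 0 ≤ t → ∀ k, 1 / 100 ≤ ‖d t k‖ := by
        intro t ht k
        rcases le_total t T with h | h
        · exact (fen t ⟨ht, h⟩).1 k
        · have := b1 (t - T) (by linarith) k
          rwa [sub_add_cancel] at this
      refine esc_lift hsum e0 e1 hsol.hd (fun t ht => hd_congr (hsol.hv t) (fun _ => rfl) ?_) hzs
        (fun t ht k h => ?_) ?_
      · funext k
        simp only [GG, fc_eq (far t ht _)]
      · have := far t ht k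
        rw [h, norm_zero] at this
        norm_num at this
      · have := b2.comp (tendsto_atTop_add_const_right atTop (-T) tendsto_id)
        refine this.congr fun t => ?_
        simp
    · have hz00 : z 0 ≠ 0 := norm_pos_iff.mp (hz0 0)
      simp only [mem_ofPred_eq, Φ, rel_unrel hsum (cmb_sum _ _), ea, ec, ew, eg, zc_cmb, wc_cmb, k8]
      refine ⟨⟨?_, ?_⟩, ?_, ?_⟩
      · convert hp3; rw [norm_eq_zero]; field_simp; ring
      · convert hp3; rw [norm_eq_zero]; field_simp; ring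
      · convert hp3; rw [norm_eq_zero]; ring
      · convert hp3; rw [norm_eq_zero]; ring
  choose ξ hξ1 hξ2 using fun n : ℕ => main (2 * (n + 1)) (by positivity)
  have ht : Tendsto ξ atTop (𝓝 0) := by
    rw [tendsto_zero_iff_norm_tendsto_zero]
    refine squeeze_zero (fun n => norm_nonneg _) (fun n => ?_)
      (tendsto_one_div_add_atTop_nhds_zero_nat (𝕜 := ℝ))
    rw [le_div_iff₀ (by positivity)]
    have := hξ1 n
    linarith
  rw [← h0]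
  exact mem_closure_of_tendsto ((hΦ.tendsto 0).comp ht) (Eventually.of_forall hξ2)

end Pool.Agent.Lib.MP_6e7c44_mp
end

-- part Pool.Agent.Lib.MP_6e7c44_mp.Final2
section

/-!
Nearly circular equilateral solutions with nearly equal masses: the general case.
-/

set_option autoImplicit false

namespace Pool.Agent.Lib.MP_6e7c44_mp

open Set Complex Filter Topology

lemma ff_conj (x : ℂ) : ff ((starRingEnd ℂ) x) = (starRingEnd ℂ) (ff x) := by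
  simp [ff]

lemma orient {x y : ℝ → ℂ} {x' y' a b : ℂ} (hx : HasDerivAt x x' 0) (hy : HasDerivAt y y' 0)
    (h : ∀ t, y t = a * x t ∨ y t = b * x t) (h0 : y 0 = a * x 0) (hab : a ≠ b) (hx0 : x 0 ≠ 0) :
    y' = a * x' := by
  have h1 : y 0 - b * x 0 ≠ 0 := by
    rw [h0, ← sub_mul]; exact mul_ne_zero (sub_ne_zero.mpr hab) hx0
  have h2 := (hy.sub (hx.const_mul b)).continuousAt.eventually_ne h1
  have h3 : y =ᶠ[𝓝 0] fun t => a * x t := by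
    filter_upwards [h2] with t ht
    exact (h t).resolve_right fun h4 => ht (sub_eq_zero.mpr h4)
  exact hy.unique ((hx.const_mul a).congr_of_eventuallyEq h3)

theorem lagrange_good' {ε : ℝ} (hε0 : 0 < ε) (hε1 : ε ≤ del0) (hε2 : ε ≤ sig ^ 3 / 40000)
    {m : Fin 3 → ℝ} (hm : ∀ a, 0 < m a) (hmm : ∀ a b, m a ≤ (1 + ε) * m b) {q v : ℝ → Fin 3 → ℂ}
    (hq : ∀ t a, HasDerivAt (fun s => q s a) (v t a) t)
    (hv : ∀ t a, HasDerivAt (fun s => v s a)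
      (∑ b ∈ Finset.univ.erase a, (m b / ‖q t b - q t a‖ ^ 3) • (q t b - q t a)) t)
    {ρ : ℝ → ℝ} (hρ : ∀ t, 0 < ρ t) (hd : ∀ t a b, a ≠ b → ‖q t a - q t b‖ = ρ t)
    (hρρ : ∀ s t, ρ s ≤ (1 + ε) * ρ t) : (q 0, v 0) ∈ closure (interior (Esc m)) := by
  have hs3 : sig ^ 3 ≤ (1 / 1000000) ^ 3 := pow_le_pow_left₀ sig_pos.le sig_small 3
  have hε3 : ε ≤ 1 / 1000 := by linarith
  obtain ⟨M, hM⟩ : ∃ M, M = m 0 + m 1 + m 2 := ⟨_, rfl⟩
  have hM0 : 0 < M := by rw [hM]; linarith [hm 0, hm 1, hm 2]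
  obtain ⟨r, hr'⟩ : ∃ r, r = ρ 0 := ⟨_, rfl⟩
  have hr : 0 < r := hr' ▸ hρ 0
  obtain ⟨ω, hω, hω2⟩ : ∃ ω : ℝ, 0 < ω ∧ ω ^ 2 = M / r ^ 3 :=
    ⟨√(M / r ^ 3), by positivity, Real.sq_sqrt (by positivity)⟩
  have hn : ∀ k, |m k / M - 1 / 3| ≤ ε := fun k => by
    have h1 : m k / M - 1 / 3 = (3 * m k - M) / (3 * M) := by field_simp
    rw [h1, abs_div, abs_of_pos (by positivity : 0 < 3 * M), div_le_iff₀ (by positivity), abs_le]
    have a0 := hmm k 0; have a1 := hmm k 1; have a2 := hmm k 2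
    have b0 := hmm 0 k; have b1 := hmm 1 k; have b2 := hmm 2 k
    have c : m k ≤ M := by
      rw [hM]; fin_cases k <;> simp <;> linarith [hm 0, hm 1, hm 2]
    have c1 := mul_le_mul_of_nonneg_left c hε0.le
    have c2 : 0 ≤ ε * M := by positivity
    have c3 : ε * M = ε * m 0 + ε * m 1 + ε * m 2 := by rw [hM]; ring
    constructor <;> linarith
  have hacc : ∀ t a, HasDerivAt (fun s => v s a) (((ρ t ^ 3)⁻¹ : ℝ) * (m 0 * q t 0 + m 1 * q t 1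
      + m 2 * q t 2 - (m 0 + m 1 + m 2) * q t a : ℂ)) t := by
    intro t a
    refine hd_congr (hv t a) (fun _ => rfl) ?_
    rw [Finset.sum_congr rfl (g := fun b => (m b / ρ t ^ 3) • (q t b - q t a))
      (fun b hb => by rw [hd t b a (Finset.ne_of_mem_erase hb)]),
      Finset.sum_erase _ (by simp), Fin.sum_univ_three]
    simp only [Complex.real_smul]
    push_cast
    ring
  have hrc : (r : ℂ) ≠ 0 := by exact_mod_cast hr.ne'
  have hωc : (ω : ℂ) ≠ 0 := by exact_mod_cast hω.ne'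
  let X : ℝ → ℂ := fun t => (q (t / ω) 2 - q (t / ω) 1) / r
  let P : ℝ → ℂ := fun t => (v (t / ω) 2 - v (t / ω) 1) / (ω * r)
  have hl : ∀ t : ℝ, HasDerivAt (fun s : ℝ => s / ω) (1 / ω) t := fun t =>
    (hasDerivAt_id t).div_const ω
  have nX : ∀ t, ‖X t‖ = ρ (t / ω) / r := fun t => by
    simp only [X]
    rw [norm_div, hd _ 2 1 (by decide), Complex.norm_real, Real.norm_of_nonneg hr.le]
  have hX : ∀ t, HasDerivAt X (P t) t := fun t =>
    hd_congr ((((hq (t / ω) 2).sub (hq (t / ω) 1)).scomp t (hl t)).div_const (r : ℂ))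
      (fun _ => rfl) (by simp only [P, Complex.real_smul]; push_cast; field_simp)
  have hP : ∀ t, HasDerivAt P (-ff (X t)) t := fun t =>
    hd_congr ((((hacc (t / ω) 2).sub (hacc (t / ω) 1)).scomp t (hl t)).div_const (ω * r : ℂ))
      (fun _ => rfl) (by
        have h1 : (m 0 + m 1 + m 2 : ℂ) = ω ^ 2 * r ^ 3 := by
          have : m 0 + m 1 + m 2 = ω ^ 2 * r ^ 3 := by rw [hω2, ← hM]; field_simp
          exact_mod_cast this
        have h2 : ((ρ (t / ω) : ℝ) : ℂ) ≠ 0 := by exact_mod_cast (hρ _).ne'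
        simp only [ff, nX, Complex.real_smul, h1]
        simp only [X]
        push_cast
        field_simp
        ring)
  have hX1 : ∀ t, |‖X t‖ - 1| ≤ ε := fun t => by
    have h1 : ρ (t / ω) / r - 1 = (ρ (t / ω) - r) / r := by field_simp
    rw [nX, h1, abs_div, abs_of_pos hr, div_le_iff₀ hr, abs_le]
    have a1 := hρρ (t / ω) 0
    have a2 := hρρ 0 (t / ω)
    rw [← hr'] at a1 a2
    refine ⟨?_, by linarith⟩
    by_contra h
    have h2 : ρ (t / ω) < (1 - ε) * r := by linarith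
    have h3 := mul_lt_mul_of_pos_left h2 (show 0 < 1 + ε by linarith)
    have h4 : 0 ≤ ε * ε * r := by positivity
    linarith
  have hpos : ∀ t, q t 0 - q t 2 = ze * (q t 2 - q t 1) ∨ q t 0 - q t 2 = ze ^ 2 * (q t 2 - q t 1) :=
    fun t => equilateral (hρ t) (hd t 2 1 (by decide)) (hd t 0 2 (by decide))
      (by rw [← hd t 0 1 (by decide)]; congr 1; ring)
  have hz := ze_rel
  have hcz := conj_ze
  have hne : ze ≠ ze ^ 2 := fun h => by grind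
  have hx0 : q 0 2 - q 0 1 ≠ 0 := norm_pos_iff.mp (by rw [hd 0 2 1 (by decide)]; exact hρ 0)
  have hor : (q 0 0 - q 0 2 = ze * (q 0 2 - q 0 1) ∧ v 0 0 - v 0 2 = ze * (v 0 2 - v 0 1)) ∨
      (q 0 0 - q 0 2 = ze ^ 2 * (q 0 2 - q 0 1) ∧ v 0 0 - v 0 2 = ze ^ 2 * (v 0 2 - v 0 1)) := by
    rcases hpos 0 with h | h
    · exact Or.inl ⟨h, orient ((hq 0 2).sub (hq 0 1)) ((hq 0 0).sub (hq 0 2)) hpos h hne hx0⟩
    · exact Or.inr ⟨h, orient ((hq 0 2).sub (hq 0 1)) ((hq 0 0).sub (hq 0 2))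
        (fun t => (hpos t).symm) h hne.symm hx0⟩
  have hX0 : (r : ℂ) * X 0 = q 0 2 - q 0 1 := by simp only [X, zero_div]; field_simp
  have hP0 : (ω : ℂ) * r * P 0 = v 0 2 - v 0 1 := by simp only [P, zero_div]; field_simp
  obtain ⟨n, hn'⟩ : ∃ n : Fin 3 → ℝ, n = fun k => m k / M := ⟨_, rfl⟩
  have hn1 : ∀ k, |n k - 1 / 3| ≤ ε := fun k => by rw [hn']; exact hn k
  have hns : n 0 + n 1 + n 2 = 1 := by rw [hn']; field_simp; exact hM.symm
  have hnc : (n 0 : ℂ) + n 1 + n 2 = 1 := by exact_mod_cast congrArg (fun x : ℝ => (x : ℂ)) hns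
  have hmn : ∀ b, m b = ω ^ 2 * r ^ 3 * n b := fun b => by rw [hω2, hn']; field_simp
  have g1 : ∀ x, ‖ContinuousLinearMap.mul ℝ ℂ r x‖ = r * ‖x‖ := by
    intro x; simp [abs_of_pos hr]
  have g2 : ∀ x, ‖((ContinuousLinearMap.mul ℝ ℂ r).comp
      (Complex.conjCLE : ℂ →L[ℝ] ℂ)) x‖ = r * ‖x‖ := by
    intro x; simp [abs_of_pos hr]
  have s0 : Equiv.swap (1 : Fin 3) 2 0 = 0 := by decide
  have hns' : n (Equiv.swap (1 : Fin 3) 2 0) + n (Equiv.swap (1 : Fin 3) 2 1)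
      + n (Equiv.swap (1 : Fin 3) 2 2) = 1 := by
    simp only [s0, Equiv.swap_apply_left, Equiv.swap_apply_right]; linarith
  have cX : ∀ t, HasDerivAt (fun s => (starRingEnd ℂ) (X s)) ((starRingEnd ℂ) (P t)) t :=
    fun t => (hX t).star
  have cP : ∀ t, HasDerivAt (fun s => (starRingEnd ℂ) (P s)) (-ff ((starRingEnd ℂ) (X t))) t :=
    fun t => hd_congr (hP t).star (fun _ => rfl) (by rw [ff_conj]; simp)
  have cI : ∀ t, ‖(starRingEnd ℂ) (P t) - I * (starRingEnd ℂ) (X t)‖ = ‖P t + I * X t‖ :=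
    fun t => by rw [← Complex.norm_conj (P t + I * X t)]; simp [sub_eq_add_neg]
  generalize X = X at *
  generalize P = P at *
  clear hacc hv hq hl hd
  rcases hor with ⟨h0, h1⟩ | ⟨h0, h1⟩ <;> rcases kepler hε3 hX hP hX1 with hk | hk
  · have := good_map _ hr hω g1 1 (n 0 * q 0 0 + n 1 * q 0 1 + n 2 * q 0 2)
      (n 0 * v 0 0 + n 1 * v 0 1 + n 2 * v 0 2) (m' := m) hmn
      (homog_good hε0 hε1 hε2 hns hn1 hX hP hX1 hk)
    convert this using 2 <;> funext a <;> fin_cases a <;> simp [unrel, cmb] <;> grind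
  · have := good_map _ hr hω g2 (Equiv.swap 1 2) (n 0 * q 0 0 + n 1 * q 0 1 + n 2 * q 0 2)
      (n 0 * v 0 0 + n 1 * v 0 1 + n 2 * v 0 2) (m' := m) (m := fun b => n (Equiv.swap 1 2 b))
      (fun b => by simp [hmn b])
      (homog_good (z := fun t => -(starRingEnd ℂ) (X t)) (p := fun t => -(starRingEnd ℂ) (P t))
        hε0 hε1 hε2 hns' (fun k => hn1 _) (fun t => (cX t).neg)
        (fun t => hd_congr (cP t).neg (fun _ => rfl) (by rw [ff_neg]))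
        (fun t => by rw [norm_neg, Complex.norm_conj]; exact hX1 t)
        (fun t => by
          rw [← norm_neg]
          refine le_trans (le_of_eq ?_) (cI t ▸ hk t)
          congr 1; ring))
    convert this using 2 <;> funext a <;> fin_cases a <;> simp [unrel, cmb, s0, hcz] <;> grind
  · have := good_map _ hr hω g1 (Equiv.swap 1 2) (n 0 * q 0 0 + n 1 * q 0 1 + n 2 * q 0 2)
      (n 0 * v 0 0 + n 1 * v 0 1 + n 2 * v 0 2) (m' := m) (m := fun b => n (Equiv.swap 1 2 b))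
      (fun b => by simp [hmn b])
      (homog_good (z := fun t => -X t) (p := fun t => -P t)
        hε0 hε1 hε2 hns' (fun k => hn1 _) (fun t => (hX t).neg)
        (fun t => hd_congr (hP t).neg (fun _ => rfl) (by rw [ff_neg]))
        (fun t => by rw [norm_neg]; exact hX1 t)
        (fun t => by
          rw [← norm_neg]
          refine le_trans (le_of_eq ?_) (hk t)
          congr 1; ring))
    convert this using 2 <;> funext a <;> fin_cases a <;> simp [unrel, cmb, s0] <;> grind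
  · have := good_map _ hr hω g2 1 (n 0 * q 0 0 + n 1 * q 0 1 + n 2 * q 0 2)
      (n 0 * v 0 0 + n 1 * v 0 1 + n 2 * v 0 2) (m' := m) hmn
      (homog_good (z := fun t => (starRingEnd ℂ) (X t)) (p := fun t => (starRingEnd ℂ) (P t))
        hε0 hε1 hε2 hns hn1 cX cP (fun t => by rw [Complex.norm_conj]; exact hX1 t)
        (fun t => cI t ▸ hk t))
    convert this using 2 <;> funext a <;> fin_cases a <;> simp [unrel, cmb, hcz] <;> grind

end Pool.Agent.Lib.MP_6e7c44_mp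
end
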