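import Pool.Agent.Lib.MP_6e7c44_mp.HEul

-- part Pool.Agent.Lib.MP_6e7c44_mp.HStop
section

/-!
Orbits in an expanding cone around a homographic motion: the Kepler phase and the stopping time.
-/

set_option autoImplicit false

open Set Filter Topology Metric Complex ComplexConjugate

noncomputable section

namespace Pool.Agent.Lib.MP_6e7c44_mp.Hg

lemma mono_ex {f : ℝ → ℝ} {a b : ℝ} (hab : a ≤ b)
    (h : ∀ t ∈ Icc a b, ∃ d, HasDerivAt f d t ∧ 0 ≤ d) : f a ≤ f b := by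
  choose! d hd using h
  exact mono_Icc' hab (fun t ht => (hd t ht).1) fun t ht => (hd t (Ioo_subset_Icc_self ht)).2

lemma gron {f A g : ℝ → ℝ} {a b c : ℝ} (hab : a ≤ b) (hA : ∀ t, HasDerivAt A (g t) t)
    (h : ∀ t ∈ Icc a b, ∃ d, HasDerivAt f d t ∧ g t * (c * f t) ≤ d) :
    f a * Real.exp (c * (A b - A a)) ≤ f b := by
  have h1 := mono_ex (f := fun t => f t * Real.exp (c * (A b - A t))) hab fun t ht => by
    obtain ⟨d, hd, hd'⟩ := h t ht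
    refine ⟨_, hd.mul (((hA t).const_sub (A b)).const_mul c).exp, ?_⟩
    nlinarith [mul_nonneg (sub_nonneg.2 hd') (Real.exp_pos (c * (A b - A t))).le]
  simpa using h1

/-- The integral of a function along an orbit. -/
def prim {E : Type*} [NormedAddCommGroup E] [NormedSpace ℝ E] (g : St → E) (φ : ℝ → St → St)
    (p : St) (t : ℝ) : E := ∫ s in (0:ℝ)..t, g (φ s p)

variable {m : Fin 3 → ℝ} {φ : ℝ → St → St} {p : St} {α β : Fin 3 → ℂ}

section prim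
variable {E : Type*} [NormedAddCommGroup E] [NormedSpace ℝ E] [CompleteSpace E] {g : St → E}

lemma hd_prim (hφ : IsFlow (YY m) Dom φ) (hg : ∀ p ∈ Dom, ContinuousAt g p) (hp : p ∈ Dom) (t : ℝ) :
    HasDerivAt (prim g φ p) (g (φ t p)) t :=
  ((continuous_iff_continuousAt.2 fun s => ContinuousAt.comp (g := g) (hg _ (hφ.mem p hp s))
    (hφ.cont hp).continuousAt).integral_hasStrictDerivAt 0 t).hasDerivAt

omit [CompleteSpace E] in
lemma prim_zero : prim g φ p 0 = 0 := intervalIntegral.integral_same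

omit [CompleteSpace E] in
lemma cont_prim (hφ : IsFlow (YY m) Dom φ) (hg : ∀ p ∈ Dom, ContinuousAt g p) {X : Type*}
    [TopologicalSpace X] {P : X → St} (hP : Continuous P) (hD : ∀ x, P x ∈ Dom) :
    Continuous fun y : X × ℝ => prim g φ (P y.1) y.2 :=
  intervalIntegral.continuous_parametric_primitive_of_continuous (f := fun x s => g (φ s (P x)))
    (continuous_iff_continuousAt.2 fun _ => ContinuousAt.comp (g := g)
      (f := fun y : X × ℝ => φ y.2 (P y.1)) (hg _ (hφ.mem _ (hD _) _))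
      (hφ.comp_contAt continuousAt_snd (hP.comp continuous_fst).continuousAt (hD _)))

end prim

/-- Negative energy, nonzero angular momentum, small invariant `c² |h|`. -/
def Kep (m : Fin 3 → ℝ) (lam : ℝ) : Set St :=
  {p | p ∈ Man m ∧ 0 < mm m p ∧ om m p ≠ 0 ∧ om m p ^ 2 * mm m p ≤ lam}

lemma flow_inv (hm : ∀ k, 0 < m k) (hφ : IsFlow (YY m) Dom φ) (hp : p ∈ Man m) (t : ℝ) :
    om m (φ t p) ^ 2 * mm m (φ t p) = om m p ^ 2 * mm m p := by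
  have := const_of (f := fun t => om m (φ t p) ^ 2 * mm m (φ t p)) (fun t => by
    have h1 := flow_Man hm hφ hp t
    refine (((com hm h1 (hφ.deriv p hp.1 t)).fun_pow 2).mul
      (cmm hm h1 (hφ.deriv p hp.1 t))).congr_deriv ?_
    simp only [Nat.cast_ofNat, Nat.add_one_sub_one, pow_one]
    ring) t
  simpa only [hφ.zero] using this

lemma Kep.pos {lam : ℝ} (hp : p ∈ Kep m lam) : 0 < om m p ^ 2 * mm m p :=
  mul_pos (pow_pos (abs_pos.2 hp.2.2.1) 2 |>.trans_eq (sq_abs _)) hp.2.1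

lemma flow_Kep (hm : ∀ k, 0 < m k) (hφ : IsFlow (YY m) Dom φ) {lam : ℝ} (hp : p ∈ Kep m lam)
    (t : ℝ) : φ t p ∈ Kep m lam := by
  have h1 := flow_inv hm hφ hp.1 t
  have h2 := Kep.pos hp
  rw [← h1] at h2
  exact ⟨flow_Man hm hφ hp.1 t, pos_of_mul_pos_right h2 (sq_nonneg _),
    fun h => by simp [h] at h2, h1.trans_le hp.2.2.2⟩

variable (m) in
def zz (p : St) : ℂ := vv m p + I * (mm m p - om m p ^ 2 / 2 : ℝ)
variable (m) in
def fz (δ : ℝ) (p : St) : ℂ := conj (zz m p) * (vd m p + I * (gm m p * vv m p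
  * (mm m p + om m p ^ 2 / 2) : ℝ)) / (max (normSq (zz m p)) δ : ℝ)

lemma cAt_zz (hm : ∀ k, 0 < m k) (hp : p ∈ Dom) : ContinuousAt (zz m) p := by
  have := cAt_vv hm hp
  have := cAt_om hm hp
  unfold zz; fun_prop

lemma cAt_fz (hm : ∀ k, 0 < m k) {δ : ℝ} (hδ : 0 < δ) (p : St) (hp : p ∈ Dom) :
    ContinuousAt (fz m δ) p := by
  have := cAt_vv hm hp
  have := cAt_om hm hp
  have := cAt_gm hm hp
  have := cAt_vd hm hp
  have := cAt_zz hm hp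
  exact ContinuousAt.div (by fun_prop) (by fun_prop)
    (ofReal_ne_zero.2 (hδ.trans_le (le_max_right _ _)).ne')

lemma zz_flow (hm : ∀ k, 0 < m k) (hφ : IsFlow (YY m) Dom φ) (hp : p ∈ Man m) {δ τ : ℝ}
    (hδ : 0 < δ) (hτ : 0 ≤ τ) (h : ∀ s ∈ Icc 0 τ, δ ≤ normSq (zz m (φ s p))) :
    zz m (φ τ p) = zz m p * exp (prim (fz m δ) φ p τ) := by
  have h1 : ∀ s ∈ Icc 0 τ,
      HasDerivAt (fun s => zz m (φ s p) * exp (-prim (fz m δ) φ p s)) 0 s := fun s hs => by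
    have a1 := flow_Man hm hφ hp s
    have a2 := hφ.deriv p hp.1 s
    refine (((cvv hm a1 a2).ofReal_comp.add (((cmm hm a1 a2).sub
      (((com hm a1 a2).fun_pow 2).div_const 2)).ofReal_comp.const_mul I)).mul
      (hd_prim hφ (cAt_fz hm hδ) hp.1 s).neg.cexp).congr_deriv ?_
    have a3 := ofReal_ne_zero.2 (hδ.trans_le (h s hs)).ne'
    simp only [Pi.add_apply, Pi.sub_apply, Pi.neg_apply, fz, max_eq_left (h s hs)]
    rw [← zz]
    field_simp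
    rw [← mul_conj]
    push_cast
    ring
  have h2 := constant_of_has_deriv_right_zero (fun s hs => (h1 s hs).continuousAt.continuousWithinAt)
    (fun s hs => (h1 s (Ico_subset_Icc_self hs)).hasDerivWithinAt) τ ⟨hτ, le_rfl⟩
  rw [hφ.zero, prim_zero, neg_zero, exp_zero, mul_one] at h2
  rw [← h2, mul_assoc, ← exp_add, neg_add_cancel, exp_zero, mul_one]

lemma phase_real {U v o μ W : ℝ} (hU : 0 < U) (hμ : 0 < μ) (ho : 0 ≤ o)
    (h1 : U ≤ v ^ 2 + o + 2 * μ) (h2 : v ^ 2 + o + 2 * μ ≤ 3 * U) (h3 : 0 ≤ W) (h4 : W ≤ U / 4)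
    (h5 : o * μ ≤ U ^ 2 / 64) : min (U / 2) (U ^ 2 / 32) ≤ v ^ 2 + (μ - o / 2) ^ 2 ∧
      v ^ 2 + (μ - o / 2) ^ 2 ≤ 3 * U + 3 * U ^ 2 ∧
      o * μ / 3 ≤ v ^ 2 * (μ + o / 2) + (μ - o / 2) ^ 2 - (μ - o / 2) * W / 2 ∧
      v ^ 2 * (μ + o / 2) + (μ - o / 2) ^ 2 - (μ - o / 2) * W / 2 ≤ 8 * U ^ 2 := by
  have e : o * μ = ((μ + o / 2) ^ 2 - (μ - o / 2) ^ 2) / 2 := by ring
  have b1 : μ - o / 2 ≤ μ + o / 2 := by linarith
  have b2 : -(μ + o / 2) ≤ μ - o / 2 := by linarith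
  have b3 : v ^ 2 + 2 * (μ + o / 2) ≤ 3 * U := by linarith
  have b4 : U ≤ v ^ 2 + 2 * (μ + o / 2) := by linarith
  have b5 : 0 < μ + o / 2 := by linarith
  rw [e] at h5 ⊢
  generalize μ + o / 2 = b at *
  generalize μ - o / 2 = a at *
  have v0 := sq_nonneg v
  generalize v ^ 2 = x at *
  have a1 : a ^ 2 ≤ b ^ 2 := sq_le_sq' b2 b1
  have a2 : b ^ 2 ≤ b * (3 * U / 2) := by nlinarith
  refine ⟨?_, by nlinarith, ?_, by nlinarith⟩
  · rcases le_total (U / 2) x with h | h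
    · exact (min_le_left _ _).trans (by nlinarith)
    · exact (min_le_right _ _).trans (by nlinarith)
  · rcases le_total (U / 2) x with h | h
    · nlinarith
    · nlinarith [sq_nonneg (a - W / 2)]

/-- Smallness of a box. -/
structure Small (m : Fin 3 → ℝ) (α β : Fin 3 → ℂ) (e : ℝ) : Prop where
  good : Good α β e
  ff : ∀ p ∈ Man m, p ∈ Loc m α → nz m α β p ≤ e → |FF m p - 2 * UU m α| ≤ UU m α
  e1 : e ≤ UU m α / 4
  e2 : e ≤ UU m α ^ 2 / 64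

lemma ev_small (hm : ∀ k, 0 < m k) (hf : Frame m α β) : ∀ᶠ e in 𝓝[>] (0 : ℝ), Small m α β e := by
  have hU := UU_pos hm hf.ne
  filter_upwards [ev_good hf, ev_FF hm hf hU, Ioc_mem_nhdsGT (show 0 < UU m α / 4 by positivity),
    Ioc_mem_nhdsGT (show 0 < UU m α ^ 2 / 64 by positivity)] with e h1 h2 h3 h4
  exact ⟨h1, h2, h3.2, h4.2⟩

lemma Small.bd {e : ℝ} (hm : ∀ k, 0 < m k) (h : Small m α β e) (hp : p ∈ Man m) (hl : p ∈ Loc m α)
    (hz : nz m α β p ≤ e) : UU m α ≤ vv m p ^ 2 + om m p ^ 2 + 2 * mm m p ∧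
      vv m p ^ 2 + om m p ^ 2 + 2 * mm m p ≤ 3 * UU m α := by
  have := abs_le.1 (h.ff p hp hl hz)
  rw [FF_mcg hm hp.1] at this
  constructor <;> linarith

lemma phase_bd (hm : ∀ k, 0 < m k) (hf : Frame m α β) : ∃ δ c C : ℝ, 0 < δ ∧ 0 < c ∧ 0 < C ∧
    ∀ e, Small m α β e → ∀ p ∈ Kep m e, p ∈ Loc m α → nz m α β p ≤ e → δ ≤ normSq (zz m p) ∧
      gm m p * (c * (om m p ^ 2 * mm m p)) ≤ (fz m δ p).im ∧ (fz m δ p).im ≤ gm m p * C := by
  have hU := UU_pos hm hf.ne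
  have hδ : 0 < min (UU m α / 2) (UU m α ^ 2 / 32) := by positivity
  refine ⟨_, (3 * (3 * UU m α + 3 * UU m α ^ 2))⁻¹, 8 * UU m α ^ 2 / _, hδ, by positivity,
    div_pos (by positivity) hδ, fun e h p hp hl hz => ?_⟩
  obtain ⟨a1, a2⟩ := h.bd hm hp.1 hl hz
  obtain ⟨b1, b2, b3, b4⟩ := phase_real hU hp.2.1 (sq_nonneg _) a1 a2 (WW_nonneg hm (p := p))
    ((FF_loc hm hf hp.1 hl).2.trans (uu_le_nz.trans (hz.trans h.e1))) (hp.2.2.2.trans h.e2)
  have e1 : normSq (zz m p) = vv m p ^ 2 + (mm m p - om m p ^ 2 / 2) ^ 2 := by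
    rw [zz, mul_comm, normSq_add_mul_I]
  have g0 := gm_nonneg hm hp.1.1
  have l0 := Kep.pos hp
  rw [← e1] at b1 b2
  have e2 : (fz m (min (UU m α / 2) (UU m α ^ 2 / 32)) p).im = gm m p * ((vv m p ^ 2 * (mm m p
      + om m p ^ 2 / 2) + (mm m p - om m p ^ 2 / 2) ^ 2 - (mm m p - om m p ^ 2 / 2) * WW m p / 2)
      / normSq (zz m p)) := by
    rw [fz, max_eq_left b1, div_ofReal_im, vd_eq hm hp.1 hl.1, ← mul_div_assoc, zz]
    simp only [mul_im, mul_re, add_re, add_im, conj_re, conj_im, ofReal_re, ofReal_im, I_re, I_im]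
    ring
  rw [e2]
  refine ⟨b1, mul_le_mul_of_nonneg_left ?_ g0, mul_le_mul_of_nonneg_left ?_ g0⟩
  · rw [inv_mul_eq_div, ← div_div]
    exact div_le_div₀ (by linarith) b3 (hδ.trans_le b1) b2
  · exact div_le_div₀ (by positivity) b4 hδ b1

lemma A_diverges (hm : ∀ k, 0 < m k) (hφ : IsFlow (YY m) Dom φ) {lam F0 : ℝ} (hp : p ∈ Kep m lam)
    (h : ∀ t, 0 ≤ t → FF m (φ t p) ≤ F0) : Tendsto (prim (gm m) φ p) atTop atTop := by
  have hh : 0 < -p.2.2 := pos_of_mul_pos_left hp.2.1 (Real.sqrt_nonneg _)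
  have hc : (Jc m p).im ≠ 0 := fun h => hp.2.2.1 (by rw [om, h, zero_div])
  have hM := flow_Man hm hφ hp.1
  have hr := fun t => rr_pos hm (hM t).1
  have b1 : ∀ t, 0 ≤ t → (Jc m p).im ^ 2 ≤ F0 * rr m (φ t p) ∧ -p.2.2 * rr m (φ t p) ≤ F0 := by
    intro t ht
    have h1 := (FF_le_iff (hr t)).1 (h t ht)
    rw [flow_h hφ hp.1.1, normSq_apply, flow_c hm hφ hp.1] at h1
    have h2 := mul_pos hh (pow_pos (hr t) 2)
    refine ⟨by nlinarith [mul_self_nonneg (Jc m (φ t p)).re], le_of_mul_le_mul_right ?_ (hr t)⟩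
    nlinarith [mul_self_nonneg (Jc m (φ t p)).re, mul_self_nonneg (Jc m p).im]
  have F1 : 0 < F0 := (mul_pos hh (hr 0)).trans_le (b1 0 le_rfl).2
  have h1 := time_diverges hm hφ (isCompact_Cpt hm (r1 := (Jc m p).im ^ 2 / F0) (by positivity)
    (F0 / -p.2.2) (-p.2.2) F0) (fun _ h => h.1) fun t ht => ⟨hM t,
      (div_le_iff₀' F1).2 (b1 t ht).1, (le_div_iff₀' hh).2 (b1 t ht).2,
      by rw [flow_h hφ hp.1.1, neg_neg], by rw [flow_h hφ hp.1.1]; linarith, h t ht⟩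
  have R0 : 0 < √(F0 / -p.2.2) ^ 3 := by positivity
  refine tendsto_atTop_mono' _ ?_ (h1.atTop_div_const R0)
  filter_upwards [eventually_ge_atTop 0] with t ht
  have := mono_ex (f := fun t => prim (gm m) φ p t - TT m φ p t / √(F0 / -p.2.2) ^ 3) ht
    fun s hs => ⟨_, (hd_prim hφ (fun _ => cAt_gm hm) hp.1.1 s).sub
      ((cT hm hφ hp.1.1 s).div_const _), sub_nonneg.2 (div_le_div_of_nonneg_left
        (tf_nonneg (hM s).1) (pow_pos (sr_pos hm (hM s).1) 3) (pow_le_pow_left₀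
          (Real.sqrt_nonneg _) (Real.sqrt_le_sqrt ((le_div_iff₀' hh).2 (b1 s hs.1).2)) 3))⟩
  rw [prim_zero, TT_zero] at this
  linarith [zero_div (√(F0 / -p.2.2) ^ 3)]

/-- An expanding cone `κ / C * nt ≤ Vt` around the homographic motions of shape `α`. -/
structure Cone (m : Fin 3 → ℝ) (α β : Fin 3 → ℂ) (Vt nt : St → ℝ) (e ρ κ C : ℝ) : Prop where
  r0 : 0 ≤ ρ
  k0 : 0 < κ
  c0 : 0 < C
  cont : ∀ p ∈ Kep m e, p ∈ Loc m α → ContinuousAt Vt p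
  bd : ∀ p ∈ Kep m e, p ∈ Loc m α → nz m α β p ≤ e →
    nz m α β p ≤ C * nt p ∧ nt p ≤ C * nz m α β p ∧ Vt p ≤ C * nt p
  der : ∀ (γ : ℝ → St) (t : ℝ), γ t ∈ Kep m e → γ t ∈ Loc m α → nz m α β (γ t) ≤ e →
    HasDerivAt γ (YY m (γ t)) t → ∃ d d', HasDerivAt (fun s => Vt (γ s)) d t ∧
      HasDerivAt (fun s => nt (γ s)) d' t ∧ gm m (γ t) * (ρ * Vt (γ t) + κ * nt (γ t)) ≤ d ∧
      d' ≤ gm m (γ t) * (C * nt (γ t))

variable {Vt nt : St → ℝ} {e ρ κ C : ℝ}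

lemma Kep.mono {e' : ℝ} (hp : p ∈ Kep m e') (h : e' ≤ e) : p ∈ Kep m e :=
  ⟨hp.1, hp.2.1, hp.2.2.1, hp.2.2.2.trans h⟩

lemma Cone.mono (hc : Cone m α β Vt nt e ρ κ C) {e' : ℝ} (h : e' ≤ e) :
    Cone m α β Vt nt e' ρ κ C :=
  ⟨hc.r0, hc.k0, hc.c0, fun p hp => hc.cont p (Kep.mono hp h),
    fun p hp hl hz => hc.bd p (Kep.mono hp h) hl (hz.trans h),
    fun γ t hp hl hz => hc.der γ t (Kep.mono hp h) hl (hz.trans h)⟩

lemma Cone.nt_nonneg (hc : Cone m α β Vt nt e ρ κ C) (hp : p ∈ Kep m e) (hl : p ∈ Loc m α)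
    (hz : nz m α β p ≤ e) : 0 ≤ nt p :=
  nonneg_of_mul_nonneg_right (nz_nonneg.trans (hc.bd p hp hl hz).1) hc.c0

lemma Cone.orbit (hm : ∀ k, 0 < m k) (hφ : IsFlow (YY m) Dom φ) (hc : Cone m α β Vt nt e ρ κ C)
    (hp : p ∈ Kep m e) {τ : ℝ} (hb : ∀ s ∈ Icc 0 τ, φ s p ∈ Loc m α ∧ nz m α β (φ s p) ≤ e)
    (h0 : κ / C * nt p ≤ Vt p) {s t : ℝ} (h1 : 0 ≤ s) (h2 : s ≤ t) (h3 : t ≤ τ) :
    κ / C * nt (φ t p) ≤ Vt (φ t p) ∧
      Vt (φ s p) * Real.exp (κ / C * (prim (gm m) φ p t - prim (gm m) φ p s)) ≤ Vt (φ t p) ∧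
      nt (φ t p) ≤ nt (φ s p) * Real.exp (C * (prim (gm m) φ p t - prim (gm m) φ p s)) := by
  have hA := hd_prim hφ (fun _ => cAt_gm hm) hp.1.1
  have hK := flow_Kep hm hφ hp
  have hd := fun r (hr : r ∈ Icc 0 τ) => hc.der (fun s => φ s p) r (hK r) (hb r hr).1 (hb r hr).2
    (hφ.deriv p hp.1.1 r)
  have hn := fun r (hr : r ∈ Icc 0 τ) => hc.nt_nonneg (hK r) (hb r hr).1 (hb r hr).2
  have hg := fun r => gm_nonneg hm (hK r).1.1
  have c0 := hc.c0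
  have ε0 := div_pos hc.k0 c0
  have a1 : ∀ t ∈ Icc 0 τ, κ / C * nt (φ t p) ≤ Vt (φ t p) := fun t ht => by
    have := gron (f := fun s => Vt (φ s p) - κ / C * nt (φ s p)) (c := ρ) ht.1 hA fun r hr => by
      obtain ⟨d, d', b1, b2, b3, b4⟩ := hd r ⟨hr.1, hr.2.trans ht.2⟩
      refine ⟨_, b1.sub (b2.const_mul _), ?_⟩
      have b5 := mul_le_mul_of_nonneg_left b4 ε0.le
      have b6 : κ / C * (gm m (φ r p) * (C * nt (φ r p))) = gm m (φ r p) * (κ * nt (φ r p)) := by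
        field_simp
      nlinarith [mul_nonneg (mul_nonneg (hg r) hc.r0)
        (mul_nonneg ε0.le (hn r ⟨hr.1, hr.2.trans ht.2⟩))]
    rw [hφ.zero] at this
    exact sub_nonneg.1 ((mul_nonneg (sub_nonneg.2 h0) (Real.exp_pos _).le).trans this)
  refine ⟨a1 t ⟨h1.trans h2, h3⟩, gron (f := fun s => Vt (φ s p)) h2 hA fun r hr => ?_, ?_⟩
  · have hr' : r ∈ Icc 0 τ := ⟨h1.trans hr.1, hr.2.trans h3⟩
    obtain ⟨d, d', b1, -, b3, -⟩ := hd r hr'
    refine ⟨_, b1, le_trans (mul_le_mul_of_nonneg_left ?_ (hg r)) b3⟩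
    have b5 := mul_le_mul_of_nonneg_left (hc.bd _ (hK r) (hb r hr').1 (hb r hr').2).2.2 ε0.le
    have b6 : κ / C * (C * nt (φ r p)) = κ * nt (φ r p) := by field_simp
    linarith [mul_nonneg hc.r0 ((mul_nonneg ε0.le (hn r hr')).trans (a1 r hr'))]
  · have := gron (f := fun s => -nt (φ s p)) (c := C) h2 hA fun r hr => by
      obtain ⟨d, d', -, b2, -, b4⟩ := hd r ⟨h1.trans hr.1, hr.2.trans h3⟩
      exact ⟨_, b2.neg, by linarith⟩
    linarith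

lemma A_mono (hm : ∀ k, 0 < m k) (hφ : IsFlow (YY m) Dom φ) (hp : p ∈ Dom) {s t : ℝ} (h : s ≤ t) :
    prim (gm m) φ p s ≤ prim (gm m) φ p t :=
  mono_ex h fun r _ => ⟨_, hd_prim hφ (fun _ => cAt_gm hm) hp r, gm_nonneg hm (hφ.mem p hp r)⟩

/-- The last outgoing leg before a passage through the phase `v > 0`, `μ = ω² / 2` is long. -/
lemma last_leg (hm : ∀ k, 0 < m k) (hφ : IsFlow (YY m) Dom φ) (hf : Frame m α β)
    (hs : Small m α β e) (D : ℝ) : ∃ μ0, 0 < μ0 ∧ ∀ p ∈ Kep m e, ∀ τ, 0 ≤ τ →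
      (∀ s ∈ Icc 0 τ, φ s p ∈ Loc m α ∧ nz m α β (φ s p) ≤ e) → 0 < vv m (φ τ p) →
      mm m (φ τ p) ≤ μ0 → om m (φ τ p) ^ 2 ≤ 2 * μ0 → ∃ t ∈ Icc 0 τ,
        (∀ s ∈ Icc t τ, √(UU m α) / 2 ≤ vv m (φ s p)) ∧
        (t = 0 ∨ D ≤ prim (gm m) φ p τ - prim (gm m) φ p t) := by
  have hU := UU_pos hm hf.ne
  have U1 := Real.sq_sqrt hU.le
  have U2 := Real.sqrt_pos.2 hU
  refine ⟨min (UU m α / 8) (UU m α / 4 * Real.exp (-(2 * √(UU m α)) * D)), by positivity,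
    fun p hp τ hτ hb h1 h2 h3 => ?_⟩
  have μ1 := min_le_left (UU m α / 8) (UU m α / 4 * Real.exp (-(2 * √(UU m α)) * D))
  have μ2 := min_le_right (UU m α / 8) (UU m α / 4 * Real.exp (-(2 * √(UU m α)) * D))
  have hK := flow_Kep hm hφ hp
  have hd := hφ.deriv p hp.1.1
  have hB := fun s (h : s ∈ Icc 0 τ) => hs.bd hm (hK s).1 (hb s h).1 (hb s h).2
  have cv : Continuous fun s => vv m (φ (τ - s) p) := (continuous_iff_continuousAt.2 fun s =>
    (cvv hm (hK s).1 (hd s)).continuousAt).comp (continuous_const.sub continuous_id)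
  obtain ⟨s0, a1, a2, a3⟩ := first_fail (P := fun s => √(UU m α) / 2 < vv m (φ (τ - s) p) ∧ s < τ)
    (fun s _ hs => (continuousAt_const.eventually_lt cv.continuousAt hs.1).and (Iio_mem_nhds hs.2))
    ⟨τ, hτ, fun h => lt_irrefl _ h.2⟩
  have a4 : s0 ≤ τ := not_lt.1 fun h => lt_irrefl _ (a3 τ ⟨hτ, h⟩).2
  have a5 : ∀ s ∈ Icc (τ - s0) τ, √(UU m α) / 2 ≤ vv m (φ s p) := fun s hs => by
    rcases hs.1.eq_or_lt with h | h
    · rcases a1.eq_or_lt with h' | h'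
      · rw [← h, ← h', sub_zero]
        refine le_of_sq_le_sq ?_ h1.le
        nlinarith [(hB τ ⟨hτ, le_rfl⟩).1]
      · rw [← h]
        exact neg_le_neg_iff.1 (closure_le (f := fun s => -vv m (φ (τ - s) p)) h'
          cv.continuousAt.neg fun s hs => neg_le_neg (a3 s hs).1.le)
    · simpa using (a3 (τ - s) ⟨by linarith [hs.2], by linarith⟩).1.le
  refine ⟨τ - s0, ⟨by linarith, by linarith⟩, a5, ?_⟩
  rcases a4.eq_or_lt with h | h
  · left; linarith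
  right
  have hI : ∀ s ∈ Icc (τ - s0) τ, s ∈ Icc 0 τ := fun s hs => ⟨by linarith [hs.1], hs.2⟩
  have ht : τ - s0 ≤ τ := by linarith
  have b1 : vv m (φ (τ - s0) p) = √(UU m α) / 2 :=
    le_antisymm (not_lt.1 fun h' => a2 ⟨h', h⟩) (a5 _ ⟨le_rfl, ht⟩)
  have b2 : mm m (φ (τ - s0) p) ≤ mm m (φ τ p) := mono_ex (f := fun s => mm m (φ s p)) ht
    fun s hs => ⟨_, cmm hm (hK s).1 (hd s), mul_nonneg (mul_nonneg (gm_nonneg hm (hK s).1.1)
      (by linarith [a5 s hs])) (hK s).2.1.le⟩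
  have b3 := gron (f := fun s => om m (φ s p) ^ 2) (c := -(2 * √(UU m α))) ht
    (hd_prim hφ (fun _ => cAt_gm hm) hp.1.1) fun s hs => ⟨_, (com hm (hK s).1 (hd s)).fun_pow 2, by
      have b4 : vv m (φ s p) ≤ 2 * √(UU m α) := abs_le_of_sq_le_sq' (by
        nlinarith [(hB s (hI s hs)).2, sq_nonneg (om m (φ s p)), (hK s).2.1]) (by positivity) |>.2
      simp only [Nat.cast_ofNat, Nat.add_one_sub_one, pow_one]
      nlinarith [mul_nonneg (mul_nonneg (gm_nonneg hm (hK s).1.1) (sq_nonneg (om m (φ s p))))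
        (sub_nonneg.2 b4)]⟩
  have b4 : UU m α / 2 ≤ om m (φ (τ - s0) p) ^ 2 := by
    have := (hB _ (hI _ ⟨le_rfl, ht⟩)).1
    rw [b1] at this
    nlinarith
  have b5 := (mul_le_mul_of_nonneg_right b4 (Real.exp_pos _).le).trans (b3.trans
    (h3.trans (show _ ≤ UU m α / 2 * Real.exp (-(2 * √(UU m α)) * D) by linarith)))
  have b6 := Real.exp_le_exp.1 (le_of_mul_le_mul_left b5 (half_pos hU))
  nlinarith

/-- The existence and continuity of the stopping time. -/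
lemma stop0 (hm : ∀ k, 0 < m k) (hφ : IsFlow (YY m) Dom φ) (hf : Frame m α β)
    (hc : Cone m α β Vt nt e ρ κ C) (hs : Small m α β e) {η v0 : ℝ} (hη : 0 < η)
    (hηe : C * η < κ / C * e) (hv0 : 0 < v0) {X : Type*} [TopologicalSpace X] {P : X → St}
    (hP : Continuous P) {z0 : ℂ} (hz0 : z0 ≠ 0) (h0 : ∀ x, P x ∈ Kep m e ∧ P x ∈ Loc m α ∧
      nz m α β (P x) ≤ e ∧ κ / C * nt (P x) ≤ Vt (P x) ∧ Vt (P x) < η ∧
      zz m (P x) / z0 ∈ slitPlane) :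
    ∃ τ : X → ℝ, Continuous τ ∧ (∀ x, 0 ≤ τ x) ∧ ∃ S : Set X, IsClosed S ∧ ∀ x,
      (∀ t ∈ Icc 0 (τ x), φ t (P x) ∈ Loc m α ∧ nz m α β (φ t (P x)) ≤ e) ∧
      Vt (φ (τ x) (P x)) ≤ η ∧ (x ∈ S ∨ Vt (φ (τ x) (P x)) = η) ∧ (v0 ≤ Vt (P x) → x ∉ S) ∧
      (x ∈ S → 0 < vv m (φ (τ x) (P x)) ∧
        om m (φ (τ x) (P x)) ^ 2 = 2 * mm m (φ (τ x) (P x))) := by
  obtain ⟨δ, c, C', d0, c0, C0, hph⟩ := phase_bd hm hf
  have ε0 := div_pos hc.k0 hc.c0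
  have hD : ∀ x, P x ∈ Dom := fun x => (h0 x).1.1.1
  have hK := fun x => flow_Kep hm hφ (h0 x).1
  have hd := fun x => hφ.deriv _ (hD x)
  have hA := fun x => hd_prim hφ (fun _ => cAt_gm hm) (hD x)
  obtain ⟨k, hk⟩ := exists_nat_gt ((2 * Real.pi + C' * (η / v0 / (κ / C))) / (2 * Real.pi))
  rw [div_lt_iff₀ Real.two_pi_pos] at hk
  have hk0 : 0 < C' * (η / v0 / (κ / C)) := by positivity
  obtain ⟨θ, cθ, hθ⟩ : ∃ θ : X → ℝ, Continuous θ ∧ ∀ x, θ x ≤ 2 * Real.pi ∧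
      ∃ r : ℝ, 0 < r ∧ zz m (P x) = r * exp (θ x * I) := by
    refine ⟨fun x => arg (zz m (P x) / z0) + arg z0, Continuous.add (continuous_iff_continuousAt.2
      fun x => ContinuousAt.comp (f := fun x => zz m (P x) / z0) (continuousAt_arg
        (h0 x).2.2.2.2.2) (((cAt_zz hm (hD x)).comp hP.continuousAt).div_const _)) continuous_const,
      fun x => ⟨by linarith [arg_le_pi (zz m (P x) / z0), arg_le_pi z0],
        ‖zz m (P x) / z0‖ * ‖z0‖, mul_pos (norm_pos_iff.2 (slitPlane_ne_zero (h0 x).2.2.2.2.2))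
          (norm_pos_iff.2 hz0), ?_⟩⟩
    push_cast
    rw [add_mul, exp_add, mul_mul_mul_comm, norm_mul_exp_arg_mul_I, norm_mul_exp_arg_mul_I,
      div_mul_cancel₀ _ hz0]
  obtain ⟨Θ, hΘ⟩ : ∃ Θ : X × ℝ → ℝ, Θ = fun y => θ y.1 + (prim (fz m δ) φ (P y.1) y.2).im :=
    ⟨_, rfl⟩
  have cΘ : Continuous Θ := hΘ ▸ (cθ.comp continuous_fst).add
    (continuous_im.comp (cont_prim hφ (cAt_fz hm d0) hP hD))
  have dΘ : ∀ x t, HasDerivAt (fun t => Θ (x, t)) (fz m δ (φ t (P x))).im t := fun x t =>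
    hΘ ▸ (hd_im (hd_prim hφ (cAt_fz hm d0) (hD x) t)).const_add (θ x)
  have Θ0 : ∀ x, Θ (x, 0) ≤ 2 * Real.pi := fun x => by
    simpa only [hΘ, prim_zero, zero_im, add_zero] using (hθ x).1
  have cφ : ∀ y : X × ℝ, ContinuousAt (fun y : X × ℝ => φ y.2 (P y.1)) y := fun y =>
    hφ.comp_contAt continuousAt_snd (hP.comp continuous_fst).continuousAt (hD _)
  have cV : ∀ y : X × ℝ, φ y.2 (P y.1) ∈ Loc m α →
      ContinuousAt (fun y : X × ℝ => Vt (φ y.2 (P y.1))) y := fun y h =>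
    ContinuousAt.comp (g := Vt) (hc.cont _ (hK _ _) h) (cφ y)
  let O : Set (X × ℝ) := {y | φ y.2 (P y.1) ∈ Loc m α ∧ nz m α β (φ y.2 (P y.1)) < e ∧
    Θ y < k * (2 * Real.pi) ∧ Vt (φ y.2 (P y.1)) < η}
  let O' : Set (X × ℝ) := {y | φ y.2 (P y.1) ∈ Loc m α ∧
    (k * (2 * Real.pi) < Θ y ∨ η < Vt (φ y.2 (P y.1)))}
  have oO : ∀ y ∈ O, O ∈ 𝓝 y := fun y hy => ((cφ y).eventually (isOpen_Loc.eventually_mem hy.1)).and
    (((ContinuousAt.comp (g := nz m α β) (f := fun y : X × ℝ => φ y.2 (P y.1)) (cAt_nz hy.1)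
      (cφ y)).eventually_lt continuousAt_const hy.2.1).and ((cΘ.continuousAt.eventually_lt continuousAt_const hy.2.2.1).and
      ((cV y hy.1).eventually_lt continuousAt_const hy.2.2.2)))
  have oO' : ∀ y ∈ O', O' ∈ 𝓝 y := fun y hy =>
    ((cφ y).eventually (isOpen_Loc.eventually_mem hy.1)).and (hy.2.elim
      (fun h => (continuousAt_const.eventually_lt cΘ.continuousAt h).mono fun _ => Or.inl)
      fun h => (continuousAt_const.eventually_lt (cV y hy.1) h).mono fun _ => Or.inr)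
  have nzlt : ∀ p ∈ Kep m e, p ∈ Loc m α → nz m α β p ≤ e → κ / C * nt p ≤ Vt p → Vt p ≤ η →
      nz m α β p < e := fun p h1 h2 h3 h4 h5 => by
    have := mul_le_mul_of_nonneg_left (hc.bd p h1 h2 h3).1 ε0.le
    refine lt_of_mul_lt_mul_left (a := κ / C) ?_ ε0.le
    nlinarith [mul_le_mul_of_nonneg_left (h4.trans h5) hc.c0.le]
  have O0 : ∀ x, (x, (0 : ℝ)) ∈ O := fun x => by
    obtain ⟨h1, h2, h3, h4, h5, -⟩ := h0 x
    simp only [O, mem_ofPred_eq, hφ.zero]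
    exact ⟨h2, nzlt _ h1 h2 h3 h4 h5.le, by linarith [Θ0 x], h5⟩
  have ex : ∀ x, ∃ τ, 0 ≤ τ ∧ (x, τ) ∉ O ∧ ∀ s ∈ Ico 0 τ, (x, s) ∈ O := fun x => by
    refine first_fail (P := fun t => (x, t) ∈ O) (fun t _ ht =>
      (Continuous.prodMk_right x).continuousAt.eventually (oO _ ht)) ?_
    by_contra h
    push Not at h
    have l0 := mul_pos c0 (Kep.pos (h0 x).1)
    have h1 := A_diverges hm hφ (h0 x).1 (F0 := 3 * UU m α) fun t ht => by
      linarith [(abs_le.1 (hs.ff _ (hK x t).1 (h t ht).1 (h t ht).2.1.le)).2]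
    obtain ⟨t, h2, h3⟩ := ((eventually_ge_atTop 0).and ((h1.const_mul_atTop l0).eventually_ge_atTop
      (k * (2 * Real.pi) - Θ (x, 0)))).exists
    have h4 := mono_ex (f := fun t => Θ (x, t) - c * (om m (P x) ^ 2 * mm m (P x))
      * prim (gm m) φ (P x) t) h2 fun s hs' => ⟨_, (dΘ x s).sub ((hA x s).const_mul _), by
        have := (hph e hs _ (hK x s) (h s hs'.1).1 (h s hs'.1).2.1.le).2.1
        rw [flow_inv hm hφ (h0 x).1.1] at this
        linarith⟩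
    rw [prim_zero] at h4
    linarith [(h t h2).2.2.1]
  choose τ τ0 τ1 τ2 using ex
  have τp : ∀ x, 0 < τ x := fun x => lt_of_le_of_ne (τ0 x) fun h => τ1 x (h ▸ O0 x)
  have hb : ∀ x, ∀ t ∈ Icc 0 (τ x), φ t (P x) ∈ Loc m α ∧ nz m α β (φ t (P x)) ≤ e :=
    fun x t ht => ht.2.eq_or_lt.elim (fun h => h ▸ box_end hm hφ hf hs.good (h0 x).1.1 (τp x)
      fun s hs => ⟨(τ2 x s hs).1, (τ2 x s hs).2.1.le⟩)
      fun h => ⟨(τ2 x t ⟨ht.1, h⟩).1, (τ2 x t ⟨ht.1, h⟩).2.1.le⟩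
  have he := fun x => hb x _ ⟨τ0 x, le_rfl⟩
  have ho := fun x => hc.orbit hm hφ (h0 x).1 (hb x) (h0 x).2.2.2.1 le_rfl (τ0 x) le_rfl
  have V1 : ∀ x, Vt (φ (τ x) (P x)) ≤ η := fun x =>
    closure_le (f := fun t => Vt (φ t (P x))) (τp x) (ContinuousAt.comp (g := Vt)
      (hc.cont _ (hK _ _) (he x).1) (hd x _).continuousAt) fun s hs => (τ2 x s hs).2.2.2.le
  have Θ1 : ∀ x, Θ (x, τ x) ≤ k * (2 * Real.pi) := fun x =>
    closure_le (f := fun t => Θ (x, t)) (τp x) (dΘ x _).continuousAt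
      fun s hs => (τ2 x s hs).2.2.1.le
  have cov : ∀ x, Θ (x, τ x) = k * (2 * Real.pi) ∨ Vt (φ (τ x) (P x)) = η := fun x => by
    by_contra h
    push Not at h
    exact τ1 x ⟨(he x).1, nzlt _ (hK _ _) (he x).1 (he x).2 (ho x).1 (V1 x),
      lt_of_le_of_ne (Θ1 x) h.1, lt_of_le_of_ne (V1 x) h.2⟩
  have cτ : Continuous τ := by
    refine exit_continuous (O' := O') (fun x t ht => oO _ (τ2 x t ht)) τ0 τ1 (fun x => ?_)
      (disjoint_left.2 fun y h1 h2 => h2.2.elim (lt_asymm h1.2.2.1) (lt_asymm h1.2.2.2))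
    have g0 := gm_pos hm (hK x (τ x)).1.1 (he x).1.1
    have h1 : ∀ᶠ t in 𝓝[>] τ x, k * (2 * Real.pi) < Θ (x, t) ∨ η < Vt (φ t (P x)) := by
      rcases cov x with h | h
      · exact (ev_gt (dΘ x (τ x)) ((mul_pos g0 (mul_pos c0 (Kep.pos (hK x _)))).trans_le
          (hph e hs _ (hK x _) (he x).1 (he x).2).2.1)).mono fun t ht => Or.inl (h ▸ ht)
      · obtain ⟨d, d', b1, -, b3, -⟩ := hc.der (fun s => φ s (P x)) (τ x) (hK x _) (he x).1
          (he x).2 (hd x _)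
        refine (ev_gt b1 (lt_of_lt_of_le (mul_pos g0 ?_) b3)).mono fun t ht => Or.inr (h ▸ ht)
        have b4 := (hc.bd _ (hK x _) (he x).1 (he x).2).2.2
        rw [h] at b4 ⊢
        exact add_pos_of_nonneg_of_pos (mul_nonneg hc.r0 hη.le)
          (mul_pos hc.k0 (pos_of_mul_pos_right (hη.trans_le b4) hc.c0.le))
    filter_upwards [h1, nhdsWithin_le_nhds ((hd x (τ x)).continuousAt.eventually
      (isOpen_Loc.eventually_mem (he x).1))] with t h2 h3 using oO' (x, t) ⟨h3, h2⟩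
  refine ⟨τ, cτ, τ0, {x | Θ (x, τ x) = k * (2 * Real.pi)}, isClosed_eq
    (cΘ.comp (continuous_id.prodMk cτ)) continuous_const, fun x =>
      ⟨hb x, V1 x, cov x, fun h h' => ?_, fun h => ?_⟩⟩
  · have h1 := (ho x).2.1
    rw [hφ.zero, prim_zero, sub_zero] at h1
    have h2 := mono_ex (f := fun t => C' * prim (gm m) φ (P x) t - Θ (x, t)) (τ0 x) fun s hs' =>
      ⟨_, ((hA x s).const_mul _).sub (dΘ x s), by
        linarith [(hph e hs _ (hK x s) (hb x s hs').1 (hb x s hs').2).2.2]⟩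
    have h3 : prim (gm m) φ (P x) (τ x) ≤ η / v0 / (κ / C) := by
      rw [le_div_iff₀' ε0, le_div_iff₀' hv0]
      refine le_trans (mul_le_mul h ?_ ?_ (hv0.le.trans h)) (h1.trans (V1 x))
      · linarith [Real.add_one_le_exp (κ / C * prim (gm m) φ (P x) (τ x))]
      · simpa only [prim_zero] using mul_nonneg ε0.le
          ((le_of_eq prim_zero.symm).trans (A_mono hm hφ (hD x) (τ0 x)))
    rw [prim_zero, show Θ (x, τ x) = _ from h'] at h2
    linarith [mul_le_mul_of_nonneg_left h3 C0.le, Θ0 x]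
  · have h1 := zz_flow hm hφ (h0 x).1.1 d0 (τ0 x) fun s hs' =>
      (hph e hs _ (hK x s) (hb x s hs').1 (hb x s hs').2).1
    obtain ⟨r, r0, hr⟩ := (hθ x).2
    have h2 : θ x + (prim (fz m δ) φ (P x) (τ x)).im = k * (2 * Real.pi) := by
      simpa only [hΘ, mem_ofPred_eq] using h
    have h3 : zz m (φ (τ x) (P x)) = ((r * Real.exp (prim (fz m δ) φ (P x) (τ x)).re : ℝ) : ℂ) := by
      have h4 := exp_nat_mul_two_pi_mul_I k
      rw [show (k : ℂ) * (2 * Real.pi * I) = ((k * (2 * Real.pi) : ℝ) : ℂ) * I by push_cast; ring,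
        ← h2, ofReal_add, add_mul, exp_add] at h4
      rw [h1, hr, exp_eq_exp_re_mul_sin_add_cos (prim _ _ _ _), ← exp_mul_I]
      push_cast
      linear_combination r * exp (prim (fz m δ) φ (P x) (τ x)).re * h4
    have h4 := congrArg re h3
    have h5 := congrArg im h3
    simp only [zz, add_re, add_im, mul_re, mul_im, ofReal_re, ofReal_im, I_re, I_im] at h4 h5
    have h6 := mul_pos r0 (Real.exp_pos (prim (fz m δ) φ (P x) (τ x)).re)
    constructor <;> linarith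

theorem stop (hm : ∀ k, 0 < m k) (hφ : IsFlow (YY m) Dom φ) (hf : Frame m α β)
    (hc : Cone m α β Vt nt e ρ κ C) (hs : Small m α β e) {η κ' : ℝ} (hη : 0 < η)
    (hηe : C * η < κ / C * e) (hκ : 0 < κ') (D : ℝ) : ∃ lam η1 : ℝ, 0 < lam ∧ 0 < η1 ∧
    ∀ v0 : ℝ, 0 < v0 → ∀ (X : Type) [TopologicalSpace X] (P : X → St), Continuous P →
    ∀ z0 : ℂ, z0 ≠ 0 → (∀ x, P x ∈ Kep m lam ∧ P x ∈ Loc m α ∧ nz m α β (P x) ≤ e ∧
      κ / C * nt (P x) ≤ Vt (P x) ∧ Vt (P x) ≤ η1 ∧ zz m (P x) / z0 ∈ slitPlane) →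
    ∃ τ : X → ℝ, Continuous τ ∧ (∀ x, 0 ≤ τ x) ∧ ∃ S S' : Set X, IsClosed S ∧ IsClosed S' ∧ ∀ x,
      (∀ t ∈ Icc 0 (τ x), φ t (P x) ∈ Kep m e ∧ φ t (P x) ∈ Loc m α ∧ nz m α β (φ t (P x)) ≤ e ∧
        κ / C * nt (φ t (P x)) ≤ Vt (φ t (P x)) ∧ Vt (P x) ≤ Vt (φ t (P x))) ∧
      (x ∈ S ∨ x ∈ S') ∧ (v0 ≤ Vt (P x) → x ∈ S') ∧ (nz m α β (P x) = 0 → x ∉ S') ∧
      (x ∈ S → x ∈ S' → Vt (φ (τ x) (P x)) = η ∧ 0 < vv m (φ (τ x) (P x)) ∧
        mm m (φ (τ x) (P x)) ≤ κ' ∧ om m (φ (τ x) (P x)) ^ 2 ≤ κ' ∧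
        2 * UU m α - κ' ≤ FF m (φ (τ x) (P x)) ∧ ∃ t ∈ Icc 0 (τ x),
          (∀ s ∈ Icc t (τ x), √(UU m α) / 2 ≤ vv m (φ s (P x))) ∧
          D ≤ prim (gm m) φ (P x) (τ x) - prim (gm m) φ (P x) t) := by
  have c0 := hc.c0
  have ε0 := div_pos hc.k0 c0
  have hU := Real.sqrt_pos.2 (UU_pos hm hf.ne)
  obtain ⟨e1, h1, e0⟩ := ((ev_FF hm hf hκ).and self_mem_nhdsWithin).exists
  have e0' : 0 < e1 := e0
  obtain ⟨D', D1, D2⟩ : ∃ D', D ≤ D' ∧ C * η ≤ κ / C * e1 * (κ / C * D') :=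
    ⟨max D (C * η / (κ / C * e1 * (κ / C))), le_max_left _ _, by
      rw [← mul_assoc, ← div_le_iff₀' (by positivity)]; exact le_max_right _ _⟩
  obtain ⟨μ0, μp, hμ⟩ := last_leg hm hφ hf hs D'
  obtain ⟨μ, μ1, μ2, μ3⟩ : ∃ μ, 0 < μ ∧ μ ≤ μ0 ∧ 2 * μ ≤ κ' :=
    ⟨min μ0 (κ' / 2), by positivity, min_le_left _ _, by linarith [min_le_right μ0 (κ' / 2)]⟩
  refine ⟨min e (2 * μ ^ 2), min (η / 2) (κ / C * η / (C * Real.exp (C * D'))),
    lt_min hs.good.1 (by positivity), by positivity, fun v0 hv0 X _ P hP z0 hz0 h0 => ?_⟩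
  have h0' := fun x => Kep.mono (h0 x).1 (min_le_left _ _)
  obtain ⟨τ, cτ, τ0, S, cS, h⟩ := stop0 hm hφ hf hc hs hη hηe hv0 hP hz0 fun x =>
    ⟨h0' x, (h0 x).2.1, (h0 x).2.2.1, (h0 x).2.2.2.1,
      ((h0 x).2.2.2.2.1.trans (min_le_left _ _)).trans_lt (half_lt_self hη), (h0 x).2.2.2.2.2⟩
  have hK := fun x => flow_Kep hm hφ (h0' x)
  have he := fun x => (h x).1 _ ⟨τ0 x, le_rfl⟩
  refine ⟨τ, cτ, τ0, S, {x | Vt (φ (τ x) (P x)) = η}, cS, isClosed_eq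
    (continuous_iff_continuousAt.2 fun x => ContinuousAt.comp (g := Vt)
      (f := fun x => φ (τ x) (P x)) (hc.cont _ (hK x _) (he x).1)
      (hφ.comp_contAt cτ.continuousAt hP.continuousAt (h0' x).1.1)) continuous_const, fun x => ?_⟩
  obtain ⟨a1, a2, a3, a4, a5⟩ := h x
  have ho := fun s t => hc.orbit hm hφ (h0' x) a1 (h0 x).2.2.2.1 (s := s) (t := t)
  have hn := fun t ht => hc.nt_nonneg (hK x t) (a1 t ht).1 (a1 t ht).2
  have n0 := hc.nt_nonneg (h0' x) (h0 x).2.1 (h0 x).2.2.1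
  have b1 := (hc.bd _ (hK x _) (he x).1 (he x).2).2.2.trans
    (mul_le_mul_of_nonneg_left (ho 0 _ le_rfl (τ0 x) le_rfl).2.2 c0.le)
  rw [hφ.zero] at b1
  refine ⟨fun t ht => ⟨hK x t, (a1 t ht).1, (a1 t ht).2, (ho 0 t le_rfl ht.1 ht.2).1, ?_⟩, a3,
    fun h => a3.resolve_left (a4 h), fun h h' => ?_, fun h h' => ?_⟩
  · refine le_trans ?_ (ho 0 t le_rfl ht.1 ht.2).2.1
    rw [hφ.zero]
    exact le_mul_of_one_le_right ((mul_nonneg ε0.le n0).trans (h0 x).2.2.2.1) (Real.one_le_exp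
      (mul_nonneg ε0.le (sub_nonneg.2 (A_mono hm hφ (h0' x).1.1 ht.1))))
  · have b2 := (hc.bd _ (h0' x) (h0 x).2.1 (h0 x).2.2.1).2.1
    rw [h, mul_zero] at b2
    rw [le_antisymm b2 n0, show Vt _ = η from h'] at b1
    linarith
  obtain ⟨b2, b3⟩ := a5 h
  have b4 : mm m (φ (τ x) (P x)) ≤ μ := by
    have := (flow_Kep hm hφ (h0 x).1 (τ x)).2.2.2.trans (min_le_right _ _)
    rw [b3] at this
    exact le_of_sq_le_sq (by linarith) μ1.le
  obtain ⟨t, ht, b5, b6⟩ := hμ _ (h0' x) _ (τ0 x) a1 b2 (b4.trans μ2) (by linarith)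
  have b7 : D' ≤ prim (gm m) φ (P x) (τ x) - prim (gm m) φ (P x) t := by
    refine b6.elim (fun h0t => ?_) id
    rw [show Vt _ = η from h'] at b1
    have b7 := (h0 x).2.2.2.1.trans ((h0 x).2.2.2.2.1.trans (min_le_right _ _))
    rw [le_div_iff₀ (by positivity), mul_assoc] at b7
    have b8 := (le_of_mul_le_mul_left b7 ε0).trans b1
    rcases n0.eq_or_lt with h9 | h9
    · rw [← h9] at b1; linarith
    rw [mul_left_comm] at b8
    rw [h0t]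
    exact le_of_mul_le_mul_left (Real.exp_le_exp.1
      (le_of_mul_le_mul_left (le_of_mul_le_mul_left b8 c0) h9)) c0
  refine ⟨h', b2, by linarith, by linarith, ?_, t, ht, b5, D1.trans b7⟩
  have c1 := (ho t _ ht.1 ht.2 le_rfl).2.1
  have c2 := (ho 0 t le_rfl ht.1 ht.2).1
  have c3 := (hc.bd _ (hK x t) (a1 t ht).1 (a1 t ht).2).1
  have c4 : nz m α β (φ t (P x)) ≤ e1 := by
    rw [show Vt (φ (τ x) (P x)) = η from h'] at c1
    have c5 := Real.add_one_le_exp (κ / C * (prim (gm m) φ (P x) (τ x) - prim (gm m) φ (P x) t))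
    have c6 := mul_le_mul_of_nonneg_left b7 ε0.le
    have c7 : 0 < κ / C * D' := pos_of_mul_pos_right ((mul_pos c0 hη).trans_le D2) (by positivity)
    have c8 := mul_nonneg ε0.le (hn t ht)
    have c9 : κ / C * nt (φ t (P x)) * (κ / C * D') ≤ η :=
      (mul_le_mul c2 (by linarith) c7.le (c8.trans c2)).trans c1
    refine le_of_mul_le_mul_right (le_of_mul_le_mul_left ?_ ε0) c7
    nlinarith [mul_le_mul_of_nonneg_left c9 c0.le, mul_le_mul_of_nonneg_right c3 (mul_pos ε0 c7).le]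
  have c5 := mono_ex (f := fun s => FF m (φ s (P x))) ht.2 fun s hs' =>
    ⟨_, cFF' hm (hK x s).1 (a1 s ⟨ht.1.trans hs'.1, hs'.2⟩).1.1 (hφ.deriv _ (h0' x).1.1 s),
      mul_nonneg (mul_nonneg (gm_nonneg hm (hK x s).1.1) (by linarith [b5 s hs'])) (WW_nonneg hm)⟩
  linarith [(abs_le.1 (h1 _ (hK x t).1 (a1 t ht).1 c4)).1]

end Pool.Agent.Lib.MP_6e7c44_mp.Hg
end
end

-- part Pool.Agent.Lib.MP_6e7c44_mp.HCone
section

/-!
Linearisation of the shape dynamics, and the expanding cone around the equilateral motions.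
-/

set_option autoImplicit false

open Set Filter Topology Metric Complex ComplexConjugate

noncomputable section

namespace Pool.Agent.Lib.MP_6e7c44_mp.Hg

variable {m : Fin 3 → ℝ} {φ : ℝ → St → St} {p : St} {α β : Fin 3 → ℂ}

variable (m α β) in
def g1 : ℝ := ∑ k, nn m k * (‖α k‖⁻¹ + normSq (β k) / (2 * ‖α k‖ ^ 3))
variable (m α β) in
def g2 : ℂ := ∑ k, nn m k * (3 / 2 * (α k * conj (β k)) ^ 2 / ‖α k‖ ^ 5)

lemma cd_ff {E : Type*} [NormedAddCommGroup E] [NormedSpace ℝ E] {f : E → ℂ} {x : E}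
    (h : ContDiffAt ℝ 1 f x) (h0 : f x ≠ 0) : ContDiffAt ℝ 1 (fun y => ff (f y)) x :=
  (cd_ofReal (((h.norm ℝ h0).pow 3).inv (pow_ne_zero 3 (norm_ne_zero_iff.2 h0)))).mul h

lemma Gs_lin (hm : ∀ k, 0 < m k) (hf : Frame m α β) (hc : IsCC m α) {ε : ℝ} (hε : 0 < ε) :
    ∀ᶠ σ in 𝓝 (0 : ℂ), ‖Gs m α β σ - (g1 m α β * σ + g2 m α β * conj σ)‖ ≤ ε * ‖σ‖ := by
  have h0 : ∑ k, nn m k * (conj (β k) * ff (α k)) = 0 := by
    have h1 := ip_acc hm hf.sb α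
    have h2 := ip_lin (m := m) β α α (-UU m α) 0
    rw [funext hc, show (fun k => -(UU m α * α k)) = fun k => α k * -UU m α + α k * 0 from
      funext fun k => by ring, h2, hf.ba] at h1
    linear_combination h1
  have h1 : ContDiffAt ℝ 1 (Gs m α β) 0 := by
    unfold Gs
    refine ((cd_ofReal ((ContDiffAt.sqrt (by fun_prop) (by simp)).pow 3)).mul
      (ContDiffAt.sum fun k _ => contDiffAt_const.mul (ContDiffAt.mul (by fun_prop)
        (cd_ff (by fun_prop) (by simpa using hf.ne k))))).neg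
  have h2 := (h1.differentiableAt one_ne_zero).hasFDerivAt
  have h3 : ∀ σ, fderiv ℝ (Gs m α β) 0 σ = g1 m α β * σ + g2 m α β * conj σ := fun σ => by
    have l0 : HasDerivAt (fun t : ℝ => (t : ℂ) * σ) σ 0 := by
      simpa using (hasDerivAt_id (0 : ℝ)).ofReal_comp.mul_const σ
    have l1 : HasDerivAt (fun t : ℝ => Gs m α β (t * σ)) (fderiv ℝ (Gs m α β) 0 σ) 0 :=
      HasFDerivAt.comp_hasDerivAt (l := Gs m α β) (0 : ℝ) (by simpa using h2) l0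
    have n0 : ∀ k, α k + β k * ((0 : ℝ) * σ) ≠ 0 := fun k => by simpa using hf.ne k
    have l2 := fun k => (l0.const_mul (β k)).const_add (α k)
    have l3 := (((((hd_nsq l0).const_add 1).sqrt (by simp)).fun_pow 3).ofReal_comp.mul
      (HasDerivAt.fun_sum (u := Finset.univ) fun k _ => (((l0.const_mul (conj (α k))).const_sub
        (conj (β k))).mul ((((hd_norm (l2 k) (n0 k)).fun_pow 3).inv
          (pow_ne_zero 3 (norm_ne_zero_iff.2 (n0 k)))).ofReal_comp.mul (l2 k))).const_mul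
            (nn m k : ℂ))).neg
    rw [l1.unique l3]
    simp only [ofReal_zero, zero_mul, mul_zero, add_zero, map_zero, zero_re, zero_div, sub_zero,
      Real.sqrt_one, one_pow, ofReal_one, one_mul, zero_add, Pi.mul_apply, Pi.inv_apply, g1, g2,
      ofReal_sum, Finset.sum_mul, ← Finset.sum_add_distrib, ← Finset.sum_neg_distrib]
    refine Finset.sum_congr rfl fun k _ => ?_
    have a0 := ofReal_ne_zero.2 (norm_ne_zero_iff.2 (hf.ne k))
    have a1 : α k * conj (α k) = (‖α k‖ : ℂ) ^ 2 := by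
      rw [mul_conj, normSq_eq_norm_sq]; push_cast; rfl
    have hre : ∀ w : ℂ, ((w.re : ℝ) : ℂ) = (w + conj w) / 2 := fun w => by
      rw [add_conj]; push_cast; ring
    push_cast
    rw [hre, ← mul_conj]
    simp only [map_mul, conj_conj]
    field_simp
    linear_combination (nn m k * σ * (2 * ‖α k‖ ^ 2 + 3 * β k * conj (β k))) * a1
  have h4 : Gs m α β 0 = 0 := by simp [Gs, h0]
  simpa only [h3, h4, sub_zero] using h2.isLittleO.bound hε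

lemma cuu_lin (hm : ∀ k, 0 < m k) (hf : Frame m α β) (hc : IsCC m α) {ε : ℝ} (hε : 0 < ε) :
    ∀ᶠ e in 𝓝[>] (0 : ℝ), ∀ (γ : ℝ → St) (t : ℝ), γ t ∈ Man m → γ t ∈ Loc m α →
      nz m α β (γ t) ≤ e → HasDerivAt γ (YY m (γ t)) t → ∃ E, normSq E ≤ ε ^ 2 * nz m α β (γ t) ∧
      HasDerivAt (fun s => uu m α β (γ s)) (gm m (γ t) * (-(vv m (γ t) / 2 * uu m α β (γ t))
        - 2 * I * om m (γ t) * uu m α β (γ t) + (g1 m α β * sg m α β (γ t)
        + g2 m α β * conj (sg m α β (γ t))) + E)) t := by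
  filter_upwards [small_of_ev (Gs_lin hm hf hc (half_pos hε)), Ioc_mem_nhdsGT (half_pos hε)]
    with e h1 h2 γ t hp hl hz hd
  refine ⟨2 * conj (sg m α β (γ t)) * uu m α β (γ t) ^ 2 / (1 + normSq (sg m α β (γ t)) : ℝ)
    + (Gs m α β (sg m α β (γ t)) - (g1 m α β * sg m α β (γ t) + g2 m α β * conj (sg m α β (γ t)))),
    ?_, (cuu hm hf hp hl hd).congr_deriv (by ring)⟩
  have h3 := h1 _ (sg_le_nz.trans hz)
  simp only [nz, normSq_eq_norm_sq] at hz ⊢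
  generalize sg m α β (γ t) = σ at *
  generalize uu m α β (γ t) = u at *
  have h4 : ‖2 * conj σ * u ^ 2 / (1 + ‖σ‖ ^ 2 : ℝ)‖ ≤ ε / 2 * ‖u‖ := by
    rw [norm_div, norm_real, Real.norm_of_nonneg (by positivity)]
    refine (div_le_self (norm_nonneg _) (le_add_of_nonneg_right (sq_nonneg _))).trans ?_
    rw [norm_mul, norm_mul, norm_pow, norm_conj, Complex.norm_two, sq, ← mul_assoc]
    exact mul_le_mul_of_nonneg_right (by nlinarith [sq_nonneg (‖σ‖ - ‖u‖), h2.2]) (norm_nonneg _)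
  refine (pow_le_pow_left₀ (norm_nonneg _) ((norm_add_le _ _).trans (add_le_add h4 h3)) 2).trans ?_
  nlinarith [mul_nonneg (sq_nonneg ε) (sq_nonneg (‖σ‖ - ‖u‖)),
    mul_nonneg (sq_nonneg ε) (sq_nonneg ‖σ‖), mul_nonneg (sq_nonneg ε) (sq_nonneg ‖u‖)]

lemma re_le_mul (a b : ℂ) : |(conj a * b).re| ≤ ‖a‖ * ‖b‖ :=
  (abs_re_le_norm _).trans (by rw [norm_mul, norm_conj])

lemma cnz (hm : ∀ k, 0 < m k) (hf : Frame m α β) (hc : IsCC m α) : ∃ C, 0 ≤ C ∧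
    ∀ᶠ e in 𝓝[>] (0 : ℝ), ∀ (γ : ℝ → St) (t : ℝ), γ t ∈ Man m → γ t ∈ Loc m α → 0 < mm m (γ t) →
      nz m α β (γ t) ≤ e → HasDerivAt γ (YY m (γ t)) t → ∃ d,
      HasDerivAt (fun s => nz m α β (γ s)) d t ∧ d ≤ gm m (γ t) * (C * nz m α β (γ t)) := by
  have hU := UU_pos hm hf.ne
  refine ⟨4 + 3 * UU m α + |g1 m α β| + ‖g2 m α β‖, by positivity, ?_⟩
  filter_upwards [cuu_lin hm hf hc one_pos, ev_small hm hf] with e h1 h2 γ t hp hl hμ hz hd
  obtain ⟨E, h3, h4⟩ := h1 γ t hp hl hz hd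
  refine ⟨_, (hd_nsq (csg hm hp hl hd)).add (hd_nsq h4), ?_⟩
  have h5 := (h2.bd hm hp hl hz).2
  simp only [mul_left_comm (conj _ : ℂ) (gm m (γ t) : ℂ), re_ofReal_mul]
  rw [mul_left_comm, mul_left_comm 2, ← mul_add]
  refine mul_le_mul_of_nonneg_left ?_ (gm_nonneg hm hp.1)
  simp only [nz] at h3 ⊢
  generalize sg m α β (γ t) = σ at *
  generalize uu m α β (γ t) = u at *
  have a1 := (abs_le.1 (two_re_le σ u)).2
  have a2 := (abs_le.1 (two_re_le u E)).2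
  have a3 := (abs_le.1 (re_le_mul u (g1 m α β * σ))).2
  have a4 := (abs_le.1 (re_le_mul u (g2 m α β * conj σ))).2
  have a5 : (conj u * (-(vv m (γ t) / 2 * u) - 2 * I * om m (γ t) * u)).re
      = -(vv m (γ t) / 2 * normSq u) := by
    simp only [normSq_apply, mul_re, mul_im, sub_re, sub_im, neg_re, neg_im, conj_re, conj_im,
      ofReal_re, ofReal_im, div_ofNat_re, div_ofNat_im, re_ofNat, im_ofNat, I_re, I_im]
    ring
  have a6 : -vv m (γ t) ≤ 1 + 3 * UU m α := by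
    nlinarith [sq_nonneg (vv m (γ t) + 1), sq_nonneg (om m (γ t))]
  rw [norm_mul, norm_real, Real.norm_eq_abs] at a3
  rw [norm_mul, norm_conj] at a4
  simp only [mul_add (conj u), add_re, a5]
  simp only [normSq_eq_norm_sq] at *
  nlinarith [mul_nonneg (abs_nonneg (g1 m α β)) (sq_nonneg (‖σ‖ - ‖u‖)),
    mul_nonneg (norm_nonneg (g2 m α β)) (sq_nonneg (‖σ‖ - ‖u‖)), sq_nonneg ‖σ‖,
    mul_nonneg (sub_nonneg.2 a6) (sq_nonneg ‖u‖), mul_nonneg hU.le (sq_nonneg ‖σ‖)]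

lemma core {a b v o μ k ε M S T1 T2 : ℝ} (ha : 0 ≤ a) (hb : 0 ≤ b) (hab : a + b ≤ 1) (k0 : 0 ≤ k)
    (k1 : k ≤ 1 / 2) (hμ : 0 ≤ μ) (e0 : 0 ≤ ε) (e1 : ε ≤ 1) (h1 : (1 - a) * o ^ 2 ≤ ε ^ 2)
    (h2 : (1 - b) * μ ≤ ε) (hv : |v| ≤ M) (hS : 0 ≤ S) (t1 : |T1| ≤ k * S) (t2 : |T2| ≤ k * S) :
    ((1 / 2 - 2 * k ^ 2) * ((v ^ 2 + o ^ 2) / 2 + μ) - (3 + M) * ε) * S ≤
      (3 / 2 * ((v ^ 2 + o ^ 2) / 2 + μ) + (a + (1 - a - b) / 4) * (o ^ 2 / 2 - μ
        + (a + b) * v ^ 2 / 2) - a ^ 2 * v ^ 2 - o ^ 2 - a ^ 2 * k ^ 2 * (v ^ 2 + o ^ 2)) * S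
      + (3 * ((v ^ 2 + o ^ 2) / 2 + μ) + a * (o ^ 2 / 2 - μ + (a + b) * v ^ 2 / 2)
        - 2 * a ^ 2 * v ^ 2 - 2 * a * o ^ 2) * T1
      - a * v * o * ((a + b - 1) / 2 + 2 * (1 - a)) * T2 := by
  have a1 : 0 ≤ 1 - a := by linarith
  have a2 : 0 ≤ 1 - a ^ 2 := by nlinarith
  have a3 : 0 ≤ 1 - a - b := by linarith
  have a4 : 0 ≤ 1 / 2 - k := by linarith
  have c2 : 0 ≤ 3 * ((v ^ 2 + o ^ 2) / 2 + μ) + a * (o ^ 2 / 2 - μ + (a + b) * v ^ 2 / 2)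
      - 2 * a ^ 2 * v ^ 2 - 2 * a * o ^ 2 := by
    linarith [mul_nonneg a2 (sq_nonneg v), mul_nonneg (mul_nonneg ha hb) (sq_nonneg v),
      mul_nonneg a1 (sq_nonneg o), mul_nonneg a1 hμ]
  have c3 := mul_le_mul_of_nonneg_left (abs_le.1 t1).1 c2
  have c4 : a * v * o * ((a + b - 1) / 2 + 2 * (1 - a)) * T2 ≤ M * ε * S := by
    have d1 : |(1 - a) * o| ≤ ε := abs_le_of_sq_le_sq (by
      linarith [mul_nonneg (mul_nonneg ha a1) (sq_nonneg o)]) e0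
    have d2 : |a * ((a + b - 1) / 2 + 2 * (1 - a))| ≤ 2 * (1 - a) := by
      rw [abs_of_nonneg (mul_nonneg ha (by linarith))]
      linarith [mul_nonneg ha a3, sq_nonneg (1 - a)]
    rw [abs_mul, abs_of_nonneg a1] at d1
    refine (le_abs_self _).trans ?_
    rw [show a * v * o * ((a + b - 1) / 2 + 2 * (1 - a)) * T2
      = v * (a * ((a + b - 1) / 2 + 2 * (1 - a)) * o * T2) by ring, abs_mul, abs_mul, abs_mul,
      mul_assoc M]
    refine mul_le_mul hv ?_ (by positivity) ((abs_nonneg _).trans hv)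
    calc _ ≤ 2 * (1 - a) * |o| * (1 / 2 * S) := by
          gcongr
          exact t2.trans (by gcongr)
      _ ≤ _ := by linarith [mul_le_mul_of_nonneg_right d1 hS]
  have x1 : 0 ≤ (a + b) * (1 - a - b) / 8 + a * b / 4
      + (1 / 2 - k) * ((1 - a ^ 2) * (1 - k) + a * b / 2) := by
    have : 0 ≤ 1 - k := by linarith
    positivity
  have x2 : 0 ≤ (1 - a - b) / 8 + (1 - a) * (3 / 2 * (1 / 2 - k)) + k ^ 2 * (1 - a ^ 2) := by
    positivity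
  have x3 : 0 ≤ (1 - k) * (2 * (1 / 2 - k)) + a * k + 3 / 4 * (1 - a - b) := by
    have : 0 ≤ 1 - k := by linarith
    positivity
  have c5 : 5 / 4 * ((1 - a) * o ^ 2) + (1 - b) * μ ≤ 3 * ε := by
    linarith [mul_le_mul_of_nonneg_left e1 e0]
  linarith [mul_nonneg (add_nonneg (add_nonneg (mul_nonneg x1 (sq_nonneg v))
    (mul_nonneg x2 (sq_nonneg o))) (mul_nonneg x3 hμ)) hS, mul_le_mul_of_nonneg_right c5 hS]

/-- The quadratic form that defines the cone. -/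
def Vc (κ : ℂ) (a b v o : ℝ) (σ u : ℂ) : ℝ := (conj σ * u).re + (a + (1 - a - b) / 4) * v * normSq σ
  + a * (κ * (v + I * o) * conj σ ^ 2).re

lemma Vc_bd {κ σ u : ℂ} {a b v o M : ℝ} (hκ : ‖κ‖ ≤ 1 / 2) (ha : 0 ≤ a) (hb : 0 ≤ b)
    (hab : a + b ≤ 1) (hM : 0 ≤ M) (h : v ^ 2 + o ^ 2 ≤ M ^ 2) :
    |Vc κ a b v o σ u - (conj σ * u).re| ≤ 2 * M * normSq σ := by
  have h1 : ‖(v + I * o : ℂ)‖ ≤ M := le_of_sq_le_sq (by
    rw [← normSq_eq_norm_sq, mul_comm, normSq_add_mul_I]; exact h) hM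
  have h2 : |v| ≤ M := abs_le_of_sq_le_sq (by linarith [sq_nonneg o]) hM
  have h3 : |(κ * (v + I * o) * conj σ ^ 2).re| ≤ 1 / 2 * M * normSq σ := by
    refine (abs_re_le_norm _).trans ?_
    rw [norm_mul, norm_mul, norm_pow, norm_conj, normSq_eq_norm_sq]
    gcongr
  have h4 := normSq_nonneg σ
  rw [Vc, add_assoc, add_sub_cancel_left]
  refine (abs_add_le _ _).trans ?_
  rw [abs_mul, abs_mul, abs_mul a, abs_of_nonneg ha, abs_of_nonneg h4, abs_of_nonneg (by linarith)]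
  have h5 : (a + (1 - a - b) / 4) * |v| * normSq σ ≤ 1 * M * normSq σ := by
    gcongr; linarith
  have h6 := mul_le_mul (show a ≤ 1 by linarith) h3 (abs_nonneg _) one_pos.le
  linarith [mul_nonneg hM h4]

lemma cone_alg {κ : ℂ} {U M : ℝ} (hκ : ‖κ‖ < 1 / 2) (hU : 0 < U) (hM : 1 ≤ M) :
    ∃ ε κ1 : ℝ, 0 < ε ∧ ε ≤ 1 ∧ 0 < κ1 ∧ ∀ (a b v o μ W : ℝ) (σ u E : ℂ), 0 ≤ a → 0 ≤ b →
      a + b ≤ 1 → 0 ≤ μ → (1 - a) * o ^ 2 ≤ ε ^ 2 → (1 - b) * μ ≤ ε → v ^ 2 + o ^ 2 ≤ M ^ 2 →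
      0 ≤ W → |v ^ 2 + o ^ 2 + 2 * μ - 2 * U| ≤ ε → normSq E ≤ ε ^ 2 * (normSq σ + normSq u) →
      κ1 * (normSq σ + normSq u) ≤ normSq u + (conj σ * (-(v / 2 * u) - 2 * I * o * u
          + ((3 / 2 * U : ℝ) * σ + 3 * U * κ * conj σ) + E)).re
        + ((-(ε * v * (a * (1 - a))) + (ε * v * (a * (1 - a)) - ε * v * (b * (1 - b))) / 4) * v
          + (a + (1 - a - b) / 4) * (o ^ 2 / 2 - μ + W / 2)) * normSq σ
        + (a + (1 - a - b) / 4) * v * (2 * (conj σ * u).re)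
        - ε * v * (a * (1 - a)) * (κ * (v + I * o) * conj σ ^ 2).re
        + a * (κ * (((o ^ 2 / 2 - μ + W / 2 : ℝ) - I * (v / 2 * o)) * conj σ ^ 2
          + (v + I * o) * (2 * conj σ * conj u))).re
        + v / 2 * (a + b) * Vc κ a b v o σ u := by
  have k0 := norm_nonneg κ
  obtain ⟨c, hc, c0⟩ : ∃ c, c = (1 / 2 - 2 * ‖κ‖ ^ 2) * U ∧ 0 < c :=
    ⟨_, rfl, mul_pos (by nlinarith) hU⟩
  obtain ⟨κ1, k1, k2, k3⟩ : ∃ κ1 : ℝ, 0 < κ1 ∧ κ1 ≤ 1 / 4 ∧ κ1 * (6 * M ^ 2 + 1) ≤ c / 4 :=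
    ⟨min (1 / 4) (c / 4 / (6 * M ^ 2 + 1)), by positivity, min_le_left _ _,
      (le_div_iff₀ (by positivity)).1 (min_le_right _ _)⟩
  obtain ⟨ε, e0, e1, e2⟩ : ∃ ε : ℝ, 0 < ε ∧ ε ≤ κ1 ∧ ε * (7 + M + 2 * M ^ 2) ≤ c / 2 :=
    ⟨min κ1 (c / 2 / (7 + M + 2 * M ^ 2)), by positivity, min_le_left _ _,
      (le_div_iff₀ (by positivity)).1 (min_le_right _ _)⟩
  refine ⟨ε, κ1, e0, by linarith, k1, fun a b v o μ W σ u E ha hb hab hμ h1 h2 h3 h4 h5 h6 => ?_⟩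
  have S0 := normSq_nonneg σ
  have M0 : 0 ≤ M := by linarith
  have hv : |v| ≤ M := abs_le_of_sq_le_sq (by linarith [sq_nonneg o]) M0
  have hz : ‖(v + I * o : ℂ)‖ ≤ M := le_of_sq_le_sq (by
    rw [← normSq_eq_norm_sq, mul_comm, normSq_add_mul_I]; exact h3) M0
  have hT : ‖κ * conj σ ^ 2‖ = ‖κ‖ * normSq σ := by
    rw [norm_mul, norm_pow, norm_conj, normSq_eq_norm_sq]
  have t1 := (abs_re_le_norm (κ * conj σ ^ 2)).trans hT.le
  have t2 := (abs_im_le_norm (κ * conj σ ^ 2)).trans hT.le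
  have t4 : ‖κ‖ * normSq σ ≤ normSq σ / 2 := by linarith [mul_le_mul_of_nonneg_right hκ.le S0]
  have t3 := t1.trans t4
  have a1 : 0 ≤ 1 - a := by linarith
  have k4 : 0 ≤ 1 / 2 - 2 * ‖κ‖ ^ 2 := (pos_of_mul_pos_left (hc ▸ c0) hU.le).le
  have c1 := core ha hb hab k0 hκ.le hμ e0.le (by linarith) h1 h2 hv S0 t1 t2
  have c2 : normSq ((a * v + I * o) * σ + a * κ * (v + I * o) * conj σ) ≤ 3 * M ^ 2 * normSq σ := by
    have d1 : ‖(a * v + I * o : ℂ)‖ ≤ M := le_of_sq_le_sq (by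
      rw [← normSq_eq_norm_sq, mul_comm I, ← ofReal_mul, normSq_add_mul_I]
      linarith [mul_nonneg (mul_nonneg a1 (add_nonneg ha one_pos.le)) (sq_nonneg v)]) M0
    have d2 : ‖(a * v + I * o) * σ + a * κ * (v + I * o) * conj σ‖
        ≤ M * ‖σ‖ + 1 * (1 / 2) * M * ‖σ‖ := by
      refine (norm_add_le _ _).trans ?_
      rw [norm_mul, norm_mul, norm_mul, norm_mul, norm_conj, norm_real, Real.norm_of_nonneg ha]
      gcongr; linarith
    rw [normSq_eq_norm_sq, normSq_eq_norm_sq]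
    linarith [pow_le_pow_left₀ (norm_nonneg _) d2 2, sq_nonneg (M * ‖σ‖)]
  have c3 : -(ε * (normSq σ + normSq u)) ≤ (conj σ * E).re := by
    have d1 := (abs_le.1 (two_re_le (ε * σ) E)).1
    rw [map_mul, map_mul, conj_ofReal, normSq_ofReal, mul_assoc (ε : ℂ), re_ofReal_mul] at d1
    refine le_of_mul_le_mul_left ?_ e0
    linarith [mul_nonneg (sq_nonneg ε) (normSq_nonneg u)]
  have c4 : |ε * v * (a * (1 - a)) * (κ * (v + I * o) * conj σ ^ 2).re| ≤ ε * M ^ 2 * normSq σ := by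
    have d1 : |(κ * (v + I * o) * conj σ ^ 2).re| ≤ M * normSq σ := by
      refine (abs_re_le_norm _).trans ?_
      rw [mul_right_comm, norm_mul, hT, mul_comm]
      gcongr; linarith
    rw [abs_mul, abs_mul, abs_mul, abs_of_pos e0, abs_of_nonneg (mul_nonneg ha a1)]
    calc _ ≤ ε * M * 1 * (M * normSq σ) := by gcongr; linarith [sq_nonneg a]
      _ = _ := by ring
  have c5 : -(ε * M ^ 2 * normSq σ) ≤ (-(ε * v * (a * (1 - a)))
      + (ε * v * (a * (1 - a)) - ε * v * (b * (1 - b))) / 4) * v * normSq σ := by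
    rw [← neg_mul]
    refine mul_le_mul_of_nonneg_right ?_ S0
    have d1 : 3 / 4 * (a * (1 - a)) + b * (1 - b) / 4 ≤ 1 := by linarith [sq_nonneg a, sq_nonneg b]
    linarith [mul_le_mul_of_nonneg_left d1 (mul_nonneg e0.le (sq_nonneg v)),
      mul_le_mul_of_nonneg_left h3 e0.le, mul_nonneg e0.le (sq_nonneg o)]
  have c6 : 0 ≤ W / 2 * ((a + (1 - a - b) / 4) * normSq σ + a * (κ * conj σ ^ 2).re) := by
    refine mul_nonneg (by linarith) ?_
    linarith [mul_le_mul_of_nonneg_left (abs_le.1 t3).1 ha,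
      mul_nonneg (show 0 ≤ 1 - a - b by linarith) S0, mul_nonneg ha S0]
  have c7 : -(3 * ε * normSq σ) ≤ (U - ((v ^ 2 + o ^ 2) / 2 + μ))
      * (3 / 2 * normSq σ + 3 * (κ * conj σ ^ 2).re) := by
    rw [abs_le] at h5 t3
    linarith [mul_nonneg (show 0 ≤ U - ((v ^ 2 + o ^ 2) / 2 + μ) + ε by linarith)
      (show 0 ≤ 3 / 2 * normSq σ + 3 * (κ * conj σ ^ 2).re by linarith),
      mul_nonneg e0.le (show 0 ≤ normSq σ / 2 - (κ * conj σ ^ 2).re by linarith)]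
  have c8 : (c - ε) * normSq σ ≤ (1 / 2 - 2 * ‖κ‖ ^ 2) * ((v ^ 2 + o ^ 2) / 2 + μ) * normSq σ := by
    refine mul_le_mul_of_nonneg_right ?_ S0
    rw [abs_le] at h5
    linarith [mul_nonneg k4 (show 0 ≤ (v ^ 2 + o ^ 2) / 2 + μ - U + ε by linarith),
      mul_nonneg e0.le (sq_nonneg ‖κ‖)]
  rw [← normSq_eq_norm_sq] at c1 c8
  generalize hL : (a * v + I * o) * σ + a * κ * (v + I * o) * conj σ = L at c2
  have c9 : normSq u ≤ 2 * normSq (u + L) + 2 * normSq L := by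
    simp only [normSq_apply, add_re, add_im]
    linarith [sq_nonneg (u.re + 2 * L.re), sq_nonneg (u.im + 2 * L.im)]
  have c10 : κ1 * (normSq σ + normSq u) * 2 ≤ normSq (u + L) + c / 2 * normSq σ := by
    linarith [mul_le_mul_of_nonneg_left (c9.trans (add_le_add le_rfl
      (mul_le_mul_of_nonneg_left c2 two_pos.le))) k1.le, mul_le_mul_of_nonneg_right k3 S0,
      mul_le_mul_of_nonneg_right k2 (normSq_nonneg (u + L))]
  have c11 := mul_le_mul_of_nonneg_right e1 (add_nonneg S0 (normSq_nonneg u))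
  have c12 := mul_le_mul_of_nonneg_right e2 S0
  have c13 := (abs_le.1 c4).2
  refine le_trans (show _ ≤ normSq (u + L) + (conj σ * E).re
    + (-(ε * v * (a * (1 - a))) + (ε * v * (a * (1 - a)) - ε * v * (b * (1 - b))) / 4) * v * normSq σ
    - ε * v * (a * (1 - a)) * (κ * (v + I * o) * conj σ ^ 2).re
    + W / 2 * ((a + (1 - a - b) / 4) * normSq σ + a * (κ * conj σ ^ 2).re)
    + (U - ((v ^ 2 + o ^ 2) / 2 + μ)) * (3 / 2 * normSq σ + 3 * (κ * conj σ ^ 2).re)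
    + ((3 / 2 * ((v ^ 2 + o ^ 2) / 2 + μ) + (a + (1 - a - b) / 4) * (o ^ 2 / 2 - μ
        + (a + b) * v ^ 2 / 2) - a ^ 2 * v ^ 2 - o ^ 2 - a ^ 2 * normSq κ * (v ^ 2 + o ^ 2))
        * normSq σ + (3 * ((v ^ 2 + o ^ 2) / 2 + μ) + a * (o ^ 2 / 2 - μ + (a + b) * v ^ 2 / 2)
        - 2 * a ^ 2 * v ^ 2 - 2 * a * o ^ 2) * (κ * conj σ ^ 2).re
      - a * v * o * ((a + b - 1) / 2 + 2 * (1 - a)) * (κ * conj σ ^ 2).im) by linarith)
    (le_of_eq ?_)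
  rw [← hL]
  simp only [Vc, normSq_apply, sq, mul_re, mul_im, add_re, add_im, sub_re, sub_im, neg_re, neg_im,
    conj_re, conj_im, ofReal_re, ofReal_im, div_ofNat_re, div_ofNat_im, re_ofNat, im_ofNat, I_re,
    I_im]
  ring

def Aw (ε k x : ℝ) : ℝ := Real.exp (k + ε * Real.log x)
def aw (ε k x : ℝ) : ℝ := Aw ε k x / (1 + Aw ε k x)
def Wt (m : Fin 3 → ℝ) (ε k : ℝ) (p : St) : ℝ :=
  Real.exp ((Real.log (1 + Aw ε k (mm m p)) - Real.log (1 + Aw ε k (om m p ^ 2))) / (2 * ε))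

section weight
variable {ε k x y : ℝ}

lemma Aw_pos : 0 < 1 + Aw ε k x := add_pos one_pos (Real.exp_pos _)
lemma aw_nonneg : 0 ≤ aw ε k x := div_nonneg (Real.exp_pos _).le Aw_pos.le

lemma hd_aw {f : ℝ → ℝ} {g t : ℝ} (h : HasDerivAt f (g * f t) t) (h0 : f t ≠ 0) :
    HasDerivAt (fun s => aw ε k (f s)) (ε * g * (aw ε k (f t) * (1 - aw ε k (f t)))) t ∧
      HasDerivAt (fun s => Real.log (1 + Aw ε k (f s))) (ε * g * aw ε k (f t)) t := by
  have h1 : HasDerivAt (fun s => Aw ε k (f s)) (ε * g * Aw ε k (f t)) t :=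
    (((h.log h0).const_mul ε).const_add k).exp.congr_deriv (by rw [Aw]; field_simp)
  have h2 := (Aw_pos (ε := ε) (k := k) (x := f t)).ne'
  refine ⟨(h1.div (h1.const_add 1) h2).congr_deriv ?_, ((h1.const_add 1).log h2).congr_deriv ?_⟩
  · rw [aw]; field_simp
  · rw [aw]; field_simp

lemma cAt_aw {f : St → ℝ} (h : ContinuousAt f p) (h0 : f p ≠ 0) :
    ContinuousAt (fun p => aw ε k (f p)) p ∧
      ContinuousAt (fun p => Real.log (1 + Aw ε k (f p))) p := by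
  have h1 : ContinuousAt (fun p => Aw ε k (f p)) p := by
    unfold Aw; fun_prop (disch := assumption)
  exact ⟨h1.div (continuousAt_const.add h1) Aw_pos.ne', (continuousAt_const.add h1).log Aw_pos.ne'⟩

lemma aw_small {M : ℝ} (e0 : 0 < ε) (e1 : ε ≤ 1) (hx : 0 < x) (h : x ≤ M ^ 2)
    (hk : M ^ 2 ≤ Real.exp k * ε ^ 4) : (1 - aw ε k x) * x ≤ ε ^ 2 := by
  have h1 := Aw_pos (ε := ε) (k := k) (x := x)
  rw [show (1 - aw ε k x) * x = x / (1 + Aw ε k x) by rw [aw]; field_simp; ring, div_le_iff₀ h1]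
  have h2 : 0 < Aw ε k x := Real.exp_pos _
  rcases le_total x (ε ^ 2) with h3 | h3
  · nlinarith [sq_nonneg ε]
  have h4 : Real.log (ε ^ 2) ≤ ε * Real.log x := by
    have a1 := Real.log_le_log (pow_pos e0 2) h3
    have a2 := Real.log_nonpos (sq_nonneg ε) (pow_le_one₀ e0.le e1)
    nlinarith
  have h5 : Real.exp k * ε ^ 2 ≤ Aw ε k x := by
    rw [Aw, Real.exp_add]
    exact mul_le_mul_of_nonneg_left ((Real.exp_log (pow_pos e0 2)).ge.trans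
      (Real.exp_le_exp.2 h4)) (Real.exp_pos _).le
  nlinarith [mul_le_mul_of_nonneg_left h5 (sq_nonneg ε), sq_nonneg ε]

lemma aw_add (e0 : 0 < ε) (hx : 0 < x) (hy : 0 < y) (h : x * y ≤ Real.exp (-(2 * k / ε))) :
    aw ε k x + aw ε k y ≤ 1 := by
  have h1 : Aw ε k x * Aw ε k y ≤ 1 := by
    rw [Aw, Aw, ← Real.exp_add, Real.exp_le_one_iff]
    have := (Real.log_le_iff_le_exp (mul_pos hx hy)).2 h
    rw [Real.log_mul hx.ne' hy.ne', ← neg_div, le_div_iff₀ e0] at this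
    linarith
  rw [aw, aw, div_add_div _ _ Aw_pos.ne' Aw_pos.ne', div_le_one (mul_pos Aw_pos Aw_pos)]
  linarith

lemma log_bd (e0 : 0 < ε) (hx : 0 < x) (h : x ≤ y) :
    0 ≤ Real.log (1 + Aw ε k x) ∧ Real.log (1 + Aw ε k x) ≤ Real.log (1 + Aw ε k y) :=
  ⟨Real.log_nonneg (le_add_of_nonneg_right (Real.exp_pos _).le), Real.log_le_log Aw_pos (by
    unfold Aw; gcongr)⟩

end weight

lemma nsq_mul_le (σ u : ℂ) {c : ℝ} (hc : 0 < c) :
    (conj σ * u).re ≤ c / 2 * normSq u + normSq σ / (2 * c) := by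
  have := (abs_le.1 (two_re_le σ (c * u))).2
  rw [mul_left_comm (conj σ), re_ofReal_mul, map_mul, normSq_ofReal] at this
  refine le_of_mul_le_mul_left ?_ (mul_pos two_pos hc)
  rw [mul_add, mul_div_cancel₀ _ (mul_pos two_pos hc).ne']
  linarith

theorem cone_lag (hm : ∀ k, 0 < m k) (hf : Frame m α β) (hc : IsCC m α) {κ : ℂ} (hκ : ‖κ‖ < 1 / 2)
    (h1 : g1 m α β = 3 / 2 * UU m α) (h2 : g2 m α β = 3 * UU m α * κ) :
    ∃ (Vt nt : St → ℝ) (e κ1 C c N : ℝ), 0 < e ∧ 0 < c ∧ Cone m α β Vt nt e 0 κ1 C ∧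
      ∀ p ∈ Kep m e, p ∈ Loc m α → nz m α β p ≤ e →
        (κ1 / C * nt p ≤ Vt p → c * nz m α β p ≤ normSq (sg m α β p)) ∧
        (uu m α β p = N * sg m α β p → κ1 / C * nt p ≤ Vt p ∧ c * nz m α β p ≤ Vt p) := by
  have hU := UU_pos hm hf.ne
  obtain ⟨M, M1, M2⟩ : ∃ M : ℝ, 1 ≤ M ∧ 3 * UU m α ≤ M ^ 2 := ⟨1 + 3 * UU m α, by linarith, by nlinarith⟩
  obtain ⟨ε, κ1, e0, e1, k0, halg⟩ := cone_alg hκ hU M1
  obtain ⟨k, hk⟩ : ∃ k, M ^ 2 ≤ Real.exp k * ε ^ 4 := ⟨Real.log (M ^ 2 / ε ^ 4), by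
    rw [Real.exp_log (by positivity)]; exact le_of_eq (by field_simp)⟩
  obtain ⟨Cz, Cz0, hz⟩ := cnz hm hf hc
  obtain ⟨e, ⟨a1, a2, a3, a4⟩, a5⟩ := ((hz.and ((cuu_lin hm hf hc e0).and ((ev_small hm hf).and
    (ev_FF hm hf e0)))).and (Ioc_mem_nhdsGT (Real.exp_pos (-(2 * k / ε))))).exists
  obtain ⟨w, w0, hw⟩ : ∃ w : ℝ, 0 < w ∧ ∀ p : St, 0 < mm m p → 0 < om m p ^ 2 → mm m p ≤ M ^ 2 →
      om m p ^ 2 ≤ M ^ 2 → Wt m ε k p ≤ w ∧ 1 ≤ w * Wt m ε k p := by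
    refine ⟨Real.exp (Real.log (1 + Aw ε k (M ^ 2)) / (2 * ε)), Real.exp_pos _,
      fun p b1 b2 b3 b4 => ?_⟩
    have c1 := log_bd (k := k) e0 b1 b3
    have c2 := log_bd (k := k) e0 b2 b4
    rw [Wt, ← Real.exp_add, ← add_div]
    exact ⟨Real.exp_le_exp.2 (div_le_div_of_nonneg_right (by linarith) (by positivity)),
      Real.one_le_exp (div_nonneg (by linarith) (by positivity))⟩
  obtain ⟨C, C1, C2, C3, C4⟩ : ∃ C : ℝ, w ≤ C ∧ 1 + 2 * M ≤ C ∧ Cz + M ≤ C ∧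
      κ1 * (1 + (2 * M + 1) ^ 2) ≤ C := ⟨w + (1 + 2 * M) + (Cz + M) + κ1 * (1 + (2 * M + 1) ^ 2), by
    have : 0 ≤ κ1 * (1 + (2 * M + 1) ^ 2) := by positivity
    refine ⟨?_, ?_, ?_, ?_⟩ <;> linarith⟩
  have C0 := w0.trans_le C1
  have ε0 := div_pos k0 C0
  have W0 : ∀ p, 0 < Wt m ε k p := fun p => Real.exp_pos _
  have fact : ∀ p ∈ Kep m e, p ∈ Loc m α → nz m α β p ≤ e → 0 < om m p ^ 2 ∧
      vv m p ^ 2 + om m p ^ 2 ≤ M ^ 2 ∧ om m p ^ 2 ≤ M ^ 2 ∧ mm m p ≤ M ^ 2 ∧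
      aw ε k (om m p ^ 2) + aw ε k (mm m p) ≤ 1 := fun p hp hl hz => by
    have b1 := (a3.bd hm hp.1 hl hz).2
    have b2 := pos_of_mul_pos_left (Kep.pos hp) hp.2.1.le
    have b3 := hp.2.1
    have b4 := sq_nonneg (vv m p)
    exact ⟨b2, by linarith, by linarith, by linarith, aw_add e0 b2 b3 (hp.2.2.2.trans a5.2)⟩
  have Vb := fun p hp hl hz => abs_le.1 (Vc_bd (σ := sg m α β p) (u := uu m α β p) hκ.le aw_nonneg
    aw_nonneg (fact p hp hl hz).2.2.2.2 (by linarith) (fact p hp hl hz).2.1)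
  refine ⟨fun p => Vc κ (aw ε k (om m p ^ 2)) (aw ε k (mm m p)) (vv m p) (om m p) (sg m α β p)
    (uu m α β p) * Wt m ε k p, fun p => nz m α β p * Wt m ε k p, e, κ1, C,
    min (κ1 / C / 2 / (1 / (2 * (κ1 / C)) + 2 * M)) (w * (1 + (2 * M + 1) ^ 2))⁻¹, 2 * M + 1,
    a5.1, by positivity, ⟨le_rfl, k0, C0, fun p hp hl => ?_, fun p hp hl hz => ?_,
      fun γ t hp hl hz hd => ?_⟩, fun p hp hl hz => ⟨fun h => ?_, fun h => ?_⟩⟩
  · have b1 := cAt_om hm hp.1.1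
    have b2 := cAt_vv hm hp.1.1
    have b3 := cAt_sg (β := β) hl.2
    have b4 := cAt_uu (β := β) hl
    obtain ⟨b5, b6⟩ := cAt_aw (ε := ε) (k := k) (b1.pow 2) (pow_ne_zero 2 hp.2.2.1)
    obtain ⟨b7, b8⟩ := cAt_aw (ε := ε) (k := k) (c_mm (m := m)).continuousAt hp.2.1.ne'
    refine ContinuousAt.mul ?_ (Real.continuous_exp.continuousAt.comp ((b8.sub b6).div_const _))
    unfold Vc
    fun_prop
  · obtain ⟨b1, -, b2, b3, -⟩ := fact p hp hl hz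
    obtain ⟨b4, b5⟩ := hw p hp.2.1 b1 b3 b2
    have b6 := nz_nonneg (m := m) (α := α) (β := β) (p := p)
    have b7 := W0 p
    refine ⟨?_, ?_, ?_⟩
    · linarith [mul_le_mul_of_nonneg_left b5 b6,
        mul_le_mul_of_nonneg_right C1 (mul_nonneg b6 b7.le)]
    · linarith [mul_le_mul_of_nonneg_left (b4.trans C1) b6]
    · rw [← mul_assoc]
      refine mul_le_mul_of_nonneg_right ?_ b7.le
      linarith [(Vb p hp hl hz).2, (abs_le.1 (two_re_le (sg m α β p) (uu m α β p))).2,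
        mul_le_mul_of_nonneg_right C2 b6, mul_le_mul_of_nonneg_left
          (sg_le_nz (m := m) (α := α) (β := β) (p := p)) (show 0 ≤ 2 * M by linarith),
        show nz m α β p = _ + _ from rfl]
  · obtain ⟨b1, b2, b3, b4, b5⟩ := fact _ hp hl hz
    obtain ⟨E, hE, du⟩ := a2 γ t hp.1 hl hz hd
    obtain ⟨d, dn, dn'⟩ := a1 γ t hp.1 hl hp.2.1 hz hd
    have ds := csg (β := β) hm hp.1 hl hd
    have dv := cvv hm hp.1 hd
    have dw := com hm hp.1 hd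
    obtain ⟨da, dA⟩ := hd_aw (ε := ε) (k := k) (g := -(gm m (γ t) * vv m (γ t)))
      (f := fun s => om m (γ s) ^ 2) ((dw.fun_pow 2).congr_deriv (by simp; ring)) b1.ne'
    obtain ⟨db, dB⟩ := hd_aw (ε := ε) (k := k) (cmm hm hp.1 hd) hp.2.1.ne'
    have dW : HasDerivAt (fun s => Wt m ε k (γ s)) (gm m (γ t) * (vv m (γ t) / 2
        * (aw ε k (om m (γ t) ^ 2) + aw ε k (mm m (γ t)))) * Wt m ε k (γ t)) t :=
      ((dB.sub dA).div_const (2 * ε)).exp.congr_deriv (by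
        simp only [Wt, Pi.sub_apply]; field_simp; ring)
    have g0 := gm_nonneg hm hp.1.1
    refine ⟨_, _, (((hd_re ((hd_conj ds).mul du)).add (((da.add (((da.const_sub 1).sub db).div_const
      4)).mul dv).mul (hd_nsq ds))).add (da.mul (hd_re (((dv.ofReal_comp.add
        (dw.ofReal_comp.const_mul I)).const_mul κ).mul ((hd_conj ds).fun_pow 2))))).mul dW,
      dn.mul dW, ?_, ?_⟩
    · have := halg _ _ (vv m (γ t)) (om m (γ t)) (mm m (γ t)) (WW m (γ t)) (sg m α β (γ t))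
        (uu m α β (γ t)) E aw_nonneg aw_nonneg b5 hp.2.1.le (aw_small e0 e1 b1 b3 hk)
        ((aw_small e0 e1 hp.2.1 b4 hk).trans (by nlinarith)) b2 (WW_nonneg hm)
        (by rw [← FF_mcg hm hp.1.1]; exact a4 _ hp.1 hl hz) hE
      refine le_trans (le_of_eq ?_) ((mul_le_mul_of_nonneg_left this
        (mul_nonneg g0 (W0 (γ t)).le)).trans (le_of_eq ?_))
      · rw [nz]; ring
      simp only [Pi.add_apply, Pi.mul_apply, Pi.sub_apply, h1, h2, vd_eq hm hp.1 hl.1]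
      simp only [Vc, normSq_apply, sq, mul_re, mul_im, add_re, add_im, sub_re, sub_im, neg_re,
        neg_im, conj_re, conj_im, ofReal_re, ofReal_im, div_ofNat_re, div_ofNat_im, re_ofNat,
        im_ofNat, I_re, I_im, Nat.cast_ofNat, Nat.add_one_sub_one, pow_one]
      ring
    · have c1 : vv m (γ t) / 2 * (aw ε k (om m (γ t) ^ 2) + aw ε k (mm m (γ t))) ≤ M := by
        have c2 : vv m (γ t) ≤ M := le_of_sq_le_sq (by linarith) (by linarith)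
        have c3 := add_nonneg (aw_nonneg (ε := ε) (k := k) (x := om m (γ t) ^ 2))
          (aw_nonneg (ε := ε) (k := k) (x := mm m (γ t)))
        nlinarith
      have c2 := mul_nonneg g0 (mul_nonneg (nz_nonneg (m := m) (α := α) (β := β) (p := γ t))
        (W0 (γ t)).le)
      linarith [mul_le_mul_of_nonneg_right dn' (W0 (γ t)).le, mul_le_mul_of_nonneg_left c1 c2,
        mul_le_mul_of_nonneg_left C3 c2]
  · rw [← mul_assoc] at h
    have b1 := le_of_mul_le_mul_right h (W0 p)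
    refine (mul_le_mul_of_nonneg_right (min_le_left _ _) nz_nonneg).trans ?_
    rw [div_mul_eq_mul_div, div_le_iff₀ (by positivity)]
    have b2 := nsq_mul_le (sg m α β p) (uu m α β p) ε0
    rw [div_eq_mul_one_div (normSq _)] at b2
    linarith [(Vb p hp hl hz).2, mul_le_mul_of_nonneg_left
      (uu_le_nz (m := m) (α := α) (β := β) (p := p)) ε0.le]
  · obtain ⟨b1, -, b2, b3, -⟩ := fact p hp hl hz
    have b4 := (hw p hp.2.1 b1 b3 b2).2
    have b5 := (Vb p hp hl hz).1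
    have b6 : nz m α β p = (1 + (2 * M + 1) ^ 2) * normSq (sg m α β p) := by
      rw [nz, h, map_mul, normSq_ofReal]; ring
    have b7 : (conj (sg m α β p) * uu m α β p).re = (2 * M + 1) * normSq (sg m α β p) := by
      rw [h, mul_left_comm, re_ofReal_mul, ← normSq_eq_conj_mul_self, ofReal_re]
    have b8 := mul_le_mul_of_nonneg_right (show normSq (sg m α β p) ≤ _ by linarith :
      _ ≤ Vc κ (aw ε k (om m p ^ 2)) (aw ε k (mm m p)) (vv m p) (om m p) (sg m α β p)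
        (uu m α β p)) (W0 p).le
    have b9 := normSq_nonneg (sg m α β p)
    refine ⟨le_trans ?_ b8, le_trans ((mul_le_mul_of_nonneg_right (min_le_right _ _)
      nz_nonneg).trans ?_) b8⟩
    · beta_reduce
      rw [b6, div_mul_eq_mul_div, div_le_iff₀ C0]
      linarith [mul_le_mul_of_nonneg_right C4 (mul_nonneg b9 (W0 p).le)]
    · rw [b6, inv_mul_le_iff₀ (by positivity)]
      linarith [mul_le_mul_of_nonneg_right b4 (mul_nonneg (show 0 ≤ 1 + (2 * M + 1) ^ 2 by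
        positivity) b9)]

end Pool.Agent.Lib.MP_6e7c44_mp.Hg
end
end
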