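import Mathlib

-- part Pool.Agent.Lib.MP_6e7c44_mp.HTools
section

/-!
Elementary tools: monotonicity, real induction, first exit times, continuous logarithms.
-/

set_option autoImplicit false

open Set Filter Topology Metric

noncomputable section

namespace Pool.Agent.Lib.MP_6e7c44_mp.Hg

lemma mono_Icc {f f' : ℝ → ℝ} {a b : ℝ} (hab : a ≤ b) (hc : ContinuousOn f (Icc a b))
    (hd : ∀ t ∈ Ioo a b, HasDerivAt f (f' t) t) (h0 : ∀ t ∈ Ioo a b, 0 ≤ f' t) : f a ≤ f b := by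
  refine monotoneOn_of_deriv_nonneg (convex_Icc a b) hc ?_ ?_ ⟨le_rfl, hab⟩ ⟨hab, le_rfl⟩ hab
  · rw [interior_Icc]
    exact fun t ht => (hd t ht).differentiableAt.differentiableWithinAt
  · rw [interior_Icc]
    exact fun t ht => by rw [(hd t ht).deriv]; exact h0 t ht

lemma mono_Icc' {f f' : ℝ → ℝ} {a b : ℝ} (hab : a ≤ b)
    (hd : ∀ t ∈ Icc a b, HasDerivAt f (f' t) t) (h0 : ∀ t ∈ Ioo a b, 0 ≤ f' t) : f a ≤ f b :=
  mono_Icc hab (fun t ht => (hd t ht).continuousAt.continuousWithinAt)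
    (fun t ht => hd t (Ioo_subset_Icc_self ht)) h0

lemma real_ind {P : ℝ → Prop} (hopen : ∀ t, 0 ≤ t → P t → ∀ᶠ s in 𝓝 t, P s)
    (hstep : ∀ t, 0 ≤ t → (∀ s ∈ Ico 0 t, P s) → P t) : ∀ t, 0 ≤ t → P t := by
  by_contra h
  push Not at h
  obtain ⟨t0, ht0, hP⟩ := h
  have hne : {t | 0 ≤ t ∧ ¬P t}.Nonempty := ⟨t0, ht0, hP⟩
  have hbd : BddBelow {t | 0 ≤ t ∧ ¬P t} := ⟨0, fun t ht => ht.1⟩
  set τ := sInf {t | 0 ≤ t ∧ ¬P t}
  have h0 : 0 ≤ τ := le_csInf hne fun t ht => ht.1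
  have h1 : P τ := hstep τ h0 fun s hs => by
    by_contra h2
    exact absurd (csInf_le hbd ⟨hs.1, h2⟩) (not_le.2 hs.2)
  obtain ⟨ε, hε, h2⟩ := Metric.eventually_nhds_iff.1 (hopen τ h0 h1)
  obtain ⟨t, ht, h3⟩ := exists_lt_of_csInf_lt hne (show τ < τ + ε by linarith)
  have h4 : τ ≤ t := csInf_le hbd ht
  exact ht.2 (h2 (by rw [Real.dist_eq, abs_lt]; constructor <;> linarith))

/-- The first time at which an open condition fails. -/
lemma first_fail {P : ℝ → Prop} (hopen : ∀ t, 0 ≤ t → P t → ∀ᶠ s in 𝓝 t, P s)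
    (h : ∃ t, 0 ≤ t ∧ ¬P t) : ∃ τ, 0 ≤ τ ∧ ¬P τ ∧ ∀ s ∈ Ico 0 τ, P s := by
  by_contra h1
  push Not at h1
  obtain ⟨t, ht, hP⟩ := h
  refine hP (real_ind hopen (fun t ht h2 => ?_) t ht)
  by_contra h3
  obtain ⟨s, hs, h4⟩ := h1 t ht h3
  exact h4 (h2 s hs)

lemma closure_le {f : ℝ → ℝ} {t c : ℝ} (ht : 0 < t) (hf : ContinuousAt f t)
    (h : ∀ s ∈ Ico 0 t, f s ≤ c) : f t ≤ c := by
  have h1 : ∀ᶠ s in 𝓝[<] t, f s ≤ c := by
    filter_upwards [Ico_mem_nhdsLT ht] with s hs using h s hs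
  exact le_of_tendsto (hf.tendsto.mono_left nhdsWithin_le_nhds) h1

lemma ev_gt {f : ℝ → ℝ} {f' t : ℝ} (h : HasDerivAt f f' t) (h0 : 0 < f') :
    ∀ᶠ s in 𝓝[>] t, f t < f s := by
  have h2 := h.tendsto_slope.mono_left (nhdsGT_le_nhdsNE t)
  filter_upwards [h2.eventually (lt_mem_nhds h0), self_mem_nhdsWithin] with s hs hs'
  rw [slope_def_field] at hs
  have h3 : 0 < s - t := sub_pos.mpr hs'
  have := (div_pos_iff_of_pos_right h3).1 hs
  linarith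

lemma deriv_zero_of_const {f : ℝ → ℝ} {f' t : ℝ} (h : HasDerivAt f f' t)
    (h0 : ∀ᶠ s in 𝓝[>] t, f s = f t) : f' = 0 := by
  have h2 := h.tendsto_slope.mono_left (nhdsGT_le_nhdsNE t)
  have h3 : Tendsto (slope f t) (𝓝[>] t) (𝓝 0) := by
    refine tendsto_const_nhds.congr' ?_
    filter_upwards [h0] with s hs
    rw [slope_def_field, hs, sub_self, zero_div]
  exact tendsto_nhds_unique h2 h3

theorem exit_continuous {X : Type*} [TopologicalSpace X] {O O' : Set (X × ℝ)} {τ : X → ℝ}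
    (hO : ∀ x, ∀ t ∈ Ico 0 (τ x), O ∈ 𝓝 (x, t)) (h0 : ∀ x, 0 ≤ τ x) (h1 : ∀ x, (x, τ x) ∉ O)
    (hO' : ∀ x, ∀ᶠ t in 𝓝[>] (τ x), O' ∈ 𝓝 (x, t)) (hd : Disjoint O O') : Continuous τ := by
  rw [continuous_iff_continuousAt]
  intro x
  rw [ContinuousAt, tendsto_order]
  constructor
  · intro a ha
    rcases lt_or_ge a 0 with h | h
    · exact Eventually.of_forall fun y => lt_of_lt_of_le h (h0 y)
    have h2 : ∀ᶠ y in 𝓝 x, ∀ t ∈ Icc 0 a, (y, t) ∈ O :=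
      isCompact_Icc.eventually_forall_of_forall_eventually fun t ht =>
        hO x t ⟨ht.1, lt_of_le_of_lt ht.2 ha⟩
    filter_upwards [h2] with y hy
    by_contra h3
    exact h1 y (hy _ ⟨h0 y, not_lt.1 h3⟩)
  · intro a ha
    obtain ⟨t, ht, ht'⟩ := ((hO' x).and (Ioo_mem_nhdsGT ha)).exists
    have h2 : ∀ᶠ y in 𝓝 x, (y, t) ∈ O' :=
      (show Tendsto (fun y => (y, t)) (𝓝 x) (𝓝 (x, t)) from
        (Continuous.prodMk_left t).tendsto x).eventually ht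
    filter_upwards [h2] with y hy
    by_contra h3
    have h4 : t < τ y := lt_of_lt_of_le ht'.2 (not_lt.1 h3)
    exact hd.le_bot ⟨mem_of_mem_nhds (hO y t ⟨(h0 x).trans ht'.1.le, h4⟩), hy⟩

theorem has_log {f : ℂ → ℂ} (hf : Continuous f) (h0 : ∀ x, f x ≠ 0) :
    ∃ L : ℂ → ℂ, Continuous L ∧ ∀ x, Complex.exp (L x) = f x := by
  obtain ⟨F, ⟨-, hF⟩, -⟩ := Complex.isCoveringMapOn_exp.existsUnique_continuousMap_lifts
    (⟨f, hf⟩ : C(ℂ, ℂ)) (a₀ := 0) (e₀ := Complex.log (f 0)) (Complex.exp_log (h0 0)) h0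
  exact ⟨F, F.continuous, fun x => congrFun hF x⟩

theorem no_log {L : ℂ → ℂ} (hL : ContinuousOn L (sphere 0 1))
    (h : ∀ x ∈ sphere (0 : ℂ) 1, Complex.exp (L x) = x) : False := by
  have hs : ∀ t : ℝ, Complex.exp (t * Complex.I) ∈ sphere (0 : ℂ) 1 := fun t => by
    simp [Complex.norm_exp_ofReal_mul_I]
  let g : ℝ → ℂ := fun t => L (Complex.exp (t * Complex.I)) - t * Complex.I
  have hg : Continuous g :=
    (hL.comp_continuous (by fun_prop) hs).sub (by fun_prop)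
  have h1 : ∀ t, Complex.exp (g t) = 1 := fun t => by
    simp only [g]
    rw [Complex.exp_sub, h _ (hs t), div_self (Complex.exp_ne_zero _)]
  have h2 := Complex.isCoveringMapOn_exp.existsUnique_continuousMap_lifts
    (ContinuousMap.const ℝ (1 : ℂ)) (a₀ := 0) (e₀ := g 0) (h1 0) (fun _ => by simp)
  have h3 := h2.unique (y₁ := ⟨g, hg⟩) (y₂ := ContinuousMap.const ℝ (g 0))
    ⟨rfl, funext h1⟩ ⟨rfl, funext fun _ => h1 0⟩
  have h4 : g (2 * Real.pi) = g 0 := congrFun (congrArg (fun F : C(ℝ, ℂ) => (F : ℝ → ℂ)) h3) _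
  simp only [g] at h4
  push_cast at h4
  rw [Complex.exp_two_pi_mul_I, zero_mul, Complex.exp_zero] at h4
  have h5 : (2 * Real.pi * Complex.I : ℂ) = 0 := by linear_combination -h4
  exact Complex.two_pi_I_ne_zero h5

end Pool.Agent.Lib.MP_6e7c44_mp.Hg
end
end

-- part Pool.Agent.Lib.MP_6e7c44_mp.HEAlg
section

/-!
The invariant region around a collinear homographic motion: real inequalities.
In the variables `e, w, z, X` the linearised flow preserves the product of the half line `0 ≤ e`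
and the Lorentz cone `X ^ 2 ≤ w * z`; three barriers cut out a strictly invariant subcone.
-/

set_option autoImplicit false

open Set Filter Topology Complex ComplexConjugate

noncomputable section

namespace Pool.Agent.Lib.MP_6e7c44_mp.Hg

lemma amgm {w z X c K : ℝ} (w0 : 0 ≤ w) (z0 : 0 ≤ z) (h : X ^ 2 ≤ w * z) (hc : |c| ≤ K) :
    |c * X| ≤ z / 2 + K ^ 2 * w / 2 := by
  refine abs_le_of_sq_le_sq ?_ (by positivity)
  have h1 : c ^ 2 ≤ K ^ 2 := by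
    rw [← sq_abs c]; exact pow_le_pow_left₀ (abs_nonneg _) hc 2
  have h2 := mul_le_mul h1 h (sq_nonneg _) (sq_nonneg _)
  nlinarith [sq_nonneg (z - K ^ 2 * w)]

lemma barA {D B M M1 R ε v o w z X e r1 r2 : ℝ} (hB : B ≤ D) (D0 : 0 ≤ D)
    (h1 : 1 ≤ M1) (h2 : (4 * M + 1) ^ 2 ≤ 8 * D * M1)
    (h3 : ε * (M1 * R * (1 + M ^ 2 + 2 * D) + 2) < 1) (hv : |v| ≤ M) (ho : o ^ 2 ≤ M ^ 2)
    (w0 : 0 ≤ w) (z0 : 0 ≤ z) (e0 : 0 < e) (w1 : w ≤ R * e) (z1 : z ≤ R * e)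
    (a1 : |r1| ≤ ε * e) (a2 : |r2| ≤ ε * e) (h : e ^ 2 = M1 * (w * z - X ^ 2)) :
    0 < M1 * (-(2 * v * (w * z - X ^ 2)) + e * (z + (o ^ 2 + 4 * D) * w)
      + r1 * (z + (o ^ 2 + 2 * D) * w)) - 2 * e * (v * e + B * w + r2) := by
  have m0 : 0 ≤ M1 := by linarith
  have b1 : (4 * M + 1) * e ≤ M1 * (z + 2 * D * w) := by
    refine le_of_sq_le_sq ?_ (by positivity)
    have c1 := mul_le_mul_of_nonneg_right h2 (sq_nonneg e)
    have c2 : 8 * D * (w * z - X ^ 2) ≤ (z + 2 * D * w) ^ 2 := by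
      nlinarith [sq_nonneg (z - 2 * D * w), mul_nonneg D0 (sq_nonneg X)]
    have c3 := mul_le_mul_of_nonneg_left c2 (sq_nonneg M1)
    rw [mul_pow, mul_pow]
    refine c1.trans (le_trans (le_of_eq ?_) c3)
    rw [h]; ring
  have b2 : |r1 * (z + (o ^ 2 + 2 * D) * w)| ≤ ε * e * (R * e * (1 + M ^ 2 + 2 * D)) := by
    rw [abs_mul, abs_of_nonneg (show 0 ≤ z + (o ^ 2 + 2 * D) * w by positivity)]
    refine mul_le_mul a1 ?_ (by positivity) ((abs_nonneg _).trans a1)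
    linarith [mul_le_mul (add_le_add_left ho (2 * D)) w1 w0 (by positivity)]
  have b3 := mul_le_mul_of_nonneg_left (abs_le.1 b2).1 m0
  have b4 := mul_le_mul_of_nonneg_left (abs_le.1 a2).2 e0.le
  have b5 := mul_le_mul_of_nonneg_left b1 e0.le
  have b6 := mul_le_mul_of_nonneg_right (abs_le.1 hv).2 (sq_nonneg e)
  have b7 := mul_lt_mul_of_pos_right h3 (pow_pos e0 2)
  have b8 : B * w ≤ M1 * D * w := mul_le_mul_of_nonneg_right (by nlinarith) w0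
  have b9 : M1 * (v * (w * z - X ^ 2)) = v * e ^ 2 := by rw [h]; ring
  linarith [mul_le_mul_of_nonneg_left b8 e0.le, mul_nonneg (mul_nonneg m0 e0.le)
    (mul_nonneg (sq_nonneg o) w0)]

lemma barB {D B M l K δ ε v o w z X e r1 r2 : ℝ} (D0 : 0 ≤ D) (M0 : 0 ≤ M) (hl : l = 5 * M + 4)
    (hK : 2 * l * M + M ^ 2 + l ^ 2 + 4 * D ≤ K) (d0 : 0 < δ) (d1 : 3 * K * δ ≤ 1)
    (d2 : δ * (K ^ 2 / 2 + 3 / 2 * l ^ 2 * M + l * M ^ 2 / 2 + 3 / 2 * l ^ 2) ≤ B)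
    (h3 : ε * (K * δ + 1) < 2 / 3) (hv : |v| ≤ M) (ho : o ^ 2 ≤ M ^ 2)
    (w0 : 0 ≤ w) (z0 : 0 ≤ z) (e0 : 0 < e) (hL : X ^ 2 ≤ w * z)
    (a1 : |r1| ≤ ε * e) (a2 : |r2| ≤ ε * e) (h : δ * (z - l * X + l ^ 2 * w) = e) :
    0 < v * e + B * w + r2 - δ * (-(3 / 2 * v * z) + (o ^ 2 + 4 * D) * e - o ^ 2 * X
      + (o ^ 2 + 2 * D) * r1 - l * ((z - o ^ 2 * w) / 2 - v * X)
      + l ^ 2 * (-(v / 2 * w) + e + X + r1)) := by
  have l0 : 0 ≤ l := by linarith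
  have o0 := sq_nonneg o
  obtain ⟨v1, v2⟩ := abs_le.1 hv
  have b1 := (abs_le.1 (amgm w0 z0 hL (c := l) (K := l) (abs_of_nonneg l0).le)).1
  have b2 := (abs_le.1 (amgm w0 z0 hL (c := -(2 * l * v) + o ^ 2 - l ^ 2) (K := K) (abs_le.2
    ⟨by nlinarith [mul_le_mul_of_nonneg_left v2 l0], by
      nlinarith [mul_le_mul_of_nonneg_left v1 l0]⟩))).1
  have b3 : e ≤ δ * (3 / 2 * (z + l ^ 2 * w)) := h ▸ mul_le_mul_of_nonneg_left (by linarith) d0.le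
  have b4 : o ^ 2 + 4 * D + l ^ 2 ≤ K := by nlinarith [mul_nonneg l0 M0]
  have b5 : (o ^ 2 + 4 * D + l ^ 2) * e ≤ (z + l ^ 2 * w) / 2 := by
    have := mul_le_mul b4 b3 e0.le ((by positivity : 0 ≤ o ^ 2 + 4 * D + l ^ 2).trans b4)
    linarith [mul_le_mul_of_nonneg_right d1 (show 0 ≤ z + l ^ 2 * w by positivity)]
  have b6 : (o ^ 2 + 2 * D + l ^ 2) * r1 ≤ K * (ε * e) := by
    refine (le_abs_self _).trans ?_
    rw [abs_mul, abs_of_nonneg (show 0 ≤ o ^ 2 + 2 * D + l ^ 2 by positivity)]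
    exact mul_le_mul (by linarith) a1 (abs_nonneg _)
      ((by positivity : 0 ≤ o ^ 2 + 4 * D + l ^ 2).trans b4)
  have b7 : 2 * z ≤ (5 / 2 * v + l / 2) * z := mul_le_mul_of_nonneg_right (by linarith) z0
  have b8 : -(3 / 2 * l ^ 2 * M + l * M ^ 2 / 2) * w ≤ (3 / 2 * l ^ 2 * v - l * o ^ 2 / 2) * w :=
    mul_le_mul_of_nonneg_right (by
      linarith [mul_le_mul_of_nonneg_left v1 (sq_nonneg l), mul_le_mul_of_nonneg_left ho l0]) w0
  have b9 : z - (K ^ 2 / 2 + 3 / 2 * l ^ 2 * M + l * M ^ 2 / 2 + l ^ 2 / 2) * w - K * (ε * e) ≤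
      v * (z - l * X + l ^ 2 * w) - (-(3 / 2 * v * z) + (o ^ 2 + 4 * D) * e - o ^ 2 * X
      + (o ^ 2 + 2 * D) * r1 - l * ((z - o ^ 2 * w) / 2 - v * X)
      + l ^ 2 * (-(v / 2 * w) + e + X + r1)) := by linarith
  have c1 := mul_le_mul_of_nonneg_left b9 d0.le
  have c2 := mul_le_mul_of_nonneg_right d2 w0
  have c3 := mul_lt_mul_of_pos_right h3 e0
  have c4 : v * e = δ * (v * (z - l * X + l ^ 2 * w)) := by rw [← h]; ring
  linarith [(abs_le.1 a2).1]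

lemma barS {D B M R ε ν Γ hm h d v o w z X e r1 r2 : ℝ} (B0 : 0 ≤ B) (D0 : 0 ≤ D) (Γ0 : 0 ≤ Γ)
    (ν0 : 0 ≤ ν) (h1 : (Γ + 2) * ν * R + (M ^ 2 + 2 * D) * ε ≤ D) (h2 : ε ≤ D * hm)
    (hm0 : 0 ≤ hm) (h3 : hm ≤ h) (h4 : v ≤ 0 → 3 / 2 * M ≤ D * h)
    (h5 : D ≤ 3 / 2 * v * R → 3 / 2 * h * R ≤ 1) (hv : |v| ≤ M) (ho : o ^ 2 ≤ M ^ 2)
    (ho' : o ^ 2 ≤ 2 * ν) (hd : d ≤ ν) (w0 : 0 ≤ w) (z0 : 0 ≤ z) (e0 : 0 < e) (z1 : z ≤ R * e)
    (X1 : |X| ≤ R * e) (a1 : |r1| ≤ ε * e) (a2 : |r2| ≤ ε * e) :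
    D * h * e - min v 0 / 2 * (h * z + e) ≤ -(Γ * d) * h * z + h * (-(3 / 2 * v * z)
      + (o ^ 2 + 4 * D) * e - o ^ 2 * X + (o ^ 2 + 2 * D) * r1) + (v * e + B * w + r2) := by
  have h0 : 0 ≤ h := hm0.trans h3
  have o0 := sq_nonneg o
  have b1 : Γ * d * z ≤ Γ * ν * (R * e) :=
    mul_le_mul (mul_le_mul_of_nonneg_left hd Γ0) z1 z0 (mul_nonneg Γ0 ν0)
  have b2 : o ^ 2 * X ≤ 2 * ν * (R * e) := (mul_le_mul_of_nonneg_left (le_abs_self X) o0).trans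
    (mul_le_mul ho' X1 (abs_nonneg _) (by linarith))
  have b3 : -((M ^ 2 + 2 * D) * (ε * e)) ≤ (o ^ 2 + 2 * D) * r1 := by
    refine (abs_le.1 ?_).1
    rw [abs_mul, abs_of_nonneg (show 0 ≤ o ^ 2 + 2 * D by positivity)]
    exact mul_le_mul (by linarith) a1 (abs_nonneg _) (by positivity)
  have b4 : 3 * D * e - 3 / 2 * v * z ≤ -(Γ * d) * z + (-(3 / 2 * v * z)
      + (o ^ 2 + 4 * D) * e - o ^ 2 * X + (o ^ 2 + 2 * D) * r1) := by
    linarith [mul_le_mul_of_nonneg_right h1 e0.le, mul_nonneg o0 e0.le]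
  have b5 := mul_le_mul_of_nonneg_left b4 h0
  have b6 := mul_le_mul_of_nonneg_right (h2.trans (mul_le_mul_of_nonneg_left h3 D0)) e0.le
  have b7 := (abs_le.1 a2).1
  have b8 := mul_nonneg B0 w0
  have hz := mul_nonneg h0 z0
  rcases le_total v 0 with c | c
  · rw [min_eq_left c]
    linarith [mul_le_mul_of_nonneg_right (h4 c) e0.le, mul_nonneg (neg_nonneg.2 c) hz,
      mul_le_mul_of_nonneg_right (abs_le.1 hv).1 e0.le]
  rw [min_eq_right c]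
  have c1 := mul_le_mul_of_nonneg_left z1 (mul_nonneg h0 c)
  rcases le_total D (3 / 2 * v * R) with c2 | c2
  · linarith [mul_le_mul_of_nonneg_right (h5 c2) (mul_nonneg c e0.le),
      mul_nonneg D0 (mul_nonneg h0 e0.le)]
  · linarith [mul_le_mul_of_nonneg_right c2 (mul_nonneg h0 e0.le), mul_nonneg c e0.le]

lemma barC {B M M3 K g v o e s s' y p q E : ℝ} (B0 : 0 ≤ B) (g0 : 0 < g) (M0 : 0 ≤ M)
    (h1 : (4 * M * K + 2) ^ 2 < 4 * g ^ 2 * M3) (ho : |o| ≤ M) (e0 : 0 < e) (e1 : e ≤ s)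
    (p1 : |p| ≤ K * e) (E1 : |E| ≤ e) (hs : g * s - min v 0 / 2 * s ≤ s')
    (h : q ^ 2 + B * y ^ 2 = M3 * s ^ 2) :
    0 < M3 * (2 * s * s') - (2 * q * (-(v / 2 * q) - 2 * o * p - B * y + E) + B * (2 * y * q)) := by
  have m0 : 0 < M3 := pos_of_mul_pos_right ((sq_nonneg _).trans_lt h1) (by positivity)
  have s0 := e0.trans_le e1
  have b1 := mul_le_mul_of_nonneg_left hs (mul_pos m0 s0).le
  have b2 : |4 * o * p - 2 * E| ≤ (4 * M * K + 2) * e := by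
    refine (abs_sub _ _).trans ?_
    rw [abs_mul, abs_mul, abs_mul, abs_two, show |(4 : ℝ)| = 4 from abs_of_pos four_pos]
    linarith [mul_le_mul ho p1 (abs_nonneg _) M0]
  have b3 : (4 * o * p - 2 * E) ^ 2 < 4 * g ^ 2 * (M3 * s ^ 2) := by
    rw [← sq_abs]
    refine (pow_le_pow_left₀ (abs_nonneg _) b2 2).trans_lt ?_
    rw [mul_pow, ← mul_assoc]
    exact mul_lt_mul_of_lt_of_le_of_nonneg_of_pos h1 (pow_le_pow_left₀ e0.le e1 2) (sq_nonneg _)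
      (by positivity) |>.trans_le' le_rfl
  have b4 : min v 0 * (M3 * s ^ 2) ≤ v * q ^ 2 := by
    rw [← h]
    linarith [mul_le_mul_of_nonneg_right (min_le_left v 0) (sq_nonneg q),
      mul_nonneg (neg_nonneg.2 (min_le_right v 0)) (mul_nonneg B0 (sq_nonneg y))]
  have b5 : q ^ 2 ≤ M3 * s ^ 2 := h ▸ le_add_of_nonneg_right (mul_nonneg B0 (sq_nonneg y))
  have b6 : 0 < 2 * g * (M3 * s ^ 2) + q * (4 * o * p - 2 * E) := by
    refine pos_of_mul_pos_right (a := 4 * g) ?_ (by positivity)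
    linarith [sq_nonneg (2 * g * q + (4 * o * p - 2 * E)),
      mul_le_mul_of_nonneg_left b5 (sq_nonneg g)]
  linarith

lemma barP {D B R ε v o w z X e r1 r2 : ℝ} (B0 : 0 ≤ B) (D0 : 0 ≤ D) (R0 : 0 < R)
    (h1 : ε ≤ 1 / 2) (h2 : 8 * R * ε ≤ 1) (w0 : 0 ≤ w) (z0 : 0 ≤ z) (e0 : 0 ≤ e) (w1 : w ≤ R * e)
    (hL : X ^ 2 ≤ w * z) (a1 : |r1| ≤ ε * e) (a2 : |r2| ≤ ε * e) :
    (4 * R)⁻¹ * (e ^ 2 * (w * z - X ^ 2)) ≤ 2 * e * (v * e + B * w + r2) * (w * z - X ^ 2)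
      + e ^ 2 * (-(2 * v * (w * z - X ^ 2)) + e * (z + (o ^ 2 + 4 * D) * w)
        + r1 * (z + (o ^ 2 + 2 * D) * w)) := by
  have L0 := sub_nonneg.2 hL
  have b1 : -(e / 2) * (z + (o ^ 2 + 2 * D) * w) ≤ r1 * (z + (o ^ 2 + 2 * D) * w) :=
    mul_le_mul_of_nonneg_right (by
      linarith [(abs_le.1 a1).1, mul_le_mul_of_nonneg_right h1 e0]) (by positivity)
  have b2 : e * z / 2 ≤ e * (z + (o ^ 2 + 4 * D) * w) + r1 * (z + (o ^ 2 + 2 * D) * w) := by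
    linarith [mul_nonneg e0 (mul_nonneg (sq_nonneg o) w0), mul_nonneg e0 (mul_nonneg D0 w0)]
  have b3 : w * z - X ^ 2 ≤ R * (e * z) := by
    linarith [mul_le_mul_of_nonneg_right w1 z0, sq_nonneg X]
  have b4 := mul_le_mul_of_nonneg_left (abs_le.1 a2).1 (mul_nonneg e0 L0)
  rw [inv_mul_le_iff₀ (by positivity)]
  have b5 := mul_le_mul_of_nonneg_left b2 (mul_nonneg R0.le (sq_nonneg e))
  have b6 := mul_le_mul_of_nonneg_left b3 (sq_nonneg e)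
  have b7 := mul_le_mul_of_nonneg_left b4 R0.le
  have b8 := mul_le_mul_of_nonneg_right h2 (mul_nonneg (sq_nonneg e) L0)
  linarith [mul_nonneg (mul_nonneg R0.le e0) (mul_nonneg (mul_nonneg B0 w0) L0)]

lemma reg_size {M1 δ l R w z X e : ℝ} (hl : 2 ≤ l) (m0 : 0 < M1) (d0 : 0 < δ) (hR : δ * R = 2)
    (w0 : 0 ≤ w) (z0 : 0 ≤ z) (a : e ^ 2 ≤ M1 * (w * z - X ^ 2))
    (b : δ * (z - l * X + l ^ 2 * w) ≤ e) :
    X ^ 2 ≤ w * z ∧ 0 ≤ e ∧ w ≤ R * e ∧ z ≤ R * e ∧ |X| ≤ R * e := by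
  have h1 : X ^ 2 ≤ w * z := sub_nonneg.1 (nonneg_of_mul_nonneg_right ((sq_nonneg e).trans a) m0)
  have h2 := (abs_le.1 (amgm w0 z0 h1 (c := l) (K := l) (abs_of_nonneg (by linarith)).le)).2
  have h3 : 4 * w ≤ l ^ 2 * w := mul_le_mul_of_nonneg_right (by nlinarith) w0
  have R0 : 0 < R := pos_of_mul_pos_right (hR ▸ two_pos) d0.le
  have h4 := mul_le_mul_of_nonneg_left b R0.le
  rw [← mul_assoc, mul_comm R, hR] at h4
  have h5 : w ≤ R * e := by linarith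
  have h6 : z ≤ R * e := by linarith
  exact ⟨h1, (mul_nonneg d0.le (by linarith)).trans b, h5, h6, abs_le_of_sq_le_sq
    (h1.trans ((mul_le_mul h5 h6 z0 (w0.trans h5)).trans_eq (sq _).symm)) (w0.trans h5)⟩

lemma abs_mul_le {a b A B : ℝ} (h1 : |a| ≤ A) (h2 : |b| ≤ B) : |a * b| ≤ A * B :=
  (abs_mul a b).trans_le (mul_le_mul h1 h2 (abs_nonneg _) ((abs_nonneg _).trans h1))

def Ew (v o : ℝ) (σ u : ℂ) : ℝ := v * σ.re + u.re - o * σ.im
def Ez (D v o : ℝ) (σ u : ℂ) : ℝ := o ^ 2 * Ew v o σ u + 2 * D * (v * σ.re + u.re)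
def Ee (D v o : ℝ) (σ u : ℂ) : ℝ := D * σ.re + v * (v * σ.re + u.re) + o * (u.im + o * σ.re)
def Ps (D v o : ℝ) (σ u : ℂ) : ℝ :=
  Ee D v o σ u ^ 2 * (Ew v o σ u * Ez D v o σ u - (D * σ.re) ^ 2)

lemma lin_bd {D M R v o : ℝ} {σ u : ℂ} (D0 : 0 < D) (R0 : 0 ≤ R) (hv : |v| ≤ M) (ho : |o| ≤ M)
    (w0 : 0 ≤ Ew v o σ u) (z0 : 0 ≤ Ez D v o σ u) (e0 : 0 ≤ Ee D v o σ u)
    (w1 : Ew v o σ u ≤ R * Ee D v o σ u) (z1 : Ez D v o σ u ≤ R * Ee D v o σ u)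
    (X1 : |D * σ.re| ≤ R * Ee D v o σ u) {K : ℝ}
    (hK : K = 1 + R + (1 + M + M ^ 2) * ((1 + M ^ 2) * R / D)) :
    |σ.re| ≤ K * Ee D v o σ u ∧ |v * σ.re + u.re| ≤ K * Ee D v o σ u ∧ |u.re| ≤ K * Ee D v o σ u ∧
      |o * σ.im| ≤ K * Ee D v o σ u ∧ |o * u.im| ≤ K * Ee D v o σ u := by
  have M0 := (abs_nonneg _).trans hv
  have o2 : |o ^ 2| ≤ M ^ 2 := by rw [abs_pow]; exact pow_le_pow_left₀ (abs_nonneg _) ho 2
  obtain ⟨K5, h5⟩ : ∃ K5, K5 = (1 + M ^ 2) * R / D := ⟨_, rfl⟩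
  have k0 : 0 ≤ K5 := by rw [h5]; positivity
  have k1 : D * K5 = (1 + M ^ 2) * R := by rw [h5]; field_simp
  rw [← h5] at hK
  have e1 : o * u.im = Ee D v o σ u - D * σ.re - v * (v * σ.re + u.re) - o ^ 2 * σ.re := by
    rw [Ee]; ring
  have e2 : o * σ.im = v * σ.re + u.re - Ew v o σ u := by rw [Ew]; ring
  have e3 : 2 * D * (v * σ.re + u.re) = Ez D v o σ u - o ^ 2 * Ew v o σ u := by rw [Ez]; ring
  have e4 : u.re = v * σ.re + u.re - v * σ.re := by ring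
  rw [e1, e2]
  generalize Ee D v o σ u = e at *
  generalize Ew v o σ u = w at *
  generalize Ez D v o σ u = z at *
  generalize v * σ.re + u.re = n at *
  have a0 := mul_nonneg (mul_nonneg (sq_nonneg M) R0) e0
  have a1 : |σ.re| ≤ K5 * e := le_of_mul_le_mul_left (by
    rw [abs_mul, abs_of_pos D0] at X1
    rw [← mul_assoc, k1]; linarith) D0
  have a2 : |n| ≤ K5 * e := le_of_mul_le_mul_left (by
    have := mul_le_mul (abs_le.1 o2).2 w1 w0 (sq_nonneg M)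
    rw [← mul_assoc, k1, ← abs_of_pos D0, ← abs_mul, abs_le]
    constructor <;> linarith [mul_nonneg (sq_nonneg o) w0, mul_nonneg R0 e0]) D0
  have a3 := abs_le.1 (abs_mul_le hv a1)
  have a4 := abs_le.1 (abs_mul_le hv a2)
  have a5 := abs_le.1 (abs_mul_le o2 a1)
  have a6 := mul_nonneg k0 e0
  have a7 := mul_nonneg M0 a6
  have a8 := mul_nonneg (sq_nonneg M) a6
  have a9 := mul_nonneg R0 e0
  rw [abs_le] at a1 a2 X1
  rw [hK, e4]
  simp only [abs_le]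
  refine ⟨⟨?_, ?_⟩, ⟨?_, ?_⟩, ⟨?_, ?_⟩, ⟨?_, ?_⟩, ?_, ?_⟩ <;> linarith [a1.1, a1.2, a2.1, a2.2]

lemma hd_E {U B g d t : ℝ} {v o : ℝ → ℝ} {σ u : ℝ → ℂ} {E : ℂ} (hv : HasDerivAt v (g * d) t)
    (ho : HasDerivAt o (-(g * v t / 2 * o t)) t) (hσ : HasDerivAt σ (g * u t) t)
    (hu : HasDerivAt u (g * (-(v t / 2 * u t) - 2 * I * o t * u t + (((U + (U + B) / 2 : ℝ) * σ t
      + (3 / 2 * (U + B) : ℝ) * conj (σ t))) + E)) t) {r1 r2 w z X e : ℝ}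
    (h1 : r1 = E.re + (d - (v t ^ 2 / 2 + o t ^ 2 - U)) * (σ t).re)
    (h2 : r2 = (d - (v t ^ 2 / 2 + o t ^ 2 - U)) * (v t * (σ t).re + (u t).re) + v t * r1
      + o t * E.im) (hw : w = Ew (v t) (o t) (σ t) (u t))
    (hz : z = Ez (U + B) (v t) (o t) (σ t) (u t)) (hX : X = (U + B) * (σ t).re)
    (he : e = Ee (U + B) (v t) (o t) (σ t) (u t)) :
    HasDerivAt (fun s => Ew (v s) (o s) (σ s) (u s)) (g * (-(v t / 2 * w) + e + X + r1)) t ∧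
    HasDerivAt (fun s => Ez (U + B) (v s) (o s) (σ s) (u s)) (g * (-(3 / 2 * v t * z)
      + (o t ^ 2 + 4 * (U + B)) * e - o t ^ 2 * X + (o t ^ 2 + 2 * (U + B)) * r1)) t ∧
    HasDerivAt (fun s => (U + B) * (σ s).re) (g * ((z - o t ^ 2 * w) / 2 - v t * X)) t ∧
    HasDerivAt (fun s => Ee (U + B) (v s) (o s) (σ s) (u s)) (g * (v t * e + B * w + r2)) t ∧
    HasDerivAt (fun s => (σ s).im) (g * (u t).im) t ∧ HasDerivAt (fun s => (u s).im)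
      (g * (-(v t / 2 * (u t).im) - 2 * o t * (u t).re - B * (σ t).im + E.im)) t := by
  have x1 : HasDerivAt (fun s => (σ s).re) (g * (u t).re) t :=
    (reCLM.hasFDerivAt.comp_hasDerivAt t hσ).congr_deriv (by simp)
  have y1 : HasDerivAt (fun s => (σ s).im) (g * (u t).im) t :=
    (imCLM.hasFDerivAt.comp_hasDerivAt t hσ).congr_deriv (by simp)
  have p1 : HasDerivAt (fun s => (u s).re) (g * (-(v t / 2 * (u t).re) + 2 * o t * (u t).im
      + (U + 2 * (U + B)) * (σ t).re + E.re)) t :=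
    (reCLM.hasFDerivAt.comp_hasDerivAt t hu).congr_deriv (by simp; ring_nf; simp)
  have q1 : HasDerivAt (fun s => (u s).im)
      (g * (-(v t / 2 * (u t).im) - 2 * o t * (u t).re - B * (σ t).im + E.im)) t :=
    (imCLM.hasFDerivAt.comp_hasDerivAt t hu).congr_deriv (by simp; ring_nf; simp)
  have n1 := (hv.mul x1).add p1
  have w1 := n1.sub (ho.mul y1)
  subst h2 h1 hw hz hX he
  refine ⟨w1.congr_deriv ?_, (((ho.fun_pow 2).mul w1).add (n1.const_mul _)).congr_deriv ?_,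
    (x1.const_mul _).congr_deriv ?_, (((x1.const_mul _).add (hv.mul n1)).add
      (ho.mul (q1.add (ho.mul x1)))).congr_deriv ?_, y1, q1⟩ <;>
    simp only [Ew, Ez, Ee, Pi.add_apply, Pi.mul_apply, Pi.sub_apply, Nat.cast_ofNat,
      Nat.add_one_sub_one, pow_one] <;> ring

end Pool.Agent.Lib.MP_6e7c44_mp.Hg
end
end

-- part Pool.Agent.Lib.MP_6e7c44_mp.HEReg
section

/-!
The invariant region around a collinear homographic motion: choice of the constants.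
-/

set_option autoImplicit false

open Set Filter Topology Complex ComplexConjugate

noncomputable section

namespace Pool.Agent.Lib.MP_6e7c44_mp.Hg

/-- The constants of the region. -/
structure Kc where
  D : ℝ
  B : ℝ
  l : ℝ
  M1 : ℝ
  δ : ℝ
  M3 : ℝ
  h0 : ℝ
  Γ : ℝ

def Kc.fA (k : Kc) (v o : ℝ) (σ u : ℂ) : ℝ :=
  k.M1 * (Ew v o σ u * Ez k.D v o σ u - (k.D * σ.re) ^ 2) - Ee k.D v o σ u ^ 2
def Kc.fB (k : Kc) (v o : ℝ) (σ u : ℂ) : ℝ :=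
  Ee k.D v o σ u - k.δ * (Ez k.D v o σ u - k.l * (k.D * σ.re) + k.l ^ 2 * Ew v o σ u)
def Kc.fC (k : Kc) (v o : ℝ) (σ u : ℂ) : ℝ :=
  k.M3 * (k.h0 * Real.exp (-(k.Γ * v)) * Ez k.D v o σ u + Ee k.D v o σ u) ^ 2
    - (u.im ^ 2 + k.B * σ.im ^ 2)

/-- The region. -/
def Kc.Reg (k : Kc) (v o : ℝ) (σ u : ℂ) : Prop := 0 ≤ Ew v o σ u ∧ 0 ≤ Ez k.D v o σ u ∧
  0 ≤ k.fA v o σ u ∧ 0 ≤ k.fB v o σ u ∧ 0 ≤ k.fC v o σ u

lemma Kc.closed (k : Kc) : IsClosed {s : ℝ × ℝ × ℂ × ℂ | k.Reg s.1 s.2.1 s.2.2.1 s.2.2.2} := by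
  simp only [Kc.Reg, Kc.fA, Kc.fB, Kc.fC, Ez, Ee, Ew, ofPred_and]
  refine IsClosed.inter ?_ (IsClosed.inter ?_ (IsClosed.inter ?_ (IsClosed.inter ?_ ?_))) <;>
    exact isClosed_le continuous_const (by fun_prop)

lemma Kc.zero (k : Kc) (v o : ℝ) : k.Reg v o 0 0 := by
  simp [Kc.Reg, Kc.fA, Kc.fB, Kc.fC, Ez, Ee, Ew]

lemma ev_lt (a : ℝ) {b : ℝ} (hb : 0 < b) : ∀ᶠ x in 𝓝[>] (0 : ℝ), x * a < b :=
  nhdsWithin_le_nhds (ContinuousAt.eventually_lt (by fun_prop) continuousAt_const (by simpa))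

lemma ev_big (a : ℝ) {b : ℝ} (hb : 0 < b) : ∀ᶠ x in atTop, a < b * x :=
  (tendsto_id.const_mul_atTop hb).eventually_gt_atTop a

lemma ev_step {f : ℝ → ℝ} {d t : ℝ} (h : HasDerivAt f d t) (h0 : 0 ≤ f t) (h1 : f t = 0 → 0 < d) :
    ∀ᶠ s in 𝓝[>] t, 0 ≤ f s := by
  rcases h0.eq_or_lt with h2 | h2
  · exact (ev_gt h (h1 h2.symm)).mono fun s hs => h2.le.trans hs.le
  · exact nhdsWithin_le_nhds ((continuousAt_const.eventually_lt h.continuousAt h2).mono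
      fun s hs => hs.le)

lemma Ps_le {D M v o : ℝ} {σ u : ℂ} (D0 : 0 ≤ D) (hv : |v| ≤ M) (ho : |o| ≤ M) {K : ℝ}
    (hK : K = D + (M ^ 2 + 2 * D + 1) * (2 * M + 1) + (M ^ 2 + M)) :
    Ps D v o σ u ≤ (K ^ 2 * (normSq σ + normSq u)) ^ 2 := by
  have M0 := (abs_nonneg _).trans hv
  obtain ⟨s, s0, hs⟩ : ∃ s, 0 ≤ s ∧ s ^ 2 = normSq σ + normSq u :=
    ⟨_, Real.sqrt_nonneg _, Real.sq_sqrt (add_nonneg (normSq_nonneg _) (normSq_nonneg _))⟩
  have b : ∀ x : ℝ, x * x ≤ s ^ 2 → |x| ≤ s := fun x h => abs_le_of_sq_le_sq (by linarith) s0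
  rw [← hs]
  rw [normSq_apply, normSq_apply] at hs
  have a1 := mul_self_nonneg σ.re
  have a2 := mul_self_nonneg σ.im
  have a3 := mul_self_nonneg u.re
  have a4 := mul_self_nonneg u.im
  have x1 := b σ.re (by linarith)
  have y1 := b σ.im (by linarith)
  have p1 := b u.re (by linarith)
  have q1 := b u.im (by linarith)
  have n1 : |v * σ.re + u.re| ≤ M * s + s := (abs_add_le _ _).trans (add_le_add (abs_mul_le hv x1) p1)
  have w1 : |Ew v o σ u| ≤ M * s + s + M * s := (abs_sub _ _).trans (add_le_add n1 (abs_mul_le ho y1))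
  have o2 : |o ^ 2| ≤ M ^ 2 := by rw [abs_pow]; exact pow_le_pow_left₀ (abs_nonneg _) ho 2
  have z1 : |Ez D v o σ u| ≤ _ := (abs_add_le _ _).trans (add_le_add (abs_mul_le o2 w1)
    (abs_mul_le (abs_of_nonneg (by positivity)).le n1))
  have e1 : |Ee D v o σ u| ≤ _ := (abs_add_le _ _).trans (add_le_add ((abs_add_le _ _).trans
    (add_le_add (abs_mul_le (abs_of_nonneg D0).le x1) (abs_mul_le hv n1))) (abs_mul_le ho
      ((abs_add_le _ _).trans (add_le_add q1 (abs_mul_le ho x1)))))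
  have c1 := mul_nonneg M0 s0
  have c2 := mul_nonneg D0 s0
  have c3 := mul_nonneg M0 c1
  have c4 := mul_nonneg M0 c2
  have c5 := mul_nonneg M0 c3
  have w2 : |Ew v o σ u| ≤ K * s := by rw [hK]; linarith
  have z2 : |Ez D v o σ u| ≤ K * s := by rw [hK]; linarith
  have e2 : |Ee D v o σ u| ≤ K * s := by rw [hK]; linarith
  have e3 := pow_le_pow_left₀ (abs_nonneg _) e2 2
  rw [sq_abs] at e3
  rw [Ps, show (K ^ 2 * s ^ 2) ^ 2 = (K * s) ^ 2 * (K * s * (K * s)) by ring]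
  exact (mul_le_mul_of_nonneg_left ((sub_le_self _ (sq_nonneg _)).trans
    ((le_abs_self _).trans (abs_mul_le w2 z2))) (sq_nonneg _)).trans
      (mul_le_mul_of_nonneg_right e3 (mul_self_nonneg _))

theorem reg_main {U B M c0 : ℝ} (hU : 0 < U) (hB : 0 < B) (M0 : 0 < M) (c1 : 0 < c0)
    (nb : ℝ) : ∃ (k : Kc) (ε κ C : ℝ), 0 < ε ∧ 0 < κ ∧ 0 < C ∧
    (∀ v o σ u, |v| ≤ M → |o| ≤ M → Ps (U + B) v o σ u ≤ (C * (normSq σ + normSq u)) ^ 2 ∧
      (k.Reg v o σ u → (normSq σ + normSq u) ^ 2 ≤ C ^ 2 * Ps (U + B) v o σ u)) ∧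
    (∀ v o n ξ : ℝ, |v| ≤ M → |o| ≤ M → 0 ≤ ξ → 0 ≤ n → n ≤ nb → c0 ≤ U + B + v * n →
      c0 ≤ 2 * (U + B) * n ^ 2 - (U + B) ^ 2 → k.Reg v o ξ (ξ * (n - v) : ℝ)) ∧
    ∀ (v o : ℝ → ℝ) (σ u : ℝ → ℂ) (t g d : ℝ) (E : ℂ), 0 < g → HasDerivAt v (g * d) t →
      HasDerivAt o (-(g * v t / 2 * o t)) t → HasDerivAt σ (g * u t) t →
      HasDerivAt u (g * (-(v t / 2 * u t) - 2 * I * o t * u t + (((U + (U + B) / 2 : ℝ) * σ t
        + (3 / 2 * (U + B) : ℝ) * conj (σ t))) + E)) t → |v t| ≤ M → |o t| ≤ M →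
      |d - (v t ^ 2 / 2 + o t ^ 2 - U)| ≤ ε → d ≤ o t ^ 2 / 2 + ε →
      normSq E ≤ ε ^ 2 * (normSq (σ t) + normSq (u t)) → k.Reg (v t) (o t) (σ t) (u t) →
      (0 < normSq (σ t) + normSq (u t) → ∀ᶠ s in 𝓝[>] t, k.Reg (v s) (o s) (σ s) (u s)) ∧
        ∃ d', HasDerivAt (fun s => Ps (U + B) (v s) (o s) (σ s) (u s)) d' t ∧
          g * (κ * Ps (U + B) (v t) (o t) (σ t) (u t)) ≤ d' := by
  obtain ⟨D, hD⟩ : ∃ D, D = U + B := ⟨_, rfl⟩
  have D0 : 0 < D := by linarith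
  obtain ⟨l, hl⟩ : ∃ l, l = 5 * M + 4 := ⟨_, rfl⟩
  have l0 : 2 ≤ l := by linarith
  obtain ⟨K, hK⟩ : ∃ K, K = 2 * l * M + M ^ 2 + l ^ 2 + 4 * D := ⟨_, rfl⟩
  obtain ⟨M1, m1, m2, m3⟩ := ((eventually_ge_atTop 1).and ((ev_big ((4 * M + 1) ^ 2)
    (show 0 < 8 * D by positivity)).and (ev_big ((D + M * nb + M ^ 2) ^ 2) c1))).exists
  have m0 : 0 < M1 := by linarith
  obtain ⟨δ, d1, d2, d3, d0⟩ := ((ev_lt (3 * K) one_pos).and ((ev_lt (K ^ 2 / 2 + 3 / 2 * l ^ 2 * M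
    + l * M ^ 2 / 2 + 3 / 2 * l ^ 2) hB).and ((ev_lt ((M ^ 2 + 2 * D + l ^ 2) * nb) c1).and
      self_mem_nhdsWithin))).exists
  replace d0 : 0 < δ := d0
  obtain ⟨R, hR, R0⟩ : ∃ R, δ * R = 2 ∧ 0 < R := ⟨2 / δ, by field_simp, by positivity⟩
  obtain ⟨h0, h1, h2⟩ : ∃ h0, 3 / 2 * M = D * h0 ∧ 0 < h0 :=
    ⟨3 / 2 * M / D, by field_simp, by positivity⟩
  obtain ⟨Γ, g1, g0⟩ := ((ev_big (9 / 4 * h0 * R ^ 2) D0).and (eventually_ge_atTop 0)).exists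
  obtain ⟨hm, hm1, hm0⟩ : ∃ hm, hm = h0 * Real.exp (-(Γ * M)) ∧ 0 < hm := ⟨_, rfl, by positivity⟩
  obtain ⟨ν, v1, v0⟩ := ((ev_lt ((Γ + 2) * R) (half_pos D0)).and self_mem_nhdsWithin).exists
  replace v0 : 0 < ν := v0
  obtain ⟨g', g2, g3⟩ : ∃ g', g' * (R * hm + 1) = D * hm ∧ 0 < g' :=
    ⟨D * hm / (R * hm + 1), by field_simp, by positivity⟩
  obtain ⟨K4, k4, k5⟩ : ∃ K4, K4 = 1 + R + (1 + M + M ^ 2) * ((1 + M ^ 2) * R / D) ∧ 0 < K4 :=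
    ⟨_, rfl, by positivity⟩
  obtain ⟨M3, m4, m5⟩ := ((ev_big ((4 * M * K4 + 2) ^ 2) (show 0 < 4 * g' ^ 2 by positivity)).and
    (ev_big ((1 + B) * K4 ^ 2) v0)).exists
  have m6 : 0 < M3 := pos_of_mul_pos_right (lt_trans (by positivity) m5) v0.le
  obtain ⟨C1, k6, k7⟩ : ∃ C1, C1 ^ 2 = 2 * K4 ^ 2 + (1 + B⁻¹) * (M3 * (h0 * Real.exp (Γ * M) * R
      + 1) ^ 2) ∧ 0 < C1 := ⟨_, Real.sq_sqrt (by positivity), by positivity⟩
  obtain ⟨ε1, e1, e2, e3, e4, e5, e6, e0⟩ := ((ev_lt (M1 * R * (1 + M ^ 2 + 2 * D) + 2) one_pos).and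
    ((ev_lt (K * δ + 1) (show (0 : ℝ) < 2 / 3 by norm_num)).and ((ev_lt (M ^ 2 + 2 * D)
      (half_pos D0)).and ((ev_lt 1 (mul_pos D0 hm0)).and ((ev_lt 1 one_half_pos).and
        ((ev_lt (8 * R) one_pos).and self_mem_nhdsWithin)))))).exists
  replace e0 : 0 < ε1 := e0
  obtain ⟨ε, e7, e8, e9⟩ := ((ev_lt ((1 + 2 * M) * (C1 + K4)) e0).and ((ev_lt 1 (half_pos v0)).and
    self_mem_nhdsWithin)).exists
  replace e9 : 0 < ε := e9
  obtain ⟨C, k8, k9⟩ := ((eventually_ge_atTop ((D + (M ^ 2 + 2 * D + 1) * (2 * M + 1)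
    + (M ^ 2 + M)) ^ 2)).and (eventually_ge_atTop (C1 ^ 2 * M1))).exists
  have C0 : 0 < C := lt_of_lt_of_le (by positivity) k9
  let k : Kc := ⟨D, B, l, M1, δ, M3, h0, Γ⟩
  have hh : ∀ v, |v| ≤ M → hm ≤ h0 * Real.exp (-(Γ * v)) ∧
      h0 * Real.exp (-(Γ * v)) ≤ h0 * Real.exp (Γ * M) := fun v hv => by
    rw [hm1]
    constructor <;> gcongr
    · exact (abs_le.1 hv).2
    · linarith [mul_le_mul_of_nonneg_left (abs_le.1 hv).1 g0]
  have sz : ∀ v o σ u, |v| ≤ M → |o| ≤ M → k.Reg v o σ u →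
      Ee D v o σ u ^ 2 ≤ M1 * (Ew v o σ u * Ez D v o σ u - (D * σ.re) ^ 2) ∧
      ((D * σ.re) ^ 2 ≤ Ew v o σ u * Ez D v o σ u ∧ 0 ≤ Ee D v o σ u ∧
        Ew v o σ u ≤ R * Ee D v o σ u ∧ Ez D v o σ u ≤ R * Ee D v o σ u ∧
        |D * σ.re| ≤ R * Ee D v o σ u) ∧ (|σ.re| ≤ K4 * Ee D v o σ u ∧
        |v * σ.re + u.re| ≤ K4 * Ee D v o σ u ∧ |u.re| ≤ K4 * Ee D v o σ u ∧
        |o * σ.im| ≤ K4 * Ee D v o σ u ∧ |o * u.im| ≤ K4 * Ee D v o σ u) ∧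
      normSq σ + normSq u ≤ (C1 * Ee D v o σ u) ^ 2 := fun v o σ u hv ho ⟨w0, z0, a, b, c⟩ => by
    have a1 := reg_size l0 m0 d0 hR w0 z0 (sub_nonneg.1 a) (sub_nonneg.1 b)
    have a2 := lin_bd D0 R0.le hv ho w0 z0 a1.2.1 a1.2.2.1 a1.2.2.2.1 a1.2.2.2.2 k4
    refine ⟨sub_nonneg.1 a, a1, a2, ?_⟩
    have a3 : u.im ^ 2 + B * σ.im ^ 2
        ≤ M3 * (h0 * Real.exp (Γ * M) * R + 1) ^ 2 * Ee D v o σ u ^ 2 := by
      refine (sub_nonneg.1 c).trans ?_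
      rw [mul_assoc M3, ← mul_pow, add_mul, one_mul, mul_assoc _ R]
      exact mul_le_mul_of_nonneg_left (pow_le_pow_left₀ (add_nonneg (mul_nonneg
        (hm0.le.trans (hh v hv).1) z0) a1.2.1) (add_le_add_left (mul_le_mul (hh v hv).2
          a1.2.2.2.1 z0 (by positivity)) _) 2) m6.le
    have a4 := pow_le_pow_left₀ (abs_nonneg _) a2.1 2
    have a5 := pow_le_pow_left₀ (abs_nonneg _) a2.2.2.1 2
    have a6 := mul_le_mul_of_nonneg_left ((le_add_of_nonneg_left (sq_nonneg _)).trans a3)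
      (inv_pos.2 hB).le
    rw [inv_mul_cancel_left₀ hB.ne'] at a6
    rw [sq_abs] at a4 a5
    rw [mul_pow, k6, normSq_apply, normSq_apply]
    linarith [mul_nonneg hB.le (sq_nonneg σ.im)]
  refine ⟨k, ε, (4 * R)⁻¹, C, e9, by positivity, C0, fun v o σ u hv ho => ⟨?_, fun h => ?_⟩,
    fun v o n ξ hv ho x0 n1 n2 n3 n4 => ?_,
    fun v o σ u t g d E g4 dv dO dσ du hv ho a1 a2 a3 h => ?_⟩
  · have := add_nonneg (normSq_nonneg σ) (normSq_nonneg u)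
    refine (Ps_le (hD ▸ D0.le) hv ho rfl).trans ?_
    rw [← hD]
    gcongr
  · obtain ⟨b1, -, -, b2⟩ := sz v o σ u hv ho h
    have b3 := pow_le_pow_left₀ (add_nonneg (normSq_nonneg σ) (normSq_nonneg u)) b2 2
    have b4 := mul_le_mul_of_nonneg_left b1 (sq_nonneg (Ee D v o σ u))
    have b5 : 0 ≤ Ps D v o σ u := nonneg_of_mul_nonneg_right (a := M1)
      (by rw [Ps]; linarith [sq_nonneg (Ee D v o σ u ^ 2)]) m0
    have b6 : C1 ^ 4 * M1 ≤ C ^ 2 := le_trans (by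
      linarith [mul_le_mul_of_nonneg_left m1 (show 0 ≤ C1 ^ 4 * M1 by positivity)])
      (pow_le_pow_left₀ (by positivity) k9 2)
    rw [← hD]
    refine b3.trans (le_trans ?_ (mul_le_mul_of_nonneg_right b6 b5))
    rw [Ps]
    linarith [mul_le_mul_of_nonneg_left b4 (show 0 ≤ C1 ^ 4 by positivity)]
  · rw [← hD] at n3 n4
    have o2 : o ^ 2 ≤ M ^ 2 := sq_abs o ▸ pow_le_pow_left₀ (abs_nonneg _) ho 2
    have b1 : Ew v o ξ (ξ * (n - v) : ℝ) = ξ * n := by simp only [Ew, ofReal_re, ofReal_im]; ring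
    have b2 : Ez D v o ξ (ξ * (n - v) : ℝ) = ξ * ((o ^ 2 + 2 * D) * n) := by
      simp only [Ez, b1, ofReal_re]; ring
    have b3 : Ee D v o ξ (ξ * (n - v) : ℝ) = ξ * (D + v * n + o ^ 2) := by
      simp only [Ee, ofReal_re, ofReal_im]; ring
    have b4 : D + v * n + o ^ 2 ≤ D + M * nb + M ^ 2 := by
      linarith [mul_le_mul (abs_le.1 hv).2 n2 n1 M0.le]
    have b5 := pow_le_pow_left₀ (by linarith [sq_nonneg o]) b4 2
    have b6 : (o ^ 2 + 2 * D + l ^ 2) * n ≤ (M ^ 2 + 2 * D + l ^ 2) * nb := by gcongr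
    simp only [Kc.Reg, Kc.fA, Kc.fB, Kc.fC, k, b1, b2, b3, ofReal_re, ofReal_im]
    refine ⟨by positivity, by positivity, ?_, ?_, by simpa using by positivity⟩
    · have : 0 ≤ M1 * ((o ^ 2 + 2 * D) * n ^ 2 - D ^ 2) - (D + v * n + o ^ 2) ^ 2 := by
        linarith [mul_le_mul_of_nonneg_left n4 m0.le, mul_nonneg m0.le (sq_nonneg (o * n))]
      linarith [mul_nonneg (sq_nonneg ξ) this]
    · have : 0 ≤ D + v * n + o ^ 2 - δ * ((o ^ 2 + 2 * D + l ^ 2) * n - l * D) := by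
        linarith [mul_le_mul_of_nonneg_left b6 d0.le, sq_nonneg o,
          mul_pos d0 (mul_pos (two_pos.trans_le l0) D0)]
      linarith [mul_nonneg x0 this]
  obtain ⟨b1, ⟨b2, b3, b4, b5, b6⟩, ⟨b7, b8, b9, c2, c3⟩, c4⟩ := sz _ _ _ _ hv ho h
  obtain ⟨w0, z0, fa, fb, fc⟩ := h
  replace z0 : 0 ≤ Ez D (v t) (o t) (σ t) (u t) := z0
  obtain ⟨dw, dz, dX, de, dy, dq⟩ := hd_E dv dO dσ du rfl rfl rfl rfl rfl rfl
  simp only [← hD] at dw dz dX de ⊢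
  have o2 : o t ^ 2 ≤ M ^ 2 := sq_abs (o t) ▸ pow_le_pow_left₀ (abs_nonneg _) ho 2
  have c6 : ∀ x : ℝ, x * x ≤ normSq E → |x| ≤ ε * (C1 * Ee D (v t) (o t) (σ t) (u t)) :=
    fun x hx => abs_le_of_sq_le_sq (by
      rw [mul_pow]; linarith [mul_le_mul_of_nonneg_left c4 (sq_nonneg ε)]) (by positivity)
  have c7 := c6 E.re (by rw [normSq_apply]; linarith [mul_self_nonneg E.im])
  have c8 := c6 E.im (by rw [normSq_apply]; linarith [mul_self_nonneg E.re])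
  have c9 := (abs_add_le _ _).trans (add_le_add c7 (abs_mul_le a1 b7))
  have f1 := (abs_add_le _ _).trans (add_le_add ((abs_add_le _ _).trans (add_le_add
    (abs_mul_le a1 b8) (abs_mul_le hv c9))) (abs_mul_le ho c8))
  have f2 := mul_le_mul_of_nonneg_right e7.le b3
  have f3 := mul_nonneg e9.le (mul_nonneg k7.le b3)
  have f4 := mul_nonneg e9.le (mul_nonneg k5.le b3)
  have f5 := mul_nonneg M0.le f3
  have f6 := mul_nonneg M0.le f4
  replace c9 := c9.trans (show _ ≤ ε1 * Ee D (v t) (o t) (σ t) (u t) by linarith)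
  replace f1 := f1.trans (show _ ≤ ε1 * Ee D (v t) (o t) (σ t) (u t) by linarith)
  replace c8 := c8.trans (show _ ≤ Ee D (v t) (o t) (σ t) (u t) by
    linarith [mul_le_mul_of_nonneg_right e5.le b3])
  have dL := (dw.mul dz).sub (dX.fun_pow 2)
  refine ⟨fun S0 => ?_, _, (de.fun_pow 2).mul dL, le_trans (mul_le_mul_of_nonneg_left
    (barP (v := v t) (o := o t) hB.le D0.le R0 (by linarith) (by linarith) w0 z0 b3 b4 b2 c9 f1)
      g4.le) (le_of_eq (by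
        simp only [Nat.cast_ofNat, Nat.add_one_sub_one, pow_one]
        ring))⟩
  have c5 : 0 < Ee D (v t) (o t) (σ t) (u t) :=
    lt_of_le_of_ne b3 fun h => by rw [← h] at c4; linarith
  have f7 : 0 < Ew (v t) (o t) (σ t) (u t) * Ez D (v t) (o t) (σ t) (u t) := by
    linarith [pos_of_mul_pos_right ((pow_pos c5 2).trans_le b1) m0.le, sq_nonneg (D * (σ t).re)]
  have dh := (dv.const_mul Γ).neg.exp.const_mul h0
  refine (ev_step dw w0 fun h => by simp [h] at f7).and ((ev_step dz z0 fun h => by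
    simp [h] at f7).and ((ev_step ((dL.const_mul M1).sub (de.fun_pow 2)) fa fun h => ?_).and
      ((ev_step (de.sub (((dz.sub (dX.const_mul l)).add (dw.const_mul (l ^ 2))).const_mul δ)) fb
        fun h => ?_).and (ev_step (((((dh.mul dz).add de).fun_pow 2).const_mul M3).sub
          ((dq.fun_pow 2).add ((dy.fun_pow 2).const_mul B))) fc fun h => ?_))))
  · refine lt_of_lt_of_eq (mul_pos g4 (barA (B := B) (by linarith) D0.le m1 m2.le e1 hv o2 w0 z0 c5 b4 b5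
      c9 f1 (sub_eq_zero.1 h).symm)) ?_
    simp only [Nat.cast_ofNat, Nat.add_one_sub_one, pow_one]
    ring
  · refine lt_of_lt_of_eq (mul_pos g4 (barB D0.le M0.le hl hK.ge d0 (by linarith) d2.le e2 hv o2
      w0 z0 c5 b2 c9 f1 (sub_eq_zero.1 h).symm)) ?_
    ring
  · replace h := (sub_eq_zero.1 h).symm
    simp only [Pi.add_apply, Pi.mul_apply, Pi.neg_apply] at h ⊢
    have j0 : 0 < h0 * Real.exp (-(Γ * v t)) := by positivity
    have j1 := mul_nonneg j0.le z0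
    have j2 : o t ^ 2 ≤ ν := by
      by_contra j2
      have j3 := pow_le_pow_left₀ (abs_nonneg _) c2 2
      have j4 := pow_le_pow_left₀ (abs_nonneg _) c3 2
      have j5 := pow_le_pow_left₀ c5.le (le_add_of_nonneg_left j1) 2
      have j6 := mul_le_mul_of_nonneg_right (not_le.1 j2).le
        (add_nonneg (sq_nonneg (u t).im) (mul_nonneg hB.le (sq_nonneg (σ t).im)))
      rw [sq_abs] at j3 j4
      nth_rewrite 1 [h] at j6
      linarith [mul_le_mul_of_nonneg_left j3 hB.le, mul_lt_mul_of_pos_right m5 (pow_pos c5 2),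
        mul_le_mul_of_nonneg_left j5 (mul_pos v0 m6).le]
    have j3 := barS (d := d) hB.le D0.le g0 v0.le (by linarith) (by linarith) hm0.le (hh _ hv).1
      (fun j => h1.trans_le (mul_le_mul_of_nonneg_left (le_mul_of_one_le_right h2.le
        (Real.one_le_exp (neg_nonneg.2 (mul_nonpos_of_nonneg_of_nonpos g0 j)))) D0.le))
      (fun j => by
        have j4 := mul_le_mul_of_nonneg_left (Real.add_one_le_exp (Γ * v t)) j0.le
        rw [mul_assoc h0 _ (Real.exp _), ← Real.exp_add, neg_add_cancel, Real.exp_zero] at j4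
        have j5 := mul_le_mul_of_nonneg_left j (mul_nonneg j0.le g0)
        have j6 := mul_le_mul_of_nonneg_left g1.le j0.le
        refine le_of_mul_le_mul_left ?_ (show 0 < 3 / 2 * h0 * R by positivity)
        linarith [mul_le_mul_of_nonneg_right j4 R0.le, mul_pos j0 R0])
      hv o2 (by linarith) (by linarith) w0 z0 c5 b5 b6 c9 f1
    have j4 : g' * (h0 * Real.exp (-(Γ * v t)) * Ez D (v t) (o t) (σ t) (u t)
        + Ee D (v t) (o t) (σ t) (u t))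
        ≤ D * (h0 * Real.exp (-(Γ * v t))) * Ee D (v t) (o t) (σ t) (u t) := by
      refine le_of_mul_le_mul_left ?_ hm0
      have j5 := mul_le_mul_of_nonneg_left b5 (mul_pos (mul_pos hm0 g3) j0).le
      have j6 := mul_le_mul_of_nonneg_right (hh _ hv).1 (mul_pos g3 c5).le
      linear_combination j5 + j6
        + h0 * Real.exp (-(Γ * v t)) * Ee D (v t) (o t) (σ t) (u t) * g2
    refine lt_of_lt_of_eq (mul_pos g4 (barC hB.le g3 M0.le m4 ho c5 (le_add_of_nonneg_left j1)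
      b9 c8 ((sub_le_sub_right j4 _).trans j3) h)) ?_
    simp only [Nat.cast_ofNat, Nat.add_one_sub_one, pow_one]
    ring

end Pool.Agent.Lib.MP_6e7c44_mp.Hg
end
end
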