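import Pool.Agent.Lib.MP_6e7c44_mp.HPhys
import Pool.Agent.Lib.MP_6e7c44_mp.HEReg

/-!
The escape region: a tight binary and a third body that recedes fast.
-/

set_option autoImplicit false

open Set Filter Topology Metric Complex ComplexConjugate

noncomputable section

namespace Pool.Agent.Lib.MP_6e7c44_mp.Hg

variable (m : Fin 3 → ℝ)

def rho (p : St) (k : Fin 3) : ℂ :=
  (m (k + 2) * QQ p (k + 1) - m (k + 1) * QQ p (k + 2)) / (MM m - m k : ℝ)
def rhd (p : St) (k : Fin 3) : ℂ :=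
  MM m * (m (k + 2) * PQ p (k + 1) - m (k + 1) * PQ p (k + 2)) / (MM m - m k : ℝ)
def rhdd (p : St) (k : Fin 3) : ℂ :=
  -(MM m * (m (k + 2) * ff (QQ p (k + 1)) - m (k + 1) * ff (QQ p (k + 2))) / (MM m - m k : ℝ))
def jj (p : St) (k : Fin 3) : ℝ := (conj (rho m p k) * rhd m p k).re
def nu (k : Fin 3) : ℝ := m k * (MM m - m k) / MM m
def mu (k : Fin 3) : ℝ := nn m k / (MM m - m k)
def C3 (k : Fin 3) : ℝ := 4 * (m k * (MM m - m k))
def Yh (p : St) (k : Fin 3) : ℂ :=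
  (MM m - m k : ℝ) * p.2.1 k - m k * conj (p.1 k) * (PQ p (k + 1) + PQ p (k + 2))
def EscK (k : Fin 3) : Set St := {p | p.1 (k + 1) ≠ 0 ∧ p.1 (k + 2) ≠ 0 ∧
  2 * aa p k < ‖rho m p k‖ ∧ 0 < jj m p k ∧
  2 * (C3 m k + 2 * nn m k) * ‖rho m p k‖ < nu m k * jj m p k ^ 2}
def Esc : Set St := ⋃ k, EscK m k

@[fun_prop] lemma c_QQ (k : Fin 3) : Continuous fun p => QQ p k := by unfold QQ; fun_prop
@[fun_prop] lemma c_rho (k : Fin 3) : Continuous fun p => rho m p k := by unfold rho; fun_prop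

variable {m} {p : St} {k : Fin 3}

lemma cAt_PQ (h : p.1 k ≠ 0) : ContinuousAt (fun p => PQ p k) p := by
  have : conj (p.1 k) ≠ 0 := (map_ne_zero _).2 h
  unfold PQ; fun_prop (disch := assumption)

lemma cAt_rhd (h1 : p.1 (k + 1) ≠ 0) (h2 : p.1 (k + 2) ≠ 0) :
    ContinuousAt (fun p => rhd m p k) p := by
  have := cAt_PQ h1
  have := cAt_PQ h2
  unfold rhd; fun_prop

lemma cAt_jj (h1 : p.1 (k + 1) ≠ 0) (h2 : p.1 (k + 2) ≠ 0) :
    ContinuousAt (fun p => jj m p k) p := by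
  have := cAt_rhd (m := m) h1 h2
  unfold jj; fun_prop

lemma isOpen_Esc : IsOpen (Esc m) := by
  refine isOpen_iUnion fun k => isOpen_iff_mem_nhds.2 fun p hp => ?_
  obtain ⟨h1, h2, h3, h4, h5⟩ := hp
  have c := cAt_jj (m := m) h1 h2
  have c1 : ContinuousAt (fun p : St => p.1 (k + 1)) p := by fun_prop
  have c2 : ContinuousAt (fun p : St => p.1 (k + 2)) p := by fun_prop
  filter_upwards [c1.eventually_ne h1, c2.eventually_ne h2,
    ContinuousAt.eventually_lt (f := fun p => 2 * aa p k) (g := fun p => ‖rho m p k‖)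
      (by fun_prop) (by fun_prop) h3, continuousAt_const.eventually_lt c h4,
    ContinuousAt.eventually_lt (f := fun p => 2 * (C3 m k + 2 * nn m k) * ‖rho m p k‖)
      (g := fun p => nu m k * jj m p k ^ 2) (by fun_prop) (by fun_prop) h5] with q a b c d e
  exact ⟨a, b, c, d, e⟩

lemma sc_Esc {l : ℝ} (hl : 0 < l) (hp : p ∈ Esc m) : sc l p ∈ Esc m := by
  obtain ⟨k, h1, h2, h3, h4, h5⟩ := mem_iUnion.1 hp
  have hl' : (l : ℂ) ≠ 0 := ofReal_ne_zero.2 hl.ne'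
  have e1 : rho m (sc l p) k = (l ^ 2 : ℝ) * rho m p k := by
    simp only [rho, QQ, sc_z]; push_cast; ring
  have e2 : (l : ℂ) * rhd m (sc l p) k = rhd m p k := by
    simp only [rhd, PQ, sc_z, sc_y, map_mul, conj_ofReal, div_eq_mul_inv, mul_inv]
    generalize (conj (p.1 (k + 1)))⁻¹ = a
    generalize (conj (p.1 (k + 2)))⁻¹ = b
    generalize (((MM m - m k : ℝ) : ℂ))⁻¹ = c
    field_simp
  have e3 : jj m (sc l p) k = l * jj m p k := by
    unfold jj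
    rw [e1, ← e2, ← re_ofReal_mul, map_mul, conj_ofReal]
    congr 1
    push_cast; ring
  have e4 : ‖rho m (sc l p) k‖ = l ^ 2 * ‖rho m p k‖ := by
    rw [e1, norm_mul, norm_real, Real.norm_of_nonneg (sq_nonneg _)]
  have l2 : 0 < l ^ 2 := by positivity
  refine mem_iUnion.2 ⟨k, by rw [sc_z]; exact mul_ne_zero hl' h1,
    by rw [sc_z]; exact mul_ne_zero hl' h2, ?_, ?_, ?_⟩
  · rw [e4, sc_aa]; nlinarith
  · rw [e3]; positivity
  · rw [e4, e3]; nlinarith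

lemma nu_pos (hm : ∀ k, 0 < m k) (k : Fin 3) : 0 < nu m k :=
  div_pos (mul_pos (hm k) (MM_sub_pos hm k)) (MM_pos hm)
lemma mu_pos (hm : ∀ k, 0 < m k) (k : Fin 3) : 0 < mu m k :=
  div_pos (nn_pos hm k) (MM_sub_pos hm k)
lemma C3_pos (hm : ∀ k, 0 < m k) (k : Fin 3) : 0 < C3 m k :=
  mul_pos four_pos (mul_pos (hm k) (MM_sub_pos hm k))

lemma sq_rel (hq : SQ p = 0) (k : Fin 3) : QQ p (k + 2) = -QQ p k - QQ p (k + 1) := by
  unfold SQ at hq
  rw [sum3 _ k] at hq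
  unfold QQ
  linear_combination hq

lemma MM_sub (k : Fin 3) : MM m - m k = m (k + 1) + m (k + 2) := by rw [MM_eq m k]; ring

lemma II_split (hm : ∀ k, 0 < m k) (hq : SQ p = 0) (k : Fin 3) :
    rr m p ^ 2 = mu m k * aa p k ^ 2 + nu m k * ‖rho m p k‖ ^ 2 := by
  have h1 := (MM_pos hm).ne'
  have h2 := (MM_sub_pos hm k).ne'
  rw [rr_sq hm, II_eq, ← nsq_QQ, ← normSq_eq_norm_sq]
  unfold nq mu nu rho
  rw [map_div₀, normSq_ofReal, sum3 _ k, sq_rel hq k]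
  field_simp
  rw [MM_sub k, MM_eq m k]
  simp only [nn, f11, f12, f21, f22, normSq_apply, mul_re, mul_im, sub_re, sub_im, neg_re, neg_im,
    ofReal_re, ofReal_im]
  ring

lemma Jc_split (hm : ∀ k, 0 < m k) (hq : SQ p = 0) (h1 : p.1 (k + 1) ≠ 0) (h2 : p.1 (k + 2) ≠ 0) :
    Jc m p = mu m k * (conj (p.1 k) * Yh m p k) + nu m k * (conj (rho m p k) * rhd m p k) := by
  have a1 : (MM m : ℂ) ≠ 0 := ofReal_ne_zero.2 (MM_pos hm).ne'
  have a2 : ((MM m - m k : ℝ) : ℂ) ≠ 0 := ofReal_ne_zero.2 (MM_sub_pos hm k).ne'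
  have h3 := congrArg conj (sq_rel hq k)
  unfold Jc mu nu rho rhd Yh
  rw [sum3 _ k, y_eq h1, y_eq h2]
  simp only [QQ, map_sub, map_neg, map_pow, map_mul, map_div₀, conj_ofReal, ofReal_div,
    ofReal_mul] at h3 ⊢
  field_simp
  rw [h3, MM_sub k]
  simp only [nn, f11, f12, f21, f22]
  push_cast
  ring

set_option maxRecDepth 4000 in
lemma energy_split (hm : ∀ k, 0 < m k) (hp : p ∈ Man m) (h1 : p.1 (k + 1) ≠ 0)
    (h2 : p.1 (k + 2) ≠ 0) : mu m k * normSq (Yh m p k) / 2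
      + nu m k * aa p k * normSq (rhd m p k) / 2
      = nn m k + aa p k * (nn m (k + 1) / aa p (k + 1) + nn m (k + 2) / aa p (k + 2) + p.2.2) := by
  have a1 := (MM_pos hm).ne'
  have a2 := (MM_sub_pos hm k).ne'
  have a3 : aa p (k + 1) ≠ 0 := (normSq_pos.2 h1).ne'
  have a4 : aa p (k + 2) ≠ 0 := (normSq_pos.2 h2).ne'
  have h3 := Gam_eq m p k
  rw [hp.2.2.2] at h3
  unfold DD CC EE at h3
  rw [bb_eq h1, bb_eq h2, nsq_y h1, nsq_y h2, PP_eq m k] at h3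
  unfold mu nu rhd Yh
  rw [map_div₀, normSq_ofReal]
  field_simp
  have e : aa p k = (p.1 k).re ^ 2 + (p.1 k).im ^ 2 := by rw [aa, normSq_apply]; ring
  rw [MM_sub k] at h3 ⊢
  rw [MM_eq m k] at h3 ⊢
  simp only [nn, bb, f11, f12, f21, f22, normSq_apply, mul_re, mul_im, sub_re, sub_im, add_re,
    add_im, ofReal_re, ofReal_im, conj_re, conj_im, e] at h3 ⊢
  linear_combination -2 * (m (k + 1) + m (k + 2)) * (m k + m (k + 1) + m (k + 2)) * h3

lemma norm_ge_half (hm : ∀ k, 0 < m k) (hq : SQ p = 0) (h : 2 * aa p k ≤ ‖rho m p k‖) :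
    ‖rho m p k‖ / 2 ≤ aa p (k + 1) ∧ ‖rho m p k‖ / 2 ≤ aa p (k + 2) := by
  have a2 : ((MM m - m k : ℝ) : ℂ) ≠ 0 := ofReal_ne_zero.2 (MM_sub_pos hm k).ne'
  have b : ∀ j, j = k + 1 ∨ j = k + 2 → ‖((m j / (MM m - m k) : ℝ) : ℂ) * QQ p k‖ ≤ aa p k := by
    intro j hj
    rw [norm_mul, norm_real, norm_QQ, Real.norm_of_nonneg (div_pos (hm j) (MM_sub_pos hm k)).le]
    refine mul_le_of_le_one_left (aa_nonneg _ _) ((div_le_one (MM_sub_pos hm k)).2 ?_)
    rw [MM_sub k]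
    rcases hj with rfl | rfl <;> linarith [hm (k + 1), hm (k + 2)]
  have e1 : rho m p k = QQ p (k + 1) + (m (k + 1) / (MM m - m k) : ℝ) * QQ p k := by
    unfold rho
    rw [sq_rel hq k, ofReal_div]
    field_simp
    rw [MM_sub k]; push_cast; ring
  have e2 : rho m p k = -QQ p (k + 2) + -((m (k + 2) / (MM m - m k) : ℝ) * QQ p k) := by
    unfold rho
    rw [sq_rel hq k, ofReal_div]
    field_simp
    rw [MM_sub k]; push_cast; ring
  have n1 := norm_add_le (QQ p (k + 1)) ((m (k + 1) / (MM m - m k) : ℝ) * QQ p k)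
  have n2 := norm_add_le (-QQ p (k + 2)) (-((m (k + 2) / (MM m - m k) : ℝ) * QQ p k))
  rw [← e1, norm_QQ] at n1
  rw [← e2, norm_neg, norm_neg, norm_QQ] at n2
  constructor <;> linarith [b _ (Or.inl rfl), b _ (Or.inr rfl)]

lemma norm_ff {x : ℂ} (h : x ≠ 0) : ‖ff x‖ = (‖x‖ ^ 2)⁻¹ := by
  have := norm_pos_iff.2 h
  unfold ff
  rw [norm_mul, norm_real, Real.norm_of_nonneg (by positivity)]
  field_simp

lemma rhdd_le (hm : ∀ k, 0 < m k) (hq : SQ p = 0) (h : 2 * aa p k ≤ ‖rho m p k‖) {R : ℝ}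
    (hR : 0 < R) (h0 : R ≤ ‖rho m p k‖) : ‖rhdd m p k‖ ≤ 4 * MM m / R ^ 2 := by
  obtain ⟨h1, h2⟩ := norm_ge_half hm hq h
  have b : ∀ j, ‖rho m p k‖ / 2 ≤ aa p j → ‖ff (QQ p j)‖ ≤ 4 / R ^ 2 := by
    intro j hj
    rw [← norm_QQ] at hj
    rw [norm_ff (norm_pos_iff.1 (by linarith)), inv_eq_one_div,
      div_le_div_iff₀ (pow_pos (by linarith) 2) (by positivity)]
    nlinarith
  have b1 := b _ h1
  have b2 := b _ h2
  have a2 := MM_sub_pos hm k
  unfold rhdd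
  rw [norm_neg, norm_div, norm_mul, norm_real, norm_real, Real.norm_of_nonneg (MM_pos hm).le,
    Real.norm_of_nonneg a2.le, div_le_iff₀ a2]
  have n1 := norm_sub_le (m (k + 2) * ff (QQ p (k + 1))) (m (k + 1) * ff (QQ p (k + 2)))
  rw [norm_mul, norm_mul, norm_real, norm_real, Real.norm_of_nonneg (hm _).le,
    Real.norm_of_nonneg (hm _).le] at n1
  have n2 := mul_le_mul_of_nonneg_left b1 (hm (k + 2)).le
  have n3 := mul_le_mul_of_nonneg_left b2 (hm (k + 1)).le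
  calc MM m * ‖m (k + 2) * ff (QQ p (k + 1)) - m (k + 1) * ff (QQ p (k + 2))‖
      ≤ MM m * (m (k + 2) * (4 / R ^ 2) + m (k + 1) * (4 / R ^ 2)) := by
        have := MM_pos hm
        gcongr; linarith
    _ = _ := by rw [MM_sub k]; ring

lemma pot_le (hm : ∀ k, 0 < m k) (hq : SQ p = 0) (h : 2 * aa p k ≤ ‖rho m p k‖)
    (h0 : 0 < ‖rho m p k‖) :
    nn m (k + 1) / aa p (k + 1) + nn m (k + 2) / aa p (k + 2) ≤ C3 m k / ‖rho m p k‖ := by
  obtain ⟨h1, h2⟩ := norm_ge_half hm hq h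
  have b1 := div_le_div_of_nonneg_left (nn_pos hm (k + 1)).le (half_pos h0) h1
  have b2 := div_le_div_of_nonneg_left (nn_pos hm (k + 2)).le (half_pos h0) h2
  have e : nn m (k + 1) / (‖rho m p k‖ / 2) + nn m (k + 2) / (‖rho m p k‖ / 2)
      = C3 m k / ‖rho m p k‖ / 2 := by
    unfold C3 nn
    rw [MM_sub k, f11, f12, f21, f22]
    field_simp
    ring
  have := div_pos (C3_pos hm k) h0
  linarith

lemma jj_sq_le : jj m p k ^ 2 ≤ ‖rho m p k‖ ^ 2 * normSq (rhd m p k) := by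
  have h := abs_re_le_norm (conj (rho m p k) * rhd m p k)
  rw [norm_mul, norm_conj] at h
  rw [normSq_eq_norm_sq, ← mul_pow, ← sq_abs]
  exact pow_le_pow_left₀ (abs_nonneg _) h 2

section curve
variable {γ : ℝ → St} {t : ℝ}

lemma crho (hm : ∀ k, 0 < m k) (hn : NC (γ t)) (h : HasDerivAt γ (YY m (γ t)) t) :
    HasDerivAt (fun s => rho m (γ s) k) ((al m (γ t) * gg (γ t) : ℝ) * rhd m (γ t) k) t := by
  have a2 : ((MM m - m k : ℝ) : ℂ) ≠ 0 := ofReal_ne_zero.2 (MM_sub_pos hm k).ne'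
  refine ((((cQ hn h (k + 1)).const_mul (m (k + 2) : ℂ)).sub
    ((cQ hn h (k + 2)).const_mul (m (k + 1) : ℂ))).div_const _).congr_deriv ?_
  unfold rhd VV
  field_simp
  ring

lemma crhd (hm : ∀ k, 0 < m k) (hp : γ t ∈ Man m) (hn : NC (γ t))
    (h : HasDerivAt γ (YY m (γ t)) t) :
    HasDerivAt (fun s => rhd m (γ s) k) ((al m (γ t) * gg (γ t) : ℝ) * rhdd m (γ t) k) t := by
  have a2 : ((MM m - m k : ℝ) : ℂ) ≠ 0 := ofReal_ne_zero.2 (MM_sub_pos hm k).ne'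
  refine (((((cP hm hp (hn (k + 1)) h).const_mul (m (k + 2) : ℂ)).sub
    ((cP hm hp (hn (k + 2)) h).const_mul (m (k + 1) : ℂ))).const_mul
      (MM m : ℂ)).div_const _).congr_deriv ?_
  unfold rhdd
  field_simp
  ring

end curve

lemma bigF_real {μ ν C N F r a R J d j : ℝ} (hμ : 0 < μ) (hν : 0 < ν) (hC : 0 < C) (N0 : 0 < N)
    (hr : 0 < r) (a0 : 0 ≤ a) (R0 : 0 ≤ R) (hJ : 0 < J) (eF : J ^ 2 = F * r)
    (hF : 1 + 4 * N ^ 2 * (μ + 4 * ν) + 16 * μ * N ^ 2 + 8 * C * (1 + ν) ≤ F)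
    (b1 : F * a ≤ 2 * r * N) (hI : r ^ 2 = μ * a ^ 2 + ν * R ^ 2) (hd : d ^ 2 ≤ μ * a * (2 * N))
    (hJs : J = d + ν * j) : 2 * a < R ∧ 0 < j ∧ 2 * C * R < ν * j ^ 2 := by
  have t1 : 0 ≤ 4 * N ^ 2 * (μ + 4 * ν) := by positivity
  have t2 : 0 ≤ 16 * μ * N ^ 2 := by positivity
  have t3 : 0 ≤ 8 * C * (1 + ν) := by positivity
  have F1 : 1 ≤ F := by linarith
  have F2 : F ≤ F ^ 2 := by nlinarith
  have b2 : 2 * a < R := by
    by_contra h3
    have c1 : R ^ 2 ≤ (2 * a) ^ 2 := pow_le_pow_left₀ R0 (not_lt.1 h3) 2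
    have c2 : r ^ 2 ≤ (μ + 4 * ν) * a ^ 2 := by nlinarith
    have c3 : (F * a) ^ 2 ≤ (2 * r * N) ^ 2 := pow_le_pow_left₀ (by positivity) b1 2
    have c4 : F ^ 2 * r ^ 2 ≤ 4 * N ^ 2 * (μ + 4 * ν) * r ^ 2 := by
      calc F ^ 2 * r ^ 2 ≤ F ^ 2 * ((μ + 4 * ν) * a ^ 2) := by gcongr
        _ = (μ + 4 * ν) * (F * a) ^ 2 := by ring
        _ ≤ (μ + 4 * ν) * (2 * r * N) ^ 2 := by gcongr
        _ = _ := by ring
    have c5 := le_of_mul_le_mul_right c4 (pow_pos hr 2)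
    linarith
  have b4 : 4 * d ^ 2 ≤ J ^ 2 := by
    have c3 : F * (4 * d ^ 2) ≤ F * (F * r) := by
      calc F * (4 * d ^ 2) ≤ F * (4 * (μ * a * (2 * N))) := by gcongr
        _ = 8 * μ * N * (F * a) := by ring
        _ ≤ 8 * μ * N * (2 * r * N) := by gcongr
        _ = 16 * μ * N ^ 2 * r := by ring
        _ ≤ F ^ 2 * r := by gcongr; linarith
        _ = _ := by ring
    rw [eF]
    exact le_of_mul_le_mul_left c3 (by linarith)
  have b5 : J / 2 ≤ ν * j := by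
    have := abs_le_of_sq_le_sq' (show (2 * d) ^ 2 ≤ J ^ 2 by linarith) hJ.le
    linarith [this.2]
  have b6 : 0 < j := (mul_pos_iff_of_pos_left hν).1 (by linarith)
  refine ⟨b2, b6, ?_⟩
  have c1 : 2 * ν * R ≤ (1 + ν) * r := by
    have c2 : ν * R ^ 2 ≤ r ^ 2 := by linarith [mul_nonneg hμ.le (sq_nonneg a)]
    have c3 : (2 * ν * R) ^ 2 ≤ ((1 + ν) * r) ^ 2 := by
      calc (2 * ν * R) ^ 2 = 4 * ν * (ν * R ^ 2) := by ring
        _ ≤ 4 * ν * r ^ 2 := by gcongr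
        _ ≤ (1 + ν) ^ 2 * r ^ 2 := by gcongr; nlinarith [sq_nonneg (1 - ν)]
        _ = _ := by ring
    exact (abs_le_of_sq_le_sq' c3 (by positivity)).2
  have c4 : (J / 2) ^ 2 ≤ (ν * j) ^ 2 := pow_le_pow_left₀ (by linarith) b5 2
  have c6 : 8 * C * (1 + ν) * r < F * r := mul_lt_mul_of_pos_right (by linarith) hr
  have c7 : 0 ≤ 8 * C * (1 + ν) * r := by positivity
  have c5 : ν * (2 * C * R) < ν * (ν * j ^ 2) := by
    calc ν * (2 * C * R) = C * (2 * ν * R) := by ring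
      _ ≤ C * ((1 + ν) * r) := by gcongr
      _ = 8 * C * (1 + ν) * r / 8 := by ring
      _ < F * r / 4 := by linarith
      _ ≤ _ := by linarith
  exact lt_of_mul_lt_mul_left c5 hν.le

lemma aa_pos_of_min (hp : p ∈ Dom) (hq : SQ p = 0) (h1 : aa p k ≤ aa p (k + 1))
    (h2 : aa p k ≤ aa p (k + 2)) : 0 < aa p (k + 1) ∧ 0 < aa p (k + 2) := by
  have e1 := norm_sub_le (-QQ p k) (QQ p (k + 1))
  have e2 := norm_sub_le (-QQ p k) (QQ p (k + 2))
  have e3 : QQ p (k + 1) = -QQ p k - QQ p (k + 2) := by rw [sq_rel hq k]; ring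
  rw [← e3] at e2
  rw [← sq_rel hq k] at e1
  simp only [norm_neg, norm_QQ] at e1 e2
  have h3 : 0 < s2 p := hp
  unfold s2 at h3
  rw [sum3 _ k] at h3
  constructor <;> linarith

lemma re_sq_le (p : St) (k : Fin 3) (Y : ℂ) : (conj (p.1 k) * Y).re ^ 2 ≤ aa p k * normSq Y := by
  have := re_sq_le_normSq (conj (p.1 k) * Y)
  rw [map_mul, normSq_conj] at this
  rw [sq]; exact this

/-- A large value of the Sundman function forces the escape region. -/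
theorem bigF (hm : ∀ k, 0 < m k) : ∃ F0 : ℝ, ∀ p ∈ Man m, p.2.2 = 0 → (Jc m p).im = 0 →
    0 < (Jc m p).re → F0 ≤ FF m p → p ∈ Esc m := by
  obtain ⟨N, hN⟩ : ∃ N, N = ∑ k, nn m k := ⟨_, rfl⟩
  have N0 : 0 < N := hN ▸ Finset.sum_pos (fun k _ => nn_pos hm k) ⟨0, by simp⟩
  have key : ∀ k, ∃ F0 : ℝ, ∀ p ∈ Man m, p.2.2 = 0 → (Jc m p).im = 0 → 0 < (Jc m p).re →
      F0 ≤ FF m p → aa p k ≤ aa p (k + 1) → aa p k ≤ aa p (k + 2) → p ∈ EscK m k := by
    intro k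
    have hμ := mu_pos hm k
    have hν := nu_pos hm k
    have hC : 0 < C3 m k + 2 * nn m k := by linarith [C3_pos hm k, nn_pos hm k]
    refine ⟨1 + 4 * N ^ 2 * (mu m k + 4 * nu m k) + 16 * mu m k * N ^ 2
      + 8 * (C3 m k + 2 * nn m k) * (1 + nu m k), fun p hp hh hc hJ hF h1 h2 => ?_⟩
    have hr := rr_pos hm hp.1
    have a12 := aa_pos_of_min hp.1 hp.2.1 h1 h2
    have z1 : p.1 (k + 1) ≠ 0 := normSq_pos.1 a12.1
    have z2 : p.1 (k + 2) ≠ 0 := normSq_pos.1 a12.2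
    have a0 := aa_nonneg p k
    have eJ : normSq (Jc m p) = (Jc m p).re ^ 2 := by rw [normSq_apply, hc]; ring
    have eF : (Jc m p).re ^ 2 = FF m p * rr m p := by unfold FF; rw [eJ, hh]; field_simp; ring
    have hX := Xi_nonneg hm hp
    unfold Xi Ug at hX
    rw [hh, eJ, eF, gg_eq p k, sum3 _ k, ← rr_sq hm, f11, f12, f21, f22] at hX
    have hNs : N = nn m k + nn m (k + 1) + nn m (k + 2) := hN.trans (sum3 _ k)
    have b1 : FF m p * aa p k ≤ 2 * rr m p * N := by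
      have c1 := mul_le_mul_of_nonneg_left (mul_le_mul_of_nonneg_left h1 a12.2.le)
        (nn_pos hm (k + 1)).le
      have c2 := mul_le_mul_of_nonneg_left (mul_le_mul_of_nonneg_right h2 a12.1.le)
        (nn_pos hm (k + 2)).le
      have c4 := mul_le_mul_of_nonneg_left (add_le_add c1 c2) (sq_nonneg (rr m p))
      refine le_of_mul_le_mul_right ?_ (mul_pos hr (mul_pos a12.1 a12.2))
      rw [hNs]
      linarith
    have hE := energy_split hm hp z1 z2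
    have b3 : mu m k * normSq (Yh m p k) ≤ 2 * N := by
      have c1 : aa p k * (nn m (k + 1) / aa p (k + 1)) ≤ nn m (k + 1) := by
        rw [← mul_div_assoc, div_le_iff₀ a12.1, mul_comm]
        exact mul_le_mul_of_nonneg_left h1 (nn_pos hm _).le
      have c2 : aa p k * (nn m (k + 2) / aa p (k + 2)) ≤ nn m (k + 2) := by
        rw [← mul_div_assoc, div_le_iff₀ a12.2, mul_comm]
        exact mul_le_mul_of_nonneg_left h2 (nn_pos hm _).le
      have c3 : 0 ≤ nu m k * aa p k * normSq (rhd m p k) :=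
        mul_nonneg (mul_nonneg hν.le a0) (normSq_nonneg _)
      rw [hh] at hE
      linarith
    have hJs := congrArg re (Jc_split hm hp.2.1 z1 z2)
    rw [add_re, re_ofReal_mul, re_ofReal_mul] at hJs
    have c2 : (mu m k * (conj (p.1 k) * Yh m p k).re) ^ 2 ≤ mu m k * aa p k * (2 * N) := by
      calc _ = mu m k ^ 2 * (conj (p.1 k) * Yh m p k).re ^ 2 := by ring
        _ ≤ mu m k ^ 2 * (aa p k * normSq (Yh m p k)) :=
          mul_le_mul_of_nonneg_left (re_sq_le p k _) (sq_nonneg _)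
        _ = mu m k * aa p k * (mu m k * normSq (Yh m p k)) := by ring
        _ ≤ _ := mul_le_mul_of_nonneg_left b3 (mul_nonneg hμ.le a0)
    exact ⟨z1, z2, bigF_real hμ hν hC N0 hr a0 (norm_nonneg _) hJ eF hF b1
      (II_split hm hp.2.1 k) c2 hJs⟩
  choose F0 hF using key
  refine ⟨max (F0 0) (max (F0 1) (F0 2)), fun p hp hh hc hJ h => ?_⟩
  obtain ⟨k, -, hk⟩ := Finset.exists_min_image Finset.univ (aa p) ⟨0, Finset.mem_univ _⟩
  refine mem_iUnion.2 ⟨k, hF k p hp hh hc hJ (le_trans ?_ h) (hk _ (Finset.mem_univ _))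
    (hk _ (Finset.mem_univ _))⟩
  fin_cases k
  · exact le_max_left _ _
  · exact le_max_of_le_right (le_max_left _ _)
  · exact le_max_of_le_right (le_max_right _ _)

end Pool.Agent.Lib.MP_6e7c44_mp.Hg
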