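import Pool.Agent.Lib.MP_6e7c44_mp.HLoc

-- part Pool.Agent.Lib.MP_6e7c44_mp.HLim
section

/-!
The limit system (zero energy, zero angular momentum): non-escaping orbits accumulate at central
configurations.
-/

set_option autoImplicit false

open Set Filter Topology Metric Complex ComplexConjugate

noncomputable section

namespace Pool.Agent.Lib.MP_6e7c44_mp.Hg

lemma extract {X Y : Type*} [TopologicalSpace Y] {F : Filter X} [NeBot F] {K : Set Y}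
    (hK : IsCompact K) {f : X → Y} (h : ∀ᶠ x in F, f x ∈ K) :
    ∃ G : Filter X, G.NeBot ∧ G ≤ F ∧ ∃ q ∈ K, Tendsto f G (𝓝 q) := by
  obtain ⟨q, hq, h1⟩ := hK.ultrafilter_le_nhds' ((Ultrafilter.of F).map f)
    (Ultrafilter.mem_map.2 (Ultrafilter.of_le F h))
  exact ⟨Ultrafilter.of F, inferInstance, Ultrafilter.of_le F, q, hq, h1⟩

/-- The states whose forward orbit avoids the escape region. -/
def NE (m : Fin 3 → ℝ) (φ : ℝ → St → St) : Set St := {p | p ∈ Man m ∧ ∀ t, 0 ≤ t → φ t p ∉ Esc m}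
def Lim (m : Fin 3 → ℝ) : Set St :=
  {p | p ∈ Man m ∧ p.2.2 = 0 ∧ (Jc m p).im = 0 ∧ 0 < (Jc m p).re}
def no (m : Fin 3 → ℝ) (p : St) : St := sc (nf m p) p
/-- Central configurations of unit size. -/
def IsCC (m : Fin 3 → ℝ) (Q : Fin 3 → ℂ) : Prop := ∀ k, acc m Q k = -(UU m Q * Q k)

variable {m : Fin 3 → ℝ} {φ : ℝ → St → St} {p : St} {l : ℝ}

lemma sc_sc (hl : l ≠ 0) : sc l⁻¹ (sc l p) = p := by
  have : (l : ℂ) ≠ 0 := ofReal_ne_zero.2 hl
  refine Prod.ext (funext fun k => ?_) (Prod.ext ?_ ?_)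
  · rw [sc_z, sc_z]; push_cast; field_simp
  · rw [sc_y, sc_y]
  · rw [sc_h, sc_h]; field_simp

lemma sc_NE (hφ : IsFlow (YY m) Dom φ) (hl : 0 < l) (hp : p ∈ NE m φ) : sc l p ∈ NE m φ :=
  ⟨sc_Man hl.ne' hp.1, fun t ht h => hp.2 t ht (by
    rw [flow_sc hφ hl hp.1.1] at h
    rw [← sc_sc (p := φ t p) hl.ne']
    exact sc_Esc (inv_pos.2 hl) h)⟩

lemma flow_NE (hm : ∀ k, 0 < m k) (hφ : IsFlow (YY m) Dom φ) (hp : p ∈ NE m φ) {t : ℝ}
    (ht : 0 ≤ t) : φ t p ∈ NE m φ :=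
  ⟨flow_Man hm hφ hp.1 t, fun s hs => by
    rw [← hφ.add hp.1.1]; exact hp.2 _ (add_nonneg hs ht)⟩

lemma sc_Lim (hl : 0 < l) (hp : p ∈ Lim m) : sc l p ∈ Lim m :=
  ⟨sc_Man hl.ne' hp.1, by rw [sc_h, hp.2.1, mul_zero], by rw [sc_Jc, im_ofReal_mul, hp.2.2.1,
    mul_zero], by rw [sc_Jc, re_ofReal_mul]; exact mul_pos hl hp.2.2.2⟩

lemma flow_Lim (hm : ∀ k, 0 < m k) (hφ : IsFlow (YY m) Dom φ) (hp : p ∈ Lim m) {t : ℝ}
    (ht : 0 ≤ t) : φ t p ∈ Lim m := by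
  refine ⟨flow_Man hm hφ hp.1 t, (flow_h hφ hp.1.1 t).trans hp.2.1,
    (flow_c hm hφ hp.1 t).trans hp.2.2.1, ?_⟩
  have := mono_Icc' (f := fun s => (Jc m (φ s p)).re) ht
    (fun s _ => hd_re (cJc hm (flow_Man hm hφ hp.1 s) (hφ.deriv p hp.1.1 s))) fun s _ => by
      rw [ofReal_re, flow_h hφ hp.1.1, hp.2.1, mul_zero, zero_mul, add_zero]
      exact mul_nonneg (al_pos (hφ.mem p hp.1.1 s)).le (Ug_nonneg hm _)
  rw [hφ.zero] at this
  exact hp.2.2.2.trans_le this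

lemma FF_mono (hm : ∀ k, 0 < m k) (hφ : IsFlow (YY m) Dom φ) (hp : p ∈ Lim m) {s t : ℝ}
    (hs : 0 ≤ s) (ht : s ≤ t) : FF m (φ s p) ≤ FF m (φ t p) :=
  mono_Icc' (f := fun s => FF m (φ s p)) ht
    (fun r _ => cFF hm (flow_Man hm hφ hp.1 r) (hφ.deriv p hp.1.1 r)) fun r hr => by
      have h1 := flow_Lim hm hφ hp (hs.trans hr.1.le)
      exact mul_nonneg (mul_nonneg (al_pos h1.1.1).le
        (div_pos h1.2.2.2 (pow_pos (rr_pos hm h1.1.1) 3)).le) (Xi_nonneg hm h1.1)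

lemma FF_le_flow (hm : ∀ k, 0 < m k) (hφ : IsFlow (YY m) Dom φ) (hp : p ∈ Lim m) {t : ℝ}
    (ht : 0 ≤ t) : FF m p ≤ FF m (φ t p) := by
  simpa only [hφ.zero] using FF_mono hm hφ hp le_rfl ht

lemma FF_pos (hm : ∀ k, 0 < m k) (hp : p ∈ Lim m) : 0 < FF m p := by
  rw [FF, hp.2.1, mul_zero, zero_mul, sub_zero]
  exact div_pos (normSq_pos.2 fun h => hp.2.2.2.ne' (by rw [h, zero_re])) (rr_pos hm hp.1.1)

lemma Xi_zero (hm : ∀ k, 0 < m k) (hp : p ∈ Man m) (h : Xi m p = 0) :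
    NC p ∧ wedge (QQ p) (VV m p) = 0 := by
  have hn : NC p := fun k hk => by
    obtain ⟨h1, h2, -⟩ := col_data hm hp hk
    have h3 : gg p = 0 := by rw [gg_eq p k]; simp [aa, hk]
    have h4 : 0 < Ug m p := Finset.sum_pos' (fun j _ => mul_nonneg (nn_pos hm j).le
      (mul_nonneg (aa_nonneg _ _) (aa_nonneg _ _)))
      ⟨k, Finset.mem_univ _, mul_pos (nn_pos hm k) (mul_pos h1 h2)⟩
    have h5 := mul_pos (II_pos hm hp.1) h4
    rw [Xi, h3] at h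
    linarith
  rw [Xi_eq hm hp hn] at h
  exact ⟨hn, normSq_eq_zero.1 ((mul_eq_zero.1 ((mul_eq_zero.1 h).resolve_left
    hn.gg_pos.ne')).resolve_left (div_pos (PP_pos hm) (MM_pos hm)).ne')⟩

lemma stall (hm : ∀ k, 0 < m k) (hφ : IsFlow (YY m) Dom φ) (hp : p ∈ Lim m) {τ : ℝ}
    (h : FF m (φ τ p) ≤ FF m p) {s : ℝ} (hs : s ∈ Ico 0 τ) :
    NC (φ s p) ∧ wedge (QQ (φ s p)) (VV m (φ s p)) = 0 := by
  have h1 := flow_Lim hm hφ hp hs.1
  have h2 := deriv_zero_of_const (cFF hm h1.1 (hφ.deriv p hp.1.1 s)) (by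
    filter_upwards [Ioo_mem_nhdsGT hs.2] with r hr
    exact le_antisymm ((FF_mono hm hφ hp (hs.1.trans hr.1.le) hr.2.le).trans
      (h.trans (FF_le_flow hm hφ hp hs.1))) (FF_mono hm hφ hp hs.1 hr.1.le))
  exact Xi_zero hm h1.1 ((mul_eq_zero.1 h2).resolve_left (mul_pos (al_pos h1.1.1)
    (div_pos h1.2.2.2 (pow_pos (rr_pos hm h1.1.1) 3))).ne')

lemma stall0 (hm : ∀ k, 0 < m k) (hφ : IsFlow (YY m) Dom φ) (hp : p ∈ Lim m) {τ : ℝ} (hτ : 0 < τ)
    (h : FF m (φ τ p) ≤ FF m p) : NC p ∧ WW m p = 0 ∧ FF m p = 2 * (rr m p * UU m (QQ p)) := by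
  have h1 := stall hm hφ hp h ⟨le_rfl, hτ⟩
  rw [hφ.zero] at h1
  have h2 : WW m p = 0 := by simp [WW, h1.2]
  exact ⟨h1.1, h2, by rw [FF_WW hm hp.1 h1.1, h2, sub_zero]⟩

lemma sum_acc (Q : Fin 3 → ℂ) : ∑ k, acc m Q k = 0 := by
  simp only [acc, MM, Fin.sum_univ_three]; push_cast; ring

lemma conj_ff (x : ℂ) : conj x * ff x = (‖x‖⁻¹ : ℝ) := by
  rcases eq_or_ne x 0 with rfl | h
  · simp
  have := ofReal_ne_zero.2 (norm_pos_iff.2 h).ne'
  rw [ff, mul_left_comm, ← normSq_eq_conj_mul_self, normSq_eq_norm_sq]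
  push_cast; field_simp

lemma ip_acc_self (hm : ∀ k, 0 < m k) {Q : Fin 3 → ℂ} (hQ : ∑ k, Q k = 0) :
    ip m Q (acc m Q) = -UU m Q := by
  rw [ip_acc hm hQ, UU]
  simp only [conj_ff, div_eq_mul_inv]
  push_cast; rfl

lemma isCC_of_wedge (hm : ∀ k, 0 < m k) {Q : Fin 3 → ℂ} (h1 : ∑ k, Q k = 0) (h2 : nq m Q = 1)
    (h3 : ∀ k, Q k ≠ 0) (h : wedge Q (acc m Q) = 0) : IsCC m Q := by
  have hf := frame_bt hm h1 h2 h3
  have h4 := hf.wedge_eq hm h1 (sum_acc (m := m) Q)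
  rw [h, hf.aa, hf.ba, map_zero, mul_zero, one_mul, zero_mul, sub_zero] at h4
  intro k
  rw [congrFun (hf.dec hm (sum_acc Q)) k, normSq_eq_zero.1 h4.symm, ip_acc_self hm h1]
  ring

lemma cc_of_stall (hm : ∀ k, 0 < m k) (hφ : IsFlow (YY m) Dom φ) (hp : p ∈ Lim m) {τ : ℝ}
    (hτ : 0 < τ) (h : FF m (φ τ p) ≤ FF m p) (hr : rr m p = 1) : IsCC m (QQ p) := by
  have hn := (stall0 hm hφ hp hτ h).1
  have hd := hφ.deriv p hp.1.1 0
  have hp' : φ 0 p ∈ Man m := flow_Man hm hφ hp.1 0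
  have hn' : NC (φ 0 p) := by rwa [hφ.zero]
  have h1 := ((cQ hn' hd 1).mul (cV hm hp' hn' hd 2)).sub ((cQ hn' hd 2).mul (cV hm hp' hn' hd 1))
  have h2 : HasDerivWithinAt (fun s => wedge (QQ (φ s p)) (VV m (φ s p))) 0 (Ici 0) 0 :=
    (hasDerivWithinAt_const _ _ (0 : ℂ)).congr_of_eventuallyEq (by
      filter_upwards [Ico_mem_nhdsGE hτ] with s hs using (stall hm hφ hp h hs).2)
      (stall hm hφ hp h ⟨le_rfl, hτ⟩).2
  have h3 := (uniqueDiffWithinAt_Ici 0).eq_deriv _ h1.hasDerivWithinAt h2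
  rw [hφ.zero] at h3
  have h4 := ofReal_ne_zero.2 (mul_pos (al_pos (m := m) hp.1.1) hn.gg_pos).ne'
  refine isCC_of_wedge hm (sum_QQ hp.1) (by rw [← II_eq, ← rr_sq hm, hr, one_pow]) hn.QQ_ne
    ((mul_eq_zero.1 ?_).resolve_left h4)
  rw [wedge]
  linear_combination h3

section lim
variable {X : Type*} {G : Filter X} [NeBot G] {f : X → St} {q : St}

lemma Man_lim (hf : Tendsto f G (𝓝 q)) (hq : q ∈ Dom) (h : ∀ᶠ x in G, f x ∈ Man m) :
    q ∈ Man m :=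
  ⟨hq, tendsto_nhds_unique_of_eventuallyEq ((c_SQ.tendsto q).comp hf) tendsto_const_nhds
      (h.mono fun _ hx => hx.2.1),
    tendsto_nhds_unique_of_eventuallyEq ((c_SB.tendsto q).comp hf) tendsto_const_nhds
      (h.mono fun _ hx => hx.2.2.1),
    tendsto_nhds_unique_of_eventuallyEq (((c_Gam m).tendsto q).comp hf) tendsto_const_nhds
      (h.mono fun _ hx => hx.2.2.2)⟩

lemma NE_lim (hφ : IsFlow (YY m) Dom φ) (hf : Tendsto f G (𝓝 q)) (hq : q ∈ Dom)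
    (h : ∀ᶠ x in G, f x ∈ NE m φ) : q ∈ NE m φ := by
  refine ⟨Man_lim hf hq (h.mono fun _ hx => hx.1), fun t ht he => ?_⟩
  have h1 := (hφ.comp_contAt (τ := fun _ => t) continuousAt_const continuousAt_id hq).tendsto.comp hf
  obtain ⟨x, h2, h3⟩ := (h.and (h1.eventually (isOpen_Esc.mem_nhds he))).exists
  exact h2.2 t ht h3

lemma Lim_of (hp : p ∈ Man m) (h1 : p.2.2 = 0) (h2 : (Jc m p).im = 0) (h3 : 0 ≤ (Jc m p).re)
    (h4 : 0 < FF m p) : p ∈ Lim m := by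
  refine ⟨hp, h1, h2, lt_of_le_of_ne h3 fun h => ?_⟩
  have : Jc m p = 0 := Complex.ext h.symm h2
  simp [FF, this, h1] at h4

lemma Lim_lim (hm : ∀ k, 0 < m k) (hf : Tendsto f G (𝓝 q)) (hq : q ∈ Dom) {c : ℝ} (hc : 0 < c)
    (h : ∀ᶠ x in G, f x ∈ Lim m ∧ c ≤ FF m (f x)) : q ∈ Lim m ∧ c ≤ FF m q := by
  have h1 := ge_of_tendsto ((cAt_FF hm hq).tendsto.comp hf) (h.mono fun _ hx => hx.2)
  have c1 : Continuous fun p : St => p.2.2 := by fun_prop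
  have c2 : Continuous fun p : St => (Jc m p).im := by fun_prop
  have c3 : Continuous fun p : St => (Jc m p).re := by fun_prop
  exact ⟨Lim_of (Man_lim hf hq (h.mono fun _ hx => hx.1.1))
    (tendsto_nhds_unique_of_eventuallyEq ((c1.tendsto q).comp hf) tendsto_const_nhds
      (h.mono fun _ hx => hx.1.2.1))
    (tendsto_nhds_unique_of_eventuallyEq ((c2.tendsto q).comp hf) tendsto_const_nhds
      (h.mono fun _ hx => hx.1.2.2.1))
    (ge_of_tendsto ((c3.tendsto q).comp hf) (h.mono fun _ hx => hx.1.2.2.2.le)) (hc.trans_le h1), h1⟩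

end lim

lemma no_NE (hm : ∀ k, 0 < m k) (hφ : IsFlow (YY m) Dom φ) (hp : p ∈ NE m φ) : no m p ∈ NE m φ :=
  sc_NE hφ (nf_pos hm hp.1.1) hp
lemma no_Lim (hm : ∀ k, 0 < m k) (hp : p ∈ Lim m) : no m p ∈ Lim m := sc_Lim (nf_pos hm hp.1.1) hp
lemma no_FF (hm : ∀ k, 0 < m k) (hp : p ∈ Dom) : FF m (no m p) = FF m p := sc_FF (nf_pos hm hp).ne'

lemma isCompact_lim (hm : ∀ k, 0 < m k) (hφ : IsFlow (YY m) Dom φ) : ∃ K : Set St, IsCompact K ∧
    (∀ q ∈ K, q ∈ Dom ∧ rr m q = 1) ∧ ∀ p ∈ Lim m, p ∈ NE m φ → no m p ∈ K := by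
  obtain ⟨F0, h⟩ := bigF hm
  refine ⟨Cpt m 1 1 0 F0, isCompact_Cpt hm one_pos _ _ _, fun q hq =>
    ⟨hq.1.1, le_antisymm hq.2.2.1 hq.2.1⟩, fun p hp hn => ?_⟩
  have h1 := no_Lim hm hp
  refine ⟨h1.1, (rr_nf hm hp.1.1).ge, (rr_nf hm hp.1.1).le, by rw [h1.2.1, neg_zero], h1.2.1.le,
    ?_⟩
  rw [no_FF hm hp.1.1]
  by_contra h2
  exact hn.2 0 le_rfl (by
    rw [hφ.zero]; exact h p hp.1 hp.2.1 hp.2.2.1 hp.2.2.2 (not_le.1 h2).le)

theorem lasalle (hm : ∀ k, 0 < m k) (hφ : IsFlow (YY m) Dom φ) (hp : p ∈ Lim m)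
    (hn : p ∈ NE m φ) : ∃ q ∈ Lim m, rr m q = 1 ∧ NC q ∧ WW m q = 0 ∧ IsCC m (QQ q) ∧
      FF m q = 2 * UU m (QQ q) ∧ (∀ t, 0 ≤ t → FF m (φ t p) ≤ FF m q) ∧
      ∃ G : Filter ℝ, G.NeBot ∧ G ≤ atTop ∧ Tendsto (fun t => no m (φ t p)) G (𝓝 q) := by
  obtain ⟨K, hK, h1, h2⟩ := isCompact_lim hm hφ
  have e0 := eventually_ge_atTop (0 : ℝ)
  obtain ⟨G, hG, hle, q, hq, ht⟩ := extract (F := atTop) hK (f := fun t => no m (φ t p))
    (e0.mono fun t ht => h2 _ (flow_Lim hm hφ hp ht) (flow_NE hm hφ hn ht))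
  obtain ⟨qD, qr⟩ := h1 q hq
  have hD := hφ.mem p hp.1.1
  have a1 : ∀ s, 0 ≤ s → q ∈ Lim m ∧ FF m (φ s p) ≤ FF m q := fun s hs =>
    Lim_lim hm ht qD (FF_pos hm (flow_Lim hm hφ hp hs)) (by
      filter_upwards [hle (eventually_ge_atTop s)] with t ht
      exact ⟨no_Lim hm (flow_Lim hm hφ hp (hs.trans ht)),
        by rw [no_FF hm (hD t)]; exact FF_mono hm hφ hp hs ht⟩)
  have qL := (a1 0 le_rfl).1
  have a2 : FF m (φ 1 q) ≤ FF m q := by
    refine le_of_tendsto (((cAt_FF hm (hφ.mem q qD 1)).tendsto.comp (hφ.comp_contAt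
      (τ := fun _ => 1) continuousAt_const continuousAt_id qD).tendsto).comp ht) ?_
    filter_upwards [hle e0] with t ht
    have : FF m (φ 1 (no m (φ t p))) = FF m (φ (1 + t) p) := by
      rw [no, flow_sc hφ (nf_pos hm (hD t)) (hD t), sc_FF (nf_pos hm (hD t)).ne', hφ.add hp.1.1]
    exact this.trans_le (a1 _ (by linarith [show 0 ≤ t from ht])).2
  obtain ⟨b1, b2, b3⟩ := stall0 hm hφ qL one_pos a2
  exact ⟨q, qL, qr, b1, b2, cc_of_stall hm hφ qL one_pos a2 qr, by rw [b3, qr, one_mul],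
    fun t ht => (a1 t ht).2, G, hG, hle, ht⟩

section config
variable {Q A : Fin 3 → ℂ}

lemma cc_cases (h : IsCC m Q) (hm : ∀ k, 0 < m k) (h0 : ∀ k, Q k ≠ 0) :
    (∀ k, ‖Q k‖ = ‖Q 0‖) ∨ ∃ w : ℂ, ‖w‖ = 1 ∧ ∃ a : Fin 3 → ℝ, ∀ k, Q k = w * a k := by
  have e : ∀ k, ((MM m * (‖Q k‖ ^ 3)⁻¹ - UU m Q : ℝ) : ℂ) * Q k = m k * ∑ j, ff (Q j) := fun k => by
    have := h k
    rw [acc, ff] at this
    push_cast at this ⊢
    linear_combination -this
  by_cases hS : ∑ j, ff (Q j) = 0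
  · left
    have e2 : ∀ k, MM m * (‖Q k‖ ^ 3)⁻¹ = UU m Q := fun k => by
      have := e k
      rw [hS, mul_zero] at this
      exact sub_eq_zero.1 (ofReal_eq_zero.1 ((mul_eq_zero.1 this).resolve_right (h0 k)))
    intro k
    have := mul_left_cancel₀ (MM_pos hm).ne' ((e2 k).trans (e2 0).symm)
    exact (pow_left_inj₀ (norm_nonneg _) (norm_nonneg _) three_ne_zero).1 (inv_injective this)
  · right
    generalize ∑ j, ff (Q j) = S at e hS
    have n0 := (norm_pos_iff.2 hS).ne'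
    refine ⟨S / ‖S‖, by simp [n0], fun k => m k * ‖S‖ / (MM m * (‖Q k‖ ^ 3)⁻¹ - UU m Q),
      fun k => ?_⟩
    have e1 := e k
    have n1 := ofReal_ne_zero.2 n0
    beta_reduce
    generalize MM m * (‖Q k‖ ^ 3)⁻¹ - UU m Q = c at e1 ⊢
    have hc : (c : ℂ) ≠ 0 := fun h => by
      rw [h, zero_mul] at e1
      exact mul_ne_zero (ofReal_ne_zero.2 (hm k).ne') hS e1.symm
    push_cast
    field_simp
    linear_combination e1

lemma UU_mul (c : ℂ) (Q : Fin 3 → ℂ) : UU m (fun k => c * Q k) = ‖c‖⁻¹ * UU m Q := by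
  simp only [UU, norm_mul, Fin.sum_univ_three, div_eq_mul_inv, mul_inv]; ring

lemma nq_mul (c : ℂ) (Q : Fin 3 → ℂ) : nq m (fun k => c * Q k) = ‖c‖ ^ 2 * nq m Q := by
  simp only [nq, map_mul, Fin.sum_univ_three, normSq_eq_norm_sq c]; ring

lemma IsCC.rot (h : IsCC m Q) {w : ℂ} (hw : ‖w‖ = 1) : IsCC m fun k => w * Q k := fun k => by
  have := h k
  simp only [UU_mul, hw, acc, ff_mul, ← Finset.mul_sum] at this ⊢
  push_cast
  linear_combination w * this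

lemma UU_pos (hm : ∀ k, 0 < m k) (h : ∀ k, Q k ≠ 0) : 0 < UU m Q :=
  Finset.sum_pos (fun k _ => div_pos (nn_pos hm k) (norm_pos_iff.2 (h k))) ⟨0, by simp⟩

/-- A central configuration minimises the normalised potential among the configurations whose
sides are positive multiples of its own. -/
lemma cc_min (hm : ∀ k, 0 < m k) (hA : IsCC m A) (h1 : nq m A = 1) (h0 : ∀ k, A k ≠ 0)
    {t : Fin 3 → ℝ} (ht : ∀ k, 0 < t k) {c : ℂ} (hc : c ≠ 0) (hQ : ∀ k, Q k = c * (t k * A k))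
    (hs : ∑ k, Q k = 0) : UU m A ≤ √(nq m Q) * UU m Q ∧
      (√(nq m Q) * UU m Q ≤ UU m A → ∃ c' : ℂ, ∀ k, Q k = c' * A k) := by
  have hM := MM_pos hm
  have c0 := norm_pos_iff.2 hc
  have hs' : ∑ k, (t k * A k : ℂ) = 0 := by
    simp only [hQ, ← Finset.mul_sum] at hs
    exact (mul_eq_zero.1 hs).resolve_left hc
  have e1 := ip_acc hm hs' A
  rw [funext hA] at e1
  have e2 : UU m A * ((∑ k, nn m k * t k * ‖A k‖ ^ 2) / MM m) = ∑ k, nn m k * t k * ‖A k‖⁻¹ := by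
    have e : ∀ k, conj (A k) * A k = (‖A k‖ : ℂ) ^ 2 := fun k => by
      rw [← normSq_eq_conj_mul_self, normSq_eq_norm_sq]; push_cast; rfl
    simp only [ip, Fin.sum_univ_three, map_mul, conj_ofReal, mul_assoc, conj_ff] at e1 ⊢
    apply ofReal_injective
    push_cast at e1 ⊢
    rw [← e, ← e, ← e]
    linear_combination -e1
  rw [funext hQ, UU_mul, nq_mul, Real.sqrt_mul (sq_nonneg _), Real.sqrt_sq c0.le,
    show ∀ x y : ℝ, ‖c‖ * x * (‖c‖⁻¹ * y) = x * y from fun x y => by field_simp]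
  have e3 := Real.sq_sqrt (nq_nonneg hm fun k => t k * A k)
  have e4 : 0 < √(nq m fun k => t k * A k) := Real.sqrt_pos.2 (lt_of_not_ge fun h =>
    mul_ne_zero (ofReal_ne_zero.2 (ht 0).ne') (h0 0) (nq_eq_zero hm h 0))
  generalize √(nq m fun k => t k * A k) = s at e3 e4 ⊢
  have a0 := fun k => norm_pos_iff.2 (h0 k)
  have e5 : s * UU m (fun k => t k * A k) = UU m A + UU m A * ((∑ k, nn m k * ‖A k‖ ^ 2 *
      (s - t k) ^ 2) / (2 * MM m * s ^ 2)) + ∑ k, nn m k * (s - t k) ^ 2 / (s * t k * ‖A k‖) := by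
    have e6 : UU m A = ∑ k, nn m k * ‖A k‖⁻¹ := by simp only [UU, div_eq_mul_inv]
    have e7 : UU m (fun k => t k * A k) = ∑ k, nn m k * ((t k)⁻¹ * ‖A k‖⁻¹) := by
      simp only [UU, div_eq_mul_inv, norm_mul, norm_real, Real.norm_of_nonneg (ht _).le, mul_inv]
    rw [e7]
    generalize UU m A = U at e2 e6 ⊢
    simp only [nq, map_mul, normSq_ofReal, normSq_eq_norm_sq (A _), Fin.sum_univ_three,
      div_eq_mul_inv, mul_inv] at e2 e3 e6 h1 ⊢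
    have t0 := (ht 0).ne'
    have t1 := (ht 1).ne'
    have t2 := (ht 2).ne'
    generalize ‖A 0‖⁻¹ = b0 at *
    generalize ‖A 1‖⁻¹ = b1 at *
    generalize ‖A 2‖⁻¹ = b2 at *
    generalize (MM m)⁻¹ = iM at *
    field_simp
    linear_combination (t 0 * t 1 * t 2) * (2 * s * e2 - 4 * s ^ 2 * e6 + U * e3 - U * s ^ 2 * h1)
  have p1 : 0 ≤ UU m A * ((∑ k, nn m k * ‖A k‖ ^ 2 * (s - t k) ^ 2) / (2 * MM m * s ^ 2)) :=
    mul_nonneg (UU_pos hm h0).le (div_nonneg (Finset.sum_nonneg fun k _ =>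
      mul_nonneg (mul_nonneg (nn_pos hm k).le (sq_nonneg _)) (sq_nonneg _)) (by positivity))
  have p2 : ∀ k, 0 ≤ nn m k * (s - t k) ^ 2 / (s * t k * ‖A k‖) := fun k =>
    div_nonneg (mul_nonneg (nn_pos hm k).le (sq_nonneg _))
      (mul_pos (mul_pos e4 (ht k)) (a0 k)).le
  have p3 := Finset.sum_nonneg fun k (_ : k ∈ Finset.univ) => p2 k
  refine ⟨by linarith, fun h => ⟨c * s, fun k => ?_⟩⟩
  have p4 := (Finset.sum_eq_zero_iff_of_nonneg fun k _ => p2 k).1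
    (le_antisymm (by linarith) p3) k (Finset.mem_univ k)
  have p5 := (mul_eq_zero.1 ((div_eq_zero_iff.1 p4).resolve_right
    (mul_pos (mul_pos e4 (ht k)) (a0 k)).ne')).resolve_left (nn_pos hm k).ne'
  rw [sub_eq_zero.1 (pow_eq_zero_iff two_ne_zero |>.1 p5)]
  ring

end config

def NN (m : Fin 3 → ℝ) : ℝ := ∑ k, nn m k
def r0 (m : Fin 3 → ℝ) : ℝ := √(MM m / NN m)
def U0 (m : Fin 3 → ℝ) : ℝ := NN m / r0 m

lemma NN_pos (hm : ∀ k, 0 < m k) : 0 < NN m := Finset.sum_pos (fun k _ => nn_pos hm k) ⟨0, by simp⟩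
lemma r0_pos (hm : ∀ k, 0 < m k) : 0 < r0 m := Real.sqrt_pos.2 (div_pos (MM_pos hm) (NN_pos hm))
lemma r0_sq (hm : ∀ k, 0 < m k) : r0 m ^ 2 * NN m = MM m := by
  rw [r0, Real.sq_sqrt (div_pos (MM_pos hm) (NN_pos hm)).le, div_mul_cancel₀ _ (NN_pos hm).ne']
lemma U0_pos (hm : ∀ k, 0 < m k) : 0 < U0 m := div_pos (NN_pos hm) (r0_pos hm)

lemma eq_min (hm : ∀ k, 0 < m k) (hn : NC p) : U0 m ≤ rr m p * UU m (QQ p) ∧
    (rr m p * UU m (QQ p) ≤ U0 m ↔ ∀ k, aa p k = aa p 0) := by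
  have hr : 0 < rr m p := rr_pos hm (show 0 < s2 p from
    Finset.sum_pos (fun k _ => hn.aa_pos k) ⟨0, by simp⟩)
  have h0 := r0_pos hm
  have h1 := r0_sq hm
  have h2 : rr m p ^ 2 * MM m = ∑ k, nn m k * aa p k ^ 2 := by
    rw [rr_sq hm, II, div_mul_cancel₀ _ (MM_pos hm).ne']
  have hN := NN_pos hm
  have e : rr m p * UU m (QQ p) = U0 m + ∑ k, nn m k * ((aa p k - r0 m * rr m p) ^ 2
      * (aa p k + 2 * (r0 m * rr m p))) / (2 * r0 m ^ 3 * rr m p ^ 2 * aa p k) := by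
    have a0 := (hn.aa_pos 0).ne'
    have a1 := (hn.aa_pos 1).ne'
    have a2 := (hn.aa_pos 2).ne'
    simp only [UU, U0, NN, norm_QQ, Fin.sum_univ_three] at h1 h2 ⊢
    field_simp
    linear_combination (aa p 0 * aa p 1 * aa p 2) * (h2 + rr m p ^ 2 * h1)
  have p2 : ∀ k, 0 ≤ nn m k * ((aa p k - r0 m * rr m p) ^ 2 * (aa p k + 2 * (r0 m * rr m p)))
      / (2 * r0 m ^ 3 * rr m p ^ 2 * aa p k) := fun k => by
    have := nn_pos hm k
    have := hn.aa_pos k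
    positivity
  have p3 := Finset.sum_nonneg fun k (_ : k ∈ Finset.univ) => p2 k
  refine ⟨by linarith, fun h => ?_, fun h => ?_⟩
  · have p4 : ∀ k, aa p k = r0 m * rr m p := fun k => by
      have p4 := (Finset.sum_eq_zero_iff_of_nonneg fun k _ => p2 k).1
        (le_antisymm (by linarith) p3) k (Finset.mem_univ k)
      have := hn.aa_pos k
      have p5 := (mul_eq_zero.1 ((div_eq_zero_iff.1 p4).resolve_right
        (by positivity))).resolve_left (nn_pos hm k).ne'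
      exact sub_eq_zero.1 (pow_eq_zero_iff two_ne_zero |>.1
        ((mul_eq_zero.1 p5).resolve_right (by positivity)))
    exact fun k => (p4 k).trans (p4 0).symm
  · have p4 : aa p 0 = r0 m * rr m p := by
      simp only [h, ← Finset.sum_mul] at h2
      rw [← NN, ← h1] at h2
      refine (pow_left_inj₀ (aa_nonneg _ _) (by positivity) two_ne_zero).1
        (mul_left_cancel₀ hN.ne' ?_)
      linarith
    rw [e]
    simp [h, p4]

/-- A complex invariant of the shape which vanishes exactly at the equilateral triangles. -/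
def wd (j : ℂ) (Q : Fin 3 → ℂ) : ℂ :=
  (normSq (Q 0) - normSq (Q 1) : ℝ) + j * (normSq (Q 2) - normSq (Q 1) : ℝ)

variable {j : ℂ}

lemma j_im (hj : j ^ 2 + j + 1 = 0) : j.im ≠ 0 := fun h => by
  have := congrArg re hj
  simp only [sq, add_re, mul_re, h, one_re, zero_re] at this
  nlinarith [sq_nonneg (j.re + 1 / 2)]

lemma wd_zero (hj : j ^ 2 + j + 1 = 0) : wd j (QQ p) = 0 ↔ ∀ k, aa p k = aa p 0 := by
  simp only [wd, nsq_QQ]
  refine ⟨fun h => ?_, fun h => by simp [h]⟩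
  have h1 := congrArg im h
  rw [add_im, ofReal_im, zero_add, im_mul_ofReal, zero_im] at h1
  have h2 := (mul_eq_zero.1 h1).resolve_left (j_im hj)
  rw [h2, ofReal_zero, mul_zero, add_zero, ofReal_eq_zero] at h
  have h3 := (pow_left_inj₀ (aa_nonneg p 0) (aa_nonneg p 1) two_ne_zero).1 (sub_eq_zero.1 h)
  have h4 := (pow_left_inj₀ (aa_nonneg p 2) (aa_nonneg p 1) two_ne_zero).1 (sub_eq_zero.1 h2)
  intro k
  fin_cases k
  · rfl
  · exact h3.symm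
  · exact h4.trans h3.symm

lemma wd_mul (c : ℂ) (Q : Fin 3 → ℂ) : wd j (fun k => c * Q k) = normSq c * wd j Q := by
  simp only [wd, map_mul]; push_cast; ring

lemma wd_real (hj : j ^ 2 + j + 1 = 0) {a : Fin 3 → ℝ} (h : ∑ k, a k = 0) (h0 : a 0 ≠ 0) :
    wd j (fun k => a k) ∈ slitPlane := by
  rw [mem_slitPlane_iff, or_iff_not_imp_right, not_not]
  simp only [wd, normSq_ofReal]
  intro h1
  rw [add_im, ofReal_im, zero_add, im_mul_ofReal] at h1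
  have h2 := (mul_eq_zero.1 h1).resolve_left (j_im hj)
  rw [h2, ofReal_zero, mul_zero, add_zero, ofReal_re]
  rw [Fin.sum_univ_three] at h
  have h3 : a 0 * (a 2 - a 1) = 0 := by linear_combination (a 2 - a 1) * h - h2
  have h4 := (mul_eq_zero.1 h3).resolve_left h0
  have h5 : a 1 = -a 0 / 2 := by linarith
  rw [h5]
  nlinarith [mul_self_pos.2 h0]

lemma not_eq_flow (hm : ∀ k, 0 < m k) (hφ : IsFlow (YY m) Dom φ) (hj : j ^ 2 + j + 1 = 0)
    (hp : p ∈ Lim m) (hF : 2 * U0 m ≤ FF m p) (h : wd j (QQ p) ≠ 0) {t : ℝ} (ht : 0 < t) :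
    2 * U0 m < FF m (φ t p) := by
  by_contra h1
  obtain ⟨h2, -, h3⟩ := stall0 hm hφ hp ht ((not_lt.1 h1).trans hF)
  have := FF_le_flow hm hφ hp ht.le
  exact h ((wd_zero hj).2 ((eq_min hm h2).2.1 (by linarith [not_lt.1 h1])))

lemma FF_eq_le (hm : ∀ k, 0 < m k) (hp : p ∈ Man m) (h : ∀ k, aa p k = aa p 0) :
    FF m p ≤ 2 * U0 m := by
  obtain ⟨i, hi⟩ := exists_aa_pos hp.1
  have hn : NC p := fun k => normSq_pos.1 (hi.trans_eq ((h i).trans (h k).symm))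
  rw [FF_WW hm hp hn]
  linarith [(eq_min hm hn).2.2 h, WW_nonneg hm (p := p)]

end Pool.Agent.Lib.MP_6e7c44_mp.Hg
end
end

-- part Pool.Agent.Lib.MP_6e7c44_mp.HEul
section

/-!
Collinear motions of the limit system, and the dynamics near a collinear rest point.
-/

set_option autoImplicit false

open Set Filter Topology Metric Complex ComplexConjugate

noncomputable section

namespace Pool.Agent.Lib.MP_6e7c44_mp.Hg

variable {m : Fin 3 → ℝ} {φ : ℝ → St → St} {p : St} {α β : Fin 3 → ℂ}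

lemma fix_of_real (hm : ∀ k, 0 < m k) (hp : p ∈ Man m) (hn : NC p) {c : ℂ} (hc : c ≠ 0)
    (hQ : ∀ k, conj c * QQ p k = c * conj (QQ p k))
    (hV : ∀ k, conj c * VV m p k = c * conj (VV m p k)) :
    Refl (fun k => p.1 k / conj (p.1 k)) (c / conj c) ∧
      rf (fun k => p.1 k / conj (p.1 k)) p = p := by
  have h0 : ∀ k, conj (p.1 k) ≠ 0 := fun k => (map_ne_zero _).2 (hn k)
  have hc' : conj c ≠ 0 := (map_ne_zero _).2 hc
  have hM : (MM m : ℂ) ≠ 0 := ofReal_ne_zero.2 (MM_pos hm).ne'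
  have hb := hp.2.2.1
  simp only [QQ, map_pow] at hQ
  simp only [SB, bb_eq (hn _)] at hb
  simp only [VV, map_sub, map_mul, conj_ofReal] at hV
  have hb' := congrArg conj hb
  generalize ∑ j, PQ p j = S at hV
  have hS : conj c * S = c * conj S := by
    refine mul_left_cancel₀ (ofReal_ne_zero.2 (den_pos hm hp.1).ne') ?_
    simp only [den, Fin.sum_univ_three, map_add, map_mul, conj_ofReal, map_zero] at hb hb' ⊢
    push_cast
    linear_combination MM m * conj c * hb - MM m * c * hb' - aa p 0 * hV 0 - aa p 1 * hV 1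
      - aa p 2 * hV 2
  refine ⟨⟨fun k => ?_, fun k => ?_⟩,
    Prod.ext (funext fun k => ?_) (Prod.ext (funext fun k => ?_) rf_h)⟩
  · have := hn k
    have := h0 k
    rw [map_div₀, conj_conj]; field_simp
  · have := h0 k
    field_simp
    linear_combination hQ k
  · have := h0 k
    rw [rf_z]; field_simp
  · have := h0 k
    have h1 : conj c * PQ p k = c * conj (PQ p k) :=
      mul_left_cancel₀ hM (by linear_combination hV k + m k * hS)
    rw [rf_y, y_eq (hn k), map_mul, conj_conj]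
    field_simp
    refine mul_left_cancel₀ hc' ?_
    linear_combination conj (PQ p k) * hQ k - conj (p.1 k) ^ 2 * h1

theorem col_escape (hm : ∀ k, 0 < m k) (hφ : IsFlow (YY m) Dom φ) {a : Fin 3 → ℝ}
    (hA : IsCC m fun k => a k) (hs : ∑ k, (a k : ℂ) = 0) (h1 : nq m (fun k => a k) = 1)
    (h0 : ∀ k, a k ≠ 0) (hp : p ∈ Lim m) (hn : p ∈ NE m φ) {c : ℂ} (hc : c ≠ 0) {t : Fin 3 → ℝ}
    (ht : ∀ k, 0 < t k) (hQ : ∀ k, QQ p k = c * (t k * a k))
    (hV : ∀ k, conj c * VV m p k = c * conj (VV m p k)) (hF : 2 * UU m (fun k => a k) ≤ FF m p) :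
    WW m p = 0 ∧ ∃ c' : ℂ, ∀ k, QQ p k = c' * a k := by
  have h0' : ∀ k, (a k : ℂ) ≠ 0 := fun k => ofReal_ne_zero.2 (h0 k)
  have hN : NC p := fun k hk => by
    have := hQ k
    rw [QQ, hk, zero_pow two_ne_zero] at this
    exact mul_ne_zero hc (mul_ne_zero (ofReal_ne_zero.2 (ht k).ne') (h0' k)) this.symm
  obtain ⟨hr, hf⟩ := fix_of_real hm hp.1 hN hc (fun k => by
    rw [hQ]; simp only [map_mul, conj_ofReal]; ring) hV
  obtain ⟨q, qL, qr, qN, -, qC, qF, hle, G, hG, hGle, hT⟩ := lasalle hm hφ hp hn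
  have hq : rf (fun k => p.1 k / conj (p.1 k)) q = q :=
    tendsto_nhds_unique (((rf _).continuous.tendsto q).comp hT) (hT.congr fun s => by
      rw [Function.comp_apply, no, rf_sc, flow_rf hφ hr hp.1.1 hf])
  obtain ⟨s, e1⟩ : ∃ s : Fin 3 → ℝ, ∀ k, q.1 k = s k * p.1 k := by
    refine ⟨fun k => (q.1 k / p.1 k).re, fun k => ?_⟩
    have h2 := congrFun (congrArg Prod.fst hq) k
    have h3 : conj (p.1 k) ≠ 0 := (map_ne_zero _).2 (hN k)
    have h4 := hN k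
    rw [rf_z] at h2
    rw [conj_eq_iff_re.1 (by
      rw [map_div₀]
      field_simp at h2 ⊢
      linear_combination h2), div_mul_cancel₀ _ h4]
  have s0 : ∀ k, s k ≠ 0 := fun k h => qN k (by rw [e1, h, ofReal_zero, zero_mul])
  have e2 := (cc_min hm qC (by rw [← II_eq, ← rr_sq hm, qr, one_pow]) qN.QQ_ne
    (t := fun k => (s k ^ 2 * t k)⁻¹) (fun k => by have := s0 k; have := ht k; positivity)
    (inv_ne_zero hc) (Q := fun k => a k) (fun k => by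
      have := ofReal_ne_zero.2 (s0 k)
      have := ofReal_ne_zero.2 (ht k).ne'
      have h5 := hQ k
      rw [QQ] at h5
      rw [QQ, e1, mul_pow, h5]
      push_cast
      field_simp) hs).1
  rw [h1, Real.sqrt_one, one_mul] at e2
  have e3 := hle 0 le_rfl
  rw [hφ.zero] at e3
  obtain ⟨-, b2, b3⟩ := stall0 hm hφ hp one_pos ((hle 1 one_pos.le).trans (by linarith))
  refine ⟨b2, (cc_min hm hA h1 h0' ht hc hQ (sum_QQ hp.1)).2 ?_⟩
  rw [← II_eq, ← rr]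
  linarith

/-- The squared size of the deviation from the homographic motion of shape `α`. -/
def nz (m : Fin 3 → ℝ) (α β : Fin 3 → ℂ) (p : St) : ℝ := normSq (sg m α β p) + normSq (uu m α β p)

lemma sg_le_nz : normSq (sg m α β p) ≤ nz m α β p := le_add_of_nonneg_right (normSq_nonneg _)
lemma uu_le_nz : normSq (uu m α β p) ≤ nz m α β p := le_add_of_nonneg_left (normSq_nonneg _)
lemma nz_nonneg : 0 ≤ nz m α β p := add_nonneg (normSq_nonneg _) (normSq_nonneg _)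

lemma cAt_nz (hp : p ∈ Loc m α) : ContinuousAt (nz m α β) p :=
  (continuous_normSq.continuousAt.comp (cAt_sg hp.2)).add
    (continuous_normSq.continuousAt.comp (cAt_uu hp))

lemma small_of_ev {P : ℂ → Prop} (h : ∀ᶠ σ in 𝓝 0, P σ) :
    ∀ᶠ e in 𝓝[>] (0 : ℝ), ∀ σ, normSq σ ≤ e → P σ := by
  obtain ⟨ε, hε, h1⟩ := Metric.eventually_nhds_iff.1 h
  filter_upwards [Ioo_mem_nhdsGT (pow_pos hε 2)] with e he σ hσ
  refine h1 ?_
  rw [dist_zero_right]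
  rw [normSq_eq_norm_sq] at hσ
  exact lt_of_pow_lt_pow_left₀ 2 hε.le (hσ.trans_lt he.2)

/-- The small boxes around a homographic motion are relatively closed. -/
def Good (α β : Fin 3 → ℂ) (e : ℝ) : Prop :=
  0 < e ∧ e ≤ 1 ∧ ∀ σ, normSq σ ≤ e → ∀ k, ‖β k * σ‖ < ‖α k‖ / 2

lemma ev_good (hf : Frame m α β) : ∀ᶠ e in 𝓝[>] (0 : ℝ), Good α β e := by
  filter_upwards [Ioc_mem_nhdsGT one_pos, small_of_ev (P := fun σ => ∀ k, ‖β k * σ‖ < ‖α k‖ / 2)
    (eventually_all.2 fun k => ContinuousAt.eventually_lt (by fun_prop) continuousAt_const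
      (by simpa using hf.ne k))] with e h1 h2 using ⟨h1.1, h1.2, h2⟩

lemma box_lim (hm : ∀ k, 0 < m k) (hf : Frame m α β) {e : ℝ} (he : Good α β e) {X : Type*}
    {G : Filter X} [NeBot G] {f : X → St} {q : St} (hT : Tendsto f G (𝓝 q)) (hq : q ∈ Dom)
    (h : ∀ᶠ x in G, f x ∈ Man m ∧ f x ∈ Loc m α ∧ nz m α β (f x) ≤ e) :
    q ∈ Loc m α ∧ nz m α β q ≤ e := by
  have h1 : rr m q ≤ 2 * ‖q1 m α q‖ := by
    refine le_of_tendsto_of_tendsto (((c_rr m).tendsto q).comp hT)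
      (((continuous_const.mul c_q1.norm).tendsto q).comp hT) (h.mono fun x hx => ?_)
    have h2 : √(1 + normSq (sg m α β (f x))) ≤ 2 :=
      Real.sqrt_le_iff.2 ⟨two_pos.le, by linarith [sg_le_nz.trans hx.2.2, he.2.1]⟩
    show rr m (f x) ≤ 2 * ‖q1 m α (f x)‖
    rw [rr_loc hm hf hx.1.2.1 hx.2.1.2, mul_comm]
    gcongr
  have h2 : 0 < ‖q1 m α q‖ := by linarith [rr_pos hm hq]
  have h3 : q ∈ Loc m α := ⟨fun k => normSq_pos.1 (lt_of_lt_of_le
    (mul_pos h2 (half_pos (norm_pos_iff.2 (hf.ne k)))) (by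
      refine le_of_tendsto_of_tendsto (((c_q1.norm.mul continuous_const).tendsto q).comp hT)
        (((c_aa k).tendsto q).comp hT) (h.mono fun x hx => ?_)
      have h4 := he.2.2 _ (sg_le_nz.trans hx.2.2) k
      have h5 := norm_add_le (α k + β k * sg m α β (f x)) (-(β k * sg m α β (f x)))
      rw [add_neg_cancel_right, norm_neg] at h5
      show ‖q1 m α (f x)‖ * (‖α k‖ / 2) ≤ aa (f x) k
      rw [← norm_QQ, QQ_loc hm hf hx.1.2.1 hx.2.1.2, norm_mul]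
      gcongr
      linarith)), norm_pos_iff.1 h2⟩
  exact ⟨h3, le_of_tendsto ((cAt_nz h3).tendsto.comp hT) (h.mono fun _ hx => hx.2.2)⟩

lemma box_end (hm : ∀ k, 0 < m k) (hφ : IsFlow (YY m) Dom φ) (hf : Frame m α β) {e : ℝ}
    (he : Good α β e) (hp : p ∈ Man m) {τ : ℝ} (hτ : 0 < τ)
    (h : ∀ s ∈ Ico 0 τ, φ s p ∈ Loc m α ∧ nz m α β (φ s p) ≤ e) :
    φ τ p ∈ Loc m α ∧ nz m α β (φ τ p) ≤ e :=
  box_lim hm hf he (G := 𝓝[<] τ) (((hφ.cont hp.1).tendsto τ).mono_left nhdsWithin_le_nhds)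
    (hφ.mem p hp.1 τ) (by
      filter_upwards [Ico_mem_nhdsLT hτ] with s hs using ⟨flow_Man hm hφ hp s, h s hs⟩)

lemma sc_q1 {l : ℝ} : q1 m α (sc l p) = l ^ 2 * q1 m α p := by
  simp only [q1, ip, QQ, sc_z, Fin.sum_univ_three]; ring

lemma sc_Loc {l : ℝ} (hl : 0 < l) (hp : p ∈ Loc m α) : sc l p ∈ Loc m α ∧
    sg m α β (sc l p) = sg m α β p ∧ uu m α β (sc l p) = uu m α β p := by
  have h0 : (l : ℂ) ≠ 0 := ofReal_ne_zero.2 hl.ne'
  have h1 : ∀ x, ip m x (QQ (sc l p)) = l ^ 2 * ip m x (QQ p) := fun x => sc_q1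
  have h2 : ∀ x, ip m x (VV m (sc l p)) = (l : ℂ)⁻¹ * ip m x (VV m p) := fun x => by
    simp only [ip, VV, PQ, sc_z, sc_y, Fin.sum_univ_three, map_mul, conj_ofReal, div_eq_mul_inv,
      mul_inv]
    ring
  have h3 : sr m (sc l p) = l * sr m p := by
    rw [sr, sc_rr, Real.sqrt_mul (sq_nonneg _), Real.sqrt_sq hl.le, sr]
  have h4 := hp.2
  refine ⟨⟨fun k => by rw [sc_z]; exact mul_ne_zero h0 (hp.1 k),
    by rw [sc_q1]; exact mul_ne_zero (pow_ne_zero 2 h0) h4⟩, ?_, ?_⟩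
  · rw [sg, sg, h1, sc_q1]; field_simp
  · rw [uu, uu, h1, h2, h2, h3, sc_q1]; push_cast; field_simp

lemma cAt_Ut (hf : Frame m α β) : ContinuousAt (Ut m α β) 0 := by
  have : ∀ k, ‖α k + β k * 0‖ ≠ 0 := fun k => by simpa using hf.ne k
  unfold Ut UU
  refine ContinuousAt.mul (by fun_prop) (tendsto_finsetSum _ fun k _ => ?_)
  exact ContinuousAt.div continuousAt_const (by fun_prop) (this k)

lemma Ut_zero : Ut m α β 0 = UU m α := by simp [Ut]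

lemma FF_loc (hm : ∀ k, 0 < m k) (hf : Frame m α β) (hp : p ∈ Man m) (hl : p ∈ Loc m α) :
    FF m p = 2 * Ut m α β (sg m α β p) - WW m p ∧ WW m p ≤ normSq (uu m α β p) := by
  refine ⟨by rw [FF_WW hm hp hl.1, Ut_eq hm hf hp.2.1 hl.2], ?_⟩
  rw [WW_loc hm hf hp hl.2]
  exact div_le_self (normSq_nonneg _) (one_le_pow₀ (le_add_of_nonneg_right (normSq_nonneg _)))

lemma ev_FF (hm : ∀ k, 0 < m k) (hf : Frame m α β) {ε : ℝ} (hε : 0 < ε) :
    ∀ᶠ e in 𝓝[>] (0 : ℝ), ∀ p ∈ Man m, p ∈ Loc m α → nz m α β p ≤ e →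
      |FF m p - 2 * UU m α| ≤ ε := by
  filter_upwards [Ioc_mem_nhdsGT (half_pos hε), small_of_ev (Metric.tendsto_nhds.1 (cAt_Ut hf)
    (ε / 4) (by positivity))] with e h1 h2 p hp hl h3
  have h4 := h2 _ (sg_le_nz.trans h3)
  obtain ⟨h5, h6⟩ := FF_loc hm hf hp hl
  rw [Real.dist_eq, Ut_zero, abs_lt] at h4
  rw [abs_le]
  constructor <;> linarith [WW_nonneg hm (p := p), uu_le_nz.trans h3, h1.2]

lemma Frame.complete (hm : ∀ k, 0 < m k) (hf : Frame m α β) (k : Fin 3) :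
    nn m k * (normSq (α k) + normSq (β k)) = MM m - m k := by
  have hM : (MM m : ℂ) ≠ 0 := ofReal_ne_zero.2 (MM_pos hm).ne'
  have k1 : k + 1 ≠ k := by revert k; decide
  have k2 : k + 2 ≠ k := by revert k; decide
  let E : Fin 3 → ℂ := fun i => (m i * (if i = k then MM m - m k else -m k) : ℝ)
  have h1 : ∑ i, E i = 0 := by
    simp only [E, sum3 _ k, k1, k2, if_true, if_false, MM_eq m k]; push_cast; ring
  have h2 : ∀ x : Fin 3 → ℂ, ∑ i, x i = 0 → ip m E x = PP m * x k := fun x hx => by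
    rw [sum3 _ k] at hx
    rw [ip, div_eq_iff hM]
    simp only [E, sum3 _ k, k1, k2, if_true, if_false, conj_ofReal, PP_eq m k, nn, f11, f12, f21,
      f22]
    push_cast
    linear_combination -(m k * m k * m (k + 1) * m (k + 2)) * hx
  have h3 := hf.nq_eq hm h1
  have h4 := ip_self m E
  rw [h2 E h1] at h4
  rw [ip_conj, ip_conj E, h2 α hf.sa, h2 β hf.sb, normSq_conj, normSq_conj, map_mul, map_mul,
    normSq_ofReal] at h3
  simp only [E, if_true] at h4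
  have h5 : PP m * (m k * (MM m - m k)) = nq m E := by exact_mod_cast h4
  refine mul_left_cancel₀ (mul_pos (PP_pos hm) (hm k)).ne' ?_
  rw [← nn_mul m k] at h3 h5 ⊢
  linear_combination -h5 - h3

/-- A collinear central configuration with its real frame. -/
structure RF (m a b : Fin 3 → ℝ) : Prop where
  fr : Frame m (fun k => a k) (fun k => b k)
  cc : IsCC m fun k => a k

lemma exists_RF (hm : ∀ k, 0 < m k) {Q : Fin 3 → ℂ} (h : IsCC m Q) (h1 : ∑ k, Q k = 0)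
    (h2 : nq m Q = 1) (h0 : ∀ k, Q k ≠ 0) {w : ℂ} (hw : ‖w‖ = 1) {a : Fin 3 → ℝ}
    (ha : ∀ k, Q k = w * a k) : ∃ b, RF m a b := by
  have w0 : w ≠ 0 := norm_ne_zero_iff.1 (by rw [hw]; exact one_ne_zero)
  have e : (fun k => (a k : ℂ)) = fun k => w⁻¹ * Q k := funext fun k => by rw [ha]; field_simp
  have hw' : ‖w⁻¹‖ = 1 := by rw [norm_inv, hw, inv_one]
  have hf := frame_bt hm (α := fun k => a k) (by rw [e, ← Finset.mul_sum, h1, mul_zero])
    (by rw [e, nq_mul, hw', h2]; norm_num) fun k => by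
      rw [congrFun e k]; exact mul_ne_zero (inv_ne_zero w0) (h0 k)
  refine ⟨fun k => (√(PP m * MM m))⁻¹ * (nn m (k + 1) * a (k + 1) - nn m (k + 2) * a (k + 2)),
    ?_, by rw [e]; exact h.rot hw'⟩
  convert hf using 2 with k
  simp only [bt, conj_ofReal]
  push_cast; rfl

variable {a b : Fin 3 → ℝ}

lemma RF.ne (h : RF m a b) (k : Fin 3) : a k ≠ 0 := ofReal_ne_zero.1 (h.fr.ne k)
lemma RF.sum (h : RF m a b) : ∑ k, a k = 0 := by exact_mod_cast h.fr.sa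

def Gy (m a b : Fin 3 → ℝ) (σ : ℂ) : ℝ := √(1 + normSq σ) ^ 3 *
  ∑ k, nn m k * ((b k ^ 2 - a k ^ 2 - 2 * a k * b k * σ.re) * (‖a k + b k * σ‖ ^ 3)⁻¹)

lemma Gs_im (σ : ℂ) : (Gs m (fun k => a k) (fun k => b k) σ).im = -(σ.im * Gy m a b σ) := by
  simp only [Gs, Gy, ff, conj_ofReal, Fin.sum_univ_three]
  generalize √(1 + normSq σ) ^ 3 = s
  generalize (‖a 0 + b 0 * σ‖ ^ 3)⁻¹ = r0
  generalize (‖a 1 + b 1 * σ‖ ^ 3)⁻¹ = r1
  generalize (‖a 2 + b 2 * σ‖ ^ 3)⁻¹ = r2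
  simp only [neg_im, mul_im, mul_re, add_im, add_re, sub_re, sub_im, ofReal_re, ofReal_im]
  ring

lemma cAt_Gy (h : RF m a b) : ContinuousAt (Gy m a b) 0 := by
  have : ∀ k, ‖(a k : ℂ) + b k * 0‖ ^ 3 ≠ 0 := fun k => by simpa using h.ne k
  unfold Gy
  refine ContinuousAt.mul (by fun_prop) (tendsto_finsetSum _ fun k _ => ?_)
  exact continuousAt_const.mul (ContinuousAt.mul (by fun_prop)
    (ContinuousAt.inv₀ (by fun_prop) (this k)))

lemma eul_aux {x y M μ U : ℝ} (hx : 0 < x) (hy : 0 < y) (hμ : 0 < μ)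
    (h : -(M * ((x ^ 3)⁻¹ * x)) + μ * (((x + y) ^ 3)⁻¹ * (-(x + y)) + (x ^ 3)⁻¹ * x
      + (y ^ 3)⁻¹ * y) = -(U * x)) : U < (M - μ) * (x ^ 3)⁻¹ := by
  have h1 : ((x + y) ^ 2)⁻¹ < (y ^ 2)⁻¹ := inv_strictAnti₀ (by positivity) (by nlinarith)
  have e1 : ((x + y) ^ 3)⁻¹ * (x + y) = ((x + y) ^ 2)⁻¹ := by field_simp
  have e2 : (y ^ 3)⁻¹ * y = (y ^ 2)⁻¹ := by field_simp
  refine lt_of_mul_lt_mul_right (a := x) ?_ hx.le
  nlinarith [mul_pos hμ (sub_pos.2 h1)]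

lemma Gy_pos (hm : ∀ k, 0 < m k) (h : RF m a b) : 0 < Gy m a b 0 := by
  have e1 : ∀ k, -(MM m * ((|a k| ^ 3)⁻¹ * a k)) + m k * ∑ i, (|a i| ^ 3)⁻¹ * a i
      = -(UU m (fun k => a k) * a k) := fun k => by
    have := h.cc k
    simp only [acc, ff, norm_real, Real.norm_eq_abs] at this
    exact_mod_cast this
  have e2 : Gy m a b 0 = ∑ k, (MM m - m k) * (|a k| ^ 3)⁻¹ - 2 * UU m fun k => a k := by
    simp only [Gy, UU, map_zero, add_zero, Real.sqrt_one, one_pow, one_mul, mul_zero, sub_zero,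
      zero_re, norm_real, Real.norm_eq_abs, Finset.mul_sum, ← Finset.sum_sub_distrib]
    refine Finset.sum_congr rfl fun k _ => ?_
    have := abs_pos.2 (h.ne k)
    rw [← h.fr.complete hm k, normSq_ofReal, normSq_ofReal, ← sq, ← sq, ← sq_abs (a k)]
    field_simp
    ring
  rw [e2]
  generalize UU m (fun k => a k) = U at e1
  have key : ∀ a : Fin 3 → ℝ, ∑ k, a k = 0 → (∀ k, -(MM m * ((|a k| ^ 3)⁻¹ * a k))
      + m k * ∑ i, (|a i| ^ 3)⁻¹ * a i = -(U * a k)) → ∀ k, 0 < a (k + 1) → 0 < a (k + 2) →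
      0 < ∑ k, (MM m - m k) * (|a k| ^ 3)⁻¹ - 2 * U := by
    intro a hs e k h1 h2
    have f1 := e (k + 1)
    have f2 := e (k + 2)
    rw [sum3 _ k] at hs f1 f2 ⊢
    have e0 : a k = -(a (k + 1) + a (k + 2)) := by linarith
    rw [e0, abs_neg, abs_of_pos h1, abs_of_pos h2, abs_of_pos (add_pos h1 h2)] at f1 f2 ⊢
    have g1 := eul_aux h1 h2 (hm (k + 1)) f1
    have g2 := eul_aux (M := MM m) (U := U) h2 h1 (hm (k + 2)) (by
      rw [add_comm (a (k + 2))]; linarith)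
    have g3 := mul_pos (MM_sub_pos hm k) (inv_pos.2 (pow_pos (add_pos h1 h2) 3))
    linarith
  have key2 : ∀ k, a (k + 1) < 0 → a (k + 2) < 0 →
      0 < ∑ k, (MM m - m k) * (|a k| ^ 3)⁻¹ - 2 * U := fun k h1 h2 => by
    simpa only [abs_neg] using key (fun k => -a k) (by rw [Finset.sum_neg_distrib, h.sum, neg_zero])
      (fun k => by
        simp only [abs_neg, mul_neg, Finset.sum_neg_distrib]
        linarith [e1 k]) k (neg_pos.2 h1) (neg_pos.2 h2)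
  have hs := h.sum
  rw [Fin.sum_univ_three] at hs
  rcases (h.ne 0).lt_or_gt with h0 | h0 <;> rcases (h.ne 1).lt_or_gt with h1 | h1 <;>
    rcases (h.ne 2).lt_or_gt with h2 | h2
  exacts [key2 0 h1 h2, key2 2 h0 h1, key2 1 h2 h0, key a h.sum e1 0 h1 h2, key2 0 h1 h2,
    key a h.sum e1 1 h2 h0, key a h.sum e1 2 h0 h1, key a h.sum e1 0 h1 h2]

/-- The Lyapunov function of the transverse direction. -/
def Ny (B ε : ℝ) (σ u : ℂ) : ℝ := u.im ^ 2 + B * σ.im ^ 2 + ε * σ.im * u.im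

lemma lyap_real {B v1 v2 : ℝ} (hB : 0 < B) (h1 : 0 < v1) (h2 : 0 < v2) :
    ∃ ε δ κ C : ℝ, 0 < δ ∧ 0 < κ ∧ 0 ≤ C ∧
      (∀ y w : ℝ, (w ^ 2 + B * y ^ 2) / 2 ≤ w ^ 2 + B * y ^ 2 + ε * y * w) ∧
      ∀ v y w d1 d2 o : ℝ, v1 ≤ v → v ≤ v2 → |d1| ≤ δ → |d2| ≤ δ →
        (2 * w + ε * y) * (-(v / 2 * w) - B * y + d1 * w + d2 * y + o) + 2 * B * y * w + ε * w ^ 2
          ≤ -(κ * (w ^ 2 + B * y ^ 2 + ε * y * w)) + C * o ^ 2 := by
  obtain ⟨ε, e0, e1, e2, e3, e4⟩ : ∃ ε : ℝ, 0 < ε ∧ ε ≤ 1 ∧ ε ≤ B ∧ ε ≤ v1 / 4 ∧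
      ε * v2 ^ 2 ≤ B * v1 := by
    refine ⟨min (min 1 B) (min (v1 / 4) (B * v1 / v2 ^ 2)), by positivity,
      (min_le_left _ _).trans (min_le_left _ _), (min_le_left _ _).trans (min_le_right _ _),
      (min_le_right _ _).trans (min_le_left _ _), ?_⟩
    rw [← le_div_iff₀ (by positivity)]
    exact (min_le_right _ _).trans (min_le_right _ _)
  obtain ⟨δ, d0, d1, d2⟩ : ∃ δ : ℝ, 0 < δ ∧ δ ≤ v1 / 20 ∧ δ ≤ ε * B / 20 :=
    ⟨min (v1 / 20) (ε * B / 20), by positivity, min_le_left _ _, min_le_right _ _⟩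
  refine ⟨ε, δ, δ / (B + 2), 2 / δ, d0, by positivity, by positivity, fun y w => ?_,
    fun v y w a b o hv hv' ha hb => ?_⟩
  · nlinarith [sq_nonneg (w + ε * y), mul_nonneg (sub_nonneg.2 e2) (sq_nonneg y),
      mul_nonneg (mul_nonneg e0.le (sub_nonneg.2 e1)) (sq_nonneg y)]
  · have p1 : δ / (B + 2) * (w ^ 2 + B * y ^ 2 + ε * y * w) ≤ δ * (w ^ 2 + y ^ 2) := by
      rw [div_mul_eq_mul_div, div_le_iff₀ (by positivity), mul_assoc δ]
      refine mul_le_mul_of_nonneg_left ?_ d0.le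
      nlinarith [sq_nonneg (w - ε * y), mul_nonneg hB.le (sq_nonneg w),
        mul_nonneg (mul_nonneg e0.le (sub_nonneg.2 e1)) (sq_nonneg y),
        mul_nonneg (sub_nonneg.2 e1) (sq_nonneg y)]
    have p2 : (2 * w + ε * y) * o ≤ δ * (w ^ 2 + y ^ 2) + 2 / δ * o ^ 2 := by
      have : 2 / δ * o ^ 2 = 2 * δ * (o / δ) ^ 2 := by field_simp
      rw [this, show o = δ * (o / δ) by field_simp]
      generalize o / δ = z
      have : δ * z / δ = z := by field_simp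
      rw [this]
      have : (2 * w + ε * y) * z ≤ w ^ 2 + y ^ 2 + 2 * z ^ 2 := by
        nlinarith [sq_nonneg (w - z), sq_nonneg (y - ε * z), sq_nonneg y,
          mul_nonneg (mul_nonneg e0.le (sub_nonneg.2 e1)) (sq_nonneg z),
          mul_nonneg (sub_nonneg.2 e1) (sq_nonneg z)]
      nlinarith
    have p3 : -(ε * v / 2 * (y * w)) ≤ ε * B / 4 * y ^ 2 + v1 / 4 * w ^ 2 := by
      have q1 : ε * v ^ 2 ≤ B * v1 :=
        (mul_le_mul_of_nonneg_left (pow_le_pow_left₀ (h1.le.trans hv) hv' 2) e0.le).trans e4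
      refine le_of_mul_le_mul_left ?_ hB
      nlinarith [mul_nonneg e0.le (sq_nonneg (B * y + v * w)),
        mul_nonneg (sub_nonneg.2 q1) (sq_nonneg w)]
    have p4 : ∀ c : ℝ, |c| ≤ δ → ∀ s t : ℝ, c * (s * t) ≤ δ * (s ^ 2 + t ^ 2) / 2 := by
      intro c hc s t
      rw [abs_le] at hc
      nlinarith [mul_nonneg (sub_nonneg.2 hc.2) (sq_nonneg (s + t)),
        mul_nonneg (sub_nonneg.2 hc.1) (sq_nonneg (s - t))]
    have ha' : |ε * a| ≤ δ := by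
      rw [abs_mul, abs_of_pos e0]; nlinarith [abs_nonneg a]
    have hb' : |ε * b| ≤ δ := by
      rw [abs_mul, abs_of_pos e0]; nlinarith [abs_nonneg b]
    nlinarith [p4 a ha w w, p4 b hb w y, p4 _ ha' w y, p4 _ hb' y y,
      mul_nonneg (sub_nonneg.2 hv) (sq_nonneg w), mul_nonneg (sub_nonneg.2 e3) (sq_nonneg w),
      mul_nonneg (sub_nonneg.2 d1) (sq_nonneg w), mul_nonneg (sub_nonneg.2 d2) (sq_nonneg y),
      mul_nonneg d0.le (sq_nonneg w), mul_nonneg d0.le (sq_nonneg y)]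

lemma cNy (hm : ∀ k, 0 < m k) (h : RF m a b) {v1 v2 : ℝ} (h1 : 0 < v1) (h2 : 0 < v2) :
    ∃ ε κ C : ℝ, 0 < κ ∧ 0 ≤ C ∧
      (∀ σ u, (u.im ^ 2 + Gy m a b 0 * σ.im ^ 2) / 2 ≤ Ny (Gy m a b 0) ε σ u) ∧
      ∀ᶠ e in 𝓝[>] (0 : ℝ), ∀ (γ : ℝ → St) (t : ℝ), γ t ∈ Man m → γ t ∈ Loc m (fun k => a k) →
        nz m (fun k => a k) (fun k => b k) (γ t) ≤ e → v1 ≤ vv m (γ t) → vv m (γ t) ≤ v2 →
        HasDerivAt γ (YY m (γ t)) t → ∃ d, HasDerivAt (fun s => Ny (Gy m a b 0) ε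
          (sg m (fun k => a k) (fun k => b k) (γ s)) (uu m (fun k => a k) (fun k => b k) (γ s))) d t
          ∧ d ≤ gm m (γ t) * (-(κ * Ny (Gy m a b 0) ε (sg m (fun k => a k) (fun k => b k) (γ t))
            (uu m (fun k => a k) (fun k => b k) (γ t))) + C * om m (γ t) ^ 2) := by
  obtain ⟨ε, δ, κ, C, d0, k0, c0, e1, e2⟩ := lyap_real (Gy_pos hm h) h1 h2
  refine ⟨ε, κ, 4 * C, k0, by positivity, fun σ u => e1 _ _, ?_⟩
  filter_upwards [Ioc_mem_nhdsGT (show 0 < min 1 (δ / 4) by positivity),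
    small_of_ev (Metric.tendsto_nhds.1 (cAt_Gy h) (δ / 2) (by positivity))]
    with e he hG γ t hp hl hz hv hv' hd
  have a1 := hd_im (csg (β := fun k => b k) hm hp hl hd)
  have a2 := hd_im (cuu hm h.fr hp hl hd)
  refine ⟨_, ((a2.fun_pow 2).add ((a1.fun_pow 2).const_mul _)).add ((a1.const_mul ε).mul a2), ?_⟩
  have g1 := hG _ (sg_le_nz.trans hz)
  have g0 := gm_nonneg hm hp.1
  simp only [im_ofReal_mul, add_im, Gs_im, Ny, nz] at hz ⊢
  generalize sg m (fun k => a k) (fun k => b k) (γ t) = σ at *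
  generalize uu m (fun k => a k) (fun k => b k) (γ t) = u at *
  have s1 : 1 ≤ 1 + normSq σ := le_add_of_nonneg_right (normSq_nonneg _)
  have he1 := he.2.trans (min_le_left _ _)
  have he2 := he.2.trans (min_le_right _ _)
  have b1 : |4 * σ.re * u.re / (1 + normSq σ)| ≤ δ := by
    rw [abs_div, abs_of_pos (show 0 < 1 + normSq σ by linarith)]
    refine (div_le_self (abs_nonneg _) s1).trans (abs_le.2 ?_)
    simp only [normSq_apply] at hz
    constructor <;> nlinarith [sq_nonneg (σ.re + u.re), sq_nonneg (σ.re - u.re),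
      mul_self_nonneg σ.im, mul_self_nonneg u.im]
  have b2 : |-(2 * (u.re ^ 2 - u.im ^ 2) / (1 + normSq σ)) - (Gy m a b σ - Gy m a b 0)| ≤ δ := by
    have : |2 * (u.re ^ 2 - u.im ^ 2) / (1 + normSq σ)| ≤ δ / 2 := by
      rw [abs_div, abs_of_pos (show 0 < 1 + normSq σ by linarith)]
      refine (div_le_self (abs_nonneg _) s1).trans (abs_le.2 ?_)
      simp only [normSq_apply] at hz
      constructor <;> nlinarith [mul_self_nonneg σ.re, mul_self_nonneg u.re,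
        mul_self_nonneg σ.im, mul_self_nonneg u.im]
    rw [Real.dist_eq, abs_lt] at g1
    rw [abs_le] at this ⊢
    constructor <;> linarith
  have b3 := e2 _ σ.im u.im _ _ (-(2 * om m (γ t) * u.re)) hv hv' b1 b2
  have b4 : C * (-(2 * om m (γ t) * u.re)) ^ 2 ≤ 4 * C * om m (γ t) ^ 2 := by
    have : u.re ^ 2 ≤ 1 := by
      simp only [normSq_apply] at hz
      nlinarith [mul_self_nonneg σ.re, mul_self_nonneg σ.im, mul_self_nonneg u.im]
    nlinarith [mul_nonneg (mul_nonneg c0 (sq_nonneg (om m (γ t)))) (sub_nonneg.2 this)]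
  refine le_trans (le_of_eq ?_) (mul_le_mul_of_nonneg_left (b3.trans (add_le_add le_rfl b4)) g0)
  simp only [div_ofReal_im, sq, mul_im, mul_re, sub_im, neg_im, div_ofNat_re, div_ofNat_im,
    ofReal_re, ofReal_im, conj_re, conj_im, re_ofNat, im_ofNat, I_re, I_im]
  ring

lemma real_vel (hm : ∀ k, 0 < m k) (hf : Frame m (fun k => a k) (fun k => b k)) (hp : p ∈ Man m)
    (hl : p ∈ Loc m fun k => a k) (hc : (Jc m p).im = 0)
    (h1 : (sg m (fun k => a k) (fun k => b k) p).im = 0)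
    (h2 : (uu m (fun k => a k) (fun k => b k) p).im = 0) (k : Fin 3) :
    conj (q1 m (fun k => a k) p) * VV m p k = q1 m (fun k => a k) p * conj (VV m p k) := by
  have h0 := hl.2
  have h0' : conj (q1 m (fun k => a k) p) ≠ 0 := (map_ne_zero _).2 h0
  have h3 := ofReal_ne_zero.2 (pow_pos (sr_pos hm hp.1) 3).ne'
  have e1 := conj_eq_iff_im.2 h1
  have e2 := conj_eq_iff_im.2 h2
  have e3 := conj_eq_iff_im.2 hc
  have e4 : ip m (fun k => b k) (QQ p)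
      = q1 m (fun k => a k) p * sg m (fun k => a k) (fun k => b k) p := by rw [sg]; field_simp
  have e5 : (1 + sg m (fun k => a k) (fun k => b k) p ^ 2) ≠ 0 := by
    rw [← conj_eq_iff_re.1 e1]
    exact_mod_cast (by positivity : 1 + (sg m (fun k => a k) (fun k => b k) p).re ^ 2 ≠ 0)
  rw [Jc_eq hm hp.2.1 hl.1, hf.ip_eq hm _ (sum_VV p), e4, ← q1] at e3
  rw [uu, e4] at e2
  rw [congrFun (hf.dec hm (sum_VV p)) k]
  simp only [map_add, map_mul, map_sub, map_div₀, map_pow, conj_ofReal, conj_conj, e1] at e2 e3 ⊢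
  generalize q1 m (fun k => a k) p = q at *
  generalize sg m (fun k => a k) (fun k => b k) p = σ at *
  generalize ip m (fun k => a k) (VV m p) = x at *
  generalize ip m (fun k => b k) (VV m p) = y at *
  field_simp at e2
  have f1 : conj q * x = q * conj x := mul_left_cancel₀ e5 (by linear_combination -e3 + σ * e2)
  linear_combination (a k + b k * σ) * f1 - b k * e2

lemma rest_of_real (hm : ∀ k, 0 < m k) (hφ : IsFlow (YY m) Dom φ) (h : RF m a b) {e : ℝ}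
    (he : Good (fun k => a k) (fun k => b k) e) (hp : p ∈ Lim m) (hn : p ∈ NE m φ)
    (hl : p ∈ Loc m fun k => a k) (hz : nz m (fun k => a k) (fun k => b k) p ≤ e)
    (h1 : (sg m (fun k => a k) (fun k => b k) p).im = 0)
    (h2 : (uu m (fun k => a k) (fun k => b k) p).im = 0)
    (hF : 2 * UU m (fun k => a k) ≤ FF m p) : nz m (fun k => a k) (fun k => b k) p = 0 := by
  have e1 := conj_eq_iff_re.1 (conj_eq_iff_im.2 h1)
  obtain ⟨h3, c, h4⟩ := col_escape hm hφ h.cc h.fr.sa h.fr.na h.ne hp hn hl.2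
    (t := fun k => 1 + b k * (sg m (fun k => a k) (fun k => b k) p).re / a k) (fun k => by
      have h3 := he.2.2 _ (sg_le_nz.trans hz) k
      rw [← e1, ← ofReal_mul, norm_real, norm_real, Real.norm_eq_abs, Real.norm_eq_abs] at h3
      have h4 := abs_pos.2 (h.ne k)
      have h5 := neg_abs_le (b k * (sg m (fun k => a k) (fun k => b k) p).re / a k)
      rw [abs_div] at h5
      have h6 := (div_lt_one h4).2 (h3.trans (half_lt_self h4))
      linarith) (fun k => by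
      have := h.fr.ne k
      rw [QQ_loc hm h.fr hp.1.2.1 hl.2]
      push_cast
      rw [e1]
      field_simp) (real_vel hm h.fr hp.1 hl hp.2.2.1 h1 h2) hF
  have h5 : sg m (fun k => a k) (fun k => b k) p = 0 := by
    have := ip_lin (m := m) (fun k => b k) (fun k => a k) (fun k => a k) c 0
    rw [sg, funext h4, show (fun k => c * (a k : ℂ)) = fun k => a k * c + a k * 0 from
      funext fun k => by ring, this, h.fr.ba]
    simp
  rw [WW_loc hm h.fr hp.1 hl.2, h5] at h3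
  rw [nz, h5]
  simpa using h3

theorem euler_local (hm : ∀ k, 0 < m k) (hφ : IsFlow (YY m) Dom φ) (h : RF m a b) :
    ∀ᶠ e in 𝓝[>] (0 : ℝ), ∀ q ∈ Lim m, q ∈ Loc m (fun k => a k) →
      nz m (fun k => a k) (fun k => b k) q = 0 → ∀ᶠ p in 𝓝 q, p ∈ Lim m → p ∈ NE m φ →
        ∀ t, 0 ≤ t → φ t p ∈ Loc m (fun k => a k) ∧
          nz m (fun k => a k) (fun k => b k) (φ t p) < e := by
  have hU := UU_pos hm h.fr.ne
  obtain ⟨ε, κ, C, k0, -, hN, hev⟩ := cNy hm h (Real.sqrt_pos.2 hU)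
    (Real.sqrt_pos.2 (mul_pos three_pos hU))
  obtain ⟨K, hK, K1, K2⟩ := isCompact_lim hm hφ
  filter_upwards [hev, ev_good h.fr, ev_FF hm h.fr hU] with e h1 h2 h3 q qL ql q0
  set α : Fin 3 → ℂ := fun k => a k
  set β : Fin 3 → ℂ := fun k => b k
  set N : St → ℝ := fun p => Ny (Gy m a b 0) ε (sg m α β p) (uu m α β p)
  have cN : ∀ p ∈ Loc m α, ContinuousAt N p := fun p hp => by
    have := cAt_sg (β := β) hp.2
    have := cAt_uu (β := β) hp
    simp only [N, Ny]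
    fun_prop
  have mono : ∀ p ∈ Lim m, ∀ τ, 0 ≤ τ → (∀ s ∈ Icc 0 τ, φ s p ∈ Loc m α ∧ nz m α β (φ s p) ≤ e) →
      N (φ τ p) ≤ N p := fun p hp τ hτ hb => by
    have key : ∀ s ∈ Icc 0 τ, ∃ d, HasDerivAt (fun s => N (φ s p)) d s ∧ d ≤ 0 := fun s hs => by
      have a1 := flow_Lim hm hφ hp hs.1
      have a2 := abs_le.1 (h3 _ a1.1 (hb s hs).1 (hb s hs).2)
      have a3 : om m (φ s p) = 0 := by rw [om, a1.2.2.1, zero_div]
      have a4 : FF m (φ s p) = vv m (φ s p) ^ 2 := by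
        rw [FF_mcg hm a1.1.1, a3, mm, a1.2.1]; ring
      have a5 : 0 < vv m (φ s p) := div_pos a1.2.2.2 (sr_pos hm a1.1.1)
      obtain ⟨d, hd, hd'⟩ := h1 (fun s => φ s p) s a1.1 (hb s hs).1 (hb s hs).2
        (Real.sqrt_le_iff.2 ⟨a5.le, by linarith⟩) (Real.le_sqrt_of_sq_le (by linarith))
        (hφ.deriv p hp.1.1 s)
      refine ⟨d, hd, hd'.trans (mul_nonpos_of_nonneg_of_nonpos (gm_nonneg hm a1.1.1) ?_)⟩
      have := mul_nonneg k0.le (le_trans (div_nonneg (add_nonneg (sq_nonneg _) (mul_nonneg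
        (Gy_pos hm h).le (sq_nonneg _))) two_pos.le) (hN (sg m α β (φ s p)) (uu m α β (φ s p))))
      rw [a3]
      linarith
    choose! d hd using key
    have := mono_Icc' hτ (fun s hs => (hd s hs).1.neg)
      fun s hs => neg_nonneg.2 (hd s (Ioo_subset_Icc_self hs)).2
    simpa only [Pi.neg_apply, hφ.zero, neg_le_neg_iff] using this
  by_contra hcon
  have key : ∃ᶠ p in 𝓝 q, ∃ τ, 0 ≤ τ ∧ p ∈ Lim m ∧ p ∈ NE m φ ∧ φ τ p ∈ Loc m α ∧
      nz m α β (φ τ p) = e ∧ N (φ τ p) ≤ N p := by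
    refine ((not_eventually.1 hcon).and_eventually ((isOpen_Loc.eventually_mem ql).and
      ((cAt_nz ql).eventually_lt continuousAt_const (q0.trans_lt h2.1)))).mono
      fun p ⟨hp, hp'⟩ => ?_
    push Not at hp
    obtain ⟨pL, pN, t, ht, hp⟩ := hp
    obtain ⟨τ, h4, h5, h6⟩ := first_fail (P := fun s => φ s p ∈ Loc m α ∧ nz m α β (φ s p) < e)
      (fun s _ hs => ((hφ.cont pL.1.1).continuousAt.eventually (isOpen_Loc.eventually_mem hs.1)).and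
        (((cAt_nz hs.1).comp (f := fun s => φ s p) (hφ.cont pL.1.1).continuousAt).eventually_lt
          continuousAt_const hs.2)) ⟨t, ht, fun h7 => not_lt.2 (hp h7.1) h7.2⟩
    have h7 : 0 < τ := lt_of_le_of_ne h4 fun h7 => h5 (by rw [← h7, hφ.zero]; exact hp')
    have h8 := box_end hm hφ h.fr h2 pL.1 h7 fun s hs => ⟨(h6 s hs).1, (h6 s hs).2.le⟩
    exact ⟨τ, h4, pL, pN, h8.1, le_antisymm h8.2 (not_lt.1 fun h9 => h5 ⟨h8.1, h9⟩),
      mono p pL τ h4 fun s hs => hs.2.eq_or_lt.elim (fun h9 => h9 ▸ h8)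
        fun h9 => ⟨(h6 s ⟨hs.1, h9⟩).1, (h6 s ⟨hs.1, h9⟩).2.le⟩⟩
  have := frequently_iff_neBot.1 key
  obtain ⟨τ, hτ⟩ := (eventually_inf_principal.2 (Eventually.of_forall fun p hp => hp) :
    ∀ᶠ p in 𝓝 q ⊓ 𝓟 _, p ∈ {p | ∃ τ, 0 ≤ τ ∧ p ∈ Lim m ∧ p ∈ NE m φ ∧ φ τ p ∈ Loc m α ∧
      nz m α β (φ τ p) = e ∧ N (φ τ p) ≤ N p}).choice
  obtain ⟨G, hG, hle, s, hs, hT⟩ := extract hK (f := fun p => no m (φ (τ p) p))
    (hτ.mono fun p hp => K2 _ (flow_Lim hm hφ hp.2.1 hp.1) (flow_NE hm hφ hp.2.2.1 hp.1))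
  have sD := (K1 s hs).1
  have hτ' : ∀ᶠ p in G, no m (φ (τ p) p) ∈ Lim m ∧ no m (φ (τ p) p) ∈ NE m φ ∧
      no m (φ (τ p) p) ∈ Loc m α ∧ nz m α β (no m (φ (τ p) p)) = e ∧ N (no m (φ (τ p) p)) ≤ N p ∧
      FF m p ≤ FF m (no m (φ (τ p) p)) := by
    filter_upwards [hle hτ] with p hp
    obtain ⟨a1, a2, a3, a4, a5, a6⟩ := hp
    have b1 := flow_Lim hm hφ a2 a1
    obtain ⟨b2, b3, b4⟩ := sc_Loc (β := β) (nf_pos hm b1.1.1) a4
    refine ⟨no_Lim hm b1, no_NE hm hφ (flow_NE hm hφ a3 a1), b2, ?_, ?_, ?_⟩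
    · rw [← a5, nz, nz, no, b3, b4]
    · simpa only [N, no, b3, b4] using a6
    · rw [no_FF hm b1.1.1]; exact FF_le_flow hm hφ a2 a1
  have hq : Tendsto id G (𝓝 q) := hle.trans inf_le_left
  obtain ⟨sl, sz⟩ := box_lim hm h.fr h2 hT sD (hτ'.mono fun p hp => ⟨hp.1.1, hp.2.2.1, hp.2.2.2.1.le⟩)
  have s1 : nz m α β s = e := tendsto_nhds_unique_of_eventuallyEq ((cAt_nz sl).tendsto.comp hT)
    tendsto_const_nhds (hτ'.mono fun p hp => hp.2.2.2.1)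
  have s2 : N s ≤ N q := le_of_tendsto_of_tendsto ((cN s sl).tendsto.comp hT)
    ((cN q ql).tendsto.comp hq) (hτ'.mono fun p hp => hp.2.2.2.2.1)
  have s3 : FF m q ≤ FF m s := le_of_tendsto_of_tendsto ((cAt_FF hm qL.1.1).tendsto.comp hq)
    ((cAt_FF hm sD).tendsto.comp hT) (hτ'.mono fun p hp => hp.2.2.2.2.2)
  have sL := (Lim_lim hm hT sD hU (hτ'.mono fun p hp => ⟨hp.1, by
    linarith [(abs_le.1 (h3 _ hp.1.1 hp.2.2.1 hp.2.2.2.1.le)).1]⟩)).1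
  have q1' : sg m α β q = 0 := normSq_eq_zero.1 (le_antisymm (sg_le_nz.trans q0.le) (normSq_nonneg _))
  have q2 : uu m α β q = 0 := normSq_eq_zero.1 (le_antisymm (uu_le_nz.trans q0.le) (normSq_nonneg _))
  have s4 : N q = 0 := by simp [N, Ny, q1', q2]
  have s5 := (hN (sg m α β s) (uu m α β s)).trans (s2.trans s4.le)
  have s6 := mul_nonneg (Gy_pos hm h).le (sq_nonneg (sg m α β s).im)
  have s7 : (uu m α β s).im = 0 :=
    pow_eq_zero_iff two_ne_zero |>.1 (le_antisymm (by linarith) (sq_nonneg _))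
  have s8 : (sg m α β s).im = 0 := pow_eq_zero_iff two_ne_zero |>.1 ((mul_eq_zero.1 (le_antisymm
    (by linarith [sq_nonneg (uu m α β s).im]) s6)).resolve_left (Gy_pos hm h).ne')
  have s9 : FF m q = 2 * UU m α := by
    rw [(FF_loc hm h.fr qL.1 ql).1, q1', Ut_zero, WW_loc hm h.fr qL.1 ql.2, q2]; simp [α]
  exact h2.1.ne' (s1.symm.trans (rest_of_real hm hφ h h2 sL
    (NE_lim hφ hT sD (hτ'.mono fun p hp => hp.2.1)) sl sz s8 s7 (s9.symm.trans_le s3)))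

variable {j : ℂ}

@[fun_prop] lemma c_wd {X : Type*} [TopologicalSpace X] {f : X → Fin 3 → ℂ} (hf : Continuous f) :
    Continuous fun x => wd j (f x) := by unfold wd; fun_prop

lemma c_wdQ : Continuous fun p => wd j (QQ p) := c_wd (continuous_pi c_QQ)

lemma slit_mul {c : ℝ} (hc : 0 < c) {z : ℂ} : c * z ∈ slitPlane ↔ z ∈ slitPlane := by
  simp [mem_slitPlane_iff, hc, hc.ne']

lemma sc_wd {l : ℝ} : wd j (QQ (sc l p)) = (l ^ 4 : ℝ) * wd j (QQ p) := by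
  simp only [wd, nsq_QQ, sc_aa]; push_cast; ring

lemma wd_loc (hm : ∀ k, 0 < m k) (hf : Frame m α β) (hp : p ∈ Man m) (hl : p ∈ Loc m α) :
    wd j (QQ p) = normSq (q1 m α p) * wd j fun k => α k + β k * sg m α β p := by
  rw [funext (QQ_loc hm hf hp.2.1 hl.2), wd_mul]

lemma lim_point (hm : ∀ k, 0 < m k) (hφ : IsFlow (YY m) Dom φ) (hj : j ^ 2 + j + 1 = 0)
    (hp : p ∈ Lim m) (hn : p ∈ NE m φ) (hF : 2 * U0 m ≤ FF m p) (hw : wd j (QQ p) ≠ 0) :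
    (∀ t, 0 ≤ t → wd j (QQ (φ t p)) ≠ 0) ∧ ∃ T0, ∀ᶠ p' in 𝓝 p, p' ∈ Lim m → p' ∈ NE m φ →
      ∀ T, T0 ≤ T → wd j (QQ (φ T p')) ∈ slitPlane := by
  refine ⟨fun t ht h => ?_, ?_⟩
  · rcases ht.eq_or_lt with rfl | ht
    · rw [hφ.zero] at h; exact hw h
    · exact not_le.2 (not_eq_flow hm hφ hj hp hF hw ht)
        (FF_eq_le hm (flow_Man hm hφ hp.1 t) ((wd_zero hj).1 h))
  obtain ⟨q, qL, qr, qN, qW, qC, -, hle, G, hG, hGle, hT⟩ := lasalle hm hφ hp hn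
  rcases cc_cases qC hm qN.QQ_ne with h | ⟨w, hw1, a, ha⟩
  · simp only [norm_QQ] at h
    exact absurd ((hle 1 one_pos.le).trans (FF_eq_le hm qL.1 h))
      (not_le.2 (not_eq_flow hm hφ hj hp hF hw one_pos))
  obtain ⟨b, h⟩ := exists_RF hm qC (sum_QQ qL.1) (by rw [← II_eq, ← rr_sq hm, qr, one_pow])
    qN.QQ_ne hw1 ha
  have e1 : ∀ x, ip m x (QQ q) = ip m x (fun k => a k) * w := fun x => by
    rw [funext ha]; simp only [ip, Fin.sum_univ_three]; ring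
  have ql : q ∈ Loc m fun k => a k := ⟨qN, by
    rw [q1, e1, h.fr.aa, one_mul]; exact norm_ne_zero_iff.1 (by rw [hw1]; exact one_ne_zero)⟩
  have e2 : sg m (fun k => a k) (fun k => b k) q = 0 := by rw [sg, e1, h.fr.ba]; simp
  rw [WW_loc hm h.fr qL.1 ql.2, e2] at qW
  have e3 : ∀ᶠ σ in 𝓝 (0 : ℂ), wd j (fun k => a k + b k * σ) ∈ slitPlane :=
    (c_wd (by fun_prop)).continuousAt.eventually (isOpen_slitPlane.mem_nhds (by
      simpa using wd_real hj h.sum (h.ne 0)))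
  obtain ⟨e, e4, e5⟩ := ((euler_local hm hφ h).and (small_of_ev e3)).exists
  obtain ⟨t0, e6, e7⟩ := ((hT.eventually (e4 q qL ql (by
    rw [nz, e2]; simpa using qW)).eventually_nhds).and (hGle (eventually_ge_atTop 0))).exists
  have l0 := nf_pos hm (hφ.mem p hp.1.1 t0)
  have c1 : ContinuousAt (fun p' => sc (nf m (φ t0 p)) (φ t0 p')) p :=
    (sc _).continuous.continuousAt.comp (hφ.comp_contAt (τ := fun _ => t0) continuousAt_const
      continuousAt_id hp.1.1)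
  refine ⟨t0, (c1.eventually e6).mono fun p' h1 h2 h3 T hT => ?_⟩
  have h4 := sc_Lim l0 (flow_Lim hm hφ h2 e7)
  obtain ⟨h5, h6⟩ := h1 h4 (sc_NE hφ l0 (flow_NE hm hφ h3 e7)) (T - t0) (sub_nonneg.2 hT)
  have h7 := (slit_mul (normSq_pos.2 h5.2)).2 (e5 _ (sg_le_nz.trans h6.le))
  rw [← wd_loc hm h.fr (flow_Man hm hφ h4.1 _) h5, flow_sc hφ l0 (hφ.mem _ h2.1.1 _),
    ← hφ.add h2.1.1, sub_add_cancel, sc_wd] at h7
  exact (slit_mul (pow_pos l0 4)).1 h7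

lemma sc_sr {l : ℝ} (hl : 0 < l) : sr m (sc l p) = l * sr m p := by
  rw [sr, sc_rr, Real.sqrt_mul (sq_nonneg _), Real.sqrt_sq hl.le, sr]
lemma sc_vv {l : ℝ} (hl : 0 < l) : vv m (sc l p) = vv m p := by
  rw [vv, vv, sc_sr hl, sc_Jc, re_ofReal_mul, mul_div_mul_left _ _ hl.ne']
lemma sc_om {l : ℝ} (hl : 0 < l) : om m (sc l p) = om m p := by
  rw [om, om, sc_sr hl, sc_Jc, im_ofReal_mul, mul_div_mul_left _ _ hl.ne']
lemma sc_mm {l : ℝ} (hl : 0 < l) : mm m (sc l p) = mm m p := by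
  rw [mm, mm, sc_rr, sc_h]; field_simp

lemma bad_choice {X Y : Type*} [Nonempty Y] {F : Filter X} {P : X → Y → Prop}
    (h : ¬∀ᶠ x in F, ∀ y, P x y) :
    ∃ G : Filter X, G.NeBot ∧ G ≤ F ∧ ∃ f : X → Y, ∀ᶠ x in G, ¬P x (f x) := by
  have h1 : NeBot (F ⊓ 𝓟 {x | ¬∀ y, P x y}) := frequently_iff_neBot.1 (not_eventually.1 h)
  have h2 : ∀ᶠ x in F ⊓ 𝓟 {x | ¬∀ y, P x y}, ∃ y, ¬P x y :=
    eventually_inf_principal.2 (Eventually.of_forall fun _ hx => not_forall.1 hx)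
  exact ⟨_, h1, inf_le_left, h2.choice⟩

/-- Passage to the limit of zero energy and zero angular momentum. -/
lemma to_lim (hm : ∀ k, 0 < m k) (hφ : IsFlow (YY m) Dom φ) {U : ℝ} (hU : 0 < U)
    {F : Filter ℝ} [NeBot F] (hF : F ≤ 𝓝[>] 0) {f : ℝ → St}
    (h : ∀ᶠ κ in F, f κ ∈ NE m φ ∧ 0 ≤ mm m (f κ) ∧ mm m (f κ) ≤ κ ∧
      om m (f κ) ^ 2 ≤ κ ∧ 0 ≤ vv m (f κ) ∧ 2 * U - κ ≤ FF m (f κ) ∧ FF m (f κ) ≤ 3 * U) :
    ∃ G : Filter ℝ, G.NeBot ∧ G ≤ F ∧ ∃ q, Tendsto (fun κ => no m (f κ)) G (𝓝 q) ∧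
      q ∈ Lim m ∧ q ∈ NE m φ ∧ rr m q = 1 ∧ 2 * U ≤ FF m q ∧ FF m q ≤ 3 * U := by
  have h' : ∀ᶠ κ in F, no m (f κ) ∈ NE m φ ∧ rr m (no m (f κ)) = 1 ∧
      0 ≤ mm m (no m (f κ)) ∧ mm m (no m (f κ)) ≤ κ ∧ om m (no m (f κ)) ^ 2 ≤ κ ∧
      0 ≤ vv m (no m (f κ)) ∧ 2 * U - κ ≤ FF m (no m (f κ)) ∧ FF m (no m (f κ)) ≤ 3 * U :=
    h.mono fun κ hκ => by
      have l0 := nf_pos hm hκ.1.1.1
      refine ⟨no_NE hm hφ hκ.1, rr_nf hm hκ.1.1.1, ?_⟩
      rw [no_FF hm hκ.1.1.1, no, sc_mm l0, sc_om l0, sc_vv l0]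
      exact hκ.2
  obtain ⟨G, hG, hle, q, hq, hT⟩ := extract (isCompact_Cpt hm one_pos 1 1 (3 * U))
    (f := fun κ => no m (f κ)) (F := F) (by
      filter_upwards [h', hF (Ioc_mem_nhdsGT one_pos)] with κ ⟨a1, a2, a3, a4, _, _, _, a5⟩ a6
      rw [mm, a2, mul_one] at a3 a4
      exact ⟨a1.1, a2.ge, a2.le, by linarith [a6.2], by linarith, a5⟩)
  have h0 : Tendsto id G (𝓝 0) := (hle.trans hF).trans nhdsWithin_le_nhds
  have h1 : ∀ᶠ κ in G, _ := hle h'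
  have qD := hq.1.1
  have qr : rr m q = 1 := le_antisymm hq.2.2.1 hq.2.1
  have b1 : mm m q ≤ 0 := le_of_tendsto_of_tendsto ((c_mm.tendsto q).comp hT) h0
    (h1.mono fun _ hκ => hκ.2.2.2.1)
  have b2 : om m q ^ 2 ≤ 0 := le_of_tendsto_of_tendsto (((cAt_om hm qD).pow 2).tendsto.comp hT) h0
    (h1.mono fun _ hκ => hκ.2.2.2.2.1)
  have b3 : 0 ≤ vv m q := ge_of_tendsto ((cAt_vv hm qD).tendsto.comp hT)
    (h1.mono fun _ hκ => hκ.2.2.2.2.2.1)
  have b4 : 2 * U - 0 ≤ FF m q := le_of_tendsto_of_tendsto (h0.const_sub _)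
    ((cAt_FF hm qD).tendsto.comp hT) (h1.mono fun _ hκ => hκ.2.2.2.2.2.2.1)
  have s0 := sr_pos hm qD
  rw [mm, qr, mul_one] at b1
  refine ⟨G, hG, hle, q, hT, Lim_of hq.1 (by linarith [hq.2.2.2.2.1]) ?_ ?_ (by linarith),
    NE_lim hφ hT qD (h1.mono fun _ hκ => hκ.1), qr, by linarith, hq.2.2.2.2.2⟩
  · exact (div_eq_zero_iff.1 (pow_eq_zero_iff two_ne_zero |>.1
      (le_antisymm b2 (sq_nonneg _)))).resolve_right s0.ne'
  · simpa only [zero_mul] using (le_div_iff₀ s0).1 b3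

theorem L_inf (hm : ∀ k, 0 < m k) (hφ : IsFlow (YY m) Dom φ) (hj : j ^ 2 + j + 1 = 0) {η : ℝ}
    (hη : 0 < η) : ∃ T, 0 ≤ T ∧ ∀ᶠ κ in 𝓝[>] (0 : ℝ), ∀ p ∈ NE m φ, 0 ≤ mm m p → mm m p ≤ κ →
      om m p ^ 2 ≤ κ → 0 ≤ vv m p → 2 * U0 m - κ ≤ FF m p → FF m p ≤ 3 * U0 m →
      η * rr m p ^ 2 ≤ ‖wd j (QQ p)‖ →
      (∀ t ∈ Icc 0 T, wd j (QQ (φ t p)) ≠ 0) ∧ wd j (QQ (φ T p)) ∈ slitPlane := by
  have hU := U0_pos hm
  have cw : Continuous fun p => ‖wd j (QQ p)‖ := c_wdQ.norm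
  have h1 : ∀ᶠ T in atTop, ∀ p ∈ Lim m, p ∈ NE m φ → rr m p = 1 → 2 * U0 m ≤ FF m p →
      FF m p ≤ 3 * U0 m → η ≤ ‖wd j (QQ p)‖ → wd j (QQ (φ T p)) ∈ slitPlane := by
    by_contra hcon
    obtain ⟨F, hF, hFle, f, hf⟩ := bad_choice hcon
    push Not at hf
    obtain ⟨G, hG, hle, q, hq, hT⟩ := extract (isCompact_Cpt hm one_pos 1 0 (3 * U0 m))
      (hf.mono fun T ⟨a1, _, a2, _, a3, _⟩ =>
        ⟨a1.1, a2.ge, a2.le, by rw [a1.2.1, neg_zero], a1.2.1.le, a3⟩)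
    have h1 : ∀ᶠ T in G, _ := hle hf
    obtain ⟨qL, qF⟩ := Lim_lim hm hT hq.1.1 (mul_pos two_pos hU)
      (h1.mono fun _ h => ⟨h.1, h.2.2.2.1⟩)
    obtain ⟨T0, h2⟩ := (lim_point hm hφ hj qL (NE_lim hφ hT hq.1.1 (h1.mono fun _ h => h.2.1)) qF
      (norm_pos_iff.1 (hη.trans_le (ge_of_tendsto ((cw.tendsto q).comp hT)
        (h1.mono fun _ h => h.2.2.2.2.2.1))))).2
    obtain ⟨T, a1, a2, a3⟩ := (h1.and ((hT.eventually h2).and
      ((hle.trans hFle) (eventually_ge_atTop T0)))).exists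
    exact a1.2.2.2.2.2.2 (a2 a1.1 a1.2.1 T a3)
  obtain ⟨T, hT0, h2⟩ := ((eventually_ge_atTop 0).and h1).exists
  refine ⟨T, hT0, ?_⟩
  by_contra hcon
  obtain ⟨F, hF, hFle, f, hf⟩ := bad_choice hcon
  simp only [Classical.not_imp] at hf
  obtain ⟨G, hG, hle, q, hT, qL, qN, qr, q1, q2⟩ := to_lim hm hφ hU hFle (f := f)
    (hf.mono fun κ h => ⟨h.1, h.2.1, h.2.2.1, h.2.2.2.1, h.2.2.2.2.1, h.2.2.2.2.2.1,
      h.2.2.2.2.2.2.1⟩)
  have h3 : ∀ᶠ κ in G, _ := hle hf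
  have q3 : η ≤ ‖wd j (QQ q)‖ := ge_of_tendsto ((cw.tendsto q).comp hT) (h3.mono fun κ h => by
    have l0 := nf_pos hm h.1.1.1
    have l1 := nf_sq hm h.1.1.1
    show η ≤ ‖wd j (QQ (sc _ _))‖
    rw [sc_wd, norm_mul, norm_real, Real.norm_of_nonneg (pow_pos l0 4).le]
    refine le_trans (le_of_eq ?_) (mul_le_mul_of_nonneg_left h.2.2.2.2.2.2.2.1 (pow_pos l0 4).le)
    linear_combination -η * (nf m (f κ) ^ 2 * rr m (f κ) + 1) * l1)
  have c1 : ∀ t, ContinuousAt (fun z : St × ℝ => wd j (QQ (φ z.2 z.1))) (q, t) := fun t =>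
    c_wdQ.continuousAt.comp (hφ.comp_contAt continuousAt_snd continuousAt_fst qL.1.1)
  have h4 : ∀ᶠ p in 𝓝 q, ∀ t ∈ Icc 0 T, wd j (QQ (φ t p)) ≠ 0 :=
    isCompact_Icc.eventually_forall_of_forall_eventually fun t ht => (c1 t).eventually_ne
      ((lim_point hm hφ hj qL qN q1 (norm_pos_iff.1 (hη.trans_le q3))).1 t ht.1)
  have h5 : ∀ᶠ p in 𝓝 q, wd j (QQ (φ T p)) ∈ slitPlane :=
    (c_wdQ.continuousAt.comp (hφ.comp_contAt (τ := fun _ => T) continuousAt_const continuousAt_id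
      qL.1.1)).eventually (isOpen_slitPlane.mem_nhds (h2 q qL qN qr q1 q2 q3))
  obtain ⟨κ, a1, a2, a3⟩ := (h3.and (hT.eventually (h4.and h5))).exists
  have l0 := nf_pos hm a1.1.1.1
  simp only [no, flow_sc hφ l0 a1.1.1.1, sc_wd] at a2 a3
  exact a1.2.2.2.2.2.2.2.2 ⟨fun t ht => right_ne_zero_of_mul (a2 t ht), (slit_mul (pow_pos l0 4)).1 a3⟩

end Pool.Agent.Lib.MP_6e7c44_mp.Hg
end
end
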