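import Pool.Agent.Lib.MP_6e7c44_mp.HCone
import Pool.Agent.Lib.MP_6e7c44_mp.HEReg

-- part Pool.Agent.Lib.MP_6e7c44_mp.HWind
section

/-!
The winding argument, perturbations of homographic initial conditions, and the equilateral case.
-/

set_option autoImplicit false

open Set Filter Topology Metric Complex ComplexConjugate

noncomputable section

namespace Pool.Agent.Lib.MP_6e7c44_mp.Hg

lemma log_homotopy {A : Type} [TopologicalSpace A] {H : A × ℝ → ℂ} (hH : Continuous H)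
    {a b : A → ℝ} (ha : Continuous a) (hb : Continuous b)
    (h0 : ∀ x, ∀ s ∈ uIcc (a x) (b x), H (x, s) ≠ 0) {L : A → ℂ} (hL : Continuous L)
    (h1 : ∀ x, exp (L x) = H (x, a x)) : ∃ L : C(A, ℂ), ∀ x, exp (L x) = H (x, b x) := by
  let K : C(unitInterval × A, {z : ℂ // z ≠ 0}) :=
    ⟨fun y => ⟨H (y.2, AffineMap.lineMap (a y.2) (b y.2) (y.1 : ℝ)), h0 _ _ (by
      rw [← segment_eq_uIcc]; exact lineMap_mem_segment ℝ _ _ y.1.2)⟩, by
      refine Continuous.subtype_mk (hH.comp (continuous_snd.prodMk ?_)) _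
      simp only [AffineMap.lineMap_apply]
      fun_prop⟩
  have h2 := isCoveringMap_exp.liftHomotopy_lifts K ⟨L, hL⟩ fun x => Subtype.ext (by
    simp [K, h1])
  refine ⟨(isCoveringMap_exp.liftHomotopy K ⟨L, hL⟩ fun x => Subtype.ext (by
    simp [K, h1])).comp ⟨fun x => (1, x), by fun_prop⟩, fun x => ?_⟩
  simpa [K] using congrArg Subtype.val (congrFun h2 (1, x))

theorem wind {H : ℂ × ℝ → ℂ} (hH : Continuous H) {τ : ℂ → ℝ} (hτ : Continuous τ)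
    (τ0 : ∀ x, 0 ≤ τ x) {S S' : Set ℂ} (hS : IsClosed S) (hS' : IsClosed S')
    (cov : ∀ x, x ∈ S ∨ x ∈ S') (h1 : ∀ x ∈ S', ∀ t ∈ Icc 0 (τ x), H (x, t) ≠ 0) {T : ℝ}
    (hT : 0 ≤ T) (h2 : ∀ x ∈ S, x ∈ S' → (∀ t ∈ Icc 0 T, H (x, t + τ x) ≠ 0) ∧
      H (x, T + τ x) ∈ slitPlane) {w : ℂ → ℂ} (hw : Continuous w) {w0 : ℂ} (hw0 : w0 ≠ 0)
    (h3 : ∀ x ∈ sphere (0 : ℂ) 1, x ∈ S' ∧ H (x, 0) = x * w x ∧ w x / w0 ∈ slitPlane) : False := by
  have c1 : ∀ s : Set ℂ, Continuous fun y : s × ℝ => H (y.1, y.2) := fun s => by fun_prop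
  obtain ⟨L, hL⟩ := log_homotopy (c1 (S ∩ S')) (a := fun x => T + τ x) (b := fun x => τ x)
    (by fun_prop) (by fun_prop) (fun x s hs => by
      rw [uIcc_of_ge (by linarith)] at hs
      simpa using (h2 x x.2.1 x.2.2).1 (s - τ x) ⟨by linarith [hs.1], by linarith [hs.2]⟩)
    (L := fun x => log (H (x, T + τ x))) (Continuous.clog (by fun_prop)
      fun x => (h2 x x.2.1 x.2.2).2) fun x => exp_log (slitPlane_ne_zero (h2 x x.2.1 x.2.2).2)
  obtain ⟨L1, hL1⟩ := L.exists_restrict_eq (hS.inter hS')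
  classical
  obtain ⟨L2, c2, hL2⟩ := has_log (f := fun x => if x ∈ S' then H (x, τ x) else exp (L1 x)) (by
    rw [← continuousOn_univ, show univ = S ∪ S' from (eq_univ_of_forall cov).symm]
    refine ContinuousOn.union_of_isClosed (ContinuousOn.congr (f := fun x => exp (L1 x))
      (by fun_prop) fun x hx => ?_) (ContinuousOn.congr (f := fun x => H (x, τ x))
      (by fun_prop) fun x hx => if_pos hx) hS hS'
    by_cases h : x ∈ S'
    · rw [← hL1] at hL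
      exact (if_pos h).trans (hL ⟨x, hx, h⟩).symm
    · exact if_neg h) fun x => by
      split_ifs with h
      exacts [h1 x h _ ⟨τ0 x, le_rfl⟩, exp_ne_zero _]
  obtain ⟨L3, hL3⟩ := log_homotopy (c1 (sphere 0 1)) (a := fun x => τ x) (b := fun _ => 0)
    (by fun_prop) continuous_const (fun x s hs => h1 x (h3 x x.2).1 s (by
      rwa [uIcc_of_ge (τ0 x)] at hs)) (L := fun x => L2 x) (by fun_prop)
    fun x => (hL2 x).trans (if_pos (h3 x x.2).1)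
  obtain ⟨L4, hL4⟩ := L3.exists_restrict_eq isClosed_sphere
  refine no_log (L := fun x => L4 x - log (w x / w0) - log w0) ((L4.continuous.continuousOn.sub
    (ContinuousOn.clog (by fun_prop) fun x hx => (h3 x hx).2.2)).sub continuousOn_const)
    fun x hx => ?_
  obtain ⟨-, a1, a2⟩ := h3 x hx
  have a3 := hL3 ⟨x, hx⟩
  have a4 : w x ≠ 0 := fun h => by simp [h] at a2
  rw [← hL4] at a3
  rw [exp_sub, exp_sub, exp_log hw0, exp_log (slitPlane_ne_zero a2), show exp (L4 x) = _ from a3, a1]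
  field_simp

variable {m : Fin 3 → ℝ} {φ : ℝ → St → St} {p : St} {α β : Fin 3 → ℂ}

lemma ip_lin' (x y z : Fin 3 → ℂ) (c a : ℂ) :
    ip m x (fun k => c * (y k + z k * a)) = c * (ip m x y + ip m x z * a) := by
  simp only [ip, Fin.sum_univ_three]; ring

lemma family0 (hm : ∀ k, 0 < m k) (hf : Frame m α β) {x : Phys} {c1 c2 : ℂ} (h0 : c1 ≠ 0)
    (h1 : rel x.1 = fun k => c1 * α k) (h2 : rel x.2 = fun k => c2 * α k) :
    ∃ (X : ℂ × ℂ → Phys) (z : Fin 3 → ℂ), Continuous X ∧ X 0 = x ∧ (∀ k, z k ≠ 0) ∧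
      ∀ᶠ y in 𝓝 0, (∀ k, rel (X y).1 k / z k ^ 2 ∈ slitPlane) ∧ lift m z (X y) ∈ Loc m α ∧
        q1 m α (lift m z (X y)) = c1 ∧ sg m α β (lift m z (X y)) = y.1 ∧
        uu m α β (lift m z (X y)) = y.2 := by
  obtain ⟨s, hs⟩ : ∃ s : ℂ → ℝ, s = fun σ => √(‖c1‖ * √(1 + normSq σ)) ^ 3 := ⟨_, rfl⟩
  have s0 : ∀ σ, (s σ : ℂ) ≠ 0 := fun σ => hs ▸ ofReal_ne_zero.2 (pow_pos (Real.sqrt_pos.2 (mul_pos
    (norm_pos_iff.2 h0) (Real.sqrt_pos.2 (by linarith [normSq_nonneg σ])))) 3).ne'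
  have cs : Continuous s := by rw [hs]; fun_prop
  obtain ⟨X, hX⟩ : ∃ X : ℂ × ℂ → Phys, X = fun y =>
    (unrel m (cm m x.1) fun k => c1 * (α k + β k * y.1),
      unrel m (cm m x.2) fun k => α k * c2 + β k * (y.1 * c2 + y.2 * c1 / s y.1)) := ⟨_, rfl⟩
  have cX : Continuous X := by
    have : Continuous fun y : ℂ × ℂ => y.2 * c1 / s y.1 :=
      Continuous.div (by fun_prop) (by fun_prop) fun y => s0 _
    rw [hX]
    unfold unrel
    fun_prop
  have X0 : X 0 = x := by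
    refine Prod.ext ?_ ?_
    · simp only [hX, Prod.fst_zero, mul_zero, add_zero, ← h1, unrel_rel hm]
    · simp only [hX, Prod.fst_zero, Prod.snd_zero, zero_mul, zero_div, mul_zero, add_zero,
        mul_comm _ c2, ← h2, unrel_rel hm]
  have r1 : ∀ y, rel (X y).1 = fun k => c1 * (α k + β k * y.1) := fun y => by
    simp only [hX]
    refine rel_unrel hm _ ?_
    simp only [← Finset.mul_sum, Finset.sum_add_distrib, ← Finset.sum_mul, hf.sa, hf.sb]; ring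
  have r2 : ∀ y, rel (X y).2 = fun k => α k * c2 + β k * (y.1 * c2 + y.2 * c1 / s y.1) :=
    fun y => by
      simp only [hX]
      refine rel_unrel hm _ ?_
      simp only [Finset.sum_add_distrib, ← Finset.sum_mul, hf.sa, hf.sb]; ring
  choose z hz using fun k => IsAlgClosed.exists_pow_nat_eq (c1 * α k) two_pos
  have n0 : ∀ k, c1 * α k ≠ 0 := fun k => mul_ne_zero h0 (hf.ne k)
  have z0 : ∀ k, z k ≠ 0 := fun k h => n0 k (by rw [← hz, h]; simp)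
  have c3 : ∀ k, Continuous fun y => rel (X y).1 k / z k ^ 2 := fun k => by unfold rel; fun_prop
  refine ⟨X, z, cX, X0, z0, (eventually_all.2 fun k => ((c3 k).tendsto 0).eventually
    (isOpen_slitPlane.mem_nhds (by
      rw [X0, h1, hz, div_self (n0 k)]; exact one_mem_slitPlane))).mono fun y h => ?_⟩
  obtain ⟨a1, a2, a3, a4⟩ := lift_spec (z0 := z) hm z0 (x := X y) fun k hk => by simpa [hk] using h k
  generalize lift m z (X y) = p at *
  have b1 : q1 m α p = c1 := by rw [q1, a3, r1, ip_lin', hf.aa, hf.ab]; ring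
  have b2 : ip m β (QQ p) = c1 * y.1 := by rw [a3, r1, ip_lin', hf.ba, hf.bb]; ring
  have b3 : sg m α β p = y.1 := by rw [sg, b1, b2]; field_simp
  refine ⟨h, ⟨a2, b1.trans_ne h0⟩, b1, b3, ?_⟩
  have := s0 y.1
  rw [uu, b2, sr, rr_loc hm hf a1.2.1 (b1.trans_ne h0), b1, b3, ← congrFun hs y.1, a4, r2, ip_lin, ip_lin,
    hf.aa, hf.ab, hf.ba, hf.bb]
  field_simp
  ring

/-- A family of perturbations with prescribed shape variables. -/
theorem family (hm : ∀ k, 0 < m k) (hf : Frame m α β) {e lam : ℝ} (hs : Small m α β e)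
    {x : Phys} {c1 c2 : ℂ} (h0 : c1 ≠ 0) (h1 : rel x.1 = fun k => c1 * α k)
    (h2 : rel x.2 = fun k => c2 * α k) (h3 : nq m (rel x.2) / 2 - UU m (rel x.1) < 0)
    (h4 : (ip m (rel x.1) (rel x.2)).im ≠ 0) (h5 : (ip m (rel x.1) (rel x.2)).im ^ 2
      * -(nq m (rel x.2) / 2 - UU m (rel x.1)) < min e lam) (hφ : IsFlow (YY m) Dom φ)
    (hx : x ∉ closure {y | EscP m y}) : ∃ (P : ℂ × ℂ → St) (z0 : ℂ), z0 ≠ 0 ∧
      ∀ᶠ y in 𝓝 0, ContinuousAt P y ∧ P y ∈ NE m φ ∧ P y ∈ Kep m lam ∧ P y ∈ Loc m α ∧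
        q1 m α (P y) = c1 ∧ sg m α β (P y) = y.1 ∧ uu m α β (P y) = y.2 ∧
        zz m (P y) / z0 ∈ slitPlane := by
  obtain ⟨X, z, cX, X0, z0, e1⟩ := family0 hm hf h0 h1 h2
  have sp := fun y (h : ∀ k, rel (X y).1 k / z k ^ 2 ∈ slitPlane) =>
    lift_spec (z0 := z) hm z0 (x := X y) fun k hk => by simpa [hk] using h k
  have ct := fun y (h : ∀ k, rel (X y).1 k / z k ^ 2 ∈ slitPlane) =>
    ContinuousAt.comp (f := X) (cAt_lift hm h) cX.continuousAt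
  have es := fun y (h : ∀ k, rel (X y).1 k / z k ^ 2 ∈ slitPlane) h' t =>
    esc_closure hm hφ z0 h h' (τ := t)
  have en : (lift m z (X 0)).2.2 = nq m (rel x.2) / 2 - UU m (rel x.1) := by rw [X0]; rfl
  obtain ⟨P, hP⟩ : ∃ P : ℂ × ℂ → St, P = lift m z ∘ X := ⟨_, rfl⟩
  have hP' : ∀ y, lift m z (X y) = P y := fun y => hP ▸ rfl
  simp only [hP', ← hP] at e1 sp ct es en
  obtain ⟨p0, p2, -, p3, p4⟩ := e1.self_of_nhds
  obtain ⟨p1, -, p5, p5'⟩ := sp 0 p0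
  have c0 := ct 0 p0
  have s1 := sr_pos hm p1.1
  have p6 : 0 < mm m (P 0) := mul_pos (neg_pos.2 (en.trans_lt h3)) (rr_pos hm p1.1)
  have p7 : (Jc m (P 0)).im = (ip m (rel x.1) (rel x.2)).im := by
    rw [Jc_eq hm p1.2.1 p2.1, p5, p5', X0]
  have p8 : om m (P 0) ≠ 0 := div_ne_zero (p7.trans_ne h4) s1.ne'
  have p9 : om m (P 0) ^ 2 * mm m (P 0) < min e lam := by
    refine lt_of_eq_of_lt ?_ h5
    rw [om, mm, p7, ← sr_sq, en]
    field_simp
  obtain ⟨δ, _, _, d0, -, -, hδ⟩ := phase_bd hm hf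
  have p10 : zz m (P 0) ≠ 0 := normSq_pos.1 (d0.trans_le (hδ e hs _
    ⟨p1, p6, p8, p9.le.trans (min_le_left _ _)⟩ p2 (by simp [nz, p3, p4, hs.good.1.le])).1)
  have c1 := (cAt_om hm p1.1).comp c0
  have c2 := (c_mm (m := m)).continuousAt.comp c0
  refine ⟨P, _, p10, ?_⟩
  filter_upwards [e1, cX.continuousAt.eventually (isClosed_closure.isOpen_compl.mem_nhds
    (X0.symm ▸ hx)), continuousAt_const.eventually_lt c2 p6, c1.eventually_ne p8,
    ((c1.pow 2).mul c2).eventually_lt continuousAt_const p9, (((cAt_zz hm p1.1).comp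
      c0).div_const (zz m (P 0))).eventually (isOpen_slitPlane.mem_nhds
        ((div_self p10).symm ▸ one_mem_slitPlane : zz m (P 0) / zz m (P 0) ∈ slitPlane))]
    with y a1 a2 a3 a4 a5 a6
  exact ⟨ct y a1.1, ⟨(sp y a1.1).1, fun t _ h => a2 (es y a1.1 (neg_pos.1 (pos_of_mul_pos_left a3
    (Real.sqrt_nonneg _))) t h)⟩, ⟨(sp y a1.1).1, a3, a4, a5.le.trans (min_le_right _ _)⟩, a1.2.1,
    a1.2.2.1, a1.2.2.2.1, a1.2.2.2.2, a6⟩

/-- The equilateral configuration of unit size. -/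
def eqt (m : Fin 3 → ℝ) (j : ℂ) (k : Fin 3) : ℂ := r0 m * j ^ (k : ℕ)

variable {j : ℂ}

lemma j_re (hj : j ^ 2 + j + 1 = 0) : j.re = -1 / 2 ∧ normSq j = 1 := by
  have h1 := congrArg re hj
  have h2 := congrArg im hj
  simp only [sq, add_re, add_im, mul_re, mul_im, one_re, one_im, zero_re, zero_im] at h1 h2
  have h3 : j.re = -1 / 2 := mul_left_cancel₀ (j_im hj) (by linarith)
  rw [normSq_apply]
  rw [h3] at h1 ⊢
  exact ⟨rfl, by linarith⟩

lemma conj_j (hj : j ^ 2 + j + 1 = 0) : conj j = j ^ 2 := by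
  have := add_conj j
  rw [(j_re hj).1] at this
  push_cast at this
  linear_combination this - hj

lemma norm_eqt (hm : ∀ k, 0 < m k) (hj : j ^ 2 + j + 1 = 0) (k : Fin 3) : ‖eqt m j k‖ = r0 m := by
  rw [eqt, norm_mul, norm_pow, Complex.norm_def j, (j_re hj).2, norm_real,
    Real.norm_of_nonneg (r0_pos hm).le]
  simp

lemma frame_eqt (hm : ∀ k, 0 < m k) (hj : j ^ 2 + j + 1 = 0) :
    Frame m (eqt m j) (bt m (eqt m j)) := by
  refine frame_bt hm ?_ ?_ fun k => norm_pos_iff.1 ((r0_pos hm).trans_eq (norm_eqt hm hj k).symm)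
  · simp only [eqt, Fin.sum_univ_three, Fin.val_zero, Fin.val_one, Fin.val_two]
    linear_combination r0 m * hj
  · simp only [nq, normSq_eq_norm_sq, norm_eqt hm hj, ← Finset.sum_mul]
    rw [div_eq_one_iff_eq (MM_pos hm).ne', ← r0_sq hm, mul_comm, NN]

lemma UU_eqt (hm : ∀ k, 0 < m k) (hj : j ^ 2 + j + 1 = 0) : UU m (eqt m j) = U0 m := by
  simp only [UU, norm_eqt hm hj, ← Finset.sum_div, U0, NN]

lemma U0_eq (hm : ∀ k, 0 < m k) : U0 m = MM m / r0 m ^ 3 := by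
  have := (r0_pos hm).ne'
  rw [U0, ← r0_sq hm]; field_simp

lemma cc_eqt (hm : ∀ k, 0 < m k) (hj : j ^ 2 + j + 1 = 0) : IsCC m (eqt m j) := fun k => by
  simp only [acc, ff, norm_eqt hm hj, ← Finset.mul_sum, (frame_eqt hm hj).sa, UU_eqt hm hj,
    U0_eq hm]
  push_cast; ring

lemma g_eqt (hm : ∀ k, 0 < m k) (hj : j ^ 2 + j + 1 = 0) : ∃ κ : ℂ, ‖κ‖ < 1 / 2 ∧
    g1 m (eqt m j) (bt m (eqt m j)) = 3 / 2 * UU m (eqt m j) ∧
    g2 m (eqt m j) (bt m (eqt m j)) = 3 * UU m (eqt m j) * κ := by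
  have hM := MM_pos hm
  have h0 := r0_pos hm
  refine ⟨((m 0 - m 2 : ℝ) + j * (m 1 - m 2 : ℝ)) / (2 * MM m : ℝ), ?_, ?_, ?_⟩
  · rw [norm_div, norm_real, Real.norm_of_nonneg (by positivity), div_lt_iff₀ (by positivity)]
    refine lt_of_pow_lt_pow_left₀ 2 (by positivity) ?_
    have h1 := (j_re hj).2
    rw [normSq_apply, (j_re hj).1] at h1
    rw [← normSq_eq_norm_sq, normSq_apply, MM_eq m 0]
    simp only [add_re, add_im, mul_re, mul_im, ofReal_re, ofReal_im, (j_re hj).1, Fin.reduceAdd]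
    have := mul_pos (hm 0) (hm 1)
    have := mul_pos (hm 1) (hm 2)
    have := mul_pos (hm 0) (hm 2)
    nlinarith [congrArg (fun x => x * (m 1 - m 2) ^ 2) h1]
  · have h1 := (frame_eqt hm hj).nb
    rw [nq, div_eq_one_iff_eq hM.ne'] at h1
    have h2 := U0_eq hm
    rw [UU_eqt hm hj]
    simp only [g1, norm_eqt hm hj, mul_add, Finset.sum_add_distrib, ← Finset.sum_mul,
      ← mul_div_assoc, ← Finset.sum_div, h1]
    rw [← NN, ← div_eq_mul_inv, ← U0, h2]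
    field_simp
    ring
  · have h1 := ofReal_ne_zero.2 hM.ne'
    have h2 := ofReal_ne_zero.2 h0.ne'
    have h3 := congrArg (fun x : ℝ => (x : ℂ)) (r0_sq hm)
    have h4 : (((√(PP m * MM m))⁻¹ : ℝ) : ℂ) ^ 2 * (PP m * MM m) = 1 := by
      have := mul_pos (PP_pos hm) hM
      exact_mod_cast (by rw [inv_pow, Real.sq_sqrt this.le, inv_mul_cancel₀ this.ne'] :
        (√(PP m * MM m))⁻¹ ^ 2 * (PP m * MM m) = 1)
    simp only [g2, norm_eqt hm hj, UU_eqt hm hj, U0_eq hm, bt, map_mul, map_sub, conj_ofReal,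
      conj_conj]
    generalize (((√(PP m * MM m))⁻¹ : ℝ) : ℂ) = c at h4
    simp only [eqt, NN, nn, PP, Fin.sum_univ_three, Fin.reduceAdd, Fin.val_zero, Fin.val_one,
      Fin.val_two] at h3 h4 ⊢
    push_cast at h3 h4 ⊢
    field_simp
    linear_combination ((m 0 - m 2 + j * (m 1 - m 2)) * c ^ 2 * (m 0 * m 1 * m 2)) * h3
      + (m 0 - m 2 + j * (m 1 - m 2)) * h4 + m 0 * m 1 * m 2 * r0 m ^ 2 * c ^ 2 *
      (m 0 ^ 2 * (m 1 + m 2) * (j ^ 4 - j ^ 3 + j - 1) + m 1 ^ 2 * (m 0 + m 2) * (j ^ 2 - j)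
        - 2 * j ^ 3 * m 0 * m 1 * m 2 + m 2 ^ 2 * (m 0 + m 1)) * hj

def l1 (j : ℂ) (Q : Fin 3 → ℂ) : ℂ := Q 0 + j * Q 1 + j ^ 2 * Q 2

lemma wd_fact (hj : j ^ 2 + j + 1 = 0) {Q : Fin 3 → ℂ} (h : ∑ k, Q k = 0) :
    3 * wd j Q = l1 j Q * l1 j fun k => conj (Q k) := by
  rw [Fin.sum_univ_three] at h
  have h0 : Q 0 = -Q 1 - Q 2 := by linear_combination h
  simp only [wd, l1, ofReal_sub, ← mul_conj, h0, map_sub, map_neg]
  linear_combination (-conj (Q 1) * Q 1 + (2 - j) * (conj (Q 1) * Q 2 + conj (Q 2) * Q 1)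
    + (2 + j - j ^ 2) * conj (Q 2) * Q 2) * hj

lemma eq_of_l1 (hm : ∀ k, 0 < m k) (hj : j ^ 2 + j + 1 = 0) {Q : Fin 3 → ℂ} (h : ∑ k, Q k = 0)
    (h1 : l1 j Q = 0) : Q = fun k => Q 0 / r0 m * eqt m j k := by
  have h0 := ofReal_ne_zero.2 (r0_pos hm).ne'
  have h2 : j - 1 ≠ 0 := fun h => by rw [sub_eq_zero.1 h] at hj; norm_num at hj
  rw [Fin.sum_univ_three] at h
  rw [l1] at h1
  have h3 : Q 1 = j * Q 0 := mul_left_cancel₀ h2 (by
    linear_combination -j ^ 2 * h1 + j ^ 4 * h + (Q 0 * (j - j ^ 2) - Q 1 * (j - 1) ^ 2) * hj)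
  funext k
  fin_cases k <;> simp only [eqt] <;> field_simp
  · simp
  · simpa [mul_comm] using h3
  · show Q 2 = Q 0 * j ^ 2
    linear_combination h - h3 - Q 0 * hj

lemma wd_eqt (hm : ∀ k, 0 < m k) (hj : j ^ 2 + j + 1 = 0) (hf : Frame m (eqt m j) β) :
    ∃ w : ℂ → ℂ, Continuous w ∧ w 0 ≠ 0 ∧ ∀ σ, wd j (fun k => eqt m j k + β k * σ) = σ * w σ := by
  have hc := conj_j hj
  refine ⟨fun σ => l1 j β * (r0 m + conj σ * (l1 j fun k => conj (β k)) / 3), by fun_prop,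
    mul_ne_zero (fun h => ?_) (by simpa using (r0_pos hm).ne'), fun σ => ?_⟩
  · have h1 := eq_of_l1 hm hj hf.sb h
    have h2 := hf.wedge_nsq hm
    rw [h1, show wedge (eqt m j) (fun k => β 0 / r0 m * eqt m j k) = 0 by rw [wedge]; ring] at h2
    simp at h2
  · refine mul_left_cancel₀ three_ne_zero ?_
    rw [wd_fact hj (by
      simp only [Finset.sum_add_distrib, ← Finset.sum_mul, hf.sa, hf.sb, zero_mul, add_zero])]
    have e1 : l1 j (fun k => eqt m j k + β k * σ) = σ * l1 j β := by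
      simp only [l1, eqt, Fin.val_zero, Fin.val_one, Fin.val_two]
      linear_combination r0 m * (j ^ 2 - j + 1) * hj
    rw [e1]
    simp only [l1, eqt, Fin.val_zero, Fin.val_one, Fin.val_two, map_add, map_mul, map_pow,
      conj_ofReal, hc]
    linear_combination σ * (β 0 + j * β 1 + j ^ 2 * β 2) * r0 m * (j - 1) * (j ^ 3 + 2) * hj

theorem lagrange_main (hm : ∀ k, 0 < m k) (hj : j ^ 2 + j + 1 = 0) : ∃ lam : ℝ, 0 < lam ∧
    ∀ (x : Phys) (c1 c2 : ℂ), c1 ≠ 0 → (rel x.1 = fun k => c1 * eqt m j k) →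
      (rel x.2 = fun k => c2 * eqt m j k) → nq m (rel x.2) / 2 - UU m (rel x.1) < 0 →
      (ip m (rel x.1) (rel x.2)).im ≠ 0 → (ip m (rel x.1) (rel x.2)).im ^ 2
        * -(nq m (rel x.2) / 2 - UU m (rel x.1)) < lam → x ∈ closure {y | EscP m y} := by
  obtain ⟨φ, hφ⟩ := exists_phi hm
  have hf := frame_eqt hm hj
  obtain ⟨κ, k1, k2, k3⟩ := g_eqt hm hj
  obtain ⟨Vt, nt, e0, κ1, C, c, N, e1, c0, hc0, hsh⟩ := cone_lag hm hf (cc_eqt hm hj) k1 k2 k3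
  obtain ⟨w, cw, w0, hw⟩ := wd_eqt hm hj hf
  have hU := UU_eqt hm hj
  generalize bt m (eqt m j) = β at *
  generalize eqt m j = α at *
  have n0 := norm_pos_iff.2 w0
  obtain ⟨e, hs, e2, e3⟩ := ((ev_small hm hf).and (Eventually.and (p := fun e => e ∈ Ioc 0 e0)
    (Ioc_mem_nhdsGT e1) (small_of_ev
    (P := fun σ => w σ / w 0 ∈ slitPlane ∧ ‖w 0‖ / 2 < ‖w σ‖)
    ((((cw.div_const (w 0)).tendsto 0).eventually (isOpen_slitPlane.mem_nhds
      (by rw [div_self w0]; exact one_mem_slitPlane))).and (continuousAt_const.eventually_lt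
        cw.norm.continuousAt (half_lt_self n0)))))).exists
  have hc := hc0.mono e2.2
  have C0 := hc.c0
  have ε0 := div_pos hc.k0 C0
  have e4 := e2.1
  obtain ⟨η, η0, η1⟩ : ∃ η, 0 < η ∧ C * η < κ1 / C * e := ⟨κ1 / C * e / (2 * C), by positivity, by
    rw [← mul_div_assoc, div_lt_iff₀ (by positivity)]; nlinarith [mul_pos C0 (mul_pos ε0 e4)]⟩
  obtain ⟨T, T0, hT⟩ := L_inf hm hφ hj (η := √(c * η / C ^ 2) * ‖w 0‖ / 4) (by positivity)
  obtain ⟨κ', hL, κ0⟩ := (hT.and self_mem_nhdsWithin).exists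
  obtain ⟨lam, η2, l0, η3, hst⟩ := stop hm hφ hf hc hs η0 η1 κ0 0
  refine ⟨min e lam, lt_min e4 l0, fun x c1 c2 h0 h1 h2 h3 h4 h5 => by_contra fun hx => ?_⟩
  obtain ⟨P, z0, hz0, hP⟩ := family hm hf hs (lam := min e lam) h0 h1 h2 h3 h4
    (lt_min (h5.trans_le (min_le_left _ _)) h5) hφ hx
  have hP' : ∀ᶠ y : ℂ × ℂ in 𝓝 0, normSq y.1 + normSq y.2 < min e (η2 / C ^ 2) :=
    ContinuousAt.eventually_lt (by fun_prop) continuousAt_const
      (lt_of_eq_of_lt (b := 0) (by simp) (by positivity))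
  obtain ⟨r, r0, hr⟩ := Metric.eventually_nhds_iff.1 ((show Continuous fun σ : ℂ =>
    ((σ, N * σ) : ℂ × ℂ) by fun_prop).tendsto' 0 0 (by simp) |>.eventually (hP.and hP'))
  obtain ⟨g, cg, g1, g2, g3⟩ : ∃ g : ℂ → ℂ, Continuous g ∧ (∀ ξ, dist (g ξ) 0 < r) ∧
      (∀ ξ, g ξ = 0 → ξ = 0) ∧ ∀ ξ ∈ sphere (0 : ℂ) 1, g ξ = (r / 2 : ℝ) * ξ := by
    have m0 : ∀ ξ : ℂ, 0 < max 1 ‖ξ‖ := fun ξ => lt_max_of_lt_left one_pos
    refine ⟨fun ξ => (r / 2 / max 1 ‖ξ‖ : ℝ) * ξ, (continuous_ofReal.comp (continuous_const.div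
      (by fun_prop) fun ξ => (m0 ξ).ne')).mul continuous_id, fun ξ => ?_, fun ξ h =>
      (mul_eq_zero.1 h).resolve_left (ofReal_ne_zero.2 (div_pos (half_pos r0) (m0 ξ)).ne'),
      fun ξ h => by simp [mem_sphere_zero_iff_norm.1 h]⟩
    rw [dist_zero_right, norm_mul, norm_real, Real.norm_of_nonneg
      (div_pos (half_pos r0) (m0 ξ)).le, div_mul_eq_mul_div, div_lt_iff₀ (m0 ξ)]
    nlinarith [le_max_right 1 ‖ξ‖, m0 ξ]
  have hY := fun ξ => (hr (g1 ξ)).1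
  have cP : Continuous fun ξ => P (g ξ, N * g ξ) := continuous_iff_continuousAt.2 fun ξ =>
    ContinuousAt.comp (f := fun ξ => ((g ξ, N * g ξ) : ℂ × ℂ)) (hY ξ).1 (by fun_prop)
  have hz : ∀ ξ, nz m α β (P (g ξ, N * g ξ)) < min e (η2 / C ^ 2) := fun ξ => by
    rw [nz, (hY ξ).2.2.2.2.2.1, (hY ξ).2.2.2.2.2.2.1]; exact (hr (g1 ξ)).2
  have hz1 := fun ξ => ((hz ξ).trans_le (min_le_left _ _)).le
  have hK := fun ξ => Kep.mono (hY ξ).2.2.1 (min_le_left _ _)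
  have hV := fun ξ => (hsh _ (Kep.mono (hK ξ) e2.2) (hY ξ).2.2.2.1 ((hz1 ξ).trans e2.2)).2
    (by rw [(hY ξ).2.2.2.2.2.1, (hY ξ).2.2.2.2.2.2.1])
  have VC : ∀ p ∈ Kep m e, p ∈ Loc m α → nz m α β p ≤ e → Vt p ≤ C ^ 2 * nz m α β p :=
    fun p a b d => by
      obtain ⟨-, a1, a2⟩ := hc.bd p a b d
      linarith [mul_le_mul_of_nonneg_left a1 C0.le]
  obtain ⟨τ, cτ, τ0, S, S', cS, cS', h⟩ := hst (c * (r / 2) ^ 2) (by positivity) ℂ _ cP z0 hz0
    fun ξ => ⟨Kep.mono (hY ξ).2.2.1 (min_le_right _ _), (hY ξ).2.2.2.1, hz1 ξ, (hV ξ).1,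
      (VC _ (hK ξ) (hY ξ).2.2.2.1 (hz1 ξ)).trans ((le_div_iff₀' (by positivity)).1
        ((hz ξ).le.trans (min_le_right _ _))), (hY ξ).2.2.2.2.2.2.2⟩
  have hD := fun ξ => (hK ξ).1.1
  refine wind (H := fun y => wd j (QQ (φ y.2 (P (g y.1, N * g y.1))))) (c_wdQ.comp
    (continuous_iff_continuousAt.2 fun y => hφ.comp_contAt continuousAt_snd
      (cP.comp continuous_fst).continuousAt (hD _))) cτ τ0 cS cS' (fun ξ => (h ξ).2.1)
    (fun ξ hξ t ht => ?_) T0 (fun ξ hξ hξ' => ?_)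
    (w := fun ξ => (normSq c1 * (r / 2) : ℝ) * w (g ξ)) (by fun_prop)
    (mul_ne_zero (ofReal_ne_zero.2 (mul_pos (normSq_pos.2 h0) (half_pos r0)).ne') w0)
    fun ξ hξ => ⟨(h ξ).2.2.1 (le_trans ?_ (hV ξ).2), ?_, ?_⟩
  · obtain ⟨a1, a2, a3, a4, a5⟩ := (h ξ).1 t ht
    have b1 : 0 < nz m α β (P (g ξ, N * g ξ)) :=
      lt_of_le_of_ne nz_nonneg fun h' => (h ξ).2.2.2.1 h'.symm hξ
    have b2 := ((mul_pos c0 b1).trans_le ((hV ξ).2.trans a5)).trans_le (VC _ a1 a2 a3)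
    have b3 := (mul_pos c0 (pos_of_mul_pos_right b2 (sq_nonneg _))).trans_le
      ((hsh _ (Kep.mono a1 e2.2) a2 (a3.trans e2.2)).1 a4)
    simp only [wd_loc hm hf a1.1 a2, hw]
    exact mul_ne_zero (ofReal_ne_zero.2 (normSq_pos.2 a2.2).ne') (mul_ne_zero (normSq_pos.1 b3)
      (norm_pos_iff.1 ((half_pos n0).trans (e3 _ (sg_le_nz.trans a3)).2)))
  · obtain ⟨a1, a2, a3, a4, -⟩ := (h ξ).1 _ ⟨τ0 ξ, le_rfl⟩
    obtain ⟨b1, b2, b3, b4, b5, -⟩ := (h ξ).2.2.2.2 hξ hξ'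
    simp only [hφ.add (hD ξ)]
    refine hL _ (flow_NE hm hφ (hY ξ).2.1 (τ0 ξ)) a1.2.1.le b3 b4 b2.le (hU ▸ b5)
      (by linarith [(abs_le.1 (hs.ff _ a1.1 a2 a3)).2]) ?_
    have d1 := (e3 _ (sg_le_nz.trans a3)).2
    have d2 := (hsh _ (Kep.mono a1 e2.2) a2 (a3.trans e2.2)).1 a4
    have d3 := VC _ a1 a2 a3
    have d4 := (sg_le_nz.trans a3).trans hs.good.2.1
    rw [wd_loc hm hf a1.1 a2, hw, rr_loc hm hf a1.1.2.1 a2.2, mul_pow, Real.sq_sqrt
      (add_nonneg one_pos.le (normSq_nonneg _)), norm_mul, norm_mul, norm_real,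
      Real.norm_of_nonneg (normSq_nonneg _), normSq_eq_norm_sq (q1 _ _ _)]
    have d5 : √(c * η / C ^ 2) ≤ ‖sg m α β (φ (τ ξ) (P (g ξ, N * g ξ)))‖ := by
      rw [Real.sqrt_le_left (norm_nonneg _), ← normSq_eq_norm_sq, div_le_iff₀ (by positivity)]
      linarith [mul_le_mul_of_nonneg_left (b1.ge.trans d3) c0.le,
        mul_le_mul_of_nonneg_left d2 (sq_nonneg C)]
    calc _ ≤ √(c * η / C ^ 2) * ‖w 0‖ / 4 * (‖q1 m α (φ (τ ξ) (P (g ξ, N * g ξ)))‖ ^ 2 * 2) := by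
          gcongr; linarith
      _ = ‖q1 m α (φ (τ ξ) (P (g ξ, N * g ξ)))‖ ^ 2 * (√(c * η / C ^ 2) * (‖w 0‖ / 2)) := by ring
      _ ≤ _ := by gcongr
  · refine mul_le_mul_of_nonneg_left (le_trans (le_of_eq ?_) sg_le_nz) c0.le
    rw [(hY ξ).2.2.2.2.2.1, g3 ξ hξ, map_mul, normSq_ofReal, normSq_eq_norm_sq,
      mem_sphere_zero_iff_norm.1 hξ]
    ring
  · simp only [hφ.zero, wd_loc hm hf (hK ξ).1 (hY ξ).2.2.2.1, hw, (hY ξ).2.2.2.2.1,
      (hY ξ).2.2.2.2.2.1]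
    rw [show g ξ * w (g ξ) = (r / 2 : ℝ) * ξ * w (g ξ) by rw [← g3 ξ hξ]]
    push_cast; ring
  · rw [mul_div_mul_left _ _ (ofReal_ne_zero.2 (mul_pos (normSq_pos.2 h0) (half_pos r0)).ne')]
    simpa only [(hY ξ).2.2.2.2.2.1] using (e3 _ (sg_le_nz.trans (hz1 ξ))).1

section kepler
variable {Q V : ℝ → Fin 3 → ℂ}

lemma rel_newton {q v : ℝ → Fin 3 → ℂ} (hq : ∀ t a, HasDerivAt (fun s => q s a) (v t a) t)
    (hv : ∀ t a, HasDerivAt (fun s => v s a)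
      (∑ b ∈ Finset.univ.erase a, (m b / ‖q t b - q t a‖ ^ 3) • (q t b - q t a)) t) (t : ℝ)
    (k : Fin 3) : HasDerivAt (fun s => rel (q s) k) (rel (v t) k) t ∧
      HasDerivAt (fun s => rel (v s) k) (acc m (rel (q t)) k) t := by
  refine ⟨(hq t _).sub (hq t _), ((hv t _).sub (hv t _)).congr_deriv ?_⟩
  simp only [newton_eq, f11, f12, f21, f22, acc, sum3 _ k, MM_eq m k]
  push_cast; ring

/-- A periodic homographic motion of large eccentricity has negative energy and small nonzero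
angular momentum. -/
theorem kepler (hm : ∀ k, 0 < m k) (hQ : ∀ t k, HasDerivAt (fun s => Q s k) (V t k) t)
    (hV : ∀ t k, HasDerivAt (fun s => V s k) (acc m (Q t) k) t) (sQ : ∀ t, ∑ k, Q t k = 0)
    (sV : ∀ t, ∑ k, V t k = 0) (h0 : ∀ t k, Q t k ≠ 0) (hw : ∀ t, wedge (Q t) (V t) = 0) {U : ℝ}
    (hU : ∀ t, √(nq m (Q t)) * UU m (Q t) = U) {T : ℝ} (hT : 0 < T)
    (hp : ∀ t, nq m (Q (t + T)) = nq m (Q t)) {K s t : ℝ} (hK : 1 < K)
    (h : K * √(nq m (Q s)) ≤ √(nq m (Q t))) : nq m (V 0) / 2 - UU m (Q 0) < 0 ∧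
      (ip m (Q 0) (V 0)).im ≠ 0 ∧
      K * ((ip m (Q 0) (V 0)).im ^ 2 * -(nq m (V 0) / 2 - UU m (Q 0))) ≤ 2 * U ^ 2 := by
  have dn : ∀ {f g : ℝ → Fin 3 → ℂ}, (∀ t k, HasDerivAt (fun s => f s k) (g t k) t) → ∀ t,
      HasDerivAt (fun s => nq m (f s)) (2 * (ip m (f t) (g t)).re) t := fun hf t =>
    ((HasDerivAt.fun_sum (u := Finset.univ) fun k _ => (hd_nsq (hf t k)).const_mul
      (nn m k)).div_const (MM m)).congr_deriv (by
        simp only [ip, div_ofReal_re, Fin.sum_univ_three, add_re, re_ofReal_mul]; ring)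
  have dJ : ∀ t, HasDerivAt (fun s => ip m (Q s) (V s)) (nq m (V t) - UU m (Q t) : ℝ) t := fun t =>
    ((HasDerivAt.fun_sum (u := Finset.univ) fun k _ => ((hd_conj (hQ t k)).mul (hV t k)).const_mul
      (nn m k : ℂ)).div_const (MM m : ℂ)).congr_deriv (by
        rw [ofReal_sub, sub_eq_add_neg, ← ip_acc_self hm (sQ t), ← ip_self]
        simp only [ip, Fin.sum_univ_three]; ring)
  have en : ∀ t, nq m (V t) / 2 - UU m (Q t) = nq m (V 0) / 2 - UU m (Q 0) :=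
    const_of (f := fun t => nq m (V t) / 2 - UU m (Q t)) fun t => by
      refine (((dn hV t).div_const 2).sub (HasDerivAt.fun_sum (u := Finset.univ) fun k _ =>
        (hasDerivAt_const t (nn m k)).div (hd_norm (hQ t k) (h0 t k))
          (norm_ne_zero_iff.2 (h0 t k)))).congr_deriv ?_
      rw [ip_acc hm (sV t), mul_div_cancel_left₀ _ two_ne_zero, sub_eq_zero, neg_re, re_sum,
        ← Finset.sum_neg_distrib]
      refine Finset.sum_congr rfl fun k _ => ?_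
      have := norm_ne_zero_iff.2 (h0 t k)
      rw [ff, mul_left_comm (conj _ : ℂ), re_ofReal_mul, re_ofReal_mul]
      simp only [mul_re, conj_re, conj_im]
      field_simp
      ring
  have cc : ∀ t, (ip m (Q t) (V t)).im = (ip m (Q 0) (V 0)).im :=
    const_of (f := fun t => (ip m (Q t) (V t)).im) fun t => by simpa using hd_im (dJ t)
  generalize nq m (V 0) / 2 - UU m (Q 0) = E at en ⊢
  generalize (ip m (Q 0) (V 0)).im = c at cc ⊢
  have n0 : ∀ t, 0 < nq m (Q t) := fun t => lt_of_not_ge fun h => h0 t 0 (nq_eq_zero hm h 0)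
  have r0 := fun t => Real.sqrt_pos.2 (n0 t)
  have r2 := fun t => Real.sq_sqrt (n0 t).le
  have u0 := fun t => UU_pos hm (h0 t)
  have U0 : 0 < U := hU 0 ▸ mul_pos (r0 0) (u0 0)
  have su : ∀ t, (ip m (Q t) (V t)).re ^ 2 + c ^ 2
      = √(nq m (Q t)) * (2 * (E * √(nq m (Q t)) + U)) := fun t => by
    have := lagrange hm (sQ t) (sV t)
    rw [hw, map_zero, mul_zero, normSq_apply, cc] at this
    linear_combination -this + 2 * nq m (Q t) * en t - 2 * (E + UU m (Q t)) * r2 t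
      + 2 * √(nq m (Q t)) * hU t
  have b1 : ∀ t, -E * √(nq m (Q t)) ≤ U := fun t => by
    have := nonneg_of_mul_nonneg_right ((add_nonneg (sq_nonneg _) (sq_nonneg _)).trans_eq (su t))
      (r0 t)
    linarith
  have E0 : E < 0 := by
    by_contra hE
    have h1 := strictMono_of_deriv_pos (f := fun t => (ip m (Q t) (V t)).re) fun t => by
      rw [(hd_re (dJ t)).deriv, ofReal_re]
      linarith [en t, u0 t]
    have h2 := (dn hQ 0).unique (by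
      simpa only [hp, zero_add] using (dn hQ (0 + T)).comp_add_const 0 T)
    linarith [h1 hT]
  refine ⟨E0, fun hc => ?_, ?_⟩
  · obtain ⟨t0, -, h1⟩ := isCompact_Icc.exists_isMinOn (nonempty_Icc.2 hT.le)
      (f := fun t => nq m (Q t)) fun t _ => (dn hQ t).continuousAt.continuousWithinAt
    have h2 : ∀ t, nq m (Q t0) ≤ nq m (Q t) := fun t => by
      obtain ⟨y, hy, h3⟩ := Function.Periodic.exists_mem_Ico₀ (f := fun t => nq m (Q t)) hp hT t
      exact (h1 (Ico_subset_Icc_self hy)).trans_eq h3.symm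
    have h3 := IsLocalMin.hasDerivAt_eq_zero (Eventually.of_forall h2) (dn hQ t0)
    have h4 := su t0
    rw [hc, show (ip m (Q t0) (V t0)).re = 0 by linarith] at h4
    have h5 := (mul_eq_zero.1 (h4.symm.trans (by ring))).resolve_left (r0 t0).ne'
    have h6 := Real.sqrt_le_sqrt (h2 s)
    nlinarith [b1 t, mul_le_mul_of_nonneg_left h (neg_pos.2 E0).le, mul_pos (neg_pos.2 E0) (r0 s),
      mul_le_mul_of_nonneg_left h6 (neg_pos.2 E0).le]
  · have h1 : c ^ 2 ≤ 2 * U * √(nq m (Q s)) := by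
      nlinarith [su s, sq_nonneg (ip m (Q s) (V s)).re, mul_pos (neg_pos.2 E0) (n0 s), r2 s]
    have h2 := mul_le_mul_of_nonneg_left h1 (mul_pos (one_pos.trans hK) (neg_pos.2 E0)).le
    have h3 := (mul_le_mul_of_nonneg_left h (neg_pos.2 E0).le).trans (b1 t)
    linarith [mul_le_mul_of_nonneg_left h3 (mul_pos two_pos U0).le]

lemma eqt_shape (hm : ∀ k, 0 < m k) (hj : j ^ 2 + j + 1 = 0) {t : ℝ}
    (hQ : ∀ k, HasDerivAt (fun s => Q s k) (V t k) t) (sQ : ∀ t, ∑ k, Q t k = 0)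
    (sV : ∑ k, V t k = 0) (h0 : Q t 0 ≠ 0) (he : ∀ s k, ‖Q s k‖ = ‖Q s 0‖) :
    ∃ i, (i = j ∨ i = j ^ 2) ∧ ∃ c1 c2, c1 ≠ 0 ∧ (Q t = fun k => c1 * eqt m i k) ∧
      V t = fun k => c2 * eqt m i k := by
  have key : ∀ i : ℂ, i ^ 2 + i + 1 = 0 → l1 i (Q t) = 0 → ∃ c1 c2, c1 ≠ 0 ∧
      (Q t = fun k => c1 * eqt m i k) ∧ V t = fun k => c2 * eqt m i k := fun i hi h1 => by
    have h2 := eq_of_l1 hm hi (sQ t) h1
    have r0 := ofReal_ne_zero.2 (r0_pos hm).ne'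
    refine ⟨_, _, div_ne_zero h0 r0, h2, eq_of_l1 hm hi sV ?_⟩
    have d1 : HasDerivAt (fun s => l1 i (Q s)) (l1 i (V t)) t :=
      ((hQ 0).add ((hQ 1).const_mul i)).add ((hQ 2).const_mul _)
    have d2 := ((hd_conj (hQ 0)).add ((hd_conj (hQ 1)).const_mul i)).add
      ((hd_conj (hQ 2)).const_mul (i ^ 2))
    have h3 : l1 i (fun k => conj (Q t k)) ≠ 0 := by
      have : l1 i (fun k => conj (Q t k)) = 3 * conj (Q t 0) := by
        conv_lhs => rw [h2]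
        simp only [l1, eqt, Fin.val_zero, Fin.val_one, Fin.val_two, map_mul, map_pow, map_div₀,
          conj_ofReal, conj_j hi]
        field_simp
        linear_combination conj (Q t 0) * (i - 1) * (i ^ 3 + 2) * hi
      rw [this]
      exact mul_ne_zero three_ne_zero ((map_ne_zero _).2 h0)
    refine d1.unique ((hasDerivAt_const t (0 : ℂ)).congr_of_eventuallyEq
      ((d2.continuousAt.eventually_ne h3).mono fun s hs => ?_))
    refine (mul_eq_zero.1 ((wd_fact hi (sQ s)).symm.trans ?_)).resolve_right hs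
    simp [wd, normSq_eq_norm_sq, he s 1, he s 2]
  have hj2 : (j ^ 2) ^ 2 + j ^ 2 + 1 = 0 := by linear_combination (j ^ 2 - j + 1) * hj
  have h1 : l1 j (Q t) * l1 j (fun k => conj (Q t k)) = 0 := (wd_fact hj (sQ t)).symm.trans (by
    simp [wd, normSq_eq_norm_sq, he t 1, he t 2])
  rcases mul_eq_zero.1 h1 with h | h
  · exact ⟨j, Or.inl rfl, key j hj h⟩
  · refine ⟨_, Or.inr rfl, key _ hj2 ?_⟩
    simpa only [l1, map_add, map_mul, map_pow, conj_conj, conj_j hj, map_zero] using congrArg conj h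

end kepler

theorem lagrange_final (hm : ∀ k, 0 < m k) : ∃ K : ℝ, ∀ q v : ℝ → Fin 3 → ℂ,
    (∀ t a, HasDerivAt (fun s => q s a) (v t a) t) → (∀ t a, HasDerivAt (fun s => v s a)
      (∑ b ∈ Finset.univ.erase a, (m b / ‖q t b - q t a‖ ^ 3) • (q t b - q t a)) t) →
    (∀ t a b, a ≠ b → q t a ≠ q t b) →
    (∀ t, ‖q t 0 - q t 1‖ = ‖q t 1 - q t 2‖ ∧ ‖q t 1 - q t 2‖ = ‖q t 2 - q t 0‖) →
    (∃ T, 0 < T ∧ ∀ t, ‖q (t + T) 0 - q (t + T) 1‖ = ‖q t 0 - q t 1‖) →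
    (∃ s t, K * ‖q s 0 - q s 1‖ ≤ ‖q t 0 - q t 1‖) → (q 0, v 0) ∈ closure {y | EscP m y} := by
  obtain ⟨j, hj⟩ : ∃ j : ℂ, j ^ 2 + j + 1 = 0 := ⟨(-1 + √3 * I) / 2, by
    have : ((√3 : ℝ) : ℂ) ^ 2 = 3 := by exact_mod_cast Real.sq_sqrt three_pos.le
    linear_combination I ^ 2 / 4 * this + 3 / 4 * I_sq⟩
  have hj2 : (j ^ 2) ^ 2 + j ^ 2 + 1 = 0 := by linear_combination (j ^ 2 - j + 1) * hj
  obtain ⟨l1, p1, h1⟩ := lagrange_main hm hj
  obtain ⟨l2, p2, h2⟩ := lagrange_main hm hj2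
  have l0 := lt_min p1 p2
  have U1 := div_pos (mul_pos two_pos (pow_pos (U0_pos hm) 2)) l0
  refine ⟨2 + 2 * U0 m ^ 2 / min l1 l2, fun q v hq hv hc he ⟨T, hT, hp⟩ ⟨s, t, hK⟩ => ?_⟩
  have hn := rel_newton hq hv
  have n0 := fun t => rel_ne (hc t)
  have e1 : ∀ t k, ‖rel (q t) k‖ = ‖q t 0 - q t 1‖ := fun t k => by
    fin_cases k
    · exact (norm_sub_rev _ _).trans (he t).1.symm
    · exact (norm_sub_rev _ _).trans ((he t).1.trans (he t).2).symm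
    · exact norm_sub_rev _ _
  have sh := fun t => eqt_shape hm hj (V := fun t => rel (v t)) (fun k => (hn t k).1)
    (fun t => sum_rel (q t)) (sum_rel (v t)) (n0 t 0) fun s k => (e1 s k).trans (e1 s 0).symm
  have r0 := r0_pos hm
  have e2 : ∀ t, √(nq m (rel (q t))) = ‖q t 0 - q t 1‖ / Hg.r0 m := fun t => by
    rw [Real.sqrt_eq_iff_mul_self_eq (nq_nonneg hm _) (by positivity)]
    simp only [nq, normSq_eq_norm_sq, e1, ← Finset.sum_mul]
    rw [← NN, ← r0_sq hm]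
    have := (NN_pos hm).ne'
    field_simp
  obtain ⟨a1, a2, a3⟩ := kepler hm (fun t k => (hn t k).1) (fun t k => (hn t k).2)
    (fun t => sum_rel _) (fun t => sum_rel _) n0 (fun t => by
      obtain ⟨i, -, c1, c2, -, b1, b2⟩ := sh t
      rw [b1, b2, wedge]; ring) (U := U0 m) (fun t => by
      have := norm_ne_zero_iff.2 (sub_ne_zero.2 (hc t 0 1 (by decide)))
      simp only [e2, UU, e1, ← Finset.sum_div, U0, NN]
      field_simp) hT (fun t => by simp only [nq, normSq_eq_norm_sq, e1, hp])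
    (K := 2 + 2 * U0 m ^ 2 / min l1 l2) (s := s) (t := t) (by linarith) (by
      rw [e2, e2, ← mul_div_assoc]; gcongr)
  have a4 : (ip m (rel (q 0)) (rel (v 0))).im ^ 2 * -(nq m (rel (v 0)) / 2 - UU m (rel (q 0)))
      < min l1 l2 := by
    by_contra h
    have := mul_le_mul_of_nonneg_left (not_lt.1 h) (add_pos two_pos U1).le
    rw [add_mul, div_mul_cancel₀ _ l0.ne'] at this
    linarith
  obtain ⟨i, rfl | rfl, c1, c2, b0, b1, b2⟩ := sh 0
  · exact h1 _ c1 c2 b0 b1 b2 a1 a2 (a4.trans_le (min_le_left _ _))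
  · exact h2 _ c1 c2 b0 b1 b2 a1 a2 (a4.trans_le (min_le_right _ _))

end Pool.Agent.Lib.MP_6e7c44_mp.Hg
end
end

-- part Pool.Agent.Lib.MP_6e7c44_mp.HStop2
section

/-!
The stopping time for an invariant expanding region which is not given by one quadratic form.
-/

set_option autoImplicit false

open Set Filter Topology Metric Complex ComplexConjugate

noncomputable section

namespace Pool.Agent.Lib.MP_6e7c44_mp.Hg

variable {m : Fin 3 → ℝ} {φ : ℝ → St → St} {p : St} {α β : Fin 3 → ℂ}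

/-- An invariant expanding region around the homographic motions of shape `α`. -/
structure Cone2 (m : Fin 3 → ℝ) (φ : ℝ → St → St) (α β : Fin 3 → ℂ) (In : St → Prop)
    (Vt : St → ℝ) (e κ C : ℝ) : Prop where
  k0 : 0 < κ
  c0 : 0 < C
  cont : ∀ p ∈ Kep m e, p ∈ Loc m α → ContinuousAt Vt p
  bd : ∀ p ∈ Kep m e, p ∈ Loc m α → nz m α β p ≤ e →
    Vt p ≤ C * nz m α β p ∧ (In p → nz m α β p ≤ C * Vt p)
  orb : ∀ p ∈ Kep m e, ∀ τ, (∀ s ∈ Icc 0 τ, φ s p ∈ Loc m α ∧ nz m α β (φ s p) ≤ e) → In p →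
    ∀ s t, 0 ≤ s → s ≤ t → t ≤ τ → In (φ t p) ∧
      Vt (φ s p) * Real.exp (κ * (prim (gm m) φ p t - prim (gm m) φ p s)) ≤ Vt (φ t p) ∧
      nz m α β (φ t p)
        ≤ nz m α β (φ s p) * Real.exp (C * (prim (gm m) φ p t - prim (gm m) φ p s))

variable {In : St → Prop} {Vt : St → ℝ} {e κ C : ℝ}

/-- The existence and continuity of the stopping time. -/
lemma stop1 (hm : ∀ k, 0 < m k) (hφ : IsFlow (YY m) Dom φ) (hf : Frame m α β)
    (hc : Cone2 m φ α β In Vt e κ C) (hs : Small m α β e) {η v0 : ℝ} (hη : 0 < η)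
    (hηe : C * η < e) (hv0 : 0 < v0) {X : Type*} [TopologicalSpace X] {P : X → St}
    (hP : Continuous P) {z0 : ℂ} (hz0 : z0 ≠ 0) (h0 : ∀ x, P x ∈ Kep m e ∧ P x ∈ Loc m α ∧
      nz m α β (P x) ≤ e ∧ In (P x) ∧ Vt (P x) < η ∧
      zz m (P x) / z0 ∈ slitPlane) :
    ∃ τ : X → ℝ, Continuous τ ∧ (∀ x, 0 ≤ τ x) ∧ ∃ S : Set X, IsClosed S ∧ ∀ x,
      (∀ t ∈ Icc 0 (τ x), φ t (P x) ∈ Loc m α ∧ nz m α β (φ t (P x)) ≤ e) ∧
      Vt (φ (τ x) (P x)) ≤ η ∧ (x ∈ S ∨ Vt (φ (τ x) (P x)) = η) ∧ (v0 ≤ Vt (P x) → x ∉ S) ∧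
      (x ∈ S → 0 < vv m (φ (τ x) (P x)) ∧
        om m (φ (τ x) (P x)) ^ 2 = 2 * mm m (φ (τ x) (P x))) := by
  obtain ⟨δ, c, C', d0, c0, C0, hph⟩ := phase_bd hm hf
  have ε0 := hc.k0
  have hD : ∀ x, P x ∈ Dom := fun x => (h0 x).1.1.1
  have hK := fun x => flow_Kep hm hφ (h0 x).1
  have hd := fun x => hφ.deriv _ (hD x)
  have hA := fun x => hd_prim hφ (fun _ => cAt_gm hm) (hD x)
  obtain ⟨k, hk⟩ := exists_nat_gt ((2 * Real.pi + C' * (η / v0 / κ)) / (2 * Real.pi))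
  rw [div_lt_iff₀ Real.two_pi_pos] at hk
  have hk0 : 0 < C' * (η / v0 / κ) := by positivity
  obtain ⟨θ, cθ, hθ⟩ : ∃ θ : X → ℝ, Continuous θ ∧ ∀ x, θ x ≤ 2 * Real.pi ∧
      ∃ r : ℝ, 0 < r ∧ zz m (P x) = r * exp (θ x * I) := by
    refine ⟨fun x => arg (zz m (P x) / z0) + arg z0, Continuous.add (continuous_iff_continuousAt.2
      fun x => ContinuousAt.comp (f := fun x => zz m (P x) / z0) (continuousAt_arg
        (h0 x).2.2.2.2.2) (((cAt_zz hm (hD x)).comp hP.continuousAt).div_const _)) continuous_const,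
      fun x => ⟨by linarith [arg_le_pi (zz m (P x) / z0), arg_le_pi z0],
        ‖zz m (P x) / z0‖ * ‖z0‖, mul_pos (norm_pos_iff.2 (slitPlane_ne_zero (h0 x).2.2.2.2.2))
          (norm_pos_iff.2 hz0), ?_⟩⟩
    push_cast
    rw [add_mul, exp_add, mul_mul_mul_comm, norm_mul_exp_arg_mul_I, norm_mul_exp_arg_mul_I,
      div_mul_cancel₀ _ hz0]
  obtain ⟨Θ, hΘ⟩ : ∃ Θ : X × ℝ → ℝ, Θ = fun y => θ y.1 + (prim (fz m δ) φ (P y.1) y.2).im :=
    ⟨_, rfl⟩
  have cΘ : Continuous Θ := hΘ ▸ (cθ.comp continuous_fst).add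
    (continuous_im.comp (cont_prim hφ (cAt_fz hm d0) hP hD))
  have dΘ : ∀ x t, HasDerivAt (fun t => Θ (x, t)) (fz m δ (φ t (P x))).im t := fun x t =>
    hΘ ▸ (hd_im (hd_prim hφ (cAt_fz hm d0) (hD x) t)).const_add (θ x)
  have Θ0 : ∀ x, Θ (x, 0) ≤ 2 * Real.pi := fun x => by
    simpa only [hΘ, prim_zero, zero_im, add_zero] using (hθ x).1
  have cφ : ∀ y : X × ℝ, ContinuousAt (fun y : X × ℝ => φ y.2 (P y.1)) y := fun y =>
    hφ.comp_contAt continuousAt_snd (hP.comp continuous_fst).continuousAt (hD _)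
  have cV : ∀ y : X × ℝ, φ y.2 (P y.1) ∈ Loc m α →
      ContinuousAt (fun y : X × ℝ => Vt (φ y.2 (P y.1))) y := fun y h =>
    ContinuousAt.comp (g := Vt) (hc.cont _ (hK _ _) h) (cφ y)
  let O : Set (X × ℝ) := {y | φ y.2 (P y.1) ∈ Loc m α ∧ nz m α β (φ y.2 (P y.1)) < e ∧
    Θ y < k * (2 * Real.pi) ∧ Vt (φ y.2 (P y.1)) < η}
  let O' : Set (X × ℝ) := {y | φ y.2 (P y.1) ∈ Loc m α ∧
    (k * (2 * Real.pi) < Θ y ∨ η < Vt (φ y.2 (P y.1)))}
  have oO : ∀ y ∈ O, O ∈ 𝓝 y := fun y hy => ((cφ y).eventually (isOpen_Loc.eventually_mem hy.1)).and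
    (((ContinuousAt.comp (g := nz m α β) (f := fun y : X × ℝ => φ y.2 (P y.1)) (cAt_nz hy.1)
      (cφ y)).eventually_lt continuousAt_const hy.2.1).and ((cΘ.continuousAt.eventually_lt continuousAt_const hy.2.2.1).and
      ((cV y hy.1).eventually_lt continuousAt_const hy.2.2.2)))
  have oO' : ∀ y ∈ O', O' ∈ 𝓝 y := fun y hy =>
    ((cφ y).eventually (isOpen_Loc.eventually_mem hy.1)).and (hy.2.elim
      (fun h => (continuousAt_const.eventually_lt cΘ.continuousAt h).mono fun _ => Or.inl)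
      fun h => (continuousAt_const.eventually_lt (cV y hy.1) h).mono fun _ => Or.inr)
  have nzlt : ∀ p ∈ Kep m e, p ∈ Loc m α → nz m α β p ≤ e → In p → Vt p ≤ η →
      nz m α β p < e := fun p h1 h2 h3 h4 h5 =>
    (((hc.bd p h1 h2 h3).2 h4).trans (mul_le_mul_of_nonneg_left h5 hc.c0.le)).trans_lt hηe
  have O0 : ∀ x, (x, (0 : ℝ)) ∈ O := fun x => by
    obtain ⟨h1, h2, h3, h4, h5, -⟩ := h0 x
    simp only [O, mem_ofPred_eq, hφ.zero]
    exact ⟨h2, nzlt _ h1 h2 h3 h4 h5.le, by linarith [Θ0 x], h5⟩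
  have ex : ∀ x, ∃ τ, 0 ≤ τ ∧ (x, τ) ∉ O ∧ ∀ s ∈ Ico 0 τ, (x, s) ∈ O := fun x => by
    refine first_fail (P := fun t => (x, t) ∈ O) (fun t _ ht =>
      (Continuous.prodMk_right x).continuousAt.eventually (oO _ ht)) ?_
    by_contra h
    push Not at h
    have l0 := mul_pos c0 (Kep.pos (h0 x).1)
    have h1 := A_diverges hm hφ (h0 x).1 (F0 := 3 * UU m α) fun t ht => by
      linarith [(abs_le.1 (hs.ff _ (hK x t).1 (h t ht).1 (h t ht).2.1.le)).2]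
    obtain ⟨t, h2, h3⟩ := ((eventually_ge_atTop 0).and ((h1.const_mul_atTop l0).eventually_ge_atTop
      (k * (2 * Real.pi) - Θ (x, 0)))).exists
    have h4 := mono_ex (f := fun t => Θ (x, t) - c * (om m (P x) ^ 2 * mm m (P x))
      * prim (gm m) φ (P x) t) h2 fun s hs' => ⟨_, (dΘ x s).sub ((hA x s).const_mul _), by
        have := (hph e hs _ (hK x s) (h s hs'.1).1 (h s hs'.1).2.1.le).2.1
        rw [flow_inv hm hφ (h0 x).1.1] at this
        linarith⟩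
    rw [prim_zero] at h4
    linarith [(h t h2).2.2.1]
  choose τ τ0 τ1 τ2 using ex
  have τp : ∀ x, 0 < τ x := fun x => lt_of_le_of_ne (τ0 x) fun h => τ1 x (h ▸ O0 x)
  have hb : ∀ x, ∀ t ∈ Icc 0 (τ x), φ t (P x) ∈ Loc m α ∧ nz m α β (φ t (P x)) ≤ e :=
    fun x t ht => ht.2.eq_or_lt.elim (fun h => h ▸ box_end hm hφ hf hs.good (h0 x).1.1 (τp x)
      fun s hs => ⟨(τ2 x s hs).1, (τ2 x s hs).2.1.le⟩)
      fun h => ⟨(τ2 x t ⟨ht.1, h⟩).1, (τ2 x t ⟨ht.1, h⟩).2.1.le⟩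
  have he := fun x => hb x _ ⟨τ0 x, le_rfl⟩
  have ho := fun x => hc.orb _ (h0 x).1 _ (hb x) (h0 x).2.2.2.1 _ _ le_rfl (τ0 x) le_rfl
  have V1 : ∀ x, Vt (φ (τ x) (P x)) ≤ η := fun x =>
    closure_le (f := fun t => Vt (φ t (P x))) (τp x) (ContinuousAt.comp (g := Vt)
      (hc.cont _ (hK _ _) (he x).1) (hd x _).continuousAt) fun s hs => (τ2 x s hs).2.2.2.le
  have Θ1 : ∀ x, Θ (x, τ x) ≤ k * (2 * Real.pi) := fun x =>
    closure_le (f := fun t => Θ (x, t)) (τp x) (dΘ x _).continuousAt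
      fun s hs => (τ2 x s hs).2.2.1.le
  have cov : ∀ x, Θ (x, τ x) = k * (2 * Real.pi) ∨ Vt (φ (τ x) (P x)) = η := fun x => by
    by_contra h
    push Not at h
    exact τ1 x ⟨(he x).1, nzlt _ (hK _ _) (he x).1 (he x).2 (ho x).1 (V1 x),
      lt_of_le_of_ne (Θ1 x) h.1, lt_of_le_of_ne (V1 x) h.2⟩
  have cτ : Continuous τ := by
    refine exit_continuous (O' := O') (fun x t ht => oO _ (τ2 x t ht)) τ0 τ1 (fun x => ?_)
      (disjoint_left.2 fun y h1 h2 => h2.2.elim (lt_asymm h1.2.2.1) (lt_asymm h1.2.2.2))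
    have g0 := gm_pos hm (hK x (τ x)).1.1 (he x).1.1
    have h1 : ∀ᶠ t in 𝓝[>] τ x, k * (2 * Real.pi) < Θ (x, t) ∨ η < Vt (φ t (P x)) := by
      rcases cov x with h | h
      · exact (ev_gt (dΘ x (τ x)) ((mul_pos g0 (mul_pos c0 (Kep.pos (hK x _)))).trans_le
          (hph e hs _ (hK x _) (he x).1 (he x).2).2.1)).mono fun t ht => Or.inl (h ▸ ht)
      · obtain ⟨r, r0, hr⟩ := Metric.eventually_nhds_iff.1 (((hd x (τ x)).continuousAt.eventually
          (isOpen_Loc.eventually_mem (he x).1)).and ((ContinuousAt.comp (g := nz m α β)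
            (f := fun s => φ s (P x)) (cAt_nz (he x).1) (hd x (τ x)).continuousAt).eventually_lt continuousAt_const
              (nzlt _ (hK _ _) (he x).1 (he x).2 (ho x).1 (V1 x))))
        filter_upwards [ev_gt (hA x (τ x)) g0, Ioo_mem_nhdsGT (lt_add_of_pos_right (τ x) r0)]
          with t b1 b2
        refine Or.inr (lt_of_lt_of_le ?_ (hc.orb _ (h0 x).1 t (fun s hs => (le_total s (τ x)).elim
          (fun b3 => hb x s ⟨hs.1, b3⟩) fun b3 => (hr (by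
            rw [Real.dist_eq, abs_lt]; constructor <;> linarith [hs.2, b2.2])).imp_right le_of_lt)
          (h0 x).2.2.2.1 _ _ (τ0 x) b2.1.le le_rfl).2.1)
        rw [h]
        exact lt_mul_of_one_lt_right hη (Real.one_lt_exp_iff.2 (mul_pos ε0 (sub_pos.2 b1)))
    filter_upwards [h1, nhdsWithin_le_nhds ((hd x (τ x)).continuousAt.eventually
      (isOpen_Loc.eventually_mem (he x).1))] with t h2 h3 using oO' (x, t) ⟨h3, h2⟩
  refine ⟨τ, cτ, τ0, {x | Θ (x, τ x) = k * (2 * Real.pi)}, isClosed_eq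
    (cΘ.comp (continuous_id.prodMk cτ)) continuous_const, fun x =>
      ⟨hb x, V1 x, cov x, fun h h' => ?_, fun h => ?_⟩⟩
  · have h1 := (ho x).2.1
    rw [hφ.zero, prim_zero, sub_zero] at h1
    have h2 := mono_ex (f := fun t => C' * prim (gm m) φ (P x) t - Θ (x, t)) (τ0 x) fun s hs' =>
      ⟨_, ((hA x s).const_mul _).sub (dΘ x s), by
        linarith [(hph e hs _ (hK x s) (hb x s hs').1 (hb x s hs').2).2.2]⟩
    have h3 : prim (gm m) φ (P x) (τ x) ≤ η / v0 / κ := by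
      rw [le_div_iff₀' ε0, le_div_iff₀' hv0]
      refine le_trans (mul_le_mul h ?_ ?_ (hv0.le.trans h)) (h1.trans (V1 x))
      · linarith [Real.add_one_le_exp (κ * prim (gm m) φ (P x) (τ x))]
      · simpa only [prim_zero] using mul_nonneg ε0.le
          ((le_of_eq prim_zero.symm).trans (A_mono hm hφ (hD x) (τ0 x)))
    rw [prim_zero, show Θ (x, τ x) = _ from h'] at h2
    linarith [mul_le_mul_of_nonneg_left h3 C0.le, Θ0 x]
  · have h1 := zz_flow hm hφ (h0 x).1.1 d0 (τ0 x) fun s hs' =>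
      (hph e hs _ (hK x s) (hb x s hs').1 (hb x s hs').2).1
    obtain ⟨r, r0, hr⟩ := (hθ x).2
    have h2 : θ x + (prim (fz m δ) φ (P x) (τ x)).im = k * (2 * Real.pi) := by
      simpa only [hΘ, mem_ofPred_eq] using h
    have h3 : zz m (φ (τ x) (P x)) = ((r * Real.exp (prim (fz m δ) φ (P x) (τ x)).re : ℝ) : ℂ) := by
      have h4 := exp_nat_mul_two_pi_mul_I k
      rw [show (k : ℂ) * (2 * Real.pi * I) = ((k * (2 * Real.pi) : ℝ) : ℂ) * I by push_cast; ring,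
        ← h2, ofReal_add, add_mul, exp_add] at h4
      rw [h1, hr, exp_eq_exp_re_mul_sin_add_cos (prim _ _ _ _), ← exp_mul_I]
      push_cast
      linear_combination r * exp (prim (fz m δ) φ (P x) (τ x)).re * h4
    have h4 := congrArg re h3
    have h5 := congrArg im h3
    simp only [zz, add_re, add_im, mul_re, mul_im, ofReal_re, ofReal_im, I_re, I_im] at h4 h5
    have h6 := mul_pos r0 (Real.exp_pos (prim (fz m δ) φ (P x) (τ x)).re)
    constructor <;> linarith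

theorem stop2 (hm : ∀ k, 0 < m k) (hφ : IsFlow (YY m) Dom φ) (hf : Frame m α β)
    (hc : Cone2 m φ α β In Vt e κ C) (hs : Small m α β e) {η κ' : ℝ} (hη : 0 < η)
    (hηe : C * η < e) (hκ : 0 < κ') (D : ℝ) : ∃ lam η1 : ℝ, 0 < lam ∧ 0 < η1 ∧
    ∀ v0 : ℝ, 0 < v0 → ∀ (X : Type) [TopologicalSpace X] (P : X → St), Continuous P →
    ∀ z0 : ℂ, z0 ≠ 0 → (∀ x, P x ∈ Kep m lam ∧ P x ∈ Loc m α ∧ nz m α β (P x) ≤ e ∧
      In (P x) ∧ Vt (P x) ≤ η1 ∧ zz m (P x) / z0 ∈ slitPlane) →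
    ∃ τ : X → ℝ, Continuous τ ∧ (∀ x, 0 ≤ τ x) ∧ ∃ S S' : Set X, IsClosed S ∧ IsClosed S' ∧ ∀ x,
      (∀ t ∈ Icc 0 (τ x), φ t (P x) ∈ Kep m e ∧ φ t (P x) ∈ Loc m α ∧ nz m α β (φ t (P x)) ≤ e) ∧
      (x ∈ S ∨ x ∈ S') ∧ (v0 ≤ Vt (P x) → x ∈ S') ∧ (nz m α β (P x) = 0 → x ∉ S') ∧
      (x ∈ S → x ∈ S' → Vt (φ (τ x) (P x)) = η ∧ 0 < vv m (φ (τ x) (P x)) ∧
        mm m (φ (τ x) (P x)) ≤ κ' ∧ om m (φ (τ x) (P x)) ^ 2 ≤ κ' ∧
        2 * UU m α - κ' ≤ FF m (φ (τ x) (P x)) ∧ ∃ t ∈ Icc 0 (τ x),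
          (∀ s ∈ Icc t (τ x), √(UU m α) / 2 ≤ vv m (φ s (P x))) ∧
          D ≤ prim (gm m) φ (P x) (τ x) - prim (gm m) φ (P x) t) := by
  have c0 := hc.c0
  have ε0 := hc.k0
  have hU := Real.sqrt_pos.2 (UU_pos hm hf.ne)
  obtain ⟨e1, h1, e0⟩ := ((ev_FF hm hf hκ).and self_mem_nhdsWithin).exists
  have e0' : 0 < e1 := e0
  obtain ⟨D', D1, D2⟩ : ∃ D', D ≤ D' ∧ C * η ≤ e1 * (κ * D') :=
    ⟨max D (C * η / (e1 * κ)), le_max_left _ _, by
      rw [← mul_assoc, ← div_le_iff₀' (by positivity)]; exact le_max_right _ _⟩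
  obtain ⟨μ0, μp, hμ⟩ := last_leg hm hφ hf hs D'
  obtain ⟨μ, μ1, μ2, μ3⟩ : ∃ μ, 0 < μ ∧ μ ≤ μ0 ∧ 2 * μ ≤ κ' :=
    ⟨min μ0 (κ' / 2), by positivity, min_le_left _ _, by linarith [min_le_right μ0 (κ' / 2)]⟩
  refine ⟨min e (2 * μ ^ 2), min (η / 2) (η / (C * (C * Real.exp (C * D')))),
    lt_min hs.good.1 (by positivity), by positivity, fun v0 hv0 X _ P hP z0 hz0 h0 => ?_⟩
  have h0' := fun x => Kep.mono (h0 x).1 (min_le_left _ _)
  obtain ⟨τ, cτ, τ0, S, cS, h⟩ := stop1 hm hφ hf hc hs hη hηe hv0 hP hz0 fun x =>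
    ⟨h0' x, (h0 x).2.1, (h0 x).2.2.1, (h0 x).2.2.2.1,
      ((h0 x).2.2.2.2.1.trans (min_le_left _ _)).trans_lt (half_lt_self hη), (h0 x).2.2.2.2.2⟩
  have hK := fun x => flow_Kep hm hφ (h0' x)
  have he := fun x => (h x).1 _ ⟨τ0 x, le_rfl⟩
  refine ⟨τ, cτ, τ0, S, {x | Vt (φ (τ x) (P x)) = η}, cS, isClosed_eq
    (continuous_iff_continuousAt.2 fun x => ContinuousAt.comp (g := Vt)
      (f := fun x => φ (τ x) (P x)) (hc.cont _ (hK x _) (he x).1)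
      (hφ.comp_contAt cτ.continuousAt hP.continuousAt (h0' x).1.1)) continuous_const, fun x => ?_⟩
  obtain ⟨a1, a2, a3, a4, a5⟩ := h x
  have ho := hc.orb _ (h0' x) _ a1 (h0 x).2.2.2.1
  have b1 := (hc.bd _ (hK x _) (he x).1 (he x).2).1.trans
    (mul_le_mul_of_nonneg_left (ho 0 _ le_rfl (τ0 x) le_rfl).2.2 c0.le)
  rw [hφ.zero] at b1
  refine ⟨fun t ht => ⟨hK x t, a1 t ht⟩, a3, fun h => a3.resolve_left (a4 h), fun h h' => ?_,
    fun h h' => ?_⟩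
  · rw [h, show Vt _ = η from h'] at b1
    linarith
  obtain ⟨b2, b3⟩ := a5 h
  have b4 : mm m (φ (τ x) (P x)) ≤ μ := by
    have := (flow_Kep hm hφ (h0 x).1 (τ x)).2.2.2.trans (min_le_right _ _)
    rw [b3] at this
    exact le_of_sq_le_sq (by linarith) μ1.le
  obtain ⟨t, ht, b5, b6⟩ := hμ _ (h0' x) _ (τ0 x) a1 b2 (b4.trans μ2) (by linarith)
  have b7 : D' ≤ prim (gm m) φ (P x) (τ x) - prim (gm m) φ (P x) t := by
    refine b6.elim (fun h0t => ?_) id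
    rw [show Vt _ = η from h'] at b1
    have b7 := (h0 x).2.2.2.2.1.trans (min_le_right _ _)
    rw [le_div_iff₀ (by positivity)] at b7
    have b9 := mul_le_mul_of_nonneg_right ((hc.bd _ (h0' x) (h0 x).2.1 (h0 x).2.2.1).2
      (h0 x).2.2.2.1) (mul_pos c0 (Real.exp_pos (C * D'))).le
    rcases (nz_nonneg (m := m) (α := α) (β := β) (p := P x)).eq_or_lt with h9 | h9
    · rw [← h9] at b1; linarith
    rw [h0t]
    exact le_of_mul_le_mul_left (Real.exp_le_exp.1 (le_of_mul_le_mul_left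
      (le_of_mul_le_mul_left (le_trans (by linarith) (b7.trans b1)) c0) h9)) c0
  refine ⟨h', b2, by linarith, by linarith, ?_, t, ht, b5, D1.trans b7⟩
  have c1 := (ho t _ ht.1 ht.2 le_rfl).2.1
  have c3 := (hc.bd _ (hK x t) (a1 t ht).1 (a1 t ht).2).2 (ho 0 t le_rfl ht.1 ht.2).1
  have c4 : nz m α β (φ t (P x)) ≤ e1 := by
    rw [show Vt (φ (τ x) (P x)) = η from h'] at c1
    have c5 := Real.add_one_le_exp (κ * (prim (gm m) φ (P x) (τ x) - prim (gm m) φ (P x) t))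
    have c6 := mul_le_mul_of_nonneg_left b7 ε0.le
    have c7 : 0 < κ * D' := pos_of_mul_pos_right ((mul_pos c0 hη).trans_le D2) e0'.le
    have c9 : Vt (φ t (P x)) * (κ * D') ≤ η := (mul_le_mul_of_nonneg_left (by linarith)
      (nonneg_of_mul_nonneg_right (nz_nonneg.trans c3) c0)).trans c1
    refine le_of_mul_le_mul_right ?_ c7
    linarith [mul_le_mul_of_nonneg_left c9 c0.le, mul_le_mul_of_nonneg_right c3 c7.le]
  have c5 := mono_ex (f := fun s => FF m (φ s (P x))) ht.2 fun s hs' =>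
    ⟨_, cFF' hm (hK x s).1 (a1 s ⟨ht.1.trans hs'.1, hs'.2⟩).1.1 (hφ.deriv _ (h0' x).1.1 s),
      mul_nonneg (mul_nonneg (gm_nonneg hm (hK x s).1.1) (by linarith [b5 s hs'])) (WW_nonneg hm)⟩
  linarith [(abs_le.1 (h1 _ (hK x t).1 (a1 t ht).1 c4)).1]

end Pool.Agent.Lib.MP_6e7c44_mp.Hg
end
end

-- part Pool.Agent.Lib.MP_6e7c44_mp.HEMain
section

/-!
Highly eccentric collinear homographic motions are limits of escaping motions.
-/

set_option autoImplicit false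

open Set Filter Topology Metric Complex ComplexConjugate

noncomputable section

namespace Pool.Agent.Lib.MP_6e7c44_mp.Hg

variable {m : Fin 3 → ℝ} {φ : ℝ → St → St} {p : St} {a b : Fin 3 → ℝ}

lemma g_eul (h : RF m a b) : g1 m (fun k => a k) (fun k => b k) = UU m (fun k => a k)
      + (UU m (fun k => a k) + Gy m a b 0) / 2 ∧ g2 m (fun k => a k) (fun k => b k)
      = (3 / 2 * (UU m (fun k => a k) + Gy m a b 0) : ℝ) := by
  have e : UU m (fun k => a k) + Gy m a b 0 = ∑ k, nn m k * (b k ^ 2 / |a k| ^ 3) := by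
    simp only [Gy, UU, map_zero, add_zero, Real.sqrt_one, one_pow, one_mul, mul_zero, sub_zero,
      zero_re, norm_real, Real.norm_eq_abs, ← Finset.sum_add_distrib]
    refine Finset.sum_congr rfl fun k _ => ?_
    have := (abs_pos.2 (h.ne k)).ne'
    rw [← sq_abs (a k)]
    field_simp
    ring
  rw [e]
  constructor
  · simp only [g1, UU, norm_real, Real.norm_eq_abs, normSq_ofReal, Finset.sum_div,
      ← Finset.sum_add_distrib]
    refine Finset.sum_congr rfl fun k _ => ?_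
    ring
  · simp only [g2, norm_real, Real.norm_eq_abs, conj_ofReal, Finset.mul_sum, ofReal_sum]
    refine Finset.sum_congr rfl fun k _ => ?_
    have := (abs_pos.2 (h.ne k)).ne'
    have e2 : nn m k * (3 / 2 * (a k * b k) ^ 2 / |a k| ^ 5)
        = 3 / 2 * (nn m k * (b k ^ 2 / |a k| ^ 3)) := by
      rw [mul_pow, ← sq_abs (a k)]
      field_simp
    rw [← e2]
    push_cast
    rfl

lemma cone_eul (hm : ∀ k, 0 < m k) (hφ : IsFlow (YY m) Dom φ) (h : RF m a b) {c0 : ℝ}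
    (c1 : 0 < c0) (nb : ℝ) : ∃ (In : St → Prop) (Vt : St → ℝ) (κ C : ℝ),
    ∀ᶠ e in 𝓝[>] (0 : ℝ), Cone2 m φ (fun k => a k) (fun k => b k) In Vt e κ C ∧
      ∀ p ∈ Kep m e, p ∈ Loc m (fun k => a k) → nz m (fun k => a k) (fun k => b k) p ≤ e →
        ∀ n ξ : ℝ, 0 ≤ ξ → 0 ≤ n → n ≤ nb →
        c0 ≤ UU m (fun k => a k) + Gy m a b 0 + vv m p * n →
        c0 ≤ 2 * (UU m (fun k => a k) + Gy m a b 0) * n ^ 2
          - (UU m (fun k => a k) + Gy m a b 0) ^ 2 → sg m (fun k => a k) (fun k => b k) p = ξ →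
        uu m (fun k => a k) (fun k => b k) p = (ξ * (n - vv m p) : ℝ) → In p := by
  have hU := UU_pos hm h.fr.ne
  obtain ⟨k, ε, κ, C, e0, k0, C0, h1, h2, h3⟩ := reg_main hU (Gy_pos hm h)
    (Real.sqrt_pos.2 (mul_pos three_pos hU)) c1 nb
  obtain ⟨C', C1, h4⟩ := cnz hm h.fr h.cc
  obtain ⟨g1', g2'⟩ := g_eul h
  have hf := h.fr
  have hcc := h.cc
  generalize (fun k => (b k : ℂ)) = β at *
  generalize (fun k => (a k : ℂ)) = α at *
  generalize Gy m a b 0 = B at *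
  refine ⟨fun p => k.Reg (vv m p) (om m p) (sg m α β p) (uu m α β p), fun p =>
    √(Ps (UU m α + B) (vv m p) (om m p) (sg m α β p) (uu m α β p)), κ / 2, C + C', ?_⟩
  filter_upwards [h4, ev_small hm hf, cuu_lin hm hf hcc e0, ev_FF hm hf e0, Ioc_mem_nhdsGT e0]
    with e a1 a2 a3 a4 a5
  have bd : ∀ p ∈ Kep m e, p ∈ Loc m α → nz m α β p ≤ e →
      |vv m p| ≤ √(3 * UU m α) ∧ |om m p| ≤ √(3 * UU m α) := fun p hp hl hz => by
    have := (a2.bd hm hp.1 hl hz).2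
    constructor <;> refine Real.abs_le_sqrt ?_ <;>
      linarith [hp.2.1, sq_nonneg (vv m p), sq_nonneg (om m p)]
  refine ⟨⟨half_pos k0, by linarith, fun p hp hl => ?_, fun p hp hl hz => ⟨?_, fun hi => ?_⟩,
    fun p hp τ hb hi => ?_⟩, fun p hp hl hz n ξ b1 b2 b3 b4 b5 b6 b7 => ?_⟩
  · have := cAt_vv hm hp.1.1
    have := cAt_om hm hp.1.1
    have := cAt_sg (β := β) hl.2
    have := cAt_uu (β := β) hl
    simp only [Ps, Ee, Ez, Ew]
    fun_prop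
  · refine (Real.sqrt_le_iff.2 ⟨mul_nonneg C0.le nz_nonneg,
      (h1 _ _ _ _ (bd p hp hl hz).1 (bd p hp hl hz).2).1⟩).trans ?_
    exact mul_le_mul_of_nonneg_right (by linarith) nz_nonneg
  · refine le_trans ?_ (mul_le_mul_of_nonneg_right (show C ≤ _ by linarith) (Real.sqrt_nonneg _))
    rw [← Real.sqrt_sq C0.le, ← Real.sqrt_mul (sq_nonneg _)]
    exact Real.le_sqrt_of_sq_le ((h1 _ _ _ _ (bd p hp hl hz).1 (bd p hp hl hz).2).2 hi)
  swap
  · rw [b6, b7]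
    exact h2 _ _ n ξ (bd p hp hl hz).1 (bd p hp hl hz).2 b1 b2 b3 b4 b5
  have hA := hd_prim hφ (fun _ => cAt_gm hm) hp.1.1
  have hK := flow_Kep hm hφ hp
  have hd := hφ.deriv p hp.1.1
  have hn : ∀ s t, 0 ≤ s → s ≤ t → t ≤ τ → nz m α β (φ t p) ≤ nz m α β (φ s p)
      * Real.exp (C' * (prim (gm m) φ p t - prim (gm m) φ p s)) := fun s t b1 b2 b3 => by
    have := gron (f := fun s => -nz m α β (φ s p)) (c := C') b2 hA fun r hr => by
      have hr' := hb r ⟨b1.trans hr.1, hr.2.trans b3⟩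
      obtain ⟨d, c2, c3⟩ := a1 (fun s => φ s p) r (hK r).1 hr'.1 (hK r).2.1 hr'.2 (hd r)
      exact ⟨_, c2.neg, by linarith⟩
    linarith
  rw [g1', g2'] at a3
  have st := fun r (hr : r ∈ Icc 0 τ) => by
    have c3 := (a3 (fun s => φ s p) r (hK r).1 (hb r hr).1 (hb r hr).2 (hd r)).choose_spec
    have c4 := cvv hm (hK r).1 (hd r)
    have c5 := abs_le.1 (a4 _ (hK r).1 (hb r hr).1 (hb r hr).2)
    have c6 := ((FF_loc hm hf (hK r).1 (hb r hr).1).2.trans (uu_le_nz.trans (hb r hr).2)).trans a5.2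
    have c7 := WW_nonneg hm (p := φ r p)
    rw [vd_eq hm (hK r).1 (hb r hr).1.1] at c4
    rw [FF_mcg hm (hK r).1.1] at c5
    exact h3 (fun s => vv m (φ s p)) (fun s => om m (φ s p)) (fun s => sg m α β (φ s p))
      (fun s => uu m α β (φ s p)) r _ _ _ (gm_pos hm (hK r).1.1 (hb r hr).1.1) c4
      (com hm (hK r).1 (hd r)) (csg hm (hK r).1 (hb r hr).1 (hd r)) c3.2
      (bd _ (hK r) (hb r hr).1 (hb r hr).2).1 (bd _ (hK r) (hb r hr).1 (hb r hr).2).2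
      (abs_le.2 ⟨by linarith [c5.2], by linarith [c5.1]⟩) (by linarith [(hK r).2.1]) c3.1
  have inv : Icc 0 τ ⊆ {s | k.Reg (vv m (φ s p)) (om m (φ s p)) (sg m α β (φ s p))
      (uu m α β (φ s p))} := by
    refine IsClosed.Icc_subset_of_forall_mem_nhdsWithin ?_ (by simpa only [mem_ofPred_eq, hφ.zero])
      fun r hr => ?_
    · rw [inter_comm]
      refine ContinuousOn.preimage_isClosed_of_isClosed (f := fun s => (vv m (φ s p), om m (φ s p),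
        sg m α β (φ s p), uu m α β (φ s p))) (fun r hr => ContinuousAt.continuousWithinAt ?_)
        isClosed_Icc k.closed
      exact (cvv hm (hK r).1 (hd r)).continuousAt.prodMk ((com hm (hK r).1 (hd r)).continuousAt.prodMk
        ((csg hm (hK r).1 (hb r hr).1 (hd r)).continuousAt.prodMk
          (cuu hm hf (hK r).1 (hb r hr).1 (hd r)).continuousAt))
    rcases (nz_nonneg (m := m) (α := α) (β := β) (p := φ r p)).eq_or_lt with c2 | c2
    · filter_upwards [Ioo_mem_nhdsGT hr.2.2] with s hs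
      have c3 := hn r s hr.2.1 hs.1.le hs.2.le
      rw [← c2, zero_mul] at c3
      rw [normSq_eq_zero.1 (le_antisymm (sg_le_nz.trans c3) (normSq_nonneg _)),
        normSq_eq_zero.1 (le_antisymm (uu_le_nz.trans c3) (normSq_nonneg _))]
      exact k.zero _ _
    · exact (st r (Ico_subset_Icc_self hr.2) hr.1).1 c2
  refine fun s t b1 b2 b3 => ⟨inv ⟨b1.trans b2, b3⟩, ?_, (hn s t b1 b2 b3).trans
    (mul_le_mul_of_nonneg_left (Real.exp_le_exp.2 (mul_le_mul_of_nonneg_right (by linarith)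
      (sub_nonneg.2 (A_mono hm hφ hp.1.1 b2)))) nz_nonneg)⟩
  have := Real.sqrt_le_sqrt (gron (c := κ) b2 hA fun r hr =>
    (st r ⟨b1.trans hr.1, hr.2.trans b3⟩ (inv ⟨b1.trans hr.1, hr.2.trans b3⟩)).2)
  rwa [Real.sqrt_mul' _ (Real.exp_pos _).le, ← Real.exp_half, ← div_mul_eq_mul_div] at this

lemma eul_exit (hm : ∀ k, 0 < m k) (hφ : IsFlow (YY m) Dom φ) (h : RF m a b) {e η ε : ℝ}
    (hs : Small m (fun k => a k) (fun k => b k) e) (hη : 0 < η)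
    (hN : ∀ σ u, (u.im ^ 2 + Gy m a b 0 * σ.im ^ 2) / 2 ≤ Ny (Gy m a b 0) ε σ u) :
    ∀ᶠ κ in 𝓝[>] (0 : ℝ), ∀ p ∈ NE m φ, 0 ≤ mm m p → mm m p ≤ κ → om m p ^ 2 ≤ κ → 0 ≤ vv m p →
      2 * UU m (fun k => a k) - κ ≤ FF m p → p ∈ Loc m (fun k => a k) →
      nz m (fun k => a k) (fun k => b k) p ≤ e → η ≤ nz m (fun k => a k) (fun k => b k) p →
      κ < Ny (Gy m a b 0) ε (sg m (fun k => a k) (fun k => b k) p)
        (uu m (fun k => a k) (fun k => b k) p) := by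
  by_contra hcon
  obtain ⟨F, hF, hFle, f, hf⟩ := bad_choice hcon
  simp only [Classical.not_imp, not_lt] at hf
  obtain ⟨G, hG, hle, q, hT, qL, qN, -, q1, -⟩ := to_lim hm hφ (UU_pos hm h.fr.ne) hFle (f := f)
    (hf.mono fun κ ⟨a1, a2, a3, a4, a5, a6, a7, a8, _⟩ => ⟨a1, a2, a3, a4, a5, a6, by
      linarith [(abs_le.1 (hs.ff _ a1.1 a7 a8)).2]⟩)
  set α : Fin 3 → ℂ := fun k => a k
  set β : Fin 3 → ℂ := fun k => b k
  have h3 : ∀ᶠ κ in G, (no m (f κ) ∈ Man m ∧ no m (f κ) ∈ Loc m α ∧ nz m α β (no m (f κ)) ≤ e) ∧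
      η ≤ nz m α β (no m (f κ)) ∧
      Ny (Gy m a b 0) ε (sg m α β (no m (f κ))) (uu m α β (no m (f κ))) ≤ κ := by
    filter_upwards [hle hf] with κ ⟨a1, _, _, _, _, _, a7, a8, a9, a10⟩
    obtain ⟨b2, b3, b4⟩ := sc_Loc (β := β) (nf_pos hm a1.1.1) a7
    simp only [nz, no, b3, b4]
    exact ⟨⟨(no_NE hm hφ a1).1, b2, a8⟩, a9, a10⟩
  obtain ⟨sl, sz⟩ := box_lim hm h.fr hs.good hT qL.1.1 (h3.mono fun _ h => h.1)
  have s1 : η ≤ nz m α β q :=
    ge_of_tendsto ((cAt_nz sl).tendsto.comp hT) (h3.mono fun _ h => h.2.1)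
  have cN : ContinuousAt (fun p => Ny (Gy m a b 0) ε (sg m α β p) (uu m α β p)) q := by
    have := cAt_sg (β := β) sl.2
    have := cAt_uu (β := β) sl
    simp only [Ny]
    fun_prop
  have s5 := (hN _ _).trans (le_of_tendsto_of_tendsto (cN.tendsto.comp hT)
    ((hle.trans hFle).trans nhdsWithin_le_nhds : Tendsto id G (𝓝 0)) (h3.mono fun _ h => h.2.2))
  have s6 := mul_nonneg (Gy_pos hm h).le (sq_nonneg (sg m α β q).im)
  have s7 : (uu m α β q).im = 0 :=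
    pow_eq_zero_iff two_ne_zero |>.1 (le_antisymm (by linarith) (sq_nonneg _))
  have s8 : (sg m α β q).im = 0 := pow_eq_zero_iff two_ne_zero |>.1 ((mul_eq_zero.1 (le_antisymm
    (by linarith [sq_nonneg (uu m α β q).im]) s6)).resolve_left (Gy_pos hm h).ne')
  exact not_le.2 hη (s1.trans_eq (rest_of_real hm hφ h hs.good qL qN sl sz s8 s7 q1))

lemma Ny_le {B ε : ℝ} {σ u : ℂ} (hB : 0 ≤ B) (h : normSq σ + normSq u ≤ 1) :
    Ny B ε σ u ≤ 1 + B + |ε| := by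
  rw [normSq_apply, normSq_apply] at h
  have a1 := mul_self_nonneg σ.re
  have a2 := mul_self_nonneg u.re
  have a3 : σ.im ^ 2 ≤ 1 := by linarith [mul_self_nonneg u.im]
  have a4 : |σ.im * u.im| ≤ 1 := abs_le.2 ⟨by linarith [sq_nonneg (σ.im + u.im)],
    by linarith [sq_nonneg (σ.im - u.im)]⟩
  rw [Ny, mul_assoc ε]
  linarith [(le_abs_self _).trans (abs_mul_le (le_refl |ε|) a4), mul_le_mul_of_nonneg_left a3 hB,
    mul_self_nonneg σ.im]

/-- The transverse part decays along the last outgoing leg. -/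
lemma leg_small (hm : ∀ k, 0 < m k) (hφ : IsFlow (YY m) Dom φ) (h : RF m a b) : ∃ ε : ℝ,
    (∀ σ u, (u.im ^ 2 + Gy m a b 0 * σ.im ^ 2) / 2 ≤ Ny (Gy m a b 0) ε σ u) ∧
    ∀ᶠ e in 𝓝[>] (0 : ℝ), ∀ κ, 0 < κ → ∃ D, ∀ p ∈ Kep m e, ∀ t τ, t ≤ τ → (∀ s ∈ Icc t τ,
      φ s p ∈ Loc m (fun k => a k) ∧ nz m (fun k => a k) (fun k => b k) (φ s p) ≤ e ∧
        √(UU m fun k => a k) / 2 ≤ vv m (φ s p)) →
      D ≤ prim (gm m) φ p τ - prim (gm m) φ p t →
      Ny (Gy m a b 0) ε (sg m (fun k => a k) (fun k => b k) (φ τ p))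
        (uu m (fun k => a k) (fun k => b k) (φ τ p)) ≤ κ := by
  have hU := UU_pos hm h.fr.ne
  have v1 := half_pos (Real.sqrt_pos.2 hU)
  obtain ⟨ε, κ1, C, k0, c0, hN, hev⟩ := cNy hm h v1 (Real.sqrt_pos.2 (mul_pos three_pos hU))
  refine ⟨ε, hN, ?_⟩
  filter_upwards [hev, ev_small hm h.fr] with e h1 hs κ hκ
  have B0 := (Gy_pos hm h).le
  generalize (fun k => (b k : ℂ)) = β at *
  generalize (fun k => (a k : ℂ)) = α at *
  generalize Gy m a b 0 = B at *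
  obtain ⟨c, c1, c2⟩ : ∃ c, 0 ≤ c ∧ c * (√(UU m α) / 2) = 2 * C :=
    ⟨2 * C / (√(UU m α) / 2), by positivity, div_mul_cancel₀ _ v1.ne'⟩
  obtain ⟨r, r0, r1, r2⟩ : ∃ r, 0 < r ∧ r ≤ κ1 ∧ 2 * r ≤ √(UU m α) / 2 :=
    ⟨min κ1 (√(UU m α) / 4), by positivity, min_le_left _ _, by
      linarith [min_le_right κ1 (√(UU m α) / 4)]⟩
  refine ⟨(1 + B + |ε| + c * (3 * UU m α)) / (κ * r), fun p hp t τ ht hb hD => ?_⟩
  have hK := flow_Kep hm hφ hp
  have hd := hφ.deriv p hp.1.1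
  have hB := fun s hs' => (hs.bd hm (hK s).1 (hb s hs').1 (hb s hs').2.1).2
  have n0 : ∀ σ u, 0 ≤ Ny B ε σ u := fun σ u => le_trans (by positivity) (hN σ u)
  have b1 := gron (f := fun s => -(Ny B ε (sg m α β (φ s p)) (uu m α β (φ s p))
    + c * om m (φ s p) ^ 2)) (c := -r) ht (hd_prim hφ (fun _ => cAt_gm hm) hp.1.1) fun s hs' => by
      obtain ⟨d, d1, d2⟩ := h1 (fun s => φ s p) s (hK s).1 (hb s hs').1 (hb s hs').2.1
        (hb s hs').2.2 (Real.le_sqrt_of_sq_le (by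
          linarith [hB s hs', (hK s).2.1, sq_nonneg (om m (φ s p))])) (hd s)
      refine ⟨_, (d1.add (((com hm (hK s).1 (hd s)).fun_pow 2).const_mul c)).neg, ?_⟩
      have g0 := gm_nonneg hm (hK s).1.1
      have g1 := mul_nonneg g0 (sq_nonneg (om m (φ s p)))
      simp only [Nat.cast_ofNat, Nat.add_one_sub_one, pow_one]
      linarith [mul_le_mul_of_nonneg_left r1 (mul_nonneg g0 (n0 (sg m α β (φ s p))
        (uu m α β (φ s p)))), mul_le_mul_of_nonneg_left (hb s hs').2.2 (mul_nonneg c1 g1),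
        mul_le_mul_of_nonneg_left r2 (mul_nonneg c1 g1),
        congrArg (fun x => x * (gm m (φ s p) * om m (φ s p) ^ 2)) c2]
  have b2 : Ny B ε (sg m α β (φ t p)) (uu m α β (φ t p)) + c * om m (φ t p) ^ 2
      ≤ 1 + B + |ε| + c * (3 * UU m α) :=
    add_le_add (Ny_le B0 ((hb t ⟨le_rfl, ht⟩).2.1.trans hs.good.2.1)) (mul_le_mul_of_nonneg_left
      (by linarith [hB t ⟨le_rfl, ht⟩, (hK t).2.1, sq_nonneg (vv m (φ t p))]) c1)
  rw [div_le_iff₀' (mul_pos hκ r0)] at hD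
  have b3 := Real.add_one_le_exp (r * (prim (gm m) φ p τ - prim (gm m) φ p t))
  have b4 := mul_le_mul_of_nonneg_right (b2.trans (hD.trans (show _ ≤ κ * Real.exp
    (r * (prim (gm m) φ p τ - prim (gm m) φ p t)) by
      linarith [mul_le_mul_of_nonneg_left b3 hκ.le])))
    (Real.exp_pos (-r * (prim (gm m) φ p τ - prim (gm m) φ p t))).le
  rw [mul_assoc κ, ← Real.exp_add, neg_mul r, add_neg_cancel, Real.exp_zero, ← neg_mul] at b4
  linarith [mul_nonneg c1 (sq_nonneg (om m (φ τ p)))]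

lemma exists_dir {U B : ℝ} (hU : 0 < U) (hB : 0 < B) : ∃ n c : ℝ, 0 < n ∧ 0 < c ∧
    c < 2 * (U + B) * n ^ 2 - (U + B) ^ 2 ∧ ∀ v, v ^ 2 ≤ 2 * U → c < U + B + v * n := by
  obtain ⟨n, n0, hn⟩ : ∃ n, 0 < n ∧ 4 * U * n ^ 2 = (U + B) * (2 * U + B) :=
    ⟨√((U + B) * (2 * U + B) / (4 * U)), by positivity, by
      rw [Real.sq_sqrt (by positivity)]; field_simp⟩
  have h1 : 0 < 2 * (U + B) * n ^ 2 - (U + B) ^ 2 := pos_of_mul_pos_right (a := 2 * U) (by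
    nlinarith [mul_pos hB (pow_pos (add_pos hU hB) 2)]) (by positivity)
  have h2 : √(2 * U * n ^ 2) < U + B := (Real.sqrt_lt' (add_pos hU hB)).2 (by nlinarith)
  refine ⟨n, min (2 * (U + B) * n ^ 2 - (U + B) ^ 2) (U + B - √(2 * U * n ^ 2)) / 2, n0,
    half_pos (lt_min h1 (sub_pos.2 h2)), by
      linarith [min_le_left (2 * (U + B) * n ^ 2 - (U + B) ^ 2) (U + B - √(2 * U * n ^ 2))],
    fun v hv => ?_⟩
  have := (abs_le.1 (Real.abs_le_sqrt (x := v * n) (y := 2 * U * n ^ 2) (by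
    rw [mul_pow]; exact mul_le_mul_of_nonneg_right hv (sq_nonneg _)))).1
  linarith [min_le_right (2 * (U + B) * n ^ 2 - (U + B) ^ 2) (U + B - √(2 * U * n ^ 2))]

theorem euler_main (hm : ∀ k, 0 < m k) (h : RF m a b) : ∃ lam : ℝ, 0 < lam ∧
    ∀ (x : Phys) (c1 c2 : ℂ), c1 ≠ 0 → (rel x.1 = fun k => c1 * a k) →
      (rel x.2 = fun k => c2 * a k) → nq m (rel x.2) / 2 - UU m (rel x.1) < 0 →
      (ip m (rel x.1) (rel x.2)).im ≠ 0 → (ip m (rel x.1) (rel x.2)).im ^ 2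
        * -(nq m (rel x.2) / 2 - UU m (rel x.1)) < lam → x ∈ closure {y | EscP m y} := by
  obtain ⟨φ, hφ⟩ := exists_phi hm
  have hf := h.fr
  obtain ⟨n0, c0, n1, c3, c4, c5⟩ := exists_dir (UU_pos hm hf.ne) (Gy_pos hm h)
  obtain ⟨In, Vt, κ, C, h1⟩ := cone_eul hm hφ h c3 (n0 + 1)
  obtain ⟨ε, hN, h2⟩ := leg_small hm hφ h
  obtain ⟨e, ⟨hc, hi⟩, hl, hs⟩ := (h1.and (h2.and (ev_small hm hf))).exists
  have C0 := hc.c0
  have e4 := hs.good.1
  obtain ⟨η, η0, η1⟩ : ∃ η, 0 < η ∧ C * η < e := ⟨e / (2 * C), by positivity, by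
    rw [← mul_div_assoc, div_lt_iff₀ (by positivity)]; nlinarith [mul_pos C0 e4]⟩
  obtain ⟨κ', hL, κ0⟩ := ((eul_exit hm hφ h hs (div_pos η0 C0) hN).and self_mem_nhdsWithin).exists
  obtain ⟨D, hD⟩ := hl κ' κ0
  obtain ⟨lam, η2, l0, η3, hst⟩ := stop2 hm hφ hf hc hs η0 η1 κ0 D
  refine ⟨min e lam, lt_min e4 l0, fun x c1 c2 h0 h1 h2 h3 h4 h5 => by_contra fun hx => ?_⟩
  obtain ⟨P, z0, hz0, hP⟩ := family hm hf hs (lam := min e lam) h0 h1 h2 h3 h4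
    (lt_min (h5.trans_le (min_le_left _ _)) h5) hφ hx
  clear h1 h2 hN hl
  generalize (fun k => (b k : ℂ)) = β at *
  generalize (fun k => (a k : ℂ)) = α at *
  generalize Gy m a b 0 = B at *
  obtain ⟨p0, -, p1, p2, -, p3, p4, -⟩ := hP.self_of_nhds
  have p5 : vv m (P 0) ^ 2 ≤ 2 * UU m α := by
    have := (FF_loc hm hf p1.1 p2).1
    rw [FF_mcg hm p1.1.1, p3, Prod.fst_zero, Ut_zero] at this
    linarith [WW_nonneg hm (p := P 0), p1.2.1, sq_nonneg (om m (P 0))]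
  have cv : ContinuousAt (fun y => vv m (P y)) 0 := (cAt_vv hm p1.1.1).comp p0
  have hP' : ∀ᶠ y : ℂ × ℂ in 𝓝 0, normSq y.1 + normSq y.2 < min e (η2 / C) ∧
      0 < vv m (P y) - vv m (P 0) + n0 ∧ vv m (P y) - vv m (P 0) + n0 < n0 + 1 ∧
      c0 < UU m α + B + vv m (P y) * (vv m (P y) - vv m (P 0) + n0) ∧
      c0 < 2 * (UU m α + B) * (vv m (P y) - vv m (P 0) + n0) ^ 2 - (UU m α + B) ^ 2 :=
    (ContinuousAt.eventually_lt (by fun_prop) continuousAt_const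
      (lt_of_eq_of_lt (b := 0) (by simp) (by positivity))).and ((ContinuousAt.eventually_lt
        continuousAt_const (by fun_prop) (by simpa)).and ((ContinuousAt.eventually_lt (by fun_prop)
          continuousAt_const (by simp)).and ((ContinuousAt.eventually_lt continuousAt_const
            (by fun_prop) (by simpa using c5 _ p5)).and (ContinuousAt.eventually_lt
              continuousAt_const (by fun_prop) (by simpa using c4)))))
  obtain ⟨r, r0, hr⟩ := Metric.eventually_nhds_iff.1 ((show Continuous fun s : ℝ =>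
    (((s : ℂ), ((s * (n0 - vv m (P 0)) : ℝ) : ℂ)) : ℂ × ℂ) by fun_prop).tendsto' 0 0
      (by simp) |>.eventually (hP.and hP'))
  obtain ⟨g, cg, g0, g1, g2, g3⟩ : ∃ g : ℝ → ℝ, Continuous g ∧ (∀ ξ, 0 ≤ g ξ) ∧
      (∀ ξ, dist (g ξ) 0 < r) ∧ g 0 = 0 ∧ 0 < g 1 := by
    refine ⟨fun ξ => min |ξ| (r / 2), by fun_prop, fun ξ => by positivity, fun ξ => ?_,
      by simp [r0.le, div_nonneg], by positivity⟩
    rw [Real.dist_eq, sub_zero, abs_of_nonneg (by positivity)]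
    exact (min_le_right _ _).trans_lt (half_lt_self r0)
  obtain ⟨Y, hY⟩ : ∃ Y : ℝ → ℂ × ℂ, Y = fun ξ =>
    ((g ξ : ℂ), ((g ξ * (n0 - vv m (P 0)) : ℝ) : ℂ)) := ⟨_, rfl⟩
  have hr' := fun ξ => hr (g1 ξ)
  simp only [← congrFun hY] at hr'
  choose hA hB using hr'
  choose a1 a2 a3 a4 a5 a6 a7 a8 using hA
  have cP : Continuous fun ξ => P (Y ξ) := continuous_iff_continuousAt.2 fun ξ =>
    ContinuousAt.comp (f := Y) (a1 ξ) (by rw [hY]; fun_prop)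
  have hz : ∀ ξ, nz m α β (P (Y ξ)) < min e (η2 / C) := fun ξ => by
    rw [nz, a6, a7]; exact (hB ξ).1
  have hz1 := fun ξ => ((hz ξ).trans_le (min_le_left _ _)).le
  have hK := fun ξ => Kep.mono (a3 ξ) (min_le_left _ _)
  have hI := fun ξ => hi _ (hK ξ) (a4 ξ) (hz1 ξ) _ (g ξ) (g0 ξ) (hB ξ).2.1.le (hB ξ).2.2.1.le
    (hB ξ).2.2.2.1.le (hB ξ).2.2.2.2.le (a6 ξ) (by rw [a7]; congr 1; ring)
  have hV : 0 < Vt (P (Y 1)) := pos_of_mul_pos_right (lt_of_lt_of_le (lt_of_lt_of_le (by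
    rw [a6]; exact normSq_pos.2 (ofReal_ne_zero.2 g3.ne')) sg_le_nz)
      ((hc.bd _ (hK 1) (a4 1) (hz1 1)).2 (hI 1))) C0.le
  obtain ⟨τ, -, τ0, S, S', cS, cS', h⟩ := hst _ hV ℝ _ cP z0 hz0 fun ξ =>
    ⟨Kep.mono (a3 ξ) (min_le_right _ _), a4 ξ, hz1 ξ, hI ξ, (hc.bd _ (hK ξ) (a4 ξ) (hz1 ξ)).1.trans
      ((le_div_iff₀' C0).1 ((hz ξ).le.trans (min_le_right _ _))), a8 ξ⟩
  obtain ⟨ξ, -, b1, b2⟩ := isPreconnected_closed_iff.1 isPreconnected_univ S S' cS cS'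
    (fun ξ _ => (h ξ).2.1) ⟨0, trivial, (h 0).2.1.resolve_right ((h 0).2.2.2.1 (by
      rw [nz, a6, a7]; simp [g2]))⟩ ⟨1, trivial, (h 1).2.2.1 le_rfl⟩
  obtain ⟨d1, d2, d3⟩ := (h ξ).1 _ ⟨τ0 ξ, le_rfl⟩
  obtain ⟨d4, d5, d6, d7, d8, t, ht, d9, d10⟩ := (h ξ).2.2.2.2 b1 b2
  exact not_le.2 (hL _ (flow_NE hm hφ (a2 ξ) (τ0 ξ)) d1.2.1.le d6 d7 d5.le d8 d2 d3
    ((div_le_iff₀' C0).2 (d4.ge.trans (hc.bd _ d1 d2 d3).1))) (hD _ (hK ξ) t _ ht.2 (fun s hs' =>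
      ⟨((h ξ).1 s ⟨ht.1.trans hs'.1, hs'.2⟩).2.1, ((h ξ).1 s ⟨ht.1.trans hs'.1, hs'.2⟩).2.2,
        d9 s hs'⟩) d10)

end Pool.Agent.Lib.MP_6e7c44_mp.Hg
end
end

-- part Pool.Agent.Lib.MP_6e7c44_mp.HFin
section

/-!
All highly eccentric homographic motions are limits of escaping motions.
-/

set_option autoImplicit false

open Set Filter Topology Metric Complex ComplexConjugate

noncomputable section

namespace Pool.Agent.Lib.MP_6e7c44_mp.Hg

variable {m : Fin 3 → ℝ} {α : Fin 3 → ℂ} {K : ℝ}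

/-- The conclusion for the shape `α` and the bound `K`. -/
def Acc (m : Fin 3 → ℝ) (α : Fin 3 → ℂ) (K : ℝ) : Prop := ∀ (x : Phys) (c1 c2 : ℂ), c1 ≠ 0 →
  (rel x.1 = fun k => c1 * α k) → (rel x.2 = fun k => c2 * α k) →
  nq m (rel x.2) / 2 - UU m (rel x.1) < 0 → (ip m (rel x.1) (rel x.2)).im ≠ 0 →
  K * ((ip m (rel x.1) (rel x.2)).im ^ 2 * -(nq m (rel x.2) / 2 - UU m (rel x.1)))
    ≤ 2 * UU m α ^ 2 → x ∈ closure {y | EscP m y}

lemma ev_Acc (h : ∃ lam : ℝ, 0 < lam ∧ ∀ (x : Phys) (c1 c2 : ℂ), c1 ≠ 0 →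
    (rel x.1 = fun k => c1 * α k) → (rel x.2 = fun k => c2 * α k) →
    nq m (rel x.2) / 2 - UU m (rel x.1) < 0 → (ip m (rel x.1) (rel x.2)).im ≠ 0 →
    (ip m (rel x.1) (rel x.2)).im ^ 2 * -(nq m (rel x.2) / 2 - UU m (rel x.1)) < lam →
    x ∈ closure {y | EscP m y}) : ∀ᶠ K in atTop, Acc m α K := by
  obtain ⟨l, l0, h⟩ := h
  filter_upwards [ev_big (2 * UU m α ^ 2) l0, eventually_ge_atTop 0]
    with K h1 h2 x c1 c2 a1 a2 a3 a4 a5 a6
  exact h x c1 c2 a1 a2 a3 a4 a5 (lt_of_mul_lt_mul_left (a6.trans_lt (mul_comm l K ▸ h1)) h2)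

lemma Acc.mul (h : Acc m α K) (h1 : nq m α = 1) {c : ℂ} {A : Fin 3 → ℂ} (h2 : nq m A = 1)
    (h3 : ∀ k, A k = c * α k) : Acc m A K := by
  obtain rfl : A = fun k => c * α k := funext h3
  rw [nq_mul, h1, mul_one, pow_eq_one_iff_of_nonneg (norm_nonneg c) two_ne_zero] at h2
  intro x c1 c2 a1 a2 a3 a4 a5 a6
  rw [UU_mul, h2, inv_one, one_mul] at a6
  exact h x (c1 * c) (c2 * c) (mul_ne_zero a1 (norm_ne_zero_iff.1 (h2.trans_ne one_ne_zero)))
    (by simpa only [mul_assoc] using a2) (by simpa only [mul_assoc] using a3) a4 a5 a6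

theorem acc_all (hm : ∀ k, 0 < m k) : ∀ᶠ K in atTop, ∀ α, IsCC m α → ∑ k, α k = 0 →
    nq m α = 1 → (∀ k, α k ≠ 0) → Acc m α K := by
  obtain ⟨j, hj⟩ : ∃ j : ℂ, j ^ 2 + j + 1 = 0 := ⟨(-1 + √3 * I) / 2, by
    have : ((√3 : ℝ) : ℂ) ^ 2 = 3 := by exact_mod_cast Real.sq_sqrt three_pos.le
    linear_combination I ^ 2 / 4 * this + 3 / 4 * I_sq⟩
  have hj2 : (j ^ 2) ^ 2 + j ^ 2 + 1 = 0 := by linear_combination (j ^ 2 - j + 1) * hj
  have h1 : ∀ s : Fin 3 → Prop, ∀ᶠ K in atTop, ∀ a b, RF m a b → (∀ k, 0 < a k ↔ s k) →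
      Acc m (fun k => a k) K := fun s => by
    by_cases h : ∃ a b, RF m a b ∧ ∀ k, 0 < a k ↔ s k
    swap
    · exact Eventually.of_forall fun K a b h1 h2 => absurd ⟨a, b, h1, h2⟩ h
    obtain ⟨a, b, h1, h2⟩ := h
    refine (ev_Acc (euler_main hm h1)).mono fun K hK a' b' h3 h4 => ?_
    have key : ∀ {a b a' b'}, RF m a b → RF m a' b' → (∀ k, 0 < a k ↔ 0 < a' k) →
        UU m (fun k => a k) ≤ UU m (fun k => a' k) ∧ (UU m (fun k => a' k) ≤ UU m (fun k => a k) →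
          ∃ c : ℂ, ∀ k, (a' k : ℂ) = c * a k) := fun {a b a' b'} h1 h2 h3 => by
      simpa only [h2.fr.na, Real.sqrt_one, one_mul] using cc_min hm h1.cc h1.fr.na h1.fr.ne
        (Q := fun k => a' k) (t := fun k => a' k / a k) (fun k => (h1.ne k).lt_or_gt.elim
          (fun h => div_pos_of_neg_of_neg (lt_of_le_of_ne (not_lt.1 fun h' =>
            lt_asymm h ((h3 k).2 h')) (h2.ne k)) h) fun h => div_pos ((h3 k).1 h) h) one_ne_zero
        (fun k => by have := h1.fr.ne k; push_cast; field_simp) h2.fr.sa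
    obtain ⟨c, hc⟩ := (key h1 h3 fun k => (h2 k).trans (h4 k).symm).2
      (key h3 h1 fun k => (h4 k).trans (h2 k).symm).1
    exact hK.mul h1.fr.na h3.fr.na hc
  filter_upwards [ev_Acc (lagrange_main hm hj), ev_Acc (lagrange_main hm hj2), eventually_all.2 h1]
    with K a1 a2 a3 α b1 b2 b3 b4
  rcases cc_cases b1 hm b4 with h | ⟨w, hw, a, ha⟩
  · obtain ⟨i, rfl | rfl, c, -, -, hc, -⟩ := eqt_shape hm hj (Q := fun _ => α) (V := fun _ _ => 0)
      (t := 0) (fun k => hasDerivAt_const _ _) (fun _ => b2) (by simp) (b4 0) fun _ => h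
    · exact a1.mul (frame_eqt hm hj).na b3 (congrFun hc)
    · exact a2.mul (frame_eqt hm hj2).na b3 (congrFun hc)
  · obtain ⟨b, hb⟩ := exists_RF hm b1 b2 b3 b4 hw ha
    exact (a3 _ a b hb fun _ => Iff.rfl).mul hb.fr.na b3 ha

lemma ratio_const {s s' : ℝ → ℂ} (h : ∀ t, HasDerivAt s (s' t) t) {a b : ℝ} (h1 : ∀ t, ‖s t‖ = a)
    (h2 : ∀ t, ‖-1 - s t‖ = b) (t : ℝ) : s t = s 0 := by
  have e1 : ∀ t, (s t).re * (s t).re + (s t).im * (s t).im = a ^ 2 := fun t => by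
    rw [← h1 t, ← normSq_eq_norm_sq, normSq_apply]
  have e2 : ∀ t, (-1 - (s t).re) * (-1 - (s t).re) + (s t).im * (s t).im = b ^ 2 := fun t => by
    rw [← h2 t, ← normSq_eq_norm_sq, normSq_apply]; simp
  have e3 : ∀ t, (s t).re = (s 0).re := fun t => by linarith [e1 t, e1 0, e2 t, e2 0]
  have e4 : ∀ t, (s t).im * (s t).im = (s 0).im * (s 0).im := fun t => by
    have := e1 t
    rw [e3 t] at this
    linarith [e1 0]
  refine Complex.ext (e3 t) ?_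
  by_cases h0 : (s 0).im = 0
  · rw [h0, ← mul_self_eq_zero, e4, h0, mul_zero]
  refine const_of (f := fun t => (s t).im) (fun t => (hd_im (h t)).congr_deriv ?_) t
  have e5 := ((hd_im (h t)).fun_mul (hd_im (h t))).unique (by
    simp only [e4]; exact hasDerivAt_const _ _)
  refine mul_left_cancel₀ (fun h3 : (s t).im = 0 => h0 ?_) (by linarith)
  rw [← mul_self_eq_zero, ← e4 t, h3, mul_zero]

lemma shape_const {Q V : ℝ → Fin 3 → ℂ} (hQ : ∀ t k, HasDerivAt (fun s => Q s k) (V t k) t)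
    (sQ : ∀ t, ∑ k, Q t k = 0) (h0 : ∀ t, Q t 2 ≠ 0) {d : Fin 3 → ℝ}
    (hd : ∀ t k, ‖Q t k‖ = d k * ‖Q t 2‖) : ∃ X : Fin 3 → ℂ, ∀ t k, Q t k = Q t 2 * X k := by
  have e1 : ∀ t, Q t 1 = Q t 2 * (-1 - Q t 0 / Q t 2) := fun t => by
    have h1 := sQ t
    have := h0 t
    rw [Fin.sum_univ_three] at h1
    field_simp
    linear_combination h1
  have e2 : ∀ t, ‖Q t 0 / Q t 2‖ = d 0 := fun t => by
    rw [norm_div, hd, mul_div_cancel_right₀ _ (norm_ne_zero_iff.2 (h0 t))]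
  have e3 : ∀ t, ‖-1 - Q t 0 / Q t 2‖ = d 1 := fun t => mul_left_cancel₀
    (norm_ne_zero_iff.2 (h0 t)) (by rw [← norm_mul, ← e1, hd, mul_comm])
  have e5 : ∀ t, Q t 0 / Q t 2 = Q 0 0 / Q 0 2 :=
    ratio_const (fun t => (hQ t 0).div (hQ t 2) (h0 t)) e2 e3
  refine ⟨![Q 0 0 / Q 0 2, -1 - Q 0 0 / Q 0 2, 1], fun t k => ?_⟩
  fin_cases k
  · simp [← e5 t, mul_div_cancel₀ _ (h0 t)]
  · simpa [← e5 t] using e1 t
  · simp

theorem homographic_final (hm : ∀ k, 0 < m k) : ∃ K : ℝ, ∀ q v : ℝ → Fin 3 → ℂ,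
    (∀ t a, HasDerivAt (fun s => q s a) (v t a) t) → (∀ t a, HasDerivAt (fun s => v s a)
      (∑ b ∈ Finset.univ.erase a, (m b / ‖q t b - q t a‖ ^ 3) • (q t b - q t a)) t) →
    (∀ t a b, a ≠ b → q t a ≠ q t b) →
    (∃ d : Fin 3 → Fin 3 → ℝ, ∀ t a b, ‖q t a - q t b‖ = d a b * ‖q t 0 - q t 1‖) →
    (∃ T, 0 < T ∧ ∀ t, ‖q (t + T) 0 - q (t + T) 1‖ = ‖q t 0 - q t 1‖) →
    (∃ s t, K * ‖q s 0 - q s 1‖ ≤ ‖q t 0 - q t 1‖) → (q 0, v 0) ∈ closure {y | EscP m y} := by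
  obtain ⟨K, h, K1⟩ := ((acc_all hm).and (eventually_gt_atTop 1)).exists
  refine ⟨K, fun q v hq hv hc ⟨d, hd⟩ ⟨T, hT, hp⟩ ⟨s, t, hK⟩ => ?_⟩
  have hn := rel_newton hq hv
  have n0 := fun t => rel_ne (hc t)
  have e1 : ∀ t, ‖rel (q t) 2‖ = ‖q t 0 - q t 1‖ := fun t => norm_sub_rev _ _
  obtain ⟨X, hX⟩ := shape_const (V := fun t => rel (v t)) (fun t k => (hn t k).1)
    (fun t => sum_rel (q t)) (fun t => n0 t 2) (d := fun k => d (k + 2) (k + 1))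
    fun t k => by rw [e1]; exact hd t _ _
  have hV : ∀ t k, rel (v t) k = rel (v t) 2 * X k := fun t k =>
    (hn t k).1.unique (by simpa only [← hX] using (hn t 2).1.mul_const (X k))
  have hA : ∀ k, acc m (rel (q 0)) k = acc m (rel (q 0)) 2 * X k := fun k =>
    (hn 0 k).2.unique (by simpa only [← hV] using (hn 0 2).2.mul_const (X k))
  have X0 : ∀ k, X k ≠ 0 := fun k h => n0 0 k (by rw [hX, h, mul_zero])
  have X1 : ∑ k, X k = 0 := (mul_eq_zero.1 (by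
    rw [Finset.mul_sum, ← sum_rel (q 0)]; exact Finset.sum_congr rfl fun k _ => (hX 0 k).symm)
    ).resolve_left (n0 0 2)
  obtain ⟨c, c0, c1⟩ : ∃ c : ℝ, 0 < c ∧ c ^ 2 = nq m X := ⟨_, Real.sqrt_pos.2
    (lt_of_not_ge fun h => X0 0 (nq_eq_zero hm h 0)), Real.sq_sqrt (nq_nonneg hm X)⟩
  have c2 := ofReal_ne_zero.2 c0.ne'
  obtain ⟨α, hα⟩ : ∃ α : Fin 3 → ℂ, α = fun k => (c : ℂ)⁻¹ * X k := ⟨_, rfl⟩
  have a0 : ∀ k, α k ≠ 0 := fun k => hα ▸ mul_ne_zero (inv_ne_zero c2) (X0 k)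
  have a1 : ∑ k, α k = 0 := by rw [hα, ← Finset.mul_sum, X1, mul_zero]
  have a2 : nq m α = 1 := by
    rw [hα, nq_mul, ← c1, norm_inv, norm_real, Real.norm_of_nonneg c0.le]; field_simp
  have a3 : ∀ z : ℂ, (fun k => z * X k) = fun k => z * c * α k := fun z => funext fun k => by
    rw [hα]; field_simp
  have hQ := fun t => (funext (hX t)).trans (a3 _)
  have hV' := fun t => (funext (hV t)).trans (a3 _)
  have z0 := fun t => mul_ne_zero (n0 t 2) c2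
  have a4 : wedge α (acc m α) = 0 := by
    have b1 := (funext hA).trans (a3 _)
    generalize acc m (rel (q 0)) 2 * c = w at b1
    rw [hQ 0] at b1
    have b2 := congrFun b1 1
    have b3 := congrFun b1 2
    simp only [acc, ff_mul, ← Finset.mul_sum] at b2 b3
    refine mul_left_cancel₀ (mul_ne_zero (ofReal_ne_zero.2 (inv_ne_zero (pow_ne_zero 3
      (norm_ne_zero_iff.2 (z0 0))))) (z0 0)) ?_
    simp only [wedge, acc]
    linear_combination α 1 * b3 - α 2 * b2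
  have e2 : ∀ t, √(nq m (rel (q t))) = ‖rel (q t) 2 * c‖ := fun t => by
    conv_lhs => rw [hQ t, nq_mul, a2, mul_one, Real.sqrt_sq (norm_nonneg _)]
  obtain ⟨b1, b2, b3⟩ := kepler hm (fun t k => (hn t k).1) (fun t k => (hn t k).2)
    (fun t => sum_rel _) (fun t => sum_rel _) n0 (fun t => by
      rw [wedge, hX t 1, hV t 1, hX t 2, hV t 2]; ring) (U := UU m α) (fun t => by
      rw [e2]
      conv_lhs => rw [congrArg (UU m) (hQ t), UU_mul]
      exact mul_inv_cancel_left₀ (norm_ne_zero_iff.2 (z0 t)) _) hT (fun t => by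
      rw [← Real.sq_sqrt (nq_nonneg hm _), ← Real.sq_sqrt (nq_nonneg hm (rel (q t))), e2, e2,
        norm_mul, norm_mul, e1, e1, hp]) (s := s) (t := t) K1 (by
      rw [e2, e2, norm_mul, norm_mul, e1, e1, ← mul_assoc]; gcongr)
  exact h α (isCC_of_wedge hm a1 a2 a0 a4) a1 a2 a0 _ _ _ (z0 0) (hQ 0) (hV' 0) b1 b2 b3

end Pool.Agent.Lib.MP_6e7c44_mp.Hg
end
end
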