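import Pool.Agent.Lib.MP_6e7c44_mp.HEsc

-- part Pool.Agent.Lib.MP_6e7c44_mp.HEsc2
section

/-!
Collisions are isolated, physical time diverges on compact sets, and orbits in the escape region
escape.
-/

set_option autoImplicit false

open Set Filter Topology Metric Complex ComplexConjugate

noncomputable section

namespace Pool.Agent.Lib.MP_6e7c44_mp.Hg

variable {m : Fin 3 → ℝ} {φ : ℝ → St → St} {p : St} {k : Fin 3}

lemma col_data (hm : ∀ k, 0 < m k) (hp : p ∈ Man m) (hk : p.1 k = 0) :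
    0 < aa p (k + 1) ∧ 0 < aa p (k + 2) ∧ (MM m - m k) * normSq (p.2.1 k) = 2 := by
  have a0 : aa p k = 0 := by simp [aa, hk]
  have b0 : bb p k = 0 := by simp [bb, hk]
  obtain ⟨h1, h2⟩ := aa_pos_of_min (k := k) hp.1 hp.2.1 (a0 ▸ aa_nonneg _ _) (a0 ▸ aa_nonneg _ _)
  have h3 := Gam_eq m p k
  rw [hp.2.2.2, a0, b0, zero_mul, zero_mul, zero_re, mul_zero, add_zero, sub_zero] at h3
  have h4 : EE m p k = 0 := (mul_eq_zero.1 ((mul_eq_zero.1 h3.symm).resolve_right
    (mul_pos h1 h2).ne')).resolve_left (nn_pos hm k).ne'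
  unfold EE at h4
  exact ⟨h1, h2, by linarith⟩

lemma ev_NC (hm : ∀ k, 0 < m k) (hφ : IsFlow (YY m) Dom φ) (hp : p ∈ Man m) (t : ℝ) :
    ∀ᶠ s in 𝓝[≠] t, NC (φ s p) := by
  refine eventually_all.2 fun k => ?_
  have hd := cz (hφ.deriv p hp.1 t) k
  by_cases h : (φ t p).1 k = 0
  · have hq := flow_Man hm hφ hp t
    obtain ⟨h1, h2, h3⟩ := col_data hm hq h
    refine hd.eventually_ne (mul_ne_zero (ofReal_ne_zero.2 (al_pos hq.1).ne') ?_)
    unfold Xz
    rw [h, map_zero, mul_zero, zero_mul, sub_zero]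
    refine div_ne_zero (mul_ne_zero (ofReal_ne_zero.2
      (mul_pos (MM_sub_pos hm k) (mul_pos h1 h2)).ne') fun h4 => ?_) two_ne_zero
    simp [h4] at h3
  · exact mem_nhdsWithin_of_mem_nhds (hd.continuousAt.eventually_ne h)

/-- The rate of physical time. -/
def tf (m : Fin 3 → ℝ) (p : St) : ℝ := al m p * gg p

lemma tf_nonneg (hp : p ∈ Dom) : 0 ≤ tf m p := mul_nonneg (al_pos hp).le (gg_nonneg p)

lemma tf_pos (hp : p ∈ Dom) (hn : NC p) : 0 < tf m p := mul_pos (al_pos hp) hn.gg_pos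

lemma cAt_tf (hm : ∀ k, 0 < m k) (hp : p ∈ Dom) : ContinuousAt (tf m) p :=
  (cAt_al hm hp).mul c_gg.continuousAt

lemma cont_tf (hm : ∀ k, 0 < m k) (hφ : IsFlow (YY m) Dom φ) (hp : p ∈ Dom) :
    Continuous fun s => tf m (φ s p) := continuous_iff_continuousAt.2 fun s =>
  ContinuousAt.comp (g := tf m) (cAt_tf hm (hφ.mem p hp s)) (hφ.cont hp).continuousAt

/-- Physical time along an orbit. -/
def TT (m : Fin 3 → ℝ) (φ : ℝ → St → St) (p : St) (t : ℝ) : ℝ := ∫ s in (0:ℝ)..t, tf m (φ s p)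

lemma cT (hm : ∀ k, 0 < m k) (hφ : IsFlow (YY m) Dom φ) (hp : p ∈ Dom) (t : ℝ) :
    HasDerivAt (TT m φ p) (tf m (φ t p)) t :=
  ((cont_tf hm hφ hp).integral_hasStrictDerivAt 0 t).hasDerivAt

lemma TT_zero : TT m φ p 0 = 0 := intervalIntegral.integral_same

lemma TT_mono (hm : ∀ k, 0 < m k) (hφ : IsFlow (YY m) Dom φ) (hp : p ∈ Dom) :
    Monotone (TT m φ p) := monotone_of_deriv_nonneg (fun t => (cT hm hφ hp t).differentiableAt)
  fun t => by rw [(cT hm hφ hp t).deriv]; exact tf_nonneg (hφ.mem p hp t)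

theorem time_diverges (hm : ∀ k, 0 < m k) (hφ : IsFlow (YY m) Dom φ) {C : Set St}
    (hC : IsCompact C) (hCM : C ⊆ Man m) (h : ∀ t, 0 ≤ t → φ t p ∈ C) :
    Tendsto (TT m φ p) atTop atTop := by
  have hp : p ∈ Man m := by simpa only [hφ.zero] using hCM (h 0 le_rfl)
  have hc : Continuous fun x : C => TT m φ x 1 := by
    refine intervalIntegral.continuous_parametric_intervalIntegral_of_continuous'
      (f := fun (x : C) s => tf m (φ s x)) (continuous_iff_continuousAt.2 fun q => ?_) 0 1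
    exact ContinuousAt.comp (g := tf m) (f := fun y : C × ℝ => φ y.2 y.1)
      (cAt_tf hm (hφ.mem _ (hCM q.1.2).1 _))
      (hφ.comp_contAt continuousAt_snd (continuous_subtype_val.comp continuous_fst).continuousAt
        (hCM q.1.2).1)
  obtain ⟨δ, hδ, h1⟩ := hC.exists_forall_le' (f := fun x => TT m φ x 1) (a := 0)
    (continuousOn_iff_continuous_domRestrict.2 hc) fun x hx => by
      have hx' := hCM hx
      obtain ⟨s, hs, hs'⟩ := (((ev_NC hm hφ hx' 0).filter_mono (nhdsGT_le_nhdsNE 0)).and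
        (Ioo_mem_nhdsGT zero_lt_one)).exists
      have := intervalIntegral.integral_lt_integral_of_continuousOn_of_le_of_exists_lt
        (f := fun _ => 0) (g := fun s => tf m (φ s x)) zero_lt_one continuousOn_const
        (cont_tf hm hφ hx'.1).continuousOn (fun s _ => tf_nonneg (hφ.mem _ hx'.1 s))
        ⟨s, Ioo_subset_Icc_self hs', tf_pos (hφ.mem _ hx'.1 s) hs⟩
      simpa [TT] using this
  have h2 : ∀ n : ℕ, δ * n ≤ TT m φ p n := by
    intro n
    induction n with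
    | zero => simp [TT_zero]
    | succ n ih =>
      have e : TT m φ p (n + 1) = TT m φ p n + TT m φ (φ n p) 1 := by
        unfold TT
        simp only [← hφ.add hp.1]
        rw [intervalIntegral.integral_comp_add_right (fun s => tf m (φ s p)), zero_add,
          add_comm (1:ℝ), intervalIntegral.integral_add_adjacent_intervals
          ((cont_tf hm hφ hp.1).intervalIntegrable _ _)
          ((cont_tf hm hφ hp.1).intervalIntegrable _ _)]
      push_cast
      rw [e]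
      linarith [h1 _ (h n n.cast_nonneg)]
  refine tendsto_atTop_atTop_of_monotone (TT_mono hm hφ hp.1) fun b => ?_
  obtain ⟨n, hn⟩ := exists_nat_ge (b / δ)
  refine ⟨n, le_trans ?_ (h2 n)⟩
  rwa [div_le_iff₀ hδ, mul_comm] at hn

/-- The escape energy of the third body. -/
def GG (m : Fin 3 → ℝ) (p : St) (k : Fin 3) : ℝ :=
  nu m k * (jj m p k / ‖rho m p k‖) ^ 2 / 2 - C3 m k / ‖rho m p k‖

lemma cR (hm : ∀ k, 0 < m k) {γ : ℝ → St} {t : ℝ} (hn : NC (γ t))
    (h : HasDerivAt γ (YY m (γ t)) t) (h0 : rho m (γ t) k ≠ 0) :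
    HasDerivAt (fun s => ‖rho m (γ s) k‖) (tf m (γ t) * (jj m (γ t) k / ‖rho m (γ t) k‖)) t := by
  refine (hd_norm (crho hm hn h) h0).congr_deriv ?_
  rw [mul_left_comm, re_ofReal_mul, tf, jj]; ring

lemma cG (hm : ∀ k, 0 < m k) {γ : ℝ → St} {t : ℝ} (hp : γ t ∈ Man m) (hn : NC (γ t))
    (h : HasDerivAt γ (YY m (γ t)) t) (h0 : rho m (γ t) k ≠ 0) :
    ∃ d, HasDerivAt (fun s => GG m (γ s) k) d t ∧
      (2 * aa (γ t) k ≤ ‖rho m (γ t) k‖ → 0 ≤ jj m (γ t) k → 0 ≤ d) := by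
  have hR := cR hm hn h h0
  have R0 := norm_pos_iff.2 h0
  have hj : HasDerivAt (fun s => jj m (γ s) k) (tf m (γ t) * (normSq (rhd m (γ t) k)
      + (conj (rho m (γ t) k) * rhdd m (γ t) k).re)) t := by
    refine (hd_re ((hd_conj (crho hm hn h)).mul (crhd hm hp hn h))).congr_deriv ?_
    simp only [tf, normSq_apply, add_re, mul_re, mul_im, conj_re, conj_im, ofReal_re, ofReal_im]
    ring
  refine ⟨_, ((((hj.div hR R0.ne').fun_pow 2).const_mul (nu m k)).div_const 2).sub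
    ((hasDerivAt_const t (C3 m k)).div hR R0.ne'), fun h1 h2 => ?_⟩
  have b1 := rhdd_le hm hp.2.1 h1 R0 le_rfl
  have b2 := (abs_le.1 (abs_re_le_norm (conj (rho m (γ t) k) * rhdd m (γ t) k))).1
  rw [norm_mul, norm_conj] at b2
  have b3 := jj_sq_le (m := m) (p := γ t) (k := k)
  have g0 := tf_nonneg (m := m) hp.1
  have e : C3 m k = 4 * MM m * nu m k := by
    have := (MM_pos hm).ne'
    unfold C3 nu; field_simp
  have hν := nu_pos hm k
  simp only [Pi.div_apply]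
  generalize ‖rho m (γ t) k‖ = R at *
  generalize jj m (γ t) k = j at *
  generalize normSq (rhd m (γ t) k) = W at *
  generalize (conj (rho m (γ t) k) * rhdd m (γ t) k).re = a at *
  generalize tf m (γ t) = g at *
  have b4 : -(4 * MM m) ≤ a * R := by
    have := mul_le_mul_of_nonneg_left b1 (mul_pos R0 R0).le
    have e2 : R * R * (4 * MM m / R ^ 2) = 4 * MM m := by field_simp
    nlinarith
  have e3 : nu m k * ((2:ℕ) * (j / R) ^ (2 - 1) * ((g * (W + a) * R - j * (g * (j / R))) / R ^ 2))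
      / 2 - (0 * R - C3 m k * (g * (j / R))) / R ^ 2
      = g * j * nu m k / R ^ 4 * ((R ^ 2 * W - j ^ 2) + R * (a * R + 4 * MM m)) := by
    rw [e]; push_cast; field_simp; ring
  rw [e3]
  have : 0 ≤ R * (a * R + 4 * MM m) := mul_nonneg R0.le (by linarith)
  exact mul_nonneg (by positivity) (by linarith)

lemma aG_le (hm : ∀ k, 0 < m k) (hp : p ∈ Man m) (hn : NC p) (hh : p.2.2 ≤ 0)
    (h : 2 * aa p k ≤ ‖rho m p k‖) (h0 : 0 < ‖rho m p k‖) :
    aa p k * GG m p k ≤ nn m k ∧ mu m k * normSq (Yh m p k) ≤ 2 * nn m k + C3 m k := by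
  have e := energy_split hm hp (hn (k + 1)) (hn (k + 2))
  have a0 := aa_nonneg p k
  have b1 := mul_le_mul_of_nonneg_left (pot_le hm hp.2.1 h h0) a0
  have b2 := mul_nonneg a0 (neg_nonneg.2 hh)
  have b3 : (jj m p k / ‖rho m p k‖) ^ 2 ≤ normSq (rhd m p k) := by
    rw [div_pow, div_le_iff₀ (pow_pos h0 2), mul_comm]; exact jj_sq_le
  have b4 := mul_le_mul_of_nonneg_left b3 (mul_nonneg (nu_pos hm k).le a0)
  have b5 := mul_nonneg (mu_pos hm k).le (normSq_nonneg (Yh m p k))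
  have b6 := mul_nonneg (mul_nonneg (nu_pos hm k).le a0) (normSq_nonneg (rhd m p k))
  have b7 : aa p k * (C3 m k / ‖rho m p k‖) ≤ C3 m k / 2 := by
    rw [← mul_div_assoc, div_le_iff₀ h0]; nlinarith [C3_pos hm k]
  unfold GG
  constructor <;> linarith

theorem escape (hm : ∀ k, 0 < m k) (hφ : IsFlow (YY m) Dom φ) (hp : p ∈ Man m) (hh : p.2.2 ≤ 0)
    (he : p ∈ Esc m) (hn : ∀ t, 0 ≤ t → NC (φ t p)) : Tendsto (TT m φ p) atTop atTop ∧
      ∃ k, Tendsto (fun t => aa (φ t p) k) atTop atTop := by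
  obtain ⟨k, -, -, h3, h4, h5⟩ := mem_iUnion.1 he
  have hM := flow_Man hm hφ hp
  have hd := hφ.deriv p hp.1
  have hc := hφ.cont hp.1
  have hν := nu_pos hm k
  have hμ := mu_pos hm k
  obtain ⟨R0, hR0⟩ : ∃ R0, R0 = ‖rho m p k‖ := ⟨_, rfl⟩
  obtain ⟨G0, hG0⟩ : ∃ G0, G0 = GG m p k := ⟨_, rfl⟩
  have R0p : 0 < R0 := by linarith [aa_nonneg p k]
  have G1 : 2 * nn m k < R0 * G0 := by
    have : R0 * G0 = nu m k * jj m p k ^ 2 / (2 * R0) - C3 m k := by
      rw [hG0, GG, ← hR0]; field_simp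
    rw [this, lt_sub_iff_add_lt, lt_div_iff₀ (by positivity)]
    rw [← hR0] at h5
    linarith
  have G0p : 0 < G0 := (mul_pos_iff_of_pos_left R0p).1 (by linarith [nn_pos hm k])
  have cR' : Continuous fun t => ‖rho m (φ t p) k‖ := ((c_rho m k).comp hc).norm
  have ca' : Continuous fun t => aa (φ t p) k := (c_aa k).comp hc
  have cj' : ∀ t, 0 ≤ t → ContinuousAt (fun t => jj m (φ t p) k) t := fun t ht =>
    ContinuousAt.comp (g := fun p => jj m p k) (cAt_jj (hn t ht _) (hn t ht _)) hc.continuousAt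
  have step : ∀ t, 0 ≤ t → (∀ s ∈ Ico 0 t, 2 * aa (φ s p) k < ‖rho m (φ s p) k‖ ∧
      0 < jj m (φ s p) k) → R0 ≤ ‖rho m (φ t p) k‖ ∧ G0 ≤ GG m (φ t p) k := by
    intro t ht h
    have hR : ∀ s ∈ Icc 0 t, R0 ≤ ‖rho m (φ s p) k‖ := by
      intro s hs
      have h0 : ∀ r ∈ Ioo 0 s, 0 < ‖rho m (φ r p) k‖ := fun r hr => by
        linarith [(h r ⟨hr.1.le, hr.2.trans_le hs.2⟩).1, aa_nonneg (φ r p) k]
      have := mono_Icc hs.1 cR'.continuousOn
        (fun r hr => cR hm (hn r hr.1.le) (hd r) (norm_pos_iff.1 (h0 r hr)))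
        (fun r hr => mul_nonneg (tf_nonneg (hM r).1)
          (div_pos (h r ⟨hr.1.le, hr.2.trans_le hs.2⟩).2 (h0 r hr)).le)
      simpa only [hφ.zero, ← hR0] using this
    refine ⟨hR t ⟨ht, le_rfl⟩, ?_⟩
    have h1 : ∀ s ∈ Icc 0 t, ∃ d, HasDerivAt (fun s => GG m (φ s p) k) d s ∧
        (2 * aa (φ s p) k ≤ ‖rho m (φ s p) k‖ → 0 ≤ jj m (φ s p) k → 0 ≤ d) := fun s hs =>
      cG hm (hM s) (hn s hs.1) (hd s) (norm_pos_iff.1 (R0p.trans_le (hR s hs)))
    choose! d hd1 hd2 using h1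
    have := mono_Icc' ht hd1 fun s hs => hd2 s (Ioo_subset_Icc_self hs)
      (h s ⟨hs.1.le, hs.2⟩).1.le (h s ⟨hs.1.le, hs.2⟩).2.le
    simpa only [hφ.zero, ← hG0] using this
  have inv : ∀ t, 0 ≤ t → 2 * aa (φ t p) k < ‖rho m (φ t p) k‖ ∧ 0 < jj m (φ t p) k := by
    refine real_ind (fun t ht h => ?_) fun t ht h => ?_
    · exact (ContinuousAt.eventually_lt (continuousAt_const.mul ca'.continuousAt)
        cR'.continuousAt h.1).and (continuousAt_const.eventually_lt (cj' t ht) h.2)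
    rcases eq_or_lt_of_le ht with rfl | ht'
    · rw [hφ.zero]; exact ⟨h3, h4⟩
    obtain ⟨b1, b2⟩ := step t ht h
    have b3 : 2 * aa (φ t p) k - ‖rho m (φ t p) k‖ ≤ 0 := closure_le ht'
      (f := fun t => 2 * aa (φ t p) k - ‖rho m (φ t p) k‖)
      ((continuousAt_const.mul ca'.continuousAt).sub cR'.continuousAt)
      fun s hs => by linarith [(h s hs).1]
    have b4 : -jj m (φ t p) k ≤ 0 := closure_le ht' (f := fun t => -jj m (φ t p) k)
      (cj' t ht).neg fun s hs => by linarith [(h s hs).2]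
    have b5 := (aG_le hm (hM t) (hn t ht) ((flow_h hφ hp.1 t).trans_le hh) (by linarith)
      (R0p.trans_le b1)).1
    have b6 := mul_le_mul_of_nonneg_left b2 (aa_nonneg (φ t p) k)
    constructor
    · have : 2 * aa (φ t p) k * G0 < R0 * G0 := by linarith
      linarith [lt_of_mul_lt_mul_right this G0p.le]
    · refine lt_of_le_of_ne (by linarith) fun h0 => ?_
      have := div_pos (C3_pos hm k) (R0p.trans_le b1)
      rw [GG, ← h0] at b2
      simp at b2
      linarith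
  have st : ∀ t, 0 ≤ t → R0 ≤ ‖rho m (φ t p) k‖ ∧ G0 ≤ GG m (φ t p) k := fun t ht =>
    step t ht fun s hs => inv s hs.1
  have hT := cT hm hφ hp.1
  have hT1 : Tendsto (TT m φ p) atTop atTop := by
    refine tendsto_atTop_atTop_of_monotone (TT_mono hm hφ hp.1) ?_
    by_contra hb
    push Not at hb
    obtain ⟨b, hb⟩ := hb
    have M0 := MM_pos hm
    obtain ⟨W1, hW⟩ : ∃ W1, ∀ t, 0 ≤ t → ‖rhd m (φ t p) k‖ ≤ W1 := by
      refine ⟨‖rhd m p k‖ + 4 * MM m / R0 ^ 2 * b, fun t ht => ?_⟩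
      have h1 : ∀ s ∈ Icc 0 t, HasDerivAt (fun s => rhd m (φ s p) k) _ s := fun s hs =>
        crhd hm (hM s) (hn s hs.1) (hd s)
      have := image_norm_le_of_norm_deriv_right_le_deriv_boundary
        (fun s hs => (h1 s hs).continuousAt.continuousWithinAt)
        (fun s hs => (h1 s (Ico_subset_Icc_self hs)).hasDerivWithinAt)
        (B := fun s => ‖rhd m p k‖ + 4 * MM m / R0 ^ 2 * TT m φ p s) (by simp [hφ.zero, TT_zero])
        (fun s => ((hT s).const_mul _).const_add _) (fun s hs => by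
          rw [norm_mul, norm_real, ← tf, Real.norm_of_nonneg (tf_nonneg (hM s).1), mul_comm]
          exact mul_le_mul_of_nonneg_right (rhdd_le hm (hM s).2.1 (inv s hs.1).1.le R0p
            (st s hs.1).1) (tf_nonneg (hM s).1)) ⟨ht, le_rfl⟩
      refine this.trans ?_
      have := (hb t).le
      gcongr
    have W0 : 0 ≤ W1 := (norm_nonneg _).trans (hW 0 le_rfl)
    obtain ⟨R1, hR1⟩ : ∃ R1, ∀ t, 0 ≤ t → ‖rho m (φ t p) k‖ ≤ R1 := by
      refine ⟨R0 + W1 * b, fun t ht => ?_⟩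
      have h1 : ∀ s ∈ Icc 0 t, HasDerivAt (fun s => rho m (φ s p) k) _ s := fun s hs =>
        crho hm (hn s hs.1) (hd s)
      have := image_norm_le_of_norm_deriv_right_le_deriv_boundary
        (fun s hs => (h1 s hs).continuousAt.continuousWithinAt)
        (fun s hs => (h1 s (Ico_subset_Icc_self hs)).hasDerivWithinAt)
        (B := fun s => R0 + W1 * TT m φ p s) (by simp [hφ.zero, TT_zero, hR0])
        (fun s => ((hT s).const_mul _).const_add _) (fun s hs => by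
          rw [norm_mul, norm_real, ← tf, Real.norm_of_nonneg (tf_nonneg (hM s).1), mul_comm]
          exact mul_le_mul_of_nonneg_right (hW s hs.1) (tf_nonneg (hM s).1)) ⟨ht, le_rfl⟩
      refine this.trans ?_
      have := (hb t).le
      gcongr
    have R1p : 0 < R1 := R0p.trans_le ((st 0 le_rfl).1.trans (hR1 0 le_rfl))
    have r1p : 0 < √(nu m k * R0 ^ 2) := Real.sqrt_pos.2 (by positivity)
    obtain ⟨J1, hJ1⟩ : ∃ J1, J1 = mu m k * R1 + (2 * nn m k + C3 m k) + nu m k * (R1 * W1) :=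
      ⟨_, rfl⟩
    have := time_diverges (p := p) hm hφ (isCompact_Cpt hm r1p (√((mu m k + nu m k) * R1 ^ 2))
      (-p.2.2) (J1 ^ 2 / √(nu m k * R0 ^ 2) - 2 * p.2.2 * √((mu m k + nu m k) * R1 ^ 2)))
      (fun q hq => hq.1) fun t ht => by
        have e := II_split hm (hM t).2.1 k
        have a0 := aa_nonneg (φ t p) k
        have a1 : aa (φ t p) k ≤ R1 := by linarith [(inv t ht).1, hR1 t ht]
        have c1 : √(nu m k * R0 ^ 2) ≤ rr m (φ t p) := by
          refine Real.sqrt_le_iff.2 ⟨(rr_pos hm (hM t).1).le, ?_⟩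
          have := mul_le_mul_of_nonneg_left (pow_le_pow_left₀ R0p.le (st t ht).1 2) hν.le
          linarith [mul_nonneg hμ.le (sq_nonneg (aa (φ t p) k))]
        have c2 : rr m (φ t p) ≤ √((mu m k + nu m k) * R1 ^ 2) := by
          refine Real.le_sqrt_of_sq_le ?_
          have d1 := mul_le_mul_of_nonneg_left (pow_le_pow_left₀ (norm_nonneg _) (hR1 t ht) 2) hν.le
          have d2 := mul_le_mul_of_nonneg_left (pow_le_pow_left₀ a0 a1 2) hμ.le
          linarith
        have c3 : ‖Jc m (φ t p)‖ ≤ J1 := by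
          rw [Jc_split hm (hM t).2.1 (hn t ht (k + 1)) (hn t ht (k + 2)), hJ1]
          refine (norm_add_le _ _).trans (add_le_add ?_ ?_)
          · have d1 := (aG_le hm (hM t) (hn t ht) ((flow_h hφ hp.1 t).trans_le hh)
              (inv t ht).1.le (R0p.trans_le (st t ht).1)).2
            rw [norm_mul, norm_mul, norm_conj, norm_real, Real.norm_of_nonneg hμ.le]
            have d2 : ‖(φ t p).1 k‖ ^ 2 ≤ R1 := by rw [← normSq_eq_norm_sq]; exact a1
            rw [normSq_eq_norm_sq] at d1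
            have d3 : ‖(φ t p).1 k‖ * ‖Yh m (φ t p) k‖ ≤ R1 + ‖Yh m (φ t p) k‖ ^ 2 := by
              nlinarith [sq_nonneg (‖(φ t p).1 k‖ - ‖Yh m (φ t p) k‖),
                sq_nonneg ‖(φ t p).1 k‖, sq_nonneg ‖Yh m (φ t p) k‖]
            have d4 := mul_le_mul_of_nonneg_left d3 hμ.le
            linarith
          · rw [norm_mul, norm_mul, norm_conj, norm_real, Real.norm_of_nonneg hν.le]
            exact mul_le_mul_of_nonneg_left (mul_le_mul (hR1 t ht) (hW t ht) (norm_nonneg _)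
              R1p.le) hν.le
        refine ⟨hM t, c1, c2, by rw [flow_h hφ hp.1, neg_neg], (flow_h hφ hp.1 t).trans_le hh, ?_⟩
        unfold FF
        rw [flow_h hφ hp.1, normSq_eq_norm_sq]
        have d1 : ‖Jc m (φ t p)‖ ^ 2 / rr m (φ t p) ≤ J1 ^ 2 / √(nu m k * R0 ^ 2) := by gcongr
        have d2 := mul_le_mul_of_nonneg_left c2 (neg_nonneg.2 hh)
        linarith
    obtain ⟨t, ht⟩ := (this.eventually_ge_atTop b).exists
    exact absurd (hb t) (not_lt.2 ht)
  refine ⟨hT1, k + 1, ?_⟩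
  obtain ⟨w, w0, hw⟩ : ∃ w, 0 < w ∧ ∀ t, 0 ≤ t → w ≤ jj m (φ t p) k / ‖rho m (φ t p) k‖ := by
    refine ⟨√(2 * G0 / nu m k), Real.sqrt_pos.2 (by positivity), fun t ht => ?_⟩
    have R1 := R0p.trans_le (st t ht).1
    refine Real.sqrt_le_iff.2 ⟨(div_pos (inv t ht).2 R1).le, ?_⟩
    have b2 := (st t ht).2
    have := div_pos (C3_pos hm k) R1
    rw [div_le_iff₀ hν]
    unfold GG at b2
    linarith
  have h6 : Tendsto (fun t => w / 2 * TT m φ p t) atTop atTop :=
    hT1.const_mul_atTop (half_pos w0)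
  refine tendsto_atTop_mono' _ ?_ h6
  filter_upwards [eventually_ge_atTop 0] with t ht
  have := mono_Icc' (f := fun s => ‖rho m (φ s p) k‖ - w * TT m φ p s) ht
    (fun s hs => (cR hm (hn s hs.1) (hd s)
      (norm_pos_iff.1 (R0p.trans_le (st s hs.1).1))).sub ((hT s).const_mul w))
    (fun s hs => by
      have := mul_le_mul_of_nonneg_left (hw s hs.1.le) (tf_nonneg (m := m) (hM s).1)
      linarith)
  simp only [TT_zero, mul_zero, sub_zero] at this
  have h7 := (norm_ge_half hm (hM t).2.1 (inv t ht).1.le).1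
  linarith [norm_nonneg (rho m (φ 0 p) k)]

end Pool.Agent.Lib.MP_6e7c44_mp.Hg
end
end

-- part Pool.Agent.Lib.MP_6e7c44_mp.HDim
section

/-!
Physical initial data, their lifts, the small set of data that end in a binary collision, and the
passage from the escape region to escaping solutions of Newton's equations.
-/

set_option autoImplicit false

open Set Filter Topology Metric Complex ComplexConjugate

noncomputable section

namespace Pool.Agent.Lib.MP_6e7c44_mp.Hg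

abbrev Phys := (Fin 3 → ℂ) × (Fin 3 → ℂ)

def rel (q : Fin 3 → ℂ) (k : Fin 3) : ℂ := q (k + 2) - q (k + 1)
def cm (m : Fin 3 → ℝ) (q : Fin 3 → ℂ) : ℂ := (∑ k, m k * q k) / MM m
def unrel (m : Fin 3 → ℝ) (G : ℂ) (Q : Fin 3 → ℂ) (k : Fin 3) : ℂ :=
  G + (m (k + 2) * Q (k + 1) - m (k + 1) * Q (k + 2)) / MM m

/-- The initial condition has a collision-free forward solution with a distance tending to `∞`. -/
def EscP (m : Fin 3 → ℝ) (x : Phys) : Prop := ∃ Q V : ℝ → Fin 3 → ℂ, Q 0 = x.1 ∧ V 0 = x.2 ∧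
  (∀ t, 0 ≤ t → ∀ a, HasDerivAt (fun s => Q s a) (V t a) t ∧ HasDerivAt (fun s => V s a)
    (∑ b ∈ Finset.univ.erase a, (m b / ‖Q t b - Q t a‖ ^ 3) • (Q t b - Q t a)) t) ∧
  (∀ t, 0 ≤ t → ∀ a b, a ≠ b → Q t a ≠ Q t b) ∧
  ∃ a b, Tendsto (fun t => ‖Q t a - Q t b‖) atTop atTop

variable {m : Fin 3 → ℝ} {φ : ℝ → St → St} {p : St}

lemma sum_rel (q : Fin 3 → ℂ) : ∑ k, rel q k = 0 := by
  rw [sum3 _ 0]; simp only [rel, f11, f12, f21, f22]; ring

lemma rel_unrel (hm : ∀ k, 0 < m k) (G : ℂ) {Q : Fin 3 → ℂ} (h : ∑ k, Q k = 0) :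
    rel (unrel m G Q) = Q := by
  have a1 : (MM m : ℂ) ≠ 0 := ofReal_ne_zero.2 (MM_pos hm).ne'
  funext k
  rw [sum3 _ k] at h
  simp only [rel, unrel, f11, f12, f21, f22]
  field_simp
  rw [MM_eq m k]
  push_cast
  linear_combination -(m k : ℂ) * h

lemma unrel_rel (hm : ∀ k, 0 < m k) (q : Fin 3 → ℂ) : unrel m (cm m q) (rel q) = q := by
  have a1 : (MM m : ℂ) ≠ 0 := ofReal_ne_zero.2 (MM_pos hm).ne'
  funext k
  simp only [rel, unrel, cm, f11, f12, f21, f22, sum3 _ k]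
  field_simp
  rw [MM_eq m k]
  push_cast
  ring

lemma ff_neg (x : ℂ) : ff (-x) = -ff x := by simp [ff]

lemma newton_eq (q : Fin 3 → ℂ) (k : Fin 3) :
    ∑ b ∈ Finset.univ.erase k, (m b / ‖q b - q k‖ ^ 3) • (q b - q k)
      = m (k + 1) * ff (rel q (k + 2)) - m (k + 2) * ff (rel q (k + 1)) := by
  have e : ∀ b, (m b / ‖q b - q k‖ ^ 3) • (q b - q k) = m b * ff (q b - q k) := fun b => by
    rw [real_smul, ff]; push_cast; ring
  rw [Finset.sum_erase _ (by simp), sum3 _ k]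
  simp only [e, rel, f12, f21, f22, f11]
  rw [← neg_sub (q (k + 2)) (q k), ff_neg]
  simp [ff, sub_eq_add_neg]

lemma ne_of_rel {q : Fin 3 → ℂ} (h : ∀ k, rel q k ≠ 0) {a b : Fin 3} (hab : a ≠ b) : q a ≠ q b := by
  rcases tri a b with rfl | rfl | rfl
  · exact absurd rfl hab
  · have := h (a + 2)
    rw [rel, f22, f21] at this
    exact fun h1 => this (by rw [h1, sub_self])
  · have := h (a + 1)
    rw [rel, f12, f11] at this
    exact fun h1 => this (by rw [h1, sub_self])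

lemma rel_ne {q : Fin 3 → ℂ} (h : ∀ a b, a ≠ b → q a ≠ q b) (k : Fin 3) : rel q k ≠ 0 :=
  sub_ne_zero.2 (h _ _ (by revert k; decide))

lemma TT_add (hm : ∀ k, 0 < m k) (hφ : IsFlow (YY m) Dom φ) (hp : p ∈ Dom) (s t : ℝ) :
    TT m φ p (t + s) = TT m φ p s + TT m φ (φ s p) t := by
  unfold TT
  simp only [← hφ.add hp]
  rw [intervalIntegral.integral_comp_add_right (fun s => tf m (φ s p)), zero_add,
    intervalIntegral.integral_add_adjacent_intervals
    ((cont_tf hm hφ hp).intervalIntegrable _ _) ((cont_tf hm hφ hp).intervalIntegrable _ _)]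

theorem sol_of_orbit (hm : ∀ k, 0 < m k) (hφ : IsFlow (YY m) Dom φ) (hp : p ∈ Man m)
    (hh : p.2.2 ≤ 0) {τ0 : ℝ} (he : φ τ0 p ∈ Esc m) (hn : ∀ t, NC (φ t p)) (G W : ℂ) :
    EscP m (unrel m G (QQ p), unrel m W (VV m p)) := by
  have hM := flow_Man hm hφ hp
  have a1 : (MM m : ℂ) ≠ 0 := ofReal_ne_zero.2 (MM_pos hm).ne'
  obtain ⟨h1, k, h2⟩ := escape hm hφ (hM τ0) ((flow_h hφ hp.1 τ0).trans_le hh) he
    fun t _ => by rw [← hφ.add hp.1]; exact hn _
  have sh : Tendsto (fun t : ℝ => t - τ0) atTop atTop := tendsto_atTop_add_const_right _ _ tendsto_id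
  have h3 : Tendsto (TT m φ p) atTop atTop := by
    refine ((h1.comp sh).atTop_add (tendsto_const_nhds (x := TT m φ p τ0))).congr fun t => ?_
    simp only [Function.comp]
    rw [add_comm, ← TT_add hm hφ hp.1, sub_add_cancel]
  have h4 : Tendsto (fun t => aa (φ t p) k) atTop atTop := by
    refine (h2.comp sh).congr fun t => ?_
    simp only [Function.comp]
    rw [← hφ.add hp.1, sub_add_cancel]
  have hT := cT hm hφ hp.1
  have hpos : ∀ t, 0 < tf m (φ t p) := fun t => tf_pos (hM t).1 (hn t)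
  have hs : StrictMono (TT m φ p) := strictMono_of_deriv_pos fun t => by
    rw [(hT t).deriv]; exact hpos t
  have hc : Continuous (TT m φ p) := continuous_iff_continuousAt.2 fun t => (hT t).continuousAt
  let τ := Function.invFun (TT m φ p)
  have l1 : ∀ s, τ (TT m φ p s) = s := Function.leftInverse_invFun hs.injective
  have l2 : ∀ t, TT m φ p (-1) < t → TT m φ p (τ t) = t := fun t ht => by
    obtain ⟨b, hb⟩ := (h3.eventually_ge_atTop t).exists
    exact Function.invFun_eq (mem_range_of_exists_le_of_exists_ge hc ⟨-1, ht.le⟩ ⟨b, hb⟩)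
  have l3 : TT m φ p (-1) < 0 := by simpa only [TT_zero] using hs (show (-1:ℝ) < 0 by norm_num)
  have l4 : MonotoneOn τ (Ioi (TT m φ p (-1))) := fun a ha b hb hab => by
    rw [← hs.le_iff_le, l2 a ha, l2 b hb]; exact hab
  have l5 : ∀ t, 0 ≤ t → HasDerivAt τ (tf m (φ (τ t) p))⁻¹ t := fun t ht => by
    have h5 := l3.trans_le ht
    refine HasDerivAt.of_local_left_inverse ?_ (hT _) (hpos _).ne' ?_
    · refine continuousAt_of_monotoneOn_of_image_mem_nhds l4 (Ioi_mem_nhds h5) ?_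
      refine mem_of_superset (Ioi_mem_nhds (show -1 < τ t by rw [← hs.lt_iff_lt, l2 t h5]; exact h5))
        fun s hs' => ⟨TT m φ p s, hs hs', l1 s⟩
    · filter_upwards [Ioi_mem_nhds h5] with s hs' using l2 s hs'
  have l6 : τ 0 = 0 := by simpa only [TT_zero] using l1 0
  have l7 : Tendsto τ atTop atTop := by
    refine tendsto_atTop.2 fun b => ?_
    filter_upwards [eventually_ge_atTop (TT m φ p b), eventually_gt_atTop (TT m φ p (-1))]
      with t h5 h6
    rw [← hs.le_iff_le, l2 t h6]; exact h5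
  have dQ : ∀ t, 0 ≤ t → ∀ j, HasDerivAt (fun s => QQ (φ (τ s) p) j) (VV m (φ (τ t) p) j) t :=
    fun t ht j => by
      refine ((cQ (hn _) (hφ.deriv p hp.1 (τ t)) j).scomp t (l5 t ht)).congr_deriv ?_
      have := ofReal_ne_zero.2 (hpos (τ t)).ne'
      rw [real_smul, ← tf]; push_cast; field_simp
  have dV : ∀ t, 0 ≤ t → ∀ j, HasDerivAt (fun s => VV m (φ (τ s) p) j)
      (acc m (QQ (φ (τ t) p)) j) t := fun t ht j => by
    refine ((cV hm (hM _) (hn _) (hφ.deriv p hp.1 (τ t)) j).scomp t (l5 t ht)).congr_deriv ?_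
    have := ofReal_ne_zero.2 (hpos (τ t)).ne'
    rw [real_smul, ← tf]; push_cast; field_simp
  have hr : ∀ t : ℝ, rel (unrel m (G + t * W) (QQ (φ (τ t) p))) = QQ (φ (τ t) p) := fun t =>
    rel_unrel hm _ (sum_QQ (hM _))
  refine ⟨fun t => unrel m (G + t * W) (QQ (φ (τ t) p)), fun t => unrel m W (VV m (φ (τ t) p)),
    by simp [l6, hφ.zero], by simp [l6, hφ.zero], fun t ht a => ⟨?_, ?_⟩,
    fun t _ a b hab => ne_of_rel (fun j => by rw [hr]; exact (hn _).QQ_ne j) hab,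
    k + 2, k + 1, ?_⟩
  · have := (((hasDerivAt_id t).ofReal_comp.mul_const W).const_add G).add
      ((((dQ t ht (a + 1)).const_mul (m (a + 2) : ℂ)).sub
        ((dQ t ht (a + 2)).const_mul (m (a + 1) : ℂ))).div_const (MM m : ℂ))
    refine this.congr_deriv ?_
    simp [unrel]
  · rw [newton_eq, hr]
    have := ((((dV t ht (a + 1)).const_mul (m (a + 2) : ℂ)).sub
        ((dV t ht (a + 2)).const_mul (m (a + 1) : ℂ))).div_const (MM m : ℂ)).const_add W
    refine this.congr_deriv ?_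
    unfold acc
    field_simp
    ring
  · refine (h4.comp l7).congr fun t => ?_
    have := congrFun (hr t) k
    rw [rel] at this
    simp only [Function.comp]
    rw [this, norm_QQ]

/-- The lift of a physical state to the regularised manifold, near the branch `z0`. -/
def lift (m : Fin 3 → ℝ) (z0 : Fin 3 → ℂ) (x : Phys) : St :=
  (fun k => z0 k * exp (log (rel x.1 k / z0 k ^ 2) / 2),
    fun k => conj (z0 k * exp (log (rel x.1 k / z0 k ^ 2) / 2)) * ((rel x.2 k + m k *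
      (-(∑ j, (‖rel x.1 j‖ : ℂ) * rel x.2 j) / (∑ j, m j * ‖rel x.1 j‖ : ℝ))) / MM m),
    nq m (rel x.2) / 2 - UU m (rel x.1))

variable {z0 : Fin 3 → ℂ} {x : Phys}

lemma lift_spec (hm : ∀ k, 0 < m k) (h0 : ∀ k, z0 k ≠ 0) (hx : ∀ k, rel x.1 k ≠ 0) :
    lift m z0 x ∈ Man m ∧ NC (lift m z0 x) ∧ QQ (lift m z0 x) = rel x.1 ∧
      VV m (lift m z0 x) = rel x.2 := by
  have a1 : (MM m : ℂ) ≠ 0 := ofReal_ne_zero.2 (MM_pos hm).ne'
  have hn : NC (lift m z0 x) := fun k => mul_ne_zero (h0 k) (exp_ne_zero _)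
  have hQ : QQ (lift m z0 x) = rel x.1 := by
    funext k
    have := h0 k
    simp only [QQ, lift]
    rw [mul_pow, ← exp_nat_mul, show ((2:ℕ):ℂ) * (log (rel x.1 k / z0 k ^ 2) / 2)
      = log (rel x.1 k / z0 k ^ 2) by push_cast; ring,
      exp_log (div_ne_zero (hx k) (pow_ne_zero _ this))]
    field_simp
  obtain ⟨S, hS⟩ : ∃ S : ℂ, S = -(∑ j, (‖rel x.1 j‖ : ℂ) * rel x.2 j)
    / (∑ j, m j * ‖rel x.1 j‖ : ℝ) := ⟨_, rfl⟩
  have hP : ∀ k, PQ (lift m z0 x) k = (rel x.2 k + m k * S) / MM m := fun k => by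
    have : conj ((lift m z0 x).1 k) ≠ 0 := (map_ne_zero _).2 (hn k)
    rw [PQ, div_eq_iff this, mul_comm, hS]
    rfl
  have hSum : ∑ j, PQ (lift m z0 x) j = S := by
    have := sum_rel x.2
    simp only [hP, Fin.sum_univ_three] at this ⊢
    field_simp
    rw [MM, Fin.sum_univ_three]
    push_cast
    linear_combination this
  have hV : VV m (lift m z0 x) = rel x.2 := by
    funext k
    rw [VV, hSum, hP]
    field_simp
    ring
  have ha : ∀ k, aa (lift m z0 x) k = ‖rel x.1 k‖ := fun k => by rw [← norm_QQ, hQ]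
  refine ⟨⟨Finset.sum_pos (fun k _ => hn.aa_pos k) ⟨0, by simp⟩, ?_, ?_, ?_⟩, hn, hQ, hV⟩
  · have := sum_rel x.1
    rw [← hQ] at this
    exact this
  · have h1 : ((∑ j, m j * ‖rel x.1 j‖ : ℝ) : ℂ) ≠ 0 := ofReal_ne_zero.2 (Finset.sum_pos
      (fun k _ => mul_pos (hm k) (norm_pos_iff.2 (hx k))) ⟨0, by simp⟩).ne'
    rw [eq_div_iff h1] at hS
    unfold SB
    simp only [bb_eq (hn _), hP, ha, Fin.sum_univ_three] at hS ⊢
    push_cast at hS
    field_simp
    linear_combination hS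
  · rw [Gam_NC hm hn, Ug_eq hn, hQ, hV]
    show gg _ * (_ - (nq m (rel x.2) / 2 - UU m (rel x.1))) - _ = 0
    ring

@[fun_prop] lemma c_rel (k : Fin 3) : Continuous fun q => rel q k := by unfold rel; fun_prop

lemma cAt_lift (hm : ∀ k, 0 < m k) (hx : ∀ k, rel x.1 k / z0 k ^ 2 ∈ slitPlane) :
    ContinuousAt (lift m z0) x := by
  have hx' : ∀ k, rel x.1 k ≠ 0 := fun k h => by simpa [h] using hx k
  have h1 : ∀ k, ContinuousAt (fun x : Phys => z0 k * exp (log (rel x.1 k / z0 k ^ 2) / 2)) x :=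
    fun k => continuousAt_const.mul (ContinuousAt.cexp (ContinuousAt.div_const
      (ContinuousAt.clog (f := fun x : Phys => rel x.1 k / z0 k ^ 2)
        (ContinuousAt.div_const (by fun_prop) _) (hx k)) _))
  have h2 : ((∑ j, m j * ‖rel x.1 j‖ : ℝ) : ℂ) ≠ 0 := ofReal_ne_zero.2 (Finset.sum_pos
      (fun k _ => mul_pos (hm k) (norm_pos_iff.2 (hx' k))) ⟨0, by simp⟩).ne'
  have h3 : ContinuousAt (fun x : Phys => -(∑ j, (‖rel x.1 j‖ : ℂ) * rel x.2 j)
      / (∑ j, m j * ‖rel x.1 j‖ : ℝ)) x :=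
    ContinuousAt.div (Continuous.continuousAt (by fun_prop))
      (Continuous.continuousAt (by fun_prop)) h2
  unfold lift
  refine (continuousAt_pi.2 h1).prodMk ((continuousAt_pi.2 fun k => ?_).prodMk ?_)
  · have := h1 k
    exact (continuous_conj.continuousAt.comp this).mul (by fun_prop)
  · refine ContinuousAt.sub (Continuous.continuousAt (by unfold nq; fun_prop)) ?_
    unfold UU
    refine tendsto_finsetSum _ fun k _ => ?_
    exact ContinuousAt.div continuousAt_const (by fun_prop) (norm_pos_iff.2 (hx' k)).ne'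

/-- Locally Lipschitz at a point. -/
def LL {X Y : Type*} [PseudoMetricSpace X] [PseudoMetricSpace Y] (f : X → Y) (x : X) : Prop :=
  ∃ C : NNReal, ∃ t ∈ 𝓝 x, LipschitzOnWith C f t

lemma LL.comp {X Y Z : Type*} [PseudoMetricSpace X] [PseudoMetricSpace Y] [PseudoMetricSpace Z]
    {f : X → Y} {g : Y → Z} {x : X} (hg : LL g (f x)) (hf : LL f x) : LL (fun y => g (f y)) x := by
  obtain ⟨C, t, ht, h⟩ := hg
  obtain ⟨C', t', ht', h'⟩ := hf
  exact ⟨C * C', t' ∩ f ⁻¹' t, inter_mem ht' (h'.continuousOn.continuousAt ht' ht),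
    h.comp (h'.mono inter_subset_left) fun _ hy => hy.2⟩

lemma LL.prod {X Y Z : Type*} [PseudoMetricSpace X] [PseudoMetricSpace Y] [PseudoMetricSpace Z]
    {f : X → Y} {g : X → Z} {x : X} (hf : LL f x) (hg : LL g x) : LL (fun y => (f y, g y)) x := by
  obtain ⟨C, t, ht, h⟩ := hg
  obtain ⟨C', t', ht', h'⟩ := hf
  exact ⟨_, t' ∩ t, inter_mem ht' ht,
    (h'.mono inter_subset_left).prodMk (h.mono inter_subset_right)⟩

abbrev Par := (ℝ × ℂ × ℝ × ℂ × ℝ) × ℂ × ℂ

/-- The states with a collision of the pair `k`. -/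
def col (m : Fin 3 → ℝ) (k : Fin 3) (e : ℂ) (a : ℂ × ℝ × ℂ × ℝ) : St :=
  (fun j => if j = k then 0 else if j = k + 1 then a.1 else e * a.1,
    fun j => if j = k then (√(2 / (MM m - m k)) : ℝ) * exp (a.2.1 * I)
      else if j = k + 1 then a.2.2.1 else e * a.2.2.1, a.2.2.2)

lemma exists_col (hm : ∀ k, 0 < m k) (hp : p ∈ Man m) {k : Fin 3} (hk : p.1 k = 0) :
    ∃ e, (e = I ∨ e = -I) ∧ ∃ a, col m k e a = p := by
  obtain ⟨h1, h2, h3⟩ := col_data hm hp hk
  have z1 : p.1 (k + 1) ≠ 0 := normSq_pos.1 h1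
  have hq := hp.2.1
  have hb := hp.2.2.1
  unfold SQ at hq
  unfold SB bb at hb
  rw [sum3 _ k, hk] at hq hb
  have h4 : (p.1 (k + 2) - I * p.1 (k + 1)) * (p.1 (k + 2) - -I * p.1 (k + 1)) = 0 := by
    linear_combination hq - p.1 (k + 1) ^ 2 * I_sq
  obtain ⟨e, he, h5⟩ : ∃ e, (e = I ∨ e = -I) ∧ p.1 (k + 2) = e * p.1 (k + 1) := by
    rcases mul_eq_zero.1 h4 with h | h
    · exact ⟨I, Or.inl rfl, sub_eq_zero.1 h⟩
    · exact ⟨-I, Or.inr rfl, sub_eq_zero.1 h⟩
  have e2 : e ^ 2 = -1 := by rcases he with rfl | rfl <;> simp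
  have h6 : p.2.1 (k + 2) = e * p.2.1 (k + 1) := by
    rw [h5] at hb
    refine mul_right_cancel₀ z1 ?_
    linear_combination -e * hb + p.2.1 (k + 2) * p.1 (k + 1) * e2
  have h7 : √(2 / (MM m - m k)) = ‖p.2.1 k‖ := by
    rw [Real.sqrt_eq_iff_mul_self_eq (div_pos two_pos (MM_sub_pos hm k)).le (norm_nonneg _),
      div_eq_iff (MM_sub_pos hm k).ne', ← h3, normSq_eq_norm_sq]
    ring
  obtain ⟨n1, n2, n3⟩ := (by decide : ∀ k : Fin 3, k + 1 ≠ k ∧ k + 2 ≠ k ∧ k + 2 ≠ k + 1) k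
  refine ⟨e, he, (p.1 (k + 1), arg (p.2.1 k), p.2.1 (k + 1), p.2.2),
    Prod.ext (funext fun j => ?_) (Prod.ext (funext fun j => ?_) rfl)⟩
  · rcases tri k j with rfl | rfl | rfl <;> simp [col, hk, n1, n2, n3, h5]
  · rcases tri k j with rfl | rfl | rfl <;> simp [col, n1, n2, n3, h6, h7]

def Psi (m : Fin 3 → ℝ) (φ : ℝ → St → St) (k : Fin 3) (e : ℂ) (a : Par) : Phys :=
  (unrel m a.2.1 (QQ (φ a.1.1 (col m k e a.1.2))), unrel m a.2.2 (VV m (φ a.1.1 (col m k e a.1.2))))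

lemma dimH_Psi (hφ : IsFlow (YY m) Dom φ) (k : Fin 3) (e : ℂ) :
    dimH (Psi m φ k e '' {a | col m k e a.1.2 ∈ Dom ∧ NC (φ a.1.1 (col m k e a.1.2))}) ≤ 11 := by
  refine (dimH_image_le_of_locally_lipschitzOn fun a ha => ?_).trans
    ((dimH_mono (subset_univ _)).trans ?_)
  · have h1 : ContDiffAt ℝ 1 (fun a : Par => (a.1.1, col m k e a.1.2)) a := by
      unfold col
      refine ContDiffAt.prodMk (by fun_prop) (ContDiffAt.prodMk (contDiffAt_pi.2 fun j => ?_)
        (ContDiffAt.prodMk (contDiffAt_pi.2 fun j => ?_) (by fun_prop)))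
      · split_ifs <;> fun_prop
      · split_ifs
        · exact contDiffAt_const.mul (ContDiffAt.cexp (by fun_prop))
        · fun_prop
        · fun_prop
    have h2 : LL (fun a : Par => φ a.1.1 (col m k e a.1.2)) a :=
      LL.comp (g := fun p : ℝ × St => φ p.1 p.2) (f := fun a : Par => (a.1.1, col m k e a.1.2))
        (hφ.lip _ ha.1 _) h1.exists_lipschitzOnWith
    have h3 : LL (fun a : Par => a.2) a :=
      ⟨1, univ, univ_mem, LipschitzWith.prod_snd.lipschitzOnWith⟩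
    have h4 : ContDiffAt ℝ 1 (fun b : St × ℂ × ℂ =>
        ((unrel m b.2.1 (QQ b.1), unrel m b.2.2 (VV m b.1)) : Phys))
        (φ a.1.1 (col m k e a.1.2), a.2) := by
      have h5 : ∀ j, ContDiffAt ℝ 1 (fun b : St × ℂ × ℂ => PQ b.1 j)
          (φ a.1.1 (col m k e a.1.2), a.2) := fun j => by
        unfold PQ
        simp only [div_eq_mul_inv]
        exact ContDiffAt.mul (by fun_prop) (ContDiffAt.inv (by fun_prop)
          ((map_ne_zero _).2 (ha.2 j)))
      have h6 : ∀ j, ContDiffAt ℝ 1 (fun b : St × ℂ × ℂ => VV m b.1 j)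
          (φ a.1.1 (col m k e a.1.2), a.2) := fun j =>
        (contDiffAt_const.mul (h5 j)).sub (contDiffAt_const.mul (ContDiffAt.sum fun i _ => h5 i))
      refine ContDiffAt.prodMk (contDiffAt_pi.2 fun j => ?_) (contDiffAt_pi.2 fun j => ?_)
      · unfold unrel QQ; fun_prop
      · have := h6 (j + 1)
        have := h6 (j + 2)
        unfold unrel; fun_prop
    obtain ⟨C, t, ht, h⟩ := LL.comp (g := fun b : St × ℂ × ℂ =>
        ((unrel m b.2.1 (QQ b.1), unrel m b.2.2 (VV m b.1)) : Phys))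
      (f := fun a : Par => (φ a.1.1 (col m k e a.1.2), a.2)) h4.exists_lipschitzOnWith (h2.prod h3)
    exact ⟨C, t, mem_nhdsWithin_of_mem_nhds ht, h⟩
  · rw [Real.dimH_univ_eq_finrank]
    simp

theorem exists_dense (hm : ∀ k, 0 < m k) (hφ : IsFlow (YY m) Dom φ) : ∃ S : Set Phys, Dense S ∧
    ∀ x ∈ S, ∀ p ∈ Man m, NC p → QQ p = rel x.1 → VV m p = rel x.2 → ∀ t, NC (φ t p) := by
  refine ⟨(⋃ k, ⋃ e ∈ ({I, -I} : Set ℂ), Psi m φ k e ''
    {a | col m k e a.1.2 ∈ Dom ∧ NC (φ a.1.1 (col m k e a.1.2))})ᶜ,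
    dense_compl_of_dimH_lt_finrank ?_, fun x hx p hp hn h1 h2 t k hk => hx ?_⟩
  · have : Module.finrank ℝ Phys = 12 := by simp [Module.finrank_pi_fintype]
    rw [this, dimH_iUnion]
    refine lt_of_le_of_lt (iSup_le fun k => ?_) (show (11 : ENNReal) < (12 : ℕ) by norm_num)
    rw [dimH_bUnion (to_countable _)]
    exact iSup₂_le fun e _ => dimH_Psi hφ k e
  · obtain ⟨e, he, a, ha⟩ := exists_col hm (flow_Man hm hφ hp t) hk
    have h3 : φ (-t) (col m k e a) = p := by rw [ha, ← hφ.add hp.1, neg_add_cancel, hφ.zero]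
    refine mem_iUnion.2 ⟨k, mem_iUnion₂.2 ⟨e, he, ((-t, a), cm m x.1, cm m x.2),
      ⟨by rw [ha]; exact hφ.mem p hp.1 t, by rw [h3]; exact hn⟩, ?_⟩⟩
    simp only [Psi, h3, h1, h2, unrel_rel hm]

/-- If the lifted orbit meets the escape region, escaping initial data accumulate. -/
theorem esc_closure (hm : ∀ k, 0 < m k) (hφ : IsFlow (YY m) Dom φ) (h0 : ∀ k, z0 k ≠ 0)
    (hx : ∀ k, rel x.1 k / z0 k ^ 2 ∈ slitPlane) (hh : (lift m z0 x).2.2 < 0) {τ : ℝ}
    (he : φ τ (lift m z0 x) ∈ Esc m) : x ∈ closure {y | EscP m y} := by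
  obtain ⟨S, hS, h⟩ := exists_dense hm hφ
  have hx' : ∀ k, rel x.1 k ≠ 0 := fun k h => by simpa [h] using hx k
  have c := cAt_lift hm hx
  have e1 : ∀ᶠ y in 𝓝 x, φ τ (lift m z0 y) ∈ Esc m :=
    (hφ.comp_contAt continuousAt_const c (lift_spec hm h0 hx').1.1).eventually
      (isOpen_Esc.mem_nhds he)
  have e2 : ∀ᶠ y in 𝓝 x, (lift m z0 y).2.2 < 0 :=
    ContinuousAt.eventually_lt (continuousAt_snd.comp (continuousAt_snd.comp c))
      continuousAt_const hh
  have e3 : ∀ᶠ y : Phys in 𝓝 x, ∀ k, rel y.1 k ≠ 0 := eventually_all.2 fun k =>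
    ContinuousAt.eventually_ne (g := fun y : Phys => rel y.1 k) (by fun_prop) (hx' k)
  rw [mem_closure_iff_frequently]
  refine ((mem_closure_iff_frequently.1 (hS x)).and_eventually (e1.and (e2.and e3))).mono ?_
  rintro y ⟨h1, h2, h3, h4⟩
  obtain ⟨a, b, c, d⟩ := lift_spec (z0 := z0) hm h0 h4
  have := sol_of_orbit hm hφ a h3.le h2 (h y h1 _ a b c d) (cm m y.1) (cm m y.2)
  rwa [c, d, unrel_rel hm, unrel_rel hm] at this

end Pool.Agent.Lib.MP_6e7c44_mp.Hg
end
end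

-- part Pool.Agent.Lib.MP_6e7c44_mp.HLoc
section

/-!
Blown-up variables: size, radial velocity, angular momentum, and the shape relative to a frame.
-/

set_option autoImplicit false

open Set Filter Topology Metric Complex ComplexConjugate

noncomputable section

namespace Pool.Agent.Lib.MP_6e7c44_mp.Hg

variable (m : Fin 3 → ℝ)

def sr (p : St) : ℝ := √(rr m p)
def vv (p : St) : ℝ := (Jc m p).re / sr m p
def om (p : St) : ℝ := (Jc m p).im / sr m p
def mm (p : St) : ℝ := -p.2.2 * rr m p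
def gm (p : St) : ℝ := tf m p / sr m p ^ 3
def WW (p : St) : ℝ := PP m / MM m * normSq (wedge (QQ p) (VV m p)) / rr m p
def vd (p : St) : ℝ := al m p * (Ug m p + 2 * p.2.2 * gg p) / sr m p - gm m p * vv m p ^ 2 / 2

variable {m} {p : St}

lemma sr_pos (hm : ∀ k, 0 < m k) (hp : p ∈ Dom) : 0 < sr m p := Real.sqrt_pos.2 (rr_pos hm hp)
lemma sr_sq : sr m p ^ 2 = rr m p := Real.sq_sqrt (Real.sqrt_nonneg _)
lemma gm_nonneg (hm : ∀ k, 0 < m k) (hp : p ∈ Dom) : 0 ≤ gm m p :=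
  div_nonneg (tf_nonneg hp) (pow_pos (sr_pos hm hp) 3).le
lemma gm_pos (hm : ∀ k, 0 < m k) (hp : p ∈ Dom) (hn : NC p) : 0 < gm m p :=
  div_pos (tf_pos hp hn) (pow_pos (sr_pos hm hp) 3)
lemma WW_nonneg (hm : ∀ k, 0 < m k) : 0 ≤ WW m p :=
  div_nonneg (mul_nonneg (div_pos (PP_pos hm) (MM_pos hm)).le (normSq_nonneg _))
    (Real.sqrt_nonneg _)

lemma FF_mcg (hm : ∀ k, 0 < m k) (hp : p ∈ Dom) :
    FF m p = vv m p ^ 2 + om m p ^ 2 + 2 * mm m p := by
  have := (sr_pos hm hp).ne'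
  unfold FF vv om mm
  rw [← sr_sq, normSq_apply]
  field_simp
  ring

lemma FF_WW (hm : ∀ k, 0 < m k) (hp : p ∈ Man m) (hn : NC p) :
    FF m p = 2 * (rr m p * UU m (QQ p)) - WW m p := by
  rw [FF_eq hm hp hn, WW]; ring

lemma vd_eq (hm : ∀ k, 0 < m k) (hp : p ∈ Man m) (hn : NC p) :
    vd m p = gm m p * (om m p ^ 2 / 2 - mm m p + WW m p / 2) := by
  have h0 := (sr_pos hm hp.1).ne'
  have h1 := FF_mcg hm hp.1
  rw [FF_WW hm hp hn] at h1
  have h2 : al m p * (Ug m p + 2 * p.2.2 * gg p) / sr m p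
      = gm m p * (rr m p * UU m (QQ p) - 2 * mm m p) := by
    rw [Ug_eq hn, gm, tf, mm, ← sr_sq]
    field_simp
    ring
  rw [vd, h2]
  linear_combination gm m p / 2 * h1

@[fun_prop] lemma c_sr : Continuous fun p => sr m p := by unfold sr; fun_prop
@[fun_prop] lemma c_mm : Continuous fun p => mm m p := by unfold mm; fun_prop

lemma cAt_vv (hm : ∀ k, 0 < m k) (hp : p ∈ Dom) : ContinuousAt (vv m) p := by
  have := (sr_pos hm hp).ne'
  unfold vv; fun_prop (disch := assumption)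
lemma cAt_om (hm : ∀ k, 0 < m k) (hp : p ∈ Dom) : ContinuousAt (om m) p := by
  have := (sr_pos hm hp).ne'
  unfold om; fun_prop (disch := assumption)
lemma cAt_gm (hm : ∀ k, 0 < m k) (hp : p ∈ Dom) : ContinuousAt (gm m) p :=
  (cAt_tf hm hp).div (c_sr.continuousAt.pow 3) (pow_pos (sr_pos hm hp) 3).ne'
lemma cAt_vd (hm : ∀ k, 0 < m k) (hp : p ∈ Dom) : ContinuousAt (vd m) p := by
  have := (sr_pos hm hp).ne'
  have := cAt_al hm hp
  have := cAt_gm hm hp
  have := cAt_vv hm hp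
  unfold vd; fun_prop (disch := assumption)

lemma cAt_VV (hn : NC p) (k : Fin 3) : ContinuousAt (fun p => VV m p k) p :=
  (continuousAt_const.mul (cAt_PQ (hn k))).sub (continuousAt_const.mul
    (tendsto_finsetSum _ fun j _ => cAt_PQ (hn j)))

section curve
variable {γ : ℝ → St} {t : ℝ}

lemma csr (hm : ∀ k, 0 < m k) (hp : γ t ∈ Man m) (h : HasDerivAt γ (YY m (γ t)) t) :
    HasDerivAt (fun s => sr m (γ s)) (gm m (γ t) * vv m (γ t) / 2 * sr m (γ t)) t := by
  refine ((crr hm hp h).sqrt (rr_pos hm hp.1).ne').congr_deriv ?_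
  have := (sr_pos hm hp.1).ne'
  rw [gm, vv, tf, ← sr, ← sr_sq]
  field_simp

lemma cvv (hm : ∀ k, 0 < m k) (hp : γ t ∈ Man m) (h : HasDerivAt γ (YY m (γ t)) t) :
    HasDerivAt (fun s => vv m (γ s)) (vd m (γ t)) t := by
  have := (sr_pos hm hp.1).ne'
  refine ((hd_re (cJc hm hp h)).div (csr hm hp h) this).congr_deriv ?_
  rw [ofReal_re, vd, vv]
  field_simp

lemma com (hm : ∀ k, 0 < m k) (hp : γ t ∈ Man m) (h : HasDerivAt γ (YY m (γ t)) t) :
    HasDerivAt (fun s => om m (γ s)) (-(gm m (γ t) * vv m (γ t) / 2 * om m (γ t))) t := by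
  have := (sr_pos hm hp.1).ne'
  refine ((hd_im (cJc hm hp h)).div (csr hm hp h) this).congr_deriv ?_
  rw [ofReal_im, om]
  field_simp
  ring

lemma cmm (hm : ∀ k, 0 < m k) (hp : γ t ∈ Man m) (h : HasDerivAt γ (YY m (γ t)) t) :
    HasDerivAt (fun s => mm m (γ s)) (gm m (γ t) * vv m (γ t) * mm m (γ t)) t := by
  have := (sr_pos hm hp.1).ne'
  refine ((ch h).neg.mul (crr hm hp h)).congr_deriv ?_
  simp only [Pi.neg_apply]
  rw [gm, vv, mm, tf, ← sr_sq]
  field_simp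
  ring

lemma cFF' (hm : ∀ k, 0 < m k) (hp : γ t ∈ Man m) (hn : NC (γ t))
    (h : HasDerivAt γ (YY m (γ t)) t) :
    HasDerivAt (fun s => FF m (γ s)) (gm m (γ t) * vv m (γ t) * WW m (γ t)) t := by
  have := (sr_pos hm hp.1).ne'
  refine (cFF hm hp h).congr_deriv ?_
  rw [Xi_eq hm hp hn, gm, vv, WW, tf, ← sr_sq]
  field_simp

lemma hd_ip {x : Fin 3 → ℂ} {f : ℝ → Fin 3 → ℂ} {f' : Fin 3 → ℂ} {c : ℂ}
    (h : ∀ k, HasDerivAt (fun s => f s k) (c * f' k) t) :
    HasDerivAt (fun s => ip m x (f s)) (c * ip m x f') t := by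
  refine ((HasDerivAt.fun_sum (u := Finset.univ) fun k _ =>
    ((h k).const_mul (conj (x k))).const_mul (nn m k : ℂ)).div_const (MM m : ℂ)).congr_deriv ?_
  simp only [ip, Fin.sum_univ_three]
  ring

end curve

/-- An orthonormal frame of the space of relative configurations. -/
structure Frame (m : Fin 3 → ℝ) (α β : Fin 3 → ℂ) : Prop where
  sa : ∑ k, α k = 0
  sb : ∑ k, β k = 0
  na : nq m α = 1
  nb : nq m β = 1
  ab : ip m α β = 0
  ne : ∀ k, α k ≠ 0

variable {α β : Fin 3 → ℂ}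

lemma ip_conj (x y : Fin 3 → ℂ) : ip m y x = conj (ip m x y) := by
  simp only [ip, map_div₀, map_sum, map_mul, conj_ofReal, conj_conj, mul_comm]

lemma ip_lin (x y z : Fin 3 → ℂ) (a b : ℂ) :
    ip m x (fun k => y k * a + z k * b) = ip m x y * a + ip m x z * b := by
  simp only [ip, Fin.sum_univ_three]; ring

lemma Frame.aa (h : Frame m α β) : ip m α α = 1 := by rw [ip_self, h.na]; rfl
lemma Frame.bb (h : Frame m α β) : ip m β β = 1 := by rw [ip_self, h.nb]; rfl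
lemma Frame.ba (h : Frame m α β) : ip m β α = 0 := by rw [ip_conj, h.ab, map_zero]

lemma Frame.wedge_nsq (hm : ∀ k, 0 < m k) (h : Frame m α β) :
    PP m / MM m * normSq (wedge α β) = 1 := by
  rw [← lagrange hm h.sa h.sb, h.na, h.nb, h.ab]; simp

lemma Frame.dec (hm : ∀ k, 0 < m k) (h : Frame m α β) {Q : Fin 3 → ℂ} (hQ : ∑ k, Q k = 0) :
    Q = fun k => α k * ip m α Q + β k * ip m β Q := by
  have h0 : wedge α β ≠ 0 := fun h1 => by simpa [h1] using h.wedge_nsq hm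
  have sa := h.sa
  have sb := h.sb
  simp only [Fin.sum_univ_three] at sa sb hQ
  have h1 : Q = fun k => α k * (wedge Q β / wedge α β) + β k * (wedge α Q / wedge α β) := by
    funext k
    field_simp
    unfold wedge
    fin_cases k
    · show Q 0 * _ = α 0 * _ + β 0 * _
      linear_combination (α 1 * β 2 - α 2 * β 1) * hQ - (Q 1 * β 2 - Q 2 * β 1) * sa
        - (α 1 * Q 2 - α 2 * Q 1) * sb
    · show Q 1 * _ = α 1 * _ + β 1 * _
      ring
    · show Q 2 * _ = α 2 * _ + β 2 * _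
      ring
  have h2 : ip m α Q = wedge Q β / wedge α β := by
    conv_lhs => rw [h1]
    rw [ip_lin, h.aa, h.ab]; ring
  have h3 : ip m β Q = wedge α Q / wedge α β := by
    conv_lhs => rw [h1]
    rw [ip_lin, h.bb, h.ba]; ring
  rw [h2, h3]
  exact h1

lemma Frame.ip_eq (hm : ∀ k, 0 < m k) (h : Frame m α β) (Q : Fin 3 → ℂ) {V : Fin 3 → ℂ}
    (hV : ∑ k, V k = 0) :
    ip m Q V = conj (ip m α Q) * ip m α V + conj (ip m β Q) * ip m β V := by
  conv_lhs => rw [h.dec hm hV]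
  rw [ip_lin, ip_conj α Q, ip_conj β Q]

lemma Frame.nq_eq (hm : ∀ k, 0 < m k) (h : Frame m α β) {Q : Fin 3 → ℂ} (hQ : ∑ k, Q k = 0) :
    nq m Q = normSq (ip m α Q) + normSq (ip m β Q) := by
  have := h.ip_eq hm Q hQ
  rw [ip_self, ← normSq_eq_conj_mul_self, ← normSq_eq_conj_mul_self] at this
  exact_mod_cast this

lemma Frame.wedge_eq (hm : ∀ k, 0 < m k) (h : Frame m α β) {Q V : Fin 3 → ℂ} (hQ : ∑ k, Q k = 0)
    (hV : ∑ k, V k = 0) : PP m / MM m * normSq (wedge Q V)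
      = normSq (ip m α Q * ip m β V - ip m β Q * ip m α V) := by
  have : wedge Q V = wedge α β * (ip m α Q * ip m β V - ip m β Q * ip m α V) := by
    conv_lhs => rw [h.dec hm hQ, h.dec hm hV]
    unfold wedge; ring
  rw [this, map_mul, ← mul_assoc, h.wedge_nsq hm, one_mul]

/-- The second vector of the frame determined by `α`. -/
def bt (m : Fin 3 → ℝ) (α : Fin 3 → ℂ) (k : Fin 3) : ℂ :=
  ((√(PP m * MM m))⁻¹ : ℝ) * (nn m (k + 1) * conj (α (k + 1)) - nn m (k + 2) * conj (α (k + 2)))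

lemma frame_bt (hm : ∀ k, 0 < m k) (h1 : ∑ k, α k = 0) (h2 : nq m α = 1) (h3 : ∀ k, α k ≠ 0) :
    Frame m α (bt m α) := by
  refine ⟨h1, ?_, h2, ?_, ?_, h3⟩
  · simp only [bt, Fin.sum_univ_three, Fin.reduceAdd]; ring
  · have hM := (MM_pos hm).ne'
    have hP := mul_pos (PP_pos hm) (MM_pos hm)
    rw [Fin.sum_univ_three] at h1
    have h0 : α 0 = -α 1 - α 2 := by linear_combination h1
    have e : ((√(PP m * MM m))⁻¹ : ℝ) * (√(PP m * MM m))⁻¹ * (PP m * MM m) = 1 := by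
      rw [← mul_inv, Real.mul_self_sqrt hP.le, inv_mul_cancel₀ hP.ne']
    unfold nq bt at *
    simp only [map_mul, normSq_ofReal]
    generalize ((√(PP m * MM m))⁻¹ : ℝ) = c at *
    rw [div_eq_one_iff_eq hM] at h2 ⊢
    unfold nn PP MM at *
    simp only [Fin.sum_univ_three, h0, normSq_apply, Fin.reduceAdd, mul_re, mul_im,
      sub_re, sub_im, neg_re, neg_im, conj_re, conj_im, ofReal_re, ofReal_im] at h2 e ⊢
    linear_combination (c * c * (m 0 * m 1 * m 2 * (m 0 + m 1 + m 2))) * h2 + (m 0 + m 1 + m 2) * e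
  · simp only [ip, bt, Fin.sum_univ_three, Fin.reduceAdd]; ring

variable (m α β)

def q1 (p : St) : ℂ := ip m α (QQ p)
def sg (p : St) : ℂ := ip m β (QQ p) / q1 m α p
def uu (p : St) : ℂ := (sr m p ^ 3 : ℝ) *
  (q1 m α p * ip m β (VV m p) - ip m β (QQ p) * ip m α (VV m p)) / q1 m α p ^ 2
def Gs (σ : ℂ) : ℂ := -((√(1 + normSq σ) ^ 3 : ℝ) *
  ∑ k, nn m k * ((conj (β k) - conj (α k) * σ) * ff (α k + β k * σ)))
def Ut (σ : ℂ) : ℝ := √(1 + normSq σ) * UU m (fun k => α k + β k * σ)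
def Loc : Set St := {p | NC p ∧ q1 m α p ≠ 0}

variable {m α β}

@[fun_prop] lemma c_ipQ (x : Fin 3 → ℂ) : Continuous fun p => ip m x (QQ p) := by
  unfold ip; fun_prop
@[fun_prop] lemma c_q1 : Continuous fun p => q1 m α p := c_ipQ α

lemma isOpen_Loc : IsOpen (Loc m α) := isOpen_NC.inter (isOpen_ne_fun c_q1 continuous_const)

lemma cAt_ipV (hn : NC p) (x : Fin 3 → ℂ) : ContinuousAt (fun p => ip m x (VV m p)) p :=
  ContinuousAt.div_const (tendsto_finsetSum _ fun k _ =>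
    continuousAt_const.mul (continuousAt_const.mul (cAt_VV hn k))) _

lemma cAt_sg (hp : q1 m α p ≠ 0) : ContinuousAt (sg m α β) p := by
  unfold sg; fun_prop (disch := assumption)

lemma cAt_uu (hp : p ∈ Loc m α) : ContinuousAt (uu m α β) p := by
  have h1 := cAt_ipV (m := m) hp.1 α
  have h2 := cAt_ipV (m := m) hp.1 β
  have h3 : Continuous fun p => ((sr m p ^ 3 : ℝ) : ℂ) := continuous_ofReal.comp (c_sr.pow 3)
  exact (h3.continuousAt.mul ((c_q1.continuousAt.mul h2).sub ((c_ipQ β).continuousAt.mul h1))).div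
    (c_q1.continuousAt.pow 2) (pow_ne_zero 2 hp.2)

lemma QQ_loc (hm : ∀ k, 0 < m k) (h : Frame m α β) (hq : SQ p = 0) (h0 : q1 m α p ≠ 0)
    (k : Fin 3) : QQ p k = q1 m α p * (α k + β k * sg m α β p) := by
  rw [congrFun (h.dec hm (Q := QQ p) hq) k, sg]
  unfold q1 at *
  field_simp

lemma rr_loc (hm : ∀ k, 0 < m k) (h : Frame m α β) (hq : SQ p = 0) (h0 : q1 m α p ≠ 0) :
    rr m p = ‖q1 m α p‖ * √(1 + normSq (sg m α β p)) := by
  have h1 := normSq_pos.2 h0
  have h2 := normSq_nonneg (sg m α β p)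
  rw [rr, II_eq, h.nq_eq hm (Q := QQ p) hq, Complex.norm_def, ← Real.sqrt_mul h1.le, sg, map_div₀]
  congr 1
  unfold q1 at *
  field_simp

lemma Ut_eq (hm : ∀ k, 0 < m k) (h : Frame m α β) (hq : SQ p = 0) (h0 : q1 m α p ≠ 0) :
    rr m p * UU m (QQ p) = Ut m α β (sg m α β p) := by
  have := (norm_pos_iff.2 h0).ne'
  rw [rr_loc hm h hq h0, Ut, UU, UU]
  simp only [QQ_loc hm h hq h0, norm_mul, Fin.sum_univ_three, div_eq_mul_inv, mul_inv]
  field_simp

lemma WW_loc (hm : ∀ k, 0 < m k) (h : Frame m α β) (hp : p ∈ Man m) (h0 : q1 m α p ≠ 0) :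
    WW m p = normSq (uu m α β p) / (1 + normSq (sg m α β p)) ^ 2 := by
  have h1 := (norm_pos_iff.2 h0).ne'
  have h2 := normSq_nonneg (sg m α β p)
  have h3 := (sr_pos hm hp.1).ne'
  have h4 : (1 + normSq (sg m α β p)) = sr m p ^ 4 / ‖q1 m α p‖ ^ 2 := by
    rw [show sr m p ^ 4 = (sr m p ^ 2) ^ 2 by ring, sr_sq, rr_loc hm h hp.2.1 h0, mul_pow,
      Real.sq_sqrt (by linarith)]
    field_simp
  rw [WW, h.wedge_eq hm (sum_QQ hp) (sum_VV p), uu, map_div₀, map_mul, normSq_ofReal, map_pow,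
    normSq_eq_norm_sq (q1 m α p), h4, ← sr_sq]
  unfold q1 at *
  field_simp

lemma ip_acc (hm : ∀ k, 0 < m k) {x : Fin 3 → ℂ} (hx : ∑ k, x k = 0) (Q : Fin 3 → ℂ) :
    ip m x (acc m Q) = -∑ k, nn m k * (conj (x k) * ff (Q k)) := by
  have a1 : (MM m : ℂ) ≠ 0 := ofReal_ne_zero.2 (MM_pos hm).ne'
  have h1 := congrArg conj hx
  rw [ip, div_eq_iff a1]
  simp only [acc, nn, Fin.sum_univ_three, Fin.reduceAdd, map_add, map_zero] at h1 ⊢
  push_cast
  linear_combination (m 0 * m 1 * m 2) * (ff (Q 0) + ff (Q 1) + ff (Q 2)) * h1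

lemma ff_mul (a b : ℂ) : ff (a * b) = ((‖a‖ ^ 3)⁻¹ : ℝ) * a * ff b := by
  simp only [ff, norm_mul, mul_pow, mul_inv]; push_cast; ring

section curve
variable {γ : ℝ → St} {t : ℝ}

lemma csg (hm : ∀ k, 0 < m k) (hp : γ t ∈ Man m) (hl : γ t ∈ Loc m α)
    (h : HasDerivAt γ (YY m (γ t)) t) :
    HasDerivAt (fun s => sg m α β (γ s)) (gm m (γ t) * uu m α β (γ t)) t := by
  refine ((hd_ip (x := β) (cQ hl.1 h)).div (hd_ip (x := α) (cQ hl.1 h)) hl.2).congr_deriv ?_
  have h1 := ofReal_ne_zero.2 (sr_pos hm hp.1).ne'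
  have h2 := hl.2
  rw [gm, uu, tf]
  unfold q1 at *
  push_cast
  field_simp

lemma cuu (hm : ∀ k, 0 < m k) (hf : Frame m α β) (hp : γ t ∈ Man m) (hl : γ t ∈ Loc m α)
    (h : HasDerivAt γ (YY m (γ t)) t) : HasDerivAt (fun s => uu m α β (γ s)) (gm m (γ t) *
      (-(vv m (γ t) / 2 * uu m α β (γ t)) - 2 * I * om m (γ t) * uu m α β (γ t)
        + 2 * conj (sg m α β (γ t)) * uu m α β (γ t) ^ 2 / (1 + normSq (sg m α β (γ t)) : ℝ)
        + Gs m α β (sg m α β (γ t)))) t := by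
  have d1 := hd_ip (m := m) (x := α) (cQ hl.1 h)
  have d2 := hd_ip (m := m) (x := β) (cQ hl.1 h)
  have d3 := hd_ip (m := m) (x := α) (cV hm hp hl.1 h)
  have d4 := hd_ip (m := m) (x := β) (cV hm hp hl.1 h)
  refine (((((csr hm hp h).fun_pow 3).ofReal_comp).mul ((d1.mul d4).sub (d2.mul d3))).div
    (d1.fun_pow 2) (pow_ne_zero 2 hl.2)).congr_deriv ?_
  simp only [Pi.mul_apply, Pi.sub_apply, Nat.add_one_sub_one, pow_one, Nat.cast_ofNat]
  generalize γ t = p at hp hl ⊢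
  have h1 := ofReal_ne_zero.2 (sr_pos hm hp.1).ne'
  have h2 := hl.2
  have h3 := ofReal_ne_zero.2 (norm_pos_iff.2 h2).ne'
  have h4 : ip m β (QQ p) = q1 m α p * sg m α β p := by rw [sg]; field_simp
  have h5 : (vv m p : ℂ) + I * om m p = (conj (q1 m α p) * ip m α (VV m p)
      + conj (q1 m α p * sg m α β p) * ip m β (VV m p)) / sr m p := by
    rw [← h4, q1, ← hf.ip_eq hm _ (sum_VV p), ← Jc_eq hm hp.2.1 hl.1, vv, om]
    push_cast
    field_simp
    rw [mul_comm, re_add_im]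
  have h6 := rr_loc hm hf hp.2.1 h2
  have h7 := Real.sq_sqrt (show 0 ≤ 1 + normSq (sg m α β p) by
    linarith [normSq_nonneg (sg m α β p)])
  have h8 : conj (q1 m α p) = (‖q1 m α p‖ : ℂ) ^ 2 / q1 m α p := by
    rw [eq_div_iff h2, mul_comm, mul_conj, normSq_eq_norm_sq]; push_cast; rfl
  have h9 : (normSq (sg m α β p) : ℂ) = sg m α β p * conj (sg m α β p) := (mul_conj _).symm
  rw [← sr_sq] at h6
  rw [ip_acc hm hf.sa, ip_acc hm hf.sb, Gs, ← tf, gm, uu, h4, ← q1]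
  simp only [QQ_loc hm hf hp.2.1 h2, ff_mul, Fin.sum_univ_three]
  obtain ⟨s, hs⟩ : ∃ s, s = √(1 + normSq (sg m α β p)) := ⟨_, rfl⟩
  rw [← hs] at h6 h7 ⊢
  have hs0 : (s : ℂ) ≠ 0 := ofReal_ne_zero.2 fun h0 => by
    rw [h0] at h7; linarith [normSq_nonneg (sg m α β p)]
  have g6 := congrArg (fun x : ℝ => (x : ℂ)) h6
  have g7 := congrArg (fun x : ℝ => (x : ℂ)) h7
  rw [← h7]
  push_cast at g6 g7 ⊢
  rw [h9] at g7
  rw [map_mul, h8] at h5
  have g5 : I * (om m p : ℂ) = _ := eq_sub_of_add_eq' h5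
  have g8 : (‖q1 m α p‖ : ℂ) = sr m p ^ 2 / s := by rw [g6]; field_simp
  rw [mul_assoc 2 I, g5, g8]
  generalize ff (α 0 + β 0 * sg m α β p) = f0
  generalize ff (α 1 + β 1 * sg m α β p) = f1
  generalize ff (α 2 + β 2 * sg m α β p) = f2
  generalize q1 m α p = q at h2 ⊢
  generalize (sr m p : ℂ) = r at h1 ⊢
  generalize ip m α (VV m p) = a
  generalize ip m β (VV m p) = b
  generalize (s : ℂ) = s at hs0 g7 ⊢
  field_simp
  linear_combination (-4 * (tf m p : ℂ) * r ^ 6 * a * (b - sg m α β p * a)) * g7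

end curve

end Pool.Agent.Lib.MP_6e7c44_mp.Hg
end
end
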