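import Pool.Agent.Lib.MP_6e7c44_mp.HSym

/-!
The physical variables of a regularised state, and compactness of the normalised levels.
-/

set_option autoImplicit false

open Set Filter Topology Metric Complex ComplexConjugate

noncomputable section

namespace Pool.Agent.Lib.MP_6e7c44_mp.Hg

variable (m : Fin 3 → ℝ)

def ff (x : ℂ) : ℂ := ((‖x‖ ^ 3)⁻¹ : ℝ) * x
def acc (Q : Fin 3 → ℂ) (k : Fin 3) : ℂ := -(MM m * ff (Q k)) + m k * ∑ j, ff (Q j)
def ip (x y : Fin 3 → ℂ) : ℂ := (∑ k, nn m k * (conj (x k) * y k)) / MM m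
def nq (x : Fin 3 → ℂ) : ℝ := (∑ k, nn m k * normSq (x k)) / MM m
def UU (Q : Fin 3 → ℂ) : ℝ := ∑ k, nn m k / ‖Q k‖
def wedge (x y : Fin 3 → ℂ) : ℂ := x 1 * y 2 - x 2 * y 1
def QQ (p : St) (k : Fin 3) : ℂ := p.1 k ^ 2
def PQ (p : St) (k : Fin 3) : ℂ := p.2.1 k / conj (p.1 k)
def VV (p : St) (k : Fin 3) : ℂ := MM m * PQ p k - m k * ∑ j, PQ p j
def NC (p : St) : Prop := ∀ k, p.1 k ≠ 0

lemma ip_self (x : Fin 3 → ℂ) : ip m x x = nq m x := by
  unfold ip nq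
  push_cast
  simp only [normSq_eq_conj_mul_self]

variable {m}

lemma lagrange (hm : ∀ k, 0 < m k) {x y : Fin 3 → ℂ} (hx : ∑ k, x k = 0) (hy : ∑ k, y k = 0) :
    nq m x * nq m y - normSq (ip m x y) = PP m / MM m * normSq (wedge x y) := by
  have hM := (MM_pos hm).ne'
  rw [Fin.sum_univ_three] at hx hy
  have h1 : x 0 = -x 1 - x 2 := by linear_combination hx
  have h2 : y 0 = -y 1 - y 2 := by linear_combination hy
  unfold nq ip wedge
  rw [map_div₀, normSq_ofReal]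
  field_simp
  unfold nn PP MM
  simp only [Fin.sum_univ_three, h1, h2, normSq_apply, Fin.reduceAdd, mul_re, mul_im, add_re,
    add_im, sub_re, sub_im, neg_re, neg_im, conj_re, conj_im, ofReal_re, ofReal_im]
  ring

lemma nq_nonneg (hm : ∀ k, 0 < m k) (x : Fin 3 → ℂ) : 0 ≤ nq m x :=
  div_nonneg (Finset.sum_nonneg fun j _ => mul_nonneg (nn_pos hm j).le (normSq_nonneg _))
    (MM_pos hm).le

lemma nq_eq_zero (hm : ∀ k, 0 < m k) {x : Fin 3 → ℂ} (h : nq m x ≤ 0) (k : Fin 3) : x k = 0 := by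
  unfold nq at h
  rw [div_le_iff₀ (MM_pos hm), zero_mul] at h
  have h1 := Finset.single_le_sum (f := fun k => nn m k * normSq (x k))
    (fun j _ => mul_nonneg (nn_pos hm j).le (normSq_nonneg _)) (Finset.mem_univ k)
  have h2 : normSq (x k) ≤ 0 := by
    by_contra h3
    have := mul_pos (nn_pos hm k) (not_le.1 h3)
    linarith
  exact normSq_eq_zero.1 (le_antisymm h2 (normSq_nonneg _))

variable {p : St}

lemma norm_QQ (k : Fin 3) : ‖QQ p k‖ = aa p k := by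
  unfold QQ aa; rw [norm_pow, normSq_eq_norm_sq]

lemma nsq_QQ (k : Fin 3) : normSq (QQ p k) = aa p k ^ 2 := by
  rw [normSq_eq_norm_sq, norm_QQ]

lemma NC.aa_pos (h : NC p) (k : Fin 3) : 0 < aa p k := normSq_pos.2 (h k)

lemma NC.gg_pos (h : NC p) : 0 < gg p := mul_pos (mul_pos (h.aa_pos _) (h.aa_pos _)) (h.aa_pos _)

lemma NC.QQ_ne (h : NC p) (k : Fin 3) : QQ p k ≠ 0 := pow_ne_zero _ (h k)

lemma NC_of_gg (h : gg p ≠ 0) : NC p := fun k hk => h (by rw [gg_eq p k]; simp [aa, hk])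

lemma isOpen_NC : IsOpen {p : St | NC p} := by
  have : {p : St | NC p} = {p | gg p ≠ 0} := by
    ext p; exact ⟨fun h => (NC.gg_pos h).ne', NC_of_gg⟩
  rw [this]
  exact isOpen_ne_fun c_gg continuous_const

lemma sum_QQ (hp : p ∈ Man m) : ∑ k, QQ p k = 0 := hp.2.1

lemma sum_VV (p : St) : ∑ k, VV m p k = 0 := by
  unfold VV
  rw [Finset.sum_sub_distrib, ← Finset.mul_sum, ← Finset.sum_mul, MM]
  push_cast; ring

lemma II_eq : II m p = nq m (QQ p) := by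
  unfold II nq; simp only [nsq_QQ]

lemma bb_eq {k : Fin 3} (h : p.1 k ≠ 0) : bb p k = aa p k * PQ p k := by
  have : conj (p.1 k) ≠ 0 := (map_ne_zero _).2 h
  rw [aa_coe]; unfold bb PQ; field_simp

lemma y_eq {k : Fin 3} (h : p.1 k ≠ 0) : p.2.1 k = conj (p.1 k) * PQ p k := by
  have : conj (p.1 k) ≠ 0 := (map_ne_zero _).2 h
  unfold PQ; field_simp

lemma nsq_y {k : Fin 3} (h : p.1 k ≠ 0) : normSq (p.2.1 k) = aa p k * normSq (PQ p k) := by
  rw [y_eq h, map_mul, normSq_conj]; rfl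

lemma Jc_eq (hm : ∀ k, 0 < m k) (hq : SQ p = 0) (h : NC p) : Jc m p = ip m (QQ p) (VV m p) := by
  have hM : (MM m : ℂ) ≠ 0 := ofReal_ne_zero.2 (MM_pos hm).ne'
  have h1 := congrArg conj hq
  unfold SQ at h1
  unfold Jc ip VV QQ
  rw [eq_div_iff hM]
  simp only [Fin.sum_univ_three, map_add, map_pow, map_zero, y_eq (h _), nn, Fin.reduceAdd]
    at h1 ⊢
  push_cast
  linear_combination (m 0 * m 1 * m 2) * (PQ p 0 + PQ p 1 + PQ p 2) * h1

lemma Ug_eq (h : NC p) : Ug m p = gg p * UU m (QQ p) := by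
  have h0 := (h.aa_pos 0).ne'
  have h1 := (h.aa_pos 1).ne'
  have h2 := (h.aa_pos 2).ne'
  unfold Ug UU gg
  simp only [Fin.sum_univ_three, norm_QQ, Fin.reduceAdd]
  field_simp

lemma Gam_NC (hm : ∀ k, 0 < m k) (h : NC p) :
    Gam m p = gg p * (nq m (VV m p) / 2 - p.2.2) - Ug m p := by
  have hM := (MM_pos hm).ne'
  unfold Gam Ug nq EE VV gg
  simp only [bb_eq (h _), nsq_y (h _)]
  field_simp
  unfold nn PP MM
  simp only [Fin.sum_univ_three, normSq_apply, Fin.reduceAdd, mul_re, mul_im, add_re,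
    add_im, sub_re, sub_im, conj_re, conj_im, ofReal_re, ofReal_im]
  ring

lemma energy (hm : ∀ k, 0 < m k) (hp : p ∈ Man m) (h : NC p) :
    nq m (VV m p) / 2 - UU m (QQ p) = p.2.2 := by
  have h1 := Gam_NC hm h
  rw [hp.2.2.2, Ug_eq h] at h1
  have := h.gg_pos
  have h2 : gg p * (nq m (VV m p) / 2 - UU m (QQ p) - p.2.2) = 0 := by linarith
  rcases mul_eq_zero.1 h2 with h3 | h3 <;> linarith

lemma Xi_eq (hm : ∀ k, 0 < m k) (hp : p ∈ Man m) (h : NC p) :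
    Xi m p = gg p * (PP m / MM m * normSq (wedge (QQ p) (VV m p))) := by
  rw [← lagrange hm (sum_QQ hp) (sum_VV p), Xi, Ug_eq h, II_eq, Jc_eq hm hp.2.1 h,
    ← energy hm hp h]
  ring

lemma Xi_nonneg (hm : ∀ k, 0 < m k) (hp : p ∈ Man m) : 0 ≤ Xi m p := by
  by_cases h : gg p = 0
  · unfold Xi
    rw [h]
    have := mul_nonneg (II_nonneg hm p) (Ug_nonneg hm p)
    linarith
  · rw [Xi_eq hm hp (NC_of_gg h)]
    exact mul_nonneg (gg_nonneg p) (mul_nonneg (div_pos (PP_pos hm) (MM_pos hm)).le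
      (normSq_nonneg _))

lemma FF_eq (hm : ∀ k, 0 < m k) (hp : p ∈ Man m) (h : NC p) : FF m p = 2 * rr m p * UU m (QQ p)
    - PP m / MM m * normSq (wedge (QQ p) (VV m p)) / rr m p := by
  have := (rr_pos hm hp.1).ne'
  rw [← lagrange hm (sum_QQ hp) (sum_VV p), FF, ← II_eq, Jc_eq hm hp.2.1 h, ← energy hm hp h,
    ← rr_sq hm]
  field_simp
  ring

lemma ff_QQ {k : Fin 3} (h : p.1 k ≠ 0) :
    ff (QQ p k) = (aa p k * conj (p.1 k) ^ 2 : ℂ)⁻¹ := by
  have : conj (p.1 k) ≠ 0 := (map_ne_zero _).2 h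
  unfold ff
  rw [norm_QQ]
  push_cast
  rw [aa_coe]
  unfold QQ
  field_simp

section curve
variable {γ : ℝ → St} {t : ℝ}

lemma cQ (hn : NC (γ t)) (h : HasDerivAt γ (YY m (γ t)) t) (k : Fin 3) :
    HasDerivAt (fun s => QQ (γ s) k) ((al m (γ t) * gg (γ t) : ℝ) * VV m (γ t) k) t := by
  refine ((cz h k).fun_pow 2).congr_deriv ?_
  set p := γ t
  have h0 : conj (p.1 k) ≠ 0 := (map_ne_zero _).2 (hn k)
  unfold Xz VV CC
  rw [sum3 _ k, gg_eq p k, bb_eq (hn _), bb_eq (hn _), y_eq (hn k)]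
  push_cast
  rw [aa_coe p k]
  ring

lemma cP (hm : ∀ k, 0 < m k) (hp : γ t ∈ Man m) {k : Fin 3} (hn : (γ t).1 k ≠ 0)
    (h : HasDerivAt γ (YY m (γ t)) t) : HasDerivAt (fun s => PQ (γ s) k)
      (-((al m (γ t) * gg (γ t) : ℝ) * ff (QQ (γ t) k)) - al m (γ t) * m k * bet m (γ t)) t := by
  have h0 : conj ((γ t).1 k) ≠ 0 := (map_ne_zero _).2 hn
  refine ((cy h k).div (hd_conj (cz h k)) h0).congr_deriv ?_
  set p := γ t
  have h1 := congrArg (fun x : ℝ => (x : ℂ)) (Gam_eq m p k)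
  have hre : ∀ w : ℂ, ((w.re : ℝ) : ℂ) = (w + conj w) / 2 := fun w => by
    rw [add_conj]; push_cast; ring
  have hn0 : (nn m k : ℂ) ≠ 0 := ofReal_ne_zero.2 (nn_pos hm k).ne'
  rw [hp.2.2.2, ← nn_mul m k] at h1
  rw [ff_QQ hn, gg_eq p k]
  unfold Xy X0 Xz
  unfold EE bb at h1
  simp only [map_mul, map_sub, map_div₀, conj_ofReal, conj_conj, map_ofNat]
  push_cast at h1 ⊢
  simp only [hre, map_mul, conj_conj, ← mul_conj] at h1
  rw [aa_coe p k] at h1 ⊢
  field_simp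
  linear_combination 2 * (al m p : ℂ) * h1

lemma cV (hm : ∀ k, 0 < m k) (hp : γ t ∈ Man m) (hn : NC (γ t))
    (h : HasDerivAt γ (YY m (γ t)) t) (k : Fin 3) : HasDerivAt (fun s => VV m (γ s) k)
      ((al m (γ t) * gg (γ t) : ℝ) * acc m (QQ (γ t)) k) t := by
  refine (((cP hm hp (hn k) h).const_mul (MM m : ℂ)).sub ((HasDerivAt.fun_sum
    (u := Finset.univ) fun j _ => cP hm hp (hn j) h).const_mul (m k : ℂ))).congr_deriv ?_
  unfold acc MM
  simp only [Fin.sum_univ_three]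
  push_cast
  ring

end curve

/-- The part of the constraint that is quadratic in `y`. -/
def quad (m : Fin 3 → ℝ) (p : St) : ℝ :=
  Gam m p + Ug m p + p.2.2 * gg p + normSq (SB p) + normSq (Jc m p)

lemma quad_smul (z y : Fin 3 → ℂ) (h c : ℝ) :
    quad m (z, c • y, h) = c ^ 2 * quad m (z, y, 0) := by
  unfold quad Gam Ug SB Jc EE bb gg aa
  simp only [Fin.sum_univ_three, Pi.smul_apply, real_smul, normSq_apply, Fin.reduceAdd, mul_re,
    mul_im, add_re, add_im, conj_re, conj_im, ofReal_re, ofReal_im]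
  ring

lemma quad_pos (hm : ∀ k, 0 < m k) (hp : p ∈ Dom) (hq : SQ p = 0) (hy : p.2.1 ≠ 0) :
    0 < quad m p := by
  by_contra h0
  have h1 : quad m p ≤ 0 := not_lt.1 h0
  have n1 := normSq_nonneg (SB p)
  have n2 := normSq_nonneg (Jc m p)
  unfold quad at h1
  apply hy
  by_cases hn : NC p
  · rw [Gam_NC hm hn] at h1
    have h2 := mul_nonneg hn.gg_pos.le (nq_nonneg hm (VV m p))
    have h3 : nq m (VV m p) ≤ 0 := by
      by_contra h4
      have := mul_pos hn.gg_pos (not_le.1 h4)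
      linarith
    have h4 : SB p = 0 := normSq_eq_zero.1 (by linarith)
    have h5 := nq_eq_zero hm h3
    have hM : (MM m : ℂ) ≠ 0 := ofReal_ne_zero.2 (MM_pos hm).ne'
    have h6 : (den m p : ℂ) * ∑ j, PQ p j = 0 := by
      have a0 := h5 0
      have a1 := h5 1
      have a2 := h5 2
      unfold VV at a0 a1 a2
      unfold SB at h4
      unfold den
      simp only [bb_eq (hn _)] at h4
      generalize ∑ j, PQ p j = S at *
      simp only [Fin.sum_univ_three] at h4 ⊢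
      push_cast
      linear_combination MM m * h4 - aa p 0 * a0 - aa p 1 * a1 - aa p 2 * a2
    have h7 := (mul_eq_zero.1 h6).resolve_left (ofReal_ne_zero.2 (den_pos hm hp).ne')
    funext k
    have h8 := h5 k
    unfold VV at h8
    rw [h7, mul_zero, sub_zero] at h8
    rw [y_eq (hn k), (mul_eq_zero.1 h8).resolve_left hM, mul_zero]
    rfl
  · obtain ⟨k, hk⟩ : ∃ k, p.1 k = 0 := by
      by_contra h2
      exact hn fun k hk => h2 ⟨k, hk⟩
    have a0 : aa p k = 0 := by simp [aa, hk]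
    have b0 : bb p k = 0 := by simp [bb, hk]
    unfold SQ at hq
    rw [sum3 _ k, hk] at hq
    have a1 : aa p (k + 1) = aa p (k + 2) := by
      have : p.1 (k + 1) ^ 2 = -p.1 (k + 2) ^ 2 := by linear_combination hq
      have := congrArg norm this
      rw [norm_neg, norm_pow, norm_pow] at this
      unfold aa
      rw [normSq_eq_norm_sq, normSq_eq_norm_sq, this]
    have a2 : 0 < aa p (k + 2) := by
      have : 0 < s2 p := hp
      unfold s2 at this
      rw [sum3 _ k] at this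
      linarith
    have e : Gam m p + Ug m p + p.2.2 * gg p
        = nn m k * (MM m - m k) * aa p (k + 2) ^ 2 / 2 * normSq (p.2.1 k) := by
      rw [Gam_eq m p k, gg_eq p k]
      unfold Ug EE
      rw [sum3 _ k]
      simp only [f11, f12, f21, f22, a0, b0, a1, zero_mul, zero_re]
      ring
    rw [e] at h1
    have c0 : 0 < nn m k * (MM m - m k) * aa p (k + 2) ^ 2 / 2 := by
      have := nn_pos hm k
      have := MM_sub_pos hm k
      positivity
    have c1 := mul_nonneg c0.le (normSq_nonneg (p.2.1 k))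
    have y0 : p.2.1 k = 0 := by
      have : nn m k * (MM m - m k) * aa p (k + 2) ^ 2 / 2 * normSq (p.2.1 k) = 0 := by linarith
      exact normSq_eq_zero.1 ((mul_eq_zero.1 this).resolve_left c0.ne')
    have h4 : SB p = 0 := normSq_eq_zero.1 (by linarith)
    have h5 : Jc m p = 0 := normSq_eq_zero.1 (by linarith)
    unfold SB bb at h4
    unfold Jc at h5
    rw [sum3 _ k, hk] at h4 h5
    have z2 : p.1 (k + 2) ≠ 0 := normSq_pos.1 a2
    have z1 : p.1 (k + 1) ≠ 0 := normSq_pos.1 (a2.trans_eq a1.symm)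
    have a3 := congrArg (fun x : ℝ => (x : ℂ)) a1
    simp only [aa_coe] at a3
    have hc : (nn m (k + 1) + nn m (k + 2) : ℂ) ≠ 0 := by
      exact_mod_cast (add_pos (nn_pos hm (k + 1)) (nn_pos hm (k + 2))).ne'
    have h6 : (nn m (k + 1) + nn m (k + 2) : ℂ) * (conj (p.1 (k + 1)) * p.1 (k + 2) ^ 2)
        * p.2.1 (k + 1) = 0 := by
      rw [map_zero] at h5
      linear_combination p.1 (k + 2) ^ 2 * h5
        - nn m (k + 2) * conj (p.1 (k + 2)) * p.1 (k + 2) * h4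
        - nn m (k + 2) * p.2.1 (k + 1) * p.1 (k + 1) * a3
        + nn m (k + 2) * p.2.1 (k + 1) * conj (p.1 (k + 1)) * hq
    have y1 : p.2.1 (k + 1) = 0 := (mul_eq_zero.1 h6).resolve_left
      (mul_ne_zero hc (mul_ne_zero ((map_ne_zero _).2 z1) (pow_ne_zero _ z2)))
    have y2 : p.2.1 (k + 2) = 0 := by
      rw [y1, y0] at h4
      simpa [z2] using h4
    funext j
    rcases tri k j with h | h | h <;> rw [h] <;> assumption

lemma aa_le (hm : ∀ k, 0 < m k) (p : St) (k : Fin 3) : nn m k * aa p k ^ 2 ≤ MM m * rr m p ^ 2 := by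
  rw [rr_sq hm, II, mul_div_cancel₀ _ (MM_pos hm).ne']
  exact Finset.single_le_sum (f := fun k => nn m k * aa p k ^ 2)
    (fun j _ => mul_nonneg (nn_pos hm j).le (sq_nonneg _)) (Finset.mem_univ k)

lemma isCompact_Z (hm : ∀ k, 0 < m k) (r1 R : ℝ) :
    IsCompact {z : Fin 3 → ℂ | SQ (z, 0, 0) = 0 ∧ r1 ≤ rr m (z, 0, 0) ∧ rr m (z, 0, 0) ≤ R} := by
  have c1 : Continuous fun z : Fin 3 → ℂ => SQ (z, 0, 0) := by fun_prop
  have c2 : Continuous fun z : Fin 3 → ℂ => rr m (z, 0, 0) := by fun_prop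
  refine Metric.isCompact_of_isClosed_isBounded ((isClosed_eq c1 continuous_const).inter
    ((isClosed_le continuous_const c2).inter (isClosed_le c2 continuous_const))) ?_
  have hs : 0 ≤ ∑ k, MM m * R ^ 2 / nn m k := Finset.sum_nonneg fun k _ =>
    div_nonneg (mul_nonneg (MM_pos hm).le (sq_nonneg _)) (nn_pos hm k).le
  refine isBounded_iff_forall_norm_le.2 ⟨1 + ∑ k, MM m * R ^ 2 / nn m k, fun z hz =>
    (pi_norm_le_iff_of_nonneg (by linarith)).2 fun k => ?_⟩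
  have h1 := aa_le hm (z, 0, 0) k
  have h2 : rr m (z, 0, 0) ^ 2 ≤ R ^ 2 := pow_le_pow_left₀ (Real.sqrt_nonneg _) hz.2.2 2
  have h3 : aa (z, 0, 0) k ^ 2 ≤ MM m * R ^ 2 / nn m k := by
    rw [le_div_iff₀ (nn_pos hm k)]
    nlinarith [MM_pos hm]
  have h4 := Finset.single_le_sum (f := fun k => MM m * R ^ 2 / nn m k) (fun k _ =>
    div_nonneg (mul_nonneg (MM_pos hm).le (sq_nonneg _)) (nn_pos hm k).le) (Finset.mem_univ k)
  have h5 : aa (z, 0, 0) k = ‖z k‖ ^ 2 := normSq_eq_norm_sq _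
  rw [h5] at h3
  nlinarith [sq_nonneg (‖z k‖ ^ 2 - 1), sq_nonneg (‖z k‖ - 1), norm_nonneg (z k)]

lemma mem_Z {r1 R : ℝ} (h1 : SQ p = 0) (h2 : r1 ≤ rr m p) (h3 : rr m p ≤ R) :
    p.1 ∈ {z : Fin 3 → ℂ | SQ (z, 0, 0) = 0 ∧ r1 ≤ rr m (z, 0, 0) ∧ rr m (z, 0, 0) ≤ R} := by
  have e1 : rr m (p.1, 0, 0) = rr m p := by simp only [rr, II, aa]
  have e2 : SQ (p.1, 0, 0) = SQ p := by simp only [SQ]
  simp only [mem_ofPred_eq, e1, e2]
  exact ⟨h1, h2, h3⟩

lemma quad_lower0 (hm : ∀ k, 0 < m k) {r1 : ℝ} (hr : 0 < r1) (R : ℝ) : ∃ δ : ℝ, 0 < δ ∧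
    ∀ z y : Fin 3 → ℂ, SQ (z, 0, 0) = 0 → r1 ≤ rr m (z, 0, 0) → rr m (z, 0, 0) ≤ R → ‖y‖ = 1 →
      δ ≤ quad m (z, y, 0) := by
  have cq : Continuous (quad m) := by unfold quad; fun_prop
  have cF : Continuous fun x : (Fin 3 → ℂ) × (Fin 3 → ℂ) => ((x.1, x.2, 0) : St) :=
    continuous_fst.prodMk (continuous_snd.prodMk continuous_const)
  have hK := ((isCompact_Z hm r1 R).prod (isCompact_sphere (0 : Fin 3 → ℂ) 1)).image cF
  obtain ⟨δ, hδ, hq⟩ := hK.exists_forall_le' (a := 0) cq.continuousOn (by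
    rintro _ ⟨⟨z, y⟩, ⟨⟨h1, h2, -⟩, h3⟩, rfl⟩
    have e1 : rr m (z, y, 0) = rr m (z, 0, 0) := by simp only [rr, II, aa]
    have e2 : SQ (z, y, 0) = SQ (z, 0, 0) := by simp only [SQ]
    dsimp only at h1 h2 h3 ⊢
    refine quad_pos hm (mem_Dom_of_rr (m := m) (by rw [e1]; linarith)) (e2.trans h1) fun h => ?_
    have h4 : y = 0 := h
    simp [h4] at h3)
  exact ⟨δ, hδ, fun z y h1 h2 h3 h4 => hq _ ⟨(z, y), ⟨⟨h1, h2, h3⟩, by simpa using h4⟩, rfl⟩⟩

lemma quad_lower (hm : ∀ k, 0 < m k) {r1 : ℝ} (hr : 0 < r1) (R : ℝ) : ∃ δ : ℝ, 0 < δ ∧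
    ∀ p : St, SQ p = 0 → r1 ≤ rr m p → rr m p ≤ R → ‖p.2.1‖ ^ 2 * δ ≤ quad m p := by
  obtain ⟨δ, hδ, hq⟩ := quad_lower0 hm hr R
  refine ⟨δ, hδ, fun p h1 h2 h3 => ?_⟩
  obtain ⟨a1, a2, a3⟩ := mem_Z h1 h2 h3
  obtain ⟨z, y, h⟩ := p
  by_cases hy : y = 0
  · have := quad_smul (m := m) z y h 0
    rw [zero_smul, ← hy] at this
    rw [this]
    simp [hy]
  have n0 : 0 < ‖y‖ := norm_pos_iff.2 hy
  have q2 := hq z (‖y‖⁻¹ • y) a1 a2 a3 (by simp [norm_smul, n0.ne'])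
  have q3 := quad_smul (m := m) z (‖y‖⁻¹ • y) h ‖y‖
  rw [smul_smul, mul_inv_cancel₀ n0.ne', one_smul] at q3
  rw [q3]
  exact mul_le_mul_of_nonneg_left q2 (sq_nonneg _)

/-- A compact piece of the regularised manifold. -/
def Cpt (m : Fin 3 → ℝ) (r1 R H F0 : ℝ) : Set St :=
  {p | p ∈ Man m ∧ r1 ≤ rr m p ∧ rr m p ≤ R ∧ -H ≤ p.2.2 ∧ p.2.2 ≤ 0 ∧ FF m p ≤ F0}

lemma FF_le_iff {F0 : ℝ} (h : 0 < rr m p) :
    FF m p ≤ F0 ↔ normSq (Jc m p) - 2 * p.2.2 * rr m p ^ 2 ≤ F0 * rr m p := by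
  rw [← div_le_iff₀ h]
  have : FF m p = (normSq (Jc m p) - 2 * p.2.2 * rr m p ^ 2) / rr m p := by
    unfold FF; field_simp
  rw [this]

lemma isClosed_Cpt {r1 : ℝ} (hr : 0 < r1) (R H F0 : ℝ) : IsClosed (Cpt m r1 R H F0) := by
  have e : Cpt m r1 R H F0 = {p | SQ p = 0} ∩ ({p | SB p = 0} ∩ ({p | Gam m p = 0}
      ∩ ({p | r1 ≤ rr m p} ∩ ({p | rr m p ≤ R} ∩ ({p | -H ≤ p.2.2} ∩ ({p | p.2.2 ≤ 0}
      ∩ {p | normSq (Jc m p) - 2 * p.2.2 * rr m p ^ 2 ≤ F0 * rr m p})))))) := by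
    ext p
    constructor
    · rintro ⟨h1, h2, h3, h4, h5, h6⟩
      exact ⟨h1.2.1, h1.2.2.1, h1.2.2.2, h2, h3, h4, h5, (FF_le_iff (by linarith)).1 h6⟩
    · rintro ⟨h1, h2, h3, h4, h5, h6, h7, h8⟩
      have h9 : 0 < rr m p := lt_of_lt_of_le hr h4
      exact ⟨⟨mem_Dom_of_rr h9, h1, h2, h3⟩, h4, h5, h6, h7, (FF_le_iff h9).2 h8⟩
  rw [e]
  have ch : Continuous fun p : St => p.2.2 := continuous_snd.comp continuous_snd
  have c1 : Continuous fun p : St => normSq (Jc m p) - 2 * p.2.2 * rr m p ^ 2 := by fun_prop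
  have c2 : Continuous fun p : St => F0 * rr m p := by fun_prop
  exact (isClosed_eq c_SQ continuous_const).inter ((isClosed_eq c_SB continuous_const).inter
    ((isClosed_eq (c_Gam m) continuous_const).inter
    ((isClosed_le continuous_const (c_rr m)).inter ((isClosed_le (c_rr m)
    continuous_const).inter ((isClosed_le continuous_const ch).inter
    ((isClosed_le ch continuous_const).inter (isClosed_le c1 c2)))))))

theorem isCompact_Cpt (hm : ∀ k, 0 < m k) {r1 : ℝ} (hr : 0 < r1) (R H F0 : ℝ) :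
    IsCompact (Cpt m r1 R H F0) := by
  have hZ := isCompact_Z hm r1 R
  obtain ⟨δ, hδ, hq⟩ := quad_lower hm hr R
  have cU : Continuous fun z : Fin 3 → ℂ => Ug m (z, 0, 0) :=
    (c_Ug m).comp (continuous_id.prodMk continuous_const)
  obtain ⟨B, hB⟩ := hZ.exists_bound_of_continuousOn cU.continuousOn
  obtain ⟨B', hB'⟩ := hZ.isBounded.exists_norm_le
  refine Metric.isCompact_of_isClosed_isBounded (isClosed_Cpt hr R H F0) ?_
  refine isBounded_iff_forall_norm_le.2 ⟨max B' (max (1 + (|B| + |F0| * |R|) / δ) |H|),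
    fun p hp => ?_⟩
  obtain ⟨⟨-, h1, h2, h3⟩, h4, h5, h6, h7, h8⟩ := hp
  rw [FF_le_iff (by linarith)] at h8
  have hz := mem_Z h1 h4 h5
  rw [Prod.norm_def, Prod.norm_def]
  refine max_le_max (hB' _ hz) (max_le_max ?_ ?_)
  · have q1 : quad m p ≤ |B| + |F0| * |R| := by
      unfold quad
      rw [h2, h3, map_zero]
      have e : Ug m (p.1, 0, 0) = Ug m p := by simp only [Ug, aa]
      have b0 := hB _ hz
      rw [e, Real.norm_eq_abs] at b0
      have b1 : Ug m p ≤ |B| := (le_abs_self _).trans (b0.trans (le_abs_self B))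
      have b2 := mul_nonneg (neg_nonneg.2 h7) (gg_nonneg p)
      have b3 := mul_nonneg (neg_nonneg.2 h7) (sq_nonneg (rr m p))
      have b4 : F0 * rr m p ≤ |F0| * |R| := mul_le_mul (le_abs_self _)
        (h5.trans (le_abs_self _)) (by linarith) (abs_nonneg _)
      linarith
    have q0 : 0 ≤ (|B| + |F0| * |R|) / δ := by positivity
    have q4 : ‖p.2.1‖ ^ 2 ≤ (|B| + |F0| * |R|) / δ := by
      rw [le_div_iff₀ hδ]
      exact (hq p h1 h4 h5).trans q1
    nlinarith [sq_nonneg (‖p.2.1‖ - 1)]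
  · rw [Real.norm_eq_abs, abs_le]
    constructor <;> linarith [le_abs_self H, abs_nonneg H]

end Pool.Agent.Lib.MP_6e7c44_mp.Hg
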