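import Mathlib

-- part Pool.Agent.Lib.MP_6e7c44_mp.HFlow
section

/-!
Complete flows of vector fields on an open set that carry a proper function of bounded growth.
-/

set_option autoImplicit false

open Set Filter Topology Metric

noncomputable section

namespace Pool.Agent.Lib.MP_6e7c44_mp.Hg

variable {E : Type*} [NormedAddCommGroup E] [NormedSpace ℝ E]

theorem exists_global [CompleteSpace E] {Z : E → E} {K L : NNReal} (hK : LipschitzWith K Z)
    (hL : ∀ y, ‖Z y‖ ≤ L) (x : E) : ∃ α : ℝ → E, α 0 = x ∧ ∀ t, HasDerivAt α (Z (α t)) t := by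
  have h1 : ∀ n : ℕ, ∃ α : ℝ → E, α 0 = x ∧
      ∀ t ∈ Ioo (-((n:ℝ) + 1)) (n + 1), HasDerivAt α (Z (α t)) t := by
    intro n
    have hn : (0:ℝ) < n + 1 := by positivity
    have hpl : IsPicardLindelof (fun _ => Z) (tmin := -((n:ℝ) + 1)) (tmax := n + 1)
        ⟨0, by constructor <;> linarith⟩ x (L * (n + 1)) 0 L K :=
      ⟨fun _ _ => hK.lipschitzOnWith, fun _ _ => continuousOn_const, fun _ _ y _ => hL y, by
        simp⟩
    obtain ⟨α, h0, hα⟩ := hpl.exists_eq_forall_mem_Icc_hasDerivWithinAt₀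
    exact ⟨α, h0, fun t ht =>
      (hα t (Ioo_subset_Icc_self ht)).hasDerivAt (Icc_mem_nhds ht.1 ht.2)⟩
  choose α h0 hα using h1
  have agree : ∀ (m n : ℕ) (s : ℝ), |s| < m + 1 → |s| < n + 1 → α m s = α n s := by
    intro m n s hm hn
    have hr : (0 : ℝ) < min ((m : ℝ) + 1) ((n : ℝ) + 1) := by positivity
    have := ODE_solution_unique_of_mem_Ioo (v := fun _ => Z) (s := fun _ => univ)
      (a := -min ((m : ℝ) + 1) ((n : ℝ) + 1)) (b := min ((m : ℝ) + 1) ((n : ℝ) + 1)) (t₀ := 0)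
      (f := α m) (g := α n) (fun _ _ => hK.lipschitzOnWith) ⟨by linarith, hr⟩
      (fun t ht => ⟨hα m t ⟨by linarith [ht.1, min_le_left ((m : ℝ) + 1) ((n : ℝ) + 1)],
        lt_of_lt_of_le ht.2 (min_le_left _ _)⟩, trivial⟩)
      (fun t ht => ⟨hα n t ⟨by linarith [ht.1, min_le_right ((m : ℝ) + 1) ((n : ℝ) + 1)],
        lt_of_lt_of_le ht.2 (min_le_right _ _)⟩, trivial⟩)
      (by rw [h0, h0])
    apply this
    have h1 : |s| < min ((m : ℝ) + 1) ((n : ℝ) + 1) := lt_min hm hn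
    rw [abs_lt] at h1
    exact h1
  refine ⟨fun t => α ⌈|t|⌉₊ t, by simp [h0], fun t => ?_⟩
  have h1 : |t| < (⌈|t|⌉₊ : ℝ) + 1 := by linarith [Nat.le_ceil |t|]
  have h2 : HasDerivAt (α ⌈|t|⌉₊) (Z (α ⌈|t|⌉₊ t)) t := hα _ t (abs_lt.mp h1)
  refine h2.congr_of_eventuallyEq ?_
  have h3 : ∀ᶠ s in nhds t, |s| < (⌈|t|⌉₊ : ℝ) + 1 :=
    (continuous_abs.tendsto t).eventually (gt_mem_nhds h1)
  filter_upwards [h3] with s hs
  exact agree _ _ s (by linarith [Nat.le_ceil |s|]) hs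

/-- The flow of a bounded Lipschitz field is Lipschitz on bounded time intervals. -/
theorem exists_lip_flow [CompleteSpace E] {Z : E → E} {K L : NNReal} (hK : LipschitzWith K Z)
    (hL : ∀ y, ‖Z y‖ ≤ L) : ∃ Φ : ℝ → E → E, (∀ x, Φ 0 x = x) ∧
      (∀ x t, HasDerivAt (fun s => Φ s x) (Z (Φ t x)) t) ∧
      ∀ T : ℝ, ∃ C : NNReal, LipschitzOnWith C (fun p : ℝ × E => Φ p.1 p.2)
        (Ioo (-T) T ×ˢ univ) := by
  choose α h0 hα using fun x => exists_global hK hL x
  have hcont : ∀ x, Continuous (α x) := fun x =>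
    continuous_iff_continuousAt.2 fun t => (hα x t).continuousAt
  have hd : ∀ (x y : E) (t : ℝ), dist (α x t) (α y t) ≤ dist x y * Real.exp (K * |t|) := by
    intro x y t
    rcases le_total 0 t with ht | ht
    · have := dist_le_of_trajectories_ODE (v := fun _ => Z) (K := K) (a := 0) (b := t)
        (δ := dist x y) (f := α x) (g := α y) (fun _ => hK) (hcont x).continuousOn
        (fun s _ => (hα x s).hasDerivWithinAt) (hcont y).continuousOn
        (fun s _ => (hα y s).hasDerivWithinAt) (by rw [h0, h0]) t ⟨ht, le_rfl⟩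
      rw [abs_of_nonneg ht]
      rwa [sub_zero] at this
    · have hn : ∀ z s, HasDerivAt (fun s => α z (-s)) (-Z (α z (-s))) s := fun z s => by
        have := (hα z (-s)).scomp s (hasDerivAt_neg s)
        rw [neg_one_smul] at this
        exact this
      have := dist_le_of_trajectories_ODE (v := fun _ z => -Z z) (K := K) (a := 0) (b := -t)
        (δ := dist x y) (f := fun s => α x (-s)) (g := fun s => α y (-s)) (fun _ => hK.neg)
        ((hcont x).comp continuous_neg).continuousOn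
        (fun s _ => (hn x s).hasDerivWithinAt) ((hcont y).comp continuous_neg).continuousOn
        (fun s _ => (hn y s).hasDerivWithinAt) (by simp only [neg_zero]; rw [h0, h0]) (-t)
        ⟨by linarith, le_rfl⟩
      rwa [sub_zero, neg_neg, ← abs_of_nonpos ht] at this
  have ht : ∀ (x : E) (s t : ℝ), dist (α x s) (α x t) ≤ L * dist s t := by
    intro x s t
    have : LipschitzWith L (α x) :=
      lipschitzWith_of_nnnorm_deriv_le (fun t => (hα x t).differentiableAt) fun t => by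
        rw [(hα x t).deriv]; exact_mod_cast hL _
    exact this.dist_le_mul s t
  refine ⟨fun t x => α x t, h0, hα, fun T => ⟨⟨Real.exp (K * T), (Real.exp_pos _).le⟩ + L, ?_⟩⟩
  refine LipschitzOnWith.of_dist_le_mul fun p hp q _ => ?_
  have h1 := hd p.2 q.2 p.1
  have h2 := ht q.2 p.1 q.1
  have h3 : |p.1| ≤ T := abs_le.2 ⟨hp.1.1.le, hp.1.2.le⟩
  have h4 : dist p.2 q.2 ≤ dist p q := by rw [Prod.dist_eq]; exact le_max_right _ _
  have h5 : dist p.1 q.1 ≤ dist p q := by rw [Prod.dist_eq]; exact le_max_left _ _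
  have h6 : dist p.2 q.2 * Real.exp (K * |p.1|) ≤ dist p q * Real.exp (K * T) := by gcongr
  have h7 : (L : ℝ) * dist p.1 q.1 ≤ L * dist p q := by gcongr
  have h8 := dist_triangle (α p.2 p.1) (α q.2 p.1) (α q.2 q.1)
  show dist (α p.2 p.1) (α q.2 q.1) ≤ (Real.exp (K * T) + L) * dist p q
  linarith

/-- A complete flow of the field `Y` on the set `D`. -/
structure IsFlow (Y : E → E) (D : Set E) (φ : ℝ → E → E) : Prop where
  zero : ∀ x, φ 0 x = x
  mem : ∀ x ∈ D, ∀ t, φ t x ∈ D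
  deriv : ∀ x ∈ D, ∀ t, HasDerivAt (fun s => φ s x) (Y (φ t x)) t
  lip : ∀ x ∈ D, ∀ t, ∃ C : NNReal, ∃ s ∈ 𝓝 (t, x),
    LipschitzOnWith C (fun p : ℝ × E => φ p.1 p.2) s
  uniq : ∀ γ : ℝ → E, (∀ t, γ t ∈ D ∧ HasDerivAt γ (Y (γ t)) t) → ∀ t, γ t = φ t (γ 0)

theorem exists_flow [FiniteDimensional ℝ E] {Y : E → E} {D : Set E} (hD : IsOpen D)
    (hY : ContDiffOn ℝ 1 Y D) {ψ : E → ℝ} (hψ : ContDiffOn ℝ 1 ψ D)
    (hc : ∀ c, IsCompact {x | x ∈ D ∧ ψ x ≤ c}) {C : ℝ}
    (hb : ∀ x ∈ D, |fderiv ℝ ψ x (Y x)| ≤ C) : ∃ φ, IsFlow Y D φ := by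
  classical
  have : CompleteSpace E := FiniteDimensional.complete ℝ E
  let χ : ℕ → E → ℝ := fun n x => Real.smoothTransition (n + 1 - ψ x)
  let Z : ℕ → E → E := fun n x => if x ∈ D then χ n x • Y x else 0
  have hZ0 : ∀ (n : ℕ) x, x ∉ {x | x ∈ D ∧ ψ x ≤ (n : ℝ) + 1} → Z n x = 0 := by
    intro n x hx
    by_cases h : x ∈ D
    · have h1 : (n : ℝ) + 1 < ψ x := lt_of_not_ge fun h2 => hx ⟨h, h2⟩
      simp only [Z, χ, if_pos h]
      rw [Real.smoothTransition.zero_of_nonpos (by linarith), zero_smul]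
    · simp only [Z, if_neg h]
  have hZs : ∀ n, HasCompactSupport (Z n) := fun n =>
    HasCompactSupport.intro (hc ((n : ℝ) + 1)) (hZ0 n)
  have hZd : ∀ n, ContDiff ℝ 1 (Z n) := by
    intro n
    rw [contDiff_iff_contDiffAt]
    intro x
    by_cases h : x ∈ D
    · have h1 : ContDiffAt ℝ 1 (fun x => χ n x • Y x) x :=
        (Real.smoothTransition.contDiffAt.comp x
          (contDiffAt_const.sub (hψ.contDiffAt (hD.mem_nhds h)))).smul
          (hY.contDiffAt (hD.mem_nhds h))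
      refine h1.congr_of_eventuallyEq ?_
      filter_upwards [hD.mem_nhds h] with y hy
      simp only [Z, if_pos hy]
    · refine (contDiffAt_const (c := (0 : E))).congr_of_eventuallyEq ?_
      filter_upwards [(hc ((n : ℝ) + 1)).isClosed.isOpen_compl.mem_nhds
        (show x ∈ {x | x ∈ D ∧ ψ x ≤ (n : ℝ) + 1}ᶜ from fun h1 => h h1.1)] with y hy
      exact hZ0 n y hy
  have hZl : ∀ n, ∃ K, LipschitzWith K (Z n) := fun n =>
    (hZd n).lipschitzWith_of_hasCompactSupport (hZs n) one_ne_zero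
  choose K hK using hZl
  have hZb : ∀ n, ∃ L : NNReal, ∀ y, ‖Z n y‖ ≤ L := fun n => by
    obtain ⟨L, hL⟩ := (hZs n).exists_bound_of_continuous (hZd n).continuous
    exact ⟨⟨L, (norm_nonneg _).trans (hL 0)⟩, hL⟩
  choose L hL using hZb
  choose Φ h0 hΦ hlip using fun n => exists_lip_flow (hK n) (hL n)
  have hmem : ∀ n, ∀ x ∈ D, ∀ t, Φ n t x ∈ D := by
    intro n x hx t
    by_contra h
    have := ODE_solution_unique_univ (v := fun _ => Z n) (s := fun _ => univ) (K := K n)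
      (t₀ := t) (f := fun s => Φ n s x) (g := fun _ => Φ n t x)
      (fun _ => (hK n).lipschitzOnWith) (fun s => ⟨hΦ n x s, trivial⟩)
      (fun s => ⟨by
        have : Z n (Φ n t x) = 0 := by simp only [Z, if_neg h]
        rw [this]; exact hasDerivAt_const _ _, trivial⟩) rfl
    have h1 := congrFun this 0
    simp only [h0] at h1
    exact h (h1 ▸ hx)
  have hgrow : ∀ (γ : ℝ → E) (c : ℝ → ℝ), (∀ t, γ t ∈ D ∧ 0 ≤ c t ∧ c t ≤ 1 ∧
      HasDerivAt γ (c t • Y (γ t)) t) → ∀ t, ψ (γ t) ≤ ψ (γ 0) + |C| * |t| := by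
    intro γ c h t
    have hd : ∀ t, HasDerivAt (fun s => ψ (γ s)) (fderiv ℝ ψ (γ t) (c t • Y (γ t))) t :=
      fun t => ((hψ.contDiffAt (hD.mem_nhds (h t).1)).differentiableAt
        one_ne_zero).hasFDerivAt.comp_hasDerivAt t (h t).2.2.2
    have : LipschitzWith ⟨|C|, abs_nonneg _⟩ (fun s => ψ (γ s)) :=
      lipschitzWith_of_nnnorm_deriv_le (fun t => (hd t).differentiableAt) fun t => by
        rw [(hd t).deriv]
        show ‖fderiv ℝ ψ (γ t) (c t • Y (γ t))‖ ≤ |C|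
        rw [map_smul, norm_smul, Real.norm_of_nonneg (h t).2.1, Real.norm_eq_abs]
        have h1 := (hb _ (h t).1).trans (le_abs_self C)
        have h2 := abs_nonneg (fderiv ℝ ψ (γ t) (Y (γ t)))
        nlinarith [(h t).2.1, (h t).2.2.1]
    have h1 := this.dist_le_mul t 0
    rw [Real.dist_eq, Real.dist_eq, sub_zero] at h1
    have h2 := le_abs_self (ψ (γ t) - ψ (γ 0))
    change _ ≤ |C| * |t| at h1
    linarith
  have hZY : ∀ n : ℕ, ∀ x ∈ D, ψ x ≤ n → Z n x = Y x := by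
    intro n x hx h
    simp only [Z, χ, if_pos hx]
    rw [Real.smoothTransition.one_of_one_le (by linarith), one_smul]
  have hΦg : ∀ n, ∀ x ∈ D, ∀ t, ψ (Φ n t x) ≤ ψ x + |C| * |t| := by
    intro n x hx t
    have := hgrow (fun s => Φ n s x) (fun s => χ n (Φ n s x)) (fun s => ⟨hmem n x hx s,
      Real.smoothTransition.nonneg _, Real.smoothTransition.le_one _, by
        have := hΦ n x s
        simp only [Z, if_pos (hmem n x hx s)] at this
        exact this⟩) t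
    simpa only [h0] using this
  have key : ∀ (γ : ℝ → E) (T : ℝ) (n : ℕ), γ 0 ∈ D →
      (∀ t, |t| < T → γ t ∈ D ∧ ψ (γ t) ≤ n ∧ HasDerivAt γ (Y (γ t)) t) →
      ∀ t, |t| < T → γ t = Φ n t (γ 0) := by
    intro γ T n _ h t ht
    have hT : 0 < T := lt_of_le_of_lt (abs_nonneg _) ht
    exact ODE_solution_unique_of_mem_Ioo (v := fun _ => Z n) (s := fun _ => univ) (K := K n)
      (a := -T) (b := T) (t₀ := 0) (f := γ) (g := fun s => Φ n s (γ 0))
      (fun _ _ => (hK n).lipschitzOnWith) ⟨by linarith, hT⟩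
      (fun s hs => ⟨by
        have h1 := h s (abs_lt.2 hs)
        rw [hZY n _ h1.1 h1.2.1]; exact h1.2.2, trivial⟩)
      (fun s _ => ⟨hΦ n _ s, trivial⟩) (by simp only [h0]) (abs_lt.1 ht)
  have hY' : ∀ n : ℕ, ∀ x ∈ D, ∀ t, ψ x + |C| * |t| ≤ n →
      HasDerivAt (fun s => Φ n s x) (Y (Φ n t x)) t := by
    intro n x hx t h
    rw [← hZY n _ (hmem n x hx t) ((hΦg n x hx t).trans h)]
    exact hΦ n x t
  have agree : ∀ (m n : ℕ), ∀ x ∈ D, ∀ t T, |t| < T → ψ x + |C| * T ≤ m → ψ x + |C| * T ≤ n →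
      Φ m t x = Φ n t x := by
    intro m n x hx t T ht hm hn
    have := key (fun s => Φ m s x) T n (by simpa only [h0] using hx) (fun s hs => by
      have h1 : |C| * |s| ≤ |C| * T := by gcongr
      exact ⟨hmem m x hx s, by linarith [hΦg m x hx s], hY' m x hx s (by linarith)⟩) t ht
    simpa only [h0] using this
  let N : ℝ → E → ℕ := fun t x => ⌈ψ x + |C| * (|t| + 1)⌉₊
  have hN : ∀ t x, ψ x + |C| * (|t| + 1) ≤ N t x := fun t x => Nat.le_ceil _
  have hloc : ∀ x ∈ D, ∀ t, ∃ n : ℕ, ψ x + |C| * |t| ≤ n ∧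
      ∀ᶠ p : ℝ × E in 𝓝 (t, x), Φ (N p.1 p.2) p.1 p.2 = Φ n p.1 p.2 := by
    intro x hx t
    have hc1 : ContinuousAt (fun p : ℝ × E => ψ p.2 + |C| * (|p.1| + 1)) (t, x) :=
      ((hψ.continuousOn.continuousAt (hD.mem_nhds hx)).comp (f := Prod.snd)
        continuousAt_snd).add (by fun_prop)
    refine ⟨N t x + 1, ?_, ?_⟩
    · have := hN t x
      have := abs_nonneg C
      push_cast
      nlinarith
    · have h1 : ψ x + |C| * (|t| + 1) < ((N t x + 1 : ℕ) : ℝ) := by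
        push_cast; linarith [hN t x]
      filter_upwards [hc1.eventually (gt_mem_nhds h1),
        (continuous_snd.tendsto (t, x)).eventually (hD.mem_nhds hx)] with p hp hp'
      exact agree _ _ p.2 hp' p.1 (|p.1| + 1) (by linarith) (hN _ _) hp.le
  refine ⟨fun t x => Φ (N t x) t x, fun x => h0 _ x, fun x hx t => hmem _ x hx t,
    fun x hx t => ?_, fun x hx t => ?_, fun γ hγ t => ?_⟩
  · obtain ⟨n, hn, h⟩ := hloc x hx t
    have h1 : ∀ᶠ s in 𝓝 t, Φ (N s x) s x = Φ n s x :=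
      (show Tendsto (fun s : ℝ => (s, x)) (𝓝 t) (𝓝 (t, x)) from
        (Continuous.prodMk_left x).tendsto t).eventually h
    rw [h1.self_of_nhds]
    exact (hY' n x hx t hn).congr_of_eventuallyEq h1
  · obtain ⟨n, -, h⟩ := hloc x hx t
    obtain ⟨C', hC'⟩ := hlip n (|t| + 1)
    refine ⟨C', {p | Φ (N p.1 p.2) p.1 p.2 = Φ n p.1 p.2} ∩ Ioo (-(|t| + 1)) (|t| + 1) ×ˢ univ,
      inter_mem h ((isOpen_Ioo.prod isOpen_univ).mem_nhds
        ⟨⟨by linarith [neg_abs_le t], by linarith [le_abs_self t]⟩, trivial⟩), ?_⟩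
    intro p hp q hq
    have h1 : Φ (N p.1 p.2) p.1 p.2 = Φ n p.1 p.2 := hp.1
    have h2 : Φ (N q.1 q.2) q.1 q.2 = Φ n q.1 q.2 := hq.1
    show edist (Φ (N p.1 p.2) p.1 p.2) (Φ (N q.1 q.2) q.1 q.2) ≤ _
    rw [h1, h2]
    exact hC' hp.2 hq.2
  · refine key γ (|t| + 1) _ (hγ 0).1 (fun s hs => ⟨(hγ s).1, ?_, (hγ s).2⟩) t (by linarith)
    have h1 := hgrow γ (fun _ => 1) (fun s => ⟨(hγ s).1, zero_le_one, le_rfl, by
      rw [one_smul]; exact (hγ s).2⟩) s
    have h2 : |C| * |s| ≤ |C| * (|t| + 1) := by gcongr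
    linarith [hN t (γ 0)]

namespace IsFlow

variable {Y : E → E} {D : Set E} {φ : ℝ → E → E}

theorem contAt (h : IsFlow Y D φ) {x : E} (hx : x ∈ D) (t : ℝ) :
    ContinuousAt (fun p : ℝ × E => φ p.1 p.2) (t, x) := by
  obtain ⟨C, s, hs, hl⟩ := h.lip x hx t
  exact hl.continuousOn.continuousAt hs

theorem comp_contAt (h : IsFlow Y D φ) {X : Type*} [TopologicalSpace X] {τ : X → ℝ} {p : X → E}
    {x : X} (hτ : ContinuousAt τ x) (hp : ContinuousAt p x) (hx : p x ∈ D) :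
    ContinuousAt (fun y => φ (τ y) (p y)) x :=
  ContinuousAt.comp (g := fun p : ℝ × E => φ p.1 p.2) (f := fun y => (τ y, p y))
    (h.contAt hx (τ x)) (hτ.prodMk hp)

theorem cont (h : IsFlow Y D φ) {x : E} (hx : x ∈ D) : Continuous fun t => φ t x :=
  continuous_iff_continuousAt.2 fun t => (h.deriv x hx t).continuousAt

theorem add (h : IsFlow Y D φ) {x : E} (hx : x ∈ D) (s t : ℝ) : φ (s + t) x = φ s (φ t x) := by
  have := h.uniq (fun s => φ (s + t) x) (fun s => ⟨h.mem x hx _, by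
    have := (h.deriv x hx (s + t)).scomp s ((hasDerivAt_id s).add_const t)
    rw [one_smul] at this
    exact this⟩) s
  simpa only [zero_add] using this

theorem symm (h : IsFlow Y D φ) (T : E →L[ℝ] E) (hT : ∀ x ∈ D, T x ∈ D ∧ Y (T x) = T (Y x))
    {x : E} (hx : x ∈ D) (t : ℝ) : φ t (T x) = T (φ t x) := by
  have := h.uniq (fun s => T (φ s x)) (fun s => ⟨(hT _ (h.mem x hx s)).1, by
    rw [(hT _ (h.mem x hx s)).2]
    exact T.hasFDerivAt.comp_hasDerivAt s (h.deriv x hx s)⟩) t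
  rw [this, h.zero]

end IsFlow

end Pool.Agent.Lib.MP_6e7c44_mp.Hg
end
end

-- part Pool.Agent.Lib.MP_6e7c44_mp.HReg
section

/-!
The simultaneous regularisation of the three binary collisions (relative positions are squares
`z k ^ 2`), with a gauge condition and a scale invariant time, and its complete flow.
-/

set_option autoImplicit false

open Set Filter Topology Metric Complex ComplexConjugate

noncomputable section

namespace Pool.Agent.Lib.MP_6e7c44_mp.Hg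

section cd
variable {E : Type*} [NormedAddCommGroup E] [NormedSpace ℝ E] {x : E} {n : WithTop ℕ∞}

@[fun_prop] lemma cd_conj {f : E → ℂ} (h : ContDiffAt ℝ n f x) :
    ContDiffAt ℝ n (fun y => conj (f y)) x := Complex.conjCLE.contDiff.contDiffAt.comp x h

@[fun_prop] lemma cd_re {f : E → ℂ} (h : ContDiffAt ℝ n f x) :
    ContDiffAt ℝ n (fun y => (f y).re) x := Complex.reCLM.contDiff.contDiffAt.comp x h

@[fun_prop] lemma cd_im {f : E → ℂ} (h : ContDiffAt ℝ n f x) :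
    ContDiffAt ℝ n (fun y => (f y).im) x := Complex.imCLM.contDiff.contDiffAt.comp x h

@[fun_prop] lemma cd_nsq {f : E → ℂ} (h : ContDiffAt ℝ n f x) :
    ContDiffAt ℝ n (fun y => normSq (f y)) x := by
  simp only [normSq_apply]
  exact ((cd_re h).mul (cd_re h)).add ((cd_im h).mul (cd_im h))

@[fun_prop] lemma cd_ofReal {f : E → ℝ} (h : ContDiffAt ℝ n f x) :
    ContDiffAt ℝ n (fun y => ((f y : ℝ) : ℂ)) x := Complex.ofRealCLM.contDiff.contDiffAt.comp x h

end cd

section hd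
variable {f g : ℝ → ℂ} {f' g' : ℂ} {t : ℝ}

lemma hd_conj (h : HasDerivAt f f' t) : HasDerivAt (fun s => conj (f s)) (conj f') t :=
  Complex.conjCLE.toContinuousLinearMap.hasFDerivAt.comp_hasDerivAt t h

lemma hd_re (h : HasDerivAt f f' t) : HasDerivAt (fun s => (f s).re) f'.re t :=
  Complex.reCLM.hasFDerivAt.comp_hasDerivAt t h

lemma hd_im (h : HasDerivAt f f' t) : HasDerivAt (fun s => (f s).im) f'.im t :=
  Complex.imCLM.hasFDerivAt.comp_hasDerivAt t h

lemma hd_nsq (h : HasDerivAt f f' t) :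
    HasDerivAt (fun s => normSq (f s)) (2 * (conj (f t) * f').re) t := by
  simp only [normSq_apply]
  refine (((hd_re h).mul (hd_re h)).add ((hd_im h).mul (hd_im h))).congr_deriv ?_
  simp; ring

lemma hd_norm (h : HasDerivAt f f' t) (h0 : f t ≠ 0) :
    HasDerivAt (fun s => ‖f s‖) ((conj (f t) * f').re / ‖f t‖) t := by
  have h1 := (hd_nsq h).sqrt (normSq_pos.2 h0).ne'
  simp only [← Complex.norm_def] at h1
  refine h1.congr_deriv ?_
  field_simp

end hd

lemma f11 (k : Fin 3) : k + 1 + 1 = k + 2 := by revert k; decide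
lemma f12 (k : Fin 3) : k + 1 + 2 = k := by revert k; decide
lemma f21 (k : Fin 3) : k + 2 + 1 = k := by revert k; decide
lemma f22 (k : Fin 3) : k + 2 + 2 = k + 1 := by revert k; decide

lemma sum3 {A : Type*} [AddCommMonoid A] (f : Fin 3 → A) (k : Fin 3) :
    ∑ j, f j = f k + f (k + 1) + f (k + 2) := by
  rw [Fin.sum_univ_three]
  fin_cases k
  · rfl
  · show _ = f 1 + f 2 + f 0
    abel
  · show _ = f 2 + f 0 + f 1
    abel

lemma tri (k j : Fin 3) : j = k ∨ j = k + 1 ∨ j = k + 2 := by revert k j; decide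

/-- The regularised phase space: `(z, y, h)`. -/
abbrev St := (Fin 3 → ℂ) × (Fin 3 → ℂ) × ℝ

variable (m : Fin 3 → ℝ)

def MM : ℝ := ∑ k, m k
def nn (k : Fin 3) : ℝ := m (k + 1) * m (k + 2)
def PP : ℝ := m 0 * m 1 * m 2

lemma PP_eq (k : Fin 3) : PP m = m k * m (k + 1) * m (k + 2) := by
  unfold PP
  fin_cases k
  · rfl
  · show _ = m 1 * m 2 * m 0
    ring
  · show _ = m 2 * m 0 * m 1
    ring

lemma MM_eq (k : Fin 3) : MM m = m k + m (k + 1) + m (k + 2) := sum3 m k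

def aa (p : St) (k : Fin 3) : ℝ := normSq (p.1 k)
def bb (p : St) (k : Fin 3) : ℂ := p.2.1 k * p.1 k
def EE (p : St) (k : Fin 3) : ℝ := (MM m - m k) * normSq (p.2.1 k) / 2 - 1
def CC (p : St) (k : Fin 3) : ℂ := aa p (k + 2) * bb p (k + 1) + aa p (k + 1) * bb p (k + 2)
def DD (p : St) (k : Fin 3) : ℝ :=
  nn m (k + 1) * EE m p (k + 1) * aa p (k + 2) + nn m (k + 2) * EE m p (k + 2) * aa p (k + 1)
    - PP m * (bb p (k + 1) * conj (bb p (k + 2))).re - p.2.2 * (aa p (k + 1) * aa p (k + 2))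
def Xz (p : St) (k : Fin 3) : ℂ :=
  (((MM m - m k) * (aa p (k + 1) * aa p (k + 2)) : ℝ) * p.2.1 k - m k * conj (p.1 k) * CC p k) / 2
def X0 (p : St) (k : Fin 3) : ℂ :=
  -(p.1 k * (DD m p k / nn m k : ℝ)) + m k * conj (p.2.1 k) * CC p k / 2
def den (p : St) : ℝ := ∑ k, m k * aa p k
def bet (p : St) : ℂ := (∑ k, (X0 m p k * p.1 k + p.2.1 k * Xz m p k)) * ((den m p)⁻¹ : ℝ)
def Xy (p : St) (k : Fin 3) : ℂ := X0 m p k - m k * conj (p.1 k) * bet m p
def s2 (p : St) : ℝ := ∑ k, aa p k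
def rad (p : St) : ℝ := s2 p ^ 3 + (∑ k, normSq (Xz m p k)) * (s2 p)⁻¹ + ∑ k, normSq (Xy m p k)
def al (p : St) : ℝ := (√(rad m p))⁻¹
def YY (p : St) : St := (fun k => al m p * Xz m p k, fun k => al m p * Xy m p k, 0)
def Dom : Set St := {p | 0 < s2 p}
def gg (p : St) : ℝ := aa p 0 * aa p 1 * aa p 2
def Gam (p : St) : ℝ := ∑ k, (nn m k * EE m p k * (aa p (k + 1) * aa p (k + 2))
  - PP m * (aa p k * (bb p (k + 1) * conj (bb p (k + 2))).re)) - p.2.2 * gg p

lemma gg_eq (p : St) (k : Fin 3) : gg p = aa p k * aa p (k + 1) * aa p (k + 2) := by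
  unfold gg
  fin_cases k
  · rfl
  · show _ = aa p 1 * aa p 2 * aa p 0
    ring
  · show _ = aa p 2 * aa p 0 * aa p 1
    ring

lemma aa_nonneg (p : St) (k : Fin 3) : 0 ≤ aa p k := normSq_nonneg _

lemma gg_nonneg (p : St) : 0 ≤ gg p :=
  mul_nonneg (mul_nonneg (aa_nonneg _ _) (aa_nonneg _ _)) (aa_nonneg _ _)

lemma Gam_eq (p : St) (k : Fin 3) : Gam m p = nn m k * EE m p k * (aa p (k + 1) * aa p (k + 2))
    + aa p k * DD m p k - PP m * (bb p k * conj (CC p k)).re := by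
  unfold Gam DD CC
  rw [sum3 _ k, gg_eq p k]
  simp only [f11, f12, f21, f22, map_add, map_mul, conj_ofReal, mul_re, add_re, ofReal_re,
    ofReal_im, mul_im, add_im, conj_re, conj_im]
  ring

section smooth
variable {x : St} {n : WithTop ℕ∞}

@[fun_prop] lemma cd_aa (k : Fin 3) : ContDiffAt ℝ n (fun p => aa p k) x := by
  unfold aa; fun_prop
@[fun_prop] lemma cd_bb (k : Fin 3) : ContDiffAt ℝ n (fun p => bb p k) x := by
  unfold bb; fun_prop
@[fun_prop] lemma cd_EE (k : Fin 3) : ContDiffAt ℝ n (fun p => EE m p k) x := by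
  unfold EE; fun_prop
@[fun_prop] lemma cd_CC (k : Fin 3) : ContDiffAt ℝ n (fun p => CC p k) x := by
  unfold CC; fun_prop
@[fun_prop] lemma cd_DD (k : Fin 3) : ContDiffAt ℝ n (fun p => DD m p k) x := by
  unfold DD; fun_prop
@[fun_prop] lemma cd_Xz (k : Fin 3) : ContDiffAt ℝ n (fun p => Xz m p k) x := by
  unfold Xz; fun_prop
@[fun_prop] lemma cd_X0 (k : Fin 3) : ContDiffAt ℝ n (fun p => X0 m p k) x := by
  unfold X0; fun_prop
@[fun_prop] lemma cd_den : ContDiffAt ℝ n (fun p => den m p) x := by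
  unfold den; fun_prop
@[fun_prop] lemma cd_s2 : ContDiffAt ℝ n (fun p => s2 p) x := by
  unfold s2; fun_prop
@[fun_prop] lemma cd_gg : ContDiffAt ℝ n (fun p => gg p) x := by
  unfold gg; fun_prop
@[fun_prop] lemma cd_Gam : ContDiffAt ℝ n (fun p => Gam m p) x := by
  unfold Gam; fun_prop

end smooth

@[fun_prop] lemma c_aa (k : Fin 3) : Continuous fun p => aa p k := by unfold aa; fun_prop
@[fun_prop] lemma c_bb (k : Fin 3) : Continuous fun p => bb p k := by unfold bb; fun_prop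
@[fun_prop] lemma c_s2 : Continuous fun p => s2 p := by unfold s2; fun_prop
@[fun_prop] lemma c_gg : Continuous fun p => gg p := by unfold gg; fun_prop
@[fun_prop] lemma c_den : Continuous fun p => den m p := by unfold den; fun_prop
@[fun_prop] lemma c_Gam : Continuous fun p => Gam m p :=
  continuous_iff_continuousAt.2 fun _ => (cd_Gam m (n := 0)).continuousAt

lemma isOpen_Dom : IsOpen Dom := isOpen_lt continuous_const c_s2

variable {m}

lemma den_pos (hm : ∀ k, 0 < m k) {p : St} (hp : p ∈ Dom) : 0 < den m p := by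
  have h : 0 < s2 p := hp
  unfold s2 at h
  unfold den
  obtain ⟨k, -, hk⟩ := Finset.exists_lt_of_sum_lt (s := Finset.univ) (f := fun _ : Fin 3 => (0:ℝ))
    (g := fun k => aa p k) (by simpa using h)
  exact Finset.sum_pos' (fun j _ => mul_nonneg (hm j).le (aa_nonneg _ _))
    ⟨k, Finset.mem_univ _, mul_pos (hm k) hk⟩

lemma rad_pos {p : St} (hp : p ∈ Dom) : 0 < rad m p := by
  have h : 0 < s2 p := hp
  unfold rad
  have h1 : 0 ≤ ∑ k, normSq (Xz m p k) := Finset.sum_nonneg fun _ _ => normSq_nonneg _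
  have h2 : 0 ≤ ∑ k, normSq (Xy m p k) := Finset.sum_nonneg fun _ _ => normSq_nonneg _
  positivity

lemma al_pos {p : St} (hp : p ∈ Dom) : 0 < al m p :=
  inv_pos.2 (Real.sqrt_pos.2 (rad_pos hp))

lemma cd_bet (hm : ∀ k, 0 < m k) {p : St} (hp : p ∈ Dom) {n : WithTop ℕ∞} :
    ContDiffAt ℝ n (fun p => bet m p) p := by
  have := (den_pos hm hp).ne'
  unfold bet; fun_prop (disch := assumption)

lemma cd_Xy (hm : ∀ k, 0 < m k) {p : St} (hp : p ∈ Dom) {n : WithTop ℕ∞} (k : Fin 3) :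
    ContDiffAt ℝ n (fun p => Xy m p k) p := by
  have := cd_bet hm hp (n := n)
  unfold Xy; fun_prop

lemma cd_al (hm : ∀ k, 0 < m k) {p : St} (hp : p ∈ Dom) {n : WithTop ℕ∞} :
    ContDiffAt ℝ n (fun p => al m p) p := by
  have h1 := cd_Xy hm hp (n := n)
  have h2 : s2 p ≠ 0 := ne_of_gt hp
  have h3 : ContDiffAt ℝ n (fun p => rad m p) p := by
    unfold rad
    refine ContDiffAt.add (by fun_prop (disch := assumption)) ?_
    exact ContDiffAt.sum fun k _ => cd_nsq (h1 k)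
  unfold al
  exact (h3.sqrt (rad_pos hp).ne').inv (Real.sqrt_pos.2 (rad_pos hp)).ne'

lemma cd_YY (hm : ∀ k, 0 < m k) : ContDiffOn ℝ 1 (YY m) Dom := by
  intro p hp
  refine ContDiffAt.contDiffWithinAt ?_
  have h1 := cd_Xy hm hp (n := 1)
  have h2 := cd_al hm hp (n := 1)
  unfold YY
  refine ContDiffAt.prodMk (contDiffAt_pi.2 fun k => by fun_prop)
    (ContDiffAt.prodMk (contDiffAt_pi.2 fun k => ?_) contDiffAt_const)
  exact (cd_ofReal h2).mul (h1 k)

lemma al_sq {p : St} (hp : p ∈ Dom) : al m p ^ 2 * rad m p = 1 := by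
  unfold al
  rw [inv_pow, Real.sq_sqrt (rad_pos hp).le, inv_mul_cancel₀ (rad_pos hp).ne']

lemma Yz_le {p : St} (hp : p ∈ Dom) : ∑ k, normSq (al m p * Xz m p k) ≤ s2 p := by
  have h : 0 < s2 p := hp
  have h1 := al_sq (m := m) hp
  have h2 : 0 ≤ ∑ k, normSq (Xy m p k) := Finset.sum_nonneg fun _ _ => normSq_nonneg _
  simp only [map_mul, normSq_ofReal, ← Finset.mul_sum]
  unfold rad at h1
  have h3 : al m p ^ 2 * ((∑ k, normSq (Xz m p k)) * (s2 p)⁻¹) ≤ 1 := by
    have : 0 ≤ al m p ^ 2 * (s2 p ^ 3 + ∑ k, normSq (Xy m p k)) := by positivity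
    nlinarith
  have h4 := mul_le_mul_of_nonneg_right h3 h.le
  have e : al m p ^ 2 * ((∑ k, normSq (Xz m p k)) * (s2 p)⁻¹) * s2 p
      = al m p * al m p * ∑ k, normSq (Xz m p k) := by field_simp
  linarith

lemma Yy_le {p : St} (hp : p ∈ Dom) : ∑ k, normSq (al m p * Xy m p k) ≤ 1 := by
  have h : 0 < s2 p := hp
  have h1 := al_sq (m := m) hp
  have h2 : 0 ≤ ∑ k, normSq (Xz m p k) := Finset.sum_nonneg fun _ _ => normSq_nonneg _
  simp only [map_mul, normSq_ofReal, ← Finset.mul_sum]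
  unfold rad at h1
  have : 0 ≤ al m p ^ 2 * (s2 p ^ 3 + (∑ k, normSq (Xz m p k)) * (s2 p)⁻¹) := by positivity
  nlinarith

lemma two_re_le (a b : ℂ) : |2 * (conj a * b).re| ≤ normSq a + normSq b := by
  simp only [normSq_apply, mul_re, conj_re, conj_im]
  rw [abs_le]
  constructor <;> nlinarith [sq_nonneg (a.re - b.re), sq_nonneg (a.im - b.im),
    sq_nonneg (a.re + b.re), sq_nonneg (a.im + b.im)]

lemma hd_z {γ : ℝ → St} {v : St} {t : ℝ} (h : HasDerivAt γ v t) (k : Fin 3) :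
    HasDerivAt (fun s => (γ s).1 k) (v.1 k) t :=
  hasDerivAt_pi.1 ((ContinuousLinearMap.fst ℝ _ _).hasFDerivAt.comp_hasDerivAt t h) k

lemma hd_y {γ : ℝ → St} {v : St} {t : ℝ} (h : HasDerivAt γ v t) (k : Fin 3) :
    HasDerivAt (fun s => (γ s).2.1 k) (v.2.1 k) t :=
  hasDerivAt_pi.1 (((ContinuousLinearMap.fst ℝ _ _).comp
    (ContinuousLinearMap.snd ℝ _ _)).hasFDerivAt.comp_hasDerivAt t h) k

lemma hd_h {γ : ℝ → St} {v : St} {t : ℝ} (h : HasDerivAt γ v t) :
    HasDerivAt (fun s => (γ s).2.2) v.2.2 t :=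
  ((ContinuousLinearMap.snd ℝ (Fin 3 → ℂ) ℝ).comp
    (ContinuousLinearMap.snd ℝ (Fin 3 → ℂ) _)).hasFDerivAt.comp_hasDerivAt t h

def BB (p : St) : ℝ := 1 + s2 p + ∑ k, normSq (p.2.1 k) + p.2.2 ^ 2

def psi (p : St) : ℝ := -Real.log (s2 p) + 2 * Real.log (BB p)

lemma s2_nonneg (p : St) : 0 ≤ s2 p := Finset.sum_nonneg fun _ _ => aa_nonneg _ _

lemma BB_ge (p : St) : 1 + s2 p ≤ BB p := by
  have h2 : 0 ≤ ∑ k, normSq (p.2.1 k) := Finset.sum_nonneg fun _ _ => normSq_nonneg _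
  unfold BB; nlinarith [sq_nonneg p.2.2]

lemma norm_le_BB (p : St) : ‖p‖ ≤ BB p := by
  have h1 := s2_nonneg p
  have h2 : 0 ≤ ∑ k, normSq (p.2.1 k) := Finset.sum_nonneg fun _ _ => normSq_nonneg _
  have h3 := sq_nonneg p.2.2
  have key : ∀ (w : Fin 3 → ℂ) (R : ℝ), 1 + ∑ k, normSq (w k) ≤ R → ‖w‖ ≤ R := by
    intro w R h
    have h0 : 0 ≤ ∑ k, normSq (w k) := Finset.sum_nonneg fun _ _ => normSq_nonneg _
    refine (pi_norm_le_iff_of_nonneg (by linarith)).2 fun k => ?_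
    have := Finset.single_le_sum (f := fun k => normSq (w k)) (fun _ _ => normSq_nonneg _)
      (Finset.mem_univ k)
    rw [normSq_eq_norm_sq] at this
    nlinarith [sq_nonneg (‖w k‖ - 1)]
  rw [Prod.norm_def, Prod.norm_def]
  refine max_le (key _ _ ?_) (max_le (key _ _ ?_) ?_)
  · exact BB_ge p
  · unfold BB; linarith
  · unfold BB
    rw [Real.norm_eq_abs]
    nlinarith [sq_abs p.2.2, sq_nonneg (|p.2.2| - 1)]

theorem exists_phi (hm : ∀ k, 0 < m k) : ∃ φ, IsFlow (YY m) Dom φ := by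
  have hB : ∀ p, 0 < BB p := fun p => by linarith [BB_ge p, s2_nonneg p]
  have cB : Continuous BB := by unfold BB; fun_prop
  have hψ : ContDiffOn ℝ 1 psi Dom := by
    intro p hp
    refine ContDiffAt.contDiffWithinAt ?_
    have h1 : ContDiffAt ℝ 1 BB p := by unfold BB; fun_prop
    exact (cd_s2.log (ne_of_gt hp)).neg.add (contDiffAt_const.mul (h1.log (hB p).ne'))
  refine exists_flow isOpen_Dom (cd_YY hm) hψ (C := 10) (fun c => ?_) fun p hp => ?_
  · have e : {p | p ∈ Dom ∧ psi p ≤ c} = {p | BB p ^ 2 ≤ Real.exp c * s2 p} := by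
      ext p
      simp only [mem_ofPred_eq]
      constructor
      · rintro ⟨hp, h⟩
        have hp' : 0 < s2 p := hp
        rw [← Real.log_le_log_iff (pow_pos (hB p) 2) (mul_pos (Real.exp_pos c) hp'),
          Real.log_mul (Real.exp_pos c).ne' hp'.ne', Real.log_exp, Real.log_pow]
        unfold psi at h
        push_cast
        linarith
      · intro h
        have hp' : 0 < s2 p :=
          (mul_pos_iff_of_pos_left (Real.exp_pos c)).1 (lt_of_lt_of_le (pow_pos (hB p) 2) h)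
        refine ⟨hp', ?_⟩
        rw [← Real.log_le_log_iff (pow_pos (hB p) 2) (mul_pos (Real.exp_pos c) hp'),
          Real.log_mul (Real.exp_pos c).ne' hp'.ne', Real.log_exp, Real.log_pow] at h
        unfold psi
        push_cast at h
        linarith
    rw [e]
    refine Metric.isCompact_of_isClosed_isBounded (isClosed_le (by fun_prop) (by fun_prop)) ?_
    refine (isBounded_iff_forall_norm_le).2 ⟨Real.exp c, fun p hp => (norm_le_BB p).trans ?_⟩
    have h1 : BB p ^ 2 ≤ Real.exp c * s2 p := hp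
    have h2 : Real.exp c * s2 p ≤ Real.exp c * BB p := by
      have := BB_ge p
      gcongr; linarith
    have := hB p
    nlinarith
  · have hp' : 0 < s2 p := hp
    have hγ : HasDerivAt (fun t : ℝ => p + t • YY m p) (YY m p) 0 := by
      simpa using ((hasDerivAt_id (0:ℝ)).smul_const (YY m p)).const_add p
    have h0 : p + (0:ℝ) • YY m p = p := by simp
    have h1 : HasDerivAt (fun t : ℝ => psi (p + t • YY m p)) (fderiv ℝ psi p (YY m p)) 0 := by
      have := ((hψ.contDiffAt (isOpen_Dom.mem_nhds hp)).differentiableAt one_ne_zero).hasFDerivAt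
      rw [← h0] at this
      have := this.comp_hasDerivAt 0 hγ
      rw [h0] at this
      exact this
    have h2 : HasDerivAt (fun t : ℝ => s2 (p + t • YY m p))
        (∑ k, 2 * (conj (p.1 k) * (YY m p).1 k).re) 0 := by
      have := HasDerivAt.fun_sum (u := Finset.univ) fun k _ => hd_nsq (hd_z hγ k)
      simp only [h0] at this
      exact this
    have h3 : HasDerivAt (fun t : ℝ => BB (p + t • YY m p))
        (∑ k, 2 * (conj (p.1 k) * (YY m p).1 k).re
          + ∑ k, 2 * (conj (p.2.1 k) * (YY m p).2.1 k).re) 0 := by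
      have a := HasDerivAt.fun_sum (u := Finset.univ) fun k _ => hd_nsq (hd_y hγ k)
      simp only [h0] at a
      have b := (hd_h hγ).fun_pow 2
      refine (((h2.const_add 1).add a).add b).congr_deriv ?_
      simp [YY]
    have h4 := (h2.log (by rw [h0]; exact hp'.ne')).neg.add
      ((h3.log (by rw [h0]; exact (hB p).ne')).const_mul 2)
    rw [h0] at h4
    rw [h1.unique h4]
    have b1 : |∑ k, 2 * (conj (p.1 k) * (YY m p).1 k).re| ≤ 2 * s2 p := by
      refine (Finset.abs_sum_le_sum_abs _ _).trans ((Finset.sum_le_sum fun k _ =>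
        two_re_le _ _).trans ?_)
      rw [Finset.sum_add_distrib]
      have := Yz_le (m := m) hp
      show s2 p + ∑ k, normSq (al m p * Xz m p k) ≤ _
      linarith
    have b2 : |∑ k, 2 * (conj (p.2.1 k) * (YY m p).2.1 k).re| ≤ BB p := by
      refine (Finset.abs_sum_le_sum_abs _ _).trans ((Finset.sum_le_sum fun k _ =>
        two_re_le _ _).trans ?_)
      rw [Finset.sum_add_distrib]
      have := Yy_le (m := m) hp
      show _ + ∑ k, normSq (al m p * Xy m p k) ≤ _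
      unfold BB
      nlinarith [sq_nonneg p.2.2]
    generalize ∑ k, 2 * (conj (p.1 k) * (YY m p).1 k).re = A at *
    generalize ∑ k, 2 * (conj (p.2.1 k) * (YY m p).2.1 k).re = B at *
    have c1 : |A / s2 p| ≤ 2 := by
      rw [abs_div, abs_of_pos hp', div_le_iff₀ hp']; exact b1
    have c2 : |(A + B) / BB p| ≤ 3 := by
      rw [abs_div, abs_of_pos (hB p), div_le_iff₀ (hB p)]
      linarith [abs_add_le A B, BB_ge p]
    rw [abs_le] at c1 c2 ⊢
    constructor <;> linarith [c1.1, c1.2, c2.1, c2.2]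

end Pool.Agent.Lib.MP_6e7c44_mp.Hg
end
end

-- part Pool.Agent.Lib.MP_6e7c44_mp.HInv
section

/-!
Invariants, the moment of inertia, the Sundman function and the symmetries of the regularised flow.
-/

set_option autoImplicit false

open Set Filter Topology Metric Complex ComplexConjugate

noncomputable section

namespace Pool.Agent.Lib.MP_6e7c44_mp.Hg

variable (m : Fin 3 → ℝ)

def SQ (p : St) : ℂ := ∑ k, p.1 k ^ 2
def SB (p : St) : ℂ := ∑ k, bb p k
def Man : Set St := {p | p ∈ Dom ∧ SQ p = 0 ∧ SB p = 0 ∧ Gam m p = 0}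
def II (p : St) : ℝ := (∑ k, nn m k * aa p k ^ 2) / MM m
def rr (p : St) : ℝ := √(II m p)
def Jc (p : St) : ℂ := ∑ k, nn m k * (conj (p.1 k) * p.2.1 k)
def Ug (p : St) : ℝ := ∑ k, nn m k * (aa p (k + 1) * aa p (k + 2))
def FF (p : St) : ℝ := normSq (Jc m p) / rr m p - 2 * p.2.2 * rr m p
def Xi (p : St) : ℝ := 2 * II m p * (Ug m p + p.2.2 * gg p) - gg p * normSq (Jc m p)

@[fun_prop] lemma c_SQ : Continuous SQ := by unfold SQ; fun_prop
@[fun_prop] lemma c_SB : Continuous SB := by unfold SB; fun_prop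
@[fun_prop] lemma c_II : Continuous fun p => II m p := by unfold II; fun_prop
@[fun_prop] lemma c_rr : Continuous fun p => rr m p := by unfold rr; fun_prop
@[fun_prop] lemma c_Jc : Continuous fun p => Jc m p := by unfold Jc; fun_prop
@[fun_prop] lemma c_Ug : Continuous fun p => Ug m p := by unfold Ug; fun_prop
@[fun_prop] lemma c_Xi : Continuous fun p => Xi m p := by unfold Xi; fun_prop

lemma aa_coe (p : St) (k : Fin 3) : ((aa p k : ℝ) : ℂ) = p.1 k * conj (p.1 k) :=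
  (mul_conj _).symm

lemma nn_mul (k : Fin 3) : m k * nn m k = PP m := by rw [PP_eq m k, nn]; ring

lemma sum_zXz (p : St) : ∑ k, p.1 k * Xz m p k = 0 := by
  rw [sum3 _ 0]
  unfold Xz CC bb
  simp only [f11, f12, f21, f22, MM_eq m 0]
  push_cast
  simp only [aa_coe]
  ring

variable {m}

lemma MM_pos (hm : ∀ k, 0 < m k) : 0 < MM m := Finset.sum_pos (fun k _ => hm k) ⟨0, by simp⟩
lemma nn_pos (hm : ∀ k, 0 < m k) (k : Fin 3) : 0 < nn m k := mul_pos (hm _) (hm _)
lemma PP_pos (hm : ∀ k, 0 < m k) : 0 < PP m := mul_pos (mul_pos (hm _) (hm _)) (hm _)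
lemma MM_sub_pos (hm : ∀ k, 0 < m k) (k : Fin 3) : 0 < MM m - m k := by
  rw [MM_eq m k]; linarith [hm (k + 1), hm (k + 2)]

lemma exists_aa_pos {p : St} (hp : p ∈ Dom) : ∃ k, 0 < aa p k := by
  have h : 0 < s2 p := hp
  unfold s2 at h
  obtain ⟨k, -, hk⟩ := Finset.exists_lt_of_sum_lt (s := Finset.univ) (f := fun _ : Fin 3 => (0:ℝ))
    (g := fun k => aa p k) (by simpa using h)
  exact ⟨k, hk⟩

lemma II_nonneg (hm : ∀ k, 0 < m k) (p : St) : 0 ≤ II m p :=
  div_nonneg (Finset.sum_nonneg fun j _ => mul_nonneg (nn_pos hm j).le (sq_nonneg _))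
    (MM_pos hm).le

lemma II_pos (hm : ∀ k, 0 < m k) {p : St} (hp : p ∈ Dom) : 0 < II m p := by
  obtain ⟨k, hk⟩ := exists_aa_pos hp
  exact div_pos (Finset.sum_pos' (fun j _ => mul_nonneg (nn_pos hm j).le (sq_nonneg _))
    ⟨k, Finset.mem_univ _, mul_pos (nn_pos hm k) (pow_pos hk 2)⟩) (MM_pos hm)

lemma rr_pos (hm : ∀ k, 0 < m k) {p : St} (hp : p ∈ Dom) : 0 < rr m p :=
  Real.sqrt_pos.2 (II_pos hm hp)

lemma rr_sq (hm : ∀ k, 0 < m k) (p : St) : rr m p ^ 2 = II m p := Real.sq_sqrt (II_nonneg hm p)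

lemma mem_Dom_of_rr {p : St} (h : 0 < rr m p) : p ∈ Dom := by
  by_contra h1
  have h2 : s2 p = 0 := le_antisymm (not_lt.1 h1) (s2_nonneg p)
  have h3 : ∀ k, aa p k = 0 := fun k =>
    (Finset.sum_eq_zero_iff_of_nonneg fun j _ => aa_nonneg p j).1 h2 k (Finset.mem_univ k)
  simp [rr, II, h3] at h

lemma Ug_nonneg (hm : ∀ k, 0 < m k) (p : St) : 0 ≤ Ug m p :=
  Finset.sum_nonneg fun j _ => mul_nonneg (nn_pos hm j).le
    (mul_nonneg (aa_nonneg _ _) (aa_nonneg _ _))

lemma cAt_FF (hm : ∀ k, 0 < m k) {p : St} (hp : p ∈ Dom) : ContinuousAt (FF m) p := by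
  have := (rr_pos hm hp).ne'
  unfold FF; fun_prop (disch := assumption)

lemma cAt_al (hm : ∀ k, 0 < m k) {p : St} (hp : p ∈ Dom) : ContinuousAt (al m) p :=
  (cd_al hm hp (n := 0)).continuousAt

section curve
variable {γ : ℝ → St} {t : ℝ}

lemma cz (h : HasDerivAt γ (YY m (γ t)) t) (k : Fin 3) :
    HasDerivAt (fun s => (γ s).1 k) (al m (γ t) * Xz m (γ t) k) t := hd_z h k

lemma cy (h : HasDerivAt γ (YY m (γ t)) t) (k : Fin 3) :
    HasDerivAt (fun s => (γ s).2.1 k) (al m (γ t) * Xy m (γ t) k) t := hd_y h k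

lemma ch (h : HasDerivAt γ (YY m (γ t)) t) : HasDerivAt (fun s => (γ s).2.2) 0 t := hd_h h

lemma ca (h : HasDerivAt γ (YY m (γ t)) t) (k : Fin 3) : HasDerivAt (fun s => aa (γ s) k)
    (2 * (conj ((γ t).1 k) * (al m (γ t) * Xz m (γ t) k)).re) t := hd_nsq (cz h k)

lemma cb (h : HasDerivAt γ (YY m (γ t)) t) (k : Fin 3) : HasDerivAt (fun s => bb (γ s) k)
    (al m (γ t) * Xy m (γ t) k * (γ t).1 k + (γ t).2.1 k * (al m (γ t) * Xz m (γ t) k)) t :=
  (cy h k).mul (cz h k)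

lemma cE (h : HasDerivAt γ (YY m (γ t)) t) (k : Fin 3) : HasDerivAt (fun s => EE m (γ s) k)
    ((MM m - m k) * (2 * (conj ((γ t).2.1 k) * (al m (γ t) * Xy m (γ t) k)).re) / 2) t :=
  (((hd_nsq (cy h k)).const_mul _).div_const 2).sub_const 1

lemma cSQ (h : HasDerivAt γ (YY m (γ t)) t) : HasDerivAt (fun s => SQ (γ s)) 0 t := by
  refine (HasDerivAt.fun_sum (u := Finset.univ) fun k _ => (cz h k).fun_pow 2).congr_deriv ?_
  have := sum_zXz m (γ t)
  rw [sum3 _ 0] at this ⊢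
  simp only [Nat.cast_ofNat, Nat.add_one_sub_one, pow_one]
  linear_combination 2 * (al m (γ t) : ℂ) * this

lemma cSB (hm : ∀ k, 0 < m k) (hp : γ t ∈ Dom) (h : HasDerivAt γ (YY m (γ t)) t) :
    HasDerivAt (fun s => SB (γ s)) 0 t := by
  refine (HasDerivAt.fun_sum (u := Finset.univ) fun k _ => cb h k).congr_deriv ?_
  have h1 : ((den m (γ t) : ℝ) : ℂ) ≠ 0 := ofReal_ne_zero.2 (den_pos hm hp).ne'
  have h2 : bet m (γ t) * den m (γ t)
      = ∑ k, (X0 m (γ t) k * (γ t).1 k + (γ t).2.1 k * Xz m (γ t) k) := by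
    unfold bet; push_cast; field_simp
  unfold den at h2
  push_cast at h2
  simp only [aa_coe] at h2
  unfold Xy
  rw [sum3 _ 0] at h2 ⊢
  rw [sum3 _ 0] at h2
  linear_combination -(al m (γ t) : ℂ) * h2

lemma gam_k (hm : ∀ k, 0 < m k) (p : St) (k : Fin 3) (a : ℝ) :
    nn m k * ((MM m - m k) * (2 * (conj (p.2.1 k) * (a * Xy m p k)).re) / 2)
        * (aa p (k + 1) * aa p (k + 2))
      + 2 * (conj (p.1 k) * (a * Xz m p k)).re * DD m p k
      - PP m * ((a * Xy m p k * p.1 k + p.2.1 k * (a * Xz m p k)) * conj (CC p k)).re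
      = -2 * a * PP m * (bet m p * conj (p.1 k * Xz m p k)).re := by
  have h1 := (nn_pos hm k).ne'
  have h2 : DD m p k = nn m k * (DD m p k / nn m k) := by field_simp
  rw [← nn_mul m k]
  unfold Xy X0 Xz
  generalize DD m p k / nn m k = d at h2 ⊢
  rw [h2]
  generalize CC p k = C
  generalize aa p (k + 1) * aa p (k + 2) = A
  generalize bet m p = b
  generalize MM m - m k = μ
  simp only [mul_re, mul_im, add_re, add_im, sub_re, sub_im, neg_re, neg_im, conj_re, conj_im,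
    ofReal_re, ofReal_im, div_ofNat_re, div_ofNat_im]
  ring

lemma cGam (hm : ∀ k, 0 < m k) (h : HasDerivAt γ (YY m (γ t)) t) :
    HasDerivAt (fun s => Gam m (γ s)) 0 t := by
  have h1 := HasDerivAt.fun_sum (u := Finset.univ) fun k _ =>
    (((cE h k).const_mul (nn m k)).mul ((ca h (k + 1)).mul (ca h (k + 2)))).sub
      (((ca h k).mul (hd_re ((cb h (k + 1)).mul (hd_conj (cb h (k + 2)))))).const_mul (PP m))
  have h2 := (ch h).mul (((ca h 0).mul (ca h 1)).mul (ca h 2))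
  refine (h1.sub h2).congr_deriv ?_
  have g0 := gam_k hm (γ t) 0 (al m (γ t))
  have g1 := gam_k hm (γ t) (0 + 1) (al m (γ t))
  have g2 := gam_k hm (γ t) (0 + 2) (al m (γ t))
  have g3 := congrArg (fun w => (bet m (γ t) * conj w).re) (sum_zXz m (γ t))
  simp only [sum3 _ 0, map_add, mul_add, add_re, map_zero, mul_zero, zero_re] at g3
  rw [sum3 _ 0]
  simp only [Pi.mul_apply]
  unfold DD CC at g0 g1 g2
  simp only [f11, f12, f21, f22] at g0 g1 g2 ⊢
  simp only [zero_add] at g0 g1 g2 g3 ⊢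
  generalize (al m (γ t) : ℂ) * Xy m (γ t) 0 * (γ t).1 0
    + (γ t).2.1 0 * (al m (γ t) * Xz m (γ t) 0) = b0 at *
  generalize (al m (γ t) : ℂ) * Xy m (γ t) 1 * (γ t).1 1
    + (γ t).2.1 1 * (al m (γ t) * Xz m (γ t) 1) = b1 at *
  generalize (al m (γ t) : ℂ) * Xy m (γ t) 2 * (γ t).1 2
    + (γ t).2.1 2 * (al m (γ t) * Xz m (γ t) 2) = b2 at *
  simp only [map_add, map_mul, conj_ofReal, mul_re (_ : ℂ) (_ + _), add_re, add_im,
    mul_re (_ : ℂ) (conj b0), mul_re (_ : ℂ) (conj b1), mul_re (_ : ℂ) (conj b2),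
    mul_re b0, mul_re b1, mul_re b2, re_ofReal_mul, im_ofReal_mul, conj_re, conj_im]
    at g0 g1 g2 ⊢
  simp only [map_mul] at g3
  linear_combination g0 + g1 + g2 - 2 * al m (γ t) * PP m * g3

lemma cII (hm : ∀ k, 0 < m k) (hq : SQ (γ t) = 0) (h : HasDerivAt γ (YY m (γ t)) t) :
    HasDerivAt (fun s => II m (γ s)) (2 * (al m (γ t) * gg (γ t)) * (Jc m (γ t)).re) t := by
  refine ((HasDerivAt.fun_sum (u := Finset.univ) fun k _ =>
    ((ca h k).fun_pow 2).const_mul (nn m k)).div_const (MM m)).congr_deriv ?_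
  have hM := (MM_pos hm).ne'
  rw [div_eq_iff hM]
  set p := γ t
  have key : ∑ k, (nn m k * aa p k : ℝ) * (conj (p.1 k) * Xz m p k)
      = (MM m * gg p / 2 : ℝ) * Jc m p := by
    have h1 := congrArg conj hq
    unfold SQ at h1
    unfold Jc Xz CC bb gg nn
    rw [sum3 _ 0] at h1 ⊢
    rw [sum3 _ 0]
    simp only [f11, f12, f21, f22, MM_eq m 0, map_add, map_pow, map_zero] at h1 ⊢
    simp only [zero_add] at h1 ⊢
    push_cast
    simp only [aa_coe]
    linear_combination -(1 / 2 : ℂ) * (m 0 * m 1 * m 2) * (p.2.1 0 * p.1 0 * (p.1 1 * conj (p.1 1))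
      * (p.1 2 * conj (p.1 2)) + p.2.1 1 * p.1 1 * (p.1 2 * conj (p.1 2)) * (p.1 0 * conj (p.1 0))
      + p.2.1 2 * p.1 2 * (p.1 0 * conj (p.1 0)) * (p.1 1 * conj (p.1 1))) * h1
  have k2 := congrArg re key
  rw [re_ofReal_mul, sum3 _ 0] at k2
  rw [sum3 _ 0]
  simp only [add_re, re_ofReal_mul, mul_left_comm (conj _ : ℂ) (al m p : ℂ)] at k2 ⊢
  simp only [Nat.cast_ofNat, Nat.add_one_sub_one, pow_one]
  linear_combination 4 * al m p * k2

lemma cJc (hm : ∀ k, 0 < m k) (hp : γ t ∈ Man m) (h : HasDerivAt γ (YY m (γ t)) t) :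
    HasDerivAt (fun s => Jc m (γ s))
      ((al m (γ t) * (Ug m (γ t) + 2 * (γ t).2.2 * gg (γ t)) : ℝ) : ℂ) t := by
  refine (HasDerivAt.fun_sum (u := Finset.univ) fun k _ =>
    ((hd_conj (cz h k)).mul (cy h k)).const_mul (nn m k : ℂ)).congr_deriv ?_
  set p := γ t
  have h1 := congrArg conj hp.2.1
  have h2 := congrArg (fun x : ℝ => (x : ℂ)) hp.2.2.2
  have hd : ∀ k, ((DD m p k / nn m k : ℝ) : ℂ) * nn m k = DD m p k := fun k => by
    have := ofReal_ne_zero.2 (nn_pos hm k).ne'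
    push_cast; field_simp
  have d0 := hd 0
  have d1 := hd 1
  have d2 := hd 2
  have hre : ∀ w : ℂ, ((w.re : ℝ) : ℂ) = (w + conj w) / 2 := fun w => by
    rw [add_conj]; push_cast; ring
  unfold SQ at h1
  unfold Gam at h2
  unfold Xy X0 Xz Ug
  rw [sum3 _ 0] at h1 h2 ⊢
  rw [sum3 _ 0]
  simp only [zero_add] at h1 h2 ⊢
  generalize ((DD m p 0 / nn m 0 : ℝ) : ℂ) = e0 at *
  generalize ((DD m p 1 / nn m 1 : ℝ) : ℂ) = e1 at *
  generalize ((DD m p 2 / nn m 2 : ℝ) : ℂ) = e2 at *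
  unfold DD at d0 d1 d2
  unfold CC EE bb gg nn PP at *
  simp only [map_add, map_pow, map_zero, map_mul, map_sub, map_div₀, conj_ofReal, conj_conj,
    map_ofNat, Fin.reduceAdd, MM_eq m 0] at h1 h2 d0 d1 d2 ⊢
  push_cast at h2 d0 d1 d2 ⊢
  simp only [aa_coe, hre, ← mul_conj, map_mul, conj_conj] at h2 d0 d1 d2 ⊢
  linear_combination (al m p : ℂ) * (-(m 0 * m 1 * m 2) * bet m p * h1 - h2
    - p.1 0 * conj (p.1 0) * d0 - p.1 1 * conj (p.1 1) * d1 - p.1 2 * conj (p.1 2) * d2)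

lemma crr (hm : ∀ k, 0 < m k) (hp : γ t ∈ Man m) (h : HasDerivAt γ (YY m (γ t)) t) :
    HasDerivAt (fun s => rr m (γ s))
      (al m (γ t) * gg (γ t) * (Jc m (γ t)).re / rr m (γ t)) t := by
  refine ((cII hm hp.2.1 h).sqrt (II_pos hm hp.1).ne').congr_deriv ?_
  have := (rr_pos hm hp.1).ne'
  unfold rr at *
  field_simp

lemma cFF (hm : ∀ k, 0 < m k) (hp : γ t ∈ Man m) (h : HasDerivAt γ (YY m (γ t)) t) :
    HasDerivAt (fun s => FF m (γ s))
      (al m (γ t) * ((Jc m (γ t)).re / rr m (γ t) ^ 3) * Xi m (γ t)) t := by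
  have h0 := (rr_pos hm hp.1).ne'
  refine (((hd_nsq (cJc hm hp h)).div (crr hm hp h) h0).sub
    (((ch h).const_mul 2).mul (crr hm hp h))).congr_deriv ?_
  unfold Xi
  rw [← rr_sq hm, mul_comm (conj _), re_ofReal_mul, conj_re]
  field_simp
  ring

end curve

section flow
variable {φ : ℝ → St → St}

lemma const_of {A : Type*} [NormedAddCommGroup A] [NormedSpace ℝ A] {f : ℝ → A}
    (h : ∀ t, HasDerivAt f 0 t) (t : ℝ) : f t = f 0 :=
  is_const_of_deriv_eq_zero (fun t => (h t).differentiableAt) (fun t => (h t).deriv) t 0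

lemma flow_h (hφ : IsFlow (YY m) Dom φ) {p : St} (hp : p ∈ Dom) (t : ℝ) :
    (φ t p).2.2 = p.2.2 := by
  simpa only [hφ.zero] using const_of (fun t => ch (hφ.deriv p hp t)) t

lemma flow_Man (hm : ∀ k, 0 < m k) (hφ : IsFlow (YY m) Dom φ) {p : St} (hp : p ∈ Man m) (t : ℝ) :
    φ t p ∈ Man m := by
  refine ⟨hφ.mem p hp.1 t, ?_, ?_, ?_⟩
  · simpa only [hφ.zero, hp.2.1] using const_of (fun t => cSQ (hφ.deriv p hp.1 t)) t
  · simpa only [hφ.zero, hp.2.2.1] using
      const_of (fun t => cSB hm (hφ.mem p hp.1 t) (hφ.deriv p hp.1 t)) t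
  · simpa only [hφ.zero, hp.2.2.2] using const_of (fun t => cGam hm (hφ.deriv p hp.1 t)) t

lemma flow_c (hm : ∀ k, 0 < m k) (hφ : IsFlow (YY m) Dom φ) {p : St} (hp : p ∈ Man m) (t : ℝ) :
    (Jc m (φ t p)).im = (Jc m p).im := by
  have := const_of (f := fun t => (Jc m (φ t p)).im) (fun t => by
    simpa only [ofReal_im] using hd_im (cJc hm (flow_Man hm hφ hp t) (hφ.deriv p hp.1 t))) t
  simpa only [hφ.zero] using this

end flow

end Pool.Agent.Lib.MP_6e7c44_mp.Hg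
end
end

-- part Pool.Agent.Lib.MP_6e7c44_mp.HSym
section

/-!
Scaling and reflection symmetries of the regularised flow.
-/

set_option autoImplicit false

open Set Filter Topology Metric Complex ComplexConjugate

noncomputable section

namespace Pool.Agent.Lib.MP_6e7c44_mp.Hg

def sc (l : ℝ) : St →L[ℝ] St :=
  (l • ContinuousLinearMap.id ℝ _).prodMap
    ((ContinuousLinearMap.id ℝ _).prodMap ((l ^ 2)⁻¹ • ContinuousLinearMap.id ℝ ℝ))

variable {m : Fin 3 → ℝ} {l : ℝ} {p : St}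

lemma sc_z (k : Fin 3) : (sc l p).1 k = l * p.1 k := by simp [sc]
lemma sc_y : (sc l p).2.1 = p.2.1 := by simp [sc]
lemma sc_h : (sc l p).2.2 = (l ^ 2)⁻¹ * p.2.2 := by simp [sc]
lemma sc_aa (k : Fin 3) : aa (sc l p) k = l ^ 2 * aa p k := by
  simp only [aa, sc_z, map_mul, normSq_ofReal]; ring
lemma sc_bb (k : Fin 3) : bb (sc l p) k = l * bb p k := by
  simp only [bb, sc_z, sc_y]; ring
lemma sc_EE (k : Fin 3) : EE m (sc l p) k = EE m p k := by simp only [EE, sc_y]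
lemma sc_CC (k : Fin 3) : CC (sc l p) k = l ^ 3 * CC p k := by
  simp only [CC, sc_aa, sc_bb]; push_cast; ring
lemma sc_DD (hl : l ≠ 0) (k : Fin 3) : DD m (sc l p) k = l ^ 2 * DD m p k := by
  simp only [DD, sc_aa, sc_bb, sc_EE, sc_h, map_mul, conj_ofReal, mul_re, mul_im, ofReal_re,
    ofReal_im, conj_re, conj_im]
  field_simp
  ring
lemma sc_Xz (k : Fin 3) : Xz m (sc l p) k = l ^ 4 * Xz m p k := by
  simp only [Xz, sc_aa, sc_CC, sc_z, sc_y, map_mul, conj_ofReal]; push_cast; ring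
lemma sc_X0 (hl : l ≠ 0) (k : Fin 3) : X0 m (sc l p) k = l ^ 3 * X0 m p k := by
  simp only [X0, sc_DD hl, sc_CC, sc_z, sc_y]; push_cast; ring
lemma sc_den : den m (sc l p) = l ^ 2 * den m p := by
  simp only [den, sc_aa, Finset.mul_sum]; exact Finset.sum_congr rfl fun _ _ => by ring
lemma sc_bet (hl : l ≠ 0) : bet m (sc l p) = l ^ 2 * bet m p := by
  have : (l : ℂ) ≠ 0 := ofReal_ne_zero.2 hl
  simp only [bet, sc_X0 hl, sc_Xz, sc_z, sc_y, sc_den, sum3 _ 0]
  push_cast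
  rw [mul_inv]
  generalize ((den m p : ℂ))⁻¹ = d
  field_simp
lemma sc_Xy (hl : l ≠ 0) (k : Fin 3) : Xy m (sc l p) k = l ^ 3 * Xy m p k := by
  simp only [Xy, sc_X0 hl, sc_bet hl, sc_z, map_mul, conj_ofReal]; ring
lemma sc_s2 : s2 (sc l p) = l ^ 2 * s2 p := by simp only [s2, sc_aa, Finset.mul_sum]
lemma sc_rad (hl : l ≠ 0) : rad m (sc l p) = (l ^ 3) ^ 2 * rad m p := by
  simp only [rad, sc_s2, sc_Xz, sc_Xy hl, map_mul, map_pow, normSq_ofReal, ← Finset.mul_sum]
  rw [mul_inv]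
  generalize (s2 p)⁻¹ = d
  field_simp
lemma sc_al (hl : 0 < l) : al m (sc l p) = (l ^ 3)⁻¹ * al m p := by
  simp only [al, sc_rad hl.ne']
  rw [Real.sqrt_mul (sq_nonneg _), Real.sqrt_sq (by positivity), mul_inv]
lemma sc_Dom (hl : l ≠ 0) (hp : p ∈ Dom) : sc l p ∈ Dom := by
  show 0 < s2 (sc l p)
  rw [sc_s2]
  exact mul_pos (by positivity) hp
lemma sc_YY (hl : 0 < l) : YY m (sc l p) = sc l (YY m p) := by
  have : (l : ℂ) ≠ 0 := ofReal_ne_zero.2 hl.ne'
  refine Prod.ext (funext fun k => ?_) (Prod.ext (funext fun k => ?_) ?_)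
  · rw [sc_z]
    simp only [YY, sc_al hl, sc_Xz]
    push_cast; field_simp
  · rw [sc_y]
    simp only [YY, sc_al hl, sc_Xy hl.ne']
    push_cast; field_simp
  · rw [sc_h]; simp only [YY, mul_zero]
lemma sc_gg : gg (sc l p) = l ^ 6 * gg p := by simp only [gg, sc_aa]; ring
lemma sc_Gam (hl : l ≠ 0) : Gam m (sc l p) = l ^ 4 * Gam m p := by
  simp only [Gam_eq m _ 0, sc_aa, sc_bb, sc_EE, sc_CC, sc_DD hl, map_mul, map_pow, conj_ofReal,
    ← ofReal_pow, mul_re, mul_im, ofReal_re, ofReal_im, conj_re, conj_im]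
  ring
lemma sc_Man (hl : l ≠ 0) (hp : p ∈ Man m) : sc l p ∈ Man m := by
  refine ⟨sc_Dom hl hp.1, ?_, ?_, by rw [sc_Gam hl, hp.2.2.2, mul_zero]⟩
  · have := hp.2.1
    simp only [SQ, sc_z, mul_pow, ← Finset.mul_sum] at this ⊢
    rw [this, mul_zero]
  · have := hp.2.2.1
    simp only [SB, sc_bb, ← Finset.mul_sum] at this ⊢
    rw [this, mul_zero]
lemma sc_II : II m (sc l p) = (l ^ 2) ^ 2 * II m p := by
  simp only [II, sc_aa, sum3 _ 0]; ring
lemma sc_rr : rr m (sc l p) = l ^ 2 * rr m p := by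
  simp only [rr, sc_II]
  rw [Real.sqrt_mul (sq_nonneg _), Real.sqrt_sq (by positivity)]
lemma sc_Jc : Jc m (sc l p) = l * Jc m p := by
  simp only [Jc, sc_z, sc_y, map_mul, conj_ofReal, sum3 _ 0]; ring
lemma sc_FF (hl : l ≠ 0) : FF m (sc l p) = FF m p := by
  simp only [FF, sc_Jc, sc_rr, sc_h, map_mul, normSq_ofReal, div_eq_mul_inv, mul_inv]
  generalize (rr m p)⁻¹ = d
  field_simp

lemma flow_sc {φ : ℝ → St → St} (hφ : IsFlow (YY m) Dom φ) (hl : 0 < l) (hp : p ∈ Dom) (t : ℝ) :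
    φ t (sc l p) = sc l (φ t p) :=
  hφ.symm (sc l) (fun _ hx => ⟨sc_Dom hl.ne' hx, sc_YY hl⟩) hp t

/-- The scaling factor that normalises the moment of inertia. -/
def nf (m : Fin 3 → ℝ) (p : St) : ℝ := (√(rr m p))⁻¹

lemma nf_pos (hm : ∀ k, 0 < m k) (hp : p ∈ Dom) : 0 < nf m p :=
  inv_pos.2 (Real.sqrt_pos.2 (rr_pos hm hp))

lemma nf_sq (hm : ∀ k, 0 < m k) (hp : p ∈ Dom) : nf m p ^ 2 * rr m p = 1 := by
  unfold nf
  rw [inv_pow, Real.sq_sqrt (rr_pos hm hp).le, inv_mul_cancel₀ (rr_pos hm hp).ne']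

lemma rr_nf (hm : ∀ k, 0 < m k) (hp : p ∈ Dom) : rr m (sc (nf m p) p) = 1 := by
  rw [sc_rr, nf_sq hm hp]

def rfv (u : Fin 3 → ℂ) : (Fin 3 → ℂ) →L[ℝ] (Fin 3 → ℂ) :=
  ContinuousLinearMap.pi fun k => u k • (Complex.conjCLE.toContinuousLinearMap.comp
    (ContinuousLinearMap.proj k))

def rf (u : Fin 3 → ℂ) : St →L[ℝ] St :=
  (rfv u).prodMap ((rfv u).prodMap (ContinuousLinearMap.id ℝ ℝ))

variable {u : Fin 3 → ℂ} {w : ℂ}

lemma rf_z (k : Fin 3) : (rf u p).1 k = u k * conj (p.1 k) := by simp [rf, rfv]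
lemma rf_y (k : Fin 3) : (rf u p).2.1 k = u k * conj (p.2.1 k) := by simp [rf, rfv]
lemma rf_h : (rf u p).2.2 = p.2.2 := by simp [rf]

/-- Admissible reflection data. -/
structure Refl (u : Fin 3 → ℂ) (w : ℂ) : Prop where
  unit : ∀ k, u k * conj (u k) = 1
  sq : ∀ k, u k ^ 2 = w

lemma Refl.nsq (h : Refl u w) (k : Fin 3) : normSq (u k) = 1 := by
  have := h.unit k
  rw [mul_conj] at this
  exact_mod_cast this

lemma Refl.w_unit (h : Refl u w) : w * conj w = 1 := by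
  rw [← h.sq 0, map_pow, ← mul_pow, h.unit, one_pow]

lemma Refl.cw (h : Refl u w) (k : Fin 3) : conj (u k) * w = u k := by
  rw [← h.sq k]; linear_combination u k * h.unit k

lemma rf_aa (h : Refl u w) (k : Fin 3) : aa (rf u p) k = aa p k := by
  simp only [aa, rf_z, map_mul, normSq_conj, h.nsq, one_mul]
lemma rf_bb (h : Refl u w) (k : Fin 3) : bb (rf u p) k = w * conj (bb p k) := by
  simp only [bb, rf_z, rf_y, map_mul, ← h.sq k]; ring
lemma rf_EE (h : Refl u w) (k : Fin 3) : EE m (rf u p) k = EE m p k := by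
  simp only [EE, rf_y, map_mul, normSq_conj, h.nsq, one_mul]
lemma rf_CC (h : Refl u w) (k : Fin 3) : CC (rf u p) k = w * conj (CC p k) := by
  simp only [CC, rf_aa h, rf_bb h, map_add, map_mul, conj_ofReal]; ring
lemma rf_DD (h : Refl u w) (k : Fin 3) : DD m (rf u p) k = DD m p k := by
  have : ∀ a b : ℂ, (w * conj a * conj (w * conj b)).re = (a * conj b).re := fun a b => by
    have : w * conj a * conj (w * conj b) = conj (a * conj b) := by
      simp only [map_mul, conj_conj]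
      linear_combination conj a * b * h.w_unit
    rw [this, conj_re]
  simp only [DD, rf_aa h, rf_bb h, rf_EE h, rf_h, this]
lemma rf_Xz (h : Refl u w) (k : Fin 3) : Xz m (rf u p) k = u k * conj (Xz m p k) := by
  simp only [Xz, rf_aa h, rf_CC h, rf_z, rf_y, map_mul, map_sub, map_div₀, conj_ofReal, conj_conj,
    map_ofNat]
  linear_combination -(m k * p.1 k * conj (CC p k) / 2) * h.cw k
lemma rf_X0 (h : Refl u w) (k : Fin 3) : X0 m (rf u p) k = u k * conj (X0 m p k) := by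
  simp only [X0, rf_DD h, rf_CC h, rf_z, rf_y, map_mul, map_add, map_neg, map_div₀, conj_ofReal,
    conj_conj, map_ofNat]
  linear_combination (m k * p.2.1 k * conj (CC p k) / 2) * h.cw k
lemma rf_bet (h : Refl u w) : bet m (rf u p) = w * conj (bet m p) := by
  simp only [bet, den, rf_aa h, rf_X0 h, rf_Xz h, rf_z, rf_y, map_mul, map_add, conj_ofReal,
    sum3 _ 0]
  generalize (((m 0 * aa p 0 + m (0 + 1) * aa p (0 + 1) + m (0 + 2) * aa p (0 + 2))⁻¹ : ℝ) : ℂ) = d
  linear_combination d * ((conj (X0 m p 0) * conj (p.1 0) + conj (p.2.1 0) * conj (Xz m p 0))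
    * h.sq 0 + (conj (X0 m p (0 + 1)) * conj (p.1 (0 + 1))
      + conj (p.2.1 (0 + 1)) * conj (Xz m p (0 + 1))) * h.sq (0 + 1)
    + (conj (X0 m p (0 + 2)) * conj (p.1 (0 + 2))
      + conj (p.2.1 (0 + 2)) * conj (Xz m p (0 + 2))) * h.sq (0 + 2))
lemma rf_Xy (h : Refl u w) (k : Fin 3) : Xy m (rf u p) k = u k * conj (Xy m p k) := by
  simp only [Xy, rf_X0 h, rf_bet h, rf_z, map_mul, map_sub, conj_ofReal, conj_conj]
  linear_combination -(m k * p.1 k * conj (bet m p)) * h.cw k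
lemma rf_s2 (h : Refl u w) : s2 (rf u p) = s2 p := by simp only [s2, rf_aa h]
lemma rf_al (h : Refl u w) : al m (rf u p) = al m p := by
  simp only [al, rad, rf_s2 h, rf_Xz h, rf_Xy h, map_mul, normSq_conj, h.nsq, one_mul]
lemma rf_YY (h : Refl u w) : YY m (rf u p) = rf u (YY m p) := by
  refine Prod.ext (funext fun k => ?_) (Prod.ext (funext fun k => ?_) ?_)
  · rw [rf_z]
    simp only [YY, rf_al h, rf_Xz h, map_mul, conj_ofReal]; ring
  · rw [rf_y]
    simp only [YY, rf_al h, rf_Xy h, map_mul, conj_ofReal]; ring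
  · rw [rf_h]; simp only [YY]

lemma flow_rf {φ : ℝ → St → St} (hφ : IsFlow (YY m) Dom φ) (h : Refl u w) (hp : p ∈ Dom)
    (hf : rf u p = p) (t : ℝ) : rf u (φ t p) = φ t p := by
  rw [← hφ.symm (rf u) (fun x hx => ⟨by
    show 0 < s2 (rf u x)
    rw [rf_s2 h]; exact hx, rf_YY h⟩) hp t, hf]

lemma rf_sc : rf u (sc l p) = sc l (rf u p) := by
  refine Prod.ext (funext fun k => ?_) (Prod.ext (funext fun k => ?_) ?_)
  · simp only [rf_z, sc_z, map_mul, conj_ofReal]; ring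
  · simp only [rf_y, sc_y]
  · simp only [rf_h, sc_h]

end Pool.Agent.Lib.MP_6e7c44_mp.Hg
end
end
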