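import Pool.Agent.Lib.MP_6e7c44_mp.Barrier
import Pool.Agent.Lib.MP_6e7c44_mp.Chain

/-!
From a small neighbourhood of the relative equilibrium to escape, in relative coordinates.
-/

set_option autoImplicit false

namespace Pool.Agent.Lib.MP_6e7c44_mp

open Set Complex Filter

lemma cmb_eq (z w : ℂ) : cmb z w = tri (z.re + w.re) (z.im + w.im)
    (-(z.re + w.re) / 2 - √3 / 2 * (z.im - w.im)) (-(z.im + w.im) / 2 + √3 / 2 * (z.re - w.re)) := by
  have h2 : ze ^ 2 = ⟨-1 / 2, -(√3 / 2)⟩ := by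
    rw [← conj_ze]; apply Complex.ext <;> simp [ze]
  funext k
  fin_cases k
  · apply Complex.ext <;> simp [cmb, tri]
  · simp only [cmb, h2]
    apply Complex.ext <;> simp [tri, ze] <;> ring
  · simp only [cmb, h2]
    apply Complex.ext <;> simp [tri, ze] <;> ring

lemma cmb_sum (z w : ℂ) : cmb z w 0 + cmb z w 1 + cmb z w 2 = 0 := by
  simp only [cmb, Matrix.cons_val]
  linear_combination (z + w) * ze_rel

lemma cmb_close {z w : ℂ} {a b c d r η : ℝ} (h1 : |z.re - a| ≤ η) (h2 : |z.im - b| ≤ η)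
    (h3 : |w.re - c| ≤ η) (h4 : |w.im - d| ≤ η) (hr : |√3 - r| ≤ η) (h5 : |a - c| ≤ 2)
    (h6 : |b - d| ≤ 2) :
    n3 (cmb z w - tri (a + c) (b + d) (-(a + c) / 2 - r / 2 * (b - d))
      (-(b + d) / 2 + r / 2 * (a - c))) ≤ 24 * η := by
  have hη : 0 ≤ η := le_trans (abs_nonneg _) h1
  have h3' : √3 ≤ 2 := by rw [Real.sqrt_le_iff]; norm_num
  have h3'' : 0 ≤ √3 := Real.sqrt_nonneg _
  have key : ∀ {x y p q : ℝ}, |x - p| ≤ η → |y - q| ≤ η → |p - q| ≤ 2 →
      |√3 / 2 * (x - y) - r / 2 * (p - q)| ≤ 3 * η := by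
    intro x y p q k1 k2 k3
    have e : √3 / 2 * (x - y) - r / 2 * (p - q)
        = √3 / 2 * ((x - p) - (y - q)) + (√3 - r) * (p - q) / 2 := by ring
    rw [e]
    have c1 : |√3 / 2 * ((x - p) - (y - q))| ≤ 1 * (2 * η) := by
      rw [abs_mul]
      apply mul_le_mul _ _ (abs_nonneg _) (by norm_num)
      · rw [abs_of_nonneg (by positivity)]; linarith
      · linarith [abs_sub (x - p) (y - q)]
    have c2 : |(√3 - r) * (p - q) / 2| ≤ η * 2 / 2 := by
      rw [abs_div, abs_mul, abs_two]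
      gcongr
    linarith [abs_add_le (√3 / 2 * ((x - p) - (y - q))) ((√3 - r) * (p - q) / 2)]
  have k1 := abs_le.mp (key h2 h4 h6)
  have k2 := abs_le.mp (key h1 h3 h5)
  rw [cmb_eq, tri_sub]
  refine le_trans (n3_tri _ _ _ _) ?_
  rw [abs_le] at h1 h2 h3 h4
  have c1 : |z.re + w.re - (a + c)| ≤ 2 * η := by rw [abs_le]; constructor <;> linarith
  have c2 : |z.im + w.im - (b + d)| ≤ 2 * η := by rw [abs_le]; constructor <;> linarith
  have c3 : |-(z.re + w.re) / 2 - √3 / 2 * (z.im - w.im) - (-(a + c) / 2 - r / 2 * (b - d))|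
      ≤ 4 * η := by rw [abs_le]; constructor <;> linarith
  have c4 : |-(z.im + w.im) / 2 + √3 / 2 * (z.re - w.re) - (-(b + d) / 2 + r / 2 * (a - c))|
      ≤ 4 * η := by rw [abs_le]; constructor <;> linarith
  linarith

lemma sqrt_close {x : ℝ} {r η : ℚ} (hx : 0 ≤ x) (h0 : 0 ≤ r) (hη : 0 ≤ η) (n : ℚ) (hn : (n : ℝ) = x)
    (h1 : r ^ 2 ≤ n) (h2 : n ≤ (r + η) ^ 2) : |√x - r| ≤ η := by
  have a0 : (0 : ℝ) ≤ r := by exact_mod_cast h0
  have a1 : (0 : ℝ) ≤ η := by exact_mod_cast hη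
  have a2 : (r : ℝ) ^ 2 ≤ x := by rw [← hn]; exact_mod_cast h1
  have a3 : x ≤ ((r : ℝ) + η) ^ 2 := by rw [← hn]; exact_mod_cast h2
  have b1 : (r : ℝ) ≤ √x := Real.le_sqrt_of_sq_le a2
  have b2 : √x ≤ r + η := Real.sqrt_le_iff.mpr ⟨by linarith, a3⟩
  rw [abs_le]; constructor <;> linarith

lemma r2_close : |√2 - (r2 : ℝ)| ≤ ((sq ^ 3 : ℚ) : ℝ) :=
  sqrt_close (by norm_num) (by decide +kernel) (by decide +kernel) 2 (by norm_num)
    (by decide +kernel) (by decide +kernel)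

lemma r3_close : |√3 - (r3 : ℝ)| ≤ ((sq ^ 3 : ℚ) : ℝ) :=
  sqrt_close (by norm_num) (by decide +kernel) (by decide +kernel) 3 (by norm_num)
    (by decide +kernel) (by decide +kernel)

lemma sq_cast : (sq : ℝ) = sig := by unfold sq sig; push_cast; rfl

lemma start_close : n3 (DL 0 - s0.D) ≤ 24 * sig ^ 3 ∧ n3 (VL 0 - s0.V) ≤ 24 * sig ^ 3 := by
  have h2 := r2_close
  have h3 := r3_close
  push_cast at h2 h3
  rw [sq_cast] at h2 h3
  have hs0 := sig_pos
  have hs1 : sig ≤ 1 / 200 := by unfold sig; norm_num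
  have hb := s2_bounds
  have hss := s2_sq
  have hη : 0 ≤ sig ^ 3 := by positivity
  have hη1 : sig ^ 3 ≤ 1 / 1000 :=
    le_trans (pow_le_pow_left₀ hs0.le hs1 3) (by norm_num)
  have hs2 : sig ^ 2 ≤ 1 / 1000 :=
    le_trans (pow_le_pow_left₀ hs0.le hs1 2) (by norm_num)
  have hs2' : 0 ≤ sig ^ 2 := by positivity
  have he : e1 0 = 1 := by simp [e1]
  have hs : ss 0 = sig := by simp [ss]
  have hq := abs_le.mp h2
  have mul : ∀ {c x : ℝ}, |c| ≤ 1 → x = c * (√2 - r2) → |x| ≤ sig ^ 3 := by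
    intro c x hc hx
    rw [hx, abs_mul]
    calc |c| * |√2 - r2| ≤ 1 * sig ^ 3 := by gcongr
      _ = _ := one_mul _
  have hr2a : 0 ≤ (r2 : ℝ) * sig ^ 2 := mul_nonneg (by linarith) hs2'
  have hr2b : (r2 : ℝ) * sig ^ 2 ≤ 2 * (1 / 1000) :=
    mul_le_mul (by linarith) hs2 hs2' (by norm_num)
  have hr2c : 0 ≤ (r2 : ℝ) * sig := mul_nonneg (by linarith) hs0.le
  have hr2d : (r2 : ℝ) * sig ≤ 2 * (1 / 200) :=
    mul_le_mul (by linarith) hs1 hs0.le (by norm_num)
  constructor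
  · have := cmb_close (z := zf 1 1 0) (w := wf 1 1 0) (a := zr) (b := zi) (c := wr) (d := wi)
      (r := r3) (η := sig ^ 3)
      (mul (c := 0) (by norm_num) (by
        simp [zf, he, hs, eta, zr, sq_cast, pow_two]; ring))
      (mul (c := sig ^ 2 / 4) (by rw [abs_le]; constructor <;> linarith) (by
        simp [zf, he, hs, eta, zi, sq_cast, pow_two]; ring))
      (mul (c := 0) (by norm_num) (by
        simp [wf, he, hs, gam, wr, sq_cast, pow_two]))
      (mul (c := 45 / 513 * sig ^ 2) (by rw [abs_le]; constructor <;> linarith) (by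
        simp [wf, he, hs, gam, wi, sq_cast, pow_two]; ring))
      h3
      (by simp only [zr, wr]; push_cast; rw [sq_cast, abs_le]; constructor <;> linarith)
      (by simp only [zi, wi]; push_cast; rw [sq_cast, abs_le]; constructor <;> linarith)
    simp only [St.D, s0]
    push_cast
    exact this
  · have := cmb_close (z := zf (1 * I) (1 * (2 * lam + I)) 0)
      (w := wf (1 * lam) (1 * (2 * lam + 3 * I)) 0) (a := zpr) (b := zpi) (c := wpr) (d := wpi)
      (r := r3) (η := sig ^ 3)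
      (mul (c := -sig ^ 2 / 2) (by rw [abs_le]; constructor <;> linarith) (by
        simp [zf, he, hs, eta, lam, zpr, sq_cast, pow_two]; ring))
      (mul (c := 0) (by norm_num) (by
        simp [zf, he, hs, eta, lam, zpi, sq_cast, pow_two]
        linear_combination (sig * sig / 4) * hss))
      (mul (c := sig / 2 + (225 / 2052 - 135 / 513) * sig ^ 2)
        (by rw [abs_le]; constructor <;> linarith) (by
        simp [wf, he, hs, gam, lam, wpr, sq_cast, pow_two]; ring))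
      (mul (c := 0) (by norm_num) (by
        simp [wf, he, hs, gam, lam, wpi, sq_cast, pow_two]
        linear_combination (45 / 513 * sig * sig) * hss))
      h3
      (by simp only [zpr, wpr]; push_cast; rw [sq_cast, abs_le]; constructor <;> linarith)
      (by simp only [zpi, wpi]; push_cast; rw [sq_cast, abs_le]; constructor <;> linarith)
    simp only [St.V, s0]
    push_cast
    exact this

lemma local_fence {d v : ℝ → Fin 3 → ℂ} (hs : Sol (fun _ => 1 / 3) d v) {T : ℝ} (hT : T ≤ 0)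
    (h0 : 3 / 2 * n3 (d T - DL T) ≤ 300 * ss T ^ 3) (h1 : n3 (v T - VL T) ≤ 300 * ss T ^ 3) :
    (∀ t ∈ Icc T 0, ∀ k, 1 / 100 ≤ ‖d t k‖) ∧ Near d v 0 s0 := by
  have hl : 707 / 1000 ≤ lam := by unfold lam; linarith [s2_bounds.1]
  have hB : ∀ t, t ≤ 0 → 300 * ss t ^ 3 ≤ 3 / 2 * (1 / 100) := fun t ht => by
    have := pow_le_pow_left₀ (ss_pos t).le (ss_le ht) 3
    linarith
  have key := fence hs (δ := 0) (by simp) hd_DL hd_VL (t0 := T) (t1 := 0) (κ := 3 / 2)
    (ρ := 97 / 100) (m := 1 / 100) (by norm_num) (by norm_num) (by norm_num) (by norm_num)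
    (fun t ht => (local_defect ht.2).1) (B := fun t => 300 * ss t ^ 3)
    (B' := fun t => 900 * lam * ss t ^ 3) (e := fun t => 135 * ss t ^ 3)
    (fun t => hd_congr (((hd_ss t).pow 3).const_mul 300) (fun _ => rfl) (by simp; ring))
    (fun t ht => hB t ht.2) (fun t ht => (local_defect ht.2).2)
    (fun t _ => by
      have := pow_pos (ss_pos t) 3
      nlinarith) h0 h1
  constructor
  · intro t ht k
    have c1 := le_n3 (d t - DL t) k
    have c2 := (local_defect ht.2).1 k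
    have c3 := norm_sub_norm_le (DL t k) (d t k)
    rw [norm_sub_rev] at c3
    simp only [Pi.sub_apply] at c1
    have c4 := (key t ht).1
    have c5 := hB t ht.2
    linarith
  · obtain ⟨k1, k2⟩ := key 0 ⟨hT, le_rfl⟩
    have hs : ss 0 = sig := by simp [ss]
    simp only [hs] at k1 k2
    have hp := pow_pos sig_pos 3
    have ea : (s0.a : ℝ) = 1000 * sig ^ 3 := by simp only [s0]; push_cast; rw [sq_cast]
    have eb : (s0.b : ℝ) = 1000 * sig ^ 3 := by simp only [s0]; push_cast; rw [sq_cast]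
    constructor
    · rw [ea]
      linarith [n3_sub_le (d 0) (DL 0) s0.D, start_close.1]
    · rw [eb]
      linarith [n3_sub_le (v 0) (VL 0) s0.V, start_close.2]

lemma Sol.shift {μ : Fin 3 → ℝ} {d v : ℝ → Fin 3 → ℂ} (hs : Sol μ d v) (c : ℝ) :
    Sol μ (fun t => d (t + c)) (fun t => v (t + c)) :=
  ⟨fun t => (hs.hd (t + c)).comp_add_const t c, fun t => (hs.hv (t + c)).comp_add_const t c⟩

lemma Sol.zero_sum {μ : Fin 3 → ℝ} {d v : ℝ → Fin 3 → ℂ} (hs : Sol μ d v)
    (hsum : μ 0 + μ 1 + μ 2 = 1) {T : ℝ} (h0 : d T 0 + d T 1 + d T 2 = 0)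
    (h1 : v T 0 + v T 1 + v T 2 = 0) (t : ℝ) : d t 0 + d t 1 + d t 2 = 0 := by
  have hd : ∀ k t, HasDerivAt (fun s => d s k) (v t k) t := fun k t => hasDerivAt_pi.mp (hs.hd t) k
  have hv : ∀ k t, HasDerivAt (fun s => v s k) (GG μ (d t) k) t :=
    fun k t => hasDerivAt_pi.mp (hs.hv t) k
  have a1 : ∀ t, HasDerivAt (fun s => v s 0 + v s 1 + v s 2) 0 t := fun t =>
    hd_congr (((hv 0 t).add (hv 1 t)).add (hv 2 t)) (fun _ => rfl) (by
      have : μ 2 = 1 - μ 0 - μ 1 := by linarith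
      simp only [GG, Fin.sum_univ_three, this]
      module)
  have a2 : ∀ t, v t 0 + v t 1 + v t 2 = 0 := fun t => by
    rw [← h1]
    exact is_const_of_deriv_eq_zero (fun s => (a1 s).differentiableAt) (fun s => (a1 s).deriv) t T
  have a3 : ∀ t, HasDerivAt (fun s => d s 0 + d s 1 + d s 2) 0 t := fun t =>
    hd_congr (((hd 0 t).add (hd 1 t)).add (hd 2 t)) (fun _ => rfl) (a2 t).symm
  rw [← h0]
  exact is_const_of_deriv_eq_zero (fun s => (a3 s).differentiableAt) (fun s => (a3 s).deriv) t T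

/-- Escape from near the initial state of the validated integration. -/
lemma escape_s0 {μ : Fin 3 → ℝ} {d v : ℝ → Fin 3 → ℂ} (hs : Sol μ d v)
    (hμ : ∀ k, |μ k - 1 / 3| ≤ del0) (hsum : μ 0 + μ 1 + μ 2 = 1)
    (hz : ∀ t, d t 0 + d t 1 + d t 2 = 0) (hn : Near d v 0 s0) :
    (∀ t, 0 ≤ t → ∀ k, 1 / 100 ≤ ‖d t k‖) ∧ Tendsto (fun t => ‖d t 0‖) atTop atTop := by
  obtain ⟨t1, a1, a2, a3⟩ := reachF μ d v hs hμ 0 hn
  have hd : del0 ≤ 1 / 1000000 := by
    unfold del0
    calc ((1 : ℝ) / 2) ^ 460 ≤ (1 / 2) ^ 20 :=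
          pow_le_pow_of_le_one (by norm_num) (by norm_num) (by norm_num)
      _ ≤ _ := by norm_num
  have key := escape_final hs (fun k => le_trans (hμ k) hd) hsum hz a2
  constructor
  · intro t ht k
    rcases le_total t t1 with h | h
    · exact a3 t ⟨ht, h⟩ k
    · exact (key t h).1 k
  · have h1 : Tendsto (fun t : ℝ => 2 + 1 / 5 * (t - t1)) atTop atTop := by
      apply tendsto_atTop_add_const_left
      apply Tendsto.const_mul_atTop (by norm_num)
      exact tendsto_atTop_add_const_right _ (-t1) tendsto_id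
    refine tendsto_atTop_mono' _ ?_ h1
    filter_upwards [eventually_ge_atTop t1] with t ht using (key t ht).2

/-- Escape from near a point of the approximate unstable orbit. -/
lemma escape_rel {T : ℝ} (hT : T ≤ 0) {d0 v0 : Fin 3 → ℂ} (hz0 : d0 0 + d0 1 + d0 2 = 0)
    (hz1 : v0 0 + v0 1 + v0 2 = 0) (h0 : n3 (d0 - DL T) ≤ 200 * ss T ^ 3)
    (h1 : n3 (v0 - VL T) ≤ 200 * ss T ^ 3) :
    ∃ d v : ℝ → Fin 3 → ℂ, d 0 = d0 ∧ v 0 = v0 ∧ (∀ t, HasDerivAt d (v t) t) ∧
      (∀ t, 0 ≤ t → HasDerivAt v (F0 (d t)) t) ∧ (∀ t, d t 0 + d t 1 + d t 2 = 0) ∧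
      (∀ t, 0 ≤ t → ∀ k, d t k ≠ 0) ∧ Tendsto (fun t => ‖d t 0‖) atTop atTop := by
  obtain ⟨d, v, hs, e0, e1⟩ := exists_sol (fun _ => 1 / 3) (fun _ => by norm_num [abs_le]) d0 v0
  have hz := hs.zero_sum (by norm_num) (T := 0) (by rwa [e0]) (by rwa [e1])
  have hs' := hs.shift (-T)
  have hp := pow_pos (ss_pos T) 3
  obtain ⟨a1, a2⟩ := local_fence hs' hT (by simp only [add_neg_cancel, e0]; linarith)
    (by simp only [add_neg_cancel, e1]; linarith)
  obtain ⟨b1, b2⟩ := escape_s0 hs' (fun _ => by simp [del0]) (by norm_num) (fun t => hz _) a2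
  have far : ∀ t, 0 ≤ t → ∀ k, 1 / 100 ≤ ‖d t k‖ := by
    intro t ht k
    have e : t = t + T + -T := by ring
    rw [e]
    rcases le_total (t + T) 0 with h | h
    · exact a1 _ ⟨by linarith, h⟩ k
    · exact b1 _ h k
  refine ⟨d, v, e0, e1, hs.hd, fun t ht => hd_congr (hs.hv t) (fun _ => rfl) ?_, hz,
    fun t ht k h => ?_, ?_⟩
  · funext k
    simp only [F0, GG, fc_eq (far t ht _)]
  · have := far t ht k
    rw [h, norm_zero] at this
    norm_num at this
  · have := b2.comp (tendsto_atTop_add_const_right atTop T tendsto_id)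
    refine this.congr fun t => ?_
    simp

end Pool.Agent.Lib.MP_6e7c44_mp
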