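import Mathlib

-- part Pool.Agent.Lib.MP_6e7c44_mp.Kron
section

/-!
Integer polynomials as lists, Kronecker substitution and certified sup bounds on `[-1, 1]`.
-/

set_option autoImplicit false

namespace Pool.Agent.Lib.MP_6e7c44_mp

/-- Horner evaluation at an integer. -/
def evalZ : List ℤ → ℤ → ℤ
  | [], _ => 0
  | a :: l, X => a + X * evalZ l X

/-- Horner evaluation at a real number. -/
noncomputable def evalR : List ℤ → ℝ → ℝ
  | [], _ => 0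
  | a :: l, x => (a : ℝ) + x * evalR l x

/-- Sum of the absolute values of the coefficients. -/
def norm1 : List ℤ → ℕ
  | [] => 0
  | a :: l => a.natAbs + norm1 l

def ladd : List ℤ → List ℤ → List ℤ
  | [], q => q
  | a :: p, [] => a :: p
  | a :: p, b :: q => (a + b) :: ladd p q

def lsmul (c : ℤ) : List ℤ → List ℤ
  | [] => []
  | a :: p => (c * a) :: lsmul c p

def lmul : List ℤ → List ℤ → List ℤ
  | [], _ => []
  | a :: p, q => ladd (lsmul a q) (0 :: lmul p q)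

def lshift : ℕ → List ℤ → List ℤ
  | 0, p => p
  | n + 1, p => 0 :: lshift n p

def derAux : ℕ → List ℤ → List ℤ
  | _, [] => []
  | n, a :: p => ((n : ℤ) * a) :: derAux (n + 1) p

/-- Formal derivative. -/
def lder : List ℤ → List ℤ
  | [] => []
  | _ :: p => derAux 1 p

lemma evalZ_cast (l : List ℤ) (X : ℤ) : ((evalZ l X : ℤ) : ℝ) = evalR l X := by
  induction l with
  | nil => simp [evalZ, evalR]
  | cons a l ih => simp [evalZ, evalR, ih]

lemma evalZ_ladd (p q : List ℤ) (X : ℤ) : evalZ (ladd p q) X = evalZ p X + evalZ q X := by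
  induction p generalizing q with
  | nil => simp [ladd, evalZ]
  | cons a p ih =>
    cases q with
    | nil => simp [ladd, evalZ]
    | cons b q => simp only [ladd, evalZ, ih]; ring

lemma evalR_ladd (p q : List ℤ) (x : ℝ) : evalR (ladd p q) x = evalR p x + evalR q x := by
  induction p generalizing q with
  | nil => simp [ladd, evalR]
  | cons a p ih =>
    cases q with
    | nil => simp [ladd, evalR]
    | cons b q => simp only [ladd, evalR, ih]; push_cast; ring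

lemma norm1_ladd (p q : List ℤ) : norm1 (ladd p q) ≤ norm1 p + norm1 q := by
  induction p generalizing q with
  | nil => simp [ladd, norm1]
  | cons a p ih =>
    cases q with
    | nil => simp [ladd, norm1]
    | cons b q =>
      simp only [ladd, norm1]
      have h1 := ih q
      have h2 := Int.natAbs_add_le a b
      omega

lemma evalZ_lsmul (c : ℤ) (p : List ℤ) (X : ℤ) : evalZ (lsmul c p) X = c * evalZ p X := by
  induction p with
  | nil => simp [lsmul, evalZ]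
  | cons a p ih => simp only [lsmul, evalZ, ih]; ring

lemma evalR_lsmul (c : ℤ) (p : List ℤ) (x : ℝ) : evalR (lsmul c p) x = c * evalR p x := by
  induction p with
  | nil => simp [lsmul, evalR]
  | cons a p ih => simp only [lsmul, evalR, ih]; push_cast; ring

lemma norm1_lsmul (c : ℤ) (p : List ℤ) : norm1 (lsmul c p) = c.natAbs * norm1 p := by
  induction p with
  | nil => simp [lsmul, norm1]
  | cons a p ih => simp only [lsmul, norm1, ih, Int.natAbs_mul]; ring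

lemma evalZ_lmul (p q : List ℤ) (X : ℤ) : evalZ (lmul p q) X = evalZ p X * evalZ q X := by
  induction p with
  | nil => simp [lmul, evalZ]
  | cons a p ih => simp only [lmul, evalZ_ladd, evalZ_lsmul, evalZ, ih]; ring

lemma evalR_lmul (p q : List ℤ) (x : ℝ) : evalR (lmul p q) x = evalR p x * evalR q x := by
  induction p with
  | nil => simp [lmul, evalR]
  | cons a p ih => simp only [lmul, evalR_ladd, evalR_lsmul, evalR, ih]; push_cast; ring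

lemma norm1_lmul (p q : List ℤ) : norm1 (lmul p q) ≤ norm1 p * norm1 q := by
  induction p with
  | nil => simp [lmul, norm1]
  | cons a p ih =>
    have h1 := norm1_ladd (lsmul a q) (0 :: lmul p q)
    rw [norm1_lsmul] at h1
    simp only [lmul, norm1, Int.natAbs_zero, zero_add] at h1 ⊢
    nlinarith

lemma evalZ_lshift (n : ℕ) (p : List ℤ) (X : ℤ) : evalZ (lshift n p) X = X ^ n * evalZ p X := by
  induction n with
  | zero => simp [lshift]
  | succ n ih => simp only [lshift, evalZ, ih]; ring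

lemma norm1_lshift (n : ℕ) (p : List ℤ) : norm1 (lshift n p) = norm1 p := by
  induction n with
  | zero => simp [lshift]
  | succ n ih => simp [lshift, norm1, ih]

lemma abs_evalR_le (l : List ℤ) {x : ℝ} (hx : |x| ≤ 1) : |evalR l x| ≤ norm1 l := by
  induction l with
  | nil => simp [evalR, norm1]
  | cons a l ih =>
    simp only [evalR, norm1]
    push_cast
    have h1 : |x * evalR l x| ≤ norm1 l := by
      rw [abs_mul]
      calc |x| * |evalR l x| ≤ 1 * (norm1 l : ℝ) := by gcongr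
        _ = _ := one_mul _
    have h2 : |(a : ℝ)| = ((a.natAbs : ℕ) : ℝ) := by
      rw [Nat.cast_natAbs]; push_cast; rfl
    have h3 := abs_add_le (a : ℝ) (x * evalR l x)
    rw [h2] at h3
    linarith

/-- A polynomial of small norm that vanishes at the large integer `X` vanishes identically. -/
lemma evalR_eq_zero (l : List ℤ) (X : ℕ) (h1 : norm1 l < X) (h0 : evalZ l X = 0) (x : ℝ) :
    evalR l x = 0 := by
  induction l with
  | nil => simp [evalR]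
  | cons a l ih =>
    simp only [norm1, evalZ] at h1 h0
    have hd : (X : ℤ) ∣ a := ⟨-evalZ l X, by linarith⟩
    have ha : a = 0 := by
      apply Int.eq_zero_of_dvd_of_natAbs_lt_natAbs hd
      simp only [Int.natAbs_natCast]
      omega
    subst ha
    have hX : (X : ℤ) ≠ 0 := by omega
    have h2 : evalZ l X = 0 := by
      simp only [zero_add, mul_eq_zero] at h0
      tauto
    simp [evalR, ih (by omega) h2]

lemma hd_congr {E : Type*} [NormedAddCommGroup E] [NormedSpace ℝ E] {f g : ℝ → E} {f' g' : E}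
    {x : ℝ} (h : HasDerivAt f f' x) (h1 : ∀ y, g y = f y) (h2 : g' = f') : HasDerivAt g g' x := by
  have : g = f := funext h1
  rw [this, h2]; exact h

lemma hasDerivAt_aux (q : List ℤ) (n : ℕ) (x : ℝ) :
    HasDerivAt (fun y => y ^ (n + 1) * evalR q y) (x ^ n * evalR (derAux (n + 1) q) x) x := by
  induction q generalizing n with
  | nil => simpa [evalR, derAux] using hasDerivAt_const x (0 : ℝ)
  | cons a q ih =>
    have h1 := ((hasDerivAt_pow (n + 1) x).const_mul (a : ℝ)).add (ih (n + 1))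
    refine hd_congr h1 ?_ ?_
    · intro y
      simp only [evalR, Pi.add_apply]; ring
    · simp only [evalR, derAux, Nat.add_sub_cancel]; push_cast; ring

lemma hasDerivAt_evalR (l : List ℤ) (x : ℝ) : HasDerivAt (evalR l) (evalR (lder l) x) x := by
  cases l with
  | nil => simpa [evalR, lder] using hasDerivAt_const x (0 : ℝ)
  | cons a q =>
    have h1 := (hasDerivAt_aux q 0 x).const_add (a : ℝ)
    refine hd_congr h1 ?_ ?_
    · intro y
      simp [evalR]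
    · simp [lder]

/-- A polynomial known through its value at the Kronecker point and a bound on its norm. -/
structure KP where
  v : ℤ
  b : ℕ

def KP.ofL (X : ℤ) (l : List ℤ) : KP := ⟨evalZ l X, norm1 l⟩
def KP.const (c : ℤ) : KP := ⟨c, c.natAbs⟩
def KP.add (p q : KP) : KP := ⟨p.v + q.v, p.b + q.b⟩
def KP.sub (p q : KP) : KP := ⟨p.v - q.v, p.b + q.b⟩
def KP.neg (p : KP) : KP := ⟨-p.v, p.b⟩
def KP.mul (p q : KP) : KP := ⟨p.v * q.v, p.b * q.b⟩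
def KP.smul (c : ℤ) (p : KP) : KP := ⟨c * p.v, c.natAbs * p.b⟩

/-- `k` represents the function `g` at the Kronecker point `X`. -/
def Rep (X : ℤ) (k : KP) (g : ℝ → ℝ) : Prop :=
  ∃ l : List ℤ, evalZ l X = k.v ∧ norm1 l ≤ k.b ∧ ∀ x, evalR l x = g x

lemma Rep.ofL (X : ℤ) (l : List ℤ) : Rep X (KP.ofL X l) (evalR l) := ⟨l, rfl, le_rfl, fun _ => rfl⟩

lemma Rep.const (X c : ℤ) : Rep X (KP.const c) (fun _ => (c : ℝ)) :=
  ⟨[c], by simp [evalZ, KP.const], by simp [norm1, KP.const], fun x => by simp [evalR]⟩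

lemma Rep.add {X : ℤ} {p q : KP} {f g : ℝ → ℝ} (hp : Rep X p f) (hq : Rep X q g) :
    Rep X (p.add q) (fun x => f x + g x) := by
  obtain ⟨l, h1, h2, h3⟩ := hp
  obtain ⟨m, g1, g2, g3⟩ := hq
  refine ⟨ladd l m, by simp [evalZ_ladd, KP.add, h1, g1], ?_, fun x => by rw [evalR_ladd, h3, g3]⟩
  have := norm1_ladd l m
  simp only [KP.add]; omega

lemma Rep.smul {X : ℤ} {p : KP} {f : ℝ → ℝ} (c : ℤ) (hp : Rep X p f) :
    Rep X (p.smul c) (fun x => (c : ℝ) * f x) := by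
  obtain ⟨l, h1, h2, h3⟩ := hp
  refine ⟨lsmul c l, by simp [evalZ_lsmul, KP.smul, h1], ?_, fun x => by rw [evalR_lsmul, h3]⟩
  rw [norm1_lsmul]
  exact Nat.mul_le_mul_left _ h2

lemma Rep.neg {X : ℤ} {p : KP} {f : ℝ → ℝ} (hp : Rep X p f) :
    Rep X p.neg (fun x => -f x) := by
  obtain ⟨l, h1, h2, h3⟩ := hp
  refine ⟨lsmul (-1) l, by simp [evalZ_lsmul, KP.neg, h1], ?_, fun x => by
    rw [evalR_lsmul, h3]; simp⟩
  rw [norm1_lsmul]
  simpa [KP.neg] using h2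

lemma Rep.sub {X : ℤ} {p q : KP} {f g : ℝ → ℝ} (hp : Rep X p f) (hq : Rep X q g) :
    Rep X (p.sub q) (fun x => f x - g x) := by
  obtain ⟨l, h1, h2, h3⟩ := hp.add hq.neg
  exact ⟨l, by rw [h1]; simp [KP.add, KP.neg, KP.sub, sub_eq_add_neg], by
    simpa [KP.add, KP.neg, KP.sub] using h2, fun x => by rw [h3]; simp [sub_eq_add_neg]⟩

lemma Rep.mul {X : ℤ} {p q : KP} {f g : ℝ → ℝ} (hp : Rep X p f) (hq : Rep X q g) :
    Rep X (p.mul q) (fun x => f x * g x) := by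
  obtain ⟨l, h1, h2, h3⟩ := hp
  obtain ⟨m, g1, g2, g3⟩ := hq
  refine ⟨lmul l m, by simp [evalZ_lmul, KP.mul, h1, g1], ?_, fun x => by rw [evalR_lmul, h3, g3]⟩
  exact le_trans (norm1_lmul l m) (Nat.mul_le_mul h2 g2)

/-- Norm of the balanced digit expansion in base `2 ^ B`, by divide and conquer. -/
def l1 (B : ℕ) : ℕ → ℤ → ℕ
  | 0, v => v.natAbs
  | k + 1, v =>
    l1 B k (v - ((v + ((2 ^ (B * 2 ^ k - 1) : ℕ) : ℤ)) >>> (B * 2 ^ k)) * ((2 ^ (B * 2 ^ k) : ℕ) : ℤ))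
      + l1 B k ((v + ((2 ^ (B * 2 ^ k - 1) : ℕ) : ℤ)) >>> (B * 2 ^ k))

lemma l1_spec (B k : ℕ) (v : ℤ) :
    ∃ E : List ℤ, evalZ E ((2 ^ B : ℕ) : ℤ) = v ∧ norm1 E ≤ l1 B k v := by
  induction k generalizing v with
  | zero => exact ⟨[v], by simp [evalZ], by simp [norm1, l1]⟩
  | succ k ih =>
    obtain ⟨E1, h1, h2⟩ := ih (v - ((v + ((2 ^ (B * 2 ^ k - 1) : ℕ) : ℤ)) >>> (B * 2 ^ k))
      * ((2 ^ (B * 2 ^ k) : ℕ) : ℤ))
    obtain ⟨E2, g1, g2⟩ := ih ((v + ((2 ^ (B * 2 ^ k - 1) : ℕ) : ℤ)) >>> (B * 2 ^ k))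
    refine ⟨ladd E1 (lshift (2 ^ k) E2), ?_, ?_⟩
    · rw [evalZ_ladd, evalZ_lshift, h1, g1]
      have : (((2 ^ B : ℕ) : ℤ)) ^ (2 ^ k) = ((2 ^ (B * 2 ^ k) : ℕ) : ℤ) := by
        push_cast; rw [← pow_mul]
      rw [this]; ring
    · have := norm1_ladd E1 (lshift (2 ^ k) E2)
      rw [norm1_lshift] at this
      simp only [l1]; omega

/-- The certified sup bound. -/
lemma Rep.bound {B : ℕ} {p : KP} {g : ℝ → ℝ} (hp : Rep ((2 ^ B : ℕ) : ℤ) p g) (k M : ℕ)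
    (h1 : l1 B k p.v ≤ M) (h2 : p.b + M < 2 ^ B) {x : ℝ} (hx : |x| ≤ 1) : |g x| ≤ M := by
  obtain ⟨l, a1, a2, a3⟩ := hp
  obtain ⟨E, b1, b2⟩ := l1_spec B k p.v
  have c1 : norm1 (ladd l (lsmul (-1) E)) < 2 ^ B := by
    have := norm1_ladd l (lsmul (-1) E)
    rw [norm1_lsmul] at this
    simp at this
    omega
  have c2 : evalZ (ladd l (lsmul (-1) E)) ((2 ^ B : ℕ) : ℤ) = 0 := by
    rw [evalZ_ladd, evalZ_lsmul, a1, b1]; ring
  have c3 := evalR_eq_zero _ _ c1 c2 x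
  rw [evalR_ladd, evalR_lsmul, a3] at c3
  have c4 : g x = evalR E x := by push_cast at c3; linarith
  rw [c4]
  refine le_trans (abs_evalR_le E hx) ?_
  exact_mod_cast le_trans b2 h1

end Pool.Agent.Lib.MP_6e7c44_mp
end

-- part Pool.Agent.Lib.MP_6e7c44_mp.ODE
section

/-!
The three-body problem in relative coordinates, a cut-off version of it with global solutions,
and the fencing lemma that compares a solution with an approximate solution.
-/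

set_option autoImplicit false

namespace Pool.Agent.Lib.MP_6e7c44_mp

open Set Metric

lemma hd_fst {E F : Type*} [NormedAddCommGroup E] [NormedSpace ℝ E] [NormedAddCommGroup F]
    [NormedSpace ℝ F] {f : ℝ → E × F} {f' : E × F} {x : ℝ} (h : HasDerivAt f f' x) :
    HasDerivAt (fun t => (f t).1) f'.1 x :=
  (ContinuousLinearMap.fst ℝ E F).hasFDerivAt.comp_hasDerivAt x h

lemma hd_snd {E F : Type*} [NormedAddCommGroup E] [NormedSpace ℝ E] [NormedAddCommGroup F]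
    [NormedSpace ℝ F] {f : ℝ → E × F} {f' : E × F} {x : ℝ} (h : HasDerivAt f f' x) :
    HasDerivAt (fun t => (f t).2) f'.2 x :=
  (ContinuousLinearMap.snd ℝ E F).hasFDerivAt.comp_hasDerivAt x h

/-- Global solutions of a second order equation with a bounded Lipschitz right-hand side. -/
theorem exists_global_second_order {E : Type*} [NormedAddCommGroup E] [NormedSpace ℝ E]
    [CompleteSpace E] (G : E → E) (K : NNReal) (hG : LipschitzWith K G) (M : ℝ)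
    (hM : ∀ x, ‖G x‖ ≤ M) (q0 v0 : E) :
    ∃ q v : ℝ → E, q 0 = q0 ∧ v 0 = v0 ∧ (∀ t, HasDerivAt q (v t) t) ∧
      (∀ t, HasDerivAt v (G (q t)) t) := by
  have hM0 : 0 ≤ M := le_trans (norm_nonneg _) (hM q0)
  let F : E × E → E × E := fun z => (z.2, G z.1)
  have hF : LipschitzWith (max 1 (K * 1)) F :=
    LipschitzWith.prod_snd.prodMk (hG.comp LipschitzWith.prod_fst)
  have loc : ∀ n : ℕ, ∃ α : ℝ → E × E, α 0 = (q0, v0) ∧
      ∀ t ∈ Ioo (-((n : ℝ) + 1)) ((n : ℝ) + 1), HasDerivAt α (F (α t)) t := by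
    intro n
    set T : ℝ := (n : ℝ) + 1 with hT
    have hT0 : 0 < T := by positivity
    set a : ℝ := T * (M + 1) with ha
    have ha0 : 0 < a := by positivity
    set l : ℝ := ‖v0‖ + a with hl
    have hl0 : 0 < l := by positivity
    let Fl : E × E → E × E := fun z => (l⁻¹ • z.2, G (l • z.1))
    have hFl : LipschitzWith (max (‖l⁻¹‖₊ * 1) (K * (‖l‖₊ * 1))) Fl :=
      ((lipschitzWith_smul l⁻¹).comp LipschitzWith.prod_snd).prodMk
        (hG.comp ((lipschitzWith_smul l).comp LipschitzWith.prod_fst))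
    have h0 : (0 : ℝ) ∈ Icc (-T) T := ⟨by linarith, by linarith⟩
    have hpl : IsPicardLindelof (fun _ => Fl) (⟨0, h0⟩ : Icc (-T) T) (l⁻¹ • q0, v0)
        ⟨a, ha0.le⟩ 0 ⟨M + 1, by positivity⟩ (max (‖l⁻¹‖₊ * 1) (K * (‖l‖₊ * 1))) := by
      apply IsPicardLindelof.of_time_independent
      · intro z hz
        rw [mem_closedBall, dist_eq_norm] at hz
        have h1 : ‖z.2 - v0‖ ≤ a := le_trans (norm_snd_le (z - (l⁻¹ • q0, v0))) hz
        have h2 : ‖z.2‖ ≤ l := by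
          have := norm_add_le (z.2 - v0) v0
          rw [sub_add_cancel] at this
          linarith
        show ‖Fl z‖ ≤ M + 1
        rw [Prod.norm_def]
        apply max_le
        · show ‖l⁻¹ • z.2‖ ≤ M + 1
          rw [norm_smul, Real.norm_of_nonneg (by positivity)]
          have : l⁻¹ * ‖z.2‖ ≤ 1 := by
            rw [inv_mul_le_iff₀ hl0]; linarith
          linarith
        · show ‖G (l • z.1)‖ ≤ M + 1
          linarith [hM (l • z.1)]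
      · exact hFl.lipschitzOnWith
      · show (M + 1) * max (T - 0) (0 - -T) ≤ a - 0
        simp [ha, mul_comm]
    obtain ⟨β, hβ0, hβ⟩ := hpl.exists_eq_forall_mem_Icc_hasDerivWithinAt₀
    refine ⟨fun t => (l • (β t).1, (β t).2), ?_, ?_⟩
    · have : β 0 = (l⁻¹ • q0, v0) := hβ0
      simp [this, smul_smul, mul_inv_cancel₀ hl0.ne']
    · intro t ht
      have h1 : HasDerivAt β (Fl (β t)) t :=
        (hβ t (Ioo_subset_Icc_self ht)).hasDerivAt (Icc_mem_nhds ht.1 ht.2)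
      have h2 := ((hd_fst h1).const_smul l).prodMk (hd_snd h1)
      refine hd_congr h2 (fun y => rfl) ?_
      simp [F, Fl, smul_smul, mul_inv_cancel₀ hl0.ne']
  choose α hα0 hα using loc
  have agree : ∀ (m n : ℕ) (s : ℝ), |s| < m + 1 → |s| < n + 1 → α m s = α n s := by
    intro m n s hm hn
    have hr : (0 : ℝ) < min ((m : ℝ) + 1) ((n : ℝ) + 1) := by positivity
    have := ODE_solution_unique_of_mem_Ioo (v := fun _ => F) (s := fun _ => univ)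
      (a := -min ((m : ℝ) + 1) ((n : ℝ) + 1)) (b := min ((m : ℝ) + 1) ((n : ℝ) + 1)) (t₀ := 0)
      (f := α m) (g := α n) (fun _ _ => hF.lipschitzOnWith) ⟨by linarith, hr⟩
      (fun t ht => ⟨hα m t ⟨by linarith [ht.1, min_le_left ((m : ℝ) + 1) ((n : ℝ) + 1)],
        lt_of_lt_of_le ht.2 (min_le_left _ _)⟩, trivial⟩)
      (fun t ht => ⟨hα n t ⟨by linarith [ht.1, min_le_right ((m : ℝ) + 1) ((n : ℝ) + 1)],
        lt_of_lt_of_le ht.2 (min_le_right _ _)⟩, trivial⟩)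
      (by rw [hα0, hα0])
    apply this
    have h1 : |s| < min ((m : ℝ) + 1) ((n : ℝ) + 1) := lt_min hm hn
    rw [abs_lt] at h1
    exact h1
  let x : ℝ → E × E := fun t => α ⌈|t|⌉₊ t
  have hx : ∀ t, HasDerivAt x (F (x t)) t := by
    intro t
    have h1 : |t| < (⌈|t|⌉₊ : ℝ) + 1 := by linarith [Nat.le_ceil |t|]
    have h2 : HasDerivAt (α ⌈|t|⌉₊) (F (α ⌈|t|⌉₊ t)) t := hα _ t (abs_lt.mp h1)
    refine h2.congr_of_eventuallyEq ?_
    have h3 : ∀ᶠ s in nhds t, |s| < (⌈|t|⌉₊ : ℝ) + 1 :=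
      (continuous_abs.tendsto t).eventually (gt_mem_nhds h1)
    filter_upwards [h3] with s hs
    exact agree _ _ s (by linarith [Nat.le_ceil |s|]) hs
  refine ⟨fun t => (x t).1, fun t => (x t).2, ?_, ?_, fun t => hd_fst (hx t),
    fun t => hd_snd (hx t)⟩
  · simp [x, hα0]
  · simp [x, hα0]

/-- The Newtonian attraction `x / |x| ^ 3`. -/
noncomputable def ff (x : ℂ) : ℂ := ((‖x‖ ^ 3)⁻¹ : ℝ) • x

/-- The attraction cut off at distance `1 / 100`. -/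
noncomputable def fc (x : ℂ) : ℂ := (((max ‖x‖ (1 / 100)) ^ 3)⁻¹ : ℝ) • x

lemma fc_eq {x : ℂ} (h : 1 / 100 ≤ ‖x‖) : fc x = ff x := by
  unfold fc ff; rw [max_eq_left h]

lemma norm_ff {x : ℂ} (h : 0 < ‖x‖) : ‖ff x‖ = (‖x‖ ^ 2)⁻¹ := by
  unfold ff
  rw [norm_smul, Real.norm_of_nonneg (by positivity)]
  field_simp

lemma norm_fc_le (x : ℂ) : ‖fc x‖ ≤ 10000 := by
  unfold fc
  have h1 : ‖x‖ ≤ max ‖x‖ (1 / 100) := le_max_left _ _
  have h2 : (1 / 100 : ℝ) ≤ max ‖x‖ (1 / 100) := le_max_right _ _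
  generalize max ‖x‖ (1 / 100) = A at h1 h2
  have hA : 0 < A := by linarith
  rw [norm_smul, Real.norm_of_nonneg (by positivity), inv_mul_le_iff₀ (by positivity)]
  have h3 : 1 ≤ A ^ 2 * 10000 := by nlinarith
  nlinarith

lemma fc_lip_aux (x y : ℂ) (h : max ‖y‖ (1 / 100) ≤ max ‖x‖ (1 / 100)) :
    ‖fc x - fc y‖ ≤ 4000000 * ‖x - y‖ := by
  unfold fc
  have h1 : ‖y‖ ≤ max ‖y‖ (1 / 100) := le_max_left _ _
  have h2 : (1 / 100 : ℝ) ≤ max ‖y‖ (1 / 100) := le_max_right _ _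
  have h3 : max ‖x‖ (1 / 100) - max ‖y‖ (1 / 100) ≤ ‖x - y‖ :=
    le_trans (le_abs_self _) (le_trans (abs_max_sub_max_le_abs _ _ _) (abs_norm_sub_norm_le _ _))
  generalize max ‖x‖ (1 / 100) = A at h h3
  generalize max ‖y‖ (1 / 100) = B at h h1 h2 h3
  have hB : 0 < B := by linarith
  have hA : 0 < A := by linarith
  have e : ((A ^ 3)⁻¹ : ℝ) • x - ((B ^ 3)⁻¹ : ℝ) • y
      = ((A ^ 3)⁻¹ : ℝ) • (x - y) - (((B ^ 3)⁻¹ - (A ^ 3)⁻¹ : ℝ)) • y := by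
    rw [smul_sub, sub_smul]; abel
  have hAB : (A ^ 3)⁻¹ ≤ (B ^ 3)⁻¹ := by gcongr
  have hB3 : (B ^ 3)⁻¹ ≤ 1000000 := by
    rw [inv_le_comm₀ (by positivity) (by norm_num)]
    calc (1000000 : ℝ)⁻¹ = (1 / 100) ^ 3 := by norm_num
      _ ≤ B ^ 3 := by gcongr
  have k1 : ‖((A ^ 3)⁻¹ : ℝ) • (x - y)‖ ≤ 1000000 * ‖x - y‖ := by
    rw [norm_smul, Real.norm_of_nonneg (by positivity)]
    gcongr; linarith
  have k2 : ‖(((B ^ 3)⁻¹ - (A ^ 3)⁻¹ : ℝ)) • y‖ ≤ 3000000 * ‖x - y‖ := by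
    rw [norm_smul, Real.norm_of_nonneg (by linarith)]
    have e2 : ((B ^ 3)⁻¹ - (A ^ 3)⁻¹) * B
        = (A - B) * ((B ^ 3)⁻¹ * (B / A + (B / A) ^ 2 + (B / A) ^ 3)) := by
      field_simp; ring
    have hq0 : 0 ≤ B / A := by positivity
    have hq : B / A ≤ 1 := by rw [div_le_one hA]; exact h
    have hq2 : (B / A) ^ 2 ≤ 1 := pow_le_one₀ hq0 hq
    have hq3 : (B / A) ^ 3 ≤ 1 := pow_le_one₀ hq0 hq
    calc ((B ^ 3)⁻¹ - (A ^ 3)⁻¹) * ‖y‖ ≤ ((B ^ 3)⁻¹ - (A ^ 3)⁻¹) * B := by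
          gcongr
      _ = (A - B) * ((B ^ 3)⁻¹ * (B / A + (B / A) ^ 2 + (B / A) ^ 3)) := e2
      _ ≤ ‖x - y‖ * (1000000 * 3) := by
          apply mul_le_mul h3 _ (by positivity) (norm_nonneg _)
          apply mul_le_mul hB3 (by linarith) (by positivity) (by norm_num)
      _ = 3000000 * ‖x - y‖ := by ring
  rw [e]
  linarith [norm_sub_le (((A ^ 3)⁻¹ : ℝ) • (x - y)) ((((B ^ 3)⁻¹ - (A ^ 3)⁻¹ : ℝ)) • y)]

lemma fc_lip (x y : ℂ) : ‖fc x - fc y‖ ≤ 4000000 * ‖x - y‖ := by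
  rcases le_total (max ‖y‖ (1 / 100)) (max ‖x‖ (1 / 100)) with h | h
  · exact fc_lip_aux x y h
  · rw [norm_sub_rev, norm_sub_rev x y]; exact fc_lip_aux y x h

/-- The sharp Lipschitz bound of the attraction away from the origin. -/
lemma ff_lip {x y : ℂ} {ρ : ℝ} (hρ : 0 < ρ) (hx : ρ ≤ ‖x‖) (hy : ρ ≤ ‖y‖) :
    ‖ff x - ff y‖ ≤ 2 / ρ ^ 3 * ‖x - y‖ := by
  have ha : 0 < ‖x‖ := by linarith
  have hb : 0 < ‖y‖ := by linarith
  have hc : x.re * y.re + x.im * y.im ≤ ‖x‖ * ‖y‖ := by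
    have h1 := Complex.re_le_norm (x * (starRingEnd ℂ) y)
    rw [norm_mul, Complex.norm_conj] at h1
    simpa using h1
  have hxx : ‖x‖ ^ 2 = x.re ^ 2 + x.im ^ 2 := by rw [Complex.sq_norm, Complex.normSq_apply]; ring
  have hyy : ‖y‖ ^ 2 = y.re ^ 2 + y.im ^ 2 := by rw [Complex.sq_norm, Complex.normSq_apply]; ring
  have e1 : ‖x - y‖ ^ 2 = ‖x‖ ^ 2 + ‖y‖ ^ 2 - 2 * (x.re * y.re + x.im * y.im) := by
    rw [Complex.sq_norm, Complex.normSq_apply, hxx, hyy]; simp; ring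
  have e2 : ‖ff x - ff y‖ ^ 2 = ((‖x‖ ^ 3)⁻¹) ^ 2 * ‖x‖ ^ 2 + ((‖y‖ ^ 3)⁻¹) ^ 2 * ‖y‖ ^ 2
      - 2 * ((‖x‖ ^ 3)⁻¹ * (‖y‖ ^ 3)⁻¹) * (x.re * y.re + x.im * y.im) := by
    rw [Complex.sq_norm, Complex.normSq_apply, hxx, hyy]
    simp only [ff, Complex.sub_re, Complex.sub_im, Complex.smul_re, Complex.smul_im, smul_eq_mul]
    ring
  generalize x.re * y.re + x.im * y.im = c at hc e1 e2
  generalize ‖x‖ = a at *
  generalize ‖y‖ = b at *
  have hK : 0 ≤ 2 / ρ ^ 3 := by positivity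
  apply abs_le_of_sq_le_sq' _ (by positivity) |>.2
  rw [mul_pow, e1, e2]
  have i1 : (a ^ 2 * b)⁻¹ ≤ (ρ ^ 3)⁻¹ := by
    apply inv_anti₀ (by positivity)
    calc ρ ^ 3 = ρ ^ 2 * ρ := by ring
      _ ≤ a ^ 2 * b := by gcongr
  have i2 : (a * b ^ 2)⁻¹ ≤ (ρ ^ 3)⁻¹ := by
    apply inv_anti₀ (by positivity)
    calc ρ ^ 3 = ρ * ρ ^ 2 := by ring
      _ ≤ a * b ^ 2 := by gcongr
  set K := 2 / ρ ^ 3 with hKdef
  have hK2 : K = 2 * (ρ ^ 3)⁻¹ := by rw [hKdef]; ring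
  have p1 : 0 < (a ^ 2 * b)⁻¹ := by positivity
  have p2 : 0 < (a * b ^ 2)⁻¹ := by positivity
  have i3 : (a ^ 2 * b)⁻¹ + (a * b ^ 2)⁻¹ ≤ K := by linarith
  have i4 : ((a ^ 2 * b)⁻¹ + (a * b ^ 2)⁻¹) ^ 2 ≤ K ^ 2 := by gcongr
  have i5 : (a ^ 3)⁻¹ * (b ^ 3)⁻¹ ≤ K ^ 2 := by
    have : (a ^ 3)⁻¹ * (b ^ 3)⁻¹ = (a ^ 2 * b)⁻¹ * (a * b ^ 2)⁻¹ := by field_simp
    nlinarith
  have e3 : ((a ^ 3)⁻¹) ^ 2 * a ^ 2 + ((b ^ 3)⁻¹) ^ 2 * b ^ 2
      - 2 * ((a ^ 3)⁻¹ * (b ^ 3)⁻¹) * (a * b)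
      = ((a ^ 2 * b)⁻¹ + (a * b ^ 2)⁻¹) ^ 2 * (a - b) ^ 2 := by
    field_simp; ring
  have i6 : ((a ^ 2 * b)⁻¹ + (a * b ^ 2)⁻¹) ^ 2 * (a - b) ^ 2 ≤ K ^ 2 * (a - b) ^ 2 := by
    gcongr
  have i7 : 0 ≤ (K ^ 2 - (a ^ 3)⁻¹ * (b ^ 3)⁻¹) * (a * b - c) :=
    mul_nonneg (by linarith) (by linarith)
  nlinarith

/-- The cut-off equations for the relative positions; `μ` holds the normalised masses. -/
noncomputable def GG (μ : Fin 3 → ℝ) (d : Fin 3 → ℂ) : Fin 3 → ℂ :=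
  fun k => -fc (d k) + μ k • ∑ j, fc (d j)

/-- The equal-mass equations for the relative positions. -/
noncomputable def F0 (d : Fin 3 → ℂ) : Fin 3 → ℂ :=
  fun k => -ff (d k) + (1 / 3 : ℝ) • ∑ j, ff (d j)

/-- A global solution of the cut-off equations. -/
structure Sol (μ : Fin 3 → ℝ) (d v : ℝ → Fin 3 → ℂ) : Prop where
  hd : ∀ t, HasDerivAt d (v t) t
  hv : ∀ t, HasDerivAt v (GG μ (d t)) t

theorem exists_sol (μ : Fin 3 → ℝ) (hμ : ∀ k, |μ k| ≤ 1) (d0 v0 : Fin 3 → ℂ) :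
    ∃ d v, Sol μ d v ∧ d 0 = d0 ∧ v 0 = v0 := by
  have hL : LipschitzWith 16000000 (GG μ) := by
    apply LipschitzWith.of_dist_le_mul
    intro x y
    rw [dist_eq_norm, dist_eq_norm]
    have hk : ∀ k, ‖fc (x k) - fc (y k)‖ ≤ 4000000 * ‖x - y‖ := fun k =>
      le_trans (fc_lip _ _) (by
        have := norm_le_pi_norm (x - y) k
        simp only [Pi.sub_apply] at this
        gcongr)
    rw [pi_norm_le_iff_of_nonneg (by positivity)]
    intro k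
    have e : (GG μ x - GG μ y) k
        = -(fc (x k) - fc (y k)) + μ k • ∑ j, (fc (x j) - fc (y j)) := by
      simp only [GG, Pi.sub_apply, Finset.sum_sub_distrib, smul_sub]; abel
    rw [e]
    have h1 : ‖μ k • ∑ j, (fc (x j) - fc (y j))‖ ≤ 3 * (4000000 * ‖x - y‖) := by
      rw [norm_smul, Real.norm_eq_abs]
      have h2 : ‖∑ j, (fc (x j) - fc (y j))‖ ≤ 3 * (4000000 * ‖x - y‖) := by
        refine le_trans (norm_sum_le _ _) ?_
        rw [Fin.sum_univ_three]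
        linarith [hk 0, hk 1, hk 2]
      calc |μ k| * ‖∑ j, (fc (x j) - fc (y j))‖ ≤ 1 * (3 * (4000000 * ‖x - y‖)) := by
            gcongr; exact hμ k
        _ = _ := one_mul _
    have h3 := norm_add_le (-(fc (x k) - fc (y k))) (μ k • ∑ j, (fc (x j) - fc (y j)))
    rw [norm_neg] at h3
    have h4 := hk k
    push_cast
    linarith
  have hM : ∀ x, ‖GG μ x‖ ≤ 40000 := by
    intro x
    rw [pi_norm_le_iff_of_nonneg (by norm_num)]
    intro k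
    have h2 : ‖∑ j, fc (x j)‖ ≤ 30000 := by
      refine le_trans (norm_sum_le _ _) ?_
      rw [Fin.sum_univ_three]
      linarith [norm_fc_le (x 0), norm_fc_le (x 1), norm_fc_le (x 2)]
    have h1 : ‖μ k • ∑ j, fc (x j)‖ ≤ 30000 := by
      rw [norm_smul, Real.norm_eq_abs]
      calc |μ k| * ‖∑ j, fc (x j)‖ ≤ 1 * 30000 := by gcongr; exact hμ k
        _ = _ := one_mul _
    have h3 := norm_add_le (-fc (x k)) (μ k • ∑ j, fc (x j))
    rw [norm_neg] at h3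
    have h4 := norm_fc_le (x k)
    show ‖-fc (x k) + μ k • ∑ j, fc (x j)‖ ≤ 40000
    linarith
  obtain ⟨q, v, h1, h2, h3, h4⟩ := exists_global_second_order (GG μ) _ hL _ hM d0 v0
  exact ⟨q, v, ⟨h3, h4⟩, h1, h2⟩

/-- The identification with Euclidean space. -/
noncomputable def T3 : (Fin 3 → ℂ) →L[ℝ] EuclideanSpace ℂ (Fin 3) :=
  (PiLp.continuousLinearEquiv 2 ℝ (fun _ : Fin 3 => ℂ)).symm

/-- The Euclidean norm of a triple. -/
noncomputable def n3 (u : Fin 3 → ℂ) : ℝ := ‖T3 u‖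

lemma n3_nonneg (u : Fin 3 → ℂ) : 0 ≤ n3 u := norm_nonneg _

lemma n3_sq (u : Fin 3 → ℂ) : n3 u ^ 2 = ‖u 0‖ ^ 2 + ‖u 1‖ ^ 2 + ‖u 2‖ ^ 2 := by
  unfold n3
  rw [EuclideanSpace.norm_sq_eq, Fin.sum_univ_three]
  rfl

lemma n3_add_le (u w : Fin 3 → ℂ) : n3 (u + w) ≤ n3 u + n3 w := by
  unfold n3; rw [map_add]; exact norm_add_le _ _

lemma n3_neg (u : Fin 3 → ℂ) : n3 (-u) = n3 u := by
  unfold n3; rw [map_neg, norm_neg]

lemma n3_sub_le (u w z : Fin 3 → ℂ) : n3 (u - z) ≤ n3 (u - w) + n3 (w - z) := by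
  have := n3_add_le (u - w) (w - z)
  rwa [sub_add_sub_cancel] at this

lemma le_n3 (u : Fin 3 → ℂ) (k : Fin 3) : ‖u k‖ ≤ n3 u :=
  PiLp.norm_apply_le (T3 u) k

lemma n3_le_sum (u : Fin 3 → ℂ) : n3 u ≤ ‖u 0‖ + ‖u 1‖ + ‖u 2‖ := by
  apply abs_le_of_sq_le_sq' _ (by positivity) |>.2
  rw [n3_sq]
  have := norm_nonneg (u 0)
  have := norm_nonneg (u 1)
  have := norm_nonneg (u 2)
  nlinarith [mul_nonneg (norm_nonneg (u 0)) (norm_nonneg (u 1)),
    mul_nonneg (norm_nonneg (u 0)) (norm_nonneg (u 2)),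
    mul_nonneg (norm_nonneg (u 1)) (norm_nonneg (u 2))]

lemma n3_mono {u w : Fin 3 → ℂ} {K : ℝ} (hK : 0 ≤ K) (h : ∀ k, ‖u k‖ ≤ K * ‖w k‖) :
    n3 u ≤ K * n3 w := by
  apply abs_le_of_sq_le_sq' _ (mul_nonneg hK (n3_nonneg w)) |>.2
  rw [mul_pow, n3_sq, n3_sq]
  have h0 := pow_le_pow_left₀ (norm_nonneg _) (h 0) 2
  have h1 := pow_le_pow_left₀ (norm_nonneg _) (h 1) 2
  have h2 := pow_le_pow_left₀ (norm_nonneg _) (h 2) 2
  rw [mul_pow] at h0 h1 h2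
  linarith

lemma n3_proj (u : Fin 3 → ℂ) : n3 (fun k => -u k + (1 / 3 : ℝ) • ∑ j, u j) ≤ n3 u := by
  apply abs_le_of_sq_le_sq' _ (n3_nonneg u) |>.2
  rw [n3_sq, n3_sq]
  simp only [Complex.sq_norm, Complex.normSq_apply, Fin.sum_univ_three, Complex.add_re,
    Complex.add_im, Complex.neg_re, Complex.neg_im, Complex.smul_re, Complex.smul_im, smul_eq_mul]
  nlinarith [sq_nonneg ((u 0).re + (u 1).re + (u 2).re), sq_nonneg ((u 0).im + (u 1).im + (u 2).im)]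

/-- The fencing lemma. -/
theorem fence {μ : Fin 3 → ℝ} {d v : ℝ → Fin 3 → ℂ} (hs : Sol μ d v) {δ : ℝ}
    (hμ : ∀ k, |μ k - 1 / 3| ≤ δ) {D V A : ℝ → Fin 3 → ℂ} (hD : ∀ t, HasDerivAt D (V t) t)
    (hV : ∀ t, HasDerivAt V (A t) t) {t0 t1 κ ρ m : ℝ} (hκ : 0 < κ) (hρ : 1 / 100 ≤ ρ)
    (hκρ : 2 ≤ κ ^ 2 * ρ ^ 3) (hm : 0 ≤ m) (hDk : ∀ t ∈ Icc t0 t1, ∀ k, ρ + m ≤ ‖D t k‖)
    {B B' e : ℝ → ℝ} (hB : ∀ t, HasDerivAt B (B' t) t) (hBm : ∀ t ∈ Icc t0 t1, B t ≤ κ * m)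
    (he : ∀ t ∈ Icc t0 t1, n3 (A t - F0 (D t)) ≤ e t)
    (hB' : ∀ t ∈ Icc t0 t1, κ * B t + e t + 90000 * δ < B' t)
    (h0 : κ * n3 (d t0 - D t0) ≤ B t0) (h1 : n3 (v t0 - V t0) ≤ B t0) :
    ∀ t ∈ Icc t0 t1, κ * n3 (d t - D t) ≤ B t ∧ n3 (v t - V t) ≤ B t := by
  have hδ : 0 ≤ δ := le_trans (abs_nonneg _) (hμ 0)
  have hρ0 : 0 < ρ := by linarith
  let f : ℝ → EuclideanSpace ℂ (Fin 3) × EuclideanSpace ℂ (Fin 3) :=
    fun t => (κ • T3 (d t - D t), T3 (v t - V t))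
  let f' : ℝ → EuclideanSpace ℂ (Fin 3) × EuclideanSpace ℂ (Fin 3) :=
    fun t => (κ • T3 (v t - V t), T3 (GG μ (d t) - A t))
  have hf : ∀ t, HasDerivAt f (f' t) t := by
    intro t
    have a1 := (T3.hasFDerivAt.comp_hasDerivAt t ((hs.hd t).sub (hD t))).const_smul κ
    have a2 := T3.hasFDerivAt.comp_hasDerivAt t ((hs.hv t).sub (hV t))
    exact hd_congr (a1.prodMk a2) (fun _ => rfl) rfl
  have hn : ∀ t, ‖f t‖ = max (κ * n3 (d t - D t)) (n3 (v t - V t)) := by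
    intro t
    rw [Prod.norm_def]
    simp only [f, n3, norm_smul, Real.norm_of_nonneg hκ.le]
  have key := image_norm_le_of_norm_deriv_right_lt_deriv_boundary (f := f) (f' := f')
    (a := t0) (b := t1) (B := B) (B' := B')
    (fun t _ => (hf t).continuousAt.continuousWithinAt) (fun t _ => (hf t).hasDerivWithinAt)
    (by rw [hn]; exact max_le h0 h1) hB (by
      intro t ht hb
      have ht' : t ∈ Icc t0 t1 := Ico_subset_Icc_self ht
      rw [hn] at hb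
      have b1 : κ * n3 (d t - D t) ≤ B t := hb ▸ le_max_left _ _
      have b2 : n3 (v t - V t) ≤ B t := hb ▸ le_max_right _ _
      have b3 : n3 (d t - D t) ≤ m := by
        have := le_trans b1 (hBm t ht')
        exact le_of_mul_le_mul_left this hκ
      have b4 : ∀ k, ρ ≤ ‖d t k‖ := by
        intro k
        have c1 := le_n3 (d t - D t) k
        have c2 := hDk t ht' k
        have c3 := norm_sub_norm_le (D t k) (d t k)
        rw [norm_sub_rev] at c3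
        simp only [Pi.sub_apply] at c1
        linarith
      have b5 : ∀ k, fc (d t k) = ff (d t k) := fun k => fc_eq (le_trans hρ (b4 k))
      have e0 : 0 ≤ e t := le_trans (n3_nonneg _) (he t ht')
      have b6 := hB' t ht'
      rw [Prod.norm_def]
      apply max_lt
      · show ‖κ • T3 (v t - V t)‖ < B' t
        rw [norm_smul, Real.norm_of_nonneg hκ.le]
        have : κ * n3 (v t - V t) ≤ κ * B t := by gcongr
        unfold n3 at this
        nlinarith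
      · show n3 (GG μ (d t) - A t) < B' t
        have e1 : GG μ (d t) - A t
            = ((fun k => -(ff (d t k) - ff (D t k)) + (1 / 3 : ℝ) • ∑ j, (ff (d t j) - ff (D t j)))
              + -(A t - F0 (D t))) + fun k => (μ k - 1 / 3) • ∑ j, fc (d t j) := by
          funext k
          simp only [GG, F0, Pi.add_apply, Pi.sub_apply, Pi.neg_apply, b5, Finset.sum_sub_distrib,
            smul_sub, sub_smul]
          abel
        have c1 := n3_proj (fun k => ff (d t k) - ff (D t k))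
        have c2 : n3 (fun k => ff (d t k) - ff (D t k)) ≤ 2 / ρ ^ 3 * n3 (d t - D t) :=
          n3_mono (by positivity) (fun k => ff_lip hρ0 (b4 k) (by linarith [hDk t ht' k]))
        have c3 : 2 / ρ ^ 3 ≤ κ ^ 2 := by rw [div_le_iff₀ (by positivity)]; exact hκρ
        have c4 : 2 / ρ ^ 3 * n3 (d t - D t) ≤ κ * B t := by
          calc 2 / ρ ^ 3 * n3 (d t - D t) ≤ κ ^ 2 * n3 (d t - D t) := by
                gcongr; exact n3_nonneg _
            _ = κ * (κ * n3 (d t - D t)) := by ring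
            _ ≤ κ * B t := by gcongr
        have c5 : n3 (fun k => (μ k - 1 / 3) • ∑ j, fc (d t j)) ≤ 90000 * δ := by
          have h2 : ‖∑ j, fc (d t j)‖ ≤ 30000 := by
            refine le_trans (norm_sum_le _ _) ?_
            rw [Fin.sum_univ_three]
            linarith [norm_fc_le (d t 0), norm_fc_le (d t 1), norm_fc_le (d t 2)]
          have h3 : ∀ k, ‖(μ k - 1 / 3) • ∑ j, fc (d t j)‖ ≤ δ * 30000 := by
            intro k
            rw [norm_smul, Real.norm_eq_abs]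
            gcongr
            exact hμ k
          refine le_trans (n3_le_sum _) ?_
          linarith [h3 0, h3 1, h3 2]
        rw [e1]
        have c6 := n3_add_le ((fun k => -(ff (d t k) - ff (D t k))
          + (1 / 3 : ℝ) • ∑ j, (ff (d t j) - ff (D t j))) + -(A t - F0 (D t)))
          (fun k => (μ k - 1 / 3) • ∑ j, fc (d t j))
        have c7 := n3_add_le (fun k => -(ff (d t k) - ff (D t k))
          + (1 / 3 : ℝ) • ∑ j, (ff (d t j) - ff (D t j))) (-(A t - F0 (D t)))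
        rw [n3_neg] at c7
        have c8 := he t ht'
        linarith)
  intro t ht
  have := key ht
  rw [hn] at this
  exact ⟨le_trans (le_max_left _ _) this, le_trans (le_max_right _ _) this⟩

end Pool.Agent.Lib.MP_6e7c44_mp
end

-- part Pool.Agent.Lib.MP_6e7c44_mp.Check
section

/-!
The certificate format and the Boolean checker for one step of the validated integration.
-/

set_option autoImplicit false

namespace Pool.Agent.Lib.MP_6e7c44_mp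

/-- A reference state: two relative positions, two relative velocities and two error bounds. -/
structure St where
  x0 : ℚ
  y0 : ℚ
  x1 : ℚ
  y1 : ℚ
  u0 : ℚ
  w0 : ℚ
  u1 : ℚ
  w1 : ℚ
  a : ℚ
  b : ℚ

/-- A certificate for one step: polynomial approximations on the scaled interval `[-1, 1]`. -/
structure Cert where
  p : ℕ
  B : ℕ
  k : ℕ
  hn : ℕ
  hs : ℕ
  X0 : List ℤ
  Y0 : List ℤ
  X1 : List ℤ
  Y1 : List ℤ
  H0 : List ℤ
  H1 : List ℤ
  H2 : List ℤ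
  eH : ℕ
  eR : ℕ
  kap : ℚ
  rho : ℚ
  mar : ℚ
  B1 : ℚ

/-- The dyadic rational `n / 2 ^ k`. -/
def dy (n : ℤ) (k : ℕ) : ℚ := (n : ℚ) / ((2 ^ k : ℕ) : ℚ)

def okK (B k M : ℕ) (q : KP) : Bool := decide (l1 B k q.v ≤ M) && decide (q.b + M < 2 ^ B)

def kE (c : ℤ) (x y h : KP) : KP := ((h.mul h).mul ((x.mul x).add (y.mul y))).sub (KP.const c)

def kF (x h : KP) : KP := x.mul ((h.mul h).mul h)

def kR (c1 c2 : ℤ) (a f0 f1 f2 : KP) : KP :=
  (a.smul c1).add (((f0.smul 3).sub ((f0.add f1).add f2)).smul c2)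

def checkPolyAux (B k eH eR : ℕ) (c0 c1 c2 : ℤ)
    (x0 y0 x1 y1 x2 y2 h0 h1 h2 ax0 ay0 ax1 ay1 : KP) : Bool :=
  okK B k eH (kE c0 x0 y0 h0) && okK B k eH (kE c0 x1 y1 h1) && okK B k eH (kE c0 x2 y2 h2)
    && okK B k eR (kR c1 c2 ax0 (kF x0 h0) (kF x1 h1) (kF x2 h2))
    && okK B k eR (kR c1 c2 ay0 (kF y0 h0) (kF y1 h1) (kF y2 h2))
    && okK B k eR (kR c1 c2 ax1 (kF x1 h1) (kF x0 h0) (kF x2 h2))
    && okK B k eR (kR c1 c2 ay1 (kF y1 h1) (kF y0 h0) (kF y2 h2))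

def Cert.X (c : Cert) : ℤ := ((2 ^ c.B : ℕ) : ℤ)

def checkPoly (c : Cert) : Bool :=
  checkPolyAux c.B c.k c.eH c.eR ((2 ^ (4 * c.p) : ℕ) : ℤ)
    ((3 * 2 ^ (2 * c.hs + 3 * c.p) : ℕ) : ℤ) ((c.hn ^ 2 : ℕ) : ℤ)
    (KP.ofL c.X c.X0) (KP.ofL c.X c.Y0) (KP.ofL c.X c.X1) (KP.ofL c.X c.Y1)
    ((KP.ofL c.X c.X0).add (KP.ofL c.X c.X1)).neg ((KP.ofL c.X c.Y0).add (KP.ofL c.X c.Y1)).neg
    (KP.ofL c.X c.H0) (KP.ofL c.X c.H1) (KP.ofL c.X c.H2)
    (KP.ofL c.X (lder (lder c.X0))) (KP.ofL c.X (lder (lder c.Y0)))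
    (KP.ofL c.X (lder (lder c.X1))) (KP.ofL c.X (lder (lder c.Y1)))

def Cert.P (c : Cert) : ℚ := ((2 ^ c.p : ℕ) : ℚ)
def Cert.h (c : Cert) : ℚ := dy c.hn c.hs
def Cert.pos (c : Cert) (l : List ℤ) (e : ℤ) : ℚ := (evalZ l e : ℚ) / c.P
def Cert.vel (c : Cert) (l : List ℤ) (e : ℤ) : ℚ := (evalZ (lder l) e : ℚ) / (c.P * c.h)
def Cert.epsH (c : Cert) : ℚ := (c.eH : ℚ) / ((2 ^ (4 * c.p) : ℕ) : ℚ)
def Cert.epsR (c : Cert) : ℚ := (c.eR : ℚ) / ((3 * c.hn ^ 2 * 2 ^ (4 * c.p) : ℕ) : ℚ)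
def pad : ℚ := dy 1 440
def Cert.eps (c : Cert) : ℚ := 8 * c.epsR + 12 * c.epsH / c.rho ^ 2 + pad

/-- The state at the end of the step. -/
def Cert.out (c : Cert) : St :=
  ⟨c.pos c.X0 1, c.pos c.Y0 1, c.pos c.X1 1, c.pos c.Y1 1,
    c.vel c.X0 1, c.vel c.Y0 1, c.vel c.X1 1, c.vel c.Y1 1, c.B1 / c.kap, c.B1⟩

def okH (c : Cert) (l : List ℤ) : Bool :=
  decide ((norm1 l.tail : ℤ) < l.headD 0)
    && decide ((c.rho + c.mar) * (norm1 l : ℚ) ≤ (1 - c.epsH) * c.P)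

def jump0 (s : St) (c : Cert) : ℚ :=
  2 * (|c.pos c.X0 (-1) - s.x0| + |c.pos c.Y0 (-1) - s.y0|
    + |c.pos c.X1 (-1) - s.x1| + |c.pos c.Y1 (-1) - s.y1|)

def jump1 (s : St) (c : Cert) : ℚ :=
  2 * (|c.vel c.X0 (-1) - s.u0| + |c.vel c.Y0 (-1) - s.w0|
    + |c.vel c.X1 (-1) - s.u1| + |c.vel c.Y1 (-1) - s.w1|)

def Cert.gr (c : Cert) : ℚ := (1 - 2 * c.kap * c.h / 1024) ^ 1024

def checkScal (s : St) (c : Cert) : Bool :=
  decide (0 < c.hn) && decide (0 < c.kap) && decide (1 / 100 ≤ c.rho) && decide (0 ≤ c.mar)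
    && decide (2 ≤ c.kap ^ 2 * c.rho ^ 3) && decide (c.epsH ≤ 1 / 10)
    && okH c c.H0 && okH c c.H1 && okH c c.H2
    && decide (2 * c.kap * c.h < 1024)
    && decide (c.kap * (s.a + jump0 s c) + 2 * c.h * c.eps ≤ c.B1 * c.gr)
    && decide (s.b + jump1 s c + 2 * c.h * c.eps ≤ c.B1 * c.gr)
    && decide (c.B1 ≤ c.kap * c.mar)

end Pool.Agent.Lib.MP_6e7c44_mp
end

-- part Pool.Agent.Lib.MP_6e7c44_mp.Step
section

/-!
Soundness of the step checker.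
-/

set_option autoImplicit false

namespace Pool.Agent.Lib.MP_6e7c44_mp

open Set

/-- The triple with sum zero determined by its first two entries. -/
noncomputable def tri (a b c d : ℝ) : Fin 3 → ℂ :=
  ![(a : ℂ) + (b : ℂ) * Complex.I, (c : ℂ) + (d : ℂ) * Complex.I,
    ((-(a + c) : ℝ) : ℂ) + ((-(b + d) : ℝ) : ℂ) * Complex.I]

lemma hd_cplx {a b : ℝ → ℝ} {a' b' t : ℝ} (ha : HasDerivAt a a' t) (hb : HasDerivAt b b' t) :
    HasDerivAt (fun s => (a s : ℂ) + (b s : ℂ) * Complex.I) ((a' : ℂ) + (b' : ℂ) * Complex.I) t :=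
  ha.ofReal_comp.add (hb.ofReal_comp.mul_const Complex.I)

lemma hd_tri {a b c d : ℝ → ℝ} {a' b' c' d' t : ℝ} (ha : HasDerivAt a a' t)
    (hb : HasDerivAt b b' t) (hc : HasDerivAt c c' t) (hd : HasDerivAt d d' t) :
    HasDerivAt (fun s => tri (a s) (b s) (c s) (d s)) (tri a' b' c' d') t := by
  rw [hasDerivAt_pi]
  intro k
  fin_cases k
  · exact hd_cplx ha hb
  · exact hd_cplx hc hd
  · exact hd_cplx (ha.add hc).neg (hb.add hd).neg

lemma norm_cplx_le (a b : ℝ) : ‖(a : ℂ) + (b : ℂ) * Complex.I‖ ≤ |a| + |b| := by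
  refine le_trans (norm_add_le _ _) ?_
  simp

lemma norm_cplx_sq (a b : ℝ) : ‖(a : ℂ) + (b : ℂ) * Complex.I‖ ^ 2 = a * a + b * b := by
  rw [Complex.sq_norm, Complex.normSq_apply]; simp

lemma n3_tri (a b c d : ℝ) : n3 (tri a b c d) ≤ 2 * (|a| + |b| + |c| + |d|) := by
  refine le_trans (n3_le_sum _) ?_
  have h0 := norm_cplx_le a b
  have h1 := norm_cplx_le c d
  have h2 := norm_cplx_le (-(a + c)) (-(b + d))
  rw [abs_neg, abs_neg] at h2
  have h3 := abs_add_le a c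
  have h4 := abs_add_le b d
  show ‖(a : ℂ) + (b : ℂ) * Complex.I‖ + ‖(c : ℂ) + (d : ℂ) * Complex.I‖
    + ‖((-(a + c) : ℝ) : ℂ) + ((-(b + d) : ℝ) : ℂ) * Complex.I‖ ≤ _
  linarith

lemma tri_sub (a b c d a' b' c' d' : ℝ) :
    tri a b c d - tri a' b' c' d' = tri (a - a') (b - b') (c - c') (d - d') := by
  funext k
  fin_cases k <;> simp [tri] <;> ring

noncomputable def St.D (s : St) : Fin 3 → ℂ := tri s.x0 s.y0 s.x1 s.y1
noncomputable def St.V (s : St) : Fin 3 → ℂ := tri s.u0 s.w0 s.u1 s.w1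

/-- The solution is close to the reference state at time `t`. -/
def Near (d v : ℝ → Fin 3 → ℂ) (t : ℝ) (s : St) : Prop :=
  n3 (d t - s.D) ≤ s.a ∧ n3 (v t - s.V) ≤ s.b

/-- The admissible deviation of the normalised masses from `1 / 3`. -/
noncomputable def del0 : ℝ := (1 / 2) ^ 460

/-- Every solution near `s` comes near `s'` later, without close encounters in between. -/
def Reach (s s' : St) : Prop :=
  ∀ (μ : Fin 3 → ℝ) (d v : ℝ → Fin 3 → ℂ), Sol μ d v → (∀ k, |μ k - 1 / 3| ≤ del0) →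
    ∀ t0, Near d v t0 s → ∃ t1, t0 ≤ t1 ∧ Near d v t1 s' ∧ ∀ t ∈ Icc t0 t1, ∀ k, 1 / 100 ≤ ‖d t k‖

lemma Reach.trans {s s' s'' : St} (h1 : Reach s s') (h2 : Reach s' s'') : Reach s s'' := by
  intro μ d v hs hμ t0 h0
  obtain ⟨t1, a1, a2, a3⟩ := h1 μ d v hs hμ t0 h0
  obtain ⟨t2, b1, b2, b3⟩ := h2 μ d v hs hμ t1 a2
  refine ⟨t2, le_trans a1 b1, b2, fun t ht => ?_⟩
  rcases le_total t t1 with h | h
  · exact a3 t ⟨ht.1, h⟩
  · exact b3 t ⟨h, ht.2⟩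

lemma body {z : ℂ} {H Hm ε ρ m : ℝ} (h1 : |H * H * ‖z‖ ^ 2 - 1| ≤ ε) (h2 : ε ≤ 1 / 10)
    (h3 : 0 < H) (h4 : H ≤ Hm) (h5 : (ρ + m) * Hm ≤ 1 - ε) (hρ : 0 < ρ) (hm : 0 ≤ m) :
    ρ + m ≤ ‖z‖ ∧ ‖ff z - (H * H * H) • z‖ ≤ 4 * ε / ρ ^ 2 := by
  have hr := norm_nonneg z
  set q := H * ‖z‖ with hq
  have hq0 : 0 ≤ q := by positivity
  have e1 : H * H * ‖z‖ ^ 2 - 1 = (q - 1) * (q + 1) := by rw [hq]; ring
  have hε : 0 ≤ ε := le_trans (abs_nonneg _) h1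
  have a1 : |q - 1| ≤ ε := by
    rw [e1, abs_mul, abs_of_nonneg (by linarith : 0 ≤ q + 1)] at h1
    nlinarith [abs_nonneg (q - 1)]
  have a2 := abs_le.mp a1
  have a3 : ρ + m ≤ ‖z‖ := by
    have : (ρ + m) * H ≤ ‖z‖ * H := by nlinarith
    exact le_of_mul_le_mul_right this h3
  refine ⟨a3, ?_⟩
  have hz : 0 < ‖z‖ := by linarith
  have e2 : ff z - (H * H * H) • z = ((‖z‖ ^ 3)⁻¹ - H * H * H) • z := by
    unfold ff; rw [sub_smul]
  have e3 : ((‖z‖ ^ 3)⁻¹ - H * H * H) = (1 - q) * (1 + q + q ^ 2) / ‖z‖ ^ 3 := by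
    rw [hq]; field_simp; ring
  rw [e2, norm_smul, Real.norm_eq_abs, e3, abs_div, abs_mul, abs_sub_comm 1 q,
    abs_of_nonneg (by positivity : 0 ≤ 1 + q + q ^ 2), abs_of_nonneg (by positivity : 0 ≤ ‖z‖ ^ 3)]
  have a4 : 1 + q + q ^ 2 ≤ 4 := by nlinarith
  calc |q - 1| * (1 + q + q ^ 2) / ‖z‖ ^ 3 * ‖z‖ = |q - 1| * (1 + q + q ^ 2) / ‖z‖ ^ 2 := by
        field_simp
    _ ≤ ε * 4 / ρ ^ 2 := by gcongr; linarith
    _ = 4 * ε / ρ ^ 2 := by ring

lemma okK_sound {B k M : ℕ} {q : KP} {g : ℝ → ℝ} (h : okK B k M q = true)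
    (hq : Rep ((2 ^ B : ℕ) : ℤ) q g) {x : ℝ} (hx : |x| ≤ 1) : |g x| ≤ M := by
  simp only [okK, Bool.and_eq_true, decide_eq_true_eq] at h
  exact hq.bound k M h.1 h.2 hx

lemma Rep.kE {X : ℤ} (c : ℤ) {x y h : KP} {fx fy fh : ℝ → ℝ} (hx : Rep X x fx) (hy : Rep X y fy)
    (hh : Rep X h fh) :
    Rep X (kE c x y h) (fun t => fh t * fh t * (fx t * fx t + fy t * fy t) - c) :=
  ((hh.mul hh).mul ((hx.mul hx).add (hy.mul hy))).sub (Rep.const X c)

lemma Rep.kF {X : ℤ} {x h : KP} {fx fh : ℝ → ℝ} (hx : Rep X x fx) (hh : Rep X h fh) :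
    Rep X (kF x h) (fun t => fx t * (fh t * fh t * fh t)) :=
  hx.mul ((hh.mul hh).mul hh)

lemma Rep.kR {X : ℤ} (c1 c2 : ℤ) {a f0 f1 f2 : KP} {ga g0 g1 g2 : ℝ → ℝ} (ha : Rep X a ga)
    (h0 : Rep X f0 g0) (h1 : Rep X f1 g1) (h2 : Rep X f2 g2) :
    Rep X (kR c1 c2 a f0 f1 f2)
      (fun t => c1 * ga t + c2 * (((3 : ℤ) : ℝ) * g0 t - (g0 t + g1 t + g2 t))) :=
  (ha.smul c1).add (((h0.smul 3).sub ((h0.add h1).add h2)).smul c2)

lemma evalR_pos {l : List ℤ} (h : (norm1 l.tail : ℤ) < l.headD 0) {x : ℝ} (hx : |x| ≤ 1) :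
    0 < evalR l x := by
  cases l with
  | nil => simp [norm1] at h
  | cons a l =>
    simp only [List.tail_cons, List.headD_cons] at h
    have h1 : |x * evalR l x| ≤ norm1 l := by
      rw [abs_mul]
      have := abs_evalR_le l hx
      calc |x| * |evalR l x| ≤ 1 * (norm1 l : ℝ) := by gcongr
        _ = _ := one_mul _
    have h2 : (norm1 l : ℝ) < a := by exact_mod_cast h
    simp only [evalR]
    linarith [(abs_le.mp h1).1]

lemma cast_h (c : Cert) : ((c.h : ℚ) : ℝ) = (c.hn : ℝ) / 2 ^ c.hs := by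
  simp [Cert.h, dy]

lemma cast_P (c : Cert) : ((c.P : ℚ) : ℝ) = 2 ^ c.p := by simp [Cert.P]

lemma cast_pos (c : Cert) (l : List ℤ) (e : ℤ) :
    ((c.pos l e : ℚ) : ℝ) = evalR l e / 2 ^ c.p := by
  simp [Cert.pos, cast_P, evalZ_cast]

lemma cast_vel (c : Cert) (l : List ℤ) (e : ℤ) :
    ((c.vel l e : ℚ) : ℝ) = evalR (lder l) e / (2 ^ c.p * (c.h : ℝ)) := by
  simp [Cert.vel, cast_P, evalZ_cast]

lemma okH_sound {c : Cert} {l : List ℤ} (h : okH c l = true) {x : ℝ} (hx : |x| ≤ 1) :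
    0 < evalR l x / 2 ^ c.p ∧ evalR l x / 2 ^ c.p ≤ (norm1 l : ℝ) / 2 ^ c.p ∧
      ((c.rho : ℝ) + c.mar) * ((norm1 l : ℝ) / 2 ^ c.p) ≤ 1 - (c.epsH : ℝ) := by
  simp only [okH, Bool.and_eq_true, decide_eq_true_eq] at h
  refine ⟨div_pos (evalR_pos h.1 hx) (by positivity), ?_, ?_⟩
  · gcongr
    exact le_trans (le_abs_self _) (abs_evalR_le l hx)
  · have h2 : ((c.rho : ℝ) + c.mar) * (norm1 l : ℝ) ≤ (1 - (c.epsH : ℝ)) * (c.P : ℝ) := by
      exact_mod_cast h.2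
    rw [cast_P] at h2
    rw [← mul_div_assoc, div_le_iff₀ (by positivity)]
    exact h2

lemma gr_le (y : ℝ) (hy : y < 1024) : (1 - y / 1024) ^ 1024 * Real.exp y ≤ 1 := by
  have h1 : 1 - y / 1024 ≤ Real.exp (-(y / 1024)) := by
    have := Real.add_one_le_exp (-(y / 1024)); linarith
  have h2 : (1 - y / 1024) ^ 1024 ≤ Real.exp (-(y / 1024)) ^ 1024 :=
    pow_le_pow_left₀ (by linarith) h1 _
  rw [← Real.exp_nat_mul] at h2
  have h3 : ((1024 : ℕ) : ℝ) * -(y / 1024) = -y := by push_cast; ring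
  rw [h3] at h2
  calc (1 - y / 1024) ^ 1024 * Real.exp y ≤ Real.exp (-y) * Real.exp y := by gcongr
    _ = 1 := by rw [← Real.exp_add]; simp

lemma pad_gt : 90000 * del0 < (pad : ℝ) := by
  have e : (pad : ℝ) = (1 / 2) ^ 440 := by
    unfold pad dy
    rw [Rat.cast_div, Rat.cast_natCast, Nat.cast_pow, one_div_pow]
    simp only [Int.cast_one, Rat.cast_one, Nat.cast_ofNat]
  have e2 : del0 = (1 / 2) ^ 440 * (1 / 2) ^ 20 := by unfold del0; rw [← pow_add]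
  rw [e, e2]
  have : (0 : ℝ) < (1 / 2) ^ 440 := by positivity
  generalize ((1 : ℝ) / 2) ^ 440 = A at this
  nlinarith

/-- The defect of the polynomial approximation at one time. -/
lemma defect {x0 y0 x1 y1 h0 h1 h2 ax0 ay0 ax1 ay1 εR g : ℝ}
    (r1 : |ax0 + x0 * (h0 * h0 * h0) - 1 / 3 * (x0 * (h0 * h0 * h0) + x1 * (h1 * h1 * h1)
      + -(x0 + x1) * (h2 * h2 * h2))| ≤ εR)
    (r2 : |ay0 + y0 * (h0 * h0 * h0) - 1 / 3 * (y0 * (h0 * h0 * h0) + y1 * (h1 * h1 * h1)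
      + -(y0 + y1) * (h2 * h2 * h2))| ≤ εR)
    (r3 : |ax1 + x1 * (h1 * h1 * h1) - 1 / 3 * (x0 * (h0 * h0 * h0) + x1 * (h1 * h1 * h1)
      + -(x0 + x1) * (h2 * h2 * h2))| ≤ εR)
    (r4 : |ay1 + y1 * (h1 * h1 * h1) - 1 / 3 * (y0 * (h0 * h0 * h0) + y1 * (h1 * h1 * h1)
      + -(y0 + y1) * (h2 * h2 * h2))| ≤ εR)
    (g0 : ‖ff (tri x0 y0 x1 y1 0) - (h0 * h0 * h0) • tri x0 y0 x1 y1 0‖ ≤ g)
    (g1 : ‖ff (tri x0 y0 x1 y1 1) - (h1 * h1 * h1) • tri x0 y0 x1 y1 1‖ ≤ g)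
    (g2 : ‖ff (tri x0 y0 x1 y1 2) - (h2 * h2 * h2) • tri x0 y0 x1 y1 2‖ ≤ g) :
    n3 (tri ax0 ay0 ax1 ay1 - F0 (tri x0 y0 x1 y1)) ≤ 8 * εR + 3 * g := by
  set D := tri x0 y0 x1 y1 with hD
  let w : Fin 3 → ℂ := ![ff (D 0) - (h0 * h0 * h0) • D 0, ff (D 1) - (h1 * h1 * h1) • D 1,
    ff (D 2) - (h2 * h2 * h2) • D 2]
  have e : tri ax0 ay0 ax1 ay1 - F0 D
      = tri (ax0 + x0 * (h0 * h0 * h0) - 1 / 3 * (x0 * (h0 * h0 * h0) + x1 * (h1 * h1 * h1)
          + -(x0 + x1) * (h2 * h2 * h2)))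
        (ay0 + y0 * (h0 * h0 * h0) - 1 / 3 * (y0 * (h0 * h0 * h0) + y1 * (h1 * h1 * h1)
          + -(y0 + y1) * (h2 * h2 * h2)))
        (ax1 + x1 * (h1 * h1 * h1) - 1 / 3 * (x0 * (h0 * h0 * h0) + x1 * (h1 * h1 * h1)
          + -(x0 + x1) * (h2 * h2 * h2)))
        (ay1 + y1 * (h1 * h1 * h1) - 1 / 3 * (y0 * (h0 * h0 * h0) + y1 * (h1 * h1 * h1)
          + -(y0 + y1) * (h2 * h2 * h2)))
        + -(fun k => -w k + (1 / 3 : ℝ) • ∑ j, w j) := by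
    funext k
    have d0 : D 0 = (x0 : ℂ) + (y0 : ℂ) * Complex.I := rfl
    have d1 : D 1 = (x1 : ℂ) + (y1 : ℂ) * Complex.I := rfl
    have d2 : D 2 = ((-(x0 + x1) : ℝ) : ℂ) + ((-(y0 + y1) : ℝ) : ℂ) * Complex.I := rfl
    obtain ⟨φ, hφ⟩ : ∃ φ : Fin 3 → ℂ, ∀ k, ff (D k) = φ k := ⟨_, fun _ => rfl⟩
    simp only [F0, Pi.add_apply, Pi.sub_apply, Pi.neg_apply, Fin.sum_univ_three, w, hφ]
    fin_cases k <;> simp [tri, d0, d1, d2] <;> ring
  rw [e]
  refine le_trans (n3_add_le _ _) ?_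
  rw [n3_neg]
  have a1 := n3_proj w
  have a2 := n3_le_sum w
  have a3 : ‖w 0‖ ≤ g := g0
  have a4 : ‖w 1‖ ≤ g := g1
  have a5 : ‖w 2‖ ≤ g := g2
  refine add_le_add (le_trans (n3_tri _ _ _ _) ?_) (by linarith)
  linarith

lemma resid {P hn Hs eR a f0 f1 f2 : ℝ} (hP : 0 < P) (hhn : 0 < hn) (_hH : 0 < Hs)
    (h : |3 * (Hs ^ 2 * P ^ 3) * a + hn ^ 2 * (3 * f0 - (f0 + f1 + f2))| ≤ eR) :
    |a / (P * (hn / Hs) * (hn / Hs)) + f0 / P ^ 4 - 1 / 3 * ((f0 + f1 + f2) / P ^ 4)|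
      ≤ eR / (3 * hn ^ 2 * P ^ 4) := by
  have e : a / (P * (hn / Hs) * (hn / Hs)) + f0 / P ^ 4 - 1 / 3 * ((f0 + f1 + f2) / P ^ 4)
      = (3 * (Hs ^ 2 * P ^ 3) * a + hn ^ 2 * (3 * f0 - (f0 + f1 + f2))) / (3 * hn ^ 2 * P ^ 4) := by
    field_simp; ring
  rw [e, abs_div, abs_of_pos (by positivity : 0 < 3 * hn ^ 2 * P ^ 4)]
  gcongr

lemma cast_gr (c : Cert) (h : 2 * (c.kap : ℝ) * (c.h : ℝ) < 1024) :
    (0 : ℝ) < c.gr ∧ (c.gr : ℝ) * Real.exp (2 * c.kap * (c.h : ℝ)) ≤ 1 := by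
  have e0 : ((1 - 2 * c.kap * c.h / 1024 : ℚ) : ℝ) = 1 - 2 * (c.kap : ℝ) * (c.h : ℝ) / 1024 := by
    push_cast; rfl
  have hpos : 0 < 1 - 2 * (c.kap : ℝ) * (c.h : ℝ) / 1024 := by linarith
  have hgr : (c.gr : ℝ) = (1 - 2 * (c.kap : ℝ) * (c.h : ℝ) / 1024) ^ 1024 := by
    unfold Cert.gr
    rw [Rat.cast_pow, e0]
  rw [hgr]
  exact ⟨pow_pos hpos _, gr_le _ h⟩

lemma scal_real (s : St) (c : Cert) (hq : checkScal s c = true) :
    (0 : ℝ) < c.hn ∧ (0 : ℝ) < c.kap ∧ (1 / 100 : ℝ) ≤ c.rho ∧ (0 : ℝ) ≤ c.mar ∧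
    (2 : ℝ) ≤ (c.kap : ℝ) ^ 2 * (c.rho : ℝ) ^ 3 ∧ (c.epsH : ℝ) ≤ 1 / 10 ∧
    okH c c.H0 = true ∧ okH c c.H1 = true ∧ okH c c.H2 = true ∧
    2 * (c.kap : ℝ) * (c.h : ℝ) < 1024 ∧
    (c.kap : ℝ) * (s.a + jump0 s c) + 2 * (c.h : ℝ) * c.eps ≤ c.B1 * c.gr ∧
    (s.b : ℝ) + jump1 s c + 2 * (c.h : ℝ) * c.eps ≤ c.B1 * c.gr ∧ (c.B1 : ℝ) ≤ c.kap * c.mar := by
  simp only [checkScal, Bool.and_eq_true, decide_eq_true_eq] at hq
  obtain ⟨⟨⟨⟨⟨⟨⟨⟨⟨⟨⟨⟨q1, q2⟩, q3⟩, q4⟩, q5⟩, q6⟩, q7⟩, q8⟩, q9⟩, q10⟩, q11⟩, q12⟩, q13⟩ := hq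
  refine ⟨by exact_mod_cast q1, by exact_mod_cast q2, ?_, by exact_mod_cast q4,
    by exact_mod_cast q5, ?_, q7, q8, q9, by exact_mod_cast q10, by exact_mod_cast q11,
    by exact_mod_cast q12, by exact_mod_cast q13⟩
  · have := (Rat.cast_le (K := ℝ)).mpr q3
    push_cast at this; exact this
  · have := (Rat.cast_le (K := ℝ)).mpr q6
    push_cast at this; exact this

theorem step_sound (s : St) (c : Cert) (hp : checkPoly c = true) (hq : checkScal s c = true) :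
    Reach s c.out := by
  intro μ d v hs hμ t0 hnear
  obtain ⟨hn0, k2, k3, k4, k5, k6, q7, q8, q9, k10, k11, k12, k13⟩ := scal_real s c hq
  obtain ⟨hgr0, hgr1⟩ := cast_gr c k10
  simp only [checkPoly, checkPolyAux, Bool.and_eq_true] at hp
  obtain ⟨⟨⟨⟨⟨⟨p1, p2⟩, p3⟩, p4⟩, p5⟩, p6⟩, p7⟩ := hp
  have hP : (0 : ℝ) < 2 ^ c.p := by positivity
  have hh := cast_h c
  obtain ⟨h, hhdef⟩ : ∃ h : ℝ, h = (c.h : ℝ) := ⟨_, rfl⟩
  rw [← hhdef] at hh k10 k11 k12 hgr1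
  have hh0 : 0 < h := by rw [hh]; positivity
  have hepsH : (c.epsH : ℝ) = (c.eH : ℝ) / (2 ^ c.p) ^ 4 := by
    unfold Cert.epsH; push_cast; rw [← pow_mul, mul_comm]
  have hepsR : (c.epsR : ℝ) = (c.eR : ℝ) / (3 * (c.hn : ℝ) ^ 2 * (2 ^ c.p) ^ 4) := by
    unfold Cert.epsR; push_cast; rw [← pow_mul, mul_comm c.p 4]
  have heps : (c.eps : ℝ) = 8 * c.epsR + 12 * c.epsH / (c.rho : ℝ) ^ 2 + pad := by
    unfold Cert.eps; push_cast; rfl
  have hρ0 : (0 : ℝ) < c.rho := by linarith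
  have hpad := pad_gt
  have hdel : 0 < del0 := by unfold del0; positivity
  have hepsH0 : (0 : ℝ) ≤ c.epsH := by rw [hepsH]; positivity
  have hepsR0 : (0 : ℝ) ≤ c.epsR := by rw [hepsR]; positivity
  have heps0 : (0 : ℝ) < c.eps := by
    rw [heps]
    have : (0 : ℝ) ≤ 12 * c.epsH / (c.rho : ℝ) ^ 2 := by positivity
    linarith
  -- the scaled time
  let τ : ℝ → ℝ := fun t => (t - t0) / h - 1
  have hτ : ∀ t, HasDerivAt τ (1 / h) t := fun t =>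
    (((hasDerivAt_id t).sub_const t0).div_const h).sub_const 1
  have hτ1 : ∀ t ∈ Icc t0 (t0 + 2 * h), |τ t| ≤ 1 := by
    intro t ht
    have a1 : 0 ≤ (t - t0) / h := div_nonneg (by linarith [ht.1]) hh0.le
    have a2 : (t - t0) / h ≤ 2 := by rw [div_le_iff₀ hh0]; linarith [ht.2]
    rw [abs_le]; constructor <;> simp only [τ] <;> linarith
  have hder : ∀ (l : List ℤ) (C t : ℝ),
      HasDerivAt (fun t => evalR l (τ t) / C) (evalR (lder l) (τ t) / (C * h)) t := by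
    intro l C t
    have := ((hasDerivAt_evalR l (τ t)).comp t (hτ t)).div_const C
    refine hd_congr this (fun _ => rfl) ?_
    rw [mul_comm C h, ← div_div]; ring
  let D : ℝ → Fin 3 → ℂ := fun t => tri (evalR c.X0 (τ t) / 2 ^ c.p) (evalR c.Y0 (τ t) / 2 ^ c.p)
    (evalR c.X1 (τ t) / 2 ^ c.p) (evalR c.Y1 (τ t) / 2 ^ c.p)
  let V : ℝ → Fin 3 → ℂ := fun t => tri (evalR (lder c.X0) (τ t) / (2 ^ c.p * h))
    (evalR (lder c.Y0) (τ t) / (2 ^ c.p * h)) (evalR (lder c.X1) (τ t) / (2 ^ c.p * h))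
    (evalR (lder c.Y1) (τ t) / (2 ^ c.p * h))
  let A : ℝ → Fin 3 → ℂ := fun t => tri (evalR (lder (lder c.X0)) (τ t) / (2 ^ c.p * h * h))
    (evalR (lder (lder c.Y0)) (τ t) / (2 ^ c.p * h * h))
    (evalR (lder (lder c.X1)) (τ t) / (2 ^ c.p * h * h))
    (evalR (lder (lder c.Y1)) (τ t) / (2 ^ c.p * h * h))
  have hD : ∀ t, HasDerivAt D (V t) t := fun t =>
    hd_tri (hder _ _ t) (hder _ _ t) (hder _ _ t) (hder _ _ t)
  have hV : ∀ t, HasDerivAt V (A t) t := fun t =>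
    hd_tri (hder _ _ t) (hder _ _ t) (hder _ _ t) (hder _ _ t)
  have rx0 := Rep.ofL c.X c.X0
  have ry0 := Rep.ofL c.X c.Y0
  have rx1 := Rep.ofL c.X c.X1
  have ry1 := Rep.ofL c.X c.Y1
  have rx2 := (rx0.add rx1).neg
  have ry2 := (ry0.add ry1).neg
  have rh0 := Rep.ofL c.X c.H0
  have rh1 := Rep.ofL c.X c.H1
  have rh2 := Rep.ofL c.X c.H2
  have hE : ∀ {x y hh : ℝ}, |hh * hh * (x * x + y * y) - (((2 ^ (4 * c.p) : ℕ) : ℤ) : ℝ)| ≤ c.eH →
      |hh / 2 ^ c.p * (hh / 2 ^ c.p)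
        * ‖((x / 2 ^ c.p : ℝ) : ℂ) + ((y / 2 ^ c.p : ℝ) : ℂ) * Complex.I‖ ^ 2 - 1|
        ≤ (c.epsH : ℝ) := by
    intro x y hh h1
    rw [norm_cplx_sq, hepsH]
    have e1 : (((2 ^ (4 * c.p) : ℕ) : ℤ) : ℝ) = (2 ^ c.p) ^ 4 := by
      push_cast; rw [← pow_mul, mul_comm]
    rw [e1] at h1
    have e2 : hh / 2 ^ c.p * (hh / 2 ^ c.p)
        * (x / 2 ^ c.p * (x / 2 ^ c.p) + y / 2 ^ c.p * (y / 2 ^ c.p)) - 1
        = (hh * hh * (x * x + y * y) - (2 ^ c.p) ^ 4) / (2 ^ c.p) ^ 4 := by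
      field_simp
    rw [e2, abs_div, abs_of_pos (by positivity : (0 : ℝ) < (2 ^ c.p) ^ 4)]
    gcongr
  have hR : ∀ {a f0 f1 f2 : ℝ},
      |(((3 * 2 ^ (2 * c.hs + 3 * c.p) : ℕ) : ℤ) : ℝ) * a
        + (((c.hn ^ 2 : ℕ) : ℤ) : ℝ) * (((3 : ℤ) : ℝ) * f0 - (f0 + f1 + f2))| ≤ c.eR →
      |a / (2 ^ c.p * h * h) + f0 / (2 ^ c.p) ^ 4 - 1 / 3 * ((f0 + f1 + f2) / (2 ^ c.p) ^ 4)|
        ≤ (c.epsR : ℝ) := by
    intro a f0 f1 f2 h1
    rw [hepsR, hh]
    apply resid hP hn0 (by positivity)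
    have e1 : (((3 * 2 ^ (2 * c.hs + 3 * c.p) : ℕ) : ℤ) : ℝ)
        = 3 * ((2 ^ c.hs) ^ 2 * (2 ^ c.p) ^ 3) := by
      push_cast; rw [pow_add, ← pow_mul, ← pow_mul, mul_comm c.hs 2, mul_comm c.p 3]
    rw [e1] at h1
    push_cast at h1
    exact h1
  have hbody : ∀ t ∈ Icc t0 (t0 + 2 * h), (∀ k, (c.rho : ℝ) + c.mar ≤ ‖D t k‖) ∧
      n3 (A t - F0 (D t)) ≤ 8 * c.epsR + 12 * c.epsH / (c.rho : ℝ) ^ 2 := by
    intro t ht
    have hx := hτ1 t ht
    obtain ⟨a1, a2, a3⟩ := okH_sound q7 hx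
    obtain ⟨b1, b2, b3⟩ := okH_sound q8 hx
    obtain ⟨c1, c2, c3⟩ := okH_sound q9 hx
    have e0 := hE (okK_sound p1 (Rep.kE _ rx0 ry0 rh0) hx)
    have e1 := hE (okK_sound p2 (Rep.kE _ rx1 ry1 rh1) hx)
    have e2 := hE (okK_sound p3 (Rep.kE _ rx2 ry2 rh2) hx)
    have z2 : ((-(evalR c.X0 (τ t) + evalR c.X1 (τ t)) / 2 ^ c.p : ℝ) : ℂ)
        + ((-(evalR c.Y0 (τ t) + evalR c.Y1 (τ t)) / 2 ^ c.p : ℝ) : ℂ) * Complex.I = D t 2 := by
      show _ = ((-(evalR c.X0 (τ t) / 2 ^ c.p + evalR c.X1 (τ t) / 2 ^ c.p) : ℝ) : ℂ)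
        + ((-(evalR c.Y0 (τ t) / 2 ^ c.p + evalR c.Y1 (τ t) / 2 ^ c.p) : ℝ) : ℂ) * Complex.I
      rw [neg_div, add_div, neg_div, add_div]
    rw [z2] at e2
    have g0 := body (z := D t 0) e0 k6 a1 a2 a3 hρ0 k4
    have g1 := body (z := D t 1) e1 k6 b1 b2 b3 hρ0 k4
    have g2 := body (z := D t 2) e2 k6 c1 c2 c3 hρ0 k4
    refine ⟨fun k => by fin_cases k; exacts [g0.1, g1.1, g2.1], ?_⟩
    have r1 := hR (okK_sound p4 (Rep.kR _ _ (Rep.ofL c.X _) (rx0.kF rh0) (rx1.kF rh1)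
      (rx2.kF rh2)) hx)
    have r2 := hR (okK_sound p5 (Rep.kR _ _ (Rep.ofL c.X _) (ry0.kF rh0) (ry1.kF rh1)
      (ry2.kF rh2)) hx)
    have r3 := hR (okK_sound p6 (Rep.kR _ _ (Rep.ofL c.X _) (rx1.kF rh1) (rx0.kF rh0)
      (rx2.kF rh2)) hx)
    have r4 := hR (okK_sound p7 (Rep.kR _ _ (Rep.ofL c.X _) (ry1.kF rh1) (ry0.kF rh0)
      (ry2.kF rh2)) hx)
    have := defect (εR := c.epsR) (ax0 := evalR (lder (lder c.X0)) (τ t) / (2 ^ c.p * h * h))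
      (ay0 := evalR (lder (lder c.Y0)) (τ t) / (2 ^ c.p * h * h))
      (ax1 := evalR (lder (lder c.X1)) (τ t) / (2 ^ c.p * h * h))
      (ay1 := evalR (lder (lder c.Y1)) (τ t) / (2 ^ c.p * h * h))
      (by refine le_trans (le_of_eq ?_) r1; congr 1; ring)
      (by refine le_trans (le_of_eq ?_) r2; congr 1; ring)
      (by refine le_trans (le_of_eq ?_) r3; congr 1; ring)
      (by refine le_trans (le_of_eq ?_) r4; congr 1; ring) g0.2 g1.2 g2.2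
    refine le_trans this (le_of_eq ?_)
    ring
  -- the fence
  set B0 : ℝ := max ((c.kap : ℝ) * (s.a + jump0 s c)) ((s.b : ℝ) + jump1 s c) with hB0
  let B : ℝ → ℝ := fun t => (B0 + c.eps * (t - t0)) * Real.exp (c.kap * (t - t0))
  have hB : ∀ t, HasDerivAt B (c.eps * Real.exp (c.kap * (t - t0)) + c.kap * B t) t := by
    intro t
    have a1 : HasDerivAt (fun t => B0 + c.eps * (t - t0)) (c.eps : ℝ) t := by
      simpa using (((hasDerivAt_id t).sub_const t0).const_mul (c.eps : ℝ)).const_add B0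
    have a2 : HasDerivAt (fun t => (c.kap : ℝ) * (t - t0)) (c.kap : ℝ) t := by
      simpa using ((hasDerivAt_id t).sub_const t0).const_mul (c.kap : ℝ)
    refine hd_congr (a1.mul a2.exp) (fun _ => rfl) ?_
    simp only [B]; ring
  have hτ0 : τ t0 = ((-1 : ℤ) : ℝ) := by simp [τ]
  have hτ2 : τ (t0 + 2 * h) = ((1 : ℤ) : ℝ) := by
    simp only [τ]; field_simp; push_cast; ring
  have j0 : n3 (s.D - D t0) ≤ jump0 s c := by
    simp only [St.D, D, hτ0, ← cast_pos, tri_sub]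
    refine le_trans (n3_tri _ _ _ _) (le_of_eq ?_)
    unfold jump0; push_cast
    simp only [abs_sub_comm]
  have j1 : n3 (s.V - V t0) ≤ jump1 s c := by
    simp only [St.V, V, hτ0, hhdef, ← cast_vel, tri_sub]
    refine le_trans (n3_tri _ _ _ _) (le_of_eq ?_)
    unfold jump1; push_cast
    simp only [abs_sub_comm]
  have i0 : (c.kap : ℝ) * n3 (d t0 - D t0) ≤ B0 := by
    refine le_trans ?_ (le_max_left _ _)
    have := n3_sub_le (d t0) s.D (D t0)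
    gcongr
    linarith [hnear.1]
  have i1 : n3 (v t0 - V t0) ≤ B0 := by
    refine le_trans ?_ (le_max_right _ _)
    have := n3_sub_le (v t0) s.V (V t0)
    linarith [hnear.2]
  have hB00 : 0 ≤ B0 := le_trans (n3_nonneg _) i1
  have hB0le : B0 + 2 * h * c.eps ≤ c.B1 * c.gr := by
    rcases le_total ((c.kap : ℝ) * (s.a + jump0 s c)) ((s.b : ℝ) + jump1 s c) with h1 | h1
    · rw [hB0, max_eq_right h1]; exact k12
    · rw [hB0, max_eq_left h1]; exact k11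
  have hB10 : (0 : ℝ) ≤ c.B1 := by
    have : (0 : ℝ) ≤ c.B1 * c.gr := le_trans (by positivity) hB0le
    exact nonneg_of_mul_nonneg_left this hgr0
  have hBle : ∀ t ∈ Icc t0 (t0 + 2 * h), B t ≤ c.B1 := by
    intro t ht
    have a1 : t - t0 ≤ 2 * h := by linarith [ht.2]
    have a2 : 0 ≤ t - t0 := by linarith [ht.1]
    calc B t ≤ (B0 + c.eps * (2 * h)) * Real.exp (c.kap * (2 * h)) := by
          simp only [B]; gcongr
      _ ≤ (c.B1 * c.gr) * Real.exp (2 * c.kap * h) := by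
          rw [show (c.kap : ℝ) * (2 * h) = 2 * c.kap * h by ring]
          gcongr; linarith
      _ = c.B1 * (c.gr * Real.exp (2 * c.kap * h)) := by ring
      _ ≤ c.B1 * 1 := by gcongr
      _ = c.B1 := mul_one _
  have key := fence hs hμ hD hV (t0 := t0) (t1 := t0 + 2 * h) k2 k3 k5 k4
    (fun t ht => (hbody t ht).1) hB (fun t ht => le_trans (hBle t ht) k13)
    (e := fun _ => 8 * c.epsR + 12 * c.epsH / (c.rho : ℝ) ^ 2) (fun t ht => (hbody t ht).2)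
    (by
      intro t ht
      have a1 : 1 ≤ Real.exp (c.kap * (t - t0)) :=
        Real.one_le_exp (mul_nonneg k2.le (by linarith [ht.1]))
      have a2 : (c.eps : ℝ) ≤ c.eps * Real.exp (c.kap * (t - t0)) := by nlinarith
      linarith)
    (by simpa [B] using i0) (by simpa [B] using i1)
  refine ⟨t0 + 2 * h, by linarith, ?_, ?_⟩
  · have ht : t0 + 2 * h ∈ Icc t0 (t0 + 2 * h) := ⟨by linarith, le_rfl⟩
    obtain ⟨a1, a2⟩ := key _ ht
    have a3 := hBle _ ht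
    have e1 : c.out.D = D (t0 + 2 * h) := by
      simp only [St.D, Cert.out, D, hτ2, cast_pos]
    have e2 : c.out.V = V (t0 + 2 * h) := by
      simp only [St.V, Cert.out, V, hτ2, cast_vel, ← hhdef]
    constructor
    · rw [e1]
      show _ ≤ ((c.B1 / c.kap : ℚ) : ℝ)
      push_cast
      rw [le_div_iff₀ k2]; linarith
    · rw [e2]
      show _ ≤ ((c.B1 : ℚ) : ℝ)
      linarith
  · intro t ht k
    have a1 := (key t ht).1
    have a2 := hBle t ht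
    have a3 : n3 (d t - D t) ≤ c.mar := le_of_mul_le_mul_left (by linarith) k2
    have c1 := le_n3 (d t - D t) k
    have c2 := (hbody t ht).1 k
    have c3 := norm_sub_norm_le (D t k) (d t k)
    rw [norm_sub_rev] at c3
    simp only [Pi.sub_apply] at c1
    linarith

end Pool.Agent.Lib.MP_6e7c44_mp
end
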